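import Pool.Agent.NGP.BDefs
import Pool.Agent.H93NG.Gram

/-!
# NGP, B1: a base grammar of a context-free language

PROOF. Let `L = G.language`, `w ∈ G.language ↔ AR G w [nonterminal initial]`
(`mem_language_iff_ar` in H93NG/Gram). `A` is finite: take `c : A → ℕ` injective with values `< K`
(`Finite.equivFin`, `K = n`). Let `F` be the following finite set of lists of symbols: `[]`; all
`[terminal a]`; `[nonterminal G.initial]`; for each rule `r ∈ G.rules`: `[nonterminal r.input]`, all
suffixes of `r.output`, all `[s]` with `s ∈ r.output`. So `F` is closed under `s :: st ↦ st` and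
`s :: st ↦ [s]` (`[s]` and `[]` are in `F`). Since `F` is countable there is `f₀` with values in `ℕ`,
injective on `F` (`Set.countable_iff_exists_injOn`); put `f st = K + 1 + f₀ st`. Let `R` be the list of
a finite set (`Set.Finite.toFinset`, `Finset.toList`) consisting of:
`(i, 0, i)`, `(i, i, 0)` for `i ≤ K`; `(f (s :: st), f [s], f st)` for `s :: st ∈ F`;
`(f [nonterminal r.input], f r.output, 0)` for `r ∈ G.rules`; `(f [], 0, 0)`;
`(f [terminal a], c a + 1, 0)` for `a : A`. (It may be easier to take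
`Set.Finite.image` of `F`, `G.rules`, `Set.univ : Set A`, `Set.Iic K`.) `B` = any bound of all kinds in
`R`, larger than `K` (a finite set of numbers is bounded; or `B = K + 1 + ` sum over the list `R` of
`x.1 + x.2.1 + x.2.2`), `k₀ = f [nonterminal G.initial]`.

Soundness: by induction on `D0 K R k u`: if `k ≤ K` then `u = lets k`, and for all `st ∈ F` with `f st = k`
there is `v` with `u = v.map c` and `AR G v st` (injectivity of `f₀` on `F`; `AR.expand`, `AR.term`,
`ar_append`; for `(f (s :: st), f [s], f st)` use `ar_append` with `[s] ++ st`).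
Completeness: Let `Q st u` be: `u` is a concatenation of words `u_s` for the symbols `s` of `st`, with
`D0 K R (f [s]) u_s` (recursive or inductive predicate on `st`). (i) `st ∈ F → Q st u → D0 K R (f st) u`
(induction on `st`, rules `(f [], 0, 0)`, `(f (s :: st), f [s], f st)`). (ii) `Q` splits over `++`. (iii)
`AR G v st → Q st (v.map c)` by induction on `AR`: `term`: `D0 (f [terminal a]) [c a]` by the rule
`(f [terminal a], c a + 1, 0)`; `expand r`: by (ii), (i) for `r.output ∈ F` and the rule
`(f [nonterminal r.input], f r.output, 0)`.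
-/

namespace Pool.Agent.NGP.PB

open Pool.Agent.NGP Pool.Agent.H93NG Set

private def B1Q {S : Type*} (D : List S → List ℕ → Prop) : List S → List ℕ → Prop
  | [], u => u = []
  | s :: st, u => ∃ u₁ u₂, u = u₁ ++ u₂ ∧ D [s] u₁ ∧ B1Q D st u₂

private theorem B1Q_append {S : Type*} {D : List S → List ℕ → Prop} {α β : List S} :
    ∀ {u : List ℕ}, B1Q D (α ++ β) u → ∃ u₁ u₂, u = u₁ ++ u₂ ∧ B1Q D α u₁ ∧ B1Q D β u₂ := by
  induction α with
  | nil => intro u h; exact ⟨[], u, rfl, rfl, h⟩
  | cons s α ih =>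
    intro u h
    obtain ⟨u₁, u₂, rfl, h1, h2⟩ := h
    obtain ⟨u₃, u₄, rfl, h3, h4⟩ := ih h2
    exact ⟨u₁ ++ u₃, u₄, by rw [List.append_assoc], ⟨u₁, u₃, rfl, h1, h3⟩, h4⟩

theorem base_grammar {A : Type} [Finite A] (L : Language A) (hL : L.IsContextFree) :
    ∃ (K : ℕ) (c : A → ℕ) (R : List (ℕ × ℕ × ℕ)) (k₀ B : ℕ), Function.Injective c ∧
      (∀ a, c a < K) ∧ Good K R B ∧ k₀ < B ∧
      ∀ u : List ℕ, D0 K R k₀ u ↔ ∃ v ∈ L, u = v.map c := by
  classical
  obtain ⟨G, rfl⟩ := hL
  obtain ⟨K, ⟨e⟩⟩ := Finite.exists_equiv_fin A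
  set c : A → ℕ := fun a => (e a).val with hc
  have hcinj : Function.Injective c := fun a b h => e.injective (Fin.ext h)
  have hcK : ∀ a, c a < K := fun a => (e a).isLt
  -- the finite set of symbols
  let Sy : Set (Symbol A G.NT) := (range (fun a : A => (Symbol.terminal a : Symbol A G.NT)) ∪
    {Symbol.nonterminal G.initial}) ∪
    ⋃ r ∈ (G.rules : Set (ContextFreeRule A G.NT)),
      ({Symbol.nonterminal r.input} ∪ {s | s ∈ r.output})
  have hSy : Sy.Finite := by
    refine ((finite_range _).union (finite_singleton _)).union ?_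
    refine (Finset.finite_toSet _).biUnion fun r _ => ?_
    exact (finite_singleton _).union (List.finite_toSet _)
  have hSt : ∀ a : A, (Symbol.terminal a : Symbol A G.NT) ∈ Sy := fun a =>
    Or.inl (Or.inl ⟨a, rfl⟩)
  have hSi : (Symbol.nonterminal G.initial : Symbol A G.NT) ∈ Sy := Or.inl (Or.inr rfl)
  have hSn : ∀ r ∈ G.rules, (Symbol.nonterminal r.input : Symbol A G.NT) ∈ Sy := fun r hr =>
    Or.inr (mem_biUnion (Finset.mem_coe.2 hr) (Or.inl rfl))
  have hSo : ∀ r ∈ G.rules, ∀ s ∈ r.output, s ∈ Sy := fun r hr s hs =>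
    Or.inr (mem_biUnion (Finset.mem_coe.2 hr) (Or.inr hs))
  set M : ℕ := (∑ r ∈ G.rules, r.output.length) + 1 with hM
  have hMo : ∀ r ∈ G.rules, r.output.length ≤ M := fun r hr => by
    have := Finset.single_le_sum (f := fun r : ContextFreeRule A G.NT => r.output.length)
      (fun _ _ => Nat.zero_le _) hr
    omega
  let F : Set (List (Symbol A G.NT)) := {st | (∀ s ∈ st, s ∈ Sy) ∧ st.length ≤ M}
  have hF : F.Finite := by
    have : Finite Sy := hSy.to_subtype
    refine ((List.finite_length_le Sy M).image (List.map Subtype.val)).subset ?_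
    rintro st ⟨h1, h2⟩
    lift st to List Sy using h1
    exact ⟨st, by simpa using h2, rfl⟩
  have hF0 : ([] : List (Symbol A G.NT)) ∈ F := ⟨by simp, by simp⟩
  have hF1 : ∀ s st, s :: st ∈ F → [s] ∈ F ∧ st ∈ F := by
    rintro s st ⟨h1, h2⟩
    refine ⟨⟨?_, ?_⟩, ?_, ?_⟩
    · intro x hx
      rw [List.mem_singleton] at hx
      rw [hx]
      exact h1 s List.mem_cons_self
    · simp [hM]
    · exact fun x hx => h1 x (List.mem_cons_of_mem _ hx)
    · rw [List.length_cons] at h2
      omega
  have hFs : ∀ s ∈ Sy, [s] ∈ F := fun s hs => ⟨by simpa using hs, by simp [hM]⟩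
  have hFo : ∀ r ∈ G.rules, r.output ∈ F := fun r hr => ⟨hSo r hr, hMo r hr⟩
  obtain ⟨f₀, hf₀⟩ := countable_iff_exists_injOn.1 hF.countable
  set f : List (Symbol A G.NT) → ℕ := fun st => K + 1 + f₀ st with hf
  have hfK : ∀ st, K < f st := fun st => by
    show K < K + 1 + f₀ st
    omega
  have hfinj : ∀ st ∈ F, ∀ st' ∈ F, f st = f st' → st = st' := by
    intro st h st' h' he
    apply hf₀ h h'
    have : K + 1 + f₀ st = K + 1 + f₀ st' := he
    omega
  let RS : Set (ℕ × ℕ × ℕ) := ((fun i : ℕ => (i, 0, i)) '' Iic K) ∪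
    ((fun i : ℕ => (i, i, 0)) '' Iic K) ∪
    {x | ∃ s st, s :: st ∈ F ∧ x = (f (s :: st), f [s], f st)} ∪
    ((fun r : ContextFreeRule A G.NT => (f [Symbol.nonterminal r.input], f r.output, 0)) ''
      (G.rules : Set (ContextFreeRule A G.NT))) ∪
    {(f [], 0, 0)} ∪ range (fun a : A => (f [Symbol.terminal a], c a + 1, 0))
  have hRS : RS.Finite := by
    refine (((((((finite_Iic K).image _).union ((finite_Iic K).image _)).union ?_).union
      ((Finset.finite_toSet _).image _)).union (finite_singleton _)).union (finite_range _))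
    refine (hF.image (fun l => (f l, f (l.take 1), f l.tail))).subset ?_
    rintro x ⟨s, st, h, rfl⟩
    exact ⟨s :: st, h, rfl⟩
  set R : List (ℕ × ℕ × ℕ) := hRS.toFinset.toList with hR
  have hRm : ∀ x, x ∈ R ↔ x ∈ RS := fun x => by
    rw [hR, Finset.mem_toList, Finite.mem_toFinset]
  have r1 : ∀ i ≤ K, (i, 0, i) ∈ R := fun i hi => by
    rw [hRm]
    exact Or.inl (Or.inl (Or.inl (Or.inl (Or.inl ⟨i, hi, rfl⟩))))
  have r2 : ∀ i ≤ K, (i, i, 0) ∈ R := fun i hi => by
    rw [hRm]
    exact Or.inl (Or.inl (Or.inl (Or.inl (Or.inr ⟨i, hi, rfl⟩))))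
  have r3 : ∀ s st, s :: st ∈ F → (f (s :: st), f [s], f st) ∈ R := fun s st h => by
    rw [hRm]
    exact Or.inl (Or.inl (Or.inl (Or.inr ⟨s, st, h, rfl⟩)))
  have r4 : ∀ r ∈ G.rules, (f [Symbol.nonterminal r.input], f r.output, 0) ∈ R := fun r hr => by
    rw [hRm]
    exact Or.inl (Or.inl (Or.inr ⟨r, Finset.mem_coe.2 hr, rfl⟩))
  have r5 : (f [], 0, 0) ∈ R := by
    rw [hRm]
    exact Or.inl (Or.inr rfl)
  have r6 : ∀ a : A, (f [Symbol.terminal a], c a + 1, 0) ∈ R := fun a => by
    rw [hRm]
    exact Or.inr ⟨a, rfl⟩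
  set k₀ : ℕ := f [Symbol.nonterminal G.initial] with hk₀
  set B : ℕ := K + 1 + k₀ + ∑ x ∈ hRS.toFinset, (x.1 + x.2.1 + x.2.2) with hB
  -- soundness
  have sound : ∀ k u, D0 K R k u → (k ≤ K → u = lets k) ∧
      ∀ st ∈ F, f st = k → ∃ v : List A, u = v.map c ∧ AR G v st := by
    intro k u h
    induction h with
    | @leaf i hi =>
      refine ⟨fun _ => rfl, fun st _ he => ?_⟩
      have := hfK st
      omega
    | @bin k k₁ k₂ u v hm _ _ ih1 ih2 =>
      rw [hRm] at hm
      rcases hm with ((((⟨i, hi, he⟩ | ⟨i, hi, he⟩) | ⟨s, st', hs, he⟩) | ⟨r, hr, he⟩) | he) |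
        ⟨a, he⟩
      · simp only [Prod.mk.injEq] at he
        obtain ⟨rfl, rfl, rfl⟩ := he
        have hi' : i ≤ K := hi
        constructor
        · intro _
          rw [ih1.1 (Nat.zero_le _), ih2.1 hi']
          rfl
        · intro st _ he
          have := hfK st
          omega
      · simp only [Prod.mk.injEq] at he
        obtain ⟨rfl, rfl, rfl⟩ := he
        have hi' : i ≤ K := hi
        constructor
        · intro _
          rw [ih1.1 hi', ih2.1 (Nat.zero_le _)]
          simp [lets]
        · intro st _ he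
          have := hfK st
          omega
      · simp only [Prod.mk.injEq] at he
        obtain ⟨rfl, rfl, rfl⟩ := he
        constructor
        · intro hk
          have := hfK (s :: st')
          omega
        · intro st hst he
          have he' := hfinj _ hst _ hs he
          subst he'
          obtain ⟨v₁, rfl, h1⟩ := ih1.2 [s] (hF1 s st' hs).1 rfl
          obtain ⟨v₂, rfl, h2⟩ := ih2.2 st' (hF1 s st' hs).2 rfl
          refine ⟨v₁ ++ v₂, by rw [List.map_append], ?_⟩
          exact ar_append (α := [s]).2 ⟨v₁, v₂, rfl, h1, h2⟩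
      · simp only [Prod.mk.injEq] at he
        obtain ⟨rfl, rfl, rfl⟩ := he
        have hr' : r ∈ G.rules := Finset.mem_coe.1 hr
        constructor
        · intro hk
          have := hfK [Symbol.nonterminal r.input]
          omega
        · intro st hst he
          have he' := hfinj _ hst _ (hFs _ (hSn r hr')) he
          subst he'
          obtain ⟨v₁, rfl, h1⟩ := ih1.2 r.output (hFo r hr') rfl
          refine ⟨v₁, ?_, ?_⟩
          · rw [ih2.1 (Nat.zero_le _)]
            simp [lets]
          · exact AR.expand hr' (by rw [List.append_nil]; exact h1)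
      · have he' : (k, k₁, k₂) = (f [], 0, 0) := he
        simp only [Prod.mk.injEq] at he'
        obtain ⟨rfl, rfl, rfl⟩ := he'
        constructor
        · intro hk
          have := hfK ([] : List (Symbol A G.NT))
          omega
        · intro st hst he
          have he' := hfinj _ hst _ hF0 he
          subst he'
          refine ⟨[], ?_, AR.nil⟩
          rw [ih1.1 (Nat.zero_le _), ih2.1 (Nat.zero_le _)]
          rfl
      · simp only [Prod.mk.injEq] at he
        obtain ⟨rfl, rfl, rfl⟩ := he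
        constructor
        · intro hk
          have := hfK ([Symbol.terminal a] : List (Symbol A G.NT))
          omega
        · intro st hst he
          have he' := hfinj _ hst _ (hFs _ (hSt a)) he
          subst he'
          refine ⟨[a], ?_, AR.term AR.nil⟩
          rw [ih1.1 (hcK a), ih2.1 (Nat.zero_le _)]
          rfl
  -- completeness
  have c1 : ∀ st, st ∈ F → ∀ u, B1Q (fun st u => D0 K R (f st) u) st u → D0 K R (f st) u := by
    intro st
    induction st with
    | nil =>
      rintro _ u rfl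
      exact D0.bin r5 (D0.leaf (Nat.zero_le _)) (D0.leaf (Nat.zero_le _))
    | cons s st ih =>
      rintro hst u ⟨u₁, u₂, rfl, h1, h2⟩
      exact D0.bin (r3 s st hst) h1 (ih (hF1 s st hst).2 u₂ h2)
  have c2 : ∀ (v : List A) (st : List (Symbol A G.NT)), AR G v st →
      B1Q (fun st u => D0 K R (f st) u) st (v.map c) := by
    intro v st h
    induction h with
    | nil => rfl
    | @term b w st _ ih =>
      refine ⟨[c b], w.map c, rfl, ?_, ih⟩
      have h1 : D0 K R (f [Symbol.terminal b]) (lets (c b + 1) ++ lets 0) :=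
        D0.bin (r6 b) (D0.leaf (hcK b)) (D0.leaf (Nat.zero_le _))
      exact h1
    | @expand r w st hr _ ih =>
      obtain ⟨u₁, u₂, he, h1, h2⟩ := B1Q_append ih
      refine ⟨u₁, u₂, he, ?_, h2⟩
      have h3 : D0 K R (f [Symbol.nonterminal r.input]) (u₁ ++ lets 0) :=
        D0.bin (r4 r hr) (c1 r.output (hFo r hr) u₁ h1) (D0.leaf (Nat.zero_le _))
      rw [show u₁ ++ lets 0 = u₁ from List.append_nil u₁] at h3
      exact h3
  refine ⟨K, c, R, k₀, B, hcinj, hcK, ⟨?_, fun i hi => ⟨r1 i hi, r2 i hi⟩, ?_⟩, ?_, ?_⟩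
  · omega
  · intro k k₁ k₂ h
    have h1 : (k, k₁, k₂) ∈ hRS.toFinset := by
      rw [Finite.mem_toFinset]
      exact (hRm _).1 h
    have h2 := Finset.single_le_sum (f := fun x : ℕ × ℕ × ℕ => x.1 + x.2.1 + x.2.2)
      (fun _ _ => Nat.zero_le _) h1
    simp only at h2
    omega
  · omega
  · intro u
    constructor
    · intro h
      obtain ⟨v, hv, hAR⟩ := (sound _ _ h).2 _ (hFs _ hSi) rfl
      exact ⟨v, (mem_language_iff_ar G v).2 hAR, hv⟩
    · rintro ⟨v, hv, rfl⟩
      exact c1 _ (hFs _ hSi) _ (c2 v _ ((mem_language_iff_ar G v).1 hv))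

end Pool.Agent.NGP.PB
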