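import Pool.Agent.NGP.BDefs

/-!
# NGP, B2: the language of the product grammar

PROOF. Preliminaries (copy the proofs of H93NG/Trans for `Path` if helpful): `Pth E p u v q`,
`Pth E q u' v' r` give `Pth E p (u ++ u') (v ++ v') r`; a path reading `u ++ u'` splits in two paths at a
middle state; all edges `(p, i, o, r) ∈ E` have `p < sb E`, `r < sb E`, `o < ob E` (an element of a list
of numbers is `≤` its sum: `List.le_sum_of_mem`, with `List.mem_map_of_mem`), so if `p < sb E` and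
`Pth E p u v q` then `q < sb E`. `(cd k p r).unpair...` by `Nat.unpair_pair`; every number is
`cd k p r` for unique `k, p, r` (`Nat.pair_unpair`). If `k < B`, `p, r < sb E` then `cd k p r < (PGr K R k₀ B E).N`
(`Nat.pair_lt_max_add_one_sq`).

`ok_sound`: for a tree `τ` with `τ.ok (PGr K R k₀ B E)` and `τ.ty = cd k p r` there is `u` with `D0 K R k u` and
`Pth E p u τ.y r`. Induction on `τ`: `ep`: either an edge `(p, k, 0, r)` with `k ≤ K` (`D0.leaf`, one edge) or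
`k = 0`, `p = r` (`D0.leaf`, empty path); `lf`: an edge `(p, k, a + 1, r)`; `nd`: the children have
types `cd k₁ p s`, `cd k₂ s r`.

`exists_tree`: if `D0 K R k u`, `k < B`, `p < sb E`, `Pth E p u w r` then there is a tree `τ` with
`τ.ok (PGr K R k₀ B E)`, `τ.ty = cd k p r`, `τ.y = w`. Induction on `D0`. `bin`: split the path at
a state `s < sb E`. `leaf i`: induction on the path, for `lets i`: the empty path has `lets i = []`,
so `i = 0`, tree `Tr.ep`; a path with first edge `(p, j, o, s)` and the rest reading `u'`,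
`lets j ++ u' = lets i`: if `j = 0` the rest reads `lets i`, by induction a tree of type `cd i s r`, and the tree
of type `cd 0 p s` is `Tr.ep` (`o = 0`) or `Tr.lf` with the letter `a` (`o = a + 1`, `a < ob E`): rule
`(i, 0, i)`; if `j = a + 1` then `j = i`, `u' = [] = lets 0`, by induction a tree of type
`cd 0 s r`, rule `(i, i, 0)`. (So prove for all `i ≤ K` at once, induction on the path with `u` generalised.)
-/

namespace Pool.Agent.NGP.PB

open Pool.Agent.NGP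

theorem pth_append {E : Edges} {p q r : ℕ} {u u' v v' : List ℕ} (h : Pth E p u v q)
    (h' : Pth E q u' v' r) : Pth E p (u ++ u') (v ++ v') r := by
  induction h with
  | nil p => simpa using h'
  | cons hd _ ih =>
    have := Pth.cons hd (ih h')
    simpa [List.append_assoc] using this

theorem pth_single {E : Edges} {p i o q : ℕ} (h : (p, i, o, q) ∈ E) :
    Pth E p (lets i) (lets o) q := by
  simpa using Pth.cons h (Pth.nil q)

private theorem split_in' {E : Edges} {p q : ℕ} {z v : List ℕ} (h : Pth E p z v q) :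
    ∀ u u' : List ℕ, z = u ++ u' →
    ∃ m v₁ v₂, v = v₁ ++ v₂ ∧ Pth E p u v₁ m ∧ Pth E m u' v₂ q := by
  induction h with
  | nil p =>
    intro u u' hz
    obtain ⟨rfl, rfl⟩ := List.append_eq_nil_iff.mp hz.symm
    exact ⟨p, [], [], rfl, Pth.nil p, Pth.nil p⟩
  | @cons p i o q r z v hd hp ih =>
    intro u u' hz
    cases i with
    | zero =>
      obtain ⟨m, v₁, v₂, rfl, h1, h2⟩ := ih u u' (by simpa [lets] using hz)
      refine ⟨m, lets o ++ v₁, v₂, by simp, ?_, h2⟩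
      simpa [lets] using Pth.cons hd h1
    | succ x =>
      cases u with
      | nil =>
        refine ⟨p, [], lets o ++ v, by simp, Pth.nil p, ?_⟩
        have hz' : u' = x :: z := by simpa [lets] using hz.symm
        subst hz'
        simpa [lets] using Pth.cons hd hp
      | cons y u =>
        have hz' : x = y ∧ z = u ++ u' := by simpa [lets] using hz
        obtain ⟨rfl, hz''⟩ := hz'
        obtain ⟨m, v₁, v₂, rfl, h1, h2⟩ := ih u u' hz''
        refine ⟨m, lets o ++ v₁, v₂, by simp, ?_, h2⟩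
        simpa [lets] using Pth.cons hd h1

private theorem split_in {E : Edges} {p q : ℕ} {u u' v : List ℕ} (h : Pth E p (u ++ u') v q) :
    ∃ m v₁ v₂, v = v₁ ++ v₂ ∧ Pth E p u v₁ m ∧ Pth E m u' v₂ q := split_in' h u u' rfl

theorem edge_lt {E : Edges} {p i o r : ℕ} (h : (p, i, o, r) ∈ E) : p < sb E ∧ r < sb E ∧ o < ob E := by
  have h1 : p + r ≤ (E.map fun e => e.1 + e.2.2.2).sum :=
    List.le_sum_of_mem (List.mem_map_of_mem (f := fun e : ℕ × ℕ × ℕ × ℕ => e.1 + e.2.2.2) h)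
  have h2 : o ≤ (E.map fun e => e.2.2.1).sum :=
    List.le_sum_of_mem (List.mem_map_of_mem (f := fun e : ℕ × ℕ × ℕ × ℕ => e.2.2.1) h)
  unfold sb ob
  omega

private theorem pth_lt {E : Edges} {p q : ℕ} {u v : List ℕ} (h : Pth E p u v q) :
    p < sb E → q < sb E := by
  induction h with
  | nil p => exact id
  | cons hd _ ih => exact fun _ => ih (edge_lt hd).2.1

private theorem cd_lt {K : ℕ} {R : List (ℕ × ℕ × ℕ)} {k₀ B : ℕ} {E : Edges} {k p r : ℕ}
    (hk : k < B) (hp : p < sb E) (hr : r < sb E) : cd k p r < (PGr K R k₀ B E).N := by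
  have h1 : Nat.pair p r < (max p r + 1) ^ 2 := Nat.pair_lt_max_add_one_sq p r
  have h2 : (max p r + 1) ^ 2 ≤ sb E * sb E := by
    rw [sq]
    have : max p r + 1 ≤ sb E := by
      rcases le_total p r with h | h
      · rw [max_eq_right h]; omega
      · rw [max_eq_left h]; omega
    exact Nat.mul_le_mul this this
  have h3 : Nat.pair k (Nat.pair p r) < (max k (Nat.pair p r) + 1) ^ 2 :=
    Nat.pair_lt_max_add_one_sq _ _
  have h4 : max k (Nat.pair p r) + 1 ≤ B + sb E * sb E + 1 := by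
    have : max k (Nat.pair p r) ≤ B + sb E * sb E := max_le (by omega) (by omega)
    omega
  have h5 : (max k (Nat.pair p r) + 1) ^ 2 ≤ (B + sb E * sb E + 1) * (B + sb E * sb E + 1) := by
    rw [sq]
    exact Nat.mul_le_mul h4 h4
  exact lt_of_lt_of_le h3 h5

private theorem cd_surj (t : ℕ) : ∃ k p r, t = cd k p r :=
  ⟨t.unpair.1, t.unpair.2.unpair.1, t.unpair.2.unpair.2, by simp [cd]⟩

private theorem bin_cd {K : ℕ} {R : List (ℕ × ℕ × ℕ)} {k₀ B : ℕ} {E : Edges}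
    {k p r k₁ p₁ r₁ k₂ p₂ r₂ : ℕ} :
    (PGr K R k₀ B E).bin (cd k p r) (cd k₁ p₁ r₁) (cd k₂ p₂ r₂) = true ↔
      (k, k₁, k₂) ∈ R ∧ p = p₁ ∧ r₁ = p₂ ∧ r = r₂ := by
  simp [PGr, cd]

private theorem lf_cd {K : ℕ} {R : List (ℕ × ℕ × ℕ)} {k₀ B : ℕ} {E : Edges} {k p r a : ℕ} :
    (PGr K R k₀ B E).lf (cd k p r) a = true ↔ k ≤ K ∧ (p, k, a + 1, r) ∈ E := by
  simp [PGr, cd]

private theorem ep_cd {K : ℕ} {R : List (ℕ × ℕ × ℕ)} {k₀ B : ℕ} {E : Edges} {k p r : ℕ} :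
    (PGr K R k₀ B E).ep (cd k p r) = true ↔ (k ≤ K ∧ (p, k, 0, r) ∈ E) ∨ (k = 0 ∧ p = r) := by
  simp [PGr, cd]

private theorem cd_inj {k p r k' p' r' : ℕ} (h : cd k p r = cd k' p' r') :
    k = k' ∧ p = p' ∧ r = r' := by
  unfold cd at h
  rw [Nat.pair_eq_pair, Nat.pair_eq_pair] at h
  exact h

theorem ok_sound {K : ℕ} {R : List (ℕ × ℕ × ℕ)} {k₀ B : ℕ} {E : Edges} (τ : Tr) :
    ∀ k p r, τ.ok (PGr K R k₀ B E) → τ.ty = cd k p r →
    ∃ u, D0 K R k u ∧ Pth E p u τ.y r := by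
  induction τ with
  | ep t =>
    intro k p r h ht
    obtain ⟨_, h2⟩ := h
    have ht' : t = cd k p r := ht
    rw [ht', ep_cd] at h2
    rcases h2 with ⟨hk, he⟩ | ⟨rfl, rfl⟩
    · exact ⟨lets k, D0.leaf hk, by simpa [Tr.y, lets] using pth_single he⟩
    · exact ⟨lets 0, D0.leaf (Nat.zero_le K), Pth.nil p⟩
  | lf t a =>
    intro k p r h ht
    obtain ⟨_, _, h2⟩ := h
    have ht' : t = cd k p r := ht
    rw [ht', lf_cd] at h2
    exact ⟨lets k, D0.leaf h2.1, by simpa [Tr.y, lets] using pth_single h2.2⟩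
  | nd t l r ihl ihr =>
    intro k p s h ht
    obtain ⟨_, h2, hl, hr⟩ := h
    have ht' : t = cd k p s := ht
    obtain ⟨k₁, p₁, r₁, h1⟩ := cd_surj l.ty
    obtain ⟨k₂, p₂, r₂, h3⟩ := cd_surj r.ty
    rw [ht', h1, h3, bin_cd] at h2
    obtain ⟨hR, rfl, rfl, rfl⟩ := h2
    obtain ⟨u, hu, hpu⟩ := ihl _ _ _ hl h1
    obtain ⟨v, hv, hpv⟩ := ihr _ _ _ hr h3
    exact ⟨u ++ v, D0.bin hR hu hv, pth_append hpu hpv⟩

private theorem leaf_tree {K : ℕ} {R : List (ℕ × ℕ × ℕ)} {k₀ B : ℕ} (hG : Good K R B)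
    {E : Edges} {k p r o : ℕ} (hk : k ≤ K) (he : (p, k, o, r) ∈ E) :
    ∃ τ : Tr, τ.ok (PGr K R k₀ B E) ∧ τ.ty = cd k p r ∧ τ.y = lets o := by
  obtain ⟨h1, h2, h3⟩ := edge_lt he
  have hN : cd k p r < (PGr K R k₀ B E).N := cd_lt (lt_of_le_of_lt hk hG.1) h1 h2
  cases o with
  | zero => exact ⟨Tr.ep (cd k p r), ⟨hN, ep_cd.2 (Or.inl ⟨hk, he⟩)⟩, rfl, rfl⟩
  | succ a =>
    refine ⟨Tr.lf (cd k p r) a, ⟨hN, ?_, lf_cd.2 ⟨hk, he⟩⟩, rfl, rfl⟩
    show a < ob E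
    omega

private theorem path_tree {K : ℕ} {R : List (ℕ × ℕ × ℕ)} {k₀ B : ℕ} (hG : Good K R B)
    {E : Edges} {p r : ℕ} {u w : List ℕ} (h : Pth E p u w r) : ∀ i ≤ K, u = lets i → p < sb E →
    ∃ τ : Tr, τ.ok (PGr K R k₀ B E) ∧ τ.ty = cd i p r ∧ τ.y = w := by
  induction h with
  | nil p =>
    intro i hi hu hp
    have hi0 : i = 0 := by
      cases i with
      | zero => rfl
      | succ a => simp [lets] at hu
    subst hi0
    exact ⟨Tr.ep (cd 0 p p), ⟨cd_lt (lt_of_le_of_lt hi hG.1) hp hp,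
      ep_cd.2 (Or.inr ⟨rfl, rfl⟩)⟩, rfl, rfl⟩
  | @cons p j o s r u' v he hr ih =>
    intro i hi hu hp
    obtain ⟨h1, h2, -⟩ := edge_lt he
    have hrb := pth_lt hr h2
    cases j with
    | zero =>
      have hu' : u' = lets i := by simpa [lets] using hu
      obtain ⟨τ, hτ, hty, hy⟩ := ih i hi hu' h2
      obtain ⟨τ₀, hτ₀, hty₀, hy₀⟩ := leaf_tree (k₀ := k₀) hG (Nat.zero_le K) he
      refine ⟨Tr.nd (cd i p r) τ₀ τ, ⟨cd_lt (lt_of_le_of_lt hi hG.1) hp hrb, ?_, hτ₀, hτ⟩, rfl, ?_⟩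
      · rw [hty₀, hty, bin_cd]
        exact ⟨(hG.2.1 i hi).1, rfl, rfl, rfl⟩
      · simp [Tr.y, hy₀, hy]
    | succ a =>
      have hi' : i = a + 1 ∧ u' = [] := by
        cases i with
        | zero => simp [lets] at hu
        | succ b =>
          have : a = b ∧ u' = [] := by simpa [lets] using hu
          exact ⟨by rw [this.1], this.2⟩
      obtain ⟨rfl, hu'⟩ := hi'
      obtain ⟨τ, hτ, hty, hy⟩ := ih 0 (Nat.zero_le K) (by rw [hu']; rfl) h2
      obtain ⟨τ₀, hτ₀, hty₀, hy₀⟩ := leaf_tree (k₀ := k₀) hG hi he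
      refine ⟨Tr.nd (cd (a + 1) p r) τ₀ τ,
        ⟨cd_lt (lt_of_le_of_lt hi hG.1) hp hrb, ?_, hτ₀, hτ⟩, rfl, ?_⟩
      · rw [hty₀, hty, bin_cd]
        exact ⟨(hG.2.1 _ hi).2, rfl, rfl, rfl⟩
      · simp [Tr.y, hy₀, hy]

theorem exists_tree {K : ℕ} {R : List (ℕ × ℕ × ℕ)} {k₀ B : ℕ} (hG : Good K R B)
    {E : Edges} {k : ℕ} {u : List ℕ} (h : D0 K R k u) : ∀ p r w, k < B → p < sb E →
    Pth E p u w r → ∃ τ : Tr, τ.ok (PGr K R k₀ B E) ∧ τ.ty = cd k p r ∧ τ.y = w := by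
  induction h with
  | leaf hi =>
    intro p r w _ hp hw
    exact path_tree hG hw _ hi rfl hp
  | @bin k k₁ k₂ u v hR _ _ ih₁ ih₂ =>
    intro p r w hk hp hw
    obtain ⟨m, w₁, w₂, rfl, h1, h2⟩ := split_in hw
    obtain ⟨-, hk₁, hk₂⟩ := hG.2.2 _ _ _ hR
    have hm := pth_lt h1 hp
    have hr := pth_lt h2 hm
    obtain ⟨τ₁, ho₁, ht₁, hy₁⟩ := ih₁ p m w₁ hk₁ hp h1
    obtain ⟨τ₂, ho₂, ht₂, hy₂⟩ := ih₂ m r w₂ hk₂ hm h2
    refine ⟨Tr.nd (cd k p r) τ₁ τ₂, ⟨cd_lt hk hp hr, ?_, ho₁, ho₂⟩, rfl, ?_⟩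
    · rw [ht₁, ht₂, bin_cd]
      exact ⟨hR, rfl, rfl, rfl⟩
    · simp [Tr.y, hy₁, hy₂]

theorem pgr_L {K : ℕ} {R : List (ℕ × ℕ × ℕ)} {k₀ B : ℕ} (hG : Good K R B) (hk : k₀ < B)
    (E : Edges) (w : List ℕ) :
    (PGr K R k₀ B E).L w ↔ ∃ u, D0 K R k₀ u ∧ Pth E 0 u w 1 := by
  constructor
  · rintro ⟨τ, hok, hty, rfl⟩
    exact ok_sound τ k₀ 0 1 hok hty
  · rintro ⟨u, hu, hw⟩
    have h0 : 0 < sb E := by unfold sb; omega
    exact exists_tree hG hu 0 1 w hk h0 hw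

end Pool.Agent.NGP.PB
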