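import Mathlib

/-!
# NGP/R1: tools for primitive recursive predicates and r.e. sets
-/

set_option linter.unusedSectionVars false

namespace Pool.Agent.NGP

variable {α β σ : Type} [Primcodable α] [Primcodable β] [Primcodable σ]

theorem pp_of {p : α → Prop} {f : α → Bool} (hf : Primrec f) (h : ∀ a, f a = true ↔ p a) :
    PrimrecPred p := by
  refine ⟨fun a => decidable_of_iff (f a = true) (h a), hf.of_eq fun a => ?_⟩
  cases hfa : f a with
  | true => exact (@decide_eq_true _ (_) ((h a).1 hfa)).symm
  | false =>
    refine (@decide_eq_false _ (_) fun hp => ?_).symm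
    rw [(h a).2 hp] at hfa
    exact Bool.noConfusion hfa

theorem pp_true {f : α → Bool} (hf : Primrec f) : PrimrecPred fun a => f a = true :=
  pp_of hf fun _ => Iff.rfl

theorem pp_const (p : Prop) : PrimrecPred fun _ : α => p := by
  classical
  exact ⟨fun _ => (inferInstance : Decidable p), Primrec.const (decide p)⟩

theorem pp_and {p q : α → Prop} (hp : PrimrecPred p) (hq : PrimrecPred q) :
    PrimrecPred fun a => p a ∧ q a := hp.and hq

theorem pp_or {p q : α → Prop} (hp : PrimrecPred p) (hq : PrimrecPred q) :
    PrimrecPred fun a => p a ∨ q a := hp.or hq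

theorem pp_not {p : α → Prop} (hp : PrimrecPred p) : PrimrecPred fun a => ¬ p a := hp.not

theorem pp_imp {p q : α → Prop} (hp : PrimrecPred p) (hq : PrimrecPred q) :
    PrimrecPred fun a => p a → q a :=
  (hp.not.or hq).of_eq fun a => by
    classical
    exact imp_iff_not_or.symm

theorem pp_eq {f g : α → β} (hf : Primrec f) (hg : Primrec g) :
    PrimrecPred fun a => f a = g a := Primrec.eq.comp hf hg

theorem pp_le {f g : α → ℕ} (hf : Primrec f) (hg : Primrec g) :
    PrimrecPred fun a => f a ≤ g a := Primrec.nat_le.comp hf hg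

theorem pp_lt {f g : α → ℕ} (hf : Primrec f) (hg : Primrec g) :
    PrimrecPred fun a => f a < g a := Primrec.nat_lt.comp hf hg

theorem pp_bex {f : α → List β} {P : α → β → Prop} (hf : Primrec f)
    (hP : PrimrecPred fun x : α × β => P x.1 x.2) : PrimrecPred fun a => ∃ b ∈ f a, P a b := by
  have h1 : PrimrecRel fun (b : β) (a : α) => P a b :=
    (hP.comp (Primrec.snd.pair Primrec.fst) : PrimrecPred fun x : β × α => P x.2 x.1).primrecRel
  exact (PrimrecRel.exists_mem_list h1).comp hf Primrec.id

theorem pp_ball {f : α → List β} {P : α → β → Prop} (hf : Primrec f)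
    (hP : PrimrecPred fun x : α × β => P x.1 x.2) : PrimrecPred fun a => ∀ b ∈ f a, P a b := by
  have h1 : PrimrecRel fun (b : β) (a : α) => P a b :=
    (hP.comp (Primrec.snd.pair Primrec.fst) : PrimrecPred fun x : β × α => P x.2 x.1).primrecRel
  exact (PrimrecRel.forall_mem_list h1).comp hf Primrec.id

theorem pp_blt {f : α → ℕ} {P : α → ℕ → Prop} (hf : Primrec f)
    (hP : PrimrecPred fun x : α × ℕ => P x.1 x.2) : PrimrecPred fun a => ∀ n < f a, P a n :=
  (pp_ball (Primrec.list_range.comp hf) hP).of_eq fun a => by simp only [List.mem_range]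

theorem pp_exlt {f : α → ℕ} {P : α → ℕ → Prop} (hf : Primrec f)
    (hP : PrimrecPred fun x : α × ℕ => P x.1 x.2) : PrimrecPred fun a => ∃ n < f a, P a n :=
  (pp_bex (Primrec.list_range.comp hf) hP).of_eq fun a => by simp only [List.mem_range]

theorem pp_opt {f : α → Option β} {P : α → β → Prop} (hf : Primrec f)
    (hP : PrimrecPred fun x : α × β => P x.1 x.2) :
    PrimrecPred fun a => ∀ b, f a = some b → P a b :=
  (pp_ball (Primrec.optionToList.comp hf) hP).of_eq fun a => by
    simp only [Option.mem_toList]

theorem pp_optex {f : α → Option β} {P : α → β → Prop} (hf : Primrec f)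
    (hP : PrimrecPred fun x : α × β => P x.1 x.2) :
    PrimrecPred fun a => ∃ b, f a = some b ∧ P a b :=
  (pp_bex (Primrec.optionToList.comp hf) hP).of_eq fun a => by
    simp only [Option.mem_toList]

theorem pp_mem {f : α → β} {g : α → List β} (hf : Primrec f) (hg : Primrec g) :
    PrimrecPred fun a => f a ∈ g a :=
  (pp_bex hg (P := fun a b => b = f a) (pp_eq Primrec.snd (hf.comp Primrec.fst))).of_eq fun a => by
    simp

theorem pp_bool {P : α → Bool → Prop} (hP : ∀ b, PrimrecPred fun a => P a b) :
    PrimrecPred fun a => ∀ b, P a b :=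
  ((hP false).and (hP true)).of_eq fun a => by simp [Bool.forall_bool]

theorem pr_replicate {f : α → ℕ} {g : α → β} (hf : Primrec f) (hg : Primrec g) :
    Primrec fun a => List.replicate (f a) (g a) :=
  (Primrec.list_map (Primrec.list_range.comp hf) (hg.comp Primrec.fst).to₂).of_eq fun a => by
    simp [List.map_const']

theorem pr_pow {f g : α → ℕ} (hf : Primrec f) (hg : Primrec g) : Primrec fun a => f a ^ g a :=
  ((Primrec₂.unpaired'.1 Nat.Primrec.pow).comp hf hg).of_eq fun _ => rfl

theorem pr_add {f g : α → ℕ} (hf : Primrec f) (hg : Primrec g) : Primrec fun a => f a + g a :=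
  Primrec.nat_add.comp hf hg

theorem pr_mul {f g : α → ℕ} (hf : Primrec f) (hg : Primrec g) : Primrec fun a => f a * g a :=
  Primrec.nat_mul.comp hf hg

theorem pr_app {f g : α → List β} (hf : Primrec f) (hg : Primrec g) :
    Primrec fun a => f a ++ g a := Primrec.list_append.comp hf hg

theorem pr_cons {f : α → β} {g : α → List β} (hf : Primrec f) (hg : Primrec g) :
    Primrec fun a => f a :: g a := Primrec.list_cons.comp hf hg

theorem pr_len {f : α → List β} (hf : Primrec f) : Primrec fun a => (f a).length :=
  Primrec.list_length.comp hf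

/-- existential quantification of a primitive recursive predicate -/
theorem re_exists {P : α × β → Prop} (h : PrimrecPred P) : REPred fun a => ∃ b, P (a, b) := by
  obtain ⟨hd, h⟩ := h
  have hh : Primrec fun x : α × ℕ => ((Encodable.decode x.2 : Option β).map
      fun b => decide (P (x.1, b))).getD false := by
    refine Primrec.option_getD.comp (Primrec.option_map (Primrec.decode.comp Primrec.snd) ?_)
      (Primrec.const false)
    exact (h.comp ((Primrec.fst.comp Primrec.fst).pair Primrec.snd)).to₂
  have hp : Partrec₂ fun (a : α) (n : ℕ) => (Part.some (((Encodable.decode n : Option β).map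
      fun b => decide (P (a, b))).getD false) : Part Bool) := hh.to_comp.partrec
  refine (Partrec.rfind hp).dom_re.of_eq fun a => ?_
  refine Nat.rfind_dom.trans ?_
  constructor
  · rintro ⟨n, hn, -⟩
    rw [Part.mem_some_iff] at hn
    cases hdec : (Encodable.decode n : Option β) with
    | none => rw [hdec] at hn; simp at hn
    | some b =>
      rw [hdec] at hn
      simp only [Option.map_some, Option.getD_some] at hn
      exact ⟨b, of_decide_eq_true hn.symm⟩
  · rintro ⟨b, hb⟩
    refine ⟨Encodable.encode b, ?_, fun _ => trivial⟩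
    rw [Part.mem_some_iff, Encodable.encodek]
    simp [hb]

end Pool.Agent.NGP
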