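import Pool.Agent.NGP.BDefs
import Pool.Agent.NGP.R1

/-!
# NGP, B3: the product grammars are a primitive recursive family
-/

namespace Pool.Agent.NGP.PB

open Pool.Agent.NGP

private theorem pr_sum {f : ℕ × ℕ × ℕ × ℕ → ℕ} (hf : Primrec f) :
    Primrec fun E : Edges => (E.map f).sum := by
  have h1 : Primrec fun E : Edges => E.foldr (fun e s => f e + s) 0 :=
    Primrec.list_foldr (f := fun E : Edges => E) (g := fun _ => 0)
      (h := fun _ (x : (ℕ × ℕ × ℕ × ℕ) × ℕ) => f x.1 + x.2) Primrec.id (Primrec.const 0)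
      (pr_add (hf.comp (Primrec.fst.comp Primrec.snd)) (Primrec.snd.comp Primrec.snd)).to₂
  refine h1.of_eq fun E => ?_
  induction E with
  | nil => rfl
  | cons e E ih => simp [ih]

private theorem pr_sb : Primrec sb :=
  pr_add (pr_sum (pr_add Primrec.fst (Primrec.snd.comp (Primrec.snd.comp Primrec.snd))))
    (Primrec.const 2)

private theorem pr_ob : Primrec ob :=
  pr_add (pr_sum (Primrec.fst.comp (Primrec.snd.comp Primrec.snd))) (Primrec.const 1)

private theorem pr_dec {α : Type} [Primcodable α] {p : α → Prop} [hd : DecidablePred p]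
    (h : PrimrecPred p) : Primrec fun a => decide (p a) := by
  obtain ⟨h1, h2⟩ := h
  refine h2.of_eq fun a => ?_
  congr

theorem pgr_prim (K : ℕ) (R : List (ℕ × ℕ × ℕ)) (k₀ B : ℕ) : PrG (PGr K R k₀ B) := by
  have hN : Primrec fun E : Edges => B + sb E * sb E + 1 :=
    pr_add (pr_add (Primrec.const B) (pr_mul pr_sb pr_sb)) (Primrec.const 1)
  refine ⟨pr_mul hN hN, pr_ob, Primrec.const _, ?_, ?_, ?_⟩
  · -- binary rules
    have u1 : ∀ {f : Edges × ℕ × ℕ × ℕ → ℕ}, Primrec f → Primrec fun x => (f x).unpair.1 :=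
      fun h => Primrec.fst.comp (Primrec.unpair.comp h)
    have u2 : ∀ {f : Edges × ℕ × ℕ × ℕ → ℕ}, Primrec f → Primrec fun x => (f x).unpair.2 :=
      fun h => Primrec.snd.comp (Primrec.unpair.comp h)
    have t0 : Primrec fun x : Edges × ℕ × ℕ × ℕ => x.2.1 := Primrec.fst.comp Primrec.snd
    have t1 : Primrec fun x : Edges × ℕ × ℕ × ℕ => x.2.2.1 :=
      Primrec.fst.comp (Primrec.snd.comp Primrec.snd)
    have t2 : Primrec fun x : Edges × ℕ × ℕ × ℕ => x.2.2.2 :=
      Primrec.snd.comp (Primrec.snd.comp Primrec.snd)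
    exact pr_dec (pp_and (pp_mem ((u1 t0).pair ((u1 t1).pair (u1 t2))) (Primrec.const R))
      (pp_and (pp_eq (u1 (u2 t0)) (u1 (u2 t1)))
        (pp_and (pp_eq (u2 (u2 t1)) (u1 (u2 t2))) (pp_eq (u2 (u2 t0)) (u2 (u2 t2))))))
  · -- letter rules
    have u1 : ∀ {f : Edges × ℕ × ℕ → ℕ}, Primrec f → Primrec fun x => (f x).unpair.1 :=
      fun h => Primrec.fst.comp (Primrec.unpair.comp h)
    have u2 : ∀ {f : Edges × ℕ × ℕ → ℕ}, Primrec f → Primrec fun x => (f x).unpair.2 :=
      fun h => Primrec.snd.comp (Primrec.unpair.comp h)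
    have t0 : Primrec fun x : Edges × ℕ × ℕ => x.2.1 := Primrec.fst.comp Primrec.snd
    have t1 : Primrec fun x : Edges × ℕ × ℕ => x.2.2 := Primrec.snd.comp Primrec.snd
    exact pr_dec (pp_and (pp_le (u1 t0) (Primrec.const K))
      (pp_mem ((u1 (u2 t0)).pair ((u1 t0).pair ((pr_add t1 (Primrec.const 1)).pair
        (u2 (u2 t0))))) Primrec.fst))
  · -- empty rules
    have u1 : ∀ {f : Edges × ℕ → ℕ}, Primrec f → Primrec fun x => (f x).unpair.1 :=
      fun h => Primrec.fst.comp (Primrec.unpair.comp h)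
    have u2 : ∀ {f : Edges × ℕ → ℕ}, Primrec f → Primrec fun x => (f x).unpair.2 :=
      fun h => Primrec.snd.comp (Primrec.unpair.comp h)
    have t0 : Primrec fun x : Edges × ℕ => x.2 := Primrec.snd
    exact pr_dec (pp_or (pp_and (pp_le (u1 t0) (Primrec.const K))
      (pp_mem ((u1 (u2 t0)).pair ((u1 t0).pair ((Primrec.const 0).pair
        (u2 (u2 t0))))) Primrec.fst))
      (pp_and (pp_eq (u1 t0) (Primrec.const 0)) (pp_eq (u1 (u2 t0)) (u2 (u2 t0)))))

end Pool.Agent.NGP.PB
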