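import Pool.Agent.NGP.BDefs
import Pool.Agent.H93NG.Trans

/-!
# NGP, B4: coding a transducer as an edge list

PROOF. `tdom_of_dom` (H93NG/Trans) gives a finite type `σ`, moves `δ`, states `s`, `f`. Take
`e : σ → ℕ` injective with `e x ≥ 2` (`Finite.equivFin`, `+ 2`). `E` = list of the finite set of all
`(e p, ic a, oc b, e q)` with `δ p a b q`, together with `(0, 0, 0, e s)` and `(e f, 0, 0, 1)`, where
`ic none = 0`, `ic (some a) = c a + 1`, `oc none = 0`, `oc (some b) = b + 1` (so
`lets (ic a) = a.toList.map c`, `lets (oc b) = b.toList.map Fin.val`). The set is a subset of the image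
of the finite type `σ × Option A × Option (Fin K) × σ`, so finite (`Set.Finite.toFinset`, `toList`).
(1) `Path δ p u v q → Pth E (e p) (u.map c) (v.map Fin.val) (e q)`: induction.
(2) `Pth E x u' w' y`, `y = 1`, `x = e p` → there are `u`, `v` with `u' = u.map c`, `w' = v.map Fin.val`,
`Path δ p u v f`: induction on the path; the first edge starts at `e p ≥ 2`, so it is a coded move, or
`(e f, 0, 0, 1)` with `p = f`; a path starting at `1` is empty (no edge starts at `1`).
The paths from `0` to `1` start with the edge `(0, 0, 0, e s)` (the only edge from `0`).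
-/

namespace Pool.Agent.NGP.PB

open Pool.Agent.NGP Pool.Agent.H93NG

private def ic {A : Type} (c : A → ℕ) : Option A → ℕ
  | none => 0
  | some a => c a + 1

private theorem lets_ic {A : Type} (c : A → ℕ) (a : Option A) :
    lets (ic c a) = a.toList.map c := by cases a <;> rfl

private theorem pth_snoc {E : Edges} {p q : ℕ} {u v : List ℕ} (h : Pth E p u v q)
    (he : (q, 0, 0, 1) ∈ E) : Pth E p u v 1 := by
  induction h with
  | nil p => exact Pth.cons he (Pth.nil 1)
  | cons hd _ ih => exact Pth.cons hd (ih he)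

theorem edges_of_dom {A : Type} [Finite A] {c : A → ℕ} (hc : Function.Injective c) {K : ℕ}
    {L : Language A} {M : Language (Fin K)} (h : Dom L M) :
    ∃ E : Edges, ∀ w : List ℕ,
      (∃ u, (∃ v ∈ L, u = v.map c) ∧ Pth E 0 u w 1) ↔ ∃ v ∈ M, w = v.map Fin.val := by
  obtain ⟨σ, hσ, δ, s, f, hM⟩ := tdom_of_dom h
  obtain ⟨n, ⟨eq⟩⟩ := Finite.exists_equiv_fin σ
  obtain ⟨e, he⟩ : ∃ e : σ → ℕ, ∀ x, e x = (eq x : ℕ) + 2 := ⟨_, fun _ => rfl⟩
  have he2 : ∀ x, 2 ≤ e x := fun x => by rw [he]; omega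
  have hei : Function.Injective e := by
    intro x y hxy
    rw [he, he] at hxy
    exact eq.injective (Fin.ext (by omega))
  obtain ⟨S, hS⟩ : ∃ S : Set (ℕ × ℕ × ℕ × ℕ), S = {x | ∃ p a b q, δ p a b q ∧
      x = (e p, ic c a, ic (Fin.val (n := K)) b, e q)} := ⟨_, rfl⟩
  have hfin : S.Finite := by
    refine Set.Finite.subset (Set.finite_range (fun x : σ × Option A × Option (Fin K) × σ =>
      ((e x.1, ic c x.2.1, ic (Fin.val (n := K)) x.2.2.1, e x.2.2.2) : ℕ × ℕ × ℕ × ℕ))) ?_
    rw [hS]
    rintro x ⟨p, a, b, q, -, rfl⟩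
    exact ⟨(p, a, b, q), rfl⟩
  obtain ⟨E, hE⟩ : ∃ E : Edges, E = hfin.toFinset.toList ++ [(0, 0, 0, e s), (e f, 0, 0, 1)] :=
    ⟨_, rfl⟩
  have hmem : ∀ x, x ∈ E ↔ (∃ p a b q, δ p a b q ∧
      x = (e p, ic c a, ic (Fin.val (n := K)) b, e q)) ∨ x = (0, 0, 0, e s) ∨
        x = (e f, 0, 0, 1) := by
    intro x
    rw [hE, List.mem_append, Finset.mem_toList, Set.Finite.mem_toFinset, hS]
    simp
  have fwd : ∀ {p q : σ} {u : List A} {v : List (Fin K)}, Path δ p u v q →
      Pth E (e p) (u.map c) (v.map Fin.val) (e q) := by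
    intro p q u v hp
    induction hp with
    | nil p => exact Pth.nil _
    | @cons p q r a b u v hd _ ih =>
      have h1 := Pth.cons ((hmem _).2 (Or.inl ⟨p, a, b, q, hd, rfl⟩)) ih
      rw [lets_ic, lets_ic, ← List.map_append, ← List.map_append] at h1
      exact h1
  have one : ∀ {x : ℕ} {u v : List ℕ} {y : ℕ}, Pth E x u v y → x = 1 → u = [] ∧ v = [] := by
    intro x u v y hp hx
    cases hp with
    | nil p => exact ⟨rfl, rfl⟩
    | cons hd _ =>
      exfalso
      rcases (hmem _).1 hd with ⟨p, a, b, q, -, h1⟩ | h1 | h1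
      · have h2 : _ = e p := congrArg Prod.fst h1
        have h3 := he2 p
        simp only at h2
        omega
      · have h2 : _ = 0 := congrArg Prod.fst h1
        simp only at h2
        omega
      · have h2 : _ = e f := congrArg Prod.fst h1
        have h3 := he2 f
        simp only at h2
        omega
  have bwd : ∀ {x : ℕ} {u' w' : List ℕ} {y : ℕ}, Pth E x u' w' y → y = 1 → ∀ p, x = e p →
      ∃ (u : List A) (v : List (Fin K)), u' = u.map c ∧ w' = v.map Fin.val ∧ Path δ p u v f := by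
    intro x u' w' y hp
    induction hp with
    | nil p =>
      intro h1 p' h2
      have h3 := he2 p'
      omega
    | @cons p' i o r y u v hd hp ih =>
      intro hy p hx
      rcases (hmem _).1 hd with ⟨p₀, a, b, q, hδ, h1⟩ | h1 | h1
      · simp only [Prod.mk.injEq] at h1
        obtain ⟨h2, h3, h4, h5⟩ := h1
        have h6 : p = p₀ := hei (hx.symm.trans h2)
        obtain ⟨u₁, v₁, hu, hv, hpath⟩ := ih hy q h5
        refine ⟨a.toList ++ u₁, b.toList ++ v₁, ?_, ?_, ?_⟩
        · rw [h3, lets_ic, hu, List.map_append]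
        · rw [h4, lets_ic, hv, List.map_append]
        · rw [h6]
          exact Path.cons hδ hpath
      · exfalso
        simp only [Prod.mk.injEq] at h1
        have h3 := he2 p
        omega
      · simp only [Prod.mk.injEq] at h1
        obtain ⟨h2, h3, h4, h5⟩ := h1
        have h6 : p = f := hei (hx.symm.trans h2)
        obtain ⟨hu, hv⟩ := one hp h5
        refine ⟨[], [], ?_, ?_, ?_⟩
        · rw [h3, hu]; rfl
        · rw [h4, hv]; rfl
        · rw [h6]
          exact Path.nil f
  refine ⟨E, fun w => ⟨?_, ?_⟩⟩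
  · rintro ⟨u, ⟨v, hv, rfl⟩, hp⟩
    have h0 : ∀ {x : ℕ} {u' w' : List ℕ} {y : ℕ}, Pth E x u' w' y → x = 0 → y = 1 →
        Pth E (e s) u' w' 1 := by
      intro x u' w' y hp hx hy
      cases hp with
      | nil p => omega
      | cons hd hp =>
        rcases (hmem _).1 hd with ⟨p, a, b, q, -, h1⟩ | h1 | h1
        · exfalso
          simp only [Prod.mk.injEq] at h1
          have h3 := he2 p
          omega
        · simp only [Prod.mk.injEq] at h1
          obtain ⟨-, h3, h4, h5⟩ := h1
          rw [h3, h4, ← h5, ← hy]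
          exact hp
        · exfalso
          simp only [Prod.mk.injEq] at h1
          have h3 := he2 f
          omega
    obtain ⟨u₁, v₁, hu, hw, hpath⟩ := bwd (h0 hp rfl rfl) rfl s rfl
    have h1 : v = u₁ := List.map_injective_iff.2 hc hu
    exact ⟨v₁, (hM v₁).2 ⟨u₁, h1 ▸ hv, hpath⟩, hw⟩
  · rintro ⟨v, hv, rfl⟩
    obtain ⟨u, hu, hp⟩ := (hM v).1 hv
    refine ⟨u.map c, ⟨u, hu, rfl⟩, ?_⟩
    have h1 := pth_snoc (fwd hp) ((hmem _).2 (Or.inr (Or.inr rfl)))
    exact Pth.cons ((hmem (0, 0, 0, e s)).2 (Or.inr (Or.inl rfl))) h1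

end Pool.Agent.NGP.PB
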