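import Pool.Agent.NGP.BDefs
import Pool.Agent.H93NG.Trans

/-!
# NGP, B5: a coded transducer is a transducer

PROOF. `dom_of_tdom` (H93NG/Trans; see its exact hypotheses) with the states `Fin (sb E)`, moves
`δ p a b q := (p, ic a, oc b, q) ∈ E` (`ic none = 0`, `ic (some a) = c a + 1`, `oc none = 0`,
`oc (some b) = b + 1`), start `0`, final `1` (`2 ≤ sb E`). All edges have states `< sb E` (an element of a
list of numbers is at most its sum). `Path δ p u v q → Pth E p (u.map c) (v.map Fin.val) q` by induction.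
Conversely, by induction on the path: if `Pth E x u' w' y`, `u' = u.map c`, `w' = v.map Fin.val`,
`x = p.val`, `y = q.val`, then `Path δ p u v q` (if `lets (i + 1) ++ u'' = u.map c` then `u = a :: u₁` with
`c a = i`).
-/

namespace Pool.Agent.NGP.PB

open Pool.Agent.NGP Pool.Agent.H93NG

private def B5_oc {X : Type} (c : X → ℕ) : Option X → ℕ
  | none => 0
  | some a => c a + 1

private theorem B5_lets {X : Type} (c : X → ℕ) (a : Option X) (u : List X) :
    lets (B5_oc c a) ++ u.map c = (a.toList ++ u).map c := by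
  cases a with
  | none => rfl
  | some a => rfl

private theorem B5_split {X : Type} (c : X → ℕ) (i : ℕ) (w : List ℕ) (u : List X)
    (h : lets i ++ w = u.map c) :
    ∃ (a : Option X) (u₁ : List X), B5_oc c a = i ∧ u = a.toList ++ u₁ ∧ w = u₁.map c := by
  cases i with
  | zero => exact ⟨none, u, rfl, rfl, h⟩
  | succ i =>
    cases u with
    | nil => simp [lets] at h
    | cons a u =>
      have h' : i = c a ∧ w = u.map c := by simpa [lets] using h
      exact ⟨some a, u, by simp [B5_oc, h'.1], rfl, h'.2⟩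

private def B5_mv {A : Type} (c : A → ℕ) (E : Edges) (K : ℕ) :
    Fin (sb E) → Option A → Option (Fin K) → Fin (sb E) → Prop :=
  fun p a b q => (p.1, B5_oc c a, B5_oc Fin.val b, q.1) ∈ E

private theorem B5_bd {E : Edges} {p i o r : ℕ} (h : (p, i, o, r) ∈ E) : r < sb E := by
  have h1 : p + r ∈ E.map fun e => e.1 + e.2.2.2 := List.mem_map.2 ⟨_, h, rfl⟩
  have h2 := List.le_sum_of_mem h1
  unfold sb
  omega

private theorem B5_fw {A : Type} (c : A → ℕ) (E : Edges) (K : ℕ) {p q : Fin (sb E)}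
    {u : List A} {v : List (Fin K)} (h : Path (B5_mv c E K) p u v q) :
    Pth E p.1 (u.map c) (v.map Fin.val) q.1 := by
  induction h with
  | nil p => exact Pth.nil _
  | @cons p q r a b u v hd hp ih =>
    rw [← B5_lets, ← B5_lets]
    exact Pth.cons hd ih

private theorem B5_bw {A : Type} (c : A → ℕ) (E : Edges) (K : ℕ) {x y : ℕ} {u' w' : List ℕ}
    (h : Pth E x u' w' y) : ∀ (u : List A) (v : List (Fin K)) (p q : Fin (sb E)),
    u' = u.map c → w' = v.map Fin.val → x = p.1 → y = q.1 → Path (B5_mv c E K) p u v q := by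
  induction h with
  | nil x =>
    intro u v p q hu hv hx hy
    have h1 : u = [] := by simpa using hu.symm
    have h2 : v = [] := by simpa using hv.symm
    have h3 : p = q := Fin.ext (hx.symm.trans hy)
    subst h1 h2 h3
    exact Path.nil _
  | @cons x i o r s u' w' he hp ih =>
    intro u v p q hu hv hx hy
    obtain ⟨a, u₁, h1, rfl, h2⟩ := B5_split c i u' u hu
    obtain ⟨b, v₁, h3, rfl, h4⟩ := B5_split Fin.val o w' v hv
    have h5 := ih u₁ v₁ ⟨r, B5_bd he⟩ q h2 h4 rfl hy
    refine Path.cons (q := ⟨r, B5_bd he⟩) ?_ h5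
    show (p.1, B5_oc c a, B5_oc Fin.val b, r) ∈ E
    rw [h1, h3, ← hx]
    exact he

theorem dom_of_edges {A : Type} [Finite A] {c : A → ℕ} (hc : Function.Injective c)
    (L : Language A) (E : Edges) (K : ℕ) :
    Dom L ({w | ∃ u, (∃ v ∈ L, u = v.map c) ∧ Pth E 0 u (w.map Fin.val) 1} :
      Language (Fin K)) := by
  have _ := hc
  apply dom_of_tdom
  refine ⟨Fin (sb E), inferInstance, B5_mv c E K, ⟨0, by unfold sb; omega⟩,
    ⟨1, by unfold sb; omega⟩, ?_⟩
  intro w
  constructor
  · rintro ⟨_, ⟨v, hv, rfl⟩, hp⟩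
    exact ⟨v, hv, B5_bw c E K hp v w _ _ rfl rfl rfl rfl⟩
  · rintro ⟨u, hu, hp⟩
    exact ⟨u.map c, ⟨u, hu, rfl⟩, B5_fw c E K hp⟩

end Pool.Agent.NGP.PB
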