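import Pool.Agent.NGP.Defs

/-!
# NGP, part B: definitions (product grammars)

A base grammar has kinds: the kinds `i ≤ K` derive `lets i` (`0` = empty word, `a + 1` = the letter
`a`), and there is a finite list `R` of binary rules `(k, k₁, k₂)`. The product with a transducer `E`
has nonterminals `cd k p r`: the words written by `E` on paths from `p` to `r` reading a word
derived from `k`.
-/

namespace Pool.Agent.NGP.PB

open Pool.Agent.NGP Pool.Agent.H93NG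

/-- Derivations of a base grammar. -/
inductive D0 (K : ℕ) (R : List (ℕ × ℕ × ℕ)) : ℕ → List ℕ → Prop
  | leaf {i : ℕ} : i ≤ K → D0 K R i (lets i)
  | bin {k k₁ k₂ : ℕ} {u v : List ℕ} : (k, k₁, k₂) ∈ R → D0 K R k₁ u → D0 K R k₂ v →
      D0 K R k (u ++ v)

/-- Good rules: closed under the rules `(i, 0, i)`, `(i, i, 0)`, `i ≤ K`, and all kinds are `< B`. -/
def Good (K : ℕ) (R : List (ℕ × ℕ × ℕ)) (B : ℕ) : Prop :=
  K < B ∧ (∀ i ≤ K, (i, 0, i) ∈ R ∧ (i, i, 0) ∈ R) ∧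
    ∀ k k₁ k₂, (k, k₁, k₂) ∈ R → k < B ∧ k₁ < B ∧ k₂ < B

/-- Strict bound of the states of a transducer (`≥ 2`). -/
def sb (E : Edges) : ℕ := (E.map fun e => e.1 + e.2.2.2).sum + 2

/-- Bound of the outputs of a transducer. -/
def ob (E : Edges) : ℕ := (E.map fun e => e.2.2.1).sum + 1

/-- Codes of nonterminals. -/
def cd (k p r : ℕ) : ℕ := Nat.pair k (Nat.pair p r)

/-- The product grammar. -/
def PGr (K : ℕ) (R : List (ℕ × ℕ × ℕ)) (k₀ B : ℕ) (E : Edges) : EG where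
  N := (B + sb E * sb E + 1) * (B + sb E * sb E + 1)
  A := ob E
  st := cd k₀ 0 1
  bin t t₁ t₂ := decide ((t.unpair.1, t₁.unpair.1, t₂.unpair.1) ∈ R ∧
    t.unpair.2.unpair.1 = t₁.unpair.2.unpair.1 ∧
    t₁.unpair.2.unpair.2 = t₂.unpair.2.unpair.1 ∧
    t.unpair.2.unpair.2 = t₂.unpair.2.unpair.2)
  lf t a := decide (t.unpair.1 ≤ K ∧
    (t.unpair.2.unpair.1, t.unpair.1, a + 1, t.unpair.2.unpair.2) ∈ E)
  ep t := decide ((t.unpair.1 ≤ K ∧
    (t.unpair.2.unpair.1, t.unpair.1, 0, t.unpair.2.unpair.2) ∈ E) ∨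
      (t.unpair.1 = 0 ∧ t.unpair.2.unpair.1 = t.unpair.2.unpair.2))

end Pool.Agent.NGP.PB
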