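import Pool.Agent.NGP.B1
import Pool.Agent.NGP.B2
import Pool.Agent.NGP.B3
import Pool.Agent.NGP.B4
import Pool.Agent.NGP.B5

/-!
# NGP, part B: product grammars and coding of transducers (lead: helper15)

See section B of `PROOF.md`. `PG E` is the product of the transducer `E` (states `0` = start,
`1` = final) with a fixed grammar of `L`.
-/

namespace Pool.Agent.NGP

open Pool.Agent.H93NG

theorem b_main {A : Type} [Finite A] (L : Language A) (hL : L.IsContextFree) :
    ∃ PG : Edges → EG, PrG PG ∧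
      (∀ (K : ℕ) (M : Language (Fin K)), Dom L M →
        ∃ E, ∀ w : List ℕ, (PG E).L w ↔ ∃ v ∈ M, w = v.map Fin.val) ∧
      ∀ (E : Edges) (K : ℕ), Dom L ({v | (PG E).L (v.map Fin.val)} : Language (Fin K)) := by
  obtain ⟨K₀, c, R, k₀, B, hc, hcK, hG, hk, hD⟩ := PB.base_grammar L hL
  refine ⟨PB.PGr K₀ R k₀ B, PB.pgr_prim K₀ R k₀ B, fun K M hM => ?_, fun E K => ?_⟩
  · obtain ⟨E, hE⟩ := PB.edges_of_dom hc hM
    refine ⟨E, fun w => ?_⟩
    rw [PB.pgr_L hG hk, ← hE w]
    simp only [hD]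
  · have h := PB.dom_of_edges hc L E K
    have he : ({v | (PB.PGr K₀ R k₀ B E).L (v.map Fin.val)} : Language (Fin K)) =
        ({w | ∃ u, (∃ v ∈ L, u = v.map c) ∧ Pth E 0 u (w.map Fin.val) 1} :
          Language (Fin K)) := by
      ext v
      show (PB.PGr K₀ R k₀ B E).L (v.map Fin.val) ↔
        ∃ u, (∃ v ∈ L, u = v.map c) ∧ Pth E 0 u (v.map Fin.val) 1
      rw [PB.pgr_L hG hk]
      simp only [hD]
    rw [he]
    exact h

end Pool.Agent.NGP
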