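import Pool.Agent.NGP.S1

/-!
# NGP, part C: words and cells

`Lw w`: the word is empty or starts with a label. `CR r v`: the word `v` is a word with cells `r`,
`CL l u`: the word `u` read to the left (outwards) has the cells `l` (read outwards).
-/

namespace Pool.Agent.NGP

/-- Empty or starting with a letter with label. -/
def Lw (w : List ℕ) : Prop := w = [] ∨ ∃ a w', w = a :: w' ∧ lh a ≠ none

/-- `v` consists of the cells `r` (read to the right). -/
inductive CR : List (ℕ × ℕ) → List ℕ → Prop
  | nil : CR [] []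
  | cons {b : ℕ} {x : ℕ} {y : List ℕ} {r : List (ℕ × ℕ)} {v : List ℕ} : lh x = some b →
      (∀ z ∈ y, lh z = none) → CR r v → CR ((b, y.length) :: r) (x :: y ++ v)

/-- `u` consists of the cells `l` (both read to the left). -/
inductive CL : List (ℕ × ℕ) → List ℕ → Prop
  | nil : CL [] []
  | cons {b : ℕ} {x : ℕ} {y : List ℕ} {l : List (ℕ × ℕ)} {u : List ℕ} : lh x = some b →
      (∀ z ∈ y, lh z = none) → CL l u → CL ((b, y.length) :: l) (y ++ x :: u)

theorem Lw.lead {w : List ℕ} (h : Lw w) : lead w = 0 := by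
  rcases h with rfl | ⟨a, w', rfl, h⟩
  · rfl
  · exact lead_cons_label h

theorem CR.lw {r : List (ℕ × ℕ)} {v : List ℕ} (h : CR r v) : Lw v := by
  cases h with
  | nil => exact Or.inl rfl
  | cons h1 h2 h3 => exact Or.inr ⟨_, _, rfl, by rw [h1]; simp⟩

theorem CR.cells {r : List (ℕ × ℕ)} {v : List ℕ} (h : CR r v) : cells v = r := by
  induction h with
  | nil => rfl
  | @cons b x y r v h1 h2 h3 ih =>
    have e1 : Pool.Agent.NGP.cells (x :: y ++ v) =
        (b, Pool.Agent.NGP.lead (y ++ v)) :: Pool.Agent.NGP.cells (y ++ v) := by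
      simp [Pool.Agent.NGP.cells, h1]
    rw [e1, cells_append_nolabel h2, lead_append_of h2, h3.lw.lead, ih]
    rfl

/-- Splitting of a word that starts with a label. -/
theorem split_run (w : List ℕ) : ∃ y v, w = y ++ v ∧ (∀ z ∈ y, lh z = none) ∧ Lw v := by
  induction w with
  | nil => exact ⟨[], [], rfl, by simp, Or.inl rfl⟩
  | cons a w ih =>
    by_cases ha : lh a = none
    · obtain ⟨y, v, h1, h2, h3⟩ := ih
      refine ⟨a :: y, v, by rw [h1]; rfl, ?_, h3⟩
      intro z hz
      rcases List.mem_cons.1 hz with rfl | hz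
      · exact ha
      · exact h2 z hz
    · exact ⟨[], a :: w, rfl, by simp, Or.inr ⟨a, w, rfl, ha⟩⟩

theorem CR.of_lw : ∀ {v : List ℕ}, Lw v → CR (Pool.Agent.NGP.cells v) v
  | [], _ => CR.nil
  | a :: w, h => by
    have ha : lh a ≠ none := by
      rcases h with h | ⟨b, w', h1, h2⟩
      · simp at h
      · simp only [List.cons.injEq] at h1
        rw [h1.1]; exact h2
    obtain ⟨l, hl⟩ := Option.ne_none_iff_exists'.1 ha
    obtain ⟨y, v, h1, h2, h3⟩ := split_run w
    have hlt : v.length < (a :: w).length := by rw [h1]; simp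
    have h4 := CR.of_lw h3
    have e1 : Pool.Agent.NGP.cells (a :: w) = (l, y.length) :: Pool.Agent.NGP.cells v := by
      have : Pool.Agent.NGP.cells (a :: w) =
          (l, Pool.Agent.NGP.lead w) :: Pool.Agent.NGP.cells w := by
        simp [Pool.Agent.NGP.cells, hl]
      rw [this, h1, cells_append_nolabel h2, lead_append_of h2, h3.lead]
      rfl
    rw [e1, h1]
    exact CR.cons hl h2 h4
  termination_by v => v.length

theorem cR_iff {r : List (ℕ × ℕ)} {v : List ℕ} : CR r v ↔ Lw v ∧ cells v = r := by
  constructor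
  · intro h
    exact ⟨h.lw, h.cells⟩
  · rintro ⟨h, rfl⟩
    exact CR.of_lw h

theorem CR.append {r r' : List (ℕ × ℕ)} {v v' : List ℕ} (h : CR r v) (h' : CR r' v') :
    CR (r ++ r') (v ++ v') := by
  induction h with
  | nil => exact h'
  | @cons b x y r v h1 h2 h3 ih =>
    have := CR.cons h1 h2 ih
    simpa using this

/-- Every splitting of the cells is a splitting of the word. -/
theorem CR.split : ∀ {r r' : List (ℕ × ℕ)} {w : List ℕ}, CR (r ++ r') w →
    ∃ v v', w = v ++ v' ∧ CR r v ∧ CR r' v'
  | [], r', w, h => ⟨[], w, rfl, CR.nil, h⟩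
  | c :: r, r', w, h => by
    rw [List.cons_append] at h
    cases h with
    | @cons b x y _ v h1 h2 h3 =>
      obtain ⟨v₁, v₂, h4, h5, h6⟩ := CR.split h3
      refine ⟨x :: y ++ v₁, v₂, by rw [h4]; simp, CR.cons h1 h2 h5, h6⟩

theorem CL.append {l l' : List (ℕ × ℕ)} {u u' : List ℕ} (h : CL l u) (h' : CL l' u') :
    CL (l ++ l') (u ++ u') := by
  induction h with
  | nil => exact h'
  | @cons b x y r v h1 h2 h3 ih =>
    have := CL.cons h1 h2 ih
    simpa using this

theorem CL.of_cR {r : List (ℕ × ℕ)} {v : List ℕ} (h : CR r v) : CL r.reverse v.reverse := by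
  induction h with
  | nil => exact CL.nil
  | @cons b x y r v h1 h2 h3 ih =>
    have h4 : CL [(b, y.reverse.length)] (y.reverse ++ x :: []) :=
      CL.cons h1 (fun z hz => h2 z (List.mem_reverse.1 hz)) CL.nil
    have := ih.append h4
    simpa using this

theorem CR.of_cL {l : List (ℕ × ℕ)} {u : List ℕ} (h : CL l u) : CR l.reverse u.reverse := by
  induction h with
  | nil => exact CR.nil
  | @cons b x y l u h1 h2 h3 ih =>
    have h4 : CR [(b, y.reverse.length)] (x :: y.reverse ++ []) :=
      CR.cons h1 (fun z hz => h2 z (List.mem_reverse.1 hz)) CR.nil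
    have := ih.append h4
    simpa using this

theorem cL_iff {l : List (ℕ × ℕ)} {u : List ℕ} : CL l u ↔ CR l.reverse u.reverse := by
  constructor
  · exact CR.of_cL
  · intro h
    have := CL.of_cR h
    simpa using this

theorem CR.lsum {r : List (ℕ × ℕ)} {v : List ℕ} (h : CR r v) : lsum r = v.length := by
  induction h with
  | nil => rfl
  | @cons b x y r v h1 h2 h3 ih =>
    have : Pool.Agent.NGP.lsum ((b, y.length) :: r) =
        (y.length + 1) + Pool.Agent.NGP.lsum r := by
      simp [Pool.Agent.NGP.lsum]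
    rw [this, ih]
    simp
    omega

theorem lh_zero_iff {a : ℕ} : lh a = some 0 ↔ a = 0 := by
  unfold lh
  split_ifs <;> simp <;> omega

theorem CR.hsh {r : List (ℕ × ℕ)} {v : List ℕ} (h : CR r v) : hsh r = v.count 0 := by
  induction h with
  | nil => rfl
  | @cons b x y r v h1 h2 h3 ih =>
    have h4 : y.count 0 = 0 := by
      rw [List.count_eq_zero]
      intro h0
      have := h2 0 h0
      simp [lh] at this
    have h5 : Pool.Agent.NGP.hsh ((b, y.length) :: r) =
        (if b = 0 then 1 else 0) + Pool.Agent.NGP.hsh r := by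
      unfold Pool.Agent.NGP.hsh
      rw [List.countP_cons]
      by_cases hb : b = 0 <;> simp [hb, add_comm]
    rw [h5, ih, List.cons_append, List.count_cons, List.count_append, h4]
    by_cases hb : b = 0
    · have hx : x = 0 := lh_zero_iff.1 (by rw [h1, hb])
      simp [hb, hx, add_comm]
    · have hx : x ≠ 0 := by
        intro hx
        apply hb
        rw [hx] at h1
        simp [lh] at h1
        exact h1.symm
      simp [hb, hx]

end Pool.Agent.NGP
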