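import Pool.Agent.H93NG.LinG
import Pool.Agent.H93NG.RR

/-!
# NGP, part C: relations between left and right parts give linear languages

PROOF of `dom_lin_of_rr`. Let the relation be given by states `σ`, moves `δ`, `s`, `f`. Use
`dom_of_isLinear` with the grammar with nonterminals `σ`, initial `f`, a rule
`r → a.toList ++ [p] ++ b.toList` for every move `δ p a b r` (finitely many, as `σ` and `X` are
finite: `Set.Finite.toFinset` of the set of rules, or `Set.toFinite` and `Classical`), and the rule
`s → ε`. Every right side has at most one nonterminal. A word `w` derives from the state `r` iff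
`w = u.reverse ++ v` with `Path δ s u v r`:
* from a path: induct on the path read from its end (`Path.append`, `Path.single`, see
  `Trans.lean`; or first show the reversed induction principle: a nonempty path ends with a move
  `Path δ s u v p`, `δ p a b r`, total `u ++ a.toList`, `v ++ b.toList`), apply the rule of the last
  move: `(u ++ a).reverse ++ (v ++ b) = a ++ (u.reverse ++ v) ++ b` for `a`, `b` of length at
  most `1`;
* from a derivation: use `ar_sem`/`Sem` in `Gram.lean` (semantics of the nonterminal `r`: the set of
  the words `u.reverse ++ v` with `Path δ s u v r`), `mem_language_iff_ar`.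
Alternatively use the words of edges directly as in `LinG.lean`.
-/

namespace Pool.Agent.NGP

open Pool.Agent.H93NG

private def rlOf {X σ : Type} (x : σ × Option X × Option X × σ) : ContextFreeRule X σ :=
  ⟨x.2.2.2, x.2.1.toList.map Symbol.terminal ++
    Symbol.nonterminal x.1 :: x.2.2.1.toList.map Symbol.terminal⟩

private theorem sem_term {X N : Type} (I : N → Set (List X)) (u : List X) {w : List X}
    (h : Sem I (u.map Symbol.terminal) w) : w = u := by
  induction u generalizing w with
  | nil => exact h
  | cons b u ih =>
    obtain ⟨w', rfl, h'⟩ := h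
    rw [ih h']

private theorem toList_rev {X : Type} (a : Option X) : a.toList.reverse = a.toList := by
  cases a <;> rfl

theorem dom_lin_of_rr {X : Type} [Finite X] {ρ : List X → List X → Prop} (h : RR ρ) :
    Dom Lin2 ({w | ∃ u v, ρ u v ∧ w = u.reverse ++ v} : Language X) := by
  classical
  obtain ⟨σ, hσ, δ, s, f, hρ⟩ := h
  have hfin : (Set.range fun x : {x : σ × Option X × Option X × σ // δ x.1 x.2.1 x.2.2.1 x.2.2.2} =>
      rlOf x.1).Finite := Set.finite_range _
  let e : ContextFreeRule X σ := ⟨s, []⟩
  let G : ContextFreeGrammar X := ⟨σ, f, insert e hfin.toFinset⟩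
  have hG : ∀ r, r ∈ G.rules ↔ r = e ∨ ∃ p a b q, δ p a b q ∧ r = rlOf (p, a, b, q) := by
    intro r
    show r ∈ insert e hfin.toFinset ↔ _
    rw [Finset.mem_insert, Set.Finite.mem_toFinset]
    constructor
    · rintro (h | ⟨⟨⟨p, a, b, q⟩, hx⟩, rfl⟩)
      · exact Or.inl h
      · exact Or.inr ⟨p, a, b, q, hx, rfl⟩
    · rintro (h | ⟨p, a, b, q, hx, rfl⟩)
      · exact Or.inl h
      · exact Or.inr ⟨⟨(p, a, b, q), hx⟩, rfl⟩
  have h1 : ∀ {p r : σ} {u v : List X}, Path δ p u v r → ∀ w : List X,
      AR G w [Symbol.nonterminal p] → AR G (u.reverse ++ w ++ v) [Symbol.nonterminal r] := by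
    intro p r u v hp
    induction hp with
    | nil p =>
      intro w hw
      simpa using hw
    | @cons p q r a b u v hd _ ih =>
      intro w hw
      have h2 : AR G (a.toList ++ w ++ b.toList) [Symbol.nonterminal q] := by
        have hr : rlOf (p, a, b, q) ∈ G.rules := (hG _).2 (Or.inr ⟨p, a, b, q, hd, rfl⟩)
        refine @AR.expand X G (rlOf (p, a, b, q)) _ [] hr ?_
        rw [List.append_nil]
        show AR G _ (a.toList.map Symbol.terminal ++
          ([Symbol.nonterminal p] ++ b.toList.map Symbol.terminal))
        refine ar_append.2 ⟨a.toList, w ++ b.toList, by simp, ar_terminals _,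
          ar_append.2 ⟨w, b.toList, rfl, hw, ar_terminals _⟩⟩
      have h3 := ih _ h2
      rw [List.reverse_append, toList_rev]
      simpa [List.append_assoc] using h3
  have h0 : AR G [] [Symbol.nonterminal s] := by
    refine @AR.expand X G e _ [] ((hG _).2 (Or.inl rfl)) ?_
    exact AR.nil
  have hlang : G.language = ({w | ∃ u v, ρ u v ∧ w = u.reverse ++ v} : Language X) := by
    ext w
    rw [mem_language_iff_ar]
    constructor
    · intro hw
      have hI := ar_sem (G := G) (fun r => {w | ∃ u v, Path δ s u v r ∧ w = u.reverse ++ v}) (by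
        intro r hr w hw
        rcases (hG r).1 hr with rfl | ⟨p, a, b, q, hd, rfl⟩
        · have hw' : w = [] := hw
          subst hw'
          exact ⟨[], [], Path.nil _, rfl⟩
        · obtain ⟨w₁, w₂, rfl, h2, h3⟩ := sem_append _ hw
          obtain ⟨w₃, w₄, rfl, ⟨u, v, h4, rfl⟩, h5⟩ := h3
          have e1 := sem_term _ _ h2
          have e2 := sem_term _ _ h5
          subst e1 e2
          refine ⟨u ++ a.toList, v ++ b.toList, h4.append (Path.single hd), ?_⟩
          rw [List.reverse_append, toList_rev]
          simp only [List.append_assoc]) hw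
      obtain ⟨w₁, w₂, rfl, ⟨u, v, h4, rfl⟩, h5⟩ := hI
      have h5' : w₂ = [] := h5
      subst h5'
      exact ⟨u, v, (hρ _ _).2 h4, by simp⟩
    · rintro ⟨u, v, h2, rfl⟩
      have h3 := h1 ((hρ _ _).1 h2) [] h0
      simpa using h3
  refine dom_of_isLinear ⟨G, hlang, ?_⟩
  intro r hr
  rcases (hG r).1 hr with rfl | ⟨p, a, b, q, hd, rfl⟩
  · exact Or.inl ⟨[], rfl⟩
  · exact Or.inr ⟨a.toList, p, b.toList, rfl⟩

end Pool.Agent.NGP
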