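import Pool.Agent.NGP.C8

/-!
# NGP, part C: Dyck words with a bounded number of blocks

`NE k`: words built in `k` levels from neutral words, concatenation and surrounding with matching
brackets of one generator.

PROOFS. `NE.mono`: from `NE k w` one gets `NE (k + 1) w` by `app` with the neutral word `[]`.
`NE.dyck`: induction with `stk_append`, `stk_frame` (`V2.lean`): claim `stk s w = some s` for all `s`;
for `ParW i u v`: `stk s u = some (List.replicate m i ++ s)`, and `v` pops them.
`qRat_ne`: induction on `k`: neutral words are regular; `QRat.union`, `QRat.append`, `QRat.par`.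
`NE.insert`: `NE k (x ++ y)`, `NE j z` imply `NE (k + j + 2) (x ++ z ++ y)`, by induction on the first
derivation. `neu`: `x`, `y` are neutral. `app`: the cut is in the first or the second factor. `par`
(`x ++ y = u ++ w ++ v`): cut inside `w`: clear. Cut inside `u`, `u = x ++ u₂`: split `v = v₁ ++ v₂` so that
`v₁` has as many brackets as `u₂` (exists: the number of brackets of the prefixes of `v` takes all
values up to that of `v`); the word is `x ++ (z ++ (u₂ ++ w ++ v₁)) ++ v₂`. Cut inside `v`: mirror.
`ne_of_dyck`: induction on `b`. The blocks are `bs`, each of one colour. If no letter of `w` is a closing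
bracket then `w` has no brackets at all (the stack ends empty), so it is neutral. Otherwise let `Bj` be
the first block with a closing bracket, `(i, false)`. It is not the first block (its first bracket
would be popped from the empty stack; more precisely all blocks before have no brackets: then
contradiction). If the block before, `C`, has no bracket then `C ++ Bj` is one block: use the
induction hypothesis. Otherwise `C` consists of `p > 0` letters `(i', true)` and neutral letters,
`i' = i` because the first bracket of `Bj` pops the last of `C`. Let `q` be the number of brackets of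
`Bj`. If `q ≤ p` write `C = C' ++ u` with `q` brackets in `u`: `w = x ++ (u ++ Bj) ++ y` and `x ++ y` has the
blocks `..., C', ...` (one less); if `p ≤ q` write `Bj = v ++ v'` with `p` brackets in `v`:
`w = x ++ (C ++ v) ++ y`, `x ++ y` with one block less. `x ++ y` is a Dyck word (`stk` of the removed
factor is the identity on the stack reached), the removed factor is `NE 1` (`par` of the
neutral word `[]`). Then `NE.insert`.
`blk_of_fm`: `P1` has the blocks `2 3^i`, `4 5^j`, `P2` the blocks `6 7^i`, `8 9^j`; the middle part is a
concatenation of words `0 :: t`, `t` without `0`: by `Nx` such a `t` is `1^n ++ row` with all letters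
of the row of the same type `(a - 10) % 8`, so of the same colour: one block for each letter `0`.
-/

namespace Pool.Agent.NGP

open Pool.Agent.H93NG

/-- Words with derivations of bounded depth. -/
inductive NE : ℕ → List ℕ → Prop
  | neu {k : ℕ} {w : List ℕ} : (∀ a ∈ w, lv a = none) → NE k w
  | app {k : ℕ} {u v : List ℕ} : NE k u → NE k v → NE (k + 1) (u ++ v)
  | par {k i : ℕ} {u w v : List ℕ} : ParW i u v → NE k w → NE (k + 1) (u ++ w ++ v)

/-- At most `b` blocks of one colour. -/
def Blk (b : ℕ) (w : List ℕ) : Prop :=
  ∃ bs : List (List ℕ), bs.length ≤ b ∧ w = bs.flatten ∧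
    ∀ B ∈ bs, ∃ x : ℕ × Bool, ∀ a ∈ B, lv a = none ∨ lv a = some x

/-! ### Auxiliary facts on words and stacks -/

private theorem c9_split {α β : Type} (f : α → Option β) : ∀ (v : List α) (n : ℕ),
    n ≤ (v.filterMap f).length → ∃ v₁ v₂, v = v₁ ++ v₂ ∧ (v₁.filterMap f).length = n
  | v, 0, _ => ⟨[], v, rfl, rfl⟩
  | [], n + 1, h => by simp at h
  | a :: v, n + 1, h => by
    rcases ha : f a with _ | x
    · rw [List.filterMap_cons_none ha] at h
      obtain ⟨v₁, v₂, e, h1⟩ := c9_split f v (n + 1) h
      exact ⟨a :: v₁, v₂, by rw [e]; rfl, by rw [List.filterMap_cons_none ha]; exact h1⟩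
    · rw [List.filterMap_cons_some ha, List.length_cons] at h
      obtain ⟨v₁, v₂, e, h1⟩ := c9_split f v n (by omega)
      exact ⟨a :: v₁, v₂, by rw [e]; rfl, by
        rw [List.filterMap_cons_some ha, List.length_cons, h1]⟩

private theorem c9_splitr {α β : Type} (f : α → Option β) (v : List α) (n : ℕ)
    (h : n ≤ (v.filterMap f).length) : ∃ v₁ v₂, v = v₁ ++ v₂ ∧ (v₂.filterMap f).length = n := by
  obtain ⟨v₁, v₂, e, h1⟩ := c9_split f v ((v.filterMap f).length - n) (by omega)
  refine ⟨v₁, v₂, e, ?_⟩
  have := congrArg (fun l => (l.filterMap f).length) e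
  simp only [List.filterMap_append, List.length_append] at this
  omega

private theorem c9_neu {w : List ℕ} (h : ∀ a ∈ w, lv a = none) (s : List ℕ) :
    stk s w = some s := by
  induction w with
  | nil => exact stk_nil s
  | cons a w ih =>
    rw [stk_cons, h a (by simp)]
    exact ih fun b hb => h b (by simp [hb])

private theorem c9_open {i : ℕ} {u : List ℕ} (h : ∀ a ∈ u, lv a = none ∨ lv a = some (i, true))
    (s : List ℕ) : stk s u = some (List.replicate (u.filterMap lv).length i ++ s) := by
  induction u generalizing s with
  | nil => exact stk_nil s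
  | cons a u ih =>
    have ih' := ih fun b hb => h b (by simp [hb])
    rcases h a (by simp) with ha | ha
    · rw [stk_cons, ha, List.filterMap_cons_none ha]
      exact ih' s
    · rw [stk_cons, ha, List.filterMap_cons_some ha, List.length_cons]
      simp only
      rw [ih' (i :: s), List.replicate_succ', List.append_assoc]
      rfl

private theorem c9_close {i : ℕ} {v : List ℕ} (h : ∀ a ∈ v, lv a = none ∨ lv a = some (i, false))
    (s : List ℕ) : stk (List.replicate (v.filterMap lv).length i ++ s) v = some s := by
  induction v generalizing s with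
  | nil => exact stk_nil s
  | cons a v ih =>
    have ih' := ih fun b hb => h b (by simp [hb])
    rcases h a (by simp) with ha | ha
    · rw [stk_cons, ha, List.filterMap_cons_none ha]
      exact ih' s
    · rw [stk_cons, ha, List.filterMap_cons_some ha, List.length_cons, List.replicate_succ,
        List.cons_append]
      simp only [if_true]
      exact ih' s

private theorem c9_par {i : ℕ} {u w v : List ℕ} (h : ParW i u v) (hw : ∀ s, stk s w = some s)
    (s : List ℕ) : stk s (u ++ w ++ v) = some s := by
  obtain ⟨h1, h2, h3⟩ := h
  rw [stk_append, stk_append, c9_open h1 s]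
  simp only [Option.bind_some]
  rw [hw]
  simp only [Option.bind_some]
  rw [h3]
  exact c9_close h2 s

private theorem c9_stk {k : ℕ} {w : List ℕ} (h : NE k w) (s : List ℕ) : stk s w = some s := by
  induction h generalizing s with
  | neu h => exact c9_neu h s
  | app _ _ ih ih' =>
    rw [stk_append, ih s]
    simp only [Option.bind_some]
    exact ih' s
  | par h _ ih => exact c9_par h ih s

private theorem c9_succ {k : ℕ} {w : List ℕ} (h : NE k w) : NE (k + 1) w := by
  have := NE.app h (NE.neu (w := []) (by simp))
  simpa using this

theorem NE.mono {k k' : ℕ} {w : List ℕ} (h : NE k w) (hk : k ≤ k') : NE k' w := by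
  induction hk with
  | refl => exact h
  | step _ ih => exact c9_succ ih

theorem NE.dyck {k : ℕ} {w : List ℕ} (h : NE k w) : Dyck w := c9_stk h []

/-! ### Quasi-rationality -/

private theorem c9_all {Z : Type} [Finite Z] (P : Z → Prop) :
    Language.IsRegular ({z | ∀ a ∈ z, P a} : Language Z) := by
  have h := isRegular_factor (Z := Z) {f | ∃ a, f = [a] ∧ ¬ P a} 1 (by
    rintro f ⟨a, rfl, -⟩
    simp)
  have h' := h.compl
  have e : ({z | ∀ a ∈ z, P a} : Language Z) =
      ({z | ∃ f ∈ ({f | ∃ a, f = [a] ∧ ¬ P a} : Set (List Z)), f <:+: z} : Language Z)ᶜ := by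
    ext z
    constructor
    · rintro hz ⟨f, ⟨a, rfl, ha⟩, hf⟩
      exact ha (hz a (hf.subset (by simp)))
    · intro hz a ha
      by_contra hP
      refine hz ⟨[a], ⟨a, rfl, hP⟩, ?_⟩
      obtain ⟨s, t, e⟩ := List.append_of_mem ha
      exact ⟨s, t, by rw [e]; simp⟩
  rw [e]
  exact h'

theorem qRat_ne (K k : ℕ) : QRat ({v | NE k (v.map Fin.val)} : Language (Fin K)) := by
  have h0 : QRat ({v | ∀ a ∈ v, lv a.val = none} : Language (Fin K)) :=
    QRat.regular (c9_all fun a : Fin K => lv a.val = none)
  induction k with
  | zero =>
    have e : ({v | NE 0 (v.map Fin.val)} : Language (Fin K)) =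
        ({v | ∀ a ∈ v, lv a.val = none} : Language (Fin K)) := by
      ext v
      constructor
      · intro h a ha
        have h' : NE 0 (v.map Fin.val) := h
        cases h' with
        | neu h => exact h _ (List.mem_map_of_mem ha)
      · intro h
        refine NE.neu fun a ha => ?_
        obtain ⟨b, hb, rfl⟩ := List.mem_map.1 ha
        exact h b hb
    rw [e]
    exact h0
  | succ k ih =>
    have h1 := (h0.union (ih.append ih)).union (QRat.par ih)
    have e : ({v | NE (k + 1) (v.map Fin.val)} : Language (Fin K)) =
        ({v | v ∈ ({v | v ∈ ({v | ∀ a ∈ v, lv a.val = none} : Language (Fin K)) ∨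
          v ∈ ({w | ∃ u ∈ ({v | NE k (v.map Fin.val)} : Language (Fin K)),
            ∃ v ∈ ({v | NE k (v.map Fin.val)} : Language (Fin K)), w = u ++ v} :
              Language (Fin K))} : Language (Fin K)) ∨
          v ∈ ({w | ∃ i u m v, ParW i (u.map Fin.val) (v.map Fin.val) ∧
            m ∈ ({v | NE k (v.map Fin.val)} : Language (Fin K)) ∧ w = u ++ m ++ v} :
              Language (Fin K))} : Language (Fin K)) := by
      ext v
      constructor
      · intro h
        have h' : NE (k + 1) (v.map Fin.val) := h
        generalize hv : v.map Fin.val = w at h'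
        cases h' with
        | neu h =>
          refine Or.inl (Or.inl fun a ha => ?_)
          exact h _ (by rw [← hv]; exact List.mem_map_of_mem ha)
        | app h1 h2 =>
          rename_i x y
          obtain ⟨v₁, v₂, rfl, e1, e2⟩ := List.map_eq_append_iff.1 hv
          refine Or.inl (Or.inr ⟨v₁, ?_, v₂, ?_, rfl⟩)
          · show NE k (v₁.map Fin.val)
            rw [e1]; exact h1
          · show NE k (v₂.map Fin.val)
            rw [e2]; exact h2
        | par h1 h2 =>
          rename_i i x m y
          obtain ⟨v₁, v₂, rfl, e1, e2⟩ := List.map_eq_append_iff.1 hv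
          obtain ⟨v₃, v₄, rfl, e3, e4⟩ := List.map_eq_append_iff.1 e1
          refine Or.inr ⟨i, v₃, v₄, v₂, ?_, ?_, rfl⟩
          · rw [e3, e2]; exact h1
          · show NE k (v₄.map Fin.val)
            rw [e4]; exact h2
      · rintro ((h | ⟨u, hu, u', hu', rfl⟩) | ⟨i, u, m, u', hp, hm, rfl⟩)
        · refine NE.neu fun a ha => ?_
          obtain ⟨b, hb, rfl⟩ := List.mem_map.1 ha
          exact h b hb
        · show NE (k + 1) ((u ++ u').map Fin.val)
          rw [List.map_append]
          exact NE.app hu hu'
        · show NE (k + 1) ((u ++ m ++ u').map Fin.val)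
          rw [List.map_append, List.map_append]
          exact NE.par hp hm
    rw [e]
    exact h1

/-! ### Insertion -/

private theorem c9_insert {k j : ℕ} {w z : List ℕ} (h : NE k w) (h' : NE j z) :
    ∀ x y : List ℕ, w = x ++ y → NE (k + j + 2) (x ++ z ++ y) := by
  induction h with
  | @neu k w h =>
    rintro x y rfl
    have hx : NE j x := NE.neu fun a ha => h a (List.mem_append_left _ ha)
    have hy : NE (j + 1) y := NE.neu fun a ha => h a (List.mem_append_right _ ha)
    exact (NE.app (NE.app hx h') hy).mono (by omega)
  | @app k u v hu hv ihu ihv =>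
    intro x y e
    rcases List.append_eq_append_iff.1 e with ⟨a, e1, e2⟩ | ⟨a, e1, e2⟩
    · have h1 := ihv a y e2
      have h2 := NE.app (hu.mono (by omega : k ≤ k + j + 2)) h1
      rw [e1]
      have e3 : u ++ a ++ z ++ y = u ++ (a ++ z ++ y) := by simp only [List.append_assoc]
      rw [e3]
      exact h2.mono (by omega)
    · have h1 := ihu x a e1
      have h2 := NE.app h1 (hv.mono (by omega : k ≤ k + j + 2))
      rw [e2]
      have e3 : x ++ z ++ (a ++ v) = x ++ z ++ a ++ v := by simp only [List.append_assoc]
      rw [e3]
      exact h2.mono (by omega)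
  | @par k i u w v hp hw ih =>
    intro x y e
    obtain ⟨p1, p2, p3⟩ := hp
    rcases List.append_eq_append_iff.1 e with ⟨a, e1, e2⟩ | ⟨a, e1, e2⟩
    · -- cut inside `v`: `x = u ++ w ++ a`, `v = a ++ y`
      subst e1 e2
      rw [List.filterMap_append, List.length_append] at p3
      obtain ⟨u₁, u₂, rfl, hc⟩ := c9_splitr lv u (a.filterMap lv).length (by omega)
      have hin : NE (k + 1) (u₂ ++ w ++ a) :=
        NE.par ⟨fun b hb => p1 b (List.mem_append_right _ hb),
          fun b hb => p2 b (List.mem_append_left _ hb), hc⟩ hw
      have h2 : NE (k + j + 2) ((u₂ ++ w ++ a) ++ z) :=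
        NE.app (hin.mono (by omega : k + 1 ≤ k + j + 1)) (h'.mono (by omega : j ≤ k + j + 1))
      rw [List.filterMap_append, List.length_append] at p3
      have h3 : NE (k + j + 3) (u₁ ++ ((u₂ ++ w ++ a) ++ z) ++ y) :=
        NE.par ⟨fun b hb => p1 b (List.mem_append_left _ hb),
          fun b hb => p2 b (List.mem_append_right _ hb), by omega⟩ h2
      have e3 : u₁ ++ u₂ ++ w ++ a ++ z ++ y = u₁ ++ ((u₂ ++ w ++ a) ++ z) ++ y := by
        simp only [List.append_assoc]
      rw [e3]
      exact h3.mono (by omega)
    · rcases List.append_eq_append_iff.1 e1 with ⟨b, e3, e4⟩ | ⟨b, e3, e4⟩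
      · -- cut inside `w`: `x = u ++ b`, `w = b ++ a`, `y = a ++ v`
        have h1 := ih b a e4
        have h2 := NE.par (i := i) (u := u) (v := v) ⟨p1, p2, p3⟩ h1
        rw [e2, e3]
        have e5 : u ++ b ++ z ++ (a ++ v) = u ++ (b ++ z ++ a) ++ v := by
          simp only [List.append_assoc]
        rw [e5]
        exact h2.mono (by omega)
      · -- cut inside `u`: `u = x ++ b`, `a = b ++ w`
        subst e3 e4 e2
        rw [List.filterMap_append, List.length_append] at p3
        obtain ⟨v₁, v₂, rfl, hc⟩ := c9_split lv v (b.filterMap lv).length (by omega)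
        have hin : NE (k + 1) (b ++ w ++ v₁) :=
          NE.par ⟨fun c hc' => p1 c (List.mem_append_right _ hc'),
            fun c hc' => p2 c (List.mem_append_left _ hc'), hc.symm⟩ hw
        have h2 : NE (k + j + 2) (z ++ (b ++ w ++ v₁)) :=
          NE.app (h'.mono (by omega : j ≤ k + j + 1)) (hin.mono (by omega : k + 1 ≤ k + j + 1))
        rw [List.filterMap_append, List.length_append] at p3
        have h3 : NE (k + j + 3) (x ++ (z ++ (b ++ w ++ v₁)) ++ v₂) :=
          NE.par ⟨fun c hc' => p1 c (List.mem_append_left _ hc'),
            fun c hc' => p2 c (List.mem_append_right _ hc'), by omega⟩ h2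
        have e5 : x ++ z ++ (b ++ w ++ (v₁ ++ v₂)) = x ++ (z ++ (b ++ w ++ v₁)) ++ v₂ := by
          simp only [List.append_assoc]
        rw [e5]
        exact h3.mono (by omega)

theorem NE.insert {k j : ℕ} {x y z : List ℕ} (h : NE k (x ++ y)) (h' : NE j z) :
    NE (k + j + 2) (x ++ z ++ y) := c9_insert h h' x y rfl

/-! ### Dyck words with few blocks -/

private theorem c9_first {α : Type} (P : α → Prop) : ∀ l : List α, (∃ a ∈ l, P a) →
    ∃ pre a post, l = pre ++ a :: post ∧ P a ∧ ∀ b ∈ pre, ¬ P b
  | [], h => by simp at h
  | a :: l, h => by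
    by_cases ha : P a
    · exact ⟨[], a, l, rfl, ha, by simp⟩
    · obtain ⟨b, hb, hP⟩ := h
      rcases List.mem_cons.1 hb with rfl | hb
      · exact absurd hP ha
      · obtain ⟨pre, c, post, e, hc, hpre⟩ := c9_first P l ⟨b, hb, hP⟩
        refine ⟨a :: pre, c, post, by rw [e]; rfl, hc, ?_⟩
        intro d hd
        rcases List.mem_cons.1 hd with rfl | hd
        · exact ha
        · exact hpre d hd

/-- If no letter is closing, the stack grows by the number of brackets. -/
private theorem c9_noclose {w : List ℕ} (h : ∀ a ∈ w, ∀ i, lv a ≠ some (i, false)) (s : List ℕ) :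
    ∃ t, stk s w = some t ∧ t.length = s.length + (w.filterMap lv).length := by
  induction w generalizing s with
  | nil => exact ⟨s, stk_nil s, by simp⟩
  | cons a w ih =>
    have ih' := ih fun b hb => h b (by simp [hb])
    rcases ha : lv a with _ | ⟨i, b⟩
    · obtain ⟨t, h1, h2⟩ := ih' s
      refine ⟨t, ?_, ?_⟩
      · rw [stk_cons, ha]; exact h1
      · rw [List.filterMap_cons_none ha]; exact h2
    · cases b
      · exact absurd ha (h a (by simp) i)
      · obtain ⟨t, h1, h2⟩ := ih' (i :: s)
        refine ⟨t, ?_, ?_⟩
        · rw [stk_cons, ha]; exact h1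
        · rw [List.filterMap_cons_some ha, h2, List.length_cons, List.length_cons]; omega

private theorem c9_remove {x z y : List ℕ} (h : Dyck (x ++ z ++ y))
    (hz : ∀ s, stk s z = some s) : Dyck (x ++ y) := by
  unfold Dyck at h ⊢
  rw [stk_append, stk_append] at h
  rw [stk_append]
  rcases hx : stk [] x with _ | s
  · rw [hx] at h; simp at h
  · rw [hx] at h
    simp only [Option.bind_some] at h ⊢
    rw [hz s] at h
    simpa using h

private theorem c9_fm_zero {w : List ℕ} (h : (w.filterMap lv).length = 0) :
    ∀ a ∈ w, lv a = none := by
  rw [List.length_eq_zero_iff, List.filterMap_eq_nil_iff] at h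
  exact h

/-- A closing block at the bottom of the stack pops something. -/
private theorem c9_pop {i : ℕ} {B : List ℕ} (hB : ∀ a ∈ B, lv a = none ∨ lv a = some (i, false))
    (hne : ∃ a ∈ B, lv a = some (i, false)) {s : List ℕ} {t : List ℕ} (h : stk s B = some t) :
    ∃ s', s = i :: s' := by
  induction B with
  | nil => simp at hne
  | cons a B ih =>
    rcases hB a (by simp) with ha | ha
    · rw [stk_cons, ha] at h
      refine ih (fun b hb => hB b (by simp [hb])) ?_ h
      obtain ⟨b, hb, hb'⟩ := hne
      rcases List.mem_cons.1 hb with rfl | hb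
      · rw [ha] at hb'; simp at hb'
      · exact ⟨b, hb, hb'⟩
    · rw [stk_cons, ha] at h
      rcases s with _ | ⟨j, s'⟩
      · simp at h
      · simp only at h
        split_ifs at h with hj
        exact ⟨s', by rw [hj]⟩

private theorem c9_main (b : ℕ) : ∀ bs : List (List ℕ), bs.length ≤ b → Dyck bs.flatten →
    (∀ B ∈ bs, ∃ x : ℕ × Bool, ∀ a ∈ B, lv a = none ∨ lv a = some x) →
    NE (3 * b) bs.flatten := by
  induction b with
  | zero =>
    intro bs hl _ _
    have : bs = [] := List.length_eq_zero_iff.1 (by omega)
    subst this
    exact NE.neu (by simp)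
  | succ b ih =>
    intro bs hl hd hc
    by_cases hcl : ∃ B ∈ bs, ∃ a ∈ B, ∃ i, lv a = some (i, false)
    · obtain ⟨pre, B, post, rfl, ⟨a, haB, i, hai⟩, hpre⟩ :=
        c9_first (fun B : List ℕ => ∃ a ∈ B, ∃ i, lv a = some (i, false)) bs hcl
      have hB : ∀ a ∈ B, lv a = none ∨ lv a = some (i, false) := by
        obtain ⟨x, hx⟩ := hc B (by simp)
        have hxi : x = (i, false) := by
          rcases hx a haB with h | h
          · rw [hai] at h; simp at h
          · rw [hai] at h; exact (Option.some.inj h).symm
        rw [← hxi]
        exact hx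
      have hpre' : ∀ c ∈ pre.flatten, ∀ i, lv c ≠ some (i, false) := by
        intro c hc' i' hi'
        obtain ⟨C, hC, hcC⟩ := List.mem_flatten.1 hc'
        exact hpre C hC ⟨c, hcC, i', hi'⟩
      obtain ⟨t, ht, htl⟩ := c9_noclose hpre' []
      have hd' : Dyck (pre.flatten ++ (B ++ post.flatten)) := by
        have : (pre ++ B :: post).flatten = pre.flatten ++ (B ++ post.flatten) := by simp
        rw [← this]; exact hd
      have hBt : ∃ t', stk t B = some t' := by
        unfold Dyck at hd'
        rw [stk_append, ht] at hd'
        simp only [Option.bind_some] at hd'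
        rw [stk_append] at hd'
        rcases h : stk t B with _ | t'
        · rw [h] at hd'; simp at hd'
        · exact ⟨t', rfl⟩
      obtain ⟨t', ht'⟩ := hBt
      obtain ⟨t₀, ht₀⟩ := c9_pop hB ⟨a, haB, hai⟩ ht'
      -- `pre` is not empty
      rcases List.eq_nil_or_concat pre with rfl | ⟨pre', C, rfl⟩
      · simp only [List.flatten_nil, stk_nil, Option.some.injEq] at ht
        rw [← ht] at ht₀
        exact absurd ht₀ (by simp)
      · obtain ⟨x, hx⟩ := hc C (by simp)
        by_cases hCn : ∀ a ∈ C, lv a = none
        · -- merge `C` and `B`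
          have e : (pre' ++ [C] ++ B :: post).flatten = (pre' ++ (C ++ B) :: post).flatten := by
            simp
          rw [List.concat_eq_append] at *
          rw [e] at hd ⊢
          refine (ih (pre' ++ (C ++ B) :: post) ?_ hd ?_).mono (by omega)
          · simp only [List.length_append, List.length_cons, List.length_nil] at hl ⊢
            omega
          · intro D hD
            rcases List.mem_append.1 hD with hD | hD
            · exact hc D (by simp [hD])
            · rcases List.mem_cons.1 hD with rfl | hD
              · refine ⟨(i, false), fun c hc' => ?_⟩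
                rcases List.mem_append.1 hc' with h | h
                · exact Or.inl (hCn c h)
                · exact hB c h
              · exact hc D (by simp [hD])
        · push Not at hCn
          obtain ⟨c, hcC, hcn⟩ := hCn
          have hxc : lv c = some x := (hx c hcC).resolve_left hcn
          obtain ⟨i', x'⟩ := x
          have hx't : x' = true := by
            cases x'
            · exact absurd hxc (hpre' c (by simp; exact Or.inr hcC) i')
            · rfl
          subst hx't
          -- the generator agrees
          have hii : i' = i := by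
            have e : (pre'.concat C).flatten = pre'.flatten ++ C := by simp
            rw [e, stk_append] at ht
            rcases h : stk [] pre'.flatten with _ | s
            · rw [h] at ht; simp at ht
            · rw [h] at ht
              simp only [Option.bind_some] at ht
              rw [c9_open hx s] at ht
              have hpos : (C.filterMap lv).length ≠ 0 := fun h0 =>
                hcn (c9_fm_zero h0 c hcC)
              obtain ⟨m, hm⟩ := Nat.exists_eq_succ_of_ne_zero hpos
              rw [hm, Nat.succ_eq_add_one, List.replicate_succ, List.cons_append] at ht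
              have := Option.some.inj ht
              rw [ht₀] at this
              exact (List.cons.inj this).1
          subst hii
          have hlen : pre'.length + post.length + 1 ≤ b := by
            simp only [List.concat_eq_append, List.length_append, List.length_cons,
              List.length_nil] at hl
            omega
          have hcpre : ∀ D ∈ pre', ∃ x : ℕ × Bool, ∀ a ∈ D, lv a = none ∨ lv a = some x :=
            fun D hD => hc D (by simp [hD])
          have hcpost : ∀ D ∈ post, ∃ x : ℕ × Bool, ∀ a ∈ D, lv a = none ∨ lv a = some x :=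
            fun D hD => hc D (by simp [hD])
          rcases le_total (B.filterMap lv).length (C.filterMap lv).length with hqp | hpq
          · obtain ⟨C', u, rfl, hu⟩ := c9_splitr lv C _ hqp
            have hpar : ParW i' u B :=
              ⟨fun c hc' => hx c (List.mem_append_right _ hc'), hB, hu⟩
            have hz : NE 1 (u ++ [] ++ B) := NE.par hpar (NE.neu (by simp))
            rw [List.append_nil] at hz
            have e : ((pre'.concat (C' ++ u)) ++ B :: post).flatten =
                (pre'.flatten ++ C') ++ (u ++ B) ++ post.flatten := by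
              simp
            rw [e] at hd ⊢
            have e2 : (pre' ++ C' :: post).flatten = (pre'.flatten ++ C') ++ post.flatten := by
              simp
            have h1 := ih (pre' ++ C' :: post) (by
              simp only [List.length_append, List.length_cons]; omega) (by
              rw [e2]
              exact c9_remove hd (c9_stk hz)) (by
              intro D hD
              rcases List.mem_append.1 hD with hD | hD
              · exact hcpre D hD
              · rcases List.mem_cons.1 hD with rfl | hD
                · exact ⟨(i', true), fun c hc' => hx c (List.mem_append_left _ hc')⟩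
                · exact hcpost D hD)
            rw [e2] at h1
            exact (NE.insert h1 hz).mono (by omega)
          · obtain ⟨v, v', rfl, hv⟩ := c9_split lv B _ hpq
            have hpar : ParW i' C v :=
              ⟨hx, fun c hc' => hB c (List.mem_append_left _ hc'), hv.symm⟩
            have hz : NE 1 (C ++ [] ++ v) := NE.par hpar (NE.neu (by simp))
            rw [List.append_nil] at hz
            have e : ((pre'.concat C) ++ (v ++ v') :: post).flatten =
                pre'.flatten ++ (C ++ v) ++ (v' ++ post.flatten) := by
              simp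
            rw [e] at hd ⊢
            have e2 : (pre' ++ v' :: post).flatten = pre'.flatten ++ (v' ++ post.flatten) := by
              simp
            have h1 := ih (pre' ++ v' :: post) (by
              simp only [List.length_append, List.length_cons]; omega) (by
              rw [e2]
              exact c9_remove hd (c9_stk hz)) (by
              intro D hD
              rcases List.mem_append.1 hD with hD | hD
              · exact hcpre D hD
              · rcases List.mem_cons.1 hD with rfl | hD
                · exact ⟨(i', false), fun c hc' => hB c (List.mem_append_right _ hc')⟩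
                · exact hcpost D hD)
            rw [e2] at h1
            exact (NE.insert h1 hz).mono (by omega)
    · push Not at hcl
      have h1 : ∀ a ∈ bs.flatten, ∀ i, lv a ≠ some (i, false) := by
        intro a ha i
        obtain ⟨B, hB, haB⟩ := List.mem_flatten.1 ha
        exact hcl B hB a haB i
      obtain ⟨t, ht, htl⟩ := c9_noclose h1 []
      have h2 : t = [] := by
        have : stk [] bs.flatten = some [] := hd
        rw [ht] at this
        exact Option.some.inj this
      rw [h2] at htl
      exact NE.neu (c9_fm_zero (by simpa using htl.symm))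

theorem ne_of_dyck {b : ℕ} {w : List ℕ} (h : Dyck w) (hb : Blk b w) : NE (3 * b) w := by
  obtain ⟨bs, hl, rfl, hc⟩ := hb
  exact c9_main b bs hl h hc

/-! ### Blocks of the format -/

private theorem c9_lv_mod {a b : ℕ} (ha : 10 ≤ a) (hb : 10 ≤ b)
    (h : (a - 10) % 8 = (b - 10) % 8) : lv a = lv b := by
  have h2 : (a - 10) % 2 = (b - 10) % 2 := by omega
  unfold lv
  rw [if_neg (by omega), if_neg (by omega), if_neg (by omega), if_neg (by omega), h, h2]

private theorem c9_lv_some {a : ℕ} (ha : 10 ≤ a) : ∃ x, lv a = some x := by
  unfold lv
  rw [if_neg (by omega), if_neg (by omega)]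
  exact ⟨_, rfl⟩

private theorem c9_mid : ∀ (l : List ℕ) (a : ℕ), (∀ b ∈ a :: l, b < 2 ∨ 10 ≤ b) →
    List.IsChain Nx (a :: l) → ∃ (B : List ℕ) (bs : List (List ℕ)), l = B ++ bs.flatten ∧
      bs.length = l.count 0 ∧ (∃ x : ℕ × Bool, ∀ b ∈ B, lv b = none ∨ lv b = some x) ∧
      (∀ B' ∈ bs, ∃ x : ℕ × Bool, ∀ b ∈ B', lv b = none ∨ lv b = some x) ∧
      (10 ≤ a → ∀ b ∈ B, lv b = none ∨ lv b = lv a)
  | [], a, _, _ => ⟨[], [], rfl, rfl, ⟨(0, true), by simp⟩, by simp, by simp⟩
  | b :: l, a, hl, hch => by
    rw [List.isChain_cons_cons] at hch
    obtain ⟨hab, hch⟩ := hch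
    obtain ⟨B, bs, e, hlen, ⟨x, hx⟩, hbs, hB⟩ :=
      c9_mid l b (fun c hc => hl c (List.mem_cons_of_mem _ hc)) hch
    by_cases h0 : b = 0
    · subst h0
      refine ⟨[], (0 :: B) :: bs, by rw [e]; simp, by simp [hlen], ⟨(0, true), by simp⟩, ?_,
        by simp⟩
      intro B' hB'
      rcases List.mem_cons.1 hB' with rfl | hB'
      · refine ⟨x, fun c hc => ?_⟩
        rcases List.mem_cons.1 hc with rfl | hc
        · exact Or.inl rfl
        · exact hx c hc
      · exact hbs B' hB'
    · by_cases h1 : b = 1
      · subst h1
        refine ⟨1 :: B, bs, by rw [e]; rfl, by simp [hlen], ⟨x, ?_⟩, hbs, ?_⟩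
        · intro c hc
          rcases List.mem_cons.1 hc with rfl | hc
          · exact Or.inl rfl
          · exact hx c hc
        · intro ha
          rcases hab with h | ⟨_, h⟩ | ⟨h, _⟩ <;> omega
      · have hb10 : 10 ≤ b := by
          rcases hl b (by simp) with h | h
          · omega
          · exact h
        have hBb := hB hb10
        obtain ⟨y, hy⟩ := c9_lv_some hb10
        refine ⟨b :: B, bs, by rw [e]; rfl, ?_, ⟨y, ?_⟩, hbs, ?_⟩
        · rw [List.count_cons_of_ne h0, hlen]
        · intro c hc
          rcases List.mem_cons.1 hc with rfl | hc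
          · exact Or.inr hy
          · rw [← hy]; exact hBb c hc
        · intro ha
          have hba : lv b = lv a := by
            rcases hab with h | ⟨h, _⟩ | ⟨_, h | ⟨_, h⟩⟩
            · omega
            · omega
            · omega
            · exact (c9_lv_mod ha hb10 h).symm
          intro c hc
          rcases List.mem_cons.1 hc with rfl | hc
          · exact Or.inr hba
          · rw [← hba]; exact hBb c hc

theorem blk_of_fm {g : ℕ} {w : List ℕ} (h : Fm g w) : Blk (w.count 0 + 4) w := by
  obtain ⟨i₁, j₁, m, i₂, j₂, rfl, ⟨m', rfl⟩, hm, hch, -⟩ := h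
  obtain ⟨B, bs, e, hlen, ⟨x, hx⟩, hbs, -⟩ := c9_mid m' 0 (fun b hb => by
    rcases hm b hb with h | ⟨h, _⟩
    · exact Or.inl h
    · exact Or.inr h) hch
  have hcol : ∀ a b n : ℕ, ∀ x : ℕ × Bool, lv a = some x → lv b = some x →
      ∃ x : ℕ × Bool, ∀ c ∈ a :: List.replicate n b, lv c = none ∨ lv c = some x := by
    intro a b n x ha hb
    refine ⟨x, fun c hc => Or.inr ?_⟩
    rcases List.mem_cons.1 hc with rfl | hc
    · exact ha
    · rw [List.eq_of_mem_replicate hc]; exact hb
  have hr : ∀ n b : ℕ, b ≠ 0 → (List.replicate n b).count 0 = 0 := by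
    intro n b hb
    rw [List.count_replicate]
    simp [hb]
  refine ⟨[2 :: List.replicate i₁ 3, 4 :: List.replicate j₁ 5, 0 :: B] ++ bs ++
    [6 :: List.replicate i₂ 7, 8 :: List.replicate j₂ 9], ?_, ?_, ?_⟩
  · have h1 : m'.count 0 + 1 ≤
        (P1 i₁ j₁ ++ 0 :: m' ++ P2 i₂ j₂).count 0 := by
      rw [List.count_append, List.count_append, List.count_cons_self]
      omega
    simp only [List.length_append, List.length_cons, List.length_nil, hlen]
    omega
  · rw [e]
    simp [P1, P2]
  · intro D hD
    simp only [List.mem_append, List.mem_cons, List.not_mem_nil, or_false] at hD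
    rcases hD with ((rfl | rfl | rfl) | hD) | (rfl | rfl)
    · exact hcol 2 3 i₁ (0, true) rfl rfl
    · exact hcol 4 5 j₁ (0, false) rfl rfl
    · refine ⟨x, fun c hc => ?_⟩
      rcases List.mem_cons.1 hc with rfl | hc
      · exact Or.inl rfl
      · exact hx c hc
    · exact hbs D hD
    · exact hcol 6 7 i₂ (1, true) rfl rfl
    · exact hcol 8 9 j₂ (1, false) rfl rfl

end Pool.Agent.NGP
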