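import Pool.Agent.NGP.C5
import Pool.Agent.NGP.C9

/-!
# NGP, part C: the quasi-rational parts

PROOFS. `qRat_E1`: with `k = 3 (B + 4)`, `E1 g B` is the set of the words in `Fm` (regular), with at most
`B` letters `0` (regular), and in `NE k`: `ne_of_dyck`, `blk_of_fm` (with `Blk` monotone in `b`),
`NE.dyck`; `qRat_ne`, `QRat.inter`.
`qRat_E2`: `E2 g B` is the intersection of the regular languages `Fm` and (more than `B` letters `0`)
with the language of the words `x ++ y ++ z`, `x` in `{P1 i i}`, `y` starting with `0`, `z` in `{P2 j j}`: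
if a word of `Fm` is of this form, then the middle part is `y`: the letter `4` occurs once, the `3`s
before it give `i₁ = i`, after it come `j₁` letters `5` and then the `0`, so `j₁ = i`; the letter `6`
occurs once in words of `Fm`, so the right block starts at the same place, and `i₂ = j₂ = j`.
(The letters `0` of the word are those of the middle part.) `{P1 i i}` is in the cone of `Lin2`
(`dom_lin_of_rr`: left part `3^i 2` (read outwards), right part `4 5^i`: product of `(ε, 4)`,
`Star (3, 5)`, `(2, ε)`), same for `P2`; the words starting with `0` are regular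
(`isRegular_take`); `QRat.append` twice.
-/

namespace Pool.Agent.NGP

open Pool.Agent.H93NG

/-- Dyck words of the format with few letters `0`. -/
def E1 (g B : ℕ) : Language (Fin (10 + 8 * (g + 1))) :=
  {v | Fm g (v.map Fin.val) ∧ (v.map Fin.val).count 0 ≤ B ∧ Dyck (v.map Fin.val)}

/-- Words of the format with `i₁ = j₁`, `i₂ = j₂` and many letters `0`. -/
def E2 (g B : ℕ) : Language (Fin (10 + 8 * (g + 1))) :=
  {v | ∃ i j m, v.map Fin.val = P1 i i ++ m ++ P2 j j ∧ Mid g m ∧ B < m.count 0}

private theorem C10_congr {X : Type} {M N : Language X} (h : QRat M) (e : ∀ v, v ∈ N ↔ v ∈ M) :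
    QRat N := by
  have : N = M := Language.ext fun v => e v
  rw [this]
  exact h

theorem qRat_E1 (g B : ℕ) : QRat (E1 g B) := by
  have h1 := ((qRat_ne (10 + 8 * (g + 1)) (3 * (B + 4))).inter (isRegular_fm g)).inter
    (isRegular_count (10 + 8 * (g + 1)) B)
  refine C10_congr h1 fun v => ?_
  constructor
  · rintro ⟨h2, h3, h4⟩
    refine ⟨⟨?_, h2⟩, h3⟩
    obtain ⟨bs, h5, h6, h7⟩ := blk_of_fm h2
    exact ne_of_dyck h4 ⟨bs, by omega, h6, h7⟩
  · rintro ⟨⟨h2, h3⟩, h4⟩
    exact ⟨h3, h4, NE.dyck h2⟩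

private theorem C10_rep {a b : ℕ} (hab : a ≠ b) : ∀ {i i' : ℕ} {x x' : List ℕ},
    List.replicate i a ++ b :: x = List.replicate i' a ++ b :: x' → i = i' ∧ x = x'
  | 0, 0, x, x', h => by
    simp only [List.replicate_zero, List.nil_append, List.cons.injEq, true_and] at h
    exact ⟨rfl, h⟩
  | 0, i' + 1, x, x', h => by
    simp only [List.replicate_zero, List.nil_append, List.replicate_succ, List.cons_append,
      List.cons.injEq] at h
    exact absurd h.1.symm hab
  | i + 1, 0, x, x', h => by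
    simp only [List.replicate_zero, List.nil_append, List.replicate_succ, List.cons_append,
      List.cons.injEq] at h
    exact absurd h.1 hab
  | i + 1, i' + 1, x, x', h => by
    simp only [List.replicate_succ, List.cons_append, List.cons.injEq, true_and] at h
    obtain ⟨h1, h2⟩ := C10_rep hab h
    exact ⟨by rw [h1], h2⟩

private theorem C10_first {a : ℕ} : ∀ {m m' x x' : List ℕ}, a ∉ m → a ∉ m' →
    m ++ a :: x = m' ++ a :: x' → m = m' ∧ x = x'
  | [], [], x, x', _, _, h => by
    simp only [List.nil_append, List.cons.injEq, true_and] at h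
    exact ⟨rfl, h⟩
  | [], b :: m', x, x', _, h', h => by
    simp only [List.nil_append, List.cons_append, List.cons.injEq] at h
    exact absurd (List.mem_cons.2 (Or.inl h.1)) h'
  | b :: m, [], x, x', h0, _, h => by
    simp only [List.nil_append, List.cons_append, List.cons.injEq] at h
    exact absurd (List.mem_cons.2 (Or.inl h.1.symm)) h0
  | b :: m, c :: m', x, x', h0, h', h => by
    simp only [List.cons_append, List.cons.injEq] at h
    obtain ⟨h1, h2⟩ := C10_first (fun h3 => h0 (List.mem_cons_of_mem _ h3))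
      (fun h3 => h' (List.mem_cons_of_mem _ h3)) h.2
    exact ⟨by rw [h.1, h1], h2⟩

private theorem C10_star {X : Type} (b d : X) (u v : List X) :
    Star (fun (u v : List X) => u = [b] ∧ v = [d]) u v ↔
      ∃ i : ℕ, u = List.replicate i b ∧ v = List.replicate i d := by
  constructor
  · intro h
    induction h with
    | nil => exact ⟨0, rfl, rfl⟩
    | @cons u u' v v' h1 h2 ih =>
      obtain ⟨i, h3, h4⟩ := ih
      refine ⟨i + 1, ?_, ?_⟩
      · rw [h1.1, h3]; rfl
      · rw [h1.2, h4]; rfl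
  · rintro ⟨i, rfl, rfl⟩
    induction i with
    | zero => exact Star.nil
    | succ i ih => exact Star.cons (ρ := fun (u v : List X) => u = [b] ∧ v = [d]) ⟨rfl, rfl⟩ ih

private theorem C10_rr {X : Type} (a b c d : X) :
    RR (fun (u v : List X) => ∃ i : ℕ, u = List.replicate i b ++ [a] ∧
      v = c :: List.replicate i d) := by
  have h1 := RR.mul (RR.word ([] : List X) [c]) (RR.mul (RR.star (RR.word [b] [d]))
    (RR.word [a] ([] : List X)))
  refine h1.congr fun u v => ?_
  constructor
  · rintro ⟨i, rfl, rfl⟩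
    refine ⟨[], List.replicate i b ++ [a], [c], List.replicate i d, rfl, rfl, ⟨rfl, rfl⟩,
      List.replicate i b, [a], List.replicate i d, [], rfl, by simp, ?_, rfl, rfl⟩
    exact (C10_star b d _ _).2 ⟨i, rfl, rfl⟩
  · rintro ⟨u₁, u₂, v₁, v₂, rfl, rfl, ⟨rfl, rfl⟩, u₃, u₄, v₃, v₄, rfl, rfl, h2, rfl, rfl⟩
    obtain ⟨i, rfl, rfl⟩ := (C10_star b d _ _).1 h2
    exact ⟨i, by simp, by simp⟩

private theorem C10_block {K : ℕ} (a b c d : Fin K) :
    QRat ({v | ∃ i : ℕ, v.map Fin.val = a.val :: List.replicate i b.val ++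
      c.val :: List.replicate i d.val} : Language (Fin K)) := by
  refine C10_congr (QRat.of_lin (dom_lin_of_rr (C10_rr a b c d))) fun v => ?_
  constructor
  · rintro ⟨i, hi⟩
    refine ⟨List.replicate i b ++ [a], c :: List.replicate i d, ⟨i, rfl, rfl⟩, ?_⟩
    have h2 : v.map Fin.val = ((List.replicate i b ++ [a]).reverse ++
        (c :: List.replicate i d)).map Fin.val := by
      rw [hi]
      simp [List.map_append, List.map_replicate]
    exact (List.map_injective_iff.2 Fin.val_injective) h2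
  · rintro ⟨u, w, ⟨i, rfl, rfl⟩, rfl⟩
    refine ⟨i, ?_⟩
    simp [List.map_append, List.map_replicate]

private theorem C10_count1 (i j : ℕ) : (P1 i j).count 0 = 0 := by
  rw [List.count_eq_zero]
  simp [P1]

private theorem C10_count2 (i j : ℕ) : (P2 i j).count 0 = 0 := by
  rw [List.count_eq_zero]
  simp [P2]

private theorem C10_parse {i i₁ j₁ j i₂ j₂ : ℕ} {z m : List ℕ}
    (h : P1 i i ++ (0 :: z) ++ P2 j j = P1 i₁ j₁ ++ (0 :: m) ++ P2 i₂ j₂) (hm : 6 ∉ m) :
    i₁ = i ∧ j₁ = i ∧ i₂ = j ∧ j₂ = j ∧ z = m := by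
  simp only [P1, P2, List.cons_append, List.append_assoc, List.cons.injEq, true_and] at h
  obtain ⟨h1, h2⟩ := C10_rep (by decide) h
  obtain ⟨h3, h4⟩ := C10_rep (by decide) h2
  have hz : 6 ∉ z := by
    have h5 := congrArg (List.count 6) h4
    rw [List.count_append, List.count_append, List.count_cons_self, List.count_cons_self,
      List.count_eq_zero.2 hm, List.count_append, List.count_append] at h5
    have e1 : ∀ k, (List.replicate k 7).count 6 = 0 := fun k => by
      rw [List.count_eq_zero]; simp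
    have e2 : ∀ k, (8 :: List.replicate k 9).count 6 = 0 := fun k => by
      rw [List.count_eq_zero]; simp
    rw [e1, e1, e2, e2] at h5
    rw [← List.count_eq_zero]
    omega
  obtain ⟨h6, h7⟩ := C10_first hz hm h4
  obtain ⟨h8, h9⟩ := C10_rep (by decide) h7
  have h10 := congrArg List.length h9
  rw [List.length_replicate, List.length_replicate] at h10
  exact ⟨h1.symm, by rw [← h3], h8.symm, by rw [← h10], h6⟩

private theorem C10_mid6 {g : ℕ} {m : List ℕ} (h : Mid g m) : 6 ∉ m := by
  intro h6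
  rcases h.2.1 6 h6 with h1 | h1 <;> omega

theorem qRat_E2 (g B : ℕ) : QRat (E2 g B) := by
  have h1 := C10_block (K := 10 + 8 * (g + 1)) ⟨2, by omega⟩ ⟨3, by omega⟩ ⟨4, by omega⟩
    ⟨5, by omega⟩
  have h2 := C10_block (K := 10 + 8 * (g + 1)) ⟨6, by omega⟩ ⟨7, by omega⟩ ⟨8, by omega⟩
    ⟨9, by omega⟩
  have h3 : QRat ({v | v.take 1 ∈ ({[⟨0, by omega⟩]} : Set (List (Fin (10 + 8 * (g + 1)))))} :
      Language (Fin (10 + 8 * (g + 1)))) := QRat.regular (isRegular_take 1 _)
  have h4 := (((h1.append h3).append h2).inter (isRegular_fm g)).inter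
    (isRegular_count' (10 + 8 * (g + 1)) B)
  refine C10_congr h4 fun v => ?_
  constructor
  · rintro ⟨i, j, m, hv, hm, hB⟩
    obtain ⟨x, v₂, rfl, hx, hv₂⟩ := List.map_eq_append_iff.1 hv
    obtain ⟨v₁, y, rfl, hv₁, hy⟩ := List.map_eq_append_iff.1 hx
    obtain ⟨m', hm'⟩ := hm.1
    refine ⟨⟨⟨v₁ ++ y, ⟨v₁, ⟨i, hv₁⟩, y, ?_, rfl⟩, v₂, ⟨j, hv₂⟩, rfl⟩, ?_⟩, ?_⟩
    · rw [hm'] at hy
      obtain ⟨a, y', rfl, ha, hy'⟩ := List.map_eq_cons_iff.1 hy
      have ha' : a = ⟨0, by omega⟩ := Fin.ext ha
      rw [ha']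
      rfl
    · exact ⟨i, i, m, j, j, hv, hm⟩
    · change B < _
      rw [hv, List.count_append, List.count_append, C10_count1, C10_count2]
      omega
  · rintro ⟨⟨⟨w, ⟨v₁, ⟨i, hv₁⟩, y, hy, rfl⟩, v₂, ⟨j, hv₂⟩, rfl⟩, hF⟩, hB⟩
    obtain ⟨i₁, j₁, m, i₂, j₂, hF1, hm⟩ := hF
    obtain ⟨m', hm'⟩ := hm.1
    have hy2 : ∃ y', y.map Fin.val = 0 :: y' := by
      cases y with
      | nil => exact absurd (Set.mem_singleton_iff.1 hy) (by simp)
      | cons a y' =>
        have h5 := Set.mem_singleton_iff.1 hy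
        simp only [List.take_succ_cons, List.take_zero, List.cons.injEq, and_true] at h5
        exact ⟨y'.map Fin.val, by rw [h5]; rfl⟩
    obtain ⟨z, hz⟩ := hy2
    have hv : (v₁ ++ y ++ v₂).map Fin.val = P1 i i ++ (0 :: z) ++ P2 j j := by
      rw [List.map_append, List.map_append, hz]
      rw [hv₁, hv₂]
      rfl
    have h6 : 6 ∉ m' := fun h7 => C10_mid6 hm (by rw [hm']; exact List.mem_cons_of_mem _ h7)
    rw [hm'] at hF1
    obtain ⟨rfl, rfl, rfl, rfl, rfl⟩ := C10_parse (hv.symm.trans hF1) h6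
    refine ⟨_, _, 0 :: z, hv, by rw [← hm']; exact hm, ?_⟩
    change B < _ at hB
    rw [hv, List.count_append, List.count_append, C10_count1, C10_count2] at hB
    omega

end Pool.Agent.NGP
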