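import Pool.Agent.NGP.C7
import Pool.Agent.NGP.C10

/-!
# NGP, part C: pumping of the words with many `#`

PROOFS. `dyck_down`: let `K = k₀`. From the words with exponents `K`, `K + 1` (`run_append`):
`Run x [] s`, `Run (y^K) s t`, `Run z t []`, and the same with `y^(K+1)`; so `Run y s s` by `Run.inj`
and `Run z s []`.
`mid_pump`: `Mid` is preserved: the first letter is `0`, letters, last letter `< 2` are clear; the
chain condition: `Nx a 0` holds for all `a`, so the pieces `α`, `0 :: β`, `0 :: γ` can be
concatenated in any number (`List.isChain_append`/`isChain_split`).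
`c_pump`: cut `m` before each letter `0`: `m = x_1 ++ ... ++ x_n` with `n > Nat.card σ` words starting
with `0`. The path splits (`Path.split_in`, in the order from the left; show first: for a list of
words `xs` and a path reading `xs.flatten` there are states `p_0, ..., p_n` and output words), two of
the states before `x_k`, `x_l`, `k < l`, are equal (pigeonhole). So
`u = X ++ Y ++ Z` with `v = vX ++ vY ++ vZ`, paths `s → p`, `p → p`, `p → f`,
`X = P1 i i ++ α`, `Y = 0 :: β`, `Z = 0 :: γ ++ P2 j j`. For all `k` the path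
`X Y^k Z` has output `vX vY^k vZ`. For `k ≥ max k₀ 1` the word is in `Fm` (`mid_pump`) and in `KK`
(`c_unavoid`), so in `LQt`, so the output is in `Dyck2`. Then `dyck_down`.
(The word `α` is empty or starts with `0`.)
-/

namespace Pool.Agent.NGP

open Pool.Agent.H93NG

private theorem run_pow {y : List (Bool × Bool)} {s : List Bool} (h : Run y s s) (k : ℕ) :
    Run (List.replicate k y).flatten s s := by
  induction k with
  | zero => simpa using Run.nil s
  | succ k ih =>
    rw [List.replicate_succ, List.flatten_cons]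
    exact run_append.2 ⟨s, h, ih⟩

theorem dyck_down {x y z : List (Bool × Bool)} {k₀ : ℕ}
    (h : ∀ k ≥ k₀, x ++ (List.replicate k y).flatten ++ z ∈ Dyck2) : x ++ y ++ z ∈ Dyck2 := by
  have h1 : Run (x ++ (List.replicate k₀ y).flatten ++ z) [] [] := h k₀ le_rfl
  have h2 : Run (x ++ (List.replicate (k₀ + 1) y).flatten ++ z) [] [] := h (k₀ + 1) (by omega)
  obtain ⟨t, h3, hz⟩ := run_append.1 h1
  obtain ⟨s, hx, hy⟩ := run_append.1 h3
  obtain ⟨t', h4, hz'⟩ := run_append.1 h2
  obtain ⟨s', hx', hy'⟩ := run_append.1 h4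
  have e1 : s' = s := Run.eq hx' hx
  have e2 : t' = t := Run.inj hz' hz
  subst e1 e2
  rw [List.replicate_succ, List.flatten_cons] at hy'
  obtain ⟨r, hr, hr'⟩ := run_append.1 hy'
  have e3 : r = s' := Run.inj hr' hy
  subst e3
  have e4 : t' = r := Run.eq hy (run_pow hr k₀)
  subst e4
  exact run_append.2 ⟨t', run_append.2 ⟨t', hx, hr⟩, hz⟩

private theorem chain_app {u v : List ℕ} (hu : List.IsChain Nx u) (hv : List.IsChain Nx (0 :: v)) :
    List.IsChain Nx (u ++ 0 :: v) := by
  rw [List.isChain_append]
  refine ⟨hu, hv, ?_⟩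
  intro a _ b hb
  simp only [List.head?_cons, Option.mem_def, Option.some.injEq] at hb
  exact Or.inl hb.symm

private theorem chain_pow {β γ : List ℕ} (hβ : List.IsChain Nx (0 :: β))
    (hγ : List.IsChain Nx (0 :: γ)) (k : ℕ) :
    ∃ δ, (List.replicate k (0 :: β)).flatten ++ 0 :: γ = 0 :: δ ∧ List.IsChain Nx (0 :: δ) := by
  induction k with
  | zero => exact ⟨γ, by simp, hγ⟩
  | succ k ih =>
    obtain ⟨δ, h1, h2⟩ := ih
    refine ⟨β ++ 0 :: δ, ?_, ?_⟩
    · rw [List.replicate_succ, List.flatten_cons, List.append_assoc, h1]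
      rfl
    · exact chain_app hβ h2

theorem mid_pump {g : ℕ} {α β γ : List ℕ} (h : Mid g (α ++ (0 :: β) ++ 0 :: γ)) {k : ℕ}
    (hk : 1 ≤ k) : Mid g (α ++ (List.replicate k (0 :: β)).flatten ++ 0 :: γ) := by
  obtain ⟨⟨m', hm'⟩, hl, hc, ⟨m'', a, hm'', ha⟩⟩ := h
  have hc1 : List.IsChain Nx (α ++ (0 :: β)) := (List.isChain_append.1 hc).1
  have hc2 : List.IsChain Nx (0 :: γ) := (List.isChain_append.1 hc).2.1
  have hc3 : List.IsChain Nx α := (List.isChain_append.1 hc1).1
  have hc4 : List.IsChain Nx (0 :: β) := (List.isChain_append.1 hc1).2.1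
  obtain ⟨δ, hδ, hδc⟩ := chain_pow hc4 hc2 k
  refine ⟨?_, ?_, ?_, ?_⟩
  · cases α with
    | nil =>
      refine ⟨δ, ?_⟩
      rw [List.nil_append]
      exact hδ
    | cons b α' =>
      simp only [List.cons_append, List.cons.injEq] at hm'
      refine ⟨α' ++ (List.replicate k (0 :: β)).flatten ++ 0 :: γ, ?_⟩
      rw [hm'.1]
      rfl
  · intro b hb
    apply hl b
    rw [List.mem_append, List.mem_append] at hb ⊢
    rcases hb with (hb | hb) | hb
    · exact Or.inl (Or.inl hb)
    · obtain ⟨l, hl', hbl⟩ := List.mem_flatten.1 hb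
      rw [List.mem_replicate] at hl'
      rw [hl'.2] at hbl
      exact Or.inl (Or.inr hbl)
    · exact Or.inr hb
  · rw [List.append_assoc, hδ]
    exact chain_app hc3 hδc
  · have h1 : ∃ r, 0 :: γ = r ++ [a] := by
      refine ⟨(0 :: γ).dropLast, ?_⟩
      have h2 : (α ++ (0 :: β) ++ 0 :: γ).getLast? = (m'' ++ [a]).getLast? := by rw [hm'']
      rw [List.getLast?_append, List.getLast?_append] at h2
      have h3 : (0 :: γ).getLast? = some ((0 :: γ).getLast (by simp)) := List.getLast?_eq_some_getLast _
      rw [h3] at h2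
      rw [Option.some_or, List.getLast?_append, List.getLast?_singleton, Option.some_or,
        Option.some.injEq] at h2
      rw [← h2]
      exact (List.dropLast_append_getLast _).symm
    obtain ⟨r, hr⟩ := h1
    refine ⟨α ++ (List.replicate k (0 :: β)).flatten ++ r, a, ?_, ha⟩
    rw [hr]
    simp

private theorem cut_zeros {K : ℕ} (w : List (Fin K)) :
    ∃ (y : List (Fin K)) (xs : List (List (Fin K))), w = y ++ xs.flatten ∧
      (∀ a ∈ y, (a : ℕ) ≠ 0) ∧
      xs.length = (w.map Fin.val).count 0 ∧
      ∀ x ∈ xs, ∃ (a : Fin K) (x' : List (Fin K)), x = a :: x' ∧ (a : ℕ) = 0 := by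
  induction w with
  | nil => exact ⟨[], [], by simp, by simp, by simp, by simp⟩
  | cons a w ih =>
    obtain ⟨y, xs, h1, h2, h3, h4⟩ := ih
    by_cases ha : (a : ℕ) = 0
    · refine ⟨[], (a :: y) :: xs, by rw [h1]; simp, by simp, ?_, ?_⟩
      · rw [List.map_cons, List.count_cons, List.length_cons, h3]
        simp [ha]
      · intro x hx
        rcases List.mem_cons.1 hx with rfl | hx
        · exact ⟨a, y, rfl, ha⟩
        · exact h4 x hx
    · refine ⟨a :: y, xs, by rw [h1]; simp, ?_, ?_, h4⟩
      · intro b hb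
        rcases List.mem_cons.1 hb with rfl | hb
        · exact ha
        · exact h2 b hb
      · rw [List.map_cons, List.count_cons, h3]
        simp [ha]

private theorem path_words {σ A B : Type} {δ : σ → Option A → Option B → σ → Prop} {f : σ}
    {r : List A} : ∀ (xs : List (List A)) (s : σ) (v : List B), Path δ s (xs.flatten ++ r) v f →
    ∃ (st : ℕ → σ) (ws : List (List B)) (v' : List B), st 0 = s ∧ ws.length = xs.length ∧
      v = ws.flatten ++ v' ∧ Path δ (st xs.length) r v' f ∧
      ∀ i, i < xs.length → Path δ (st i) (xs.getD i []) (ws.getD i []) (st (i + 1))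
  | [], s, v, h => ⟨fun _ => s, [], v, rfl, rfl, by simp, by simpa using h, by simp⟩
  | x :: xs, s, v, h => by
    rw [List.flatten_cons, List.append_assoc] at h
    obtain ⟨p, v₁, v₂, hv, h1, h2⟩ := h.split_in
    obtain ⟨st, ws, v', e0, e1, e2, e3, e4⟩ := path_words xs p v₂ h2
    refine ⟨fun i => Nat.casesOn i s st, v₁ :: ws, v', rfl, by simp [e1], ?_, e3, ?_⟩
    · rw [hv, e2, List.flatten_cons, List.append_assoc]
    · intro i hi
      cases i with
      | zero =>
        simp only [List.getD_cons_zero]
        rw [e0]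
        exact h1
      | succ i =>
        simp only [List.getD_cons_succ]
        exact e4 i (by simpa using hi)

private theorem path_seg {σ A B : Type} {δ : σ → Option A → Option B → σ → Prop}
    {xs : List (List A)} {ws : List (List B)} {st : ℕ → σ} (hl : ws.length = xs.length)
    (h : ∀ i, i < xs.length → Path δ (st i) (xs.getD i []) (ws.getD i []) (st (i + 1))) (i : ℕ) :
    ∀ n, i + n ≤ xs.length →
      Path δ (st i) ((xs.drop i).take n).flatten ((ws.drop i).take n).flatten (st (i + n))
  | 0, _ => by simpa using Path.nil (δ := δ) (st i)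
  | n + 1, hn => by
    have h1 := path_seg hl h i n (by omega)
    have h2 := h (i + n) (by omega)
    have h3 := h1.append h2
    have e1 : ((xs.drop i).take (n + 1)).flatten =
        ((xs.drop i).take n).flatten ++ xs.getD (i + n) [] := by
      rw [List.take_add_one, List.flatten_append, List.getElem?_drop,
        List.getElem?_eq_getElem (by omega), List.getD_eq_getElem _ _ (by omega)]
      simp
    have e2 : ((ws.drop i).take (n + 1)).flatten =
        ((ws.drop i).take n).flatten ++ ws.getD (i + n) [] := by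
      rw [List.take_add_one, List.flatten_append, List.getElem?_drop,
        List.getElem?_eq_getElem (by omega), List.getD_eq_getElem _ _ (by omega)]
      simp
    rw [e1, e2]
    exact h3

private theorem path_pow {σ A B : Type} {δ : σ → Option A → Option B → σ → Prop} {p : σ}
    {u : List A} {v : List B} (h : Path δ p u v p) (k : ℕ) :
    Path δ p (List.replicate k u).flatten (List.replicate k v).flatten p := by
  induction k with
  | zero => simpa using Path.nil (δ := δ) p
  | succ k ih =>
    rw [List.replicate_succ, List.replicate_succ, List.flatten_cons, List.flatten_cons]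
    exact h.append ih

private theorem starts_flatten {K : ℕ} {xs : List (List (Fin K))}
    (h : ∀ x ∈ xs, ∃ (a : Fin K) (x' : List (Fin K)), x = a :: x' ∧ (a : ℕ) = 0) (hne : xs ≠ []) :
    ∃ β, xs.flatten.map Fin.val = 0 :: β := by
  cases xs with
  | nil => exact absurd rfl hne
  | cons x xs =>
    obtain ⟨a, x', rfl, ha⟩ := h x (by simp)
    refine ⟨(x' ++ xs.flatten).map Fin.val, ?_⟩
    simp [ha]

theorem c_pump {g : ℕ} {q : ℕ → ℕ → ℕ → ℕ → Bool} (hac : Acyc g q) {σ : Type} [Finite σ]
    {δ : σ → Option (Fin (10 + 8 * (g + 1))) → Option (Bool × Bool) → σ → Prop} {s f : σ}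
    (hT : ∀ u v, u ∈ LQt g q → Path δ s u v f → v ∈ Dyck2)
    {u : List (Fin (10 + 8 * (g + 1)))} {v : List (Bool × Bool)}
    (hu : u ∈ E2 g (Nat.card σ)) (hp : Path δ s u v f) : v ∈ Dyck2 := by
  obtain ⟨i, j, m, huv, hm, hB⟩ := hu
  obtain ⟨u', uQ, e1, e2, e3⟩ := List.map_eq_append_iff.1 huv
  obtain ⟨uP, um, e4, e5, e6⟩ := List.map_eq_append_iff.1 e2
  obtain ⟨y, xs, h1, h2, h3, h4⟩ := cut_zeros um
  have hy : y = [] := by
    cases y with
    | nil => rfl
    | cons a y =>
      exfalso
      obtain ⟨⟨m', hm'⟩, _⟩ := hm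
      rw [← e6, h1] at hm'
      simp only [List.cons_append, List.map_cons, List.cons.injEq] at hm'
      exact h2 a (by simp) hm'.1
  rw [hy, List.nil_append] at h1
  rw [e6] at h3
  rw [e1, e4, List.append_assoc, h1] at hp
  obtain ⟨p₀, v₀, v₁, hv, hp0, hp1⟩ := hp.split_in
  obtain ⟨st, ws, v', s0, s1, s2, s3, s4⟩ := path_words xs p₀ v₁ hp1
  -- pigeonhole
  haveI := Fintype.ofFinite σ
  have hcard : Fintype.card σ < Fintype.card (Fin xs.length) := by
    rw [Fintype.card_fin, ← Nat.card_eq_fintype_card, h3]
    exact hB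
  obtain ⟨a, b, hab, hst⟩ := Fintype.exists_ne_map_eq_of_card_lt (fun i : Fin xs.length => st i) hcard
  obtain ⟨k, l, hkl, hl, hst⟩ : ∃ k l : ℕ, k < l ∧ l < xs.length ∧ st k = st l := by
    rcases lt_or_gt_of_ne (fun h : (a : ℕ) = b => hab (Fin.ext h)) with h | h
    · exact ⟨a, b, h, b.2, hst⟩
    · exact ⟨b, a, h, a.2, hst.symm⟩
  have q1 := path_seg s1 s4 0 k (by omega)
  have q2 := path_seg s1 s4 k (l - k) (by omega)
  have q3 := path_seg s1 s4 l (xs.length - l) (by omega)
  have r1 : k + (l - k) = l := by omega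
  have r2 : l + (xs.length - l) = xs.length := by omega
  rw [r1, ← hst] at q2
  rw [r2, ← hst] at q3
  simp only [List.drop_zero, zero_add] at q1
  have t1 : xs = xs.take k ++ (xs.drop k).take (l - k) ++ (xs.drop l).take (xs.length - l) := by
    rw [List.take_of_length_le (l := xs.drop l) (by simp)]
    conv_lhs => rw [← List.take_append_drop l xs]
    congr 1
    conv_lhs => rw [← List.take_append_drop k (xs.take l)]
    rw [List.take_take, List.drop_take, min_eq_left hkl.le]
  have t2 : ws = ws.take k ++ (ws.drop k).take (l - k) ++ (ws.drop l).take (xs.length - l) := by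
    rw [List.take_of_length_le (l := ws.drop l) (by simp [s1])]
    conv_lhs => rw [← List.take_append_drop l ws]
    congr 1
    conv_lhs => rw [← List.take_append_drop k (ws.take l)]
    rw [List.take_take, List.drop_take, min_eq_left hkl.le]
  set xa := xs.take k with hxa
  set xb := (xs.drop k).take (l - k) with hxb
  set xc := (xs.drop l).take (xs.length - l) with hxc
  set wa := ws.take k with hwa
  set wb := (ws.drop k).take (l - k) with hwb
  set wc := (ws.drop l).take (xs.length - l) with hwc
  have hxbne : xb ≠ [] := by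
    intro h
    have := congrArg List.length h
    rw [hxb, List.length_take, List.length_drop] at this
    simp at this
    omega
  have hxcne : xc ≠ [] := by
    intro h
    have := congrArg List.length h
    rw [hxc, List.length_take, List.length_drop] at this
    simp at this
    omega
  have hmemb : ∀ x ∈ xb, ∃ (a : Fin _) (x' : List (Fin _)), x = a :: x' ∧ (a : ℕ) = 0 := fun x hx =>
    h4 x (by rw [t1]; simp [hx])
  have hmemc : ∀ x ∈ xc, ∃ (a : Fin _) (x' : List (Fin _)), x = a :: x' ∧ (a : ℕ) = 0 := fun x hx =>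
    h4 x (by rw [t1]; simp [hx])
  have hmema : ∀ x ∈ xa, ∃ (a : Fin _) (x' : List (Fin _)), x = a :: x' ∧ (a : ℕ) = 0 := fun x hx =>
    h4 x (by rw [t1]; simp [hx])
  obtain ⟨β, hβ⟩ := starts_flatten hmemb hxbne
  obtain ⟨γ, hγ⟩ := starts_flatten hmemc hxcne
  set α := xa.flatten.map Fin.val with hα
  have hα0 : α = [] ∨ ∃ α', α = 0 :: α' := by
    by_cases h : xa = []
    · left; rw [hα, h]; rfl
    · right
      obtain ⟨α', h'⟩ := starts_flatten hmema h
      exact ⟨α', h'⟩
  have hm2 : m = α ++ (0 :: β) ++ 0 :: γ := by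
    rw [← e6, h1, t1, List.flatten_append, List.flatten_append, List.map_append, List.map_append,
      hβ, hγ]
  have hβ2 : ∀ a ∈ β, a < 2 ∨ (10 ≤ a ∧ a < 10 + 8 * (g + 1)) := by
    intro a ha
    apply hm.2.1 a
    rw [hm2]
    simp [ha]
  obtain ⟨k₀, hk₀⟩ := c_unavoid hac i j α β γ hα0 hβ2
  have key : ∀ n ≥ max k₀ 1, (v₀ ++ wa.flatten) ++ (List.replicate n wb.flatten).flatten ++
      (wc.flatten ++ v') ∈ Dyck2 := by
    intro n hn
    have hpath : Path δ s ((uP ++ xa.flatten) ++ (List.replicate n xb.flatten).flatten ++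
        (xc.flatten ++ uQ)) ((v₀ ++ wa.flatten) ++ (List.replicate n wb.flatten).flatten ++
      (wc.flatten ++ v')) f := by
      have w1 : Path δ s (uP ++ xa.flatten) (v₀ ++ wa.flatten) (st k) := by
        refine hp0.append ?_
        rw [← s0]
        exact q1
      exact (w1.append (path_pow q2 n)).append (q3.append s3)
    refine hT _ _ ?_ hpath
    have hmap : ((uP ++ xa.flatten) ++ (List.replicate n xb.flatten).flatten ++
        (xc.flatten ++ uQ)).map Fin.val =
        P1 i i ++ (α ++ (List.replicate n (0 :: β)).flatten ++ 0 :: γ) ++ P2 j j := by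
      have hrep : ((List.replicate n xb.flatten).flatten).map Fin.val =
          (List.replicate n (0 :: β)).flatten := by
        rw [List.map_flatten, List.map_replicate, hβ]
      simp only [List.map_append, hrep, hγ, e5, e3, ← hα]
      simp
    change LQ g q _
    rw [hmap]
    refine ⟨⟨i, i, _, j, j, rfl, ?_⟩, Or.inr ?_⟩
    · rw [hm2] at hm
      exact mid_pump hm (le_trans (le_max_right _ _) hn)
    · exact hk₀ n (le_trans (le_max_left _ _) hn)
  have hfin := dyck_down key
  have : v = (v₀ ++ wa.flatten) ++ wb.flatten ++ (wc.flatten ++ v') := by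
    rw [hv, s2]
    conv_lhs => rw [t2]
    simp
  rw [this]
  exact hfin

end Pool.Agent.NGP
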