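import Pool.Agent.H93NG.RR

/-!
# NGP, part C: finite systems of rational relations

PROOF of `RR.sys`: as `RR.star` in `H93NG/RR.lean`. Choose for every pair `p = (i, j)` the states
`σ p`, the moves, the start and the end of `T i j`. States of the new transducer:
`I ⊕ Σ p : I × I, σ p`; silent moves (reading and writing nothing) from `inl i` to
`inr ⟨(i, j), start⟩` and from `inr ⟨(i, j), end⟩` to `inl j`; the moves of `T i j` inside
`inr ⟨(i, j), _⟩`. Start `inl i`, end `inl k`. From `SysR` to a path: induction. From a path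
starting at `inl i` (end `inl k`) to `SysR`: strong induction on the length of the path, or prove
together by induction on the path: a path from `inl i` gives `SysR T i k u v`; a path from
`inr ⟨(i, j), x⟩` gives `u = u₁ ++ u₂`, `v = v₁ ++ v₂`, a path of `T i j` from `x` to its end with
`u₁`, `v₁` and `SysR T j k u₂ v₂`.
-/

namespace Pool.Agent.NGP

open Pool.Agent.H93NG

/-- Sequences of relations along a path of states. -/
inductive SysR {I X Y : Type} (T : I → I → List X → List Y → Prop) :
    I → I → List X → List Y → Prop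
  | nil (i : I) : SysR T i i [] []
  | cons {i j k : I} {u u' : List X} {v v' : List Y} :
      T i j u v → SysR T j k u' v' → SysR T i k (u ++ u') (v ++ v')

private inductive SysMv {I X Y : Type} {σ : I → I → Type}
    (δ : ∀ i j, σ i j → Option X → Option Y → σ i j → Prop) (s f : ∀ i j, σ i j) :
    I ⊕ (Σ p : I × I, σ p.1 p.2) → Option X → Option Y → I ⊕ (Σ p : I × I, σ p.1 p.2) → Prop
  | start (i j : I) : SysMv δ s f (Sum.inl i) none none (Sum.inr ⟨(i, j), s i j⟩)
  | move (i j : I) (p : σ i j) (a : Option X) (b : Option Y) (q : σ i j) :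
      δ i j p a b q → SysMv δ s f (Sum.inr ⟨(i, j), p⟩) a b (Sum.inr ⟨(i, j), q⟩)
  | stop (i j : I) : SysMv δ s f (Sum.inr ⟨(i, j), f i j⟩) none none (Sum.inl j)

private theorem sys_lift {I X Y : Type} {σ : I → I → Type}
    {δ : ∀ i j, σ i j → Option X → Option Y → σ i j → Prop} {s f : ∀ i j, σ i j} {i j : I}
    {p q : σ i j} {u : List X} {v : List Y} (h : Path (δ i j) p u v q) :
    Path (SysMv δ s f) (Sum.inr ⟨(i, j), p⟩) u v (Sum.inr ⟨(i, j), q⟩) := by
  induction h with
  | nil p => exact Path.nil _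
  | cons hd _ ih => exact Path.cons (SysMv.move i j _ _ _ _ hd) ih

private theorem sys_inv {I X Y : Type} {σ : I → I → Type}
    {δ : ∀ i j, σ i j → Option X → Option Y → σ i j → Prop} {s f : ∀ i j, σ i j}
    {T : I → I → List X → List Y → Prop}
    (hρ : ∀ i j u v, T i j u v ↔ Path (δ i j) (s i j) u v (f i j)) {k : I}
    {x y : I ⊕ (Σ p : I × I, σ p.1 p.2)} {u : List X} {v : List Y}
    (h : Path (SysMv δ s f) x u v y) :
    y = Sum.inl k →
      (∀ i, x = Sum.inl i → SysR T i k u v) ∧
      (∀ i j, ∀ p : σ i j, x = Sum.inr ⟨(i, j), p⟩ → ∃ u₁ u₂ v₁ v₂, u = u₁ ++ u₂ ∧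
        v = v₁ ++ v₂ ∧ Path (δ i j) p u₁ v₁ (f i j) ∧ SysR T j k u₂ v₂) := by
  induction h with
  | nil p =>
    rintro rfl
    refine ⟨?_, ?_⟩
    · intro i hi
      cases hi
      exact SysR.nil _
    · intro i j p hp
      cases hp
  | cons hd _ ih =>
    intro hy
    obtain ⟨ih1, ih2⟩ := ih hy
    refine ⟨?_, ?_⟩
    · rintro i rfl
      cases hd with
      | start i j =>
        obtain ⟨u₁, u₂, v₁, v₂, rfl, rfl, h1, h2⟩ := ih2 i j _ rfl
        have h3 := SysR.cons ((hρ i j _ _).mpr h1) h2
        simpa using h3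
    · rintro i j p rfl
      cases hd with
      | move i j p a b q hδ =>
        obtain ⟨u₁, u₂, v₁, v₂, rfl, rfl, h1, h2⟩ := ih2 i j _ rfl
        exact ⟨_, u₂, _, v₂, by simp, by simp, Path.cons hδ h1, h2⟩
      | stop i j =>
        refine ⟨[], _, [], _, ?_, ?_, Path.nil _, ih1 _ rfl⟩
        · simp
        · simp

theorem rr_sys {I X Y : Type} [Finite I] {T : I → I → List X → List Y → Prop}
    (h : ∀ i j, RR (T i j)) (i k : I) : RR (SysR T i k) := by
  choose σ hσ δ s f hρ using h
  have : ∀ i j, Finite (σ i j) := hσ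
  have : ∀ p : I × I, Finite (σ p.1 p.2) := fun p => hσ p.1 p.2
  refine ⟨I ⊕ (Σ p : I × I, σ p.1 p.2), inferInstance, SysMv δ s f, Sum.inl i, Sum.inl k, ?_⟩
  intro u v
  constructor
  · intro h
    induction h with
    | nil i => exact Path.nil _
    | @cons i j k u u' v v' h1 _ ih =>
      have h2 := (hρ _ _ _ _).mp h1
      have h3 : Path (SysMv δ s f) (Sum.inl i) ((none : Option X).toList ++ u)
          ((none : Option Y).toList ++ v) (Sum.inr ⟨(i, j), f i j⟩) :=
        Path.cons (SysMv.start i j) (sys_lift h2)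
      have h4 : Path (SysMv δ s f) (Sum.inr ⟨(i, j), f i j⟩) ((none : Option X).toList ++ u')
          ((none : Option Y).toList ++ v') (Sum.inl k) := Path.cons (SysMv.stop i j) ih
      have h5 := h3.append h4
      simpa using h5
  · intro hp
    exact (sys_inv hρ hp rfl).1 i rfl

end Pool.Agent.NGP
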