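import Pool.Agent.NGP.C0
import Pool.Agent.NGP.C1

/-!
# NGP, part C: the anomalies `KeL`, `KeR` are linear languages

PROOF of `dom_keL` (`dom_keR` is the mirror image). By `cR_iff`, `CR.split` (`C0.lean`),
`CR.lsum`, `CR.hsh`: for a word `w` with `Lw w`: `KeL (cells w)` iff
`w = wA ++ (x :: y) ++ (x' :: y') ++ wB` with labels `lh x ≠ none`, `lh x' ≠ none`, no labels in
`y`, `y'`, `y.length ≠ y'.length`, `wA ≠ []`, `Lw wA`, `Lw wB`, `wA.length ≤ wB.count 0`.
Here `wB ≠ []` follows (the count is positive), so `wB` starts with a label.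
Write `w = u.reverse ++ v` with `u = y.reverse ++ x :: wA.reverse`, `v = x' :: y' ++ wB`, and use
`dom_lin_of_rr`, then intersect with the regular language of the words starting with a label
(`dom_inter_regular`, `isRegular_take` in `H93NG/Reg.lean`); this gives `Lw wA`. The relation is a
product (`RR.mul`) of: `(ε, x')` for label letters `x'`; `Star` of `(n, n')`, `n`, `n'` letters without
label; then at least one `(n, ε)` or at least one `(ε, n)` (iterated; `RR.add`); `(x, ε)` for label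
letters `x`; and the relation `W` of the pairs `(u', v')`: `u' ≠ []`, `v'` starts with a label,
`u'.length ≤ v'.count 0`. `W` is the sum of
`(z, 0) · Star ((z, 0) or (ε, z'))` and `(ε, x'') · Star ((z, 0) or (ε, z')) · (z, 0) ·
Star ((z, 0) or (ε, z'))` (`z`, `z'` any letters, `x''` any label letter; if the letter `0` is not in
the alphabet, that is `K = 0`, everything is empty). Singles: `RR.single`, unions over letters:
`RR.iSup`, `RR.add`; the words of `Star` of letters are characterised by induction.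
Alternatively give one transducer (`Path`) with states for the phases.
-/

namespace Pool.Agent.NGP

open Pool.Agent.H93NG

/-! ### Elementary relations -/

section rr

variable {A B : Type}

private theorem rr_swap {ρ : List A → List B → Prop} (h : RR ρ) :
    RR (fun (v : List B) (u : List A) => ρ u v) := by
  obtain ⟨σ, hσ, δ, s, f, h⟩ := h
  refine ⟨σ, hσ, fun p b a q => δ p a b q, s, f, fun v u => (h u v).trans ?_⟩
  clear h
  constructor
  · intro hp
    induction hp with
    | nil p => exact Path.nil p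
    | cons hd _ ih => exact Path.cons (δ := fun p b a q => δ p a b q) hd ih
  · intro hp
    induction hp with
    | nil p => exact Path.nil p
    | cons hd _ ih => exact Path.cons (δ := δ) hd ih

private theorem rr_in [Finite A] (p : A → Prop) :
    RR (fun (u : List A) (v : List B) => (∃ a, p a ∧ u = [a]) ∧ v = []) := by
  refine (RR.iSup fun a : {a // p a} => RR.single (some a.1) none).congr ?_
  intro u v
  constructor
  · rintro ⟨⟨a, ha, rfl⟩, rfl⟩
    exact ⟨⟨a, ha⟩, rfl, rfl⟩
  · rintro ⟨⟨a, ha⟩, rfl, rfl⟩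
    exact ⟨⟨a, ha, rfl⟩, rfl⟩

private theorem rr_pair [Finite A] [Finite B] (p : A → Prop) (q : B → Prop) :
    RR (fun (u : List A) (v : List B) => ∃ a b, p a ∧ q b ∧ u = [a] ∧ v = [b]) := by
  refine (RR.iSup fun a : {a // p a} × {b // q b} =>
    RR.single (some a.1.1) (some a.2.1)).congr ?_
  intro u v
  constructor
  · rintro ⟨a, b, ha, hb, rfl, rfl⟩
    exact ⟨⟨⟨a, ha⟩, ⟨b, hb⟩⟩, rfl, rfl⟩
  · rintro ⟨⟨⟨a, ha⟩, ⟨b, hb⟩⟩, rfl, rfl⟩
    exact ⟨a, b, ha, hb, rfl, rfl⟩

private theorem rr_ins [Finite A] (p : A → Prop) :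
    RR (fun (u : List A) (v : List B) => (∀ z ∈ u, p z) ∧ v = []) := by
  refine (RR.star (rr_in p)).congr ?_
  intro u v
  constructor
  · rintro ⟨hu, rfl⟩
    induction u with
    | nil => exact Star.nil
    | cons a u ih =>
      have h1 := ih fun z hz => hu z (List.mem_cons_of_mem _ hz)
      exact Star.cons (u := [a]) (v := []) ⟨⟨a, hu a (by simp), rfl⟩, rfl⟩ h1
  · intro h
    induction h with
    | nil => exact ⟨by simp, rfl⟩
    | cons h1 _ ih =>
      obtain ⟨⟨a, ha, rfl⟩, rfl⟩ := h1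
      obtain ⟨h2, rfl⟩ := ih
      refine ⟨?_, rfl⟩
      intro z hz
      rcases List.mem_append.1 hz with hz | hz
      · rw [List.mem_singleton.1 hz]
        exact ha
      · exact h2 z hz

private theorem rr_out [Finite B] (p : B → Prop) :
    RR (fun (u : List A) (v : List B) => (∃ b, p b ∧ v = [b]) ∧ u = []) :=
  rr_swap (rr_in p)

private theorem rr_outs [Finite B] (p : B → Prop) :
    RR (fun (u : List A) (v : List B) => (∀ z ∈ v, p z) ∧ u = []) :=
  rr_swap (rr_ins p)

private theorem rr_eqlen [Finite A] [Finite B] (p : A → Prop) (q : B → Prop) :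
    RR (fun (u : List A) (v : List B) =>
      (∀ z ∈ u, p z) ∧ (∀ z ∈ v, q z) ∧ u.length = v.length) := by
  refine (RR.star (rr_pair p q)).congr ?_
  intro u v
  constructor
  · rintro ⟨hu, hv, hl⟩
    induction u generalizing v with
    | nil =>
      have : v = [] := List.eq_nil_of_length_eq_zero hl.symm
      subst this
      exact Star.nil
    | cons a u ih =>
      cases v with
      | nil => simp at hl
      | cons b v =>
        have h1 := ih v (fun z hz => hu z (List.mem_cons_of_mem _ hz))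
          (fun z hz => hv z (List.mem_cons_of_mem _ hz)) (by simpa using hl)
        exact Star.cons (u := [a]) (v := [b]) ⟨a, b, hu a (by simp), hv b (by simp), rfl, rfl⟩ h1
  · intro h
    induction h with
    | nil => exact ⟨by simp, by simp, rfl⟩
    | cons h1 _ ih =>
      obtain ⟨a, b, ha, hb, rfl, rfl⟩ := h1
      obtain ⟨h2, h3, h4⟩ := ih
      refine ⟨?_, ?_, by simp [h4]⟩
      · intro z hz
        rcases List.mem_append.1 hz with hz | hz
        · rw [List.mem_singleton.1 hz]
          exact ha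
        · exact h2 z hz
      · intro z hz
        rcases List.mem_append.1 hz with hz | hz
        · rw [List.mem_singleton.1 hz]
          exact hb
        · exact h3 z hz

private theorem rr_nelen [Finite A] [Finite B] (p : A → Prop) (q : B → Prop) :
    RR (fun (u : List A) (v : List B) =>
      (∀ z ∈ u, p z) ∧ (∀ z ∈ v, q z) ∧ u.length ≠ v.length) := by
  refine (RR.mul (rr_eqlen p q) (RR.add (RR.mul (rr_in p) (rr_ins p))
    (RR.mul (rr_out q) (rr_outs q)))).congr ?_
  intro u v
  constructor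
  · rintro ⟨hu, hv, hl⟩
    rcases Nat.lt_or_gt_of_ne hl with hl | hl
    · refine ⟨u, [], v.take u.length, v.drop u.length, by simp, by simp, ⟨hu,
        fun z hz => hv z (List.mem_of_mem_take hz), by simp; omega⟩, Or.inr ?_⟩
      have h1 : v.drop u.length ≠ [] := by
        intro h0
        have := congrArg List.length h0
        simp at this
        omega
      obtain ⟨b, v', hb⟩ := List.exists_cons_of_ne_nil h1
      refine ⟨[], [], [b], v', rfl, by rw [hb]; rfl, ⟨⟨b, ?_, rfl⟩, rfl⟩, ?_, rfl⟩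
      · exact hv b (List.mem_of_mem_drop (by rw [hb]; simp))
      · intro z hz
        exact hv z (List.mem_of_mem_drop (by rw [hb]; simp [hz]))
    · refine ⟨u.take v.length, u.drop v.length, v, [], by simp, by simp,
        ⟨fun z hz => hu z (List.mem_of_mem_take hz), hv, by simp; omega⟩, Or.inl ?_⟩
      have h1 : u.drop v.length ≠ [] := by
        intro h0
        have := congrArg List.length h0
        simp at this
        omega
      obtain ⟨b, v', hb⟩ := List.exists_cons_of_ne_nil h1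
      refine ⟨[b], v', [], [], by rw [hb]; rfl, rfl, ⟨⟨b, ?_, rfl⟩, rfl⟩, ?_, rfl⟩
      · exact hu b (List.mem_of_mem_drop (by rw [hb]; simp))
      · intro z hz
        exact hu z (List.mem_of_mem_drop (by rw [hb]; simp [hz]))
  · rintro ⟨u₁, u₂, v₁, v₂, rfl, rfl, ⟨h1, h2, h3⟩, h | h⟩
    · obtain ⟨u₃, u₄, v₃, v₄, rfl, rfl, ⟨⟨a, ha, rfl⟩, rfl⟩, h5, rfl⟩ := h
      refine ⟨?_, ?_, ?_⟩
      · intro z hz
        simp only [List.mem_append, List.mem_singleton] at hz
        rcases hz with hz | hz | hz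
        · exact h1 z hz
        · rw [hz]; exact ha
        · exact h5 z hz
      · intro z hz
        exact h2 z (by simpa using hz)
      · simp
        omega
    · obtain ⟨u₃, u₄, v₃, v₄, rfl, rfl, ⟨⟨a, ha, rfl⟩, rfl⟩, h5, rfl⟩ := h
      refine ⟨?_, ?_, ?_⟩
      · intro z hz
        exact h1 z (by simpa using hz)
      · intro z hz
        simp only [List.mem_append, List.mem_singleton] at hz
        rcases hz with hz | hz | hz
        · exact h2 z hz
        · rw [hz]; exact ha
        · exact h5 z hz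
      · simp
        omega

private theorem rr_count [Finite A] [Finite B] (q : B → Bool) :
    RR (fun (u : List A) (v : List B) => u.length ≤ v.countP q) := by
  refine (RR.star (RR.add (rr_pair (fun _ => True) (fun b => q b = true))
    (rr_out (fun _ => True)))).congr ?_
  intro u v
  constructor
  · intro h
    induction v generalizing u with
    | nil =>
      have : u = [] := List.eq_nil_of_length_eq_zero (by simpa using h)
      subst this
      exact Star.nil
    | cons b v ih =>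
      by_cases hb : q b = true
      · cases u with
        | nil =>
          exact Star.cons (u := []) (v := [b]) (Or.inr ⟨⟨b, trivial, rfl⟩, rfl⟩)
            (ih [] (by simp))
        | cons a u =>
          rw [List.countP_cons_of_pos hb] at h
          exact Star.cons (u := [a]) (v := [b]) (Or.inl ⟨a, b, trivial, hb, rfl, rfl⟩)
            (ih u (by simpa using h))
      · rw [List.countP_cons_of_neg hb] at h
        exact Star.cons (u := []) (v := [b]) (Or.inr ⟨⟨b, trivial, rfl⟩, rfl⟩) (ih u h)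
  · intro h
    induction h with
    | nil => simp
    | cons h1 _ ih =>
      rcases h1 with ⟨a, b, _, hb, rfl, rfl⟩ | ⟨⟨b, _, rfl⟩, rfl⟩
      · simp only [List.singleton_append, List.length_cons]
        rw [List.countP_cons_of_pos hb]
        omega
      · simp only [List.singleton_append, List.nil_append]
        exact ih.trans (by rw [List.countP_cons]; omega)

private theorem exists_first {q : B → Bool} : ∀ {v : List B}, 0 < v.countP q →
    ∃ s c t, v = s ++ c :: t ∧ q c = true ∧ v.countP q = t.countP q + 1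
  | [], h => by simp at h
  | b :: v, h => by
    by_cases hb : q b = true
    · exact ⟨[], b, v, rfl, hb, List.countP_cons_of_pos hb⟩
    · rw [List.countP_cons_of_neg hb] at h
      obtain ⟨s, c, t, rfl, hc, h2⟩ := exists_first h
      exact ⟨b :: s, c, t, rfl, hc, by rw [List.countP_cons_of_neg hb, h2]⟩

private theorem rr_countpos [Finite A] [Finite B] (q : B → Bool) :
    RR (fun (u : List A) (v : List B) => u ≠ [] ∧ u.length ≤ v.countP q) := by
  refine (RR.mul (rr_outs fun _ => True)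
    (RR.mul (rr_pair (fun _ => True) fun b => q b = true) (rr_count q))).congr ?_
  intro u v
  constructor
  · rintro ⟨hu, hl⟩
    obtain ⟨a, u', rfl⟩ := List.exists_cons_of_ne_nil hu
    simp only [List.length_cons] at hl
    obtain ⟨s, c, t, rfl, hc, h2⟩ := exists_first (q := q) (v := v) (by omega)
    exact ⟨[], a :: u', s, c :: t, rfl, rfl, ⟨fun _ _ => trivial, rfl⟩, [a], u', [c], t, rfl, rfl,
      ⟨a, c, trivial, hc, rfl, rfl⟩, by omega⟩
  · rintro ⟨u₁, u₂, v₁, v₂, rfl, rfl, ⟨_, rfl⟩, u₃, u₄, v₃, v₄, rfl, rfl,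
      ⟨a, b, _, hb, rfl, rfl⟩, h⟩
    refine ⟨by simp, ?_⟩
    simp only [List.nil_append, List.singleton_append, List.length_cons, List.countP_append]
    rw [List.countP_cons_of_pos hb]
    omega

/-- Left condition. -/
private def QL (lb : B → Prop) (q : B → Bool) (u : List A) (v : List B) : Prop :=
  u ≠ [] ∧ (∃ a v', v = a :: v' ∧ lb a) ∧ u.length ≤ v.countP q

private theorem rr_QL [Finite A] [Finite B] (lb : B → Prop) (q : B → Bool)
    (hq : ∀ b, q b = true → lb b) : RR (QL (A := A) lb q) := by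
  refine (RR.add (RR.mul (rr_pair (fun _ => True) fun b => q b = true) (rr_count q))
    (RR.mul (rr_out lb) (rr_countpos q))).congr ?_
  intro u v
  constructor
  · rintro ⟨hu, ⟨b, v', rfl, hb⟩, hl⟩
    by_cases hb' : q b = true
    · left
      obtain ⟨a, u', rfl⟩ := List.exists_cons_of_ne_nil hu
      rw [List.countP_cons_of_pos hb'] at hl
      exact ⟨[a], u', [b], v', rfl, rfl, ⟨a, b, trivial, hb', rfl, rfl⟩, by simpa using hl⟩
    · right
      rw [List.countP_cons_of_neg hb'] at hl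
      exact ⟨[], u, [b], v', rfl, rfl, ⟨⟨b, hb, rfl⟩, rfl⟩, hu, hl⟩
  · rintro (⟨u₁, u₂, v₁, v₂, rfl, rfl, ⟨a, b, _, hb, rfl, rfl⟩, h⟩ |
      ⟨u₁, u₂, v₁, v₂, rfl, rfl, ⟨⟨b, hb, rfl⟩, rfl⟩, hu, h⟩)
    · refine ⟨by simp, ⟨b, v₂, rfl, hq b hb⟩, ?_⟩
      simp only [List.singleton_append, List.length_cons]
      rw [List.countP_cons_of_pos hb]
      omega
    · refine ⟨by simpa using hu, ⟨b, v₂, rfl, hb⟩, ?_⟩
      simp only [List.singleton_append, List.nil_append]
      exact h.trans (by rw [List.countP_cons]; omega)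

/-- Right condition. -/
private def QR (lb : B → Prop) (q : A → Bool) (u : List A) (v : List B) : Prop :=
  (∃ a v', v = a :: v' ∧ lb a) ∧ v.length ≤ u.countP q

private theorem rr_QR [Finite A] [Finite B] (lb : B → Prop) (q : A → Bool) :
    RR (QR lb q) := by
  refine (RR.mul (rr_ins fun _ => True)
    (RR.mul (rr_pair (fun b => q b = true) lb) (rr_swap (rr_count q)))).congr ?_
  intro u v
  constructor
  · rintro ⟨⟨b, v', rfl, hb⟩, hl⟩
    simp only [List.length_cons] at hl
    obtain ⟨s, c, t, rfl, hc, h2⟩ := exists_first (q := q) (v := u) (by omega)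
    exact ⟨s, c :: t, [], b :: v', rfl, rfl, ⟨fun _ _ => trivial, rfl⟩, [c], t, [b], v', rfl, rfl,
      ⟨c, b, hc, hb, rfl, rfl⟩, by omega⟩
  · rintro ⟨u₁, u₂, v₁, v₂, rfl, rfl, ⟨_, rfl⟩, u₃, u₄, v₃, v₄, rfl, rfl,
      ⟨a, b, ha, hb, rfl, rfl⟩, h⟩
    refine ⟨⟨b, v₄, rfl, hb⟩, ?_⟩
    simp only [List.nil_append, List.singleton_append, List.length_cons, List.countP_append]
    rw [List.countP_cons_of_pos ha]
    omega

/-- The central part with two unequal contents, outwards the relation `Q`. -/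
private def RC (lb : A → Prop) (Q : List A → List A → Prop) (u v : List A) : Prop :=
  ∃ x' s t x u' v', u = s ++ x :: u' ∧ v = x' :: (t ++ v') ∧ lb x ∧ lb x' ∧
    (∀ z ∈ s, ¬ lb z) ∧ (∀ z ∈ t, ¬ lb z) ∧ s.length ≠ t.length ∧ Q u' v'

private theorem rr_RC [Finite A] (lb : A → Prop) {Q : List A → List A → Prop} (hQ : RR Q) :
    RR (RC lb Q) := by
  refine (RR.mul (rr_out lb) (RR.mul (rr_nelen (fun z => ¬ lb z) (fun z => ¬ lb z))
    (RR.mul (rr_in lb) hQ))).congr ?_
  intro u v
  constructor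
  · rintro ⟨x', s, t, x, u', v', rfl, rfl, hx, hx', hs, ht, hl, h⟩
    exact ⟨[], s ++ x :: u', [x'], t ++ v', rfl, rfl, ⟨⟨x', hx', rfl⟩, rfl⟩, s, x :: u', t, v',
      rfl, rfl, ⟨hs, ht, hl⟩, [x], u', [], v', rfl, rfl, ⟨⟨x, hx, rfl⟩, rfl⟩, h⟩
  · rintro ⟨u₁, u₂, v₁, v₂, rfl, rfl, ⟨⟨x', hx', rfl⟩, rfl⟩, s, u₃, t, v₃, rfl, rfl,
      ⟨hs, ht, hl⟩, u₄, u', v₄, v', rfl, rfl, ⟨⟨x, hx, rfl⟩, rfl⟩, h⟩
    exact ⟨x', s, t, x, u', v', rfl, rfl, hx, hx', hs, ht, hl, h⟩

end rr

/-! ### Words -/

private theorem keL_word {w : List ℕ} (hw : Lw w) (h : KeL (cells w)) :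
    ∃ wA x y x' y' wB, w = wA ++ x :: (y ++ x' :: (y' ++ wB)) ∧ lh x ≠ none ∧ lh x' ≠ none ∧
      (∀ z ∈ y, lh z = none) ∧ (∀ z ∈ y', lh z = none) ∧ y.length ≠ y'.length ∧ wA ≠ [] ∧
      (∃ a v, wB = a :: v ∧ lh a ≠ none) ∧ wA.length ≤ wB.count 0 := by
  obtain ⟨A, c, c', B, hC, hA, hne, hle⟩ := h
  have h1 : CR (A ++ c :: c' :: B) w := cR_iff.2 ⟨hw, hC⟩
  obtain ⟨wA, v1, rfl, hA1, h2⟩ := h1.split
  cases h2 with
  | @cons b x y _ v2 hx hy h3 =>
    cases h3 with
    | @cons b' x' y' _ wB hx' hy' h4 =>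
      rw [hA1.lsum, h4.hsh] at hle
      have hA' : wA ≠ [] := by
        rintro rfl
        cases hA1
        exact hA rfl
      have hB' : wB ≠ [] := by
        rintro rfl
        apply hA'
        exact List.eq_nil_of_length_eq_zero (by simpa using hle)
      exact ⟨wA, x, y, x', y', wB, by simp, by rw [hx]; simp, by rw [hx']; simp, hy, hy', hne, hA',
        h4.lw.resolve_left hB', hle⟩

private theorem word_keL {wA y y' wB : List ℕ} {x x' : ℕ} (hA : Lw wA) (hx : lh x ≠ none)
    (hx' : lh x' ≠ none) (hy : ∀ z ∈ y, lh z = none) (hy' : ∀ z ∈ y', lh z = none)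
    (hne : y.length ≠ y'.length) (hA0 : wA ≠ []) (hB : Lw wB) (hle : wA.length ≤ wB.count 0) :
    KeL (cells (wA ++ x :: (y ++ x' :: (y' ++ wB)))) := by
  obtain ⟨b, hb⟩ := Option.ne_none_iff_exists'.1 hx
  obtain ⟨b', hb'⟩ := Option.ne_none_iff_exists'.1 hx'
  have h1 : CR (cells wA) wA := CR.of_lw hA
  have h2 : CR (cells wB) wB := CR.of_lw hB
  have h5 := h1.append (CR.cons hb hy (CR.cons hb' hy' h2))
  have e : wA ++ x :: (y ++ x' :: (y' ++ wB)) = wA ++ (x :: y ++ (x' :: y' ++ wB)) := by simp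
  rw [e, h5.cells]
  refine ⟨cells wA, (b, y.length), (b', y'.length), cells wB, rfl, ?_, hne, ?_⟩
  · intro h0
    rw [h0] at h1
    cases h1
    exact hA0 rfl
  · rw [h1.lsum, h2.hsh]
    exact hle

private theorem keR_word {w : List ℕ} (hw : Lw w) (h : KeR (cells w)) :
    ∃ wA x y x' y' wB, w = wA ++ x :: (y ++ x' :: (y' ++ wB)) ∧ lh x ≠ none ∧ lh x' ≠ none ∧
      (∀ z ∈ y, lh z = none) ∧ (∀ z ∈ y', lh z = none) ∧ y.length ≠ y'.length ∧
      (∃ a v, wB = a :: v ∧ lh a ≠ none) ∧ wB.length ≤ wA.count 0 := by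
  obtain ⟨A, c, c', B, hC, hB, hne, hle⟩ := h
  have h1 : CR (A ++ c :: c' :: B) w := cR_iff.2 ⟨hw, hC⟩
  obtain ⟨wA, v1, rfl, hA1, h2⟩ := h1.split
  cases h2 with
  | @cons b x y _ v2 hx hy h3 =>
    cases h3 with
    | @cons b' x' y' _ wB hx' hy' h4 =>
      rw [hA1.hsh, h4.lsum] at hle
      have hB' : wB ≠ [] := by
        rintro rfl
        cases h4
        exact hB rfl
      exact ⟨wA, x, y, x', y', wB, by simp, by rw [hx]; simp, by rw [hx']; simp, hy, hy', hne,
        h4.lw.resolve_left hB', hle⟩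

private theorem word_keR {wA y y' wB : List ℕ} {x x' : ℕ} (hA : Lw wA) (hx : lh x ≠ none)
    (hx' : lh x' ≠ none) (hy : ∀ z ∈ y, lh z = none) (hy' : ∀ z ∈ y', lh z = none)
    (hne : y.length ≠ y'.length) (hB0 : wB ≠ []) (hB : Lw wB) (hle : wB.length ≤ wA.count 0) :
    KeR (cells (wA ++ x :: (y ++ x' :: (y' ++ wB)))) := by
  obtain ⟨b, hb⟩ := Option.ne_none_iff_exists'.1 hx
  obtain ⟨b', hb'⟩ := Option.ne_none_iff_exists'.1 hx'
  have h1 : CR (cells wA) wA := CR.of_lw hA
  have h2 : CR (cells wB) wB := CR.of_lw hB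
  have h5 := h1.append (CR.cons hb hy (CR.cons hb' hy' h2))
  have e : wA ++ x :: (y ++ x' :: (y' ++ wB)) = wA ++ (x :: y ++ (x' :: y' ++ wB)) := by simp
  rw [e, h5.cells]
  refine ⟨cells wA, (b, y.length), (b', y'.length), cells wB, rfl, ?_, hne, ?_⟩
  · intro h0
    rw [h0] at h2
    cases h2
    exact hB0 rfl
  · rw [h1.hsh, h2.lsum]
    exact hle

private theorem lw_prefix {u v : List ℕ} (h : Lw (u ++ v)) : Lw u := by
  cases u with
  | nil => exact Or.inl rfl
  | cons a u =>
    rcases h with h | ⟨b, w, h1, h2⟩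
    · simp at h
    · simp only [List.cons_append, List.cons.injEq] at h1
      exact Or.inr ⟨a, u, rfl, by rw [h1.1]; exact h2⟩

private theorem map_decomp {K : ℕ} {v : List (Fin K)} {wA y y' wB : List ℕ} {x x' : ℕ}
    (h : v.map Fin.val = wA ++ x :: (y ++ x' :: (y' ++ wB))) :
    ∃ (A Y Y' B : List (Fin K)) (X X' : Fin K), v = A ++ X :: (Y ++ X' :: (Y' ++ B)) ∧
      A.map Fin.val = wA ∧ X.val = x ∧ Y.map Fin.val = y ∧ X'.val = x' ∧
      Y'.map Fin.val = y' ∧ B.map Fin.val = wB := by
  obtain ⟨A, v1, rfl, hA, h⟩ := List.map_eq_append_iff.1 h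
  obtain ⟨X, v2, rfl, hX, h⟩ := List.map_eq_cons_iff.1 h
  obtain ⟨Y, v3, rfl, hY, h⟩ := List.map_eq_append_iff.1 h
  obtain ⟨X', v4, rfl, hX', h⟩ := List.map_eq_cons_iff.1 h
  obtain ⟨Y', B, rfl, hY', h⟩ := List.map_eq_append_iff.1 h
  exact ⟨A, Y, Y', B, X, X', rfl, hA, hX, hY, hX', hY', h⟩

private theorem isRegular_lw (K : ℕ) :
    Language.IsRegular ({v | Lw (v.map Fin.val)} : Language (Fin K)) := by
  have h := isRegular_take (Z := Fin K) 1 {z | Lw (z.map Fin.val)}
  have e : ({v | Lw (v.map Fin.val)} : Language (Fin K)) =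
      {z | z.take 1 ∈ {z : List (Fin K) | Lw (z.map Fin.val)}} := by
    ext v
    show Lw (v.map Fin.val) ↔ Lw ((v.take 1).map Fin.val)
    cases v with
    | nil => simp
    | cons a v => simp [Lw]
  rw [e]
  exact h

private theorem dom_gen {K : ℕ} {Q : List (Fin K) → List (Fin K) → Prop} (hQ : RR Q)
    {M : Language (Fin K)}
    (hM : ∀ v : List (Fin K), v ∈ M ↔ (∃ u v', RC (fun a : Fin K => lh a.val ≠ none) Q u v' ∧
      v = u.reverse ++ v') ∧ Lw (v.map Fin.val)) : Dom Lin2 M := by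
  have h := dom_inter_regular (dom_lin_of_rr (rr_RC (fun a : Fin K => lh a.val ≠ none) hQ))
    (isRegular_lw K)
  have e : M = ({v | v ∈ ({w | ∃ u v, RC (fun a : Fin K => lh a.val ≠ none) Q u v ∧
      w = u.reverse ++ v} : Language (Fin K)) ∧
      v ∈ ({v | Lw (v.map Fin.val)} : Language (Fin K))} : Language (Fin K)) := by
    ext v
    exact hM v
  rw [e]
  exact h

private theorem countP_val {K : ℕ} (v : List (Fin K)) :
    v.countP (fun a => decide (a.val = 0)) = (v.map Fin.val).count 0 := by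
  rw [List.count, List.countP_map]
  congr 1

theorem dom_keL (K : ℕ) :
    Dom Lin2 ({v | Lw (v.map Fin.val) ∧ KeL (cells (v.map Fin.val))} : Language (Fin K)) := by
  refine dom_gen (rr_QL (fun a : Fin K => lh a.val ≠ none) (fun a => decide (a.val = 0)) ?_) ?_
  · intro b hb
    have : b.val = 0 := by simpa using hb
    rw [this]
    simp [lh]
  intro v
  constructor
  · rintro ⟨hw, hk⟩
    refine ⟨?_, hw⟩
    obtain ⟨wA, x, y, x', y', wB, h1, hx, hx', hy, hy', hne, hA, hB, hle⟩ := keL_word hw hk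
    obtain ⟨A, Y, Y', B, X, X', rfl, rfl, rfl, rfl, rfl, rfl, rfl⟩ := map_decomp h1
    refine ⟨Y.reverse ++ X :: A.reverse, X' :: (Y' ++ B),
      ⟨X', Y.reverse, Y', X, A.reverse, B, rfl, rfl, hx, hx', ?_, ?_, ?_, ?_, ?_, ?_⟩, by simp⟩
    · intro z hz
      rw [not_not]
      exact hy _ (List.mem_map_of_mem (List.mem_reverse.1 hz))
    · intro z hz
      rw [not_not]
      exact hy' _ (List.mem_map_of_mem hz)
    · simpa using hne
    · simpa using hA
    · obtain ⟨a, v, h2, ha⟩ := hB
      obtain ⟨a', v', rfl, rfl, rfl⟩ := List.map_eq_cons_iff.1 h2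
      exact ⟨a', v', rfl, ha⟩
    · rw [countP_val]
      simpa using hle
  · rintro ⟨⟨u, v', ⟨x', s, t, x, u', v'', rfl, rfl, hx, hx', hs, ht, hl, hu, ⟨a, v3, rfl, ha⟩, hc⟩,
      rfl⟩, hw⟩
    refine ⟨hw, ?_⟩
    rw [countP_val] at hc
    have e : (((s ++ x :: u').reverse ++ x' :: (t ++ a :: v3)).map Fin.val) =
        (u'.reverse.map Fin.val) ++ x.val :: (s.reverse.map Fin.val ++ x'.val ::
          (t.map Fin.val ++ (a :: v3).map Fin.val)) := by simp
    rw [e] at hw ⊢
    refine word_keL (lw_prefix hw) hx hx' ?_ ?_ ?_ ?_ (Or.inr ⟨a.val, v3.map Fin.val, rfl, ha⟩) ?_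
    · intro z hz
      obtain ⟨z', hz', rfl⟩ := List.mem_map.1 hz
      exact not_not.1 (hs z' (List.mem_reverse.1 hz'))
    · intro z hz
      obtain ⟨z', hz', rfl⟩ := List.mem_map.1 hz
      exact not_not.1 (ht z' hz')
    · simpa using hl
    · simpa using hu
    · simpa using hc

theorem dom_keR (K : ℕ) :
    Dom Lin2 ({v | Lw (v.map Fin.val) ∧ KeR (cells (v.map Fin.val))} : Language (Fin K)) := by
  refine dom_gen (rr_QR (fun a : Fin K => lh a.val ≠ none) (fun a => decide (a.val = 0))) ?_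
  intro v
  constructor
  · rintro ⟨hw, hk⟩
    refine ⟨?_, hw⟩
    obtain ⟨wA, x, y, x', y', wB, h1, hx, hx', hy, hy', hne, hB, hle⟩ := keR_word hw hk
    obtain ⟨A, Y, Y', B, X, X', rfl, rfl, rfl, rfl, rfl, rfl, rfl⟩ := map_decomp h1
    refine ⟨Y.reverse ++ X :: A.reverse, X' :: (Y' ++ B),
      ⟨X', Y.reverse, Y', X, A.reverse, B, rfl, rfl, hx, hx', ?_, ?_, ?_, ?_, ?_⟩, by simp⟩
    · intro z hz
      rw [not_not]
      exact hy _ (List.mem_map_of_mem (List.mem_reverse.1 hz))
    · intro z hz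
      rw [not_not]
      exact hy' _ (List.mem_map_of_mem hz)
    · simpa using hne
    · obtain ⟨a, v, h2, ha⟩ := hB
      obtain ⟨a', v', rfl, rfl, rfl⟩ := List.map_eq_cons_iff.1 h2
      exact ⟨a', v', rfl, ha⟩
    · rw [countP_val, List.map_reverse, List.count_reverse]
      simpa using hle
  · rintro ⟨⟨u, v', ⟨x', s, t, x, u', v'', rfl, rfl, hx, hx', hs, ht, hl, ⟨a, v3, rfl, ha⟩, hc⟩,
      rfl⟩, hw⟩
    refine ⟨hw, ?_⟩
    rw [countP_val] at hc
    have e : (((s ++ x :: u').reverse ++ x' :: (t ++ a :: v3)).map Fin.val) =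
        (u'.reverse.map Fin.val) ++ x.val :: (s.reverse.map Fin.val ++ x'.val ::
          (t.map Fin.val ++ (a :: v3).map Fin.val)) := by simp
    rw [e] at hw ⊢
    refine word_keR (lw_prefix hw) hx hx' ?_ ?_ ?_ (by simp)
      (Or.inr ⟨a.val, v3.map Fin.val, rfl, ha⟩) ?_
    · intro z hz
      obtain ⟨z', hz', rfl⟩ := List.mem_map.1 hz
      exact not_not.1 (hs z' (List.mem_reverse.1 hz'))
    · intro z hz
      obtain ⟨z', hz', rfl⟩ := List.mem_map.1 hz
      exact not_not.1 (ht z' hz')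
    · simpa using hl
    · rw [List.map_reverse, List.count_reverse]
      simpa using hc

end Pool.Agent.NGP
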