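import Pool.Agent.NGP.C0
import Pool.Agent.NGP.C1
import Pool.Agent.NGP.C2

/-!
# NGP, part C: the matched violations `Kp` are a linear language

PROOF. Labels of letters of `Fin K` are `≤ K`; let `Lb = Fin (K + 1)`.
Relations between `u v : List (Fin K)` (through `List.map Fin.val`):
`PairR b d`: `u = y ++ [x]`, `v = x' :: y'`, `lh x = some b`, `lh x' = some d`, no labels in `y`, `y'`,
`y.length = y'.length`: product of `(ε, x')`, `Star (n, n')`, `(x, ε)`: rational. `SkL`:
`u = y ++ [x]`, `lh x = some 0`, no labels in `y`, `v = []`; `SkR` mirror: rational.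
System (`SysR`, `rr_sys`) with states `(Lb × Lb) ⊕ (Option Lb × Option Lb)`:
* `inl (a, c) → inl (b, d)`: `PairR b d` if `q a b c d = true`, `2 ≤ b`, `2 ≤ d` (else empty);
* `inl (a, c) → inr (some b, some d)`: `u = [] ∧ v = []` if `q a b c d = false`, `b ≠ 1`, `d ≠ 1`;
* `inr (eL, eR) → inr (eL', eR')`: union of `SkL` if `eL ∈ {none, some 0}`, `eL' = none`, `eR' = eR`;
  `SkR` if `eR ∈ {none, some 0}`, `eR' = none`, `eL' = eL`; and, if `eL' = eR' = none`, all `PairR b d`
  with `eL ∈ {none, some b}`, `eR ∈ {none, some d}`.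
Claims (induction on `SysR`, resp. on `Mt`, `Zp`):
(A) `SysR T (inr (eL, eR)) (inr (none, none)) u v` iff there are `l r` with `Mt l r`, `CL l u`, `CR r v`,
the first cell of `l` has label `e` if `eL = some e`, same for `r` and `eR` (in particular `l ≠ []`);
(B) `SysR T (inl (a, c)) (inr (none, none)) u v` iff there are `l r` with `Zp q a c l r`, `CL l u`,
`CR r v`.
`Kp`: a word `w` with `Lw w` has `Kp q (cells w)` iff `w = wp ++ 0 :: y ++ ws` with no label in `y`,
`CR p wp`, `CR s ws`, `Zp q 0 0 p.reverse s` (`cR_iff`, `CR.split`, `lh_zero_iff`), that is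
`w = u.reverse ++ v`, `u = wp.reverse`, `v = 0 :: y ++ ws`, `CL p.reverse u` (`cL_iff`), (B).
`Lw w` holds automatically for such a word. Use `dom_lin_of_rr`.
-/

namespace Pool.Agent.NGP

open Pool.Agent.H93NG

private def NLx {K : ℕ} (y : List (Fin K)) : Prop := ∀ z ∈ y, lh z.val = none

private theorem nlx_nil {K : ℕ} : NLx ([] : List (Fin K)) := by
  intro z hz
  simp at hz

private theorem nlx_cons {K : ℕ} {z : Fin K} {y : List (Fin K)} :
    NLx (z :: y) ↔ lh z.val = none ∧ NLx y := by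
  unfold NLx
  simp

private theorem rr_and {A B : Type} {ρ : List A → List B → Prop} (p : Prop) (h : RR ρ) :
    RR (fun u v => p ∧ ρ u v) := by
  by_cases hp : p
  · exact h.congr fun u v => ⟨fun h => h.2, fun h => ⟨hp, h⟩⟩
  · exact RR.zero.congr fun u v => ⟨fun h => hp h.1, fun h => h.elim⟩

private theorem rr_nl_pair (K : ℕ) :
    RR (fun u v : List (Fin K) => NLx u ∧ NLx v ∧ u.length = v.length) := by
  have h := (RR.iSup (fun i : {z : Fin K // lh z.val = none} × {z : Fin K // lh z.val = none} =>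
    RR.single (some i.1.1) (some i.2.1))).star
  refine h.congr ?_
  intro u v
  constructor
  · rintro ⟨hu, hv, hl⟩
    induction u generalizing v with
    | nil =>
      have : v = [] := List.length_eq_zero_iff.1 hl.symm
      rw [this]
      exact Star.nil
    | cons x u ih =>
      cases v with
      | nil => simp at hl
      | cons y v =>
        rw [nlx_cons] at hu hv
        exact Star.cons (u := [x]) (v := [y]) ⟨⟨⟨x, hu.1⟩, ⟨y, hv.1⟩⟩, rfl, rfl⟩
          (ih v hu.2 hv.2 (by simpa using hl))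
  · intro hs
    induction hs with
    | nil => exact ⟨nlx_nil, nlx_nil, rfl⟩
    | cons h1 _ ih =>
      obtain ⟨i, rfl, rfl⟩ := h1
      obtain ⟨h2, h3, h4⟩ := ih
      refine ⟨?_, ?_, by simp [h4]⟩
      · exact nlx_cons.2 ⟨i.1.2, h2⟩
      · exact nlx_cons.2 ⟨i.2.2, h3⟩

private theorem rr_nl_left (K : ℕ) :
    RR (fun u v : List (Fin K) => NLx u ∧ v = []) := by
  have h := (RR.iSup (fun i : {z : Fin K // lh z.val = none} =>
    RR.single (A := Fin K) (B := Fin K) (some i.1) none)).star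
  refine h.congr ?_
  intro u v
  constructor
  · rintro ⟨hu, rfl⟩
    induction u with
    | nil => exact Star.nil
    | cons x u ih =>
      rw [nlx_cons] at hu
      exact Star.cons (u := [x]) (v := []) ⟨⟨x, hu.1⟩, rfl, rfl⟩ (ih hu.2)
  · intro hs
    induction hs with
    | nil => exact ⟨nlx_nil, rfl⟩
    | cons h1 _ ih =>
      obtain ⟨i, rfl, rfl⟩ := h1
      obtain ⟨h2, h3⟩ := ih
      exact ⟨nlx_cons.2 ⟨i.2, h2⟩, by simp [h3]⟩

private theorem rr_nl_right (K : ℕ) :
    RR (fun u v : List (Fin K) => u = [] ∧ NLx v) := by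
  have h := (RR.iSup (fun i : {z : Fin K // lh z.val = none} =>
    RR.single (A := Fin K) (B := Fin K) none (some i.1))).star
  refine h.congr ?_
  intro u v
  constructor
  · rintro ⟨rfl, hv⟩
    induction v with
    | nil => exact Star.nil
    | cons x u ih =>
      rw [nlx_cons] at hv
      exact Star.cons (u := []) (v := [x]) ⟨⟨x, hv.1⟩, rfl, rfl⟩ (ih hv.2)
  · intro hs
    induction hs with
    | nil => exact ⟨rfl, nlx_nil⟩
    | cons h1 _ ih =>
      obtain ⟨i, rfl, rfl⟩ := h1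
      obtain ⟨h2, h3⟩ := ih
      exact ⟨by simp [h2], nlx_cons.2 ⟨i.2, h3⟩⟩

private theorem rr_lab_left (K b : ℕ) :
    RR (fun u v : List (Fin K) => (∃ x : Fin K, u = [x] ∧ lh x.val = some b) ∧ v = []) := by
  have h := RR.iSup (fun i : {z : Fin K // lh z.val = some b} =>
    RR.single (A := Fin K) (B := Fin K) (some i.1) none)
  refine h.congr ?_
  intro u v
  constructor
  · rintro ⟨⟨x, rfl, hx⟩, rfl⟩
    exact ⟨⟨x, hx⟩, rfl, rfl⟩
  · rintro ⟨i, rfl, rfl⟩
    exact ⟨⟨i.1, rfl, i.2⟩, rfl⟩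

private theorem rr_lab_right (K b : ℕ) :
    RR (fun u v : List (Fin K) => u = [] ∧ (∃ x : Fin K, v = [x] ∧ lh x.val = some b)) := by
  have h := RR.iSup (fun i : {z : Fin K // lh z.val = some b} =>
    RR.single (A := Fin K) (B := Fin K) none (some i.1))
  refine h.congr ?_
  intro u v
  constructor
  · rintro ⟨rfl, ⟨x, rfl, hx⟩⟩
    exact ⟨⟨x, hx⟩, rfl, rfl⟩
  · rintro ⟨i, rfl, rfl⟩
    exact ⟨rfl, ⟨i.1, rfl, i.2⟩⟩

private def PairR {K : ℕ} (b d : ℕ) (u v : List (Fin K)) : Prop :=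
  ∃ y x x' y', u = y ++ [x] ∧ v = x' :: y' ∧ lh x.val = some b ∧ lh x'.val = some d ∧
    NLx y ∧ NLx y' ∧ y.length = y'.length

private def SkL {K : ℕ} (u v : List (Fin K)) : Prop :=
  ∃ y x, u = y ++ [x] ∧ v = [] ∧ lh x.val = some 0 ∧ NLx y

private def SkR {K : ℕ} (u v : List (Fin K)) : Prop :=
  ∃ x y, u = [] ∧ v = x :: y ∧ lh x.val = some 0 ∧ NLx y

private theorem rr_pair (K b d : ℕ) : RR (PairR (K := K) b d) := by
  have h := (rr_lab_right K d).mul ((rr_nl_pair K).mul (rr_lab_left K b))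
  refine h.congr ?_
  intro u v
  constructor
  · rintro ⟨y, x, x', y', rfl, rfl, h1, h2, h3, h4, h5⟩
    exact ⟨[], y ++ [x], [x'], y', rfl, rfl, ⟨rfl, x', rfl, h2⟩,
      y, [x], y', [], rfl, by simp, ⟨h3, h4, h5⟩, ⟨x, rfl, h1⟩, rfl⟩
  · rintro ⟨u₁, u₂, v₁, v₂, rfl, rfl, ⟨rfl, x', rfl, h2⟩, u₃, u₄, v₃, v₄, rfl, rfl,
      ⟨h3, h4, h5⟩, ⟨x, rfl, h1⟩, rfl⟩
    exact ⟨u₃, x, x', v₃, rfl, by simp, h1, h2, h3, h4, h5⟩

private theorem rr_skl (K : ℕ) : RR (SkL (K := K)) := by
  have h := (rr_nl_left K).mul (rr_lab_left K 0)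
  refine h.congr ?_
  intro u v
  constructor
  · rintro ⟨y, x, rfl, rfl, h1, h2⟩
    exact ⟨y, [x], [], [], rfl, rfl, ⟨h2, rfl⟩, ⟨x, rfl, h1⟩, rfl⟩
  · rintro ⟨u₁, u₂, v₁, v₂, rfl, rfl, ⟨h1, rfl⟩, ⟨x, rfl, h2⟩, rfl⟩
    exact ⟨u₁, x, rfl, rfl, h2, h1⟩

private theorem rr_skr (K : ℕ) : RR (SkR (K := K)) := by
  have h := (rr_lab_right K 0).mul (rr_nl_right K)
  refine h.congr ?_
  intro u v
  constructor
  · rintro ⟨x, y, rfl, rfl, h1, h2⟩
    exact ⟨[], [], [x], y, rfl, rfl, ⟨rfl, x, rfl, h1⟩, rfl, h2⟩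
  · rintro ⟨u₁, u₂, v₁, v₂, rfl, rfl, ⟨rfl, x, rfl, h2⟩, rfl, h1⟩
    exact ⟨x, v₂, rfl, rfl, h2, h1⟩

private abbrev St (K : ℕ) : Type :=
  (Fin (K + 1) × Fin (K + 1)) ⊕ (Option (Fin (K + 1)) × Option (Fin (K + 1)))

private def Tr4 {K : ℕ} (q : ℕ → ℕ → ℕ → ℕ → Bool) :
    St K → St K → List (Fin K) → List (Fin K) → Prop
  | Sum.inl (a, c), Sum.inl (b, d) => fun u v =>
      (q a.val b.val c.val d.val = true ∧ 2 ≤ b.val ∧ 2 ≤ d.val) ∧ PairR b.val d.val u v
  | Sum.inl (a, c), Sum.inr (eL, eR) => fun u v =>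
      (∃ b d : Fin (K + 1), eL = some b ∧ eR = some d ∧ q a.val b.val c.val d.val = false ∧
        b.val ≠ 1 ∧ d.val ≠ 1) ∧ (u = [] ∧ v = [])
  | Sum.inr _, Sum.inl _ => fun _ _ => False
  | Sum.inr (eL, eR), Sum.inr (eL', eR') => fun u v =>
      (((eL = none ∨ eL = some 0) ∧ eL' = none ∧ eR' = eR) ∧ SkL u v) ∨
      ((((eR = none ∨ eR = some 0) ∧ eR' = none ∧ eL' = eL) ∧ SkR u v) ∨
      (∃ bd : Fin (K + 1) × Fin (K + 1), (eL' = none ∧ eR' = none ∧
        (eL = none ∨ eL = some bd.1) ∧ (eR = none ∨ eR = some bd.2)) ∧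
        PairR bd.1.val bd.2.val u v))

private theorem rr_tr {K : ℕ} (q : ℕ → ℕ → ℕ → ℕ → Bool) (i j : St K) : RR (Tr4 q i j) := by
  match i, j with
  | Sum.inl (a, c), Sum.inl (b, d) => exact rr_and _ (rr_pair K _ _)
  | Sum.inl (a, c), Sum.inr (eL, eR) => exact rr_and _ RR.one
  | Sum.inr _, Sum.inl _ => exact RR.zero
  | Sum.inr (eL, eR), Sum.inr (eL', eR') =>
    exact (rr_and _ (rr_skl K)).add ((rr_and _ (rr_skr K)).add
      (RR.iSup fun bd => rr_and _ (rr_pair K _ _)))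

private theorem lh_le {K : ℕ} (x : Fin K) {b : ℕ} (h : lh x.val = some b) : b < K + 1 := by
  have hx := x.isLt
  unfold lh at h
  split_ifs at h <;> simp at h <;> omega

private theorem nlx_map {K : ℕ} {y : List (Fin K)} : NLx y ↔ ∀ z ∈ y.map Fin.val, lh z = none := by
  unfold NLx
  simp

/-- The meaning of the states. -/
private def Sem4 {K : ℕ} (q : ℕ → ℕ → ℕ → ℕ → Bool) :
    St K → List (Fin K) → List (Fin K) → Prop
  | Sum.inl (a, c) => fun u v =>
      ∃ l r, Zp q a.val c.val l r ∧ CL l (u.map Fin.val) ∧ CR r (v.map Fin.val)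
  | Sum.inr (eL, eR) => fun u v =>
      ∃ l r, Mt l r ∧ CL l (u.map Fin.val) ∧ CR r (v.map Fin.val) ∧
        (∀ e, eL = some e → ∃ n l', l = (e.val, n) :: l') ∧
        (∀ e, eR = some e → ∃ n r', r = (e.val, n) :: r')

private theorem cl_add {K : ℕ} {y u : List (Fin K)} {x : Fin K} {b : ℕ} {l : List (ℕ × ℕ)}
    (hx : lh x.val = some b) (hy : NLx y) (h : CL l (u.map Fin.val)) :
    CL ((b, y.length) :: l) ((y ++ [x] ++ u).map Fin.val) := by
  have := CL.cons hx (nlx_map.1 hy) h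
  simpa using this

private theorem cr_add {K : ℕ} {y v : List (Fin K)} {x : Fin K} {b : ℕ} {l : List (ℕ × ℕ)}
    (hx : lh x.val = some b) (hy : NLx y) (h : CR l (v.map Fin.val)) :
    CR ((b, y.length) :: l) ((x :: y ++ v).map Fin.val) := by
  have := CR.cons hx (nlx_map.1 hy) h
  simpa using this

private theorem cl_inv {K : ℕ} {u : List (Fin K)} {b n : ℕ} {l : List (ℕ × ℕ)}
    (h : CL ((b, n) :: l) (u.map Fin.val)) : ∃ (y : List (Fin K)) (x : Fin K) (u' : List (Fin K)),
      u = y ++ [x] ++ u' ∧ lh x.val = some b ∧ NLx y ∧ y.length = n ∧ CL l (u'.map Fin.val) := by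
  generalize hw : u.map Fin.val = w at h
  cases h with
  | @cons _ x y _ u₀ h1 h2 h3 =>
    rw [List.map_eq_append_iff] at hw
    obtain ⟨y', w', rfl, rfl, hw⟩ := hw
    rw [List.map_eq_cons_iff] at hw
    obtain ⟨x', u', rfl, rfl, rfl⟩ := hw
    exact ⟨y', x', u', by simp, h1, nlx_map.2 h2, by simp, h3⟩

private theorem cr_inv {K : ℕ} {v : List (Fin K)} {b n : ℕ} {l : List (ℕ × ℕ)}
    (h : CR ((b, n) :: l) (v.map Fin.val)) : ∃ (y : List (Fin K)) (x : Fin K) (v' : List (Fin K)),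
      v = x :: y ++ v' ∧ lh x.val = some b ∧ NLx y ∧ y.length = n ∧ CR l (v'.map Fin.val) := by
  generalize hw : v.map Fin.val = w at h
  cases h with
  | @cons _ x y _ u₀ h1 h2 h3 =>
    rw [List.cons_append, List.map_eq_cons_iff] at hw
    obtain ⟨x', w', rfl, rfl, hw⟩ := hw
    rw [List.map_eq_append_iff] at hw
    obtain ⟨y', v', rfl, rfl, rfl⟩ := hw
    exact ⟨y', x', v', by simp, h1, nlx_map.2 h2, by simp, h3⟩

private theorem sem_of_sys {K : ℕ} (q : ℕ → ℕ → ℕ → ℕ → Bool) {i k : St K}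
    {u v : List (Fin K)} (h : SysR (Tr4 q) i k u v) (hk : k = Sum.inr (none, none)) :
    Sem4 q i u v := by
  induction h with
  | nil i =>
    subst hk
    refine ⟨[], [], Mt.nil, CL.nil, CR.nil, ?_, ?_⟩
    · intro e he
      simp at he
    · intro e he
      simp at he
  | @cons i j k u u' v v' hT _ ih =>
    have ih := ih hk
    match i, j with
    | Sum.inl (a, c), Sum.inl (b, d) =>
      obtain ⟨⟨h1, h2, h3⟩, y, x, x', y', rfl, rfl, h4, h5, h6, h7, h8⟩ := hT
      obtain ⟨l, r, hZ, hl, hr⟩ := ih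
      refine ⟨(b.val, y.length) :: l, (d.val, y.length) :: r, Zp.step h1 h2 h3 hZ,
        cl_add h4 h6 hl, ?_⟩
      rw [h8]
      exact cr_add h5 h7 hr
    | Sum.inl (a, c), Sum.inr (eL, eR) =>
      obtain ⟨⟨b, d, rfl, rfl, h1, h2, h3⟩, rfl, rfl⟩ := hT
      obtain ⟨l, r, hM, hl, hr, hL, hR⟩ := ih
      obtain ⟨n, l', rfl⟩ := hL b rfl
      obtain ⟨m, r', rfl⟩ := hR d rfl
      exact ⟨_, _, Zp.viol h1 h2 h3 hM, by simpa using hl, by simpa using hr⟩
    | Sum.inr _, Sum.inl _ => exact hT.elim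
    | Sum.inr (eL, eR), Sum.inr (eL', eR') =>
      obtain ⟨l, r, hM, hl, hr, hL, hR⟩ := ih
      rcases hT with ⟨⟨h1, rfl, rfl⟩, y, x, rfl, rfl, h2, h3⟩ |
        ⟨⟨h1, rfl, rfl⟩, x, y, rfl, rfl, h2, h3⟩ |
        ⟨⟨b, d⟩, ⟨rfl, rfl, h1, h2⟩, y, x, x', y', rfl, rfl, h4, h5, h6, h7, h8⟩
      · refine ⟨(0, y.length) :: l, r, Mt.skl hM, cl_add h2 h3 hl, by simpa using hr, ?_, hR⟩
        intro e he
        rcases h1 with h1 | h1
        · rw [h1] at he
          simp at he
        · rw [h1, Option.some.injEq] at he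
          rw [← he]
          exact ⟨_, _, rfl⟩
      · refine ⟨l, (0, y.length) :: r, Mt.skr hM, by simpa using hl, cr_add h2 h3 hr, hL, ?_⟩
        intro e he
        rcases h1 with h1 | h1
        · rw [h1] at he
          simp at he
        · rw [h1, Option.some.injEq] at he
          rw [← he]
          exact ⟨_, _, rfl⟩
      · refine ⟨(b.val, y.length) :: l, (d.val, y.length) :: r, Mt.pair hM, cl_add h4 h6 hl,
          ?_, ?_, ?_⟩
        · rw [h8]
          exact cr_add h5 h7 hr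
        · intro e he
          rcases h1 with h1 | h1
          · rw [h1] at he
            simp at he
          · rw [h1, Option.some.injEq] at he
            rw [← he]
            exact ⟨_, _, rfl⟩
        · intro e he
          rcases h2 with h2 | h2
          · rw [h2] at he
            simp at he
          · rw [h2, Option.some.injEq] at he
            rw [← he]
            exact ⟨_, _, rfl⟩

private theorem sys_of_mt {K : ℕ} (q : ℕ → ℕ → ℕ → ℕ → Bool) {l r : List (ℕ × ℕ)}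
    (hM : Mt l r) : ∀ (eL eR : Option (Fin (K + 1))) (u v : List (Fin K)),
      CL l (u.map Fin.val) → CR r (v.map Fin.val) →
      (∀ e, eL = some e → ∃ n l', l = (e.val, n) :: l') →
      (∀ e, eR = some e → ∃ n r', r = (e.val, n) :: r') →
      SysR (Tr4 q) (Sum.inr (eL, eR)) (Sum.inr (none, none)) u v := by
  induction hM with
  | nil =>
    intro eL eR u v hl hr hL hR
    have hu : u = [] := by
      generalize hw : u.map Fin.val = w at hl
      cases hl with
      | nil => simpa using hw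
    have hv : v = [] := by
      generalize hw : v.map Fin.val = w at hr
      cases hr with
      | nil => simpa using hw
    have h1 : eL = none := by
      cases eL with
      | none => rfl
      | some e =>
        obtain ⟨n, l', h⟩ := hL e rfl
        simp at h
    have h2 : eR = none := by
      cases eR with
      | none => rfl
      | some e =>
        obtain ⟨n, l', h⟩ := hR e rfl
        simp at h
    subst hu hv h1 h2
    exact SysR.nil _
  | @skl n l r _ ih =>
    intro eL eR u v hl hr hL hR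
    obtain ⟨y, x, u', rfl, h1, h2, rfl, h3⟩ := cl_inv hl
    have h4 := ih none eR u' v h3 hr (fun e he => by simp at he) hR
    have h5 : Tr4 q (Sum.inr (eL, eR)) (Sum.inr (none, eR)) (y ++ [x]) [] := by
      refine Or.inl ⟨⟨?_, rfl, rfl⟩, y, x, rfl, rfl, h1, h2⟩
      cases eL with
      | none => exact Or.inl rfl
      | some e =>
        right
        obtain ⟨n, l', h⟩ := hL e rfl
        simp only [List.cons.injEq, Prod.mk.injEq] at h
        rw [Option.some.injEq]
        exact Fin.ext h.1.1.symm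
    have := SysR.cons h5 h4
    simpa using this
  | @skr n l r _ ih =>
    intro eL eR u v hl hr hL hR
    obtain ⟨y, x, v', rfl, h1, h2, rfl, h3⟩ := cr_inv hr
    have h4 := ih eL none u v' hl h3 hL (fun e he => by simp at he)
    have h5 : Tr4 q (Sum.inr (eL, eR)) (Sum.inr (eL, none)) [] (x :: y) := by
      refine Or.inr (Or.inl ⟨⟨?_, rfl, rfl⟩, x, y, rfl, rfl, h1, h2⟩)
      cases eR with
      | none => exact Or.inl rfl
      | some e =>
        right
        obtain ⟨n, l', h⟩ := hR e rfl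
        simp only [List.cons.injEq, Prod.mk.injEq] at h
        rw [Option.some.injEq]
        exact Fin.ext h.1.1.symm
    have := SysR.cons h5 h4
    simpa using this
  | @pair a b n l r _ ih =>
    intro eL eR u v hl hr hL hR
    obtain ⟨y, x, u', rfl, h1, h2, h2', h3⟩ := cl_inv hl
    obtain ⟨y', x', v', rfl, h1', h2b, h2c, h3'⟩ := cr_inv hr
    have h4 := ih none none u' v' h3 h3' (fun e he => by simp at he) (fun e he => by simp at he)
    have ha := lh_le x h1
    have hb := lh_le x' h1'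
    have h5 : Tr4 q (Sum.inr (eL, eR)) (Sum.inr (none, none)) (y ++ [x]) (x' :: y') := by
      refine Or.inr (Or.inr ⟨(⟨a, ha⟩, ⟨b, hb⟩), ⟨rfl, rfl, ?_, ?_⟩, y, x, x', y', rfl, rfl,
        h1, h1', h2, h2b, by omega⟩)
      · cases eL with
        | none => exact Or.inl rfl
        | some e =>
          right
          obtain ⟨n, l', h⟩ := hL e rfl
          simp only [List.cons.injEq, Prod.mk.injEq] at h
          rw [Option.some.injEq]
          exact Fin.ext h.1.1.symm
      · cases eR with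
        | none => exact Or.inl rfl
        | some e =>
          right
          obtain ⟨n, l', h⟩ := hR e rfl
          simp only [List.cons.injEq, Prod.mk.injEq] at h
          rw [Option.some.injEq]
          exact Fin.ext h.1.1.symm
    have := SysR.cons h5 h4
    simpa using this

private theorem sys_of_zp {K : ℕ} (q : ℕ → ℕ → ℕ → ℕ → Bool) {a c : ℕ} {l r : List (ℕ × ℕ)}
    (hZ : Zp q a c l r) : ∀ (a' c' : Fin (K + 1)), a'.val = a → c'.val = c →
      ∀ (u v : List (Fin K)), CL l (u.map Fin.val) → CR r (v.map Fin.val) →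
      SysR (Tr4 q) (Sum.inl (a', c')) (Sum.inr (none, none)) u v := by
  induction hZ with
  | @step a b c d n l r h1 h2 h3 _ ih =>
    rintro a' c' rfl rfl u v hl hr
    obtain ⟨y, x, u', rfl, k1, k2, k3, k4⟩ := cl_inv hl
    obtain ⟨y', x', v', rfl, k1', k2', k3', k4'⟩ := cr_inv hr
    have hb := lh_le x k1
    have hd := lh_le x' k1'
    have h4 := ih ⟨b, hb⟩ ⟨d, hd⟩ rfl rfl u' v' k4 k4'
    have h5 : Tr4 q (Sum.inl (a', c')) (Sum.inl (⟨b, hb⟩, ⟨d, hd⟩)) (y ++ [x]) (x' :: y') :=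
      ⟨⟨h1, h2, h3⟩, y, x, x', y', rfl, rfl, k1, k1', k2, k2', by omega⟩
    have := SysR.cons h5 h4
    simpa using this
  | @viol a b c d n m l r h1 h2 h3 hM =>
    rintro a' c' rfl rfl u v hl hr
    obtain ⟨y, x, u', -, k1, -⟩ := cl_inv hl
    obtain ⟨y', x', v', -, k1', -⟩ := cr_inv hr
    have hb := lh_le x k1
    have hd := lh_le x' k1'
    have h4 := sys_of_mt q hM (some ⟨b, hb⟩) (some ⟨d, hd⟩) u v hl hr
      (fun e he => by
        rw [Option.some.injEq] at he
        rw [← he]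
        exact ⟨_, _, rfl⟩)
      (fun e he => by
        rw [Option.some.injEq] at he
        rw [← he]
        exact ⟨_, _, rfl⟩)
    have h5 : Tr4 (K := K) q (Sum.inl (a', c')) (Sum.inr (some ⟨b, hb⟩, some ⟨d, hd⟩)) [] [] :=
      ⟨⟨_, _, rfl, rfl, h1, h2, h3⟩, rfl, rfl⟩
    have := SysR.cons h5 h4
    simpa using this

theorem dom_kp (K : ℕ) (q : ℕ → ℕ → ℕ → ℕ → Bool) :
    Dom Lin2 ({v | Lw (v.map Fin.val) ∧ Kp q (cells (v.map Fin.val))} : Language (Fin K)) := by
  have hρ := (rr_skr K).mul (rr_sys (T := Tr4 (K := K) q) (rr_tr q) (Sum.inl (0, 0))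
    (Sum.inr (none, none)))
  have h := dom_lin_of_rr hρ
  convert h using 1
  ext w
  constructor
  · rintro ⟨hL, p, k, s, hc, hZ⟩
    have h1 : CR (p ++ (0, k) :: s) (w.map Fin.val) := cR_iff.2 ⟨hL, hc⟩
    obtain ⟨v₁, v₂, h2, h3, h4⟩ := h1.split
    rw [List.map_eq_append_iff] at h2
    obtain ⟨w₁, w₂, rfl, rfl, rfl⟩ := h2
    obtain ⟨y, x, v', rfl, k1, k2, -, k4⟩ := cr_inv h4
    refine ⟨w₁.reverse, x :: y ++ v', ⟨[], w₁.reverse, x :: y, v', rfl, rfl,
      ⟨x, y, rfl, rfl, k1, k2⟩, ?_⟩, by simp⟩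
    refine sys_of_zp q hZ 0 0 rfl rfl _ _ ?_ k4
    have := CL.of_cR h3
    simpa using this
  · rintro ⟨u, v, ⟨u₁, u₂, v₁, v₂, rfl, rfl, ⟨x, y, rfl, rfl, k1, k2⟩, hS⟩, rfl⟩
    obtain ⟨l, r, hZ, hl, hr⟩ := sem_of_sys q hS rfl
    have h1 := CR.of_cL hl
    have h2 := cr_add k1 k2 hr
    have h3 := h1.append h2
    have h4 : l.reverse ++ (0, y.length) :: r = cells ((List.reverse ([] ++ u₂) ++
        (x :: y ++ v₂)).map Fin.val) ∧ Lw ((List.reverse ([] ++ u₂) ++
        (x :: y ++ v₂)).map Fin.val) := by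
      have h5 := cR_iff.1 h3
      simp only [List.nil_append, List.map_append, List.map_reverse] at h5 ⊢
      exact ⟨h5.2.symm, h5.1⟩
    refine ⟨h4.2, l.reverse, y.length, r, h4.1.symm, ?_⟩
    rw [List.reverse_reverse]
    exact hZ

end Pool.Agent.NGP
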