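import Pool.Agent.H93NG.LinG
import Pool.Agent.H93NG.Reg
import Pool.Agent.NGP.C0

/-!
# NGP, part C: the format is regular

`Fm g` is a local language.
-/

namespace Pool.Agent.NGP

open Pool.Agent.H93NG

theorem isRegular_chainN {Z : Type} [Finite Z] (S : Set Z) (rel : Z → Z → Prop) :
    Language.IsRegular ({z | ∃ a z', z = a :: z' ∧ a ∈ S ∧ List.IsChain rel z} : Language Z) := by
  set L : Language Z := {z | ∃ a z', z = a :: z' ∧ a ∈ S ∧ List.IsChain rel z} with hL
  have hmem : ∀ z : List Z, z ∈ L ↔ ∃ a z', z = a :: z' ∧ a ∈ S ∧ List.IsChain rel z :=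
    fun z => Iff.rfl
  apply Language.IsRegular.of_finite_range_leftQuotient
  refine (((Set.finite_range fun a : Z => ({y | List.IsChain rel (a :: y)} : Language Z)).insert
    ({z | False} : Language Z)).insert L).subset ?_
  rintro _ ⟨x, rfl⟩
  rcases List.eq_nil_or_concat x with rfl | ⟨x, a, rfl⟩
  · left
    rfl
  · rw [List.concat_eq_append]
    by_cases hx : x ++ [a] ∈ L
    · right; right
      refine ⟨a, Set.ext fun y => ?_⟩
      refine Iff.trans ?_ (Language.mem_leftQuotient (L := L) _ y).symm
      obtain ⟨b, z', h1, h2, h3⟩ := (hmem _).1 hx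
      rw [hmem]
      constructor
      · intro h
        refine ⟨b, z' ++ y, by rw [h1]; rfl, h2, ?_⟩
        rw [List.append_assoc, List.singleton_append]
        exact List.isChain_split.2 ⟨h3, h⟩
      · rintro ⟨_, _, _, _, h⟩
        rw [List.append_assoc, List.singleton_append] at h
        exact (List.isChain_split.1 h).2
    · right; left
      refine Set.ext fun y => ?_
      refine (Language.mem_leftQuotient (L := L) _ y).trans ?_
      constructor
      · intro h
        apply hx
        obtain ⟨b, z', h1, h2, h3⟩ := (hmem _).1 h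
        rw [List.append_assoc, List.singleton_append] at h3
        have h4 := (List.isChain_split.1 h3).1
        refine (hmem _).2 ?_
        cases x with
        | nil =>
          simp only [List.nil_append, List.singleton_append, List.cons.injEq] at h1
          obtain ⟨rfl, _⟩ := h1
          exact ⟨a, [], rfl, h2, h4⟩
        | cons c x =>
          simp only [List.cons_append, List.cons.injEq] at h1
          obtain ⟨rfl, _⟩ := h1
          exact ⟨c, x ++ [a], rfl, h2, h4⟩
      · intro h
        exact absurd h id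

/-- Adjacent letters of words of the format. -/
def Nf (a b : ℕ) : Prop :=
  ((a = 2 ∨ a = 3) ∧ (b = 3 ∨ b = 4)) ∨ ((a = 4 ∨ a = 5) ∧ (b = 5 ∨ b = 0)) ∨
  ((a < 2 ∨ 10 ≤ a) ∧ (b < 2 ∨ 10 ≤ b) ∧ Nx a b) ∨ (a < 2 ∧ b = 6) ∨
  ((a = 6 ∨ a = 7) ∧ (b = 7 ∨ b = 8)) ∨ ((a = 8 ∨ a = 9) ∧ b = 9)

theorem chain_rep {R : ℕ → ℕ → Prop} {a b : ℕ} (n : ℕ) (h1 : R a b) (h2 : R b b) :
    List.IsChain R (a :: List.replicate n b) := by
  induction n generalizing a with
  | zero => exact List.IsChain.singleton _
  | succ n ih =>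
    rw [List.replicate_succ]
    exact List.IsChain.cons_cons h1 (ih h2)

theorem last_rep (a b n : ℕ) : (a :: List.replicate n b).getLast? = some (if n = 0 then a else b) := by
  cases n with
  | zero => rfl
  | succ n =>
    rw [List.replicate_succ', ← List.cons_append, List.getLast?_append]
    simp

theorem chain_P1 (i j : ℕ) : List.IsChain Nf (P1 i j) := by
  unfold P1
  rw [List.isChain_append]
  refine ⟨chain_rep i (by simp [Nf]) (by simp [Nf]), chain_rep j (by simp [Nf]) (by simp [Nf]), ?_⟩
  intro x hx y hy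
  rw [last_rep] at hx
  simp only [List.head?_cons, Option.mem_def, Option.some.injEq] at hx hy
  subst hx hy
  split_ifs <;> simp [Nf]

theorem chain_P2 (i j : ℕ) : List.IsChain Nf (P2 i j) := by
  unfold P2
  rw [List.isChain_append]
  refine ⟨chain_rep i (by simp [Nf]) (by simp [Nf]), chain_rep j (by simp [Nf]) (by simp [Nf]), ?_⟩
  intro x hx y hy
  rw [last_rep] at hx
  simp only [List.head?_cons, Option.mem_def, Option.some.injEq] at hx hy
  subst hx hy
  split_ifs <;> simp [Nf]

theorem last_P1 (i j : ℕ) : (P1 i j).getLast? = some (if j = 0 then 4 else 5) := by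
  unfold P1
  rw [List.getLast?_append, last_rep]
  rfl

theorem last_P2 (i j : ℕ) : (P2 i j).getLast? = some (if j = 0 then 8 else 9) := by
  unfold P2
  rw [List.getLast?_append, last_rep]
  rfl

theorem chain_of_fm {g : ℕ} {w : List ℕ} (h : Fm g w) :
    (∃ w', w = 2 :: w') ∧ List.IsChain Nf w ∧ (w.getLast? = some 8 ∨ w.getLast? = some 9) := by
  obtain ⟨i₁, j₁, m, i₂, j₂, rfl, ⟨⟨m', hm'⟩, h2, h3, ⟨m'', a, hma, ha⟩⟩⟩ := h
  have hm : List.IsChain Nf m := by
    have h4 : ∀ (l : List ℕ), (∀ a ∈ l, a < 2 ∨ (10 ≤ a ∧ a < 10 + 8 * (g + 1))) →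
        List.IsChain Nx l → List.IsChain Nf l := by
      intro l
      induction l with
      | nil => intro _ _; exact List.IsChain.nil
      | cons x l ih =>
        intro e1 e2
        cases l with
        | nil => exact List.IsChain.singleton _
        | cons y l =>
          rw [List.isChain_cons_cons] at e2 ⊢
          refine ⟨?_, ih (fun a ha => e1 a (List.mem_cons_of_mem _ ha)) e2.2⟩
          right; right; left
          refine ⟨?_, ?_, e2.1⟩
          · rcases e1 x (by simp) with h | h
            · exact Or.inl h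
            · exact Or.inr h.1
          · rcases e1 y (by simp) with h | h
            · exact Or.inl h
            · exact Or.inr h.1
    exact h4 m h2 h3
  have hlast : m.getLast? = some a := by
    rw [hma]; simp
  refine ⟨⟨_, by rw [P1]; simp only [List.cons_append]; rfl⟩, ?_, ?_⟩
  · rw [List.isChain_append, List.isChain_append]
    refine ⟨⟨chain_P1 _ _, hm, ?_⟩, chain_P2 _ _, ?_⟩
    · intro x hx y hy
      rw [last_P1] at hx
      rw [hm'] at hy
      simp only [List.head?_cons, Option.mem_def, Option.some.injEq] at hx hy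
      subst hx hy
      split_ifs <;> simp [Nf]
    · intro x hx y hy
      rw [List.getLast?_append, hlast] at hx
      simp only [P2, List.cons_append, List.head?_cons, Option.mem_def, Option.some.injEq,
        Option.some_or] at hx hy
      subst hx hy
      right; right; right; left
      exact ⟨ha, rfl⟩
  · rw [List.getLast?_append, last_P2]
    by_cases hj : j₂ = 0 <;> simp [hj]

/-- End of a word of the format after a letter `8` or `9`. -/
theorem fm_end (w : List ℕ) : ∀ a, (a = 8 ∨ a = 9) → List.IsChain Nf (a :: w) →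
    ∃ j, w = List.replicate j 9 := by
  induction w with
  | nil => intro a _ _; exact ⟨0, rfl⟩
  | cons b w ih =>
    intro a ha h
    rw [List.isChain_cons_cons] at h
    have hb : b = 9 := by
      rcases h.1 with h | h | h | h | h | h <;> omega
    subst hb
    obtain ⟨j, rfl⟩ := ih 9 (Or.inr rfl) h.2
    exact ⟨j + 1, by rw [List.replicate_succ]⟩

theorem fm_mid2 (w : List ℕ) : ∀ a, (a = 6 ∨ a = 7) → List.IsChain Nf (a :: w) →
    ((a :: w).getLast? = some 8 ∨ (a :: w).getLast? = some 9) →
    ∃ i j, w = List.replicate i 7 ++ 8 :: List.replicate j 9 := by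
  induction w with
  | nil =>
    intro a ha _ h
    simp only [List.getLast?_singleton, Option.some.injEq] at h
    omega
  | cons b w ih =>
    intro a ha h hl
    rw [List.isChain_cons_cons] at h
    rw [List.getLast?_cons_cons] at hl
    have hb : b = 7 ∨ b = 8 := by
      rcases h.1 with h | h | h | h | h | h <;> omega
    rcases hb with rfl | rfl
    · obtain ⟨i, j, rfl⟩ := ih 7 (Or.inr rfl) h.2 hl
      exact ⟨i + 1, j, by rw [List.replicate_succ]; rfl⟩
    · obtain ⟨j, rfl⟩ := fm_end w 8 (Or.inl rfl) h.2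
      exact ⟨0, j, rfl⟩

theorem fm_middle (w : List ℕ) : ∀ a, (a < 2 ∨ 10 ≤ a) → List.IsChain Nf (a :: w) →
    ((a :: w).getLast? = some 8 ∨ (a :: w).getLast? = some 9) →
    ∃ m i j, w = m ++ P2 i j ∧ (∀ b ∈ m, b < 2 ∨ 10 ≤ b) ∧ List.IsChain Nx (a :: m) ∧
      ∃ b, (a :: m).getLast? = some b ∧ b < 2 := by
  induction w with
  | nil =>
    intro a ha _ h
    simp only [List.getLast?_singleton, Option.some.injEq] at h
    omega
  | cons b w ih =>
    intro a ha h hl
    rw [List.isChain_cons_cons] at h
    rw [List.getLast?_cons_cons] at hl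
    have hb : ((b < 2 ∨ 10 ≤ b) ∧ Nx a b) ∨ (a < 2 ∧ b = 6) := by
      rcases h.1 with h | h | h | h | h | h
      · omega
      · omega
      · exact Or.inl h.2
      · exact Or.inr h
      · omega
      · omega
    rcases hb with ⟨hb, hab⟩ | ⟨hb, rfl⟩
    · obtain ⟨m, i, j, rfl, h1, h2, c, h3, h4⟩ := ih b hb h.2 hl
      refine ⟨b :: m, i, j, rfl, ?_, List.IsChain.cons_cons hab h2, c, ?_, h4⟩
      · intro x hx
        rcases List.mem_cons.1 hx with rfl | hx
        · exact hb
        · exact h1 x hx
      · rw [List.getLast?_cons_cons]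
        exact h3
    · obtain ⟨i, j, rfl⟩ := fm_mid2 w 6 (Or.inl rfl) h.2 hl
      refine ⟨[], i, j, ?_, by simp, List.IsChain.singleton _, a, rfl, hb⟩
      simp [P2]

theorem fm_first2 (w : List ℕ) : ∀ a, (a = 4 ∨ a = 5) → List.IsChain Nf (a :: w) →
    ((a :: w).getLast? = some 8 ∨ (a :: w).getLast? = some 9) →
    ∃ k m i j, w = List.replicate k 5 ++ 0 :: m ++ P2 i j ∧ (∀ b ∈ m, b < 2 ∨ 10 ≤ b) ∧
      List.IsChain Nx (0 :: m) ∧ ∃ b, (0 :: m).getLast? = some b ∧ b < 2 := by
  induction w with
  | nil =>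
    intro a ha _ h
    simp only [List.getLast?_singleton, Option.some.injEq] at h
    omega
  | cons b w ih =>
    intro a ha h hl
    rw [List.isChain_cons_cons] at h
    rw [List.getLast?_cons_cons] at hl
    have hb : b = 5 ∨ b = 0 := by
      rcases h.1 with h | h | h | h | h | h <;> omega
    rcases hb with rfl | rfl
    · obtain ⟨k, m, i, j, rfl, h1, h2⟩ := ih 5 (Or.inr rfl) h.2 hl
      exact ⟨k + 1, m, i, j, by rw [List.replicate_succ]; rfl, h1, h2⟩
    · obtain ⟨m, i, j, rfl, h1, h2⟩ := fm_middle w 0 (Or.inl (by omega)) h.2 hl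
      exact ⟨0, m, i, j, rfl, h1, h2⟩

theorem fm_first (w : List ℕ) : ∀ a, (a = 2 ∨ a = 3) → List.IsChain Nf (a :: w) →
    ((a :: w).getLast? = some 8 ∨ (a :: w).getLast? = some 9) →
    ∃ l k m i j, w = List.replicate l 3 ++ 4 :: (List.replicate k 5 ++ 0 :: m ++ P2 i j) ∧
      (∀ b ∈ m, b < 2 ∨ 10 ≤ b) ∧
      List.IsChain Nx (0 :: m) ∧ ∃ b, (0 :: m).getLast? = some b ∧ b < 2 := by
  induction w with
  | nil =>
    intro a ha _ h
    simp only [List.getLast?_singleton, Option.some.injEq] at h
    omega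
  | cons b w ih =>
    intro a ha h hl
    rw [List.isChain_cons_cons] at h
    rw [List.getLast?_cons_cons] at hl
    have hb : b = 3 ∨ b = 4 := by
      rcases h.1 with h | h | h | h | h | h <;> omega
    rcases hb with rfl | rfl
    · obtain ⟨l, k, m, i, j, rfl, h1, h2⟩ := ih 3 (Or.inr rfl) h.2 hl
      exact ⟨l + 1, k, m, i, j, by rw [List.replicate_succ]; rfl, h1, h2⟩
    · obtain ⟨k, m, i, j, rfl, h1, h2⟩ := fm_first2 w 4 (Or.inl rfl) h.2 hl
      exact ⟨0, k, m, i, j, rfl, h1, h2⟩

theorem fm_of_chain {g : ℕ} {w : List ℕ} (h0 : ∀ a ∈ w, a < 10 + 8 * (g + 1))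
    (h1 : ∃ w', w = 2 :: w') (h2 : List.IsChain Nf w)
    (h3 : w.getLast? = some 8 ∨ w.getLast? = some 9) : Fm g w := by
  obtain ⟨w', rfl⟩ := h1
  obtain ⟨l, k, m, i, j, rfl, h4, h5, b, h6, h7⟩ := fm_first w' 2 (Or.inl rfl) h2 h3
  refine ⟨l, k, 0 :: m, i, j, ?_, ⟨m, rfl⟩, ?_, h5, ?_⟩
  · simp [P1]
  · intro a ha
    rcases List.mem_cons.1 ha with rfl | ha'
    · exact Or.inl (by omega)
    · rcases h4 a ha' with h | h
      · exact Or.inl h
      · exact Or.inr ⟨h, h0 a (by simp [ha'])⟩
  · rw [List.getLast?_eq_some_iff] at h6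
    obtain ⟨m', h6⟩ := h6
    exact ⟨m', b, h6, h7⟩

theorem isRegular_fm (g : ℕ) :
    Language.IsRegular ({v | Fm g (v.map Fin.val)} : Language (Fin (10 + 8 * (g + 1)))) := by
  have h1 := isRegular_chainN (Z := Fin (10 + 8 * (g + 1))) {a | a.val = 2}
    (fun a b => Nf a.val b.val)
  have h2 := isRegular_last (Z := Fin (10 + 8 * (g + 1)))
    {a | a.map Fin.val = some 8 ∨ a.map Fin.val = some 9}
  have h3 := h1.inf h2
  have e : ({v | Fm g (v.map Fin.val)} : Language (Fin (10 + 8 * (g + 1)))) =
    ({z | ∃ a z', z = a :: z' ∧ a ∈ {a : Fin (10 + 8 * (g + 1)) | a.val = 2} ∧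
      List.IsChain (fun a b : Fin (10 + 8 * (g + 1)) => Nf a.val b.val) z} :
        Language (Fin (10 + 8 * (g + 1)))) ⊓
    ({z | z.getLast? ∈ {a : Option (Fin (10 + 8 * (g + 1))) |
      a.map Fin.val = some 8 ∨ a.map Fin.val = some 9}} : Language (Fin (10 + 8 * (g + 1)))) := by
    apply Set.ext
    intro v
    constructor
    · intro h
      obtain ⟨⟨w', h1⟩, h2, h3⟩ := chain_of_fm h
      refine ⟨?_, ?_⟩
      · rcases v with _ | ⟨a, v⟩
        · simp at h1
        · refine ⟨a, v, rfl, ?_, ?_⟩
          · simp only [List.map_cons, List.cons.injEq] at h1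
            exact h1.1
          · rw [List.isChain_map] at h2
            exact h2
      · rw [List.getLast?_map] at h3
        exact h3
    · rintro ⟨⟨a, z', rfl, h1, h2⟩, h3⟩
      refine fm_of_chain ?_ ⟨z'.map Fin.val, ?_⟩ ?_ ?_
      · intro b hb
        rw [List.mem_map] at hb
        obtain ⟨c, -, rfl⟩ := hb
        exact c.isLt
      · rw [List.map_cons, show a.val = 2 from h1]
      · rw [List.isChain_map]
        exact h2
      · rw [List.getLast?_map]
        exact h3
  rw [e]
  exact h3

/-- Words with at most `B` letters `0` form a regular language. -/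
theorem isRegular_count (K B : ℕ) :
    Language.IsRegular ({v | (v.map Fin.val).count 0 ≤ B} : Language (Fin K)) := by
  apply Language.IsRegular.of_finite_range_leftQuotient
  set L : Language (Fin K) := {v | (v.map Fin.val).count 0 ≤ B} with hL
  have hmem : ∀ z : List (Fin K), z ∈ L ↔ (z.map Fin.val).count 0 ≤ B := fun z => Iff.rfl
  refine ((Set.finite_Iic (B + 1)).image fun c =>
    ({y | c + (y.map Fin.val).count 0 ≤ B} : Language (Fin K))).subset ?_
  rintro _ ⟨x, rfl⟩
  refine ⟨min ((x.map Fin.val).count 0) (B + 1), by simp, Set.ext fun y => ?_⟩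
  refine Iff.trans ?_ (Language.mem_leftQuotient (L := L) x y).symm
  rw [hmem, List.map_append, List.count_append]
  show min ((x.map Fin.val).count 0) (B + 1) + (y.map Fin.val).count 0 ≤ B ↔ _
  omega

/-- Words with more than `B` letters `0` form a regular language. -/
theorem isRegular_count' (K B : ℕ) :
    Language.IsRegular ({v | B < (v.map Fin.val).count 0} : Language (Fin K)) := by
  have h := (isRegular_count K B).compl
  have e : ({v | B < (v.map Fin.val).count 0} : Language (Fin K)) =
      ({v | (v.map Fin.val).count 0 ≤ B} : Language (Fin K))ᶜ := by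
    apply Set.ext
    intro v
    show B < (v.map Fin.val).count 0 ↔ ¬ ((v.map Fin.val).count 0 ≤ B)
    omega
  rw [e]
  exact h

end Pool.Agent.NGP
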