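import Pool.Agent.NGP.V1

/-!
# NGP, part V: stacks and Dyck words
-/

namespace Pool.Agent.NGP

/-- Value of a stack (top first). -/
def sv : List ℕ → FreeGroup ℕ
  | [] => 1
  | i :: s => sv s * FreeGroup.of i

theorem sv_stk : ∀ {w s t : List ℕ}, stk s w = some t → sv s * fv w = sv t
  | [], s, t, h => by
    simp only [stk, Option.some.injEq] at h
    rw [h, fv_nil, mul_one]
  | a :: w, s, t, h => by
    rw [fv_cons]
    unfold stk at h
    rcases hl : lv a with _ | ⟨i, b⟩
    · simp only [hl] at h
      have : lf a = 1 := by simp [lf, hl]
      rw [this, one_mul]
      exact sv_stk h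
    · cases b
      · simp only [hl] at h
        have hf : lf a = (FreeGroup.of i)⁻¹ := by simp [lf, hl]
        rcases s with _ | ⟨j, s'⟩
        · simp at h
        · simp only at h
          split_ifs at h with hj
          rw [← sv_stk h, hf, sv, hj]
          group
      · simp only [hl] at h
        have hf : lf a = FreeGroup.of i := by simp [lf, hl]
        rw [← sv_stk h, hf, sv, mul_assoc]

theorem Dyck.fv_eq_one {w : List ℕ} (h : Dyck w) : fv w = 1 := by
  have := sv_stk (w := w) (s := []) (t := []) h
  simpa [sv] using this

theorem stk_cons (s : List ℕ) (a : ℕ) (w : List ℕ) : stk s (a :: w) = match lv a with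
    | none => stk s w
    | some (i, true) => stk (i :: s) w
    | some (i, false) => match s with
      | [] => none
      | j :: s' => if j = i then stk s' w else none := by
  conv_lhs => unfold stk
  rfl

theorem stk_nil (s : List ℕ) : stk s [] = some s := by
  unfold stk
  rfl

theorem stk_append {u v s : List ℕ} : stk s (u ++ v) = (stk s u).bind fun t => stk t v := by
  induction u generalizing s with
  | nil => simp [stk_nil]
  | cons a u ih =>
    rw [List.cons_append, stk_cons, stk_cons]
    rcases hl : lv a with _ | ⟨i, b⟩
    · simp only [ih]
    · cases b
      · rcases s with _ | ⟨j, s'⟩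
        · simp
        · simp only
          split_ifs
          · exact ih
          · simp
      · simp only [ih]

/-- A word that reads from `s` to `t` reads from `s ++ r` to `t ++ r`. -/
theorem stk_frame {w s t : List ℕ} (r : List ℕ) (h : stk s w = some t) :
    stk (s ++ r) w = some (t ++ r) := by
  induction w generalizing s with
  | nil =>
    simp only [stk, Option.some.injEq] at h ⊢
    rw [h]
  | cons a w ih =>
    unfold stk at h ⊢
    rcases hl : lv a with _ | ⟨i, b⟩
    · simp only [hl] at h ⊢
      exact ih h
    · cases b
      · rcases s with _ | ⟨j, s'⟩
        · simp [hl] at h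
        · simp only [hl, List.cons_append] at h ⊢
          split_ifs at h with hj
          simp only [hj, if_true]
          exact ih h
      · simp only [hl] at h ⊢
        exact ih h

end Pool.Agent.NGP
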