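import Pool.Agent.H93NG.ZDyck3
import Pool.Agent.H93NG.CS
import Pool.Agent.NGP.V2

/-!
# NGP, part C: the Dyck words over the alphabet are in the cone of `Dyck2`

As `dom_dyck3` in `H93NG/ZDyck3.lean`.
-/

namespace Pool.Agent.NGP

open Pool.Agent.H93NG

/-- The code of a generator. -/
def cdc (i : ℕ) : List Bool := List.replicate i true ++ [false]

/-- The code of a letter. -/
def trc (a : ℕ) : List (Bool × Bool) :=
  match lv a with
  | none => []
  | some (i, true) => (cdc i).reverse.map fun b => (b, true)
  | some (i, false) => (cdc i).map fun b => (b, false)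

theorem cdc_prefix (s : List ℕ) (a : ℕ) (s' : List Bool) :
    s.flatMap cdc = cdc a ++ s' ↔ ∃ s'', s = a :: s'' ∧ s' = s''.flatMap cdc := by
  constructor
  · intro h
    cases s with
    | nil => simp [cdc] at h
    | cons b s =>
      rw [List.flatMap_cons] at h
      obtain ⟨h1, h2⟩ := code_inj b a _ _ h
      subst h1
      exact ⟨s, rfl, h2.symm⟩
  · rintro ⟨s'', rfl, rfl⟩
    rw [List.flatMap_cons]

theorem run_trc (w : List ℕ) (s : List ℕ) (t : List Bool) :
    Run (w.flatMap trc) (s.flatMap cdc) t ↔ ∃ t', t = t'.flatMap cdc ∧ stk s w = some t' := by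
  induction w generalizing s with
  | nil =>
    rw [List.flatMap_nil, run_nil_iff]
    constructor
    · rintro rfl
      exact ⟨s, rfl, stk_nil s⟩
    · rintro ⟨t', rfl, h⟩
      rw [stk_nil, Option.some.injEq] at h
      rw [h]
  | cons c w ih =>
    rw [List.flatMap_cons, stk_cons]
    rcases hl : lv c with _ | ⟨i, b⟩
    · have : trc c = [] := by simp [trc, hl]
      rw [this, List.nil_append, ih]
    · cases b
      · have : trc c = (cdc i).map fun b => (b, false) := by simp [trc, hl]
        rw [this, run_pop]
        constructor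
        · rintro ⟨s', h1, h2⟩
          obtain ⟨s'', rfl, rfl⟩ := (cdc_prefix _ _ _).1 h1
          obtain ⟨t', h3, h4⟩ := (ih s'').1 h2
          exact ⟨t', h3, by simpa using h4⟩
        · rintro ⟨t', h3, h4⟩
          rcases s with _ | ⟨j, s⟩
          · simp at h4
          · simp only at h4
            split_ifs at h4 with hj
            subst hj
            exact ⟨s.flatMap cdc, (cdc_prefix _ _ _).2 ⟨s, rfl, rfl⟩, (ih s).2 ⟨t', h3, h4⟩⟩
      · have : trc c = (cdc i).reverse.map fun b => (b, true) := by simp [trc, hl]
        rw [this, run_push, ← List.flatMap_cons, ih]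

theorem cdc_eq_nil {t : List ℕ} (h : t.flatMap cdc = []) : t = [] := by
  cases t with
  | nil => rfl
  | cons a t => simp [cdc] at h

theorem dom_dyckN (K : ℕ) :
    Dom Dyck2 ({v | Dyck (v.map Fin.val)} : Language (Fin K)) := by
  have h := dom_quot (A := Bool × Bool) (B := Fin K) (C := Fin K)
    Dyck2 [] [] (fun c => trc c.val) (fun c => [c])
  have h1 : ({v | ∃ w : List (Fin K), [] ++ w.flatMap (fun c => trc c.val) ++ [] ∈ Dyck2 ∧
      w.flatMap (fun c => [c]) = v} : Language (Fin K)) =
      ({v | Dyck (v.map Fin.val)} : Language (Fin K)) := by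
    apply Set.ext
    intro v
    have h2 : ∀ w : List (Fin K), w.flatMap (fun c => [c]) = w := by
      intro w
      induction w with
      | nil => rfl
      | cons a w ih => rw [List.flatMap_cons, ih]; rfl
    have h3 : v.flatMap (fun c => trc c.val) ∈ Dyck2 ↔ Dyck (v.map Fin.val) := by
      have h4 := run_trc (v.map Fin.val) [] []
      rw [List.flatMap_nil, List.flatMap_map] at h4
      change Run _ [] [] ↔ stk [] (v.map Fin.val) = some []
      rw [h4]
      constructor
      · rintro ⟨t', h5, h6⟩
        rwa [cdc_eq_nil h5.symm] at h6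
      · intro h6
        exact ⟨[], rfl, h6⟩
    constructor
    · rintro ⟨w, hw, hv⟩
      rw [h2] at hv
      subst hv
      rw [List.nil_append, List.append_nil] at hw
      exact h3.1 hw
    · intro hv
      refine ⟨v, ?_, h2 v⟩
      rw [List.nil_append, List.append_nil]
      exact h3.2 hv
  rwa [h1] at h

end Pool.Agent.NGP
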