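import Pool.Agent.NGP.S1

/-!
# NGP, part K: comparison of lists of labels

`adv` persists when the lists are extended; small trees have simple information.
-/

namespace Pool.Agent.NGP

variable {q : ℕ → ℕ → ℕ → ℕ → Bool}

theorem adv_nil_left (q : ℕ → ℕ → ℕ → ℕ → Bool) (y : List ℕ) : adv q [] y = Adv.alive [] y := by
  rw [adv]
  simp

theorem adv_sing_left (q : ℕ → ℕ → ℕ → ℕ → Bool) (a : ℕ) (y : List ℕ) :
    adv q [a] y = Adv.alive [a] y := by
  rw [adv]
  simp

theorem adv_nil_right (q : ℕ → ℕ → ℕ → ℕ → Bool) (x : List ℕ) : adv q x [] = Adv.alive x [] := by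
  rw [adv]
  simp

theorem adv_sing_right (q : ℕ → ℕ → ℕ → ℕ → Bool) (x : List ℕ) (a : ℕ) :
    adv q x [a] = Adv.alive x [a] := by
  rw [adv]
  simp

theorem adv_cons (q : ℕ → ℕ → ℕ → ℕ → Bool) (a b : ℕ) (x : List ℕ) (c d : ℕ) (y : List ℕ) :
    adv q (a :: b :: x) (c :: d :: y) =
      if b = 1 ∨ d = 1 then Adv.dead
      else if q a b c d = true then
        (if b = 0 ∨ d = 0 then Adv.dead else adv q (b :: x) (d :: y))
      else Adv.viol := by
  rw [adv]

/-- Extending the lists after the value `alive x y`. -/
theorem adv_append_alive (u v : List ℕ) : ∀ {X Y x y : List ℕ}, adv q X Y = Adv.alive x y →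
    adv q (X ++ u) (Y ++ v) = adv q (x ++ u) (y ++ v)
  | [], Y, x, y, h => by
    rw [adv_nil_left] at h
    simp only [Adv.alive.injEq] at h
    rw [h.1, h.2]
  | [a], Y, x, y, h => by
    rw [adv_sing_left] at h
    simp only [Adv.alive.injEq] at h
    rw [h.1, h.2]
  | a :: b :: X, [], x, y, h => by
    rw [adv_nil_right] at h
    simp only [Adv.alive.injEq] at h
    rw [h.1, h.2]
  | a :: b :: X, [c], x, y, h => by
    rw [adv_sing_right] at h
    simp only [Adv.alive.injEq] at h
    rw [h.1, h.2]
  | a :: b :: X, c :: d :: Y, x, y, h => by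
    rw [adv_cons] at h
    simp only [List.cons_append]
    rw [adv_cons]
    split_ifs at h ⊢ with h1 h2 h3
    exact adv_append_alive u v (X := b :: X) (Y := d :: Y) h

theorem adv_append_viol (u v : List ℕ) : ∀ {X Y : List ℕ}, adv q X Y = Adv.viol →
    adv q (X ++ u) (Y ++ v) = Adv.viol
  | [], Y, h => by
    rw [adv_nil_left] at h
    exact absurd h (by simp)
  | [a], Y, h => by
    rw [adv_sing_left] at h
    exact absurd h (by simp)
  | a :: b :: X, [], h => by
    rw [adv_nil_right] at h
    exact absurd h (by simp)
  | a :: b :: X, [c], h => by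
    rw [adv_sing_right] at h
    exact absurd h (by simp)
  | a :: b :: X, c :: d :: Y, h => by
    rw [adv_cons] at h
    simp only [List.cons_append]
    rw [adv_cons]
    split_ifs at h ⊢ with h1 h2 h3
    · exact adv_append_viol u v (X := b :: X) (Y := d :: Y) h
    · rfl

theorem adv_append_dead (u v : List ℕ) : ∀ {X Y : List ℕ}, adv q X Y = Adv.dead →
    adv q (X ++ u) (Y ++ v) = Adv.dead
  | [], Y, h => by
    rw [adv_nil_left] at h
    exact absurd h (by simp)
  | [a], Y, h => by
    rw [adv_sing_left] at h
    exact absurd h (by simp)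
  | a :: b :: X, [], h => by
    rw [adv_nil_right] at h
    exact absurd h (by simp)
  | a :: b :: X, [c], h => by
    rw [adv_sing_right] at h
    exact absurd h (by simp)
  | a :: b :: X, c :: d :: Y, h => by
    rw [adv_cons] at h
    simp only [List.cons_append]
    rw [adv_cons]
    split_ifs at h ⊢ with h1 h2 h3
    · rfl
    · rfl
    · exact adv_append_dead u v (X := b :: X) (Y := d :: Y) h

/-- The difference of the lengths does not change. -/
theorem adv_length : ∀ {X Y x y : List ℕ}, adv q X Y = Adv.alive x y →
    x.length + Y.length = y.length + X.length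
  | [], Y, x, y, h => by
    rw [adv_nil_left] at h
    simp only [Adv.alive.injEq] at h
    rw [← h.1, ← h.2]; omega
  | [a], Y, x, y, h => by
    rw [adv_sing_left] at h
    simp only [Adv.alive.injEq] at h
    rw [← h.1, ← h.2]; omega
  | a :: b :: X, [], x, y, h => by
    rw [adv_nil_right] at h
    simp only [Adv.alive.injEq] at h
    rw [← h.1, ← h.2]; omega
  | a :: b :: X, [c], x, y, h => by
    rw [adv_sing_right] at h
    simp only [Adv.alive.injEq] at h
    rw [← h.1, ← h.2]; omega
  | a :: b :: X, c :: d :: Y, x, y, h => by
    rw [adv_cons] at h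
    split_ifs at h with h1 h2 h3
    have := adv_length (X := b :: X) (Y := d :: Y) h
    simp only [List.length_cons] at this ⊢
    omega

/-- One of the lists of `alive x y` has at most one element. -/
theorem adv_alive_short : ∀ {X Y x y : List ℕ}, adv q X Y = Adv.alive x y →
    x.length ≤ 1 ∨ y.length ≤ 1
  | [], Y, x, y, h => by
    rw [adv_nil_left] at h
    simp only [Adv.alive.injEq] at h
    left; rw [← h.1]; simp
  | [a], Y, x, y, h => by
    rw [adv_sing_left] at h
    simp only [Adv.alive.injEq] at h
    left; rw [← h.1]; simp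
  | a :: b :: X, [], x, y, h => by
    rw [adv_nil_right] at h
    simp only [Adv.alive.injEq] at h
    right; rw [← h.2]; simp
  | a :: b :: X, [c], x, y, h => by
    rw [adv_sing_right] at h
    simp only [Adv.alive.injEq] at h
    right; rw [← h.2]; simp
  | a :: b :: X, c :: d :: Y, x, y, h => by
    rw [adv_cons] at h
    split_ifs at h with h1 h2 h3
    exact adv_alive_short (X := b :: X) (Y := d :: Y) h

/-! ## `fil` -/

theorem fil_none_of_viol {A : List Adv} (h : Adv.viol ∈ A) : fil A = none := by
  induction A with
  | nil => simp at h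
  | cons a A ih =>
    cases a with
    | viol => rfl
    | dead =>
      simp only [List.mem_cons, reduceCtorEq, false_or] at h
      simp only [fil, ih h]
    | alive x y =>
      simp only [List.mem_cons, reduceCtorEq, false_or] at h
      simp only [fil, ih h, Option.map_none]

theorem viol_of_fil_none {A : List Adv} (h : fil A = none) : Adv.viol ∈ A := by
  induction A with
  | nil => simp [fil] at h
  | cons a A ih =>
    cases a with
    | viol => simp
    | dead =>
      simp only [fil] at h
      simp [ih h]
    | alive x y =>
      simp only [fil, Option.map_eq_none_iff] at h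
      simp [ih h]

theorem mem_fil {A : List Adv} {L : List (List ℕ × List ℕ)} (h : fil A = some L)
    {x y : List ℕ} : (x, y) ∈ L ↔ Adv.alive x y ∈ A ∧ tight x y = true := by
  induction A generalizing L with
  | nil =>
    simp only [fil, Option.some.injEq] at h
    simp [← h]
  | cons a A ih =>
    cases a with
    | viol => simp [fil] at h
    | dead =>
      simp only [fil] at h
      rw [ih h]
      simp
    | alive x' y' =>
      simp only [fil, Option.map_eq_some_iff] at h
      obtain ⟨L', hL', h⟩ := h
      have := ih hL'
      by_cases ht : tight x' y' = true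
      · rw [if_pos ht] at h
        rw [← h, List.mem_cons, this]
        constructor
        · rintro (h1 | h1)
          · simp only [Prod.mk.injEq] at h1
            rw [h1.1, h1.2]
            exact ⟨by simp, ht⟩
          · exact ⟨by simp [h1.1], h1.2⟩
        · rintro ⟨h1, h2⟩
          simp only [List.mem_cons, Adv.alive.injEq] at h1
          rcases h1 with ⟨h1, h3⟩ | h1
          · left; rw [h1, h3]
          · right; exact ⟨h1, h2⟩
      · rw [if_neg ht] at h
        rw [← h, this]
        constructor
        · rintro ⟨h1, h2⟩
          exact ⟨by simp [h1], h2⟩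
        · rintro ⟨h1, h2⟩
          simp only [List.mem_cons, Adv.alive.injEq] at h1
          rcases h1 with ⟨h1, h3⟩ | h1
          · exact absurd (by rw [← h1, ← h3]; exact h2) ht
          · exact ⟨h1, h2⟩

/-! ## Centres -/

/-- The centres of a list of labels. -/
theorem mem_cens : ∀ {p w : List ℕ} {a : Adv},
    a ∈ cens q p w ↔ ∃ u v, w = u ++ 0 :: v ∧ a = adv q (0 :: (u.reverse ++ p)) (0 :: v)
  | p, [], a => by
    simp [cens]
  | p, b :: w, a => by
    have ih := mem_cens (p := b :: p) (w := w) (a := a)
    have key : (∃ u v, b :: w = u ++ 0 :: v ∧ a = adv q (0 :: (u.reverse ++ p)) (0 :: v)) ↔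
        (b = 0 ∧ a = adv q (0 :: p) (0 :: w)) ∨
        ∃ u v, w = u ++ 0 :: v ∧ a = adv q (0 :: (u.reverse ++ b :: p)) (0 :: v) := by
      constructor
      · rintro ⟨u, v, h1, h2⟩
        rcases u with _ | ⟨c, u⟩
        · simp only [List.nil_append, List.cons.injEq] at h1
          left
          exact ⟨h1.1, by rw [h1.2]; simpa using h2⟩
        · simp only [List.cons_append, List.cons.injEq] at h1
          right
          exact ⟨u, v, h1.2, by rw [h2, ← h1.1]; simp⟩
      · rintro (⟨h1, h2⟩ | ⟨u, v, h1, h2⟩)
        · exact ⟨[], w, by simp [h1], by simpa using h2⟩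
        · exact ⟨b :: u, v, by simp [h1], by rw [h2]; simp⟩
    rw [key, ← ih]
    by_cases hb : b = 0
    · simp [cens, hb]
    · simp [cens, hb]

/-- Trees with at most `8` labels have simple information. -/
theorem inf_small {σ : Tr} (h : (labs σ.y).length ≤ 8) :
    inf q σ = none ∨ inf q σ = some (Inf.S (labs σ.y)) := by
  induction σ with
  | ep t => right; simp [inf, Tr.y, labs]
  | lf t a =>
    right
    rcases hl : lh a with _ | l <;> simp [inf, Tr.y, labs, hl]
  | nd t l r ihl ihr =>
    simp only [Tr.y, labs_append, List.length_append] at h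
    simp only [inf, Tr.y, labs_append]
    rcases ihl (by omega) with h1 | h1
    · left; rw [h1]; rfl
    · rcases ihr (by omega) with h2 | h2
      · left; rw [h1, h2]; rfl
      · rw [h1, h2]
        simp only [comb]
        rcases hf : fil (cens q [] (labs l.y ++ labs r.y)) with _ | L
        · left; rfl
        · right
          simp only [Option.map_some, Option.some.injEq]
          rw [if_pos (by simp only [List.length_append]; omega)]

end Pool.Agent.NGP
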