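import Pool.Agent.NGP.C0
import Pool.Agent.NGP.KAdv

/-!
# NGP, part C: unavoidability of garbage for acyclic systems (C2)

PROOF. `nz C` = number of cells with label `≠ 0`.

`mt_of_const`: all contents are `n`. Induction on `l.length + r.length`. If `l = []` then all cells of
`r` have label `0`: `skr`; same if `r = []`. Otherwise `l = a :: l'`, `r = b :: r'`. If `a` has label `0` and
`nz l = r.length`: `skl` (then `l.length ≥ nz l + 1 = r.length + 1 > nz r`, so `nz r ≤ l'.length`). If `b`
has label `0` and `nz r = l.length`: `skr`. Otherwise `pair`: `nz l' ≤ r'.length`: clear if `a` has a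
nonzero label, and if `a` has label `0` then `nz l < r.length`.

`zp_of_viol`: induction on `x`; `adv q (a :: x) (c :: y) = viol` forces `x = b :: x'`, `y = d :: y'`,
`b ≠ 1`, `d ≠ 1` and either `q a b c d = true`, `b ≠ 0`, `d ≠ 0` and `adv q (b :: x') (d :: y') = viol`:
`Zp.step` (the conditions `nz L ≤ R.length` are kept as both first cells have nonzero labels), or
`q a b c d = false`: `Zp.viol` with `mt_of_const` for the whole lists.

`c_unavoid`. Let `Y = 0 :: β`, `X = P1 i i ++ α`, `Z = 0 :: γ ++ P2 j j`. Since `Y`, `Z` start with `0`,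
`cells (X ++ Y^k ++ Z) = cells X ++ (cells Y)^k ++ cells Z` (`cells_append`, `addl_zero`). The first two
cells are `(1, i)`, `(1, i)`, the last two `(1, j)`, `(1, j)`.
Case 1: not all contents of the word with `k = 2` are equal. Then there is an adjacent pair of cells
with different contents in `cells X ++ cells Y ++ cells Y ++ cells Z`. If the pair lies in
`cells X ++ cells Y ++ cells Y`, then for every `k ≥ 2` it occurs in the word `k` at the same place, the
cells before it have `≤ |X| + 2 |Y|` letters, and after it there are at least `k - 2` cells with label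
`0` (one in each `Y`): `KeL` for `k ≥ |X| + 2 |Y| + 2`; the part before is not empty since the
first two contents are equal. If the pair is in `cells Y ++ cells Z` (the last cell of `Y` and the
cells of `Z`): `KeR` in the same way, counting from the right.
Case 2: all contents are equal to `n` (for `k = 2`, hence for all `k`). `labs Y` contains `0` and
its labels are `0` or in `[2, g + 2)` (`lh` of the letters `0`, `1`, `≥ 10`). By `Acyc` there are
`k₁`, `p`, `s` with `(labs Y)^k₁ = p ++ 0 :: s`, `adv q (0 :: p.reverse) (0 :: s) = viol`. For `k ≥ k₁` put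
`K = (k - k₁) / 2`, `K' = k - k₁ - K`, so `K ≤ K' ≤ K + 1`. The word `k` has the cells
`cells X ++ (cells Y)^K ++ (cells Y)^k₁ ++ (cells Y)^K' ++ cells Z`; take the centre at the place
of `p`. Left part `L` (outwards), right part `R`: `nz L ≤ nz R + c₀ ` and
`nz R ≤ nz L + c₀` with `c₀ = |X| + |Z| + (k₁ + 1) |Y|`, and both have at least `K` cells with label `0`.
So for `K ≥ c₀`: `nz L ≤ nz R + K ≤ R.length`, same on the other side: `Kp` by `zp_of_viol`.
-/

namespace Pool.Agent.NGP

/-- Number of cells with label `≠ 0`. -/
def nz (C : List (ℕ × ℕ)) : ℕ := C.countP fun c => c.1 != 0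

theorem nz_nil : nz [] = 0 := rfl

theorem nz_cons (c : ℕ × ℕ) (C : List (ℕ × ℕ)) :
    nz (c :: C) = (if c.1 = 0 then 0 else 1) + nz C := by
  unfold nz
  rw [List.countP_cons]
  by_cases h : c.1 = 0 <;> simp [h, add_comm]

theorem nz_append (C D : List (ℕ × ℕ)) : nz (C ++ D) = nz C + nz D := by
  unfold nz
  rw [List.countP_append]

theorem nz_reverse (C : List (ℕ × ℕ)) : nz C.reverse = nz C := by
  unfold nz
  rw [List.countP_reverse]

theorem nz_le (C : List (ℕ × ℕ)) : nz C ≤ C.length := List.countP_le_length

theorem mt_zero_left {n : ℕ} : ∀ {r : List (ℕ × ℕ)}, (∀ c ∈ r, c.2 = n) → nz r = 0 → Mt [] r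
  | [], _, _ => Mt.nil
  | (b, m) :: r, h, h0 => by
    rw [nz_cons] at h0
    by_cases hb : b = 0
    · subst hb
      exact Mt.skr (mt_zero_left (n := n) (fun c hc => h c (by simp [hc])) (by simpa using h0))
    · simp [hb] at h0

theorem mt_zero_right {n : ℕ} : ∀ {l : List (ℕ × ℕ)}, (∀ c ∈ l, c.2 = n) → nz l = 0 → Mt l []
  | [], _, _ => Mt.nil
  | (b, m) :: l, h, h0 => by
    rw [nz_cons] at h0
    by_cases hb : b = 0
    · subst hb
      exact Mt.skl (mt_zero_right (n := n) (fun c hc => h c (by simp [hc])) (by simpa using h0))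
    · simp [hb] at h0

theorem mt_of_const_aux {n : ℕ} : ∀ (N : ℕ) {l r : List (ℕ × ℕ)}, l.length + r.length ≤ N →
    (∀ c ∈ l, c.2 = n) → (∀ c ∈ r, c.2 = n) →
    nz l ≤ r.length → nz r ≤ l.length → Mt l r := by
  intro N
  induction N with
  | zero =>
    intro l r hN hl hr h1 h2
    have e1 : l = [] := List.length_eq_zero_iff.1 (by omega)
    have e2 : r = [] := List.length_eq_zero_iff.1 (by omega)
    subst e1 e2
    exact Mt.nil
  | succ N ih =>
    intro l r hN hl hr h1 h2
    rcases l with _ | ⟨⟨a, na⟩, l⟩
    · exact mt_zero_left hr (by simpa using h2)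
    rcases r with _ | ⟨⟨b, nb⟩, r⟩
    · exact mt_zero_right hl (by simpa using h1)
    have ha : na = n := hl (a, na) (by simp)
    have hb : nb = n := hr (b, nb) (by simp)
    subst ha
    subst hb
    have hl' : ∀ c ∈ l, c.2 = nb := fun c hc => hl c (by simp [hc])
    have hr' : ∀ c ∈ r, c.2 = nb := fun c hc => hr c (by simp [hc])
    have h3 := nz_cons (a, nb) l
    have h4 := nz_cons (b, nb) r
    have h5 := nz_le l
    have h6 := nz_le r
    have h7 := nz_le ((a, nb) :: l)
    have h8 := nz_le ((b, nb) :: r)
    simp only [List.length_cons] at hN h1 h2 h7 h8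
    by_cases c1 : a = 0 ∧ nz ((a, nb) :: l) = r.length + 1
    · obtain ⟨rfl, c1⟩ := c1
      simp only [if_true] at h3
      refine Mt.skl (ih (by simp; omega) hl' hr ?_ ?_)
      · simp only [List.length_cons]; omega
      · omega
    by_cases c2 : b = 0 ∧ nz ((b, nb) :: r) = l.length + 1
    · obtain ⟨rfl, c2⟩ := c2
      simp only [if_true] at h4
      refine Mt.skr (ih (by simp; omega) hl hr' ?_ ?_)
      · omega
      · simp only [List.length_cons]; omega
    refine Mt.pair (ih (by omega) hl' hr' ?_ ?_)
    · by_cases ha : a = 0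
      · have : nz ((a, nb) :: l) ≠ r.length + 1 := fun h => c1 ⟨ha, h⟩
        simp only [ha, if_true] at h3
        rw [ha] at this h1
        omega
      · simp only [ha, if_false] at h3
        omega
    · by_cases hb : b = 0
      · have : nz ((b, nb) :: r) ≠ l.length + 1 := fun h => c2 ⟨hb, h⟩
        simp only [hb, if_true] at h4
        rw [hb] at this h2
        omega
      · simp only [hb, if_false] at h4
        omega

theorem mt_of_const {n : ℕ} {l r : List (ℕ × ℕ)} (hl : ∀ c ∈ l, c.2 = n) (hr : ∀ c ∈ r, c.2 = n)
    (h1 : nz l ≤ r.length) (h2 : nz r ≤ l.length) : Mt l r :=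
  mt_of_const_aux (l.length + r.length) le_rfl hl hr h1 h2

theorem zp_of_viol {q : ℕ → ℕ → ℕ → ℕ → Bool} {n : ℕ} {x y : List ℕ} {a c : ℕ}
    {L R : List (ℕ × ℕ)} (h : adv q (a :: x) (c :: y) = Adv.viol)
    (hx : x <+: L.map Prod.fst) (hy : y <+: R.map Prod.fst)
    (hL : ∀ c ∈ L, c.2 = n) (hR : ∀ c ∈ R, c.2 = n)
    (h1 : nz L ≤ R.length) (h2 : nz R ≤ L.length) : Zp q a c L R := by
  induction x generalizing a c y L R with
  | nil =>
    rw [adv_sing_left] at h
    exact absurd h (by simp)
  | cons b x ih =>
    rcases y with _ | ⟨d, y⟩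
    · rw [adv_sing_right] at h
      exact absurd h (by simp)
    rcases L with _ | ⟨⟨b', m⟩, L⟩
    · simp at hx
    rcases R with _ | ⟨⟨d', m'⟩, R⟩
    · simp at hy
    simp only [List.map_cons, List.cons_prefix_cons] at hx hy
    obtain ⟨rfl, hx⟩ := hx
    obtain ⟨rfl, hy⟩ := hy
    have hm : m = n := hL (b, m) (by simp)
    have hm' : m' = n := hR (d, m') (by simp)
    subst hm
    subst hm'
    have hL' : ∀ c ∈ L, c.2 = m' := fun c hc => hL c (by simp [hc])
    have hR' : ∀ c ∈ R, c.2 = m' := fun c hc => hR c (by simp [hc])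
    rw [adv_cons] at h
    split_ifs at h with g1 g2 g3
    · push Not at g1 g3
      have h3 := nz_cons (b, m') L
      have h4 := nz_cons (d, m') R
      simp only [g3.1, g3.2, if_false] at h3 h4
      simp only [List.length_cons] at h1 h2
      exact Zp.step g2 (by omega) (by omega) (ih h hx hy hL' hR' (by omega) (by omega))
    · push Not at g1
      refine Zp.viol (by simpa using g2) g1.1 g1.2 (mt_of_const hL hR h1 h2)

/-- Either all adjacent contents agree or there is a place where they do not. -/
theorem const_or_split (C : List (ℕ × ℕ)) :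
    (∀ c ∈ C, ∀ d ∈ C, c.2 = d.2) ∨ ∃ A c c' B, C = A ++ c :: c' :: B ∧ c.2 ≠ c'.2 := by
  induction C with
  | nil => left; simp
  | cons a C ih =>
    rcases C with _ | ⟨b, C⟩
    · left
      intro c hc d hd
      simp only [List.mem_singleton] at hc hd
      rw [hc, hd]
    rcases ih with ih | ⟨A, c, c', B, h1, h2⟩
    · by_cases hab : a.2 = b.2
      · left
        have key : ∀ c ∈ a :: b :: C, c.2 = b.2 := by
          intro c hc
          rcases List.mem_cons.1 hc with rfl | hc
          · exact hab
          · exact ih c hc b (by simp)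
        intro c hc d hd
        rw [key c hc, key d hd]
      · right
        exact ⟨[], a, b, C, rfl, hab⟩
    · right
      exact ⟨a :: A, c, c', B, by rw [h1]; rfl, h2⟩

theorem lsum_appendC (C D : List (ℕ × ℕ)) : lsum (C ++ D) = lsum C + lsum D := by
  unfold lsum
  simp

theorem hsh_appendC (C D : List (ℕ × ℕ)) : hsh (C ++ D) = hsh C + hsh D := by
  unfold hsh
  rw [List.countP_append]

theorem hsh_pow {n : ℕ} {D : List (ℕ × ℕ)} (k : ℕ) :
    k ≤ hsh (List.replicate k ((0, n) :: D)).flatten := by
  induction k with
  | zero => simp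
  | succ k ih =>
    rw [List.replicate_succ, List.flatten_cons, hsh_appendC]
    have : 1 ≤ hsh ((0, n) :: D) := by
      unfold hsh
      rw [List.countP_cons]
      simp
    omega

theorem cells_powC (Y w : List ℕ) (hY : ∃ β, Y = 0 :: β) (hw : lead w = 0) (k : ℕ) :
    cells ((List.replicate k Y).flatten ++ w) =
      (List.replicate k (cells Y)).flatten ++ cells w ∧
    lead ((List.replicate k Y).flatten ++ w) = 0 := by
  induction k with
  | zero => simp [hw]
  | succ k ih =>
    rw [List.replicate_succ, List.flatten_cons, List.replicate_succ, List.flatten_cons,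
      List.append_assoc, List.append_assoc, cells_append, ih.2, addl_zero, ih.1]
    refine ⟨rfl, ?_⟩
    obtain ⟨β, rfl⟩ := hY
    simp [lead, lh]

theorem map_fst_pow (C : List (ℕ × ℕ)) (k : ℕ) :
    ((List.replicate k C).flatten).map Prod.fst = (List.replicate k (C.map Prod.fst)).flatten := by
  induction k with
  | zero => rfl
  | succ k ih =>
    rw [List.replicate_succ, List.flatten_cons, List.map_append, ih, List.replicate_succ,
      List.flatten_cons]

theorem length_pow {α : Type} (C : List α) (k : ℕ) :
    ((List.replicate k C).flatten).length = k * C.length := by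
  simp

theorem nz_pow (C : List (ℕ × ℕ)) (k : ℕ) :
    nz ((List.replicate k C).flatten) = k * nz C := by
  induction k with
  | zero => simp [nz]
  | succ k ih =>
    rw [List.replicate_succ, List.flatten_cons, nz_append, ih]
    ring

theorem pow_add {α : Type} (C : List α) (k l : ℕ) :
    (List.replicate (k + l) C).flatten =
      (List.replicate k C).flatten ++ (List.replicate l C).flatten := by
  rw [List.replicate_add, List.flatten_append]

theorem mem_pow {α : Type} {C : List α} {k : ℕ} {c : α}
    (h : c ∈ (List.replicate k C).flatten) : c ∈ C := by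
  rw [List.mem_flatten] at h
  obtain ⟨l, hl, hc⟩ := h
  rw [List.eq_of_mem_replicate hl] at hc
  exact hc

/-- The cells of the first end block. -/
theorem cells_P1C (i : ℕ) : cells (P1 i i) = [(1, i), (1, i)] := by
  have h3 : ∀ a ∈ List.replicate i 3, lh a = none := by
    intro a ha
    rw [List.eq_of_mem_replicate ha]; decide
  have h5 : ∀ a ∈ List.replicate i 5, lh a = none := by
    intro a ha
    rw [List.eq_of_mem_replicate ha]; decide
  have e1 : lh 2 = some 1 := by decide
  have e2 : lh 4 = some 1 := by decide
  have f1 : lead (List.replicate i 5) = i := by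
    have := lead_append_of (w := []) h5
    simpa [lead] using this
  have f2 : cells (List.replicate i 5) = [] := by
    have := cells_append_nolabel (w := []) h5
    simpa [cells] using this
  unfold P1
  simp only [List.cons_append, cells, e1]
  rw [lead_append_of h3, cells_append_nolabel h3]
  simp [cells, e2, lead, f1, f2]

/-- The cells of the last end block. -/
theorem cells_P2C (i : ℕ) : cells (P2 i i) = [(1, i), (1, i)] := by
  have h3 : ∀ a ∈ List.replicate i 7, lh a = none := by
    intro a ha
    rw [List.eq_of_mem_replicate ha]; decide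
  have h5 : ∀ a ∈ List.replicate i 9, lh a = none := by
    intro a ha
    rw [List.eq_of_mem_replicate ha]; decide
  have e1 : lh 6 = some 1 := by decide
  have e2 : lh 8 = some 1 := by decide
  have f1 : lead (List.replicate i 9) = i := by
    have := lead_append_of (w := []) h5
    simpa [lead] using this
  have f2 : cells (List.replicate i 9) = [] := by
    have := cells_append_nolabel (w := []) h5
    simpa [cells] using this
  unfold P2
  simp only [List.cons_append, cells, e1]
  rw [lead_append_of h3, cells_append_nolabel h3]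
  simp [cells, e2, lead, f1, f2]

theorem split_of_map {p s : List ℕ} {C : List (ℕ × ℕ)} (h : C.map Prod.fst = p ++ 0 :: s) :
    ∃ P m S, C = P ++ (0, m) :: S ∧ P.map Prod.fst = p ∧ S.map Prod.fst = s := by
  obtain ⟨P, T, h1, h2, h3⟩ := List.map_eq_append_iff.1 h
  obtain ⟨⟨a, m⟩, S, h4, h5, h6⟩ := List.map_eq_cons_iff.1 h3
  simp only at h5
  subst h5
  exact ⟨P, m, S, by rw [h1, h4], h2, h6⟩

theorem c_unavoid_cells {g : ℕ} {q : ℕ → ℕ → ℕ → ℕ → Bool} (hac : Acyc g q)
    {X' Y Z' : List (ℕ × ℕ)} {i j m : ℕ}
    (hY : ∃ D, Y = (0, m) :: D) (hY0 : ∀ a ∈ Y.map Prod.fst, a = 0 ∨ (2 ≤ a ∧ a < g + 2)) :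
    ∃ k₀, ∀ k ≥ k₀, KK q ((1, i) :: (1, i) :: X' ++ (List.replicate k Y).flatten ++
      (Z' ++ [(1, j), (1, j)])) := by
  obtain ⟨D, hD⟩ := hY
  set X : List (ℕ × ℕ) := (1, i) :: (1, i) :: X' with hX
  set Z : List (ℕ × ℕ) := Z' ++ [(1, j), (1, j)] with hZ
  have pw1 : ∀ k, k ≤ hsh (List.replicate k Y).flatten := by
    intro k
    rw [hD]
    exact hsh_pow k
  rcases const_or_split (X ++ Y ++ Y) with c1 | ⟨A, c, c', B, h1, h2⟩
  · rcases const_or_split (Y ++ Z) with c2 | ⟨A, c, c', B, h1, h2⟩
    · -- all contents are equal to m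
      have hXm : ∀ c ∈ X, c.2 = m := fun c hc =>
        c1 c (by simp [hc]) (0, m) (by simp [hD])
      have hYm : ∀ c ∈ Y, c.2 = m := fun c hc =>
        c1 c (by simp [hc]) (0, m) (by simp [hD])
      have hZm : ∀ c ∈ Z, c.2 = m := fun c hc =>
        c2 c (by simp [hc]) (0, m) (by simp [hD])
      obtain ⟨k₁, p, s, h1, h2⟩ := hac (Y.map Prod.fst) (by simp [hD]) hY0
      rw [← map_fst_pow] at h1
      obtain ⟨P, m', S, h3, h4, h5⟩ := split_of_map h1
      have hPS : ∀ c ∈ P ++ (0, m') :: S, c.2 = m := by
        intro c hc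
        rw [← h3] at hc
        exact hYm c (mem_pow hc)
      have hm' : m' = m := hPS (0, m') (by simp)
      have hPm : ∀ c ∈ P, c.2 = m := fun c hc => hPS c (by simp [hc])
      have hSm : ∀ c ∈ S, c.2 = m := fun c hc => hPS c (by simp [hc])
      set c₀ := X.length + Z.length + P.length + S.length + Y.length with hc₀
      refine ⟨k₁ + 2 * c₀, fun k hk => ?_⟩
      obtain ⟨K, K', e1, e2, e3, e4⟩ : ∃ K K', k = K + (k₁ + K') ∧ K ≤ K' ∧ K' ≤ K + 1 ∧
          c₀ ≤ K := ⟨(k - k₁) / 2, k - k₁ - (k - k₁) / 2, by omega, by omega, by omega, by omega⟩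
      right; right
      have hYl : nz Y + 1 ≤ Y.length := by
        have := nz_le D
        rw [hD, nz_cons]
        simp only [if_true, List.length_cons]
        omega
      refine ⟨X ++ (List.replicate K Y).flatten ++ P, m',
        S ++ (List.replicate K' Y).flatten ++ Z, ?_, ?_⟩
      · rw [e1, pow_add, pow_add, h3]
        simp only [List.append_assoc, List.cons_append]
      · refine zp_of_viol (n := m) h2 ?_ ?_ ?_ ?_ ?_ ?_
        · rw [List.map_reverse, List.map_append, h4, List.reverse_append]
          exact List.prefix_append _ _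
        · rw [List.map_append, List.map_append, h5, List.append_assoc]
          exact List.prefix_append _ _
        · intro c hc
          rw [List.mem_reverse] at hc
          simp only [List.mem_append] at hc
          rcases hc with (hc | hc) | hc
          · exact hXm c hc
          · exact hYm c (mem_pow hc)
          · exact hPm c hc
        · intro c hc
          simp only [List.mem_append] at hc
          rcases hc with (hc | hc) | hc
          · exact hSm c hc
          · exact hYm c (mem_pow hc)
          · exact hZm c hc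
        · rw [nz_reverse, nz_append, nz_append, nz_pow, List.length_append, List.length_append,
            length_pow]
          have i1 := nz_le X
          have i2 := nz_le P
          have i3 : K * (nz Y + 1) ≤ K' * Y.length := Nat.mul_le_mul e2 hYl
          rw [Nat.mul_add] at i3
          omega
        · rw [nz_append, nz_append, nz_pow, List.length_reverse, List.length_append,
            List.length_append, length_pow]
          have i1 := nz_le Z
          have i2 := nz_le S
          have i3 : K * (nz Y + 1) ≤ K * Y.length := Nat.mul_le_mul le_rfl hYl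
          have i4 : K' * nz Y ≤ (K + 1) * nz Y := Nat.mul_le_mul e3 le_rfl
          have i5 := nz_le Y
          rw [Nat.mul_add] at i3
          rw [Nat.add_mul] at i4
          omega
    · -- right anomaly
      refine ⟨lsum B + 1, fun k hk => ?_⟩
      right; left
      refine ⟨X ++ (List.replicate (k - 1) Y).flatten ++ A, c, c', B, ?_, ?_, h2, ?_⟩
      · obtain ⟨k', rfl⟩ : ∃ k', k = k' + 1 := ⟨k - 1, by omega⟩
        rw [pow_add, Nat.add_sub_cancel]
        simp only [List.replicate_one, List.flatten_cons, List.flatten_nil, List.append_nil,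
          List.append_assoc]
        rw [← h1]
      · rintro rfl
        have e : (Y ++ Z') ++ [(1, j), (1, j)] = A ++ [c, c'] := by
          rw [List.append_assoc, ← hZ, h1]
        have := List.append_inj' e (by simp)
        simp only [List.cons.injEq, and_true] at this
        apply h2
        rw [← this.2.1, ← this.2.2]
      · rw [hsh_appendC, hsh_appendC]
        have := pw1 (k - 1)
        omega
  · -- left anomaly
    refine ⟨lsum A + 2, fun k hk => ?_⟩
    left
    refine ⟨A, c, c', B ++ (List.replicate (k - 2) Y).flatten ++ Z, ?_, ?_, h2, ?_⟩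
    · obtain ⟨k', rfl⟩ : ∃ k', k = 2 + k' := ⟨k - 2, by omega⟩
      rw [pow_add, Nat.add_sub_cancel_left]
      have e2 : (List.replicate 2 Y).flatten = Y ++ Y := by
        simp [List.replicate_succ]
      have e3 : A ++ c :: c' :: (B ++ (List.replicate k' Y).flatten ++ Z) =
          (A ++ c :: c' :: B) ++ (List.replicate k' Y).flatten ++ Z := by
        simp
      rw [e2, e3, ← h1]
      simp only [List.append_assoc]
    · rintro rfl
      rw [hX] at h1
      simp only [List.cons_append, List.nil_append, List.cons.injEq] at h1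
      apply h2
      rw [← h1.1, ← h1.2.1]
    · rw [hsh_appendC, hsh_appendC]
      have := pw1 (k - 2)
      omega

theorem c_unavoid {g : ℕ} {q : ℕ → ℕ → ℕ → ℕ → Bool} (hac : Acyc g q) (i j : ℕ)
    (α β γ : List ℕ) (hα : α = [] ∨ ∃ α', α = 0 :: α')
    (hβ : ∀ a ∈ β, a < 2 ∨ (10 ≤ a ∧ a < 10 + 8 * (g + 1))) :
    ∃ k₀, ∀ k ≥ k₀, KK q (cells (P1 i i ++ (α ++ (List.replicate k (0 :: β)).flatten ++ 0 :: γ) ++
      P2 j j)) := by
  have l0 : ∀ w, lead (0 :: w) = 0 := by
    intro w
    simp [lead, lh]
  have e0 : ∀ w, cells (0 :: w) = (0, lead w) :: cells w := by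
    intro w
    simp [cells, lh]
  have lP2 : lead (P2 j j) = 0 := by
    unfold P2
    simp [lead, lh]
  obtain ⟨k₀, hk₀⟩ := c_unavoid_cells (q := q) hac (X' := cells α) (Y := cells (0 :: β))
    (Z' := cells (0 :: γ)) (i := i) (j := j) (m := lead β) ⟨cells β, e0 β⟩ (by
      intro a ha
      rw [← labs_eq] at ha
      unfold labs at ha
      rw [List.mem_filterMap] at ha
      obtain ⟨b, hb, hb'⟩ := ha
      rcases List.mem_cons.1 hb with rfl | hb
      · left
        simpa [lh] using hb'.symm
      · rcases hβ b hb with h | h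
        · interval_cases b
          · left
            simpa [lh] using hb'.symm
          · simp [lh] at hb'
        · right
          unfold lh at hb'
          rw [if_neg (by omega), if_neg (by omega)] at hb'
          split_ifs at hb' with h3
          simp only [Option.some.injEq] at hb'
          omega)
  refine ⟨k₀, fun k hk => ?_⟩
  have key : cells (P1 i i ++ (α ++ (List.replicate k (0 :: β)).flatten ++ 0 :: γ) ++ P2 j j) =
      (1, i) :: (1, i) :: cells α ++ (List.replicate k (cells (0 :: β))).flatten ++
        (cells (0 :: γ) ++ [(1, j), (1, j)]) := by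
    have r1 : P1 i i ++ (α ++ (List.replicate k (0 :: β)).flatten ++ 0 :: γ) ++ P2 j j =
        P1 i i ++ (α ++ ((List.replicate k (0 :: β)).flatten ++ (0 :: γ ++ P2 j j))) := by
      simp only [List.append_assoc]
    have r2 := cells_powC (0 :: β) (0 :: γ ++ P2 j j) ⟨β, rfl⟩ (l0 _) k
    have r3 : lead (α ++ ((List.replicate k (0 :: β)).flatten ++ (0 :: γ ++ P2 j j))) = 0 := by
      rcases hα with rfl | ⟨α', rfl⟩
      · exact r2.2
      · exact l0 _
    rw [r1, cells_append, r3, addl_zero, cells_append, r2.2, addl_zero, r2.1,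
      cells_append (0 :: γ), lP2, addl_zero, cells_P1C, cells_P2C]
    simp only [List.append_assoc, List.cons_append, List.nil_append]
  rw [key]
  exact hk₀ k hk

end Pool.Agent.NGP
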