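import Pool.Agent.H93NG.ZMain
import Pool.Agent.NGP.C1
import Pool.Agent.NGP.V2

/-!
# NGP, part C: quasi-rational languages

PROOF. `QRat.not_dom`: `exists_above_quasirational` gives a context-free non-generator `L` with
`Dom L M` for all quasi-rational `M`; `Dom M Dyck2` would give `Dom L Dyck2` (`Dom.trans`),
contradiction with `nonGen_iff`.
`QRat.regular`: `dom_regular` with the word `[] ∈ Lin2`. `QRat.inter`: `SubCl.dom` with
`dom_inter_regular (Dom.refl M)`. `QRat.union`: `SubCl.subst` of the finite language
`{[false], [true]}` (regular: `Set.Finite` languages, or `isRegular_take`, or `dom_quot`) by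
`f false = M`, `f true = N`. `QRat.append`: substitution into `{[false, true]}`. `QRat.append3` from it.
`QRat.par`: substitution `f none = M`, `f (some a) = {[a]}` into the language over `Option (Fin K)` of
the words `u.map some ++ [none] ++ v.map some` with the conditions on `u`, `v`. This one is in the
cone of `Lin2` by `dom_lin_of_rr`: left part `u.reverse`, right part `none :: v`; the relation is the
product of `(ε, none)` and the union over `i : Fin (K + 1)` of `Star` of the pairs `(a, b)` with
`lv a = some (i, true)`, `lv b = some (i, false)`, `(a, ε)` with `lv a = none`, `(ε, b)` with `lv b = none`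
(`lv a = some (i, _)` implies `i ≤ a < K`; if `u`, `v` contain no brackets any `i` does).
-/

namespace Pool.Agent.NGP

open Pool.Agent.H93NG

/-- Quasi-rational languages. -/
def QRat {B : Type} (M : Language B) : Prop := SubCl (fun _ M => Dom Lin2 M) B M

variable {B : Type} [Finite B]

private theorem c8_nil : ([] : List (Bool × Bool)) ∈ Lin2 := ⟨[], rfl⟩

theorem QRat.not_dom {M : Language B} (h : QRat M) : ¬ Dom M Dyck2 := by
  intro hd
  obtain ⟨A, hA, L, hL, hLN, hLD⟩ := exists_above_quasirational
  have h1 := hLD B M inferInstance h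
  exact (nonGen_iff L).1 hLN (h1.trans hd)

theorem QRat.of_lin {M : Language B} (h : Dom Lin2 M) : QRat M :=
  SubCl.base inferInstance h

theorem QRat.of_dom {C : Type} [Finite C] {M : Language B} {N : Language C} (h : QRat M)
    (h' : Dom M N) : QRat N :=
  SubCl.dom inferInstance inferInstance h h'

theorem QRat.regular {R : Language B} (h : R.IsRegular) : QRat R :=
  QRat.of_lin (dom_regular c8_nil h)

theorem QRat.inter {M R : Language B} (h : QRat M) (hR : R.IsRegular) :
    QRat ({v | v ∈ M ∧ v ∈ R} : Language B) :=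
  h.of_dom (dom_inter_regular (Dom.refl M) hR)

private theorem c8_two : QRat ({z | z.take 2 ∈ ({[false], [true]} : Set (List Bool))} :
    Language Bool) :=
  QRat.regular (isRegular_take 2 _)

private theorem c8_one : QRat ({z | z.take 3 ∈ ({[false, true]} : Set (List Bool))} :
    Language Bool) :=
  QRat.regular (isRegular_take 3 _)

theorem QRat.union {M N : Language B} (h : QRat M) (h' : QRat N) :
    QRat ({v | v ∈ M ∨ v ∈ N} : Language B) := by
  have h1 : QRat (Subst ({z | z.take 2 ∈ ({[false], [true]} : Set (List Bool))} : Language Bool)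
      (fun b : Bool => cond b N M)) := by
    refine SubCl.subst inferInstance inferInstance c8_two ?_
    intro b
    cases b
    · exact h
    · exact h'
  have h2 : ({v | v ∈ M ∨ v ∈ N} : Language B) =
      Subst ({z | z.take 2 ∈ ({[false], [true]} : Set (List Bool))} : Language Bool)
      (fun b : Bool => cond b N M) := by
    ext v
    constructor
    · rintro (hv | hv)
      · refine ⟨[false], ?_, [v], List.Forall₂.cons hv List.Forall₂.nil, by simp⟩
        exact Or.inl rfl
      · refine ⟨[true], ?_, [v], List.Forall₂.cons hv List.Forall₂.nil, by simp⟩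
        exact Or.inr rfl
    · rintro ⟨u, hu, vs, hvs, rfl⟩
      have hu' : u = [false] ∨ u = [true] := by
        rcases u with _ | ⟨a, _ | ⟨b, u⟩⟩
        · rcases hu with hu | hu <;> simp at hu
        · rcases hu with hu | hu
          · left; simpa using hu
          · right; simpa using hu
        · rcases hu with hu | hu <;> simp at hu
      rcases hu' with rfl | rfl
      · cases hvs with
        | cons h1 h2 =>
          cases h2
          left
          simpa using h1
      · cases hvs with
        | cons h1 h2 =>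
          cases h2
          right
          simpa using h1
  rw [h2]
  exact h1

theorem QRat.append {M N : Language B} (h : QRat M) (h' : QRat N) :
    QRat ({w | ∃ u ∈ M, ∃ v ∈ N, w = u ++ v} : Language B) := by
  have h1 : QRat (Subst ({z | z.take 3 ∈ ({[false, true]} : Set (List Bool))} : Language Bool)
      (fun b : Bool => cond b N M)) := by
    refine SubCl.subst inferInstance inferInstance c8_one ?_
    intro b
    cases b
    · exact h
    · exact h'
  have h2 : ({w | ∃ u ∈ M, ∃ v ∈ N, w = u ++ v} : Language B) =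
      Subst ({z | z.take 3 ∈ ({[false, true]} : Set (List Bool))} : Language Bool)
      (fun b : Bool => cond b N M) := by
    ext w
    constructor
    · rintro ⟨u, hu, v, hv, rfl⟩
      refine ⟨[false, true], rfl, [u, v],
        List.Forall₂.cons hu (List.Forall₂.cons hv List.Forall₂.nil), by simp⟩
    · rintro ⟨u, hu, vs, hvs, rfl⟩
      have hu0 : u.take 3 = [false, true] := hu
      have hu' : u = [false, true] := by
        clear hu hvs
        rcases u with _ | ⟨a, _ | ⟨b, _ | ⟨c, u⟩⟩⟩
        · simp at hu0
        · simp at hu0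
        · simpa using hu0
        · simp at hu0
      subst hu'
      cases hvs with
      | cons h1 h2 =>
        cases h2 with
        | cons h2 h3 =>
          cases h3
          exact ⟨_, h1, _, h2, by simp⟩
  rw [h2]
  exact h1

/-- Surroundings `u`, `v` with matching brackets of one generator. -/
def ParW (i : ℕ) (u v : List ℕ) : Prop :=
  (∀ a ∈ u, lv a = none ∨ lv a = some (i, true)) ∧
  (∀ a ∈ v, lv a = none ∨ lv a = some (i, false)) ∧
  (u.filterMap lv).length = (v.filterMap lv).length

private theorem c8_le {a i : ℕ} {b : Bool} (h : lv a = some (i, b)) : i ≤ a := by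
  unfold lv at h
  split_ifs at h with h1 h2
  · simp only [Option.some.injEq, Prod.mk.injEq] at h
    omega
  · simp only [Option.some.injEq, Prod.mk.injEq] at h
    omega

private theorem c8_par_rev {i : ℕ} {u v : List ℕ} (h : ParW i u v) : ParW i u.reverse v := by
  refine ⟨?_, h.2.1, ?_⟩
  · intro a ha
    exact h.1 a (List.mem_reverse.1 ha)
  · rw [← h.2.2, List.filterMap_reverse, List.length_reverse]

/-- The elementary pairs. -/
private def c8E (K i : ℕ) (x y : List (Option (Fin K))) : Prop :=
  (∃ a b : Fin K, lv a = some (i, true) ∧ lv b = some (i, false) ∧ x = [some a] ∧ y = [some b]) ∨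
  (∃ a : Fin K, lv a = none ∧ x = [some a] ∧ y = []) ∨
  (∃ b : Fin K, lv b = none ∧ x = [] ∧ y = [some b])

private theorem c8_rr (K i : ℕ) : RR (c8E K i) := by
  have h1 : RR (fun x y : List (Option (Fin K)) =>
      ∃ c : {c : Fin K × Fin K // lv c.1 = some (i, true) ∧ lv c.2 = some (i, false)},
        x = [some c.1.1] ∧ y = [some c.1.2]) := RR.iSup fun c => RR.word _ _
  have h2 : RR (fun x y : List (Option (Fin K)) =>
      ∃ c : {c : Fin K // lv c = none}, x = [some c.1] ∧ y = []) := RR.iSup fun c => RR.word _ _
  have h3 : RR (fun x y : List (Option (Fin K)) =>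
      ∃ c : {c : Fin K // lv c = none}, x = [] ∧ y = [some c.1]) := RR.iSup fun c => RR.word _ _
  refine (h1.add (h2.add h3)).congr ?_
  intro x y
  constructor
  · rintro (⟨a, b, ha, hb, hx, hy⟩ | ⟨a, ha, hx, hy⟩ | ⟨b, hb, hx, hy⟩)
    · exact Or.inl ⟨⟨(a, b), ha, hb⟩, hx, hy⟩
    · exact Or.inr (Or.inl ⟨⟨a, ha⟩, hx, hy⟩)
    · exact Or.inr (Or.inr ⟨⟨b, hb⟩, hx, hy⟩)
  · rintro (⟨⟨⟨a, b⟩, ha, hb⟩, hx, hy⟩ | ⟨⟨a, ha⟩, hx, hy⟩ | ⟨⟨b, hb⟩, hx, hy⟩)
    · exact Or.inl ⟨a, b, ha, hb, hx, hy⟩
    · exact Or.inr (Or.inl ⟨a, ha, hx, hy⟩)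
    · exact Or.inr (Or.inr ⟨b, hb, hx, hy⟩)

private theorem c8_star_sound {K i : ℕ} {x y : List (Option (Fin K))}
    (h : Star (c8E K i) x y) : ∃ u v : List (Fin K), ParW i (u.map Fin.val) (v.map Fin.val) ∧
      x = u.map some ∧ y = v.map some := by
  induction h with
  | nil => exact ⟨[], [], ⟨by simp, by simp, rfl⟩, rfl, rfl⟩
  | cons h1 _ ih =>
    obtain ⟨u, v, ⟨p1, p2, p3⟩, rfl, rfl⟩ := ih
    rcases h1 with ⟨a, b, ha, hb, rfl, rfl⟩ | ⟨a, ha, rfl, rfl⟩ | ⟨b, hb, rfl, rfl⟩
    · refine ⟨a :: u, b :: v, ⟨?_, ?_, ?_⟩, rfl, rfl⟩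
      · intro c hc
        rcases List.mem_cons.1 hc with rfl | hc
        · exact Or.inr ha
        · exact p1 c hc
      · intro c hc
        rcases List.mem_cons.1 hc with rfl | hc
        · exact Or.inr hb
        · exact p2 c hc
      · rw [List.map_cons, List.map_cons, List.filterMap_cons_some ha, List.filterMap_cons_some hb,
          List.length_cons, List.length_cons, p3]
    · refine ⟨a :: u, v, ⟨?_, p2, ?_⟩, rfl, rfl⟩
      · intro c hc
        rcases List.mem_cons.1 hc with rfl | hc
        · exact Or.inl ha
        · exact p1 c hc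
      · rw [List.map_cons, List.filterMap_cons_none ha, p3]
    · refine ⟨u, b :: v, ⟨p1, ?_, ?_⟩, rfl, rfl⟩
      · intro c hc
        rcases List.mem_cons.1 hc with rfl | hc
        · exact Or.inl hb
        · exact p2 c hc
      · rw [List.map_cons, List.filterMap_cons_none hb, p3]

private theorem c8_star_nil {K i : ℕ} : ∀ v : List (Fin K),
    ParW i [] (v.map Fin.val) → Star (c8E K i) [] (v.map some)
  | [], _ => Star.nil
  | b :: v, ⟨p1, p2, p3⟩ => by
    rcases p2 b (by simp) with hb | hb
    · have ih := c8_star_nil v ⟨p1, fun c hc => p2 c (by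
        rw [List.map_cons]; exact List.mem_cons_of_mem _ hc), by
          rw [p3, List.map_cons, List.filterMap_cons_none hb]⟩
      have := Star.cons (ρ := c8E K i) (u := []) (v := [some b]) (Or.inr (Or.inr ⟨b, hb, rfl, rfl⟩))
        ih
      simpa using this
    · rw [List.map_cons, List.filterMap_cons_some hb] at p3
      simp at p3

private theorem c8_star_complete {K i : ℕ} : ∀ u v : List (Fin K),
    ParW i (u.map Fin.val) (v.map Fin.val) → Star (c8E K i) (u.map some) (v.map some)
  | [], v, h => c8_star_nil v h
  | a :: u, v, ⟨p1, p2, p3⟩ => by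
    have p1' : ∀ c ∈ u.map Fin.val, lv c = none ∨ lv c = some (i, true) := fun c hc => p1 c (by
      rw [List.map_cons]; exact List.mem_cons_of_mem _ hc)
    rcases p1 a (by simp) with ha | ha
    · have ih := c8_star_complete u v ⟨p1', p2, by
        rw [← p3, List.map_cons, List.filterMap_cons_none ha]⟩
      have := Star.cons (ρ := c8E K i) (u := [some a]) (v := [])
        (Or.inr (Or.inl ⟨a, ha, rfl, rfl⟩)) ih
      simpa using this
    · -- find the partner in `v`
      induction v with
      | nil =>
        rw [List.map_cons, List.filterMap_cons_some ha] at p3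
        simp at p3
      | cons b v ihv =>
        have p2' : ∀ c ∈ v.map Fin.val, lv c = none ∨ lv c = some (i, false) := fun c hc =>
          p2 c (by rw [List.map_cons]; exact List.mem_cons_of_mem _ hc)
        rcases p2 b (by simp) with hb | hb
        · have ih := ihv p2' (by rw [p3, List.map_cons, List.filterMap_cons_none hb])
          have := Star.cons (ρ := c8E K i) (u := []) (v := [some b])
            (Or.inr (Or.inr ⟨b, hb, rfl, rfl⟩)) ih
          simpa using this
        · have ih := c8_star_complete u v ⟨p1', p2', by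
            rw [List.map_cons, List.map_cons, List.filterMap_cons_some ha,
              List.filterMap_cons_some hb, List.length_cons, List.length_cons] at p3
            omega⟩
          have := Star.cons (ρ := c8E K i) (u := [some a]) (v := [some b])
            (Or.inl ⟨a, b, ha, hb, rfl, rfl⟩) ih
          simpa using this

/-- The frames. -/
private def c8P (K : ℕ) : Language (Option (Fin K)) :=
  {w | ∃ (i : ℕ) (u v : List (Fin K)), ParW i (u.map Fin.val) (v.map Fin.val) ∧
    w = u.map some ++ none :: v.map some}

private theorem c8_bound {K i : ℕ} {u v : List (Fin K)}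
    (h : ParW i (u.map Fin.val) (v.map Fin.val)) :
    ∃ j : Fin (K + 1), ParW j (u.map Fin.val) (v.map Fin.val) := by
  by_cases hi : i < K + 1
  · exact ⟨⟨i, hi⟩, h⟩
  · obtain ⟨p1, p2, p3⟩ := h
    refine ⟨0, ?_, ?_, p3⟩
    · intro a ha
      rcases p1 a ha with h | h
      · exact Or.inl h
      · exfalso
        have h1 := c8_le h
        obtain ⟨c, _, rfl⟩ := List.mem_map.1 ha
        have := c.2
        omega
    · intro a ha
      rcases p2 a ha with h | h
      · exact Or.inl h
      · exfalso
        have h1 := c8_le h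
        obtain ⟨c, _, rfl⟩ := List.mem_map.1 ha
        have := c.2
        omega

private theorem c8P_qrat (K : ℕ) : QRat (c8P K) := by
  apply QRat.of_lin
  have h1 : RR (fun x y : List (Option (Fin K)) => ∃ i : Fin (K + 1),
      ∃ u₁ u₂ v₁ v₂, x = u₁ ++ u₂ ∧ y = v₁ ++ v₂ ∧ (u₁ = [] ∧ v₁ = [none]) ∧
        Star (c8E K i) u₂ v₂) :=
    RR.iSup fun i => RR.mul (RR.word _ _) (RR.star (c8_rr K i))
  have h2 := dom_lin_of_rr h1
  have h3 : c8P K = ({w | ∃ u v, (∃ i : Fin (K + 1),
      ∃ u₁ u₂ v₁ v₂, u = u₁ ++ u₂ ∧ v = v₁ ++ v₂ ∧ (u₁ = [] ∧ v₁ = [none]) ∧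
        Star (c8E K i) u₂ v₂) ∧ w = u.reverse ++ v} : Language (Option (Fin K))) := by
    ext w
    constructor
    · rintro ⟨i, u, v, hp, rfl⟩
      obtain ⟨j, hj⟩ := c8_bound hp
      have hj' := c8_par_rev hj
      rw [← List.map_reverse] at hj'
      have hs := c8_star_complete u.reverse v hj'
      refine ⟨u.reverse.map some, none :: v.map some,
        ⟨j, [], u.reverse.map some, [none], v.map some, rfl, rfl, ⟨rfl, rfl⟩, hs⟩, ?_⟩
      rw [List.map_reverse, List.reverse_reverse]
    · rintro ⟨x, y, ⟨i, _, u₂, _, v₂, rfl, rfl, ⟨rfl, rfl⟩, hs⟩, rfl⟩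
      obtain ⟨u, v, hp, rfl, rfl⟩ := c8_star_sound hs
      have hp' := c8_par_rev hp
      rw [← List.map_reverse] at hp'
      refine ⟨i, u.reverse, v, hp', ?_⟩
      rw [List.map_reverse]
      rfl
  rw [h3]
  exact h2

private theorem c8_forall₂_append {α β : Type} {R : α → β → Prop} :
    ∀ {l₁ l₂ : List α} {vs : List β}, List.Forall₂ R (l₁ ++ l₂) vs →
      ∃ v₁ v₂, vs = v₁ ++ v₂ ∧ List.Forall₂ R l₁ v₁ ∧ List.Forall₂ R l₂ v₂
  | [], l₂, vs, h => ⟨[], vs, rfl, List.Forall₂.nil, h⟩
  | a :: l₁, l₂, vs, h => by
    cases h with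
    | cons h1 h2 =>
      obtain ⟨v₁, v₂, rfl, h3, h4⟩ := c8_forall₂_append h2
      exact ⟨_ :: v₁, v₂, rfl, List.Forall₂.cons h1 h3, h4⟩

/-- The substitution. -/
private def c8f {K : ℕ} (M : Language (Fin K)) : Option (Fin K) → Language (Fin K)
  | none => M
  | some a => ({z | z = [a]} : Language (Fin K))

private theorem c8_flat {K : ℕ} {M : Language (Fin K)} : ∀ {u : List (Fin K)}
    {vs : List (List (Fin K))}, List.Forall₂ (fun a v => v ∈ c8f M a) (u.map some) vs →
      vs.flatten = u
  | [], vs, h => by
    cases h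
    rfl
  | a :: u, vs, h => by
    cases h with
    | cons h1 h2 =>
      have h3 : _ = [a] := h1
      rw [List.flatten_cons, h3, c8_flat h2]
      rfl

private theorem c8_flat' {K : ℕ} {M : Language (Fin K)} (u : List (Fin K)) :
    List.Forall₂ (fun a v => v ∈ c8f M a) (u.map some) (u.map fun a => [a]) := by
  induction u with
  | nil => exact List.Forall₂.nil
  | cons a u ih => exact List.Forall₂.cons rfl ih

private theorem c8_flat'' {K : ℕ} (u : List (Fin K)) : (u.map fun a => [a]).flatten = u := by
  induction u with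
  | nil => rfl
  | cons a u ih => rw [List.map_cons, List.flatten_cons, ih]; rfl

theorem QRat.par {K : ℕ} {M : Language (Fin K)} (h : QRat M) :
    QRat ({w | ∃ i u m v, ParW i (u.map Fin.val) (v.map Fin.val) ∧ m ∈ M ∧ w = u ++ m ++ v} :
      Language (Fin K)) := by
  have h1 : QRat (Subst (c8P K) (c8f M)) := by
    refine SubCl.subst inferInstance inferInstance (c8P_qrat K) ?_
    intro a
    cases a with
    | none => exact h
    | some a =>
      have h2 : QRat ({z | z.take 2 ∈ ({[a]} : Set (List (Fin K)))} : Language (Fin K)) :=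
        QRat.regular (isRegular_take 2 _)
      have h3 : c8f M (some a) =
          ({z | z.take 2 ∈ ({[a]} : Set (List (Fin K)))} : Language (Fin K)) := by
        ext z
        constructor
        · intro hz
          have hz' : z = [a] := hz
          rw [hz']
          rfl
        · intro hz
          have hz' : z.take 2 = [a] := hz
          change z = [a]
          rcases z with _ | ⟨b, _ | ⟨c, z⟩⟩
          · simp at hz'
          · simpa using hz'
          · simp at hz'
      rw [h3]
      exact h2
  have h2 : ({w | ∃ i u m v, ParW i (u.map Fin.val) (v.map Fin.val) ∧ m ∈ M ∧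
      w = u ++ m ++ v} : Language (Fin K)) = Subst (c8P K) (c8f M) := by
    ext w
    constructor
    · rintro ⟨i, u, m, v, hp, hm, rfl⟩
      refine ⟨u.map some ++ none :: v.map some, ⟨i, u, v, hp, rfl⟩,
        (u.map fun a => [a]) ++ m :: (v.map fun a => [a]), ?_, ?_⟩
      · exact List.rel_append (c8_flat' u) (List.Forall₂.cons hm (c8_flat' v))
      · rw [List.flatten_append, List.flatten_cons, c8_flat'', c8_flat'', List.append_assoc]
    · rintro ⟨z, ⟨i, u, v, hp, rfl⟩, vs, hvs, rfl⟩
      obtain ⟨v₁, v₂, rfl, h3, h4⟩ := c8_forall₂_append hvs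
      cases h4 with
      | cons h5 h6 =>
        refine ⟨i, u, _, v, hp, h5, ?_⟩
        rw [List.flatten_append, List.flatten_cons, c8_flat h3, c8_flat h6, List.append_assoc]
  rw [h2]
  exact h1

end Pool.Agent.NGP
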