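import Pool.Agent.NGP.V2

/-!
# NGP, part C: counting brackets in Dyck words
-/

namespace Pool.Agent.NGP

theorem stk_count (i : ℕ) : ∀ {w s t : List ℕ}, stk s w = some t →
    (w.filterMap lv).count (i, true) + s.count i =
      (w.filterMap lv).count (i, false) + t.count i := by
  intro w
  induction w with
  | nil =>
    intro s t h
    simp only [stk, Option.some.injEq] at h
    subst h
    simp
  | cons a w ih =>
    intro s t h
    rcases hl : lv a with _ | ⟨j, b⟩
    · have h' : stk s w = some t := by
        simpa [stk, hl] using h
      simpa [hl] using ih h'
    · cases b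
      · rcases s with _ | ⟨k, s⟩
        · simp [stk, hl] at h
        · simp only [stk, hl] at h
          split_ifs at h with hk
          have := ih h
          rw [List.filterMap_cons_some hl, List.count_cons, List.count_cons]
          subst hk
          by_cases hi : k = i
          · subst hi
            simp
            omega
          · simp [hi]
            omega
      · have h' : stk (j :: s) w = some t := by
          simpa [stk, hl] using h
        have := ih h'
        rw [List.filterMap_cons_some hl, List.count_cons]
        rw [List.count_cons] at this
        by_cases hi : j = i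
        · subst hi
          simp at this ⊢
          omega
        · rw [List.count_cons]
          simp [hi] at this ⊢
          omega

theorem lv_P1 (i j : ℕ) : (P1 i j).filterMap lv =
    List.replicate (i + 1) (0, true) ++ List.replicate (j + 1) (0, false) := by
  have h3 : lv 3 = some (0, true) := rfl
  have h5 : lv 5 = some (0, false) := rfl
  have e1 : (List.replicate i 3).filterMap lv = List.replicate i (0, true) := by
    induction i with
    | zero => rfl
    | succ i ih => rw [List.replicate_succ, List.filterMap_cons_some h3, ih]; rfl
  have e2 : (List.replicate j 5).filterMap lv = List.replicate j (0, false) := by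
    induction j with
    | zero => rfl
    | succ i ih => rw [List.replicate_succ, List.filterMap_cons_some h5, ih]; rfl
  unfold P1
  rw [List.cons_append, List.filterMap_cons_some (show lv 2 = some (0, true) from rfl),
    List.filterMap_append, e1, List.filterMap_cons_some (show lv 4 = some (0, false) from rfl), e2]
  rfl

theorem lv_P2 (i j : ℕ) : (P2 i j).filterMap lv =
    List.replicate (i + 1) (1, true) ++ List.replicate (j + 1) (1, false) := by
  have h3 : lv 7 = some (1, true) := rfl
  have h5 : lv 9 = some (1, false) := rfl
  have e1 : (List.replicate i 7).filterMap lv = List.replicate i (1, true) := by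
    induction i with
    | zero => rfl
    | succ i ih => rw [List.replicate_succ, List.filterMap_cons_some h3, ih]; rfl
  have e2 : (List.replicate j 9).filterMap lv = List.replicate j (1, false) := by
    induction j with
    | zero => rfl
    | succ i ih => rw [List.replicate_succ, List.filterMap_cons_some h5, ih]; rfl
  unfold P2
  rw [List.cons_append, List.filterMap_cons_some (show lv 6 = some (1, true) from rfl),
    List.filterMap_append, e1, List.filterMap_cons_some (show lv 8 = some (1, false) from rfl), e2]
  rfl

theorem lv_mid {m : List ℕ} (hm : ∀ a ∈ m, a < 2 ∨ 10 ≤ a) {i : ℕ} (hi : i < 2) (b : Bool) :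
    (m.filterMap lv).count (i, b) = 0 := by
  rw [List.count_eq_zero]
  intro h
  rw [List.mem_filterMap] at h
  obtain ⟨a, ha, h⟩ := h
  rcases hm a ha with h1 | h1
  · simp [lv, h1] at h
  · have h2 : ¬ a < 2 := by omega
    have h3 : ¬ a < 10 := by omega
    simp only [lv, h2, h3, if_false, Option.some.injEq, Prod.mk.injEq] at h
    omega

theorem dyck_ends {i₁ j₁ i₂ j₂ : ℕ} {m : List ℕ} (hm : ∀ a ∈ m, a < 2 ∨ 10 ≤ a)
    (h : Dyck (P1 i₁ j₁ ++ m ++ P2 i₂ j₂)) : i₁ = j₁ ∧ i₂ = j₂ := by
  have h0 := stk_count 0 h
  have h1 := stk_count 1 h
  simp only [List.filterMap_append, lv_P1, lv_P2, List.count_append,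
    lv_mid hm (show 0 < 2 by omega), lv_mid hm (show 1 < 2 by omega), List.count_replicate] at h0 h1
  simp at h0 h1
  omega

end Pool.Agent.NGP
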