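import Pool.Agent.NGP.C3
import Pool.Agent.NGP.C4
import Pool.Agent.NGP.C6
import Pool.Agent.NGP.C11
import Pool.Agent.NGP.CCount

/-!
# NGP, part C: acyclic systems give context-free non-generators (lead: helper79)

See section C of `PROOF.md`.
-/

namespace Pool.Agent.NGP

open Pool.Agent.H93NG

theorem Fm.lw {g : ℕ} {w : List ℕ} (h : Fm g w) : Lw w := by
  obtain ⟨i₁, j₁, m, i₂, j₂, rfl, -⟩ := h
  right
  refine ⟨2, List.replicate i₁ 3 ++ 4 :: List.replicate j₁ 5 ++ m ++ P2 i₂ j₂, ?_, by simp [lh]⟩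
  simp [P1]

/-- Garbage words over the finite alphabet. -/
def KKt (g : ℕ) (q : ℕ → ℕ → ℕ → ℕ → Bool) : Language (Fin (10 + 8 * (g + 1))) :=
  {v | Fm g (v.map Fin.val) ∧ KK q (cells (v.map Fin.val))}

theorem dom_congrN {A B : Type} {L : Language A} {M N : Language B} (h : Dom L M)
    (e : ∀ v, v ∈ N ↔ v ∈ M) : Dom L N := by
  have : N = M := Set.ext e
  rw [this]
  exact h

theorem dom_kkt (g : ℕ) (q : ℕ → ℕ → ℕ → ℕ → Bool) : Dom Lin2 (KKt g q) := by
  have h := dom_inter_regular (Dom.union (dom_keL (10 + 8 * (g + 1)))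
    (Dom.union (dom_keR (10 + 8 * (g + 1))) (dom_kp (10 + 8 * (g + 1)) q))) (isRegular_fm g)
  refine dom_congrN h fun v => ?_
  constructor
  · rintro ⟨h1, h2⟩
    refine ⟨?_, h1⟩
    rcases h2 with h2 | h2 | h2
    · exact Or.inl ⟨h1.lw, h2⟩
    · exact Or.inr (Or.inl ⟨h1.lw, h2⟩)
    · exact Or.inr (Or.inr ⟨h1.lw, h2⟩)
  · rintro ⟨h2, h1⟩
    refine ⟨h1, ?_⟩
    rcases h2 with h2 | h2 | h2
    · exact Or.inl h2.2
    · exact Or.inr (Or.inl h2.2)
    · exact Or.inr (Or.inr h2.2)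

theorem lq_cf (g : ℕ) (q : ℕ → ℕ → ℕ → ℕ → Bool) : (LQt g q).IsContextFree := by
  apply isContextFree_of_dom
  have h1 : Dom Dyck2 (KKt g q) :=
    Dom.trans (dom_of_isContextFree lin2_isContextFree) (dom_kkt g q)
  have h2 := dom_inter_regular (dom_dyckN (10 + 8 * (g + 1))) (isRegular_fm g)
  refine dom_congrN (Dom.union h2 h1) fun v => ?_
  constructor
  · rintro ⟨h1, h2 | h2⟩
    · exact Or.inl ⟨h2, h1⟩
    · exact Or.inr ⟨h1, h2⟩
  · rintro (⟨h2, h1⟩ | ⟨h1, h2⟩)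
    · exact ⟨h1, Or.inl h2⟩
    · exact ⟨h1, Or.inr h2⟩

theorem lq_nongen {g : ℕ} {q : ℕ → ℕ → ℕ → ℕ → Bool} (h : Acyc g q) : NonGen (LQt g q) := by
  rw [nonGen_iff]
  intro hD
  obtain ⟨σ, hσ, δ, s, f, hT⟩ := tdom_of_dom hD
  have hT' : ∀ u v, u ∈ LQt g q → Path δ s u v f → v ∈ Dyck2 :=
    fun u v hu hp => (hT v).2 ⟨u, hu, hp⟩
  have hq1 : QRat ({u | u ∈ E1 g (Nat.card σ) ∨ u ∈ KKt g q} :
      Language (Fin (10 + 8 * (g + 1)))) := QRat.union (qRat_E1 _ _) (QRat.of_lin (dom_kkt g q))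
  have hsplit : ∀ v, v ∈ Dyck2 ↔ v ∈ ({v | ∃ u, u ∈ ({u | u ∈ E1 g (Nat.card σ) ∨
      u ∈ KKt g q} : Language (Fin (10 + 8 * (g + 1)))) ∧ Path δ s u v f} :
        Language (Bool × Bool)) ∨
      v ∈ ({v | ∃ u, u ∈ E2 g (Nat.card σ) ∧ Path δ s u v f} : Language (Bool × Bool)) := by
    intro v
    constructor
    · intro hv
      obtain ⟨u, hu, hp⟩ := (hT v).1 hv
      obtain ⟨h1, h2⟩ := hu
      rcases h2 with h2 | h2
      · by_cases hc : (u.map Fin.val).count 0 ≤ Nat.card σ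
        · exact Or.inl ⟨u, Or.inl ⟨h1, hc, h2⟩, hp⟩
        · right
          refine ⟨u, ?_, hp⟩
          obtain ⟨i₁, j₁, m, i₂, j₂, he, hm⟩ := h1
          rw [he] at h2 hc
          have hm' : ∀ a ∈ m, a < 2 ∨ 10 ≤ a := by
            intro a ha
            rcases hm.2.1 a ha with h | h
            · exact Or.inl h
            · exact Or.inr h.1
          obtain ⟨rfl, rfl⟩ := dyck_ends hm' h2
          refine ⟨i₁, i₂, m, he, hm, ?_⟩
          have c1 : (P1 i₁ i₁).count 0 = 0 := by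
            rw [List.count_eq_zero]
            simp [P1]
          have c2 : (P2 i₂ i₂).count 0 = 0 := by
            rw [List.count_eq_zero]
            simp [P2]
          rw [List.count_append, List.count_append, c1, c2] at hc
          omega
      · exact Or.inl ⟨u, Or.inr ⟨h1, h2⟩, hp⟩
    · rintro (⟨u, hu, hp⟩ | ⟨u, hu, hp⟩)
      · rcases hu with hu | hu
        · exact hT' u v ⟨hu.1, Or.inl hu.2.2⟩ hp
        · exact hT' u v ⟨hu.1, Or.inr hu.2⟩ hp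
      · exact c_pump h hT' hu hp
  rcases dyck_split hsplit with h2 | h2
  · exact hq1.not_dom (Dom.trans (dom_of_tdom ⟨σ, hσ, δ, s, f, fun v => Iff.rfl⟩) h2)
  · exact (qRat_E2 g (Nat.card σ)).not_dom
      (Dom.trans (dom_of_tdom ⟨σ, hσ, δ, s, f, fun v => Iff.rfl⟩) h2)

end Pool.Agent.NGP
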