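import Pool.Agent.NGP.DDefs

/-!
# NGP, part D1: trees whose loops have trivial effect have bounded values

`has_deep`: induction on `τ`: if one child has type `t`, use the induction hypothesis (context
`left` or `right`); otherwise the root itself.
`Lpeq.sub`: `Lp σ c' d ρ` gives `Lp (c.fill σ) (c.comp c') d ρ` (`Cx.fill_comp`).
`lpeq_nm`: induction on `k`. `k = 0`: `S = ∅`, but `τ.has τ.ty`. `k + 1`: `has_deep` for
`t = τ.ty` gives `τ = c.fill σ` with `σ.ty = τ.ty`; `Lp τ hole c σ`, so `nm τ.y = nm σ.y`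
(`nm_congr`). If `σ` is `ep`, `lf`: `nm ≤ 1` (`nm_le_length`). If `σ = nd t l r` and `t` does not
occur in `l`, `r`: the types of `l`, `r` are in `S.erase t`, `nm (l.y ++ r.y) ≤ nm l.y + nm r.y`
(`nm_append_le`).
`lpeq_bdd`: induction on `τ` generalised to: `τ.ok G → Lpeq τ → bdd (2 ^ G.N) τ`; the types are
`< G.N` (`Tr.ty_lt`), use `lpeq_nm` with `S = Finset.range G.N`.
-/

namespace Pool.Agent.NGP

theorem Tr.has_ty (τ : Tr) : τ.has τ.ty := by
  cases τ with
  | ep s => exact rfl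
  | lf s a => exact rfl
  | nd s l r => exact Or.inl rfl

theorem has_fill {t : ℕ} {c : Cx} {σ : Tr} (h : σ.has t) : (c.fill σ).has t := by
  induction c with
  | hole => exact h
  | left s c r ih => exact Or.inr (Or.inl ih)
  | right s l c ih => exact Or.inr (Or.inr ih)

theorem has_lt {G : EG} {τ : Tr} {t : ℕ} (hok : τ.ok G) (h : τ.has t) : t < G.N := by
  induction τ with
  | ep s =>
    have h1 : s = t := h
    rw [← h1]
    exact hok.1
  | lf s a =>
    have h1 : s = t := h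
    rw [← h1]
    exact hok.1
  | nd s l r ihl ihr =>
    rcases h with h | h | h
    · rw [← h]
      exact hok.1
    · exact ihl hok.2.2.1 h
    · exact ihr hok.2.2.2 h

/-- A deepest node of type `t`. -/
theorem has_deep {t : ℕ} {τ : Tr} (h : τ.has t) : ∃ c σ, τ = Cx.fill c σ ∧ σ.ty = t ∧
    ∀ s l r, σ = Tr.nd s l r → ¬ l.has t ∧ ¬ r.has t := by
  induction τ with
  | ep s =>
    exact ⟨Cx.hole, Tr.ep s, rfl, h, fun _ _ _ h' => Tr.noConfusion h'⟩
  | lf s a =>
    exact ⟨Cx.hole, Tr.lf s a, rfl, h, fun _ _ _ h' => Tr.noConfusion h'⟩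
  | nd s l r ihl ihr =>
    by_cases hl : l.has t
    · obtain ⟨c, σ, h1, h2, h3⟩ := ihl hl
      refine ⟨Cx.left s c r, σ, ?_, h2, h3⟩
      rw [Cx.fill, ← h1]
    · by_cases hr : r.has t
      · obtain ⟨c, σ, h1, h2, h3⟩ := ihr hr
        refine ⟨Cx.right s l c, σ, ?_, h2, h3⟩
        rw [Cx.fill, ← h1]
      · rcases h with h | h | h
        · refine ⟨Cx.hole, Tr.nd s l r, rfl, h, fun s' l' r' h' => ?_⟩
          injection h' with h1 h2 h3
          rw [← h2, ← h3]
          exact ⟨hl, hr⟩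
        · exact absurd h hl
        · exact absurd h hr

theorem Lpeq.sub {c : Cx} {σ : Tr} (h : Lpeq (c.fill σ)) : Lpeq σ := by
  intro c' d ρ hL
  refine h (c.comp c') d ρ ⟨?_, hL.2⟩
  rw [Cx.fill_comp, ← hL.1]

private theorem D1_left {s : ℕ} {l r : Tr} (h : Lpeq (Tr.nd s l r)) : Lpeq l :=
  Lpeq.sub (c := Cx.left s Cx.hole r) h

private theorem D1_right {s : ℕ} {l r : Tr} (h : Lpeq (Tr.nd s l r)) : Lpeq r :=
  Lpeq.sub (c := Cx.right s l Cx.hole) h

theorem lpeq_nm (k : ℕ) : ∀ (S : Finset ℕ), S.card ≤ k → ∀ τ : Tr, (∀ t, τ.has t → t ∈ S) →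
    Lpeq τ → nm τ.y ≤ 2 ^ k := by
  induction k with
  | zero =>
    intro S hS τ hτ _
    have h1 := hτ _ τ.has_ty
    rw [Nat.le_zero, Finset.card_eq_zero] at hS
    rw [hS] at h1
    exact absurd h1 (Finset.notMem_empty _)
  | succ k ih =>
    intro S hS τ hτ hL
    obtain ⟨c, σ, h1, h2, h3⟩ := has_deep τ.has_ty
    have hmem := hτ _ τ.has_ty
    have hfv : fv τ.y = fv σ.y := by
      have h4 := hL Cx.hole c σ ⟨h1, by rw [← h1, h2]⟩
      rw [← h1] at h4
      exact h4
    rw [nm_congr hfv]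
    have hLσ : Lpeq σ := by
      rw [h1] at hL
      exact hL.sub
    have hhas : ∀ u, σ.has u → u ∈ S := by
      intro u hu
      apply hτ
      rw [h1]
      exact has_fill hu
    have hpow : 1 ≤ 2 ^ (k + 1) := Nat.one_le_two_pow
    cases σ with
    | ep s =>
      refine (nm_le_length _).trans ?_
      exact Nat.zero_le _
    | lf s a =>
      refine (nm_le_length _).trans ?_
      exact hpow
    | nd s l r =>
      obtain ⟨hl, hr⟩ := h3 s l r rfl
      have hcard : (S.erase τ.ty).card ≤ k := by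
        rw [Finset.card_erase_of_mem hmem]
        omega
      have e1 := ih (S.erase τ.ty) hcard l (fun u hu => Finset.mem_erase.2
        ⟨fun h => hl (h ▸ hu), hhas u (Or.inr (Or.inl hu))⟩) (D1_left hLσ)
      have e2 := ih (S.erase τ.ty) hcard r (fun u hu => Finset.mem_erase.2
        ⟨fun h => hr (h ▸ hu), hhas u (Or.inr (Or.inr hu))⟩) (D1_right hLσ)
      have e3 : nm (Tr.nd s l r).y ≤ nm l.y + nm r.y := nm_append_le l.y r.y
      have e4 : 2 ^ (k + 1) = 2 ^ k + 2 ^ k := by ring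
      omega

/-- (D1) -/
theorem lpeq_bdd {G : EG} {τ : Tr} (hok : τ.ok G) (h : Lpeq τ) : bdd (2 ^ G.N) τ := by
  have key : ∀ τ : Tr, τ.ok G → Lpeq τ → nm τ.y ≤ 2 ^ G.N := fun τ hok h =>
    lpeq_nm G.N (Finset.range G.N) (by rw [Finset.card_range]) τ
      (fun t ht => Finset.mem_range.2 (has_lt hok ht)) h
  induction τ with
  | ep s => exact trivial
  | lf s a => exact key (Tr.lf s a) hok h
  | nd s l r ihl ihr =>
    exact ⟨key (Tr.nd s l r) hok h, ihl hok.2.2.1 (D1_left h), ihr hok.2.2.2 (D1_right h)⟩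

end Pool.Agent.NGP
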