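import Pool.Agent.NGP.DDefs

/-!
# NGP, part D6: geometry of bounded trees (D4 of PROOF.md)

`hgt_of`: from the definition. `hgt_opn`: `stk s o = some (t ++ s)` with `t.length = o.length`.
`hgt_clo`: if `stk [] (w ++ o') = some r` with closing letters `o'`, then
`r.length + o'.length = (stack after w).length`.
`node_of`: there is a smallest node containing `y`: induction on `σ`, statement: if
`σ.y = U ++ y ++ V`, `2 ≤ y.length`, there are `C, t, l, r, U', V', y₁, y₂` with
`σ = C.fill (nd t l r)`, `U = C.pre ++ U'`, `V = V' ++ C.post`, `l.y = U' ++ y₁`, `r.y = y₂ ++ V'`,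
`y = y₁ ++ y₂`, `y₁ ≠ []`, `y₂ ≠ []`. (`ep`, `lf` have yields of length `≤ 1`; for `nd t l r` compare
`l.y.length` with `U.length` and `U.length + y.length`.)
`d_geo`: take this node. If `U'.length ≥ c + 1`: `o` is a suffix of `U'`: `U' = U₀ ++ o`,
`x₀ = C.pre ++ U₀`. `Geo` for `(C.pre, U₀, o ++ y₁)` and for `(C.pre, [], U' ++ y₁)`:
`hgt C.pre + hgt (x ++ y₁) ≤ nm l.y + 2 hgt x₀`, `hgt (x ++ y₁) ≤ nm l.y + hgt C.pre`,
`hgt (x ++ y₁) ≥ hgt x = hgt x₀ + (c + 1)`, `nm l.y ≤ c`: contradiction. In the same way on the right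
with `o'`: `hgt (x ++ y) = hgt (x ++ y ++ o') + (c + 1)`, `hgt (x ++ y₁) ≥ hgt x = hgt (x ++ y)`.
-/

namespace Pool.Agent.NGP

theorem bdd_nm {c : ℕ} {τ : Tr} (h : bdd c τ) : nm τ.y ≤ c := by
  cases τ with
  | ep t => exact Nat.zero_le _
  | lf t a => exact h
  | nd t l r => exact h.1

theorem bdd_fill {c : ℕ} {C : Cx} {σ : Tr} (h : bdd c (C.fill σ)) : bdd c σ := by
  induction C with
  | hole => exact h
  | left t C r ih => exact ih h.2.1
  | right t l C ih => exact ih h.2.2

theorem hgt_of {w t : List ℕ} (h : stk [] w = some t) : hgt w = t.length := by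
  unfold hgt
  rw [h]
  rfl

private theorem stk_opn {o : List ℕ} (ho : Opn o) : ∀ s : List ℕ,
    ∃ t, stk s o = some (t ++ s) ∧ t.length = o.length := by
  induction o with
  | nil => exact fun s => ⟨[], stk_nil s, rfl⟩
  | cons a o ih =>
    intro s
    obtain ⟨i, hi⟩ := ho a List.mem_cons_self
    obtain ⟨t, h1, h2⟩ := ih (fun b hb => ho b (List.mem_cons_of_mem _ hb)) (i :: s)
    refine ⟨t ++ [i], ?_, by simp [h2]⟩
    rw [stk_cons]
    simp only [hi]
    rw [h1]
    simp

private theorem stk_clo {o : List ℕ} (ho : Clo o) : ∀ s r : List ℕ, stk s o = some r →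
    r.length + o.length = s.length := by
  induction o with
  | nil =>
    intro s r h
    rw [stk_nil, Option.some.injEq] at h
    rw [h]; rfl
  | cons a o ih =>
    intro s r h
    obtain ⟨i, hi⟩ := ho a List.mem_cons_self
    rw [stk_cons] at h
    simp only [hi] at h
    rcases s with _ | ⟨j, s⟩
    · simp at h
    · simp only at h
      split_ifs at h
      have := ih (fun b hb => ho b (List.mem_cons_of_mem _ hb)) s r h
      simp only [List.length_cons]
      omega

theorem hgt_opn {w o t : List ℕ} (h : stk [] w = some t) (ho : Opn o) :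
    hgt (w ++ o) = hgt w + o.length := by
  obtain ⟨t', h1, h2⟩ := stk_opn ho t
  have h3 : stk [] (w ++ o) = some (t' ++ t) := by
    rw [stk_append, h, Option.bind_some, h1]
  rw [hgt_of h, hgt_of h3, List.length_append, h2, Nat.add_comm]

theorem hgt_clo {w o r : List ℕ} (h : stk [] (w ++ o) = some r) (ho : Clo o) :
    hgt (w ++ o) + o.length = hgt w := by
  have h1 := h
  rw [stk_append, Option.bind_eq_some_iff] at h1
  obtain ⟨t, h2, h3⟩ := h1
  rw [hgt_of h, hgt_of h2]
  exact stk_clo ho t r h3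

/-- The height inside a Dyck factor. -/
theorem hgt_in {x y₁ y₂ t : List ℕ} (h : stk [] x = some t) (hy : stk [] (y₁ ++ y₂) = some []) :
    hgt x ≤ hgt (x ++ y₁) ∧ hgt (x ++ (y₁ ++ y₂)) = hgt x := by
  have h1 := hy
  rw [stk_append, Option.bind_eq_some_iff] at h1
  obtain ⟨s, h2, _⟩ := h1
  have h4 : stk [] (x ++ y₁) = some (s ++ t) := by
    rw [stk_append, h, Option.bind_some]
    exact stk_frame t h2
  have h5 : stk [] (x ++ (y₁ ++ y₂)) = some t := by
    rw [stk_append, h, Option.bind_some]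
    exact stk_frame t hy
  rw [hgt_of h, hgt_of h4, hgt_of h5, List.length_append]
  exact ⟨Nat.le_add_left _ _, rfl⟩

/-- The smallest node containing a factor. -/
theorem node_of : ∀ (σ : Tr) (U y V : List ℕ), σ.y = U ++ y ++ V → 2 ≤ y.length →
    ∃ (C : Cx) (t : ℕ) (l r : Tr) (U' V' y₁ y₂ : List ℕ), σ = C.fill (Tr.nd t l r) ∧
      U = C.pre ++ U' ∧ V = V' ++ C.post ∧ l.y = U' ++ y₁ ∧ r.y = y₂ ++ V' ∧ y = y₁ ++ y₂ := by
  intro σ
  induction σ with
  | ep t =>
    intro U y V h hy
    have := congrArg List.length h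
    simp only [Tr.y, List.length_nil, List.length_append] at this
    omega
  | lf t a =>
    intro U y V h hy
    have := congrArg List.length h
    simp only [Tr.y, List.length_singleton, List.length_append] at this
    omega
  | nd t l r ihl ihr =>
    intro U y V h hy
    change l.y ++ r.y = U ++ y ++ V at h
    by_cases h1 : (U ++ y).length ≤ l.y.length
    · -- inside the left tree
      obtain ⟨V₁, hl⟩ : ∃ V₁, l.y = (U ++ y) ++ V₁ := by
        rcases List.append_eq_append_iff.1 h with ⟨d, h2, h3⟩ | ⟨d, h2, h3⟩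
        · have h4 := congrArg List.length h2
          rw [List.length_append (as := l.y)] at h4
          have h5 : d = [] := List.length_eq_zero_iff.1 (by omega)
          subst h5
          exact ⟨[], by rw [h2]; simp⟩
        · exact ⟨d, h2⟩
      have hV : V = V₁ ++ r.y := by
        rw [hl, List.append_assoc (U ++ y)] at h
        exact (List.append_cancel_left h).symm
      obtain ⟨C, t', l', r', U', V', y₁, y₂, e1, e2, e3, e4, e5, e6⟩ := ihl U y V₁ hl hy
      refine ⟨Cx.left t C r, t', l', r', U', V', y₁, y₂, ?_, e2, ?_, e4, e5, e6⟩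
      · rw [Cx.fill, ← e1]
      · rw [Cx.post, hV, e3, List.append_assoc]
    · by_cases h2 : l.y.length ≤ U.length
      · -- inside the right tree
        rw [List.append_assoc] at h
        obtain ⟨U₁, hU⟩ : ∃ U₁, U = l.y ++ U₁ := by
          rcases List.append_eq_append_iff.1 h with ⟨d, h3, h4⟩ | ⟨d, h3, h4⟩
          · exact ⟨d, h3⟩
          · have h5 := congrArg List.length h3
            rw [List.length_append] at h5
            have h6 : d = [] := List.length_eq_zero_iff.1 (by omega)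
            subst h6
            exact ⟨[], by rw [h3]; simp⟩
        have hr : r.y = U₁ ++ y ++ V := by
          rw [hU, List.append_assoc] at h
          rw [List.append_cancel_left h, List.append_assoc]
        obtain ⟨C, t', l', r', U', V', y₁, y₂, e1, e2, e3, e4, e5, e6⟩ := ihr U₁ y V hr hy
        refine ⟨Cx.right t l C, t', l', r', U', V', y₁, y₂, ?_, ?_, e3, e4, e5, e6⟩
        · rw [Cx.fill, ← e1]
        · rw [Cx.pre, hU, e2, List.append_assoc]
      · -- the split point lies inside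
        rw [List.append_assoc] at h
        obtain ⟨y₁, hl⟩ : ∃ y₁, l.y = U ++ y₁ := by
          rcases List.append_eq_append_iff.1 h with ⟨d, h3, h4⟩ | ⟨d, h3, h4⟩
          · have h5 := congrArg List.length h3
            rw [List.length_append] at h5
            omega
          · exact ⟨d, h3⟩
        rw [hl, List.append_assoc] at h
        have h' := List.append_cancel_left h
        obtain ⟨y₂, hy₂⟩ : ∃ y₂, y = y₁ ++ y₂ := by
          rcases List.append_eq_append_iff.1 h' with ⟨d, h3, h4⟩ | ⟨d, h3, h4⟩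
          · exact ⟨d, h3⟩
          · have h5 := congrArg List.length h3
            have h6 := congrArg List.length hl
            rw [List.length_append] at h5 h6
            rw [List.length_append] at h1
            omega
        refine ⟨Cx.hole, t, l, r, U, V, y₁, y₂, rfl, rfl, by simp [Cx.post], hl, ?_, hy₂⟩
        rw [hy₂, List.append_assoc] at h'
        exact List.append_cancel_left h'

/-- (D4) -/
theorem d_geo {c : ℕ} {x y z x₀ o o' z₀ : List ℕ} {τ : Tr} (hτ : τ.y = x ++ y ++ z)
    (hb : bdd c τ) (hgeo : Geo (x ++ y ++ z)) (hread : stk [] (x ++ y ++ z) = some [])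
    (hy : 2 ≤ y.length) (hyd : stk [] y = some []) (hx : x = x₀ ++ o) (ho : Opn o)
    (hol : o.length = c + 1) (hz : z = o' ++ z₀) (ho' : Clo o') (hol' : o'.length = c + 1) :
    ∃ (C : Cx) (σ : Tr) (U V : List ℕ), τ = C.fill σ ∧ x = C.pre ++ U ∧ z = V ++ C.post ∧
      σ.y = U ++ y ++ V ∧ U.length ≤ c ∧ V.length ≤ c := by
  obtain ⟨C, t, l, r, U, V, y₁, y₂, e1, e2, e3, e4, e5, e6⟩ := node_of τ x y z hτ hy
  have hbn : bdd c (Tr.nd t l r) := bdd_fill (C := C) (by rw [← e1]; exact hb)
  have hbl : nm l.y ≤ c := bdd_nm hbn.2.1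
  have hbr : nm r.y ≤ c := bdd_nm hbn.2.2
  -- the prefixes can be read
  obtain ⟨tx, htx⟩ : ∃ tx, stk [] x = some tx := by
    have h1 := hread
    rw [List.append_assoc, stk_append, Option.bind_eq_some_iff] at h1
    obtain ⟨tx, h2, _⟩ := h1
    exact ⟨tx, h2⟩
  obtain ⟨tx₀, htx₀⟩ : ∃ tx₀, stk [] x₀ = some tx₀ := by
    have h1 := htx
    rw [hx, stk_append, Option.bind_eq_some_iff] at h1
    obtain ⟨tx₀, h2, _⟩ := h1
    exact ⟨tx₀, h2⟩
  obtain ⟨tz, htz⟩ : ∃ tz, stk [] ((x ++ y) ++ o') = some tz := by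
    have h1 := hread
    rw [hz, ← List.append_assoc, stk_append, Option.bind_eq_some_iff] at h1
    obtain ⟨tz, h2, _⟩ := h1
    exact ⟨tz, h2⟩
  have hyd' : stk [] (y₁ ++ y₂) = some [] := by rw [← e6]; exact hyd
  obtain ⟨hin1, hin2⟩ := hgt_in htx hyd'
  rw [← e6] at hin2
  have hop : hgt x = hgt x₀ + (c + 1) := by
    rw [hx, hgt_opn htx₀ ho, hol]
  have hcl : hgt ((x ++ y) ++ o') + (c + 1) = hgt (x ++ y) := by
    rw [← hol']
    exact hgt_clo htz ho'
  refine ⟨C, Tr.nd t l r, U, V, e1, e2, e3, ?_, ?_, ?_⟩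
  · change l.y ++ r.y = _
    rw [e4, e5, e6]
    simp
  · by_contra hcon
    have hlen : o.length ≤ U.length := by omega
    obtain ⟨U₀, hU₀, hx₀⟩ : ∃ U₀, U = U₀ ++ o ∧ x₀ = C.pre ++ U₀ := by
      have h1 : x₀ ++ o = C.pre ++ U := by rw [← hx, e2]
      rcases List.append_eq_append_iff.1 h1 with ⟨d, h3, h4⟩ | ⟨d, h3, h4⟩
      · have h5 := congrArg List.length h4
        rw [List.length_append] at h5
        have h6 : d = [] := List.length_eq_zero_iff.1 (by omega)
        subst h6
        exact ⟨[], by simpa using h4.symm, by simpa using h3.symm⟩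
      · exact ⟨d, h4, h3⟩
    have g1 := hgeo C.pre U₀ (o ++ y₁) (y₂ ++ z) (by rw [e2, e6, hU₀]; simp)
    have g2 := hgeo C.pre [] (U ++ y₁) (y₂ ++ z) (by rw [e2, e6]; simp)
    have a1 : C.pre ++ (U₀ ++ (o ++ y₁)) = x ++ y₁ := by rw [e2, hU₀]; simp
    have a2 : U₀ ++ (o ++ y₁) = l.y := by rw [e4, hU₀]; simp
    have a3 : C.pre ++ ([] ++ (U ++ y₁)) = x ++ y₁ := by rw [e2]; simp
    have a4 : [] ++ (U ++ y₁) = l.y := by rw [e4]; simp
    rw [a1, a2, ← hx₀] at g1
    rw [a3, a4, List.append_nil] at g2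
    omega
  · by_contra hcon
    have hlen : o'.length ≤ V.length := by omega
    obtain ⟨V₀, hV₀⟩ : ∃ V₀, V = o' ++ V₀ := by
      have h1 : o' ++ z₀ = V ++ C.post := by rw [← hz, e3]
      rcases List.append_eq_append_iff.1 h1 with ⟨d, h3, h4⟩ | ⟨d, h3, h4⟩
      · exact ⟨d, h3⟩
      · have h5 := congrArg List.length h3
        rw [List.length_append] at h5
        have h6 : d = [] := List.length_eq_zero_iff.1 (by omega)
        subst h6
        exact ⟨[], by simpa using h3.symm⟩
    have g1 := hgeo (x ++ y₁) (y₂ ++ o') V₀ C.post (by rw [e3, e6, hV₀]; simp)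
    have g2 := hgeo (x ++ y₁) (y₂ ++ V) [] C.post (by rw [e3, e6]; simp)
    have a1 : (y₂ ++ o') ++ V₀ = r.y := by rw [e5, hV₀]; simp
    have a2 : (y₂ ++ V) ++ [] = r.y := by rw [e5]; simp
    have a3 : (x ++ y₁) ++ (y₂ ++ o') = (x ++ y) ++ o' := by rw [e6]; simp
    have a4 : (x ++ y₁) ++ (y₂ ++ V) = (x ++ y₁) ++ r.y := by rw [e5]
    rw [a1, a3] at g1
    rw [a2, a4] at g2
    omega

end Pool.Agent.NGP
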