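import Pool.Agent.NGP.D4
import Pool.Agent.NGP.D6

/-!
# NGP, part D7: classes and replacement (D5 of PROOF.md)

`mem_Wd`: induction on `c`. `card_Wd`: `card ≤ 1 + A * (A + 1) ^ c ≤ (A + 1) ^ (c + 1)`
(`Finset.card_insert_le`, `Finset.card_image_le`).
`exists_cls_eq`: `cls G c (Y i)` for `i ≤ ncl` are `ncl + 1` elements of the powerset of
`range N ×ˢ (Wd ×ˢ Wd)`, which has `≤ ncl` elements (`Finset.card_powerset`):
`Finset.exists_ne_map_eq_of_card_lt_of_maps_to`.
`bdd_repl`: induction on `C`; the value of each ancestor does not change (`Cx.y_fill`,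
`fv_append`, `nm_congr`).
`d_replace`: `d_geo` (with `Fw.geo`, `Fw.dyck`) gives the node `σ` with yield `U ++ y ++ V`; the
letters of `U`, `V` are `< G.A` (`Tr.ok`), so `(σ.ty, U, V) ∈ cls G c y = cls G c y'`: a tree
`σ'` with yield `U ++ y' ++ V`; take `C.fill σ'` (`Cx.ok_repl`, `Cx.ty_fill`, `bdd_repl`).
-/

namespace Pool.Agent.NGP

theorem mem_Wd {A c : ℕ} {w : List ℕ} : w ∈ Wd A c ↔ w.length ≤ c ∧ ∀ a ∈ w, a < A := by
  induction c generalizing w with
  | zero =>
    rw [Wd, Finset.mem_singleton]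
    constructor
    · rintro rfl; simp
    · rintro ⟨h, _⟩; exact List.length_eq_zero_iff.1 (by omega)
  | succ c ih =>
    rw [Wd, Finset.mem_insert, Finset.mem_image]
    constructor
    · rintro (rfl | ⟨⟨a, v⟩, hp, rfl⟩)
      · simp
      · rw [Finset.mem_product, Finset.mem_range] at hp
        obtain ⟨h1, h2⟩ := ih.1 hp.2
        have h1' : v.length ≤ c := h1
        refine ⟨by simp only [List.length_cons]; omega, fun b hb => ?_⟩
        rcases List.mem_cons.1 hb with h | h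
        · rw [h]; exact hp.1
        · exact h2 b h
    · rintro ⟨h1, h2⟩
      rcases w with _ | ⟨a, v⟩
      · exact Or.inl rfl
      · refine Or.inr ⟨(a, v), ?_, rfl⟩
        rw [Finset.mem_product, Finset.mem_range]
        refine ⟨h2 a List.mem_cons_self, ih.2 ⟨?_, fun b hb => h2 b (List.mem_cons_of_mem _ hb)⟩⟩
        rw [List.length_cons] at h1
        exact Nat.le_of_succ_le_succ h1

theorem card_Wd (A c : ℕ) : (Wd A c).card ≤ (A + 1) ^ c := by
  induction c with
  | zero => simp [Wd]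
  | succ c ih =>
    rw [Wd]
    refine (Finset.card_insert_le _ _).trans ?_
    have h1 : ((Finset.range A ×ˢ Wd A c).image fun p => p.1 :: p.2).card ≤ A * (A + 1) ^ c := by
      refine Finset.card_image_le.trans ?_
      rw [Finset.card_product, Finset.card_range]
      exact Nat.mul_le_mul_left _ ih
    have h2 : 1 ≤ (A + 1) ^ c := Nat.one_le_pow _ _ (by omega)
    calc _ ≤ A * (A + 1) ^ c + 1 := by omega
      _ ≤ A * (A + 1) ^ c + (A + 1) ^ c := by omega
      _ = (A + 1) ^ (c + 1) := by ring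

/-- all classes are subsets of a small set -/
private theorem cls_mem (G : EG) (c : ℕ) (y : List ℕ) :
    cls G c y ∈ (Finset.range G.N ×ˢ (Wd G.A c ×ˢ Wd G.A c)).powerset := by
  classical
  rw [Finset.mem_powerset, cls]
  exact Finset.filter_subset _ _

private theorem card_pow_le (G : EG) (c : ℕ) :
    (Finset.range G.N ×ˢ (Wd G.A c ×ˢ Wd G.A c)).powerset.card ≤ ncl G.N G.A c := by
  rw [Finset.card_powerset, Finset.card_product, Finset.card_product, Finset.card_range, ncl]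
  refine Nat.pow_le_pow_right (by omega) (Nat.mul_le_mul_left _ ?_)
  rw [pow_two]
  exact Nat.mul_le_mul (card_Wd _ _) (card_Wd _ _)

theorem exists_cls_eq (G : EG) (c : ℕ) (Y : ℕ → List ℕ) :
    ∃ i j, i < j ∧ j ≤ ncl G.N G.A c ∧ cls G c (Y i) = cls G c (Y j) := by
  obtain ⟨i, hi, j, hj, hij, he⟩ := Finset.exists_ne_map_eq_of_card_lt_of_maps_to
    (s := Finset.range (ncl G.N G.A c + 1))
    (t := (Finset.range G.N ×ˢ (Wd G.A c ×ˢ Wd G.A c)).powerset) (f := fun i => cls G c (Y i))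
    (by rw [Finset.card_range]; exact Nat.lt_succ_of_le (card_pow_le G c))
    (fun i _ => cls_mem G c (Y i))
  rw [Finset.mem_range] at hi hj
  rcases Nat.lt_or_gt_of_ne hij with h | h
  · exact ⟨i, j, h, by omega, he⟩
  · exact ⟨j, i, h, by omega, he.symm⟩

theorem card_cls_le (G : EG) (c : ℕ) (K : Finset (Finset (ℕ × List ℕ × List ℕ)))
    (hK : ∀ κ ∈ K, ∃ y, κ = cls G c y) : K.card ≤ ncl G.N G.A c := by
  refine (Finset.card_le_card ?_).trans (card_pow_le G c)
  intro κ hκ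
  obtain ⟨y, rfl⟩ := hK κ hκ
  exact cls_mem G c y

theorem letters_lt {G : EG} {τ : Tr} (h : τ.ok G) : ∀ a ∈ τ.y, a < G.A := by
  induction τ with
  | ep t => intro a ha; simp [Tr.y] at ha
  | lf t b =>
    intro a ha
    simp only [Tr.y, List.mem_singleton] at ha
    rw [ha]; exact h.2.1
  | nd t l r ihl ihr =>
    intro a ha
    simp only [Tr.y, List.mem_append] at ha
    rcases ha with ha | ha
    · exact ihl h.2.2.1 a ha
    · exact ihr h.2.2.2 a ha

theorem bdd_repl {c : ℕ} {C : Cx} {σ σ' : Tr} (h : bdd c (C.fill σ)) (h' : bdd c σ')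
    (hv : fv σ'.y = fv σ.y) : bdd c (C.fill σ') := by
  induction C with
  | hole => exact h'
  | left t C r ih =>
    refine ⟨?_, ih h.2.1, h.2.2⟩
    have h1 : nm ((C.fill σ').y ++ r.y) = nm ((C.fill σ).y ++ r.y) := by
      apply nm_congr
      simp only [Cx.y_fill, fv_append, hv]
    rw [h1]
    exact h.1
  | right t l C ih =>
    refine ⟨?_, h.2.1, ih h.2.2⟩
    have h1 : nm (l.y ++ (C.fill σ').y) = nm (l.y ++ (C.fill σ).y) := by
      apply nm_congr
      simp only [Cx.y_fill, fv_append, hv]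
    rw [h1]
    exact h.1

/-- (D5) -/
theorem d_replace {G : EG} {c t : ℕ} {x y y' z : List ℕ} (hw : ∃ S, Fw S (x ++ y ++ z))
    (hy : 2 ≤ y.length) (hyd : stk [] y = some [])
    (hx : ∃ x₀ o, x = x₀ ++ o ∧ Opn o ∧ o.length = c + 1)
    (hz : ∃ o' z₀, z = o' ++ z₀ ∧ Clo o' ∧ o'.length = c + 1)
    (hcls : cls G c y = cls G c y') (hfv : fv y = fv y') (h : BT G c t (x ++ y ++ z)) :
    BT G c t (x ++ y' ++ z) := by
  obtain ⟨S, hS⟩ := hw
  obtain ⟨x₀, o, hx1, ho, hol⟩ := hx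
  obtain ⟨o', z₀, hz1, ho', hol'⟩ := hz
  obtain ⟨τ, hok, hb, hty, hτ⟩ := h
  obtain ⟨C, σ, U, V, e1, e2, e3, e4, e5, e6⟩ :=
    d_geo hτ hb hS.geo hS.dyck hy hyd hx1 ho hol hz1 ho' hol'
  have hokσ : σ.ok G := Cx.ok_fill (c := C) (by rw [← e1]; exact hok)
  have hbσ : bdd c σ := bdd_fill (C := C) (by rw [← e1]; exact hb)
  have hlet := letters_lt hokσ
  rw [e4] at hlet
  have hmem : (σ.ty, U, V) ∈ cls G c y := by
    classical
    unfold cls
    rw [Finset.mem_filter, Finset.mem_product, Finset.mem_product, Finset.mem_range]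
    refine ⟨⟨Tr.ty_lt hokσ, mem_Wd.2 ⟨e5, fun a ha => hlet a ?_⟩,
      mem_Wd.2 ⟨e6, fun a ha => hlet a ?_⟩⟩, σ, hokσ, hbσ, rfl, e4⟩
    · simp [ha]
    · simp [ha]
  have hmem2 : BT G c σ.ty (U ++ y' ++ V) := by
    classical
    rw [hcls, cls, Finset.mem_filter] at hmem
    exact hmem.2
  obtain ⟨σ', hok', hb', hty', hy'⟩ := hmem2
  have hv : fv σ'.y = fv σ.y := by
    rw [hy', e4]
    simp only [fv_append, hfv]
  refine ⟨C.fill σ', ?_, ?_, ?_, ?_⟩
  · exact Cx.ok_repl (σ := σ) (by rw [← e1]; exact hok) hok' hty'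
  · exact bdd_repl (σ := σ) (by rw [← e1]; exact hb) hb' hv
  · rw [Cx.ty_fill (σ := σ) hty', ← e1, hty]
  · rw [Cx.y_fill, hy', e2, e3]
    simp

end Pool.Agent.NGP
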