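import Pool.Agent.NGP.D5
import Pool.Agent.NGP.D7

/-!
# NGP, part D10: contexts of tree words, replacement of rows and of subtrees

`TC.w_fill`, `TC.fill_comp`, `TC.ok_sub`, `TC.ok_repl`, `TC.len_lt`: induction on the context.
`TC.enc`: for `c ≠ hole` and `(c.fill s).ok g k` the word `c.pre n` ends with `row δ u ++ hc n` and
`c.post n` starts with `row δ' u'`, `u`, `u'` of length `≥ k`, `δ` even, `δ'` odd. Induction on `c`.
`row_cut`: `u = ua ++ um ++ ub`, `u' = ub' ++ um' ++ ua'`, with `Y j` = (last `j` letters of `row δ u`)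
`++ inner ++` (first `j` letters of `row (δ + 1) u'`), `0 ≤ j ≤ ncl`; by `exists_cls_eq` two of them,
`j < j'`, have the same class; the new rows are `ua ++ ub` (`ub` = last `j`, `um` = the `j' - j`
letters before), `ub' ++ ua'`. `fv (Y j) = fv inner = 1`; `stk [] (Y j) = some []`; length `≥ 2`. The
letters before `Y j` in the short word are `row δ ua`, of length `≥ k ≥ c + 2`, opening. Apply
`d_replace` (in the short word, `y = Y j`, `y' = Y j'`).
`sub_cut`: `d_replace` with `y = hc n ++ s'.w n`, `y' = hc n ++ s.w n`, by `TC.enc` (the `hc n` before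
the hole belongs to `y`).
-/

namespace Pool.Agent.NGP

theorem TC.w_fill (n : ℕ) (c : TC) (s : TT) : (c.fill s).w n = c.pre n ++ s.w n ++ c.post n := by
  induction c with
  | hole => simp [TC.fill, TC.pre, TC.post]
  | fst X u u' v v' c t₂ ih => simp [TC.fill, TC.pre, TC.post, TT.w, ih, List.append_assoc]
  | snd X u u' v v' t₁ c ih => simp [TC.fill, TC.pre, TC.post, TT.w, ih, List.append_assoc]

theorem TC.fill_comp (c d : TC) (s : TT) : (c.comp d).fill s = c.fill (d.fill s) := by
  induction c with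
  | hole => rfl
  | fst X u u' v v' c t₂ ih => simp [TC.fill, TC.comp, ih]
  | snd X u u' v v' t₁ c ih => simp [TC.fill, TC.comp, ih]

theorem TC.ok_sub {g k : ℕ} {c : TC} {s : TT} (h : (c.fill s).ok g k) : s.ok g k := by
  induction c with
  | hole => exact h
  | fst X u u' v v' c t₂ ih =>
    simp only [TC.fill, TT.ok] at h
    exact ih h.2.2.2.2.2.1
  | snd X u u' v v' t₁ c ih =>
    simp only [TC.fill, TT.ok] at h
    exact ih h.2.2.2.2.2.2

theorem TC.ok_repl {g k : ℕ} {c : TC} {s s' : TT} (h : (c.fill s).ok g k) (h' : s'.ok g k) :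
    (c.fill s').ok g k := by
  induction c with
  | hole => exact h'
  | fst X u u' v v' c t₂ ih =>
    simp only [TC.fill, TT.ok] at h ⊢
    exact ⟨h.1, h.2.1, h.2.2.1, h.2.2.2.1, h.2.2.2.2.1, ih h.2.2.2.2.2.1, h.2.2.2.2.2.2⟩
  | snd X u u' v v' t₁ c ih =>
    simp only [TC.fill, TT.ok] at h ⊢
    exact ⟨h.1, h.2.1, h.2.2.1, h.2.2.2.1, h.2.2.2.2.1, h.2.2.2.2.2.1, ih h.2.2.2.2.2.2⟩

/-- The surroundings of a proper subtree. -/
theorem TC.enc {g k n : ℕ} {c : TC} {s : TT} (hc' : c ≠ TC.hole) (h : (c.fill s).ok g k) :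
    ∃ (x : List ℕ) (δ : ℕ) (u : List ℕ) (δ' : ℕ) (u' z : List ℕ), c.pre n = x ++ row δ u ++ hc n ∧
      c.post n = row δ' u' ++ z ∧ k ≤ u.length ∧ k ≤ u'.length ∧ δ < 8 ∧ δ' < 8 ∧ δ % 2 = 0 ∧
      δ' % 2 = 1 := by
  induction c with
  | hole => exact absurd rfl hc'
  | fst X u u' v v' c t₂ ih =>
    simp only [TC.fill, TT.ok] at h
    by_cases hch : c = TC.hole
    · subst hch
      refine ⟨[], if X then 2 else 0, u, if X then 3 else 1, u', hc n ++
        row 4 v ++ hc n ++ t₂.w n ++ row 5 v' ++ hc n, ?_, ?_, h.1, ?_, ?_, ?_, ?_, ?_⟩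
      · simp [TC.pre]
      · simp [TC.post, List.append_assoc]
      · rw [h.2.1]; exact h.1
      all_goals cases X <;> decide
    · obtain ⟨x, δ, w, δ', w', z, h1, h2, h3⟩ := ih hch h.2.2.2.2.2.1
      refine ⟨row (if X then 2 else 0) u ++ hc n ++ x, δ, w, δ', w', z ++
        (row (if X then 3 else 1) u' ++ hc n ++
      row 4 v ++ hc n ++ t₂.w n ++ row 5 v' ++ hc n), ?_, ?_, h3⟩
      · simp [TC.pre, h1, List.append_assoc]
      · simp [TC.post, h2, List.append_assoc]
  | snd X u u' v v' t₁ c ih =>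
    simp only [TC.fill, TT.ok] at h
    by_cases hch : c = TC.hole
    · subst hch
      refine ⟨row (if X then 2 else 0) u ++ hc n ++ t₁.w n ++
        row (if X then 3 else 1) u' ++ hc n, 4, v, 5, v', hc n, ?_, ?_, h.2.2.1, ?_, by norm_num,
        by norm_num, by norm_num, by norm_num⟩
      · simp [TC.pre, List.append_assoc]
      · simp [TC.post]
      · rw [h.2.2.2.1]; exact h.2.2.1
    · obtain ⟨x, δ, w, δ', w', z, h1, h2, h3⟩ := ih hch h.2.2.2.2.2.2
      refine ⟨row (if X then 2 else 0) u ++ hc n ++ t₁.w n ++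
        row (if X then 3 else 1) u' ++ hc n ++ row 4 v ++ hc n ++ x, δ, w, δ', w',
        z ++ (row 5 v' ++ hc n), ?_, ?_, h3⟩
      · simp [TC.pre, h1, List.append_assoc]
      · simp [TC.post, h2, List.append_assoc]

theorem d10_row_append (δ : ℕ) (a b : List ℕ) : row δ (a ++ b) = row δ a ++ row δ b := by
  simp [row]

theorem d10_row_length (δ : ℕ) (a : List ℕ) : (row δ a).length = a.length := by
  simp [row]

theorem d10_stk_row_open {δ : ℕ} (hδ : δ < 8) (h2 : δ % 2 = 0) (a : List ℕ) : ∀ s : List ℕ,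
    stk s (row δ a) = some (List.replicate a.length (2 + δ / 2) ++ s) := by
  induction a with
  | nil => intro s; simp [row, stk]
  | cons x a ih =>
    intro s
    have e : row δ (x :: a) = (10 + 8 * x + δ) :: row δ a := by simp [row]
    have hl : lv (10 + 8 * x + δ) = some (2 + δ / 2, true) := by
      have := lv_row hδ (u := x :: a) (a := 10 + 8 * x + δ) (by rw [e]; exact List.mem_cons_self)
      rw [this]; simp [h2]
    rw [e, stk_cons, hl]
    simp only
    rw [ih]
    congr 1
    rw [List.length_cons, List.replicate_succ']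
    simp [List.append_assoc]

theorem d10_stk_row_close {δ : ℕ} (hδ : δ < 8) (h2 : δ % 2 = 1) (a : List ℕ) : ∀ s : List ℕ,
    stk (List.replicate a.length (2 + δ / 2) ++ s) (row δ a) = some s := by
  induction a with
  | nil => intro s; simp [row, stk]
  | cons x a ih =>
    intro s
    have e : row δ (x :: a) = (10 + 8 * x + δ) :: row δ a := by simp [row]
    have hl : lv (10 + 8 * x + δ) = some (2 + δ / 2, false) := by
      have := lv_row hδ (u := x :: a) (a := 10 + 8 * x + δ) (by rw [e]; exact List.mem_cons_self)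
      rw [this]; simp [h2]
    rw [e, stk_cons, hl]
    simp only [List.length_cons, List.replicate_succ, List.cons_append, if_true]
    exact ih s

theorem d10_stk_nest_row {δ : ℕ} (hδ : δ < 8) (h2 : δ % 2 = 0) {inner a b : List ℕ}
    (hin : stk [] inner = some []) (hl : b.length = a.length) :
    stk [] (row δ a ++ inner ++ row (δ + 1) b) = some [] := by
  have e1 := d10_stk_row_open hδ h2 a []
  have e2 := stk_frame (List.replicate a.length (2 + δ / 2) ++ []) hin
  have e3 := d10_stk_row_close (δ := δ + 1) (by omega) (by omega) b []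
  have e4 : (δ + 1) / 2 = δ / 2 := by omega
  rw [e4, hl] at e3
  rw [stk_append, stk_append, e1]
  simp only [Option.bind_some]
  rw [List.nil_append] at e2
  rw [e2]
  simp only [Option.bind_some]
  exact e3

theorem d10_opn_row {δ : ℕ} (hδ : δ < 8) (h2 : δ % 2 = 0) (a : List ℕ) : Opn (row δ a) := by
  intro b hb
  exact ⟨2 + δ / 2, by rw [lv_row hδ hb]; simp [h2]⟩

theorem d10_clo_row {δ : ℕ} (hδ : δ < 8) (h2 : δ % 2 = 1) (a : List ℕ) : Clo (row δ a) := by
  intro b hb
  exact ⟨2 + δ / 2, by rw [lv_row hδ hb]; simp [h2]⟩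

theorem d10_suf_row {δ c : ℕ} (hδ : δ < 8) (h2 : δ % 2 = 0) (x a : List ℕ) (hl : c + 1 ≤ a.length) :
    ∃ x₀ o, x ++ row δ a = x₀ ++ o ∧ Opn o ∧ o.length = c + 1 := by
  refine ⟨x ++ row δ (a.take (a.length - (c + 1))), row δ (a.drop (a.length - (c + 1))), ?_,
    d10_opn_row hδ h2 _, ?_⟩
  · rw [List.append_assoc, ← d10_row_append, List.take_append_drop]
  · rw [d10_row_length, List.length_drop]; omega

theorem d10_pre_row {δ c : ℕ} (hδ : δ < 8) (h2 : δ % 2 = 1) (z a : List ℕ) (hl : c + 1 ≤ a.length) :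
    ∃ o' z₀, row δ a ++ z = o' ++ z₀ ∧ Clo o' ∧ o'.length = c + 1 := by
  refine ⟨row δ (a.take (c + 1)), row δ (a.drop (c + 1)) ++ z, ?_,
    d10_clo_row hδ h2 _, ?_⟩
  · rw [← List.append_assoc, ← d10_row_append, List.take_append_drop]
  · rw [d10_row_length, List.length_take]; omega

/-- Shortening a pair of long rows. -/
theorem row_cut {G : EG} {c k δ : ℕ} (hck : c + 2 ≤ k) (hδ : δ < 8) (hδ2 : δ % 2 = 0)
    {inner : List ℕ} (h2 : 2 ≤ inner.length) (hin : stk [] inner = some []) {u u' : List ℕ}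
    (hl : u'.length = u.length) (hlong : k + ncl G.N G.A c < u.length) :
    ∃ v v' : List ℕ, v'.length = v.length ∧ k ≤ v.length ∧ v.length < u.length ∧
      (∀ x ∈ v ++ v', x ∈ u ++ u') ∧ ∀ (x z : List ℕ) (s : ℕ),
        (∃ S, Fw S (x ++ row δ v ++ inner ++ row (δ + 1) v' ++ z)) →
        BT G c s (x ++ row δ v ++ inner ++ row (δ + 1) v' ++ z) →
        BT G c s (x ++ row δ u ++ inner ++ row (δ + 1) u' ++ z) := by
  obtain ⟨i, j, hij, hj, hcls⟩ := exists_cls_eq G c
    (fun j => row δ (u.drop (u.length - j)) ++ inner ++ row (δ + 1) (u'.take j))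
  have hjL : j ≤ u.length := by omega
  have hd : ∀ m, m ≤ u.length → (u'.take m).length = (u.drop (u.length - m)).length := by
    intro m hm
    rw [List.length_take, List.length_drop, hl]; omega
  refine ⟨u.take (u.length - j) ++ u.drop (u.length - i), u'.take i ++ u'.drop j, ?_, ?_, ?_, ?_,
    ?_⟩
  · simp only [List.length_append, List.length_take, List.length_drop, hl]; omega
  · simp only [List.length_append, List.length_take, List.length_drop]; omega
  · simp only [List.length_append, List.length_take, List.length_drop]; omega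
  · intro x hx
    simp only [List.mem_append] at hx ⊢
    rcases hx with (hx | hx) | (hx | hx)
    · exact Or.inl (List.mem_of_mem_take hx)
    · exact Or.inl (List.mem_of_mem_drop hx)
    · exact Or.inr (List.mem_of_mem_take hx)
    · exact Or.inr (List.mem_of_mem_drop hx)
  · intro x z s hF hB
    have e1 : x ++ row δ (u.take (u.length - j) ++ u.drop (u.length - i)) ++ inner ++
        row (δ + 1) (u'.take i ++ u'.drop j) ++ z =
        (x ++ row δ (u.take (u.length - j))) ++
          (row δ (u.drop (u.length - i)) ++ inner ++ row (δ + 1) (u'.take i)) ++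
          (row (δ + 1) (u'.drop j) ++ z) := by
      rw [d10_row_append, d10_row_append]; simp only [List.append_assoc]
    have e2 : x ++ row δ u ++ inner ++ row (δ + 1) u' ++ z =
        (x ++ row δ (u.take (u.length - j))) ++
          (row δ (u.drop (u.length - j)) ++ inner ++ row (δ + 1) (u'.take j)) ++
          (row (δ + 1) (u'.drop j) ++ z) := by
      conv_lhs => rw [← List.take_append_drop (u.length - j) u, ← List.take_append_drop j u',
        d10_row_append, d10_row_append]
      simp only [List.append_assoc]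
    rw [e1] at hF hB
    rw [e2]
    refine d_replace hF ?_ ?_ ?_ ?_ hcls ?_ hB
    · simp only [List.length_append]; omega
    · exact d10_stk_nest_row hδ hδ2 hin (hd i (by omega))
    · exact d10_suf_row hδ hδ2 _ _ (by rw [List.length_take]; omega)
    · exact d10_pre_row (by omega) (by omega) _ _ (by rw [List.length_drop]; omega)
    · rw [Dyck.fv_eq_one (d10_stk_nest_row hδ hδ2 hin (hd i (by omega))),
        Dyck.fv_eq_one (d10_stk_nest_row hδ hδ2 hin (hd j hjL))]

theorem d10_stk_hc_TT {g k n : ℕ} (hk : 1 ≤ k) {s : TT} (hs : s.ok g k) :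
    stk [] (hc n ++ s.w n) = some [] := by
  obtain ⟨S, hS, -⟩ := Fw_TT (n := n) (TT.ok_mono hk hs)
  exact Fw.dyck (Fw.append (Fw_hc n) hS (by simp))

/-- Replacing a proper subtree. -/
theorem sub_cut {G : EG} {g c k n : ℕ} (hck : c + 2 ≤ k) (hn : 1 ≤ n) {C : TC} {s s' : TT}
    (hC : C ≠ TC.hole) (h : (C.fill s).ok g k) (h' : s'.ok g k)
    (hcls : cls G c (hc n ++ s'.w n) = cls G c (hc n ++ s.w n)) {t : ℕ}
    (hB : BT G c t (TW n n n (C.fill s'))) : BT G c t (TW n n n (C.fill s)) := by
  obtain ⟨x, δ, u, δ', u', z, h1, h2, h3, h4, h5, h6, h7, h8⟩ := TC.enc (n := n) hC h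
  have hok' : (C.fill s').ok g k := TC.ok_repl h h'
  have hF := Fw_TW (n := n) (TT.ok_mono (show 1 ≤ k by omega) hok') n n
  have key : ∀ r : TT, TW n n n (C.fill r) = (P1 n n ++ hc n ++ x ++ row δ u) ++
      (hc n ++ r.w n) ++ (row δ' u' ++ (z ++ P2 n n)) := by
    intro r
    unfold TW
    rw [TC.w_fill, h1, h2]
    simp only [List.append_assoc]
  rw [key] at hB hF ⊢
  refine d_replace hF ?_ ?_ ?_ ?_ hcls ?_ hB
  · simp only [List.length_append, hc, List.length_cons, List.length_replicate]; omega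
  · exact d10_stk_hc_TT (by omega) h'
  · exact d10_suf_row h5 h7 _ _ (by omega)
  · exact d10_pre_row h6 h8 _ _ (by omega)
  · rw [Dyck.fv_eq_one (d10_stk_hc_TT (by omega) h'),
      Dyck.fv_eq_one (d10_stk_hc_TT (by omega) (TC.ok_sub h))]

end Pool.Agent.NGP
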