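import Pool.Agent.NGP.D10

/-!
# NGP, part D11: pumping down (D8 of PROOF.md)

`Min G g c k n t₀ s`: every `t'` (rows `≥ k`) with a shorter word has a bounded tree of type `s`, `t₀`
has none. Let `t₀` be such a tree word.
`rows_le`: if `t₀ = C.fill s`, all row pairs of the root of `s` have length `≤ R = k + ncl`:
otherwise `row_cut` gives a shorter `t'` (`TC.ok_repl`, `Fw_TW`, `TC.w_fill`) with a bounded tree, so
`t₀` has one.
`len_le`: for `t₀ = C.fill s` and a set `K` of classes of the words `hc n ++ s'.w n` of proper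
ancestors `s'` of `s` (themselves proper subtrees of `t₀`): induction on `s` with `K`, `C`
generalised: `(s.w n).length + 4 * (R + n + 1) ≤ 8 * (R + n + 1) * 2 ^ (ncl + 1 - K.card)`. Base: the
length is `≤ 2 (R + n + 1)`. Node: if `C = hole` use `K = ∅` for the children; otherwise the class of
`s` is not in `K` (`sub_cut`: replacing the ancestor by `s` would give a shorter word with a bounded
tree), `K' = insert (cls ..) K` has `K.card + 1 ≤ ncl` elements (`card_cls_le`), and the length is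
`≤ 4 (R + n + 1)` plus the lengths of the children.
`d_pump`: by contradiction: if there is no such `t'` ... take it as `Min` relative to the fixed `t`:
the statement of `d_pump` for one type `s` at a time is enough for soundness (strong induction on the
length).
-/

namespace Pool.Agent.NGP

/-- A shortest tree word without bounded tree. -/
def Mn (G : EG) (g c k n s : ℕ) (t₀ : TT) : Prop :=
  t₀.ok g k ∧ ¬ BT G c s (TW n n n t₀) ∧
    ∀ t' : TT, t'.ok g k → (t'.w n).length < (t₀.w n).length → BT G c s (TW n n n t')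

theorem Mn.step {G : EG} {g c k n s : ℕ} {t₀ : TT}
    (h : Mn G g c k n s t₀) {C : TC} {σ σ' : TT} (hC : t₀ = C.fill σ) (hok : σ'.ok g k)
    (hlt : (σ'.w n).length < (σ.w n).length) : (C.fill σ').ok g k ∧
      BT G c s (TW n n n (C.fill σ')) := by
  obtain ⟨h1, _, h3⟩ := h
  rw [hC] at h1
  have h4 := TC.ok_repl h1 hok
  refine ⟨h4, h3 _ h4 ?_⟩
  rw [hC, TC.w_fill, TC.w_fill]
  simp only [List.length_append]
  omega

theorem row_length (δ : ℕ) (u : List ℕ) : (row δ u).length = u.length := by simp [row]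

theorem hc_length (n : ℕ) : (hc n).length = n + 1 := by simp [hc]

theorem rows_base {G : EG} {g c k n s : ℕ} (hck : c + 2 ≤ k) (hn : 1 ≤ n) {t₀ : TT}
    (h : Mn G g c k n s t₀) {C : TC} {u u' : List ℕ} (hC : t₀ = C.fill (TT.base u u')) :
    u.length ≤ k + ncl G.N G.A c := by
  by_contra hlong
  push Not at hlong
  have hok := h.1
  rw [hC] at hok
  have hs := TC.ok_sub hok
  obtain ⟨_, hl, hx⟩ := hs
  obtain ⟨v, v', h1, h2, h3, h4, h5⟩ := row_cut (G := G) hck (δ := 6) (by omega) (by omega)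
    (inner := hc n) (by rw [hc_length]; omega) (Fw_hc n).dyck hl hlong
  have hok' : (TT.base v v').ok g k := ⟨h2, h1, fun x hx' => hx x (h4 x hx')⟩
  obtain ⟨h6, h7⟩ := h.step hC hok' (by
    simp only [TT.w, List.length_append, row_length]
    omega)
  have h8 := Fw_TW (n := n) (TT.ok_mono (by omega : 1 ≤ k) h6) n n
  apply h.2.1
  have e : ∀ a b : List ℕ, TW n n n (C.fill (TT.base a b)) =
      (P1 n n ++ (hc n ++ C.pre n)) ++ row 6 a ++ hc n ++ row (6 + 1) b ++
        (hc n ++ C.post n ++ P2 n n) := by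
    intro a b
    unfold TW
    rw [TC.w_fill]
    simp only [TT.w, List.append_assoc]
  rw [e] at h7 h8
  rw [hC, e]
  exact h5 _ _ _ h8 h7

theorem rows_fst {G : EG} {g c k n s : ℕ} (hck : c + 2 ≤ k) (hn : 1 ≤ n) {t₀ : TT}
    (h : Mn G g c k n s t₀) {C : TC} {X : Bool} {u u' v v' : List ℕ} {t₁ t₂ : TT}
    (hC : t₀ = C.fill (TT.nd X u u' v v' t₁ t₂)) : u.length ≤ k + ncl G.N G.A c := by
  by_contra hlong
  push Not at hlong
  have hok := h.1
  rw [hC] at hok
  have hs := TC.ok_sub hok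
  obtain ⟨_, hl, hs3, hs4, hx, hs5, hs6⟩ := hs
  obtain ⟨S₁, hS₁, _⟩ := Fw_TT (n := n) (TT.ok_mono (by omega : 1 ≤ k) hs5)
  have hin : stk [] (hc n ++ t₁.w n) = some [] := by
    rw [stk_append, (Fw_hc n).dyck, Option.bind_some, hS₁.dyck]
  obtain ⟨w, w', h1, h2, h3, h4, h5⟩ := row_cut (G := G) hck (δ := if X then 2 else 0)
    (by split <;> omega) (by split <;> omega)
    (inner := hc n ++ t₁.w n) (by rw [List.length_append, hc_length]; omega) hin hl hlong
  have hok' : (TT.nd X w w' v v' t₁ t₂).ok g k := by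
    refine ⟨h2, h1, hs3, hs4, fun x hx' => ?_, hs5, hs6⟩
    rw [List.mem_append, List.mem_append] at hx'
    rcases hx' with (hx' | hx') | hx'
    · have := h4 x hx'
      exact hx x (by rw [List.mem_append, List.mem_append]; exact Or.inl (Or.inl this))
    · exact hx x (by rw [List.mem_append, List.mem_append]; exact Or.inl (Or.inr hx'))
    · exact hx x (by rw [List.mem_append, List.mem_append]; exact Or.inr hx')
  obtain ⟨h6, h7⟩ := h.step hC hok' (by
    simp only [TT.w, List.length_append, row_length]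
    omega)
  have h8 := Fw_TW (n := n) (TT.ok_mono (by omega : 1 ≤ k) h6) n n
  apply h.2.1
  have hX : (if X then 3 else 1) = (if X then 2 else 0) + 1 := by cases X <;> rfl
  have e : ∀ a b : List ℕ, TW n n n (C.fill (TT.nd X a b v v' t₁ t₂)) =
      (P1 n n ++ (hc n ++ C.pre n)) ++ row (if X then 2 else 0) a ++ (hc n ++ t₁.w n) ++
        row ((if X then 2 else 0) + 1) b ++
        (hc n ++ row 4 v ++ hc n ++ t₂.w n ++ row 5 v' ++ hc n ++ C.post n ++ P2 n n) := by
    intro a b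
    unfold TW
    rw [TC.w_fill]
    simp only [TT.w, List.append_assoc, hX]
  rw [e] at h7 h8
  rw [hC, e]
  exact h5 _ _ _ h8 h7

theorem rows_snd {G : EG} {g c k n s : ℕ} (hck : c + 2 ≤ k) (hn : 1 ≤ n) {t₀ : TT}
    (h : Mn G g c k n s t₀) {C : TC} {X : Bool} {u u' v v' : List ℕ} {t₁ t₂ : TT}
    (hC : t₀ = C.fill (TT.nd X u u' v v' t₁ t₂)) : v.length ≤ k + ncl G.N G.A c := by
  by_contra hlong
  push Not at hlong
  have hok := h.1
  rw [hC] at hok
  have hs := TC.ok_sub hok
  obtain ⟨hs1, hs2, _, hl, hx, hs5, hs6⟩ := hs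
  obtain ⟨S₂, hS₂, _⟩ := Fw_TT (n := n) (TT.ok_mono (by omega : 1 ≤ k) hs6)
  have hin : stk [] (hc n ++ t₂.w n) = some [] := by
    rw [stk_append, (Fw_hc n).dyck, Option.bind_some, hS₂.dyck]
  obtain ⟨w, w', h1, h2, h3, h4, h5⟩ := row_cut (G := G) hck (δ := 4)
    (by omega) (by omega)
    (inner := hc n ++ t₂.w n) (by rw [List.length_append, hc_length]; omega) hin hl hlong
  have hok' : (TT.nd X u u' w w' t₁ t₂).ok g k := by
    refine ⟨hs1, hs2, h2, h1, fun x hx' => ?_, hs5, hs6⟩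
    have h4' := h4 x
    have hx2 := hx x
    simp only [List.mem_append] at hx' h4' hx2
    tauto
  obtain ⟨h6, h7⟩ := h.step hC hok' (by
    simp only [TT.w, List.length_append, row_length]
    omega)
  have h8 := Fw_TW (n := n) (TT.ok_mono (by omega : 1 ≤ k) h6) n n
  apply h.2.1
  have e : ∀ a b : List ℕ, TW n n n (C.fill (TT.nd X u u' a b t₁ t₂)) =
      (P1 n n ++ (hc n ++ C.pre n ++ row (if X then 2 else 0) u ++ hc n ++ t₁.w n ++
        row (if X then 3 else 1) u' ++ hc n)) ++ row 4 a ++ (hc n ++ t₂.w n) ++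
        row (4 + 1) b ++ (hc n ++ C.post n ++ P2 n n) := by
    intro a b
    unfold TW
    rw [TC.w_fill]
    simp only [TT.w, List.append_assoc]
  rw [e] at h7 h8
  rw [hC, e]
  exact h5 _ _ _ h8 h7

/-- The classes in `K` are classes of ancestors. -/
def AncK (G : EG) (c n : ℕ) (C : TC) (s : TT)
    (K : Finset (Finset (ℕ × List ℕ × List ℕ))) : Prop :=
  ∀ κ ∈ K, ∃ C₁ C₂ : TC, C = C₁.comp C₂ ∧ C₁ ≠ TC.hole ∧ C₂ ≠ TC.hole ∧
    κ = cls G c (hc n ++ (C₂.fill s).w n)

theorem TC.pre_pos {C : TC} (n : ℕ) (h : C ≠ TC.hole) : 0 < (C.pre n).length := by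
  cases C with
  | hole => exact absurd rfl h
  | fst X u u' v v' c t₂ =>
    simp only [TC.pre, List.length_append, hc_length]
    omega
  | snd X u u' v v' t₁ c =>
    simp only [TC.pre, List.length_append, hc_length]
    omega

theorem TC.comp_assoc (c d e : TC) : (c.comp d).comp e = c.comp (d.comp e) := by
  induction c with
  | hole => rfl
  | fst X u u' v v' c t₂ ih => simp only [TC.comp, ih]
  | snd X u u' v v' t₁ c ih => simp only [TC.comp, ih]

theorem TC.comp_ne_left {c d : TC} (h : c ≠ TC.hole) : c.comp d ≠ TC.hole := by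
  cases c with
  | hole => exact absurd rfl h
  | fst X u u' v v' c t₂ =>
    intro h'
    simp [TC.comp] at h'
  | snd X u u' v v' t₁ c =>
    intro h'
    simp [TC.comp] at h'

theorem not_mem_K {G : EG} {g c k n s : ℕ} (hck : c + 2 ≤ k) (hn : 1 ≤ n) {t₀ : TT}
    (h : Mn G g c k n s t₀) {C : TC} {σ : TT} (hC : t₀ = C.fill σ)
    {K : Finset (Finset (ℕ × List ℕ × List ℕ))} (hK : AncK G c n C σ K) :
    cls G c (hc n ++ σ.w n) ∉ K := by
  intro hmem
  obtain ⟨C₁, C₂, rfl, h1, h2, h3⟩ := hK _ hmem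
  rw [TC.fill_comp] at hC
  have hok := h.1
  rw [hC] at hok
  have hok2 := TC.ok_sub (TC.ok_sub hok)
  have hp := TC.pre_pos n h2
  obtain ⟨h6, h7⟩ := h.step hC hok2 (by
    rw [TC.w_fill]
    simp only [List.length_append]
    omega)
  apply h.2.1
  rw [hC]
  exact sub_cut hck hn h1 hok hok2 h3 h7

theorem AncK.child {G : EG} {c n : ℕ} {C D : TC} {σ τ : TT}
    {K : Finset (Finset (ℕ × List ℕ × List ℕ))} (hK : AncK G c n C σ K) (hC : C ≠ TC.hole)
    (hD : D ≠ TC.hole) (hσ : σ = D.fill τ) :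
    AncK G c n (C.comp D) τ (insert (cls G c (hc n ++ σ.w n)) K) := by
  classical
  intro κ hκ
  rw [Finset.mem_insert] at hκ
  rcases hκ with rfl | hκ
  · exact ⟨C, D, rfl, hC, hD, by rw [hσ]⟩
  · obtain ⟨C₁, C₂, rfl, h1, h2, h3⟩ := hK κ hκ
    refine ⟨C₁, C₂.comp D, TC.comp_assoc _ _ _, h1, TC.comp_ne_left h2, ?_⟩
    rw [TC.fill_comp, ← hσ]
    exact h3

theorem AncK.card {G : EG} {c n : ℕ} {C : TC} {σ : TT}
    {K : Finset (Finset (ℕ × List ℕ × List ℕ))} (hK : AncK G c n C σ K) :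
    K.card ≤ ncl G.N G.A c := by
  apply card_cls_le
  intro κ hκ
  obtain ⟨_, C₂, _, _, _, h3⟩ := hK κ hκ
  exact ⟨_, h3⟩

theorem len_le {G : EG} {g c k n s : ℕ} (hck : c + 2 ≤ k) (hn : 1 ≤ n) {t₀ : TT}
    (h : Mn G g c k n s t₀) : ∀ (σ : TT) (C : TC), t₀ = C.fill σ → C ≠ TC.hole →
    ∀ K : Finset (Finset (ℕ × List ℕ × List ℕ)), AncK G c n C σ K →
      (σ.w n).length + 4 * (k + ncl G.N G.A c + n + 1) ≤
        8 * (k + ncl G.N G.A c + n + 1) * 2 ^ (ncl G.N G.A c + 1 - K.card) := by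
  classical
  intro σ
  induction σ with
  | base u u' =>
    intro C hC _ K hK
    have h1 := rows_base hck hn h hC
    have hok := h.1
    rw [hC] at hok
    have hl := (TC.ok_sub hok).2.1
    have h2 : 1 ≤ 2 ^ (ncl G.N G.A c + 1 - K.card) := Nat.one_le_two_pow
    generalize 2 ^ (ncl G.N G.A c + 1 - K.card) = P at h2
    generalize ncl G.N G.A c = R at h1 ⊢
    have h3 : 8 * (k + R + n + 1) * 1 ≤ 8 * (k + R + n + 1) * P := Nat.mul_le_mul_left _ h2
    simp only [TT.w, List.length_append, row_length, hc_length]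
    omega
  | nd X u u' v v' t₁ t₂ ih₁ ih₂ =>
    intro C hC hCh K hK
    have h1 := rows_fst hck hn h hC
    have h2 := rows_snd hck hn h hC
    have hok := h.1
    rw [hC] at hok
    obtain ⟨_, hl, _, hl', _⟩ := TC.ok_sub hok
    have h3 := not_mem_K hck hn h hC hK
    have hK₁ := hK.child hCh (D := TC.fst X u u' v v' TC.hole t₂) (by simp) (τ := t₁) rfl
    have hK₂ := hK.child hCh (D := TC.snd X u u' v v' t₁ TC.hole) (by simp) (τ := t₂) rfl
    have i₁ := ih₁ _ (by rw [TC.fill_comp]; exact hC) (TC.comp_ne_left hCh) _ hK₁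
    have i₂ := ih₂ _ (by rw [TC.fill_comp]; exact hC) (TC.comp_ne_left hCh) _ hK₂
    have hc := hK₁.card
    rw [Finset.card_insert_of_notMem h3] at i₁ i₂ hc
    have e1 : ncl G.N G.A c + 1 - K.card = (ncl G.N G.A c + 1 - (K.card + 1)) + 1 := by omega
    rw [e1, pow_succ]
    generalize 2 ^ (ncl G.N G.A c + 1 - (K.card + 1)) = P at i₁ i₂ ⊢
    generalize ncl G.N G.A c = R at h1 h2 i₁ i₂ ⊢
    have e2 : 8 * (k + R + n + 1) * (P * 2) =
      8 * (k + R + n + 1) * P + 8 * (k + R + n + 1) * P := by ring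
    rw [e2]
    generalize 8 * (k + R + n + 1) * P = Q at i₁ i₂ ⊢
    simp only [TT.w, List.length_append, row_length, hc_length]
    omega

/-- (D8) -/
theorem mn_le {G : EG} {g c k n s : ℕ} (hck : c + 2 ≤ k) (hn : 1 ≤ n) {t₀ : TT}
    (h : Mn G g c k n s t₀) : (t₀.w n).length ≤ bd G.N G.A c k n := by
  classical
  have hok := h.1
  unfold bd
  have e1 : 2 ^ (ncl G.N G.A c + 3) = 2 ^ (ncl G.N G.A c + 1) * 4 := by
    rw [pow_add, pow_add]
    ring
  have h0 : 1 ≤ 2 ^ (ncl G.N G.A c + 1) := Nat.one_le_two_pow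
  rcases t₀ with ⟨u, u'⟩ | ⟨X, u, u', v, v', t₁, t₂⟩
  · have h1 := rows_base hck hn h (C := TC.hole) rfl
    have hl := hok.2.1
    rw [e1]
    generalize 2 ^ (ncl G.N G.A c + 1) = P at h0 ⊢
    generalize ncl G.N G.A c = R at h1 ⊢
    have h3 : 8 * (k + R + n + 2) * 1 ≤ 8 * (k + R + n + 2) * (P * 4) :=
      Nat.mul_le_mul_left _ (by omega)
    simp only [TT.w, List.length_append, row_length, hc_length]
    omega
  · have h1 := rows_fst hck hn h (C := TC.hole) rfl
    have h2 := rows_snd hck hn h (C := TC.hole) rfl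
    obtain ⟨_, hl, _, hl', _⟩ := hok
    have i₁ := len_le hck hn h t₁ (TC.fst X u u' v v' TC.hole t₂) rfl (by simp) ∅
      (fun κ hκ => absurd hκ (Finset.notMem_empty κ))
    have i₂ := len_le hck hn h t₂ (TC.snd X u u' v v' t₁ TC.hole) rfl (by simp) ∅
      (fun κ hκ => absurd hκ (Finset.notMem_empty κ))
    rw [Finset.card_empty, Nat.sub_zero] at i₁ i₂
    rw [e1]
    generalize 2 ^ (ncl G.N G.A c + 1) = P at h0 i₁ i₂ ⊢
    generalize ncl G.N G.A c = R at h1 h2 i₁ i₂ ⊢
    have e2 : 8 * (k + R + n + 2) * (P * 4) =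
      4 * (8 * (k + R + n + 1) * P) + 32 * P := by ring
    have h3 : 8 * (k + R + n + 1) * 1 ≤ 8 * (k + R + n + 1) * P := Nat.mul_le_mul_left _ h0
    rw [e2]
    generalize 8 * (k + R + n + 1) * P = Q at i₁ i₂ h3 ⊢
    simp only [TT.w, List.length_append, row_length, hc_length]
    omega

end Pool.Agent.NGP
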