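import Pool.Agent.NGP.D11

/-!
# NGP, part D12: soundness and existence of the certificates (D9, D10 of PROOF.md)

`Fok.bt`: induction on `F` (the letters, `bdd`). `Fok.append`: induction on the first list, the
children are still members.
`facts`: all facts of the subtrees. `facts_ok`: induction on the tree, `Fok.append`.
`ws_all`: by induction on the length all `u` with letters `≤ g` and length `≤ b` are in `ws`.
`ts_all`: induction on `t`: the rows and the subtrees are shorter than the word, `length ≤ b`.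
`d_sound'`: by contradiction take a `t` with `t.ok g k` without bounded tree of type `G.st` of
minimal length (`Mn`), then `mn_le` and `bd ≤ b`, so `t.w n ∈ ts` and `F` gives a bounded tree.
`d_ex`: `b = bd G.N G.A c k n`, `ws` = the list of `Wd (g + 1) b`, `ts` = the list of the words in
`Wd (10 + 8 * (g + 1)) b` of the form `t.w n` with `t.ok g k` (the letters of `t.w n` are
`< 10 + 8 (g + 1)` by `Mid_TT`), `F` = concatenation of the facts of bounded root trees of all
`t ∈ ts`.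
-/

namespace Pool.Agent.NGP

theorem Fok.bt {G : EG} {c : ℕ} {F : List (ℕ × List ℕ)} (h : Fok G c F) :
    ∀ f ∈ F, BT G c f.1 f.2 := by
  induction F with
  | nil => intro f hf; simp at hf
  | cons f0 F ih =>
    obtain ⟨h1, h2, h3, h4⟩ := h
    intro f hf
    rcases List.mem_cons.1 hf with rfl | hf
    · rcases h4 with ⟨he, hy⟩ | ⟨a, ha, hl, hy⟩ | ⟨f₁, hf₁, f₂, hf₂, hb, hy⟩
      · exact ⟨Tr.ep f.1, ⟨h3, he⟩, trivial, rfl, hy.symm⟩
      · refine ⟨Tr.lf f.1 a, ⟨h3, ha, hl⟩, ?_, rfl, hy.symm⟩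
        rw [hy] at h2
        exact h2
      · obtain ⟨τ₁, ho1, hb1, ht1, hy1⟩ := ih h1 f₁ hf₁
        obtain ⟨τ₂, ho2, hb2, ht2, hy2⟩ := ih h1 f₂ hf₂
        refine ⟨Tr.nd f.1 τ₁ τ₂, ⟨h3, ?_, ho1, ho2⟩, ⟨?_, hb1, hb2⟩, rfl, ?_⟩
        · rw [ht1, ht2]; exact hb
        · rw [hy1, hy2, ← hy]; exact h2
        · show τ₁.y ++ τ₂.y = f.2
          rw [hy1, hy2, ← hy]
    · exact ih h1 f hf

theorem Fok.append {G : EG} {c : ℕ} {F F' : List (ℕ × List ℕ)} (h : Fok G c F)
    (h' : Fok G c F') : Fok G c (F ++ F') := by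
  induction F with
  | nil => exact h'
  | cons f0 F ih =>
    obtain ⟨h1, h2, h3, h4⟩ := h
    refine ⟨ih h1, h2, h3, ?_⟩
    rcases h4 with h4 | h4 | ⟨f₁, hf₁, f₂, hf₂, hb, hy⟩
    · exact Or.inl h4
    · exact Or.inr (Or.inl h4)
    · exact Or.inr (Or.inr ⟨f₁, List.mem_append_left _ hf₁, f₂, List.mem_append_left _ hf₂, hb, hy⟩)

/-- The facts of a tree. -/
def facts : Tr → List (ℕ × List ℕ)
  | Tr.ep t => [(t, [])]
  | Tr.lf t a => [(t, [a])]
  | Tr.nd t l r => (t, l.y ++ r.y) :: (facts l ++ facts r)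

theorem facts_mem (τ : Tr) : (τ.ty, τ.y) ∈ facts τ := by
  cases τ with
  | ep t => exact List.mem_cons_self
  | lf t a => exact List.mem_cons_self
  | nd t l r => exact List.mem_cons_self

theorem facts_ok {G : EG} {c : ℕ} {τ : Tr} (hok : τ.ok G) (hb : bdd c τ) :
    Fok G c (facts τ) := by
  induction τ with
  | ep t =>
    exact ⟨trivial, Nat.zero_le _, hok.1, Or.inl ⟨hok.2, rfl⟩⟩
  | lf t a =>
    exact ⟨trivial, hb, hok.1, Or.inr (Or.inl ⟨a, hok.2.1, hok.2.2, rfl⟩)⟩
  | nd t l r ihl ihr =>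
    obtain ⟨ht, hbin, hl, hr⟩ := hok
    obtain ⟨hn, hbl, hbr⟩ := hb
    refine ⟨Fok.append (ihl hl hbl) (ihr hr hbr), hn, ht, Or.inr (Or.inr ⟨(l.ty, l.y), ?_,
      (r.ty, r.y), ?_, hbin, rfl⟩)⟩
    · exact List.mem_append_left _ (facts_mem l)
    · exact List.mem_append_right _ (facts_mem r)

theorem ws_all {g b : ℕ} {ws : List (List ℕ)} (h0 : [] ∈ ws)
    (h1 : ∀ u ∈ ws, u.length < b → ∀ x ≤ g, x :: u ∈ ws) :
    ∀ u : List ℕ, u.length ≤ b → (∀ x ∈ u, x ≤ g) → u ∈ ws := by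
  intro u
  induction u with
  | nil => intro _ _; exact h0
  | cons x u ih =>
    intro hl hx
    rw [List.length_cons] at hl
    exact h1 u (ih (by omega) (fun y hy => hx y (List.mem_cons_of_mem _ hy))) (by omega) x
      (hx x List.mem_cons_self)

theorem ts_all {g : ℕ} {G : EG} {n c k b : ℕ} {F : List (ℕ × List ℕ)} {ts ws : List (List ℕ)}
    (h : Dcert g G n c k b F ts ws) : ∀ t : TT, t.ok g k → (t.w n).length ≤ b →
      t.w n ∈ ts := by
  obtain ⟨-, -, -, h0, h1, hbase, hnd, -⟩ := h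
  intro t
  induction t with
  | base u u' =>
    intro ht hl
    obtain ⟨hk, hl', hg⟩ := ht
    have hl2 : (row 6 u ++ hc n ++ row 7 u' ++ hc n).length ≤ b := hl
    have hu : u.length ≤ b := by
      simp only [List.length_append, row, List.length_map] at hl2
      omega
    exact hbase u (ws_all h0 h1 u hu (fun x hx => hg x (List.mem_append_left _ hx))) u'
      (ws_all h0 h1 u' (hl' ▸ hu) (fun x hx => hg x (List.mem_append_right _ hx))) hk hl' hl2
  | nd X u u' v v' t₁ t₂ ih1 ih2 =>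
    intro ht hl
    obtain ⟨hku, hlu, hkv, hlv, hg, ht1, ht2⟩ := ht
    have hl2 : (row (if X then 2 else 0) u ++ hc n ++ t₁.w n ++ row (if X then 3 else 1) u' ++
      hc n ++ row 4 v ++ hc n ++ t₂.w n ++ row 5 v' ++ hc n).length ≤ b := hl
    have hl3 := hl2
    simp only [List.length_append, row, List.length_map] at hl3
    exact hnd X u (ws_all h0 h1 u (by omega) (fun x hx => hg x (by simp [hx]))) u'
      (ws_all h0 h1 u' (by omega) (fun x hx => hg x (by simp [hx]))) v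
      (ws_all h0 h1 v (by omega) (fun x hx => hg x (by simp [hx]))) v'
      (ws_all h0 h1 v' (by omega) (fun x hx => hg x (by simp [hx]))) (t₁.w n)
      (ih1 ht1 (by omega)) (t₂.w n) (ih2 ht2 (by omega)) hku hlu hkv hlv hl2

theorem d_sound' {g : ℕ} {G : EG} {n c k b : ℕ} {F : List (ℕ × List ℕ)} {ts ws : List (List ℕ)}
    (h : Dcert g G n c k b F ts ws) {t : TT} (ht : t.ok g k) : BT G c G.st (TW n n n t) := by
  by_contra hcon
  classical
  obtain ⟨hck, hn, hbd, -, -, -, -, hF, hts⟩ := id h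
  have hex : ∃ m : ℕ, ∃ t : TT, t.ok g k ∧ ¬ BT G c G.st (TW n n n t) ∧ (t.w n).length = m :=
    ⟨_, t, ht, hcon, rfl⟩
  obtain ⟨t₀, h1, h2, h3⟩ := Nat.find_spec hex
  have hMn : Mn G g c k n G.st t₀ := by
    refine ⟨h1, h2, ?_⟩
    intro t' ht' hlt
    by_contra hc'
    rw [h3] at hlt
    exact Nat.find_min hex hlt ⟨t', ht', hc', rfl⟩
  have hle := mn_le hck hn hMn
  have hmem := ts_all h t₀ h1 (hle.trans hbd)
  have hbt := Fok.bt hF _ (hts _ hmem)
  apply h2
  have e : TW n n n t₀ = P1 n n ++ hc n ++ t₀.w n ++ P2 n n := by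
    simp only [TW, List.append_assoc]
  rw [e]
  exact hbt

theorem d_ex {g : ℕ} {G : EG} {n c k : ℕ} (hck : c + 2 ≤ k) (hn : 1 ≤ n)
    (h : ∀ t : TT, t.ok g k → BT G c G.st (TW n n n t)) :
    ∃ b F ts ws, Dcert g G n c k b F ts ws := by
  classical
  obtain ⟨b, hb⟩ : ∃ b, b = bd G.N G.A c k n := ⟨_, rfl⟩
  have hlet : ∀ t : TT, t.ok g k → (t.w n).length ≤ b → t.w n ∈ Wd (10 + 8 * (g + 1)) b := by
    intro t ht hl
    rw [mem_Wd]
    refine ⟨hl, ?_⟩
    intro a ha
    obtain ⟨-, hm, -⟩ := Mid_TT (n := n) ht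
    rcases hm a (List.mem_append_right _ ha) with h' | h'
    · omega
    · exact h'.2
  obtain ⟨ws, hws⟩ : ∃ ws : List (List ℕ), ∀ u, u ∈ ws ↔ u.length ≤ b ∧ ∀ a ∈ u, a < g + 1 :=
    ⟨(Wd (g + 1) b).toList, fun u => by rw [Finset.mem_toList, mem_Wd]⟩
  obtain ⟨ts, hts⟩ : ∃ ts : List (List ℕ), ∀ w, w ∈ ts ↔ w ∈ Wd (10 + 8 * (g + 1)) b ∧
      ∃ t : TT, t.ok g k ∧ t.w n = w :=
    ⟨((Wd (10 + 8 * (g + 1)) b).filter fun w => ∃ t : TT, t.ok g k ∧ t.w n = w).toList,
      fun w => by rw [Finset.mem_toList, Finset.mem_filter]⟩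
  have hFex : ∀ l : List (List ℕ), (∀ w ∈ l, ∃ t : TT, t.ok g k ∧ t.w n = w) →
      ∃ F, Fok G c F ∧ ∀ w ∈ l, (G.st, P1 n n ++ hc n ++ w ++ P2 n n) ∈ F := by
    intro l
    induction l with
    | nil => intro _; exact ⟨[], trivial, fun w hw => by simp at hw⟩
    | cons w l ih =>
      intro hl
      obtain ⟨F, hF, hFm⟩ := ih (fun w' hw' => hl w' (List.mem_cons_of_mem _ hw'))
      obtain ⟨t, ht, rfl⟩ := hl w List.mem_cons_self
      obtain ⟨τ, ho, hbd, hty, hy⟩ := h t ht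
      refine ⟨facts τ ++ F, Fok.append (facts_ok ho hbd) hF, ?_⟩
      intro w' hw'
      rcases List.mem_cons.1 hw' with rfl | hw'
      · apply List.mem_append_left
        have h1 := facts_mem τ
        rw [hty, hy] at h1
        have e : TW n n n t = P1 n n ++ hc n ++ t.w n ++ P2 n n := by
          simp only [TW, List.append_assoc]
        rw [e] at h1
        exact h1
      · exact List.mem_append_right _ (hFm w' hw')
  obtain ⟨F, hF, hFm⟩ := hFex ts (fun w hw => ((hts w).1 hw).2)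
  refine ⟨b, F, ts, ws, hck, hn, hb.symm.le, ?_, ?_, ?_, ?_, hF, hFm⟩
  · rw [hws]; exact ⟨Nat.zero_le _, fun a ha => by simp at ha⟩
  · intro u hu hl x hx
    rw [hws] at hu ⊢
    refine ⟨by rw [List.length_cons]; omega, ?_⟩
    intro a ha
    rcases List.mem_cons.1 ha with rfl | ha
    · omega
    · exact hu.2 a ha
  · intro u hu u' hu' hk hl' hlen
    rw [hws] at hu hu'
    have hok : (TT.base u u').ok g k := by
      refine ⟨hk, hl', ?_⟩
      intro x hx
      rcases List.mem_append.1 hx with hx | hx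
      · have := hu.2 x hx; omega
      · have := hu'.2 x hx; omega
    rw [hts]
    exact ⟨hlet _ hok hlen, _, hok, rfl⟩
  · intro X u hu u' hu' v hv v' hv' t₁ ht₁ t₂ ht₂ hku hlu hkv hlv hlen
    rw [hws] at hu hu' hv hv'
    obtain ⟨-, τ₁, ho1, rfl⟩ := (hts _).1 ht₁
    obtain ⟨-, τ₂, ho2, rfl⟩ := (hts _).1 ht₂
    have hok : (TT.nd X u u' v v' τ₁ τ₂).ok g k := by
      refine ⟨hku, hlu, hkv, hlv, ?_, ho1, ho2⟩
      intro x hx
      rcases List.mem_append.1 hx with hx | hx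
      · rcases List.mem_append.1 hx with hx | hx
        · rcases List.mem_append.1 hx with hx | hx
          · have := hu.2 x hx; omega
          · have := hu'.2 x hx; omega
        · have := hv.2 x hx; omega
      · have := hv'.2 x hx; omega
    rw [hts]
    exact ⟨hlet _ hok hlen, _, hok, rfl⟩

end Pool.Agent.NGP
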