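import Pool.Agent.NGP.V1

/-!
# NGP, part K: cells, labels and the automaton `dst` of special words
-/

namespace Pool.Agent.NGP

theorem lead_append_of {u w : List ℕ} (h : ∀ a ∈ u, lh a = none) :
    lead (u ++ w) = u.length + lead w := by
  induction u with
  | nil => simp
  | cons a u ih =>
    have ha : lh a = none := h a (by simp)
    simp only [List.cons_append, lead, ha, if_true, List.length_cons]
    rw [ih (fun b hb => h b (by simp [hb]))]
    omega

theorem lead_cons_label {a : ℕ} {w : List ℕ} (h : lh a ≠ none) : lead (a :: w) = 0 := by
  simp [lead, h]

theorem lead_append_label {u w : List ℕ} (h : ∃ a ∈ u, lh a ≠ none) :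
    lead (u ++ w) = lead u := by
  induction u with
  | nil => simp at h
  | cons a u ih =>
    by_cases ha : lh a = none
    · obtain ⟨b, hb, hb'⟩ := h
      rcases List.mem_cons.1 hb with rfl | hb
      · exact absurd ha hb'
      · simp only [List.cons_append, lead, ha, if_true]
        rw [ih ⟨b, hb, hb'⟩]
    · simp [lead, ha]

theorem cells_append_nolabel {u w : List ℕ} (h : ∀ a ∈ u, lh a = none) :
    cells (u ++ w) = cells w := by
  induction u with
  | nil => simp
  | cons a u ih =>
    have ha : lh a = none := h a (by simp)
    simp only [List.cons_append, cells, ha]
    exact ih (fun b hb => h b (by simp [hb]))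

/-- Adding `n` to the content of the last cell. -/
def addl (n : ℕ) : List (ℕ × ℕ) → List (ℕ × ℕ)
  | [] => []
  | [c] => [(c.1, c.2 + n)]
  | c :: d :: C => c :: addl n (d :: C)

theorem addl_zero (C : List (ℕ × ℕ)) : addl 0 C = C := by
  induction C with
  | nil => rfl
  | cons c C ih =>
    cases C with
    | nil => simp [addl]
    | cons d C => simp [addl, ih]

theorem addl_append {n : ℕ} {C D : List (ℕ × ℕ)} (h : D ≠ []) :
    addl n (C ++ D) = C ++ addl n D := by
  induction C with
  | nil => rfl
  | cons c C ih =>
    cases C with
    | nil =>
      cases D with
      | nil => exact absurd rfl h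
      | cons d D => simp [addl]
    | cons d C => simpa [addl] using ih

theorem addl_length (n : ℕ) (C : List (ℕ × ℕ)) : (addl n C).length = C.length := by
  induction C with
  | nil => rfl
  | cons c C ih =>
    cases C with
    | nil => simp [addl]
    | cons d C => simpa [addl] using ih

theorem addl_labels (n : ℕ) (C : List (ℕ × ℕ)) : (addl n C).map Prod.fst = C.map Prod.fst := by
  induction C with
  | nil => rfl
  | cons c C ih =>
    cases C with
    | nil => simp [addl]
    | cons d C => simpa [addl] using ih

/-- Cells of a concatenation. -/
theorem cells_append (u w : List ℕ) : cells (u ++ w) = addl (lead w) (cells u) ++ cells w := by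
  induction u with
  | nil => simp [cells, addl]
  | cons a u ih =>
    by_cases ha : lh a = none
    · simp only [List.cons_append, cells, ha, ih]
    · obtain ⟨l, hl⟩ := Option.ne_none_iff_exists'.1 ha
      simp only [List.cons_append, cells, hl, ih]
      by_cases hu : ∃ b ∈ u, lh b ≠ none
      · rw [lead_append_label hu]
        have hne : cells u ≠ [] := by
          obtain ⟨b, hb, hb'⟩ := hu
          clear ih ha hl
          induction u with
          | nil => simp at hb
          | cons c u ih =>
            by_cases hc : lh c = none
            · simp only [cells, hc]
              rcases List.mem_cons.1 hb with rfl | hb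
              · exact absurd hc hb'
              · exact ih hb
            · obtain ⟨l', hl'⟩ := Option.ne_none_iff_exists'.1 hc
              simp [cells, hl']
        obtain ⟨c, C, hC⟩ := List.exists_cons_of_ne_nil hne
        rw [hC]
        simp [addl]
      · push Not at hu
        rw [lead_append_of hu]
        have : cells u = [] := by
          have := cells_append_nolabel (w := []) hu
          simpa [cells] using this
        rw [this]
        have h0 : lead u = u.length := by
          have := lead_append_of (w := []) hu
          simpa [lead] using this
        simp [addl, h0]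

theorem labs_eq (w : List ℕ) : labs w = (cells w).map Prod.fst := by
  induction w with
  | nil => rfl
  | cons a w ih =>
    by_cases ha : lh a = none
    · have : labs (a :: w) = labs w := by simp [labs, ha]
      rw [this, ih]
      simp [cells, ha]
    · obtain ⟨l, hl⟩ := Option.ne_none_iff_exists'.1 ha
      have : labs (a :: w) = l :: labs w := by simp [labs, hl]
      rw [this, ih]
      simp [cells, hl]

theorem labs_append (u w : List ℕ) : labs (u ++ w) = labs u ++ labs w := by
  simp [labs]

/-! ## The automaton -/

/-- Run of the automaton `dst`. -/
def drun (n : ℕ) : ℕ → List ℕ → Option ℕ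
  | s, [] => some s
  | s, a :: w => (dst n s a).bind fun s' => drun n s' w

theorem drun_append (n s : ℕ) (u w : List ℕ) :
    drun n s (u ++ w) = (drun n s u).bind fun s' => drun n s' w := by
  induction u generalizing s with
  | nil => simp [drun]
  | cons a u ih =>
    simp only [List.cons_append, drun]
    rcases h : dst n s a with _ | s'
    · simp
    · simp only [Option.bind_some]
      exact ih s'

theorem dst_lt {n s a s' : ℕ} (hs : s < 2 * n + 3) (h : dst n s a = some s') :
    s' < 2 * n + 3 := by
  unfold dst at h
  rcases hl : lh a with _ | l
  · simp only [hl] at h
    split_ifs at h with h1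
    simp only [Option.some.injEq] at h
    omega
  · simp only [hl] at h
    split_ifs at h <;> simp only [Option.some.injEq] at h <;> omega

theorem drun_lt {n s s' : ℕ} {w : List ℕ} (hs : s < 2 * n + 3) (h : drun n s w = some s') :
    s' < 2 * n + 3 := by
  induction w generalizing s with
  | nil =>
    simp only [drun, Option.some.injEq] at h
    omega
  | cons a w ih =>
    simp only [drun] at h
    rcases hd : dst n s a with _ | s''
    · simp [hd] at h
    · rw [hd, Option.bind_some] at h
      exact ih (dst_lt hs hd) h

end Pool.Agent.NGP
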