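import Pool.Agent.NGP.DDefs
import Pool.Agent.NGP.S1

/-!
# NGP, part D2: words with long end blocks are not garbage

`lh 2 = lh 4 = lh 6 = lh 8 = some 1`, `lh 3 = lh 5 = lh 7 = lh 9 = none`, `lh 0 = some 0`.
`cells_fmt`: `cells_append`, `lead_append_of`, `lead_cons_label`; the middle part starts with `0`,
`P2` with `6`, so all leads at the seams are `0` (`addl_zero`).
`cells_le`: induction; `lead w ≤ w.length`.
`hsh_cells`: induction, `lh a = some 0 ↔ a = 0`.
`Mt.partner`, `Zp.partner`: induction on the inductive predicate.
`not_KK`: let `C = (1, i₁) :: (1, j₁) :: (cells m ++ [(1, i₂), (1, j₂)])`. `hsh C ≤ m.length`.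
KeL: `A` starts with `(1, i₁)`, so `lsum A ≥ i₁ + 1 > hsh B`. KeR: `B` ends with `(1, j₂)`.
Kp: `C = p ++ (0, k) :: s`; `p ≠ []` (the first cell has label `1`), so `(1, i₁) ∈ p.reverse`
has a partner in `s` with content `i₁`; `s` is a suffix of
`cells m ++ [(1, i₂), (1, j₂)]` (the second cell has label `1`), whose contents are `< m.length`
or `i₂`, `j₂`.
-/

namespace Pool.Agent.NGP

theorem cells_fmt {i₁ j₁ i₂ j₂ : ℕ} {m : List ℕ} (hm : ∃ m', m = 0 :: m') :
    cells (P1 i₁ j₁ ++ m ++ P2 i₂ j₂) =
      (1, i₁) :: (1, j₁) :: (cells m ++ [(1, i₂), (1, j₂)]) := by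
  obtain ⟨m', rfl⟩ := hm
  have hrep : ∀ (k b : ℕ), lh b = none → ∀ a ∈ List.replicate k b, lh a = none := by
    intro k b hb a ha
    rw [(List.mem_replicate.1 ha).2]
    exact hb
  have h2 : ∀ w, cells (2 :: w) = (1, lead w) :: cells w := fun _ => rfl
  have h4 : ∀ w, cells (4 :: w) = (1, lead w) :: cells w := fun _ => rfl
  have h6 : ∀ w, cells (6 :: w) = (1, lead w) :: cells w := fun _ => rfl
  have h8 : ∀ w, cells (8 :: w) = (1, lead w) :: cells w := fun _ => rfl
  have l0 : ∀ w, lead (0 :: w) = 0 := fun _ => rfl
  have l4 : ∀ w, lead (4 :: w) = 0 := fun _ => rfl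
  have l6 : ∀ w, lead (6 :: w) = 0 := fun _ => rfl
  have l8 : ∀ w, lead (8 :: w) = 0 := fun _ => rfl
  have hP2 : cells (P2 i₂ j₂) = [(1, i₂), (1, j₂)] := by
    unfold P2
    rw [List.cons_append, h6, lead_append_of (hrep _ _ rfl), l8, List.length_replicate,
      cells_append_nolabel (hrep _ _ rfl), h8]
    have h9 := lead_append_of (u := List.replicate j₂ 9) (w := []) (hrep _ _ rfl)
    have h9' := cells_append_nolabel (u := List.replicate j₂ 9) (w := []) (hrep _ _ rfl)
    rw [List.append_nil] at h9 h9'
    rw [h9, h9', List.length_replicate]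
    rfl
  have hl : lead (P2 i₂ j₂) = 0 := rfl
  have e1 : P1 i₁ j₁ ++ (0 :: m') ++ P2 i₂ j₂ =
      2 :: (List.replicate i₁ 3 ++ 4 :: (List.replicate j₁ 5 ++ (0 :: m' ++ P2 i₂ j₂))) := by
    unfold P1
    simp
  rw [e1, h2, lead_append_of (hrep _ _ rfl), l4, List.length_replicate,
    cells_append_nolabel (hrep _ _ rfl), h4, lead_append_of (hrep _ _ rfl),
    List.length_replicate, cells_append_nolabel (hrep _ _ rfl), cells_append, hl, addl_zero, hP2]
  rfl

private theorem lead_le (w : List ℕ) : lead w ≤ w.length := by
  induction w with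
  | nil => exact le_rfl
  | cons a w ih =>
    have h1 : lead (a :: w) = if lh a = none then lead w + 1 else 0 := rfl
    rw [h1, List.length_cons]
    split_ifs <;> omega

theorem cells_le {w : List ℕ} : ∀ e ∈ cells w, e.2 + 1 ≤ w.length := by
  induction w with
  | nil => intro e he; exact absurd he List.not_mem_nil
  | cons a w ih =>
    intro e he
    rw [List.length_cons]
    cases hl : lh a with
    | none =>
      have h1 : cells (a :: w) = cells w := by
        change (match lh a with | none => cells w | some l => (l, lead w) :: cells w) = _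
        rw [hl]
      rw [h1] at he
      have := ih e he
      omega
    | some l =>
      have h1 : cells (a :: w) = (l, lead w) :: cells w := by
        change (match lh a with | none => cells w | some l => (l, lead w) :: cells w) = _
        rw [hl]
      rw [h1] at he
      rcases List.mem_cons.1 he with h | h
      · rw [h]
        have := lead_le w
        simp only
        omega
      · have := ih e h
        omega

private theorem lh_zero_iff (a : ℕ) : lh a = some 0 ↔ a = 0 := by
  constructor
  · intro h
    unfold lh at h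
    split_ifs at h with h1 h2 h3 h4
    · exact h1
    · simp at h
    · simp at h
  · rintro rfl
    rfl

theorem hsh_cells (w : List ℕ) : hsh (cells w) = w.count 0 := by
  induction w with
  | nil => rfl
  | cons a w ih =>
    cases hl : lh a with
    | none =>
      have h1 : cells (a :: w) = cells w := by
        change (match lh a with | none => cells w | some l => (l, lead w) :: cells w) = _
        rw [hl]
      have h2 : a ≠ 0 := by
        rintro rfl
        simp [lh] at hl
      rw [h1, ih, List.count_cons_of_ne h2]
    | some l =>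
      have h1 : cells (a :: w) = (l, lead w) :: cells w := by
        change (match lh a with | none => cells w | some l => (l, lead w) :: cells w) = _
        rw [hl]
      rw [h1]
      unfold hsh at ih ⊢
      by_cases h0 : l = 0
      · subst h0
        have ha : a = 0 := (lh_zero_iff a).1 hl
        subst ha
        rw [List.countP_cons_of_pos (by simp), List.count_cons_self, ih]
      · have ha : a ≠ 0 := by
          rintro rfl
          apply h0
          have : lh 0 = some 0 := rfl
          rw [this] at hl
          exact (Option.some.inj hl).symm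
        rw [List.countP_cons_of_neg (by simpa using h0), List.count_cons_of_ne ha, ih]

theorem Mt.partner {l r : List (ℕ × ℕ)} (h : Mt l r) :
    ∀ e ∈ l, e.1 ≠ 0 → ∃ e' ∈ r, e'.2 = e.2 := by
  induction h with
  | nil => intro e he; exact absurd he List.not_mem_nil
  | skl h ih =>
    intro e he h0
    rcases List.mem_cons.1 he with h1 | h1
    · rw [h1] at h0
      exact absurd rfl h0
    · exact ih e h1 h0
  | skr h ih =>
    intro e he h0
    obtain ⟨e', h1, h2⟩ := ih e he h0
    exact ⟨e', List.mem_cons_of_mem _ h1, h2⟩
  | @pair a b n l r h ih =>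
    intro e he h0
    rcases List.mem_cons.1 he with h1 | h1
    · rw [h1]
      exact ⟨(b, n), List.mem_cons_self, rfl⟩
    · obtain ⟨e', h2, h3⟩ := ih e h1 h0
      exact ⟨e', List.mem_cons_of_mem _ h2, h3⟩

theorem Zp.partner {q : ℕ → ℕ → ℕ → ℕ → Bool} {a c : ℕ} {l r : List (ℕ × ℕ)}
    (h : Zp q a c l r) : ∀ e ∈ l, e.1 ≠ 0 → ∃ e' ∈ r, e'.2 = e.2 := by
  induction h with
  | @step a b c d n l r hq hb hd h ih =>
    intro e he h0
    rcases List.mem_cons.1 he with h1 | h1
    · rw [h1]
      exact ⟨(d, n), List.mem_cons_self, rfl⟩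
    · obtain ⟨e', h2, h3⟩ := ih e h1 h0
      exact ⟨e', List.mem_cons_of_mem _ h2, h3⟩
  | viol hq hb hd h => exact h.partner

theorem not_KK {q : ℕ → ℕ → ℕ → ℕ → Bool} {i₁ j₁ i₂ j₂ : ℕ} {m : List ℕ}
    (hm : ∃ m', m = 0 :: m') (h1 : m.length ≤ i₁) (h2 : i₂ < i₁) (h3 : j₂ < i₁)
    (h4 : m.length ≤ j₂) : ¬ KK q (cells (P1 i₁ j₁ ++ m ++ P2 i₂ j₂)) := by
  rw [cells_fmt hm]
  have hH : hsh ((1, i₁) :: (1, j₁) :: (cells m ++ [(1, i₂), (1, j₂)])) ≤ m.length := by
    have h5 : hsh ((1, i₁) :: (1, j₁) :: (cells m ++ [(1, i₂), (1, j₂)])) = hsh (cells m) := by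
      unfold hsh
      simp [List.countP_cons, List.countP_append]
    rw [h5, hsh_cells]
    exact List.count_le_length
  have hsub : ∀ X Y Z : List (ℕ × ℕ), hsh Y ≤ hsh (X ++ Y ++ Z) := by
    intro X Y Z
    unfold hsh
    rw [List.countP_append, List.countP_append]
    omega
  rintro (⟨A, c, c', B, hC, hA, -, hle⟩ | ⟨A, c, c', B, hC, hB, -, hle⟩ | ⟨p, k, s, hC, hz⟩)
  · -- left anomaly
    obtain ⟨x, A', rfl⟩ := List.exists_cons_of_ne_nil hA
    have h5 : x = (1, i₁) := by
      rw [List.cons_append] at hC
      exact (List.cons.inj hC).1.symm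
    have h6 : i₁ + 1 ≤ lsum (x :: A') := by
      rw [h5]
      unfold lsum
      rw [List.map_cons, List.sum_cons]
      simp only
      omega
    have h7 : hsh B ≤ m.length := by
      refine le_trans ?_ hH
      rw [hC]
      have := hsub (x :: A' ++ [c, c']) B []
      simpa using this
    omega
  · -- right anomaly
    have h5 : B = B.dropLast ++ [(1, j₂)] := by
      have h6 := congrArg List.getLast? hC
      have h7 : ((1, i₁) :: (1, j₁) :: (cells m ++ [(1, i₂), (1, j₂)])).getLast? =
          some (1, j₂) := by
        have : (1, i₁) :: (1, j₁) :: (cells m ++ [(1, i₂), (1, j₂)]) =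
            ((1, i₁) :: (1, j₁) :: (cells m ++ [(1, i₂)])) ++ [(1, j₂)] := by simp
        rw [this, List.getLast?_concat]
      have h8 : (A ++ c :: c' :: B).getLast? = some (B.getLast hB) := by
        have h9 : A ++ c :: c' :: B = (A ++ [c, c'] ++ B.dropLast) ++ [B.getLast hB] := by
          conv_lhs => rw [← List.dropLast_append_getLast hB]
          simp
        rw [h9, List.getLast?_concat]
      rw [h7, h8] at h6
      have h10 := (Option.some.inj h6).symm
      conv_lhs => rw [← List.dropLast_append_getLast hB]
      rw [h10]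
    have h6 : j₂ + 1 ≤ lsum B := by
      rw [h5]
      unfold lsum
      rw [List.map_append, List.sum_append, List.map_singleton, List.sum_singleton]
      simp only
      omega
    have h7 : hsh A ≤ m.length := by
      refine le_trans ?_ hH
      rw [hC]
      have := hsub [] A (c :: c' :: B)
      simpa using this
    omega
  · -- violation
    have hp : p ≠ [] := by
      rintro rfl
      rw [List.nil_append] at hC
      have := (List.cons.inj hC).1
      simp at this
    obtain ⟨x, p', rfl⟩ := List.exists_cons_of_ne_nil hp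
    rw [List.cons_append] at hC
    obtain ⟨hx, hC⟩ := List.cons.inj hC
    have hp' : p' ≠ [] := by
      rintro rfl
      rw [List.nil_append] at hC
      have := (List.cons.inj hC).1
      simp at this
    obtain ⟨x', p'', rfl⟩ := List.exists_cons_of_ne_nil hp'
    rw [List.cons_append] at hC
    obtain ⟨-, hC⟩ := List.cons.inj hC
    obtain ⟨e, he, he2⟩ := hz.partner (1, i₁) (by rw [hx]; simp) (by simp)
    have he' : e ∈ cells m ++ [(1, i₂), (1, j₂)] := by
      rw [hC]
      exact List.mem_append_right _ (List.mem_cons_of_mem _ he)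
    simp only at he2
    rcases List.mem_append.1 he' with h5 | h5
    · have := cells_le e h5
      omega
    · rcases List.mem_cons.1 h5 with h6 | h6
      · rw [h6] at he2
        simp only at he2
        omega
      · have h7 := List.mem_singleton.1 h6
        rw [h7] at he2
        simp only at he2
        omega

end Pool.Agent.NGP
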