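import Pool.Agent.NGP.D2

/-!
# NGP, part D3: loops of derivation trees of words with long end blocks

`fv_P1`, `fv_P2`: `lf 2 = lf 3 = of 0`, `lf 4 = lf 5 = (of 0)⁻¹`, `lf 6 = lf 7 = of 1`,
`lf 8 = lf 9 = (of 1)⁻¹`, `fv (replicate i a) = lf a ^ i`.
`count_fmt`: letters of `m` are `< 2` or `≥ 10`.
`lpeq_of_big`: let `Lp τ c d σ`, `x = c.pre`, `u = d.pre`, `z = σ.y`, `v = d.post`, `y = c.post`,
`W = x u z v y`, `W₂ = x u u z v v y ∈ G.L` (`Lp.pump` with `k = 2`), so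
`W₂ = P1 i₁ j₁ ++ m' ++ P2 i₂ j₂`. For every letter `a`: `count a W ≤ count a W₂ ≤ 2 count a W`
(also for `countP`), so `m1 ≤ i₁, j₁ ≤ 2 m1`, `m2 ≤ i₂, j₂ ≤ 2 m2`, and
`m'.length = countP (· < 2 or ≥ 10) W₂ ≤ 2 m.length`. By `not_KK` the word `W₂` is Dyck, so
`fv W₂ = 1 = fv W` (`Dyck.fv_eq_one`), and cancelling: `fv u * fv z * fv v = fv z`.
-/

namespace Pool.Agent.NGP

private theorem fv_replicate (i a : ℕ) : fv (List.replicate i a) = lf a ^ i := by
  simp [fv]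

private theorem lf2 : lf 2 = FreeGroup.of 0 := by simp [lf, lv]
private theorem lf3 : lf 3 = FreeGroup.of 0 := by simp [lf, lv]
private theorem lf4 : lf 4 = (FreeGroup.of 0)⁻¹ := by simp [lf, lv]
private theorem lf5 : lf 5 = (FreeGroup.of 0)⁻¹ := by simp [lf, lv]
private theorem lf6 : lf 6 = FreeGroup.of 1 := by simp [lf, lv]
private theorem lf7 : lf 7 = FreeGroup.of 1 := by simp [lf, lv]
private theorem lf8 : lf 8 = (FreeGroup.of 1)⁻¹ := by simp [lf, lv]
private theorem lf9 : lf 9 = (FreeGroup.of 1)⁻¹ := by simp [lf, lv]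

private theorem pow_cancel {G : Type*} [Group G] (a : G) (i : ℕ) :
    a * a ^ i * (a⁻¹ * a⁻¹ ^ i) = 1 := by
  rw [← pow_succ', ← pow_succ', inv_pow, mul_inv_cancel]

private theorem grp_aux {G : Type*} [Group G] {x u z v y : G} (f1 : x * (u * z * v) * y = 1)
    (f2 : x * (u * u) * z * (v * v) * y = 1) : u * z * v = z := by
  have g1 : u * z * v = x⁻¹ * y⁻¹ := by
    have h : x⁻¹ * (x * (u * z * v) * y) * y⁻¹ = x⁻¹ * 1 * y⁻¹ := by rw [f1]
    simpa [mul_assoc] using h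
  have g2 : u * (u * z * v) * v = x⁻¹ * y⁻¹ := by
    have h : x⁻¹ * (x * (u * u) * z * (v * v) * y) * y⁻¹ = x⁻¹ * 1 * y⁻¹ := by rw [f2]
    simpa [mul_assoc] using h
  rw [← g1] at g2
  exact mul_left_cancel (mul_right_cancel g2)

theorem fv_P1 (i : ℕ) : fv (P1 i i) = 1 := by
  unfold P1
  rw [fv_append, fv_cons, fv_cons, fv_replicate, fv_replicate, lf2, lf3, lf4, lf5]
  exact pow_cancel _ i

theorem fv_P2 (i : ℕ) : fv (P2 i i) = 1 := by
  unfold P2
  rw [fv_append, fv_cons, fv_cons, fv_replicate, fv_replicate, lf6, lf7, lf8, lf9]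
  exact pow_cancel _ i

/-- Letters of the middle part. -/
def isMid (a : ℕ) : Bool := decide (a < 2 ∨ 10 ≤ a)

theorem count_fmt {g i₁ j₁ i₂ j₂ : ℕ} {m : List ℕ} (hm : Mid g m) :
    (P1 i₁ j₁ ++ m ++ P2 i₂ j₂).count 3 = i₁ ∧ (P1 i₁ j₁ ++ m ++ P2 i₂ j₂).count 5 = j₁ ∧
    (P1 i₁ j₁ ++ m ++ P2 i₂ j₂).count 7 = i₂ ∧ (P1 i₁ j₁ ++ m ++ P2 i₂ j₂).count 9 = j₂ ∧
    (P1 i₁ j₁ ++ m ++ P2 i₂ j₂).countP isMid = m.length := by
  have hlet : ∀ a ∈ m, a < 2 ∨ 10 ≤ a := fun a ha => (hm.2.1 a ha).imp id fun h => h.1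
  have h0 : ∀ b, 2 ≤ b → b < 10 → m.count b = 0 := by
    intro b hb1 hb2
    refine List.count_eq_zero_of_not_mem fun hb => ?_
    have := hlet b hb
    omega
  have hm' : m.countP isMid = m.length := by
    rw [List.countP_eq_length]
    intro a ha
    unfold isMid
    exact decide_eq_true (hlet a ha)
  have e3 := h0 3 (by norm_num) (by norm_num)
  have e5 := h0 5 (by norm_num) (by norm_num)
  have e7 := h0 7 (by norm_num) (by norm_num)
  have e9 := h0 9 (by norm_num) (by norm_num)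
  have hi2 : isMid 2 = false := by decide
  have hi3 : isMid 3 = false := by decide
  have hi4 : isMid 4 = false := by decide
  have hi5 : isMid 5 = false := by decide
  have hi6 : isMid 6 = false := by decide
  have hi7 : isMid 7 = false := by decide
  have hi8 : isMid 8 = false := by decide
  have hi9 : isMid 9 = false := by decide
  refine ⟨?_, ?_, ?_, ?_, ?_⟩
  · simp [P1, P2, List.count_append, List.count_replicate, e3]
  · simp [P1, P2, List.count_append, List.count_replicate, e5]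
  · simp [P1, P2, List.count_append, List.count_replicate, e7]
  · simp [P1, P2, List.count_append, List.count_replicate, e9]
  · simp [P1, P2, List.countP_append, List.countP_replicate, hm',
      hi2, hi3, hi4, hi5, hi6, hi7, hi8, hi9]

/-- (D2) -/
theorem lpeq_of_big {g : ℕ} {q : ℕ → ℕ → ℕ → ℕ → Bool} {G : EG} (hG : ∀ w, G.L w → LQ g q w)
    {m : List ℕ} {m1 m2 : ℕ} (hm : Mid g m) (hd : fv m = 1) (h2 : 2 * m.length + 2 ≤ m2)
    (h1 : 2 * m2 + 2 ≤ m1) {τ : Tr} (hok : τ.ok G) (hty : τ.ty = G.st)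
    (hy : τ.y = P1 m1 m1 ++ m ++ P2 m2 m2) : Lpeq τ := by
  intro c d σ hlp
  obtain ⟨τ', hok', hty', hy'⟩ := Lp.pump hok hlp 2
  have hL : LQ g q τ'.y := hG _ ⟨τ', hok', by rw [hty', hty], rfl⟩
  obtain ⟨⟨i₁, j₁, m', i₂, j₂, hW2, hm'⟩, hor⟩ := hL
  have hW : τ.y = c.pre ++ (d.pre ++ σ.y ++ d.post) ++ c.post := by
    rw [hlp.1, Cx.y_fill, Cx.y_fill]
  have e2 : ∀ l : List ℕ, (List.replicate 2 l).flatten = l ++ l := by
    intro l; simp [List.replicate_succ]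
  rw [e2, e2] at hy'
  have key : ∀ p : ℕ → Bool, τ.y.countP p ≤ τ'.y.countP p ∧
      τ'.y.countP p ≤ 2 * τ.y.countP p := by
    intro p
    rw [hW, hy']
    simp only [List.countP_append]
    omega
  obtain ⟨a1, a2, a3, a4, a5⟩ := count_fmt (i₁ := m1) (j₁ := m1) (i₂ := m2) (j₂ := m2) hm
  obtain ⟨b1, b2, b3, b4, b5⟩ := count_fmt (i₁ := i₁) (j₁ := j₁) (i₂ := i₂) (j₂ := j₂) hm'
  rw [← hy] at a1 a2 a3 a4 a5
  rw [← hW2] at b1 b2 b3 b4 b5
  have k3 := key (· == 3)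
  have k5 := key (· == 5)
  have k7 := key (· == 7)
  have k9 := key (· == 9)
  have km := key isMid
  simp only [List.count] at a1 a2 a3 a4 b1 b2 b3 b4
  rw [a1, b1] at k3
  rw [a2, b2] at k5
  rw [a3, b3] at k7
  rw [a4, b4] at k9
  rw [a5, b5] at km
  have hnot : ¬ KK q (cells τ'.y) := by
    rw [hW2]
    exact not_KK hm'.1 (by omega) (by omega) (by omega) (by omega)
  have hD : Dyck τ'.y := hor.resolve_right hnot
  have f2 : fv τ'.y = 1 := hD.fv_eq_one
  have f1 : fv τ.y = 1 := by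
    rw [hy, fv_append, fv_append, fv_P1, fv_P2, hd]
    simp
  rw [hy'] at f2
  rw [hW] at f1
  simp only [fv_append] at f1 f2
  rw [Cx.y_fill]
  simp only [fv_append]
  exact grp_aux f1 f2

end Pool.Agent.NGP
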