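import Pool.Agent.NGP.DDefs

/-!
# NGP, part D4: values of factors of forest words

`sv` is defined in V2: `sv (i :: s) = sv s * of i` (top first).
`norm_sv`: `sv (a ++ e) = sv e * sv a`, so the element is `(sv a)⁻¹ * sv b`, which is
`FreeGroup.mk` of `a.map (·, false) ++ (b.reverse.map (·, true))`; this list is reduced (the signs
are constant on both parts, at the seam the generators are the last elements of `a` and `b`, which
are different), so its norm is its length (`FreeGroup.IsReduced`, `FreeGroup.norm`, ...).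
`Fw.dyck`: induction (`stk_append`, `stk_frame`).
`Fw.pre`: induction on `Fw`: for `a :: (w' ++ b :: w)` a prefix is `[]`, or `a :: u` with
`u` a prefix of `w'` (stack `t ++ [i]`), or `a :: (w' ++ b :: u)` with `u` a prefix of `w` (stack of
`u`).
`Fw.low`: for `x`, `x ++ y₁`, `x ++ y₁ ++ y₂` prefixes with stacks `t`, `r`, `t'`: every common
suffix `e` of `t` and `t'` has length `≤ r.length`. Induction on `Fw`, cases as in `Fw.pre`: if `x`
is in the first node (stack `t₁ ++ [i]`) and `x ++ y₁ ++ y₂` behind it, `t'` is empty or ends with an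
element of `S`, which is not `i`, so `e = []`.
`Fw.geo`: let `t`, `r`, `t'` be the three stacks; write `t = a ++ e`, `t' = b ++ e` with `e` the
longest common suffix; `sv t * fv y = sv t'` (`sv_stk`), so `nm y = a.length + b.length`
(`nm_eq`, `norm_sv`), and `e.length ≤ r.length`.
-/

namespace Pool.Agent.NGP

theorem sv_append (a e : List ℕ) : sv (a ++ e) = sv e * sv a := by
  induction a with
  | nil => simp [sv]
  | cons i a ih => simp only [List.cons_append, sv, ih, mul_assoc]

theorem sv_mk (a : List ℕ) : sv a = FreeGroup.mk (a.reverse.map fun i => (i, true)) := by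
  induction a with
  | nil => rfl
  | cons i a ih =>
    rw [sv, ih, List.reverse_cons, List.map_append, ← FreeGroup.mul_mk]
    rfl

theorem sv_inv_mk (a : List ℕ) : (sv a)⁻¹ = FreeGroup.mk (a.map fun i => (i, false)) := by
  rw [sv_mk, FreeGroup.inv_mk]
  congr 1
  simp [FreeGroup.invRev, List.map_reverse, Function.comp_def]

theorem chain_const (a : List ℕ) (s : Bool) :
    List.IsChain (fun x y : ℕ × Bool => x.1 = y.1 → x.2 = y.2) (a.map fun i => (i, s)) := by
  rw [List.isChain_map]
  induction a with
  | nil => exact List.IsChain.nil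
  | cons i a ih =>
    cases a with
    | nil => exact List.IsChain.singleton _
    | cons j a => exact List.IsChain.cons_cons (fun _ => rfl) ih

theorem norm_sv {a b e : List ℕ} (h : ∀ x ∈ a.getLast?, ∀ y ∈ b.getLast?, x ≠ y) :
    ((sv (a ++ e))⁻¹ * sv (b ++ e)).norm = a.length + b.length := by
  have h1 : (sv (a ++ e))⁻¹ * sv (b ++ e) = (sv a)⁻¹ * sv b := by
    rw [sv_append, sv_append]
    group
  rw [h1, sv_inv_mk, sv_mk, FreeGroup.mul_mk, FreeGroup.norm, FreeGroup.toWord_mk]
  have h2 : FreeGroup.IsReduced (a.map (fun i => (i, false)) ++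
      b.reverse.map fun i => (i, true)) := by
    unfold FreeGroup.IsReduced
    rw [List.isChain_append]
    refine ⟨chain_const a false, chain_const b.reverse true, ?_⟩
    intro x hx y hy hxy
    rw [List.getLast?_map, Option.mem_def, Option.map_eq_some_iff] at hx
    rw [List.head?_map, List.head?_reverse, Option.mem_def, Option.map_eq_some_iff] at hy
    obtain ⟨x', hx', rfl⟩ := hx
    obtain ⟨y', hy', rfl⟩ := hy
    exact absurd hxy (h x' hx' y' hy')
  rw [h2.reduce_eq]
  simp

theorem exists_prefix : ∀ (s s' : List ℕ), ∃ a b e, s = e ++ a ∧ s' = e ++ b ∧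
    ∀ x ∈ a.head?, ∀ y ∈ b.head?, x ≠ y
  | [], s' => ⟨[], s', [], rfl, rfl, by simp⟩
  | s, [] => ⟨s, [], [], rfl, rfl, by simp⟩
  | x :: s, y :: s' => by
    by_cases hxy : x = y
    · subst hxy
      obtain ⟨a, b, e, rfl, rfl, h⟩ := exists_prefix s s'
      exact ⟨a, b, x :: e, rfl, rfl, h⟩
    · refine ⟨x :: s, y :: s', [], rfl, rfl, ?_⟩
      intro x' hx' y' hy'
      simp only [List.head?_cons, Option.mem_def, Option.some.injEq] at hx' hy'
      rw [← hx', ← hy']
      exact hxy

/-- Longest common suffix. -/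
theorem exists_suffix (t t' : List ℕ) : ∃ a b e, t = a ++ e ∧ t' = b ++ e ∧
    ∀ x ∈ a.getLast?, ∀ y ∈ b.getLast?, x ≠ y := by
  obtain ⟨a, b, e, h1, h2, h3⟩ := exists_prefix t.reverse t'.reverse
  refine ⟨a.reverse, b.reverse, e.reverse, ?_, ?_, ?_⟩
  · rw [← List.reverse_append, ← h1, List.reverse_reverse]
  · rw [← List.reverse_append, ← h2, List.reverse_reverse]
  · intro x hx y hy
    rw [List.getLast?_reverse] at hx hy
    exact h3 x hx y hy

/-- Reading a word behind an opening letter. -/
theorem stk_in {a i : ℕ} {u t : List ℕ} (ha : lv a = some (i, true)) (h : stk [] u = some t) :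
    stk [] (a :: u) = some (t ++ [i]) := by
  rw [stk_cons]
  simp only [ha]
  have := stk_frame [i] h
  simpa using this

/-- Reading behind a closed node. -/
theorem stk_node {a b i : ℕ} {w u : List ℕ} (ha : lv a = some (i, true))
    (hb : lv b = some (i, false)) (h : stk [] w = some []) :
    stk [] (a :: (w ++ b :: u)) = stk [] u := by
  have h1 : stk [i] w = some [i] := by
    have := stk_frame [i] h
    simpa using this
  rw [stk_cons]
  simp only [ha]
  rw [stk_append, h1, Option.bind_some, stk_cons]
  simp only [hb, if_true]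

theorem Fw.dyck {S w : List ℕ} (h : Fw S w) : stk [] w = some [] := by
  induction h with
  | nil => exact stk_nil []
  | neut ha _ ih =>
    rw [stk_cons]
    simp only [ha]
    exact ih
  | node ha hb _ _ _ ih' ih =>
    rw [stk_node ha hb ih']
    exact ih

theorem Fw.pre {S w : List ℕ} (h : Fw S w) : ∀ u v, w = u ++ v →
    ∃ t, stk [] u = some t ∧ ∀ j ∈ t.getLast?, j ∈ S := by
  induction h with
  | nil =>
    intro u v huv
    obtain ⟨rfl, rfl⟩ := List.append_eq_nil_iff.1 huv.symm
    exact ⟨[], stk_nil [], by simp⟩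
  | @neut S w a ha _ ih =>
    intro u v huv
    rcases u with _ | ⟨x, u⟩
    · exact ⟨[], stk_nil [], by simp⟩
    · rw [List.cons_append, List.cons.injEq] at huv
      obtain ⟨rfl, huv⟩ := huv
      obtain ⟨t, h1, h2⟩ := ih u v huv
      refine ⟨t, ?_, h2⟩
      rw [stk_cons]
      simp only [ha]
      exact h1
  | @node S S' w w' a b i ha hb h' h hi ih' ih =>
    intro u v huv
    rcases u with _ | ⟨x, u⟩
    · exact ⟨[], stk_nil [], by simp⟩
    · rw [List.cons_append, List.cons.injEq] at huv
      obtain ⟨rfl, huv⟩ := huv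
      rw [List.append_eq_append_iff] at huv
      rcases huv with ⟨d, rfl, hd⟩ | ⟨d, rfl, hd⟩
      · rcases d with _ | ⟨y, d⟩
        · refine ⟨[i], ?_, by simp⟩
          rw [List.append_nil]
          have := stk_in ha h'.dyck
          simpa using this
        · rw [List.cons_append, List.cons.injEq] at hd
          obtain ⟨rfl, hd⟩ := hd
          obtain ⟨t, h1, h2⟩ := ih d v hd
          refine ⟨t, ?_, fun j hj => List.mem_cons_of_mem _ (h2 j hj)⟩
          rw [stk_node ha hb h'.dyck]
          exact h1
      · obtain ⟨t, h1, h2⟩ := ih' u d rfl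
        refine ⟨t ++ [i], stk_in ha h1, ?_⟩
        simp

theorem Fw.low {S w : List ℕ} (h : Fw S w) : ∀ x y₁ y₂ z, w = x ++ (y₁ ++ y₂) ++ z →
    ∀ t r t', stk [] x = some t → stk [] (x ++ y₁) = some r →
    stk [] (x ++ (y₁ ++ y₂)) = some t' →
    ∀ a b e, t = a ++ e → t' = b ++ e → e.length ≤ r.length := by
  induction h with
  | nil =>
    intro x y₁ y₂ z hw t r t' hx _ _ a b e ht _
    have hx0 : x = [] := by
      have := congrArg List.length hw
      simp only [List.length_nil, List.length_append] at this
      exact List.length_eq_zero_iff.1 (by omega)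
    subst hx0
    rw [stk_nil, Option.some.injEq] at hx
    subst hx
    obtain ⟨_, rfl⟩ := List.append_eq_nil_iff.1 ht.symm
    simp
  | @neut S w x₀ hx₀ _ ih =>
    intro x y₁ y₂ z hw t r t' hx hr hx' a b e ht ht'
    rcases x with _ | ⟨x1, x⟩
    · rw [stk_nil, Option.some.injEq] at hx
      subst hx
      obtain ⟨_, rfl⟩ := List.append_eq_nil_iff.1 ht.symm
      simp
    · simp only [List.cons_append, List.cons.injEq] at hw
      obtain ⟨rfl, hw⟩ := hw
      rw [stk_cons] at hx
      rw [List.cons_append, stk_cons] at hr hx'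
      simp only [hx₀] at hx hr hx'
      exact ih x y₁ y₂ z hw t r t' hx hr hx' a b e ht ht'
  | @node S S' w w' x₀ b₀ i ha hb h' h hi ih' ih =>
    intro x y₁ y₂ z hw t r t' hx hr hx' a b e ht ht'
    rcases x with _ | ⟨x1, x⟩
    · rw [stk_nil, Option.some.injEq] at hx
      subst hx
      obtain ⟨_, rfl⟩ := List.append_eq_nil_iff.1 ht.symm
      simp
    · simp only [List.cons_append, List.cons.injEq] at hw
      obtain ⟨rfl, hw⟩ := hw
      rw [List.cons_append] at hr hx'
      have hw2 := hw
      rw [List.append_eq_append_iff] at hw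
      have caseA : ∀ d, w' = x ++ (y₁ ++ y₂) ++ d → e.length ≤ r.length := by
        intro d hd
        obtain ⟨t₁, hx₁, _⟩ := h'.pre x ((y₁ ++ y₂) ++ d) (by rw [hd, List.append_assoc])
        obtain ⟨r₁, hr₁, _⟩ := h'.pre (x ++ y₁) (y₂ ++ d) (by rw [hd]; simp)
        obtain ⟨t₁', hx₁', _⟩ := h'.pre (x ++ (y₁ ++ y₂)) d hd
        rw [stk_in ha hx₁, Option.some.injEq] at hx
        rw [stk_in ha hr₁, Option.some.injEq] at hr
        rw [stk_in ha hx₁', Option.some.injEq] at hx'
        subst hr
        rcases List.eq_nil_or_concat e with he | ⟨e', j, he⟩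
        · rw [he]
          simp
        · rw [List.concat_eq_append] at he
          subst he
          have h1 : t₁ ++ [i] = (a ++ e') ++ [j] := by rw [hx, ht]; simp
          have h2 : t₁' ++ [i] = (b ++ e') ++ [j] := by rw [hx', ht']; simp
          have h1' := (List.append_inj' h1 rfl).1
          have h2' := (List.append_inj' h2 rfl).1
          have := ih' x y₁ y₂ d hd t₁ r₁ t₁' hx₁ hr₁ hx₁' a b e' h1' h2'
          simp only [List.length_append, List.length_singleton]
          omega
      have caseB : ∀ d d', w' = x ++ d → x ++ (y₁ ++ y₂) = w' ++ b₀ :: d' → w = d' ++ z →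
          e.length ≤ r.length := by
        intro d d' hd hd' hd''
        obtain ⟨t₁, hx₁, _⟩ := h'.pre x d hd
        obtain ⟨t₂, hx₂, hS⟩ := h.pre d' z hd''
        rw [stk_in ha hx₁, Option.some.injEq] at hx
        rw [hd', stk_node ha hb h'.dyck, hx₂, Option.some.injEq] at hx'
        rcases List.eq_nil_or_concat e with he | ⟨e', j, he⟩
        · rw [he]
          simp
        · rw [List.concat_eq_append] at he
          subst he
          have h1 : t₁ ++ [i] = (a ++ e') ++ [j] := by rw [hx, ht]; simp
          have h1' := (List.append_inj' h1 rfl).2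
          rw [List.cons.injEq] at h1'
          exfalso
          apply hi
          apply hS
          rw [hx', ht', ← List.append_assoc, h1'.1]
          simp
      rcases hw with ⟨d, hd, hd'⟩ | ⟨d, hd, hd'⟩
      · -- the factor ends behind the first node
        rcases d with _ | ⟨b₁, d⟩
        · exact caseA [] (by rw [hd]; simp)
        · rw [List.cons_append, List.cons.injEq] at hd'
          obtain ⟨rfl, hd'⟩ := hd'
          have hd2 := hd
          rw [List.append_eq_append_iff] at hd2
          rcases hd2 with ⟨d₂, hd₂, _⟩ | ⟨d₂, hd₂, hd₂'⟩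
          · exact caseB d₂ d hd₂ hd hd'
          · rcases d₂ with _ | ⟨b₁, d₂⟩
            · exact caseB [] d (by rw [hd₂]; simp) hd hd'
            · rw [List.cons_append, List.cons.injEq] at hd₂'
              obtain ⟨rfl, hd₂'⟩ := hd₂'
              subst hd₂
              rw [stk_node ha hb h'.dyck] at hx
              have e1 : (w' ++ b₀ :: d₂) ++ y₁ = w' ++ b₀ :: (d₂ ++ y₁) := by simp
              have e2 : (w' ++ b₀ :: d₂) ++ (y₁ ++ y₂) = w' ++ b₀ :: (d₂ ++ (y₁ ++ y₂)) := by simp
              rw [e1, stk_node ha hb h'.dyck] at hr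
              rw [e2, stk_node ha hb h'.dyck] at hx'
              exact ih d₂ y₁ y₂ z (by rw [hd', hd₂']) t r t' hx hr hx' a b e ht ht'
      · exact caseA d hd

/-- (D3) -/
theorem Fw.geo {S w : List ℕ} (h : Fw S w) : Geo w := by
  intro x y₁ y₂ z hw
  obtain ⟨t, hx, _⟩ := h.pre x ((y₁ ++ y₂) ++ z) (by rw [hw, List.append_assoc])
  obtain ⟨r, hr, _⟩ := h.pre (x ++ y₁) (y₂ ++ z) (by rw [hw]; simp)
  obtain ⟨t', hx', _⟩ := h.pre (x ++ (y₁ ++ y₂)) z hw
  obtain ⟨a, b, e, hta, htb, hab⟩ := exists_suffix t t'
  have hlow := h.low x y₁ y₂ z hw t r t' hx hr hx' a b e hta htb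
  have hy : stk t (y₁ ++ y₂) = some t' := by
    rw [stk_append, hx, Option.bind_some] at hx'
    exact hx'
  have hv := sv_stk hy
  have hn : nm (y₁ ++ y₂) = a.length + b.length := by
    rw [nm_eq, ← norm_sv (e := e) hab, ← hta, ← htb, ← hv]
    congr 1
    group
  unfold hgt
  rw [hx, hr, hx', hn]
  simp only [Option.getD_some]
  rw [hta, htb]
  simp only [List.length_append]
  omega

end Pool.Agent.NGP
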