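import Pool.Agent.NGP.DDefs

/-!
# NGP, part D5: tree words are forest words and middle parts

Letters: `lv (10 + 8 x + δ) = some (2 + δ / 2, δ even)` for `δ < 8`; `lv 0 = lv 1 = none`;
`lv 2 = lv 3 = some (0, true)`, `lv 4 = lv 5 = some (0, false)`, `lv 6 = lv 7 = some (1, true)`,
`lv 8 = lv 9 = some (1, false)`.
`Fw.append`: induction on the first `Fw`. `Fw_hc`: `neut`.
`Fw.nest`: induction on `u` (peel the first letter of `u` and the last letter of `u'`), using
`Fw.node` with `w = []`: for `u = [a]` the inner part is `w`, top level `[i]`.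
`Fw_P1`, `Fw_P2`: `P1 i i = (2 :: replicate i 3) ++ [] ++ (4 :: replicate i 5)`: `Fw.nest`.
`Fw_TT`: induction on `t`: `base`: `[5]`; `nd`: `[2 or 3, 4]`.
`Mid_TT`: the chain condition `Nx`: prove for all `t` that `t.w n` is a chain for `Nx` after any
letter `a < 2` and ends with a letter `< 2` (`hc n` ends with `0` or `1`).
-/

namespace Pool.Agent.NGP

theorem Fw.append {S S' w w' : List ℕ} (h : Fw S w) (h' : Fw S' w') (hd : ∀ i ∈ S, i ∉ S') :
    Fw (S ++ S') (w ++ w') := by
  induction h with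
  | nil => simpa using h'
  | neut ha _ ih =>
    rw [List.cons_append]
    exact Fw.neut ha (ih hd)
  | @node S S₁ w₂ w₁ a b i ha hb h1 _ hi _ ih2 =>
    have e : (a :: (w₁ ++ b :: w₂)) ++ w' = a :: (w₁ ++ b :: (w₂ ++ w')) := by simp
    rw [e, List.cons_append]
    refine Fw.node ha hb h1 (ih2 fun j hj => hd j (List.mem_cons_of_mem _ hj)) ?_
    intro h3
    rcases List.mem_append.1 h3 with h3 | h3
    · exact hi h3
    · exact hd i List.mem_cons_self h3

private theorem Fw_rep1 (n : ℕ) : Fw [] (List.replicate n 1) := by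
  induction n with
  | zero => exact Fw.nil
  | succ n ih =>
    rw [List.replicate_succ]
    exact Fw.neut (by decide) ih

theorem Fw_hc (n : ℕ) : Fw [] (hc n) := Fw.neut (by decide) (Fw_rep1 n)

theorem Fw.nest {i : ℕ} {o o' : List ℕ} (ho : ∀ a ∈ o, lv a = some (i, true))
    (ho' : ∀ a ∈ o', lv a = some (i, false)) (hl : o'.length = o.length) (hne : o ≠ [])
    {S w : List ℕ} (h : Fw S w) : Fw [i] (o ++ w ++ o') := by
  induction o generalizing o' with
  | nil => exact absurd rfl hne
  | cons a o₁ ih =>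
    have hne' : o' ≠ [] := by
      intro h1
      rw [h1] at hl
      simp at hl
    obtain ⟨o'₁, b, rfl⟩ : ∃ o'₁ b, o' = o'₁ ++ [b] :=
      ⟨o'.dropLast, o'.getLast hne', (List.dropLast_append_getLast hne').symm⟩
    have hl' : o'₁.length = o₁.length := by simpa using hl
    have ha : lv a = some (i, true) := ho a List.mem_cons_self
    have hb : lv b = some (i, false) := ho' b (by simp)
    have e : (a :: o₁) ++ w ++ (o'₁ ++ [b]) = a :: ((o₁ ++ w ++ o'₁) ++ b :: []) := by simp
    rw [e]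
    by_cases h1 : o₁ = []
    · subst h1
      have h2 : o'₁ = [] := List.length_eq_zero_iff.1 (by simpa using hl')
      subst h2
      simp only [List.nil_append, List.append_nil]
      exact Fw.node ha hb h Fw.nil (by simp)
    · exact Fw.node ha hb (ih (fun c hc => ho c (List.mem_cons_of_mem _ hc))
        (fun c hc => ho' c (List.mem_append_left _ hc)) hl' h1) Fw.nil (by simp)

theorem lv_row {δ a : ℕ} (hδ : δ < 8) {u : List ℕ} (ha : a ∈ row δ u) :
    lv a = some (2 + δ / 2, decide (δ % 2 = 0)) := by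
  obtain ⟨x, _, rfl⟩ := List.mem_map.1 ha
  unfold lv
  rw [if_neg (by omega), if_neg (by omega)]
  have h1 : (10 + 8 * x + δ - 10) % 8 = δ := by omega
  have h2 : (10 + 8 * x + δ - 10) % 2 = δ % 2 := by omega
  rw [h1, h2]

theorem Fw_P1 (i : ℕ) : Fw [0] (P1 i i) := by
  have e : P1 i i = (2 :: List.replicate i 3) ++ [] ++ (4 :: List.replicate i 5) := by
    simp [P1]
  rw [e]
  refine Fw.nest ?_ ?_ (by simp) (by simp) Fw.nil
  · intro a ha
    rcases List.mem_cons.1 ha with rfl | ha
    · decide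
    · rw [List.eq_of_mem_replicate ha]; decide
  · intro a ha
    rcases List.mem_cons.1 ha with rfl | ha
    · decide
    · rw [List.eq_of_mem_replicate ha]; decide

theorem Fw_P2 (i : ℕ) : Fw [1] (P2 i i) := by
  have e : P2 i i = (6 :: List.replicate i 7) ++ [] ++ (8 :: List.replicate i 9) := by
    simp [P2]
  rw [e]
  refine Fw.nest ?_ ?_ (by simp) (by simp) Fw.nil
  · intro a ha
    rcases List.mem_cons.1 ha with rfl | ha
    · decide
    · rw [List.eq_of_mem_replicate ha]; decide
  · intro a ha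
    rcases List.mem_cons.1 ha with rfl | ha
    · decide
    · rw [List.eq_of_mem_replicate ha]; decide

private theorem row_ne {δ : ℕ} {u : List ℕ} (h : 1 ≤ u.length) : row δ u ≠ [] := by
  intro h1
  have h2 : (row δ u).length = 0 := by rw [h1]; rfl
  simp [row] at h2
  rw [h2] at h
  simp at h

private theorem nest_row {d : ℕ} (hd : d < 4) {u u' : List ℕ} (h1 : 1 ≤ u.length)
    (h2 : u'.length = u.length) {S w : List ℕ} (h : Fw S w) :
    Fw [2 + d] (row (2 * d) u ++ w ++ row (2 * d + 1) u') := by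
  refine Fw.nest ?_ ?_ ?_ (row_ne h1) h
  · intro a ha
    rw [lv_row (by omega) ha]
    have e1 : 2 * d / 2 = d := by omega
    have e2 : 2 * d % 2 = 0 := by omega
    rw [e1, e2]; rfl
  · intro a ha
    rw [lv_row (by omega) ha]
    have e1 : (2 * d + 1) / 2 = d := by omega
    have e2 : (2 * d + 1) % 2 = 1 := by omega
    rw [e1, e2]; rfl
  · simp [row, h2]

theorem Fw_TT {g n : ℕ} {t : TT} (ht : t.ok g 1) : ∃ S, Fw S (t.w n) ∧ ∀ i ∈ S, 2 ≤ i := by
  induction t with
  | base u u' =>
    obtain ⟨h1, h2, -⟩ := ht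
    refine ⟨[5] ++ [], ?_, by simp⟩
    exact (nest_row (d := 3) (by norm_num) h1 h2 (Fw_hc n)).append (Fw_hc n) (by simp)
  | nd X u u' v v' t₁ t₂ ih₁ ih₂ =>
    obtain ⟨h1, h2, h3, h4, -, h5, h6⟩ := ht
    obtain ⟨S₁, hS₁, -⟩ := ih₁ h5
    obtain ⟨S₂, hS₂, -⟩ := ih₂ h6
    have H2 : Fw [4] (row 4 v ++ (hc n ++ t₂.w n) ++ row 5 v') :=
      nest_row (d := 2) (by norm_num) h3 h4 ((Fw_hc n).append hS₂ (by simp))
    have key : ∀ i, i < 4 → ∀ A : List ℕ, Fw [i] A →
        Fw [i, 4] (A ++ (hc n ++ ((row 4 v ++ (hc n ++ t₂.w n) ++ row 5 v') ++ hc n))) := by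
      intro i hi A hA
      have := hA.append ((Fw_hc n).append (H2.append (Fw_hc n) (by simp)) (by simp)) (by
        simp only [List.mem_singleton, List.append_nil, List.nil_append, forall_eq]
        omega)
      simpa using this
    cases X with
    | false =>
      refine ⟨[2, 4], ?_, by simp⟩
      have H1 : Fw [2] (row 0 u ++ (hc n ++ t₁.w n) ++ row 1 u') :=
        nest_row (d := 0) (by norm_num) h1 h2 ((Fw_hc n).append hS₁ (by simp))
      have := key 2 (by norm_num) _ H1
      simpa [TT.w, List.append_assoc] using this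
    | true =>
      refine ⟨[3, 4], ?_, by simp⟩
      have H1 : Fw [3] (row 2 u ++ (hc n ++ t₁.w n) ++ row 3 u') :=
        nest_row (d := 1) (by norm_num) h1 h2 ((Fw_hc n).append hS₁ (by simp))
      have := key 3 (by norm_num) _ H1
      simpa [TT.w, List.append_assoc] using this

theorem Fw_TW {g n : ℕ} {t : TT} (ht : t.ok g 1) (i j : ℕ) : ∃ S, Fw S (TW i j n t) := by
  obtain ⟨S, hS, h2⟩ := Fw_TT (n := n) ht
  refine ⟨([0] ++ ([] ++ S)) ++ [1], ?_⟩
  refine ((Fw_P1 i).append ((Fw_hc n).append hS (by simp)) ?_).append (Fw_P2 j) ?_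
  · intro a ha
    rw [List.mem_singleton] at ha
    subst ha
    intro h
    rw [List.nil_append] at h
    have := h2 0 h
    omega
  · intro a ha hb
    rw [List.mem_singleton] at hb
    subst hb
    rcases List.mem_append.1 ha with h | h
    · simp at h
    · rw [List.nil_append] at h
      have := h2 1 h
      omega

/-- Lists that can be used after a letter `< 2`. -/
private def Gd (g : ℕ) (w : List ℕ) : Prop :=
  (∀ a ∈ w, a < 2 ∨ (10 ≤ a ∧ a < 10 + 8 * (g + 1))) ∧
    (∀ b < 2, List.IsChain Nx (b :: w)) ∧ ∀ b < 2, ∃ m' a, b :: w = m' ++ [a] ∧ a < 2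

private theorem Gd.append {g : ℕ} {w w' : List ℕ} (h : Gd g w) (h' : Gd g w') :
    Gd g (w ++ w') := by
  obtain ⟨h1, h2, h3⟩ := h
  obtain ⟨h1', h2', h3'⟩ := h'
  refine ⟨?_, ?_, ?_⟩
  · intro a ha
    rcases List.mem_append.1 ha with ha | ha
    · exact h1 a ha
    · exact h1' a ha
  · intro b hb
    obtain ⟨m, a, hm, ha⟩ := h3 b hb
    have e : b :: (w ++ w') = m ++ a :: w' := by
      rw [← List.cons_append, hm]; simp
    rw [e, List.isChain_split]
    exact ⟨hm ▸ h2 b hb, h2' a ha⟩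
  · intro b hb
    obtain ⟨m, a, hm, ha⟩ := h3 b hb
    obtain ⟨m', a', hm', ha'⟩ := h3' a ha
    refine ⟨m ++ m', a', ?_, ha'⟩
    rw [← List.cons_append, hm, List.append_assoc, List.singleton_append, hm', List.append_assoc]

private theorem rep_chain (n : ℕ) : ∀ b < 2, List.IsChain Nx (b :: List.replicate n 1) := by
  induction n with
  | zero => intro b _; simp
  | succ n ih =>
    intro b hb
    rw [List.replicate_succ, List.isChain_cons_cons]
    exact ⟨Or.inr (Or.inl ⟨rfl, hb⟩), ih 1 (by norm_num)⟩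

private theorem hc_chain (n : ℕ) (b : ℕ) : List.IsChain Nx (b :: hc n) := by
  unfold hc
  rw [List.isChain_cons_cons]
  exact ⟨Or.inl rfl, rep_chain n 0 (by norm_num)⟩

private theorem hc_last (n : ℕ) : ∃ m' a, hc n = m' ++ [a] ∧ a < 2 := by
  cases n with
  | zero => exact ⟨[], 0, rfl, by norm_num⟩
  | succ n =>
    refine ⟨0 :: List.replicate n 1, 1, ?_, by norm_num⟩
    unfold hc
    rw [List.replicate_succ']
    rfl

private theorem hc_mem {n a : ℕ} (h : a ∈ hc n) : a < 2 := by
  rcases List.mem_cons.1 h with rfl | h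
  · norm_num
  · rw [List.eq_of_mem_replicate h]; norm_num

private theorem Gd_hc (g n : ℕ) : Gd g (hc n) := by
  refine ⟨fun a ha => Or.inl (hc_mem ha), fun b _ => hc_chain n b, fun b _ => ?_⟩
  obtain ⟨m, a, h, ha⟩ := hc_last n
  exact ⟨b :: m, a, by rw [h]; rfl, ha⟩

private theorem row_chain {δ : ℕ} (hδ : δ < 8) (n : ℕ) (u : List ℕ) :
    ∀ b, (b < 2 ∨ (10 ≤ b ∧ (b - 10) % 8 = δ)) → List.IsChain Nx (b :: (row δ u ++ hc n)) := by
  induction u with
  | nil => intro b _; exact hc_chain n b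
  | cons x u ih =>
    intro b hb
    have e : row δ (x :: u) ++ hc n = (10 + 8 * x + δ) :: (row δ u ++ hc n) := rfl
    rw [e, List.isChain_cons_cons]
    have h1 : (10 + 8 * x + δ - 10) % 8 = δ := by omega
    refine ⟨Or.inr (Or.inr ⟨by omega, ?_⟩), ih _ (Or.inr ⟨by omega, h1⟩)⟩
    rcases hb with hb | ⟨hb, hb'⟩
    · exact Or.inl hb
    · exact Or.inr ⟨hb, by rw [h1, hb']⟩

private theorem Gd_row {g n δ : ℕ} (hδ : δ < 8) {u : List ℕ} (hu : ∀ x ∈ u, x ≤ g) :
    Gd g (row δ u ++ hc n) := by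
  refine ⟨?_, fun b hb => row_chain hδ n u b (Or.inl hb), fun b _ => ?_⟩
  · intro a ha
    rcases List.mem_append.1 ha with ha | ha
    · obtain ⟨x, hx, rfl⟩ := List.mem_map.1 ha
      have := hu x hx
      right
      omega
    · exact Or.inl (hc_mem ha)
  · obtain ⟨m, a, h, ha⟩ := hc_last n
    exact ⟨b :: (row δ u ++ m), a, by rw [h]; simp, ha⟩

private theorem Gd_TT {g k n : ℕ} {t : TT} (ht : t.ok g k) : Gd g (t.w n) := by
  induction t with
  | base u u' =>
    obtain ⟨-, -, h⟩ := ht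
    have h1 : Gd g (row 6 u ++ hc n) :=
      Gd_row (by norm_num) fun x hx => h x (List.mem_append_left _ hx)
    have h2 : Gd g (row 7 u' ++ hc n) :=
      Gd_row (by norm_num) fun x hx => h x (List.mem_append_right _ hx)
    have := h1.append h2
    simpa [TT.w, List.append_assoc] using this
  | nd X u u' v v' t₁ t₂ ih₁ ih₂ =>
    obtain ⟨-, -, -, -, h, h5, h6⟩ := ht
    have h1 : Gd g (row (if X then 2 else 0) u ++ hc n) :=
      Gd_row (by split_ifs <;> norm_num) fun x hx => h x (by simp [hx])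
    have h2 : Gd g (row (if X then 3 else 1) u' ++ hc n) :=
      Gd_row (by split_ifs <;> norm_num) fun x hx => h x (by simp [hx])
    have h3 : Gd g (row 4 v ++ hc n) :=
      Gd_row (by norm_num) fun x hx => h x (by simp [hx])
    have h4 : Gd g (row 5 v' ++ hc n) :=
      Gd_row (by norm_num) fun x hx => h x (by simp [hx])
    have := h1.append ((ih₁ h5).append (h2.append (h3.append ((ih₂ h6).append h4))))
    simpa only [TT.w, List.append_assoc] using this

theorem Mid_TT {g k n : ℕ} {t : TT} (ht : t.ok g k) : Mid g (hc n ++ t.w n) := by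
  obtain ⟨h1, h2, h3⟩ := (Gd_hc g n).append (Gd_TT (n := n) ht)
  refine ⟨⟨List.replicate n 1 ++ t.w n, rfl⟩, h1, ?_, ?_⟩
  · have := h2 0 (by norm_num)
    have e : hc n ++ t.w n = 0 :: (List.replicate n 1 ++ t.w n) := rfl
    rw [e] at this ⊢
    rw [List.isChain_cons_cons] at this
    exact this.2
  · obtain ⟨m, a, hm, ha⟩ := h3 0 (by norm_num)
    cases m with
    | nil =>
      simp [hc] at hm
    | cons b m =>
      refine ⟨m, a, ?_, ha⟩
      simp only [List.cons_append, List.cons.injEq] at hm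
      exact hm.2

theorem TT.ok_mono {g k k' : ℕ} (hk : k ≤ k') {t : TT} (ht : t.ok g k') : t.ok g k := by
  induction t with
  | base u u' => exact ⟨hk.trans ht.1, ht.2⟩
  | nd X u u' v v' t₁ t₂ ih₁ ih₂ =>
    obtain ⟨h1, h2, h3, h4, h, h5, h6⟩ := ht
    exact ⟨hk.trans h1, h2, hk.trans h3, h4, h, ih₁ h5, ih₂ h6⟩

end Pool.Agent.NGP
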