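import Pool.Agent.NGP.D5
import Pool.Agent.NGP.D7

/-!
# NGP, part D8: shortening the end blocks (D6 of PROOF.md)

`pk a b c x = replicate x a ++ b :: replicate (x - 1) c`. Take `Y i = pk 3 4 5 (i + 1)`: by
`exists_cls_eq` there are `i < j ≤ ncl`; `x = i + 1`, `x' = j + 1`, `p = x' - x`.
`P1 (m + p) (m + p) = (2 :: replicate (m - x) 3) ++ pk 3 4 5 x' ++ replicate (m - x + 1) 5`,
`P1 m m = (2 :: replicate (m - x) 3) ++ pk 3 4 5 x ++ replicate (m - x + 1) 5`
(`m + p - x' = m - x`, `m + p - (x' - 1) = m - x + 1`). `fv (pk 3 4 5 x) = 1`,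
`stk [] (pk 3 4 5 x) = some []`, length `2 x ≥ 2`. The last `c + 1` letters of the first part are
opening, the first `c + 1` letters of the third part are closing (`m ≥ ncl + c + 3`). Apply
`d_replace` with `y = pk x'`, `y' = pk x`. In the same way for `P2` with the letters `7`, `8`, `9`.
-/

namespace Pool.Agent.NGP

/-- Peaks. -/
private def D8_pk (a b c x : ℕ) : List ℕ := List.replicate x a ++ b :: List.replicate (x - 1) c

private theorem D8_open {a k : ℕ} (ha : lv a = some (k, true)) (x : ℕ) (s : List ℕ) :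
    stk s (List.replicate x a) = some (List.replicate x k ++ s) := by
  induction x generalizing s with
  | zero => rfl
  | succ x ih =>
    rw [List.replicate_succ, stk_cons, ha]
    simp only
    rw [ih, List.replicate_succ']
    simp

private theorem D8_close {a k : ℕ} (ha : lv a = some (k, false)) (x : ℕ) (s : List ℕ) :
    stk (List.replicate x k ++ s) (List.replicate x a) = some s := by
  induction x with
  | zero => rfl
  | succ x ih =>
    rw [List.replicate_succ, List.replicate_succ, stk_cons, ha]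
    simp only [List.cons_append, if_true]
    exact ih

private theorem D8_dyck {a b c k : ℕ} (ha : lv a = some (k, true)) (hb : lv b = some (k, false))
    (hc : lv c = some (k, false)) (x : ℕ) : stk [] (D8_pk a b c (x + 1)) = some [] := by
  rw [D8_pk, stk_append, D8_open ha, Option.bind_some, List.replicate_succ, stk_cons, hb]
  simp only [List.cons_append, if_true, Nat.add_sub_cancel]
  exact D8_close hc x []

private theorem D8_len (a b c x : ℕ) : 2 ≤ (D8_pk a b c (x + 1)).length := by
  simp only [D8_pk, List.length_append, List.length_replicate, List.length_cons]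
  omega

private theorem D8_rep (a i j : ℕ) :
    List.replicate (i + j) a = List.replicate i a ++ List.replicate j a := by
  rw [List.replicate_add]

/-- The end block with a peak in the middle. -/
private theorem D8_split (e a b c i m : ℕ) (h : i + 1 ≤ m) :
    e :: List.replicate m a ++ b :: List.replicate m c =
      (e :: List.replicate (m - (i + 1)) a) ++ D8_pk a b c (i + 1) ++
        List.replicate (m - (i + 1) + 1) c := by
  obtain ⟨d, rfl⟩ : ∃ d, m = d + (i + 1) := ⟨m - (i + 1), by omega⟩
  rw [D8_pk, Nat.add_sub_cancel, Nat.add_sub_cancel, D8_rep a d (i + 1),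
    show d + (i + 1) = i + (d + 1) by omega, D8_rep c i (d + 1)]
  simp only [List.append_assoc, List.cons_append]

private theorem D8_opn {a k : ℕ} (ha : lv a = some (k, true)) (x : ℕ) :
    Opn (List.replicate x a) := by
  intro b hb
  rw [List.eq_of_mem_replicate hb]
  exact ⟨k, ha⟩

private theorem D8_clo {a k : ℕ} (ha : lv a = some (k, false)) (x : ℕ) :
    Clo (List.replicate x a) := by
  intro b hb
  rw [List.eq_of_mem_replicate hb]
  exact ⟨k, ha⟩

private theorem D8_core (G : EG) (cc : ℕ) {e a b c k : ℕ} (ha : lv a = some (k, true))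
    (hb : lv b = some (k, false)) (hc : lv c = some (k, false)) :
    ∃ p, 1 ≤ p ∧ ∀ m, ncl G.N G.A cc + cc + 3 ≤ m → ∀ (l r : List ℕ) t,
    (∃ S, Fw S (l ++ (e :: List.replicate (m + p) a ++ b :: List.replicate (m + p) c) ++ r)) →
    BT G cc t (l ++ (e :: List.replicate (m + p) a ++ b :: List.replicate (m + p) c) ++ r) →
      BT G cc t (l ++ (e :: List.replicate m a ++ b :: List.replicate m c) ++ r) := by
  obtain ⟨i, j, hij, hj, hcls⟩ := exists_cls_eq G cc (fun i => D8_pk a b c (i + 1))
  refine ⟨j - i, by omega, fun m hm l r t hF hB => ?_⟩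
  have h1 : e :: List.replicate (m + (j - i)) a ++ b :: List.replicate (m + (j - i)) c =
      (e :: List.replicate (m - (i + 1)) a) ++ D8_pk a b c (j + 1) ++
        List.replicate (m - (i + 1) + 1) c := by
    rw [D8_split e a b c j (m + (j - i)) (by omega),
      show m + (j - i) - (j + 1) = m - (i + 1) by omega]
  have h2 := D8_split e a b c i m (by omega)
  have h3 : ∀ y : List ℕ, l ++ ((e :: List.replicate (m - (i + 1)) a) ++ y ++
      List.replicate (m - (i + 1) + 1) c) ++ r =
      (l ++ (e :: List.replicate (m - (i + 1)) a)) ++ y ++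
        (List.replicate (m - (i + 1) + 1) c ++ r) := by
    intro y
    simp only [List.append_assoc]
  rw [h1, h3] at hF hB
  rw [h2, h3]
  refine d_replace hF (D8_len a b c j) (D8_dyck ha hb hc j) ?_ ?_ hcls.symm ?_ hB
  · refine ⟨l ++ (e :: List.replicate (m - (i + 1) - (cc + 1)) a), List.replicate (cc + 1) a, ?_,
      D8_opn ha _, List.length_replicate⟩
    rw [List.append_assoc, List.cons_append, ← D8_rep,
      show m - (i + 1) - (cc + 1) + (cc + 1) = m - (i + 1) by omega]
  · refine ⟨List.replicate (cc + 1) c, List.replicate (m - (i + 1) + 1 - (cc + 1)) c ++ r, ?_,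
      D8_clo hc _, List.length_replicate⟩
    rw [← List.append_assoc, ← D8_rep,
      show cc + 1 + (m - (i + 1) + 1 - (cc + 1)) = m - (i + 1) + 1 by omega]
  · rw [Dyck.fv_eq_one (D8_dyck ha hb hc j), Dyck.fv_eq_one (D8_dyck ha hb hc i)]

theorem peak1 (G : EG) (c : ℕ) : ∃ p, 1 ≤ p ∧ ∀ m, ncl G.N G.A c + c + 3 ≤ m → ∀ (v : List ℕ) t,
    (∃ S, Fw S (P1 (m + p) (m + p) ++ v)) → BT G c t (P1 (m + p) (m + p) ++ v) →
      BT G c t (P1 m m ++ v) := by
  obtain ⟨p, hp, h⟩ := D8_core G c (e := 2) (a := 3) (b := 4) (c := 5) (k := 0) rfl rfl rfl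
  exact ⟨p, hp, fun m hm v t hF hB => h m hm [] v t hF hB⟩

theorem peak2 (G : EG) (c : ℕ) : ∃ p, 1 ≤ p ∧ ∀ m, ncl G.N G.A c + c + 3 ≤ m → ∀ (v : List ℕ) t,
    (∃ S, Fw S (v ++ P2 (m + p) (m + p))) → BT G c t (v ++ P2 (m + p) (m + p)) →
      BT G c t (v ++ P2 m m) := by
  obtain ⟨p, hp, h⟩ := D8_core G c (e := 6) (a := 7) (b := 8) (c := 9) (k := 1) rfl rfl rfl
  refine ⟨p, hp, fun m hm v t hF hB => ?_⟩
  have h1 := h m hm v [] t
  rw [List.append_nil, List.append_nil] at h1
  exact h1 hF hB

end Pool.Agent.NGP
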