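import Pool.Agent.NGP.D1
import Pool.Agent.NGP.D3
import Pool.Agent.NGP.D8

/-!
# NGP, part D9: all tree words have bounded derivations (D7 of PROOF.md)

`c = 2 ^ G.N`, `M₀ = ncl G.N G.A c + c + 3`, `p₁`, `p₂` from `peak1`, `peak2`. Given `n ≥ M₀` and `t`
put `m = hc n ++ t.w n`, `q₂ = 2 * m.length + 2`, `m2 = n + p₂ * q₂`, `q₁ = 2 * m2 + 2`,
`m1 = n + p₁ * q₁`. `TW m1 m2 n t` is in `LQ g q` (`Mid_TT`, Dyck by `Fw_TW` and `Fw.dyck`), so in
`G.L`; its root tree is `Lpeq` (`lpeq_of_big`; `fv m = 1` from `fv (TW ..) = 1`, `fv_P1`, `fv_P2`),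
so `c`-bounded (`lpeq_bdd`). `steps1`, `steps2`: induction on the number of steps.
-/

namespace Pool.Agent.NGP

theorem lq_TW {g n : ℕ} {q : ℕ → ℕ → ℕ → ℕ → Bool} {t : TT} (ht : t.ok g 1) (i j : ℕ) :
    LQ g q (TW i j n t) := by
  refine ⟨⟨i, i, hc n ++ t.w n, j, j, rfl, Mid_TT ht⟩, Or.inl ?_⟩
  obtain ⟨S, hS⟩ := Fw_TW (n := n) ht i j
  exact hS.dyck

/-- (D7) -/
theorem d_trees {g : ℕ} {q : ℕ → ℕ → ℕ → ℕ → Bool} {G : EG} (hG : ∀ w, G.L w ↔ LQ g q w) :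
    ∃ M₀, 1 ≤ M₀ ∧ ∀ n, M₀ ≤ n → ∀ t : TT, t.ok g 1 →
      BT G (2 ^ G.N) G.st (TW n n n t) := by
  obtain ⟨p₁, hp₁, H1⟩ := peak1 G (2 ^ G.N)
  obtain ⟨p₂, hp₂, H2⟩ := peak2 G (2 ^ G.N)
  refine ⟨ncl G.N G.A (2 ^ G.N) + 2 ^ G.N + 3,
    le_trans (by norm_num) (Nat.le_add_left 3 _), fun n hn t ht => ?_⟩
  -- value of the middle part
  have hfm : fv (hc n ++ t.w n) = 1 := by
    obtain ⟨S, hS, -⟩ := Fw_TT (n := n) ht
    have h1 : fv (t.w n) = 1 := Dyck.fv_eq_one hS.dyck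
    have h2 : fv (hc n) = 1 := Dyck.fv_eq_one (Fw_hc n).dyck
    rw [fv_append, h1, h2, mul_one]
  -- first reduction
  have step1 : ∀ j k : ℕ, BT G (2 ^ G.N) G.st (TW (n + p₁ * k) j n t) →
      BT G (2 ^ G.N) G.st (TW n j n t) := by
    intro j k
    induction k with
    | zero => exact fun h => h
    | succ k ih =>
      intro h
      apply ih
      have e : ∀ i, TW i j n t = P1 i i ++ ((hc n ++ t.w n) ++ P2 j j) := by
        intro i
        simp only [TW, List.append_assoc]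
      have hk : n + p₁ * (k + 1) = (n + p₁ * k) + p₁ := by ring
      rw [e] at h ⊢
      rw [hk] at h
      refine H1 (n + p₁ * k) (by omega) _ _ ?_ h
      rw [← e]
      exact Fw_TW ht _ _
  have step2 : ∀ k : ℕ, BT G (2 ^ G.N) G.st (TW n (n + p₂ * k) n t) →
      BT G (2 ^ G.N) G.st (TW n n n t) := by
    intro k
    induction k with
    | zero => exact fun h => h
    | succ k ih =>
      intro h
      apply ih
      have hk : n + p₂ * (k + 1) = (n + p₂ * k) + p₂ := by ring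
      rw [hk] at h
      refine H2 (n + p₂ * k) (by omega) _ _ ?_ h
      exact Fw_TW ht _ _
  set L := (hc n ++ t.w n).length with hL
  set m2 := n + p₂ * (2 * L + 2) with hm2
  set m1 := n + p₁ * (2 * m2 + 2) with hm1
  have h2 : 2 * L + 2 ≤ m2 := by
    have : 1 * (2 * L + 2) ≤ p₂ * (2 * L + 2) := Nat.mul_le_mul_right _ hp₂
    omega
  have h1 : 2 * m2 + 2 ≤ m1 := by
    have : 1 * (2 * m2 + 2) ≤ p₁ * (2 * m2 + 2) := Nat.mul_le_mul_right _ hp₁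
    omega
  obtain ⟨τ, hok, hty, hy⟩ := (hG (TW m1 m2 n t)).2 (lq_TW ht m1 m2)
  have hlp : Lpeq τ := lpeq_of_big (fun w hw => (hG w).1 hw) (Mid_TT ht) hfm h2 h1 hok hty hy
  exact step2 _ (step1 _ _ ⟨τ, hok, lpeq_bdd hok hlp, hty, hy⟩)

end Pool.Agent.NGP
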