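import Pool.Agent.NGP.T3
import Pool.Agent.NGP.V2

/-!
# NGP, part D: definitions (helper75)

See section D of `PROOF.md`.
-/

namespace Pool.Agent.NGP

/-- All loops of a tree have the same value as their inner node. -/
def Lpeq (τ : Tr) : Prop := ∀ c d σ, Lp τ c d σ → fv (d.fill σ).y = fv σ.y

/-- A node of type `t` occurs. -/
def Tr.has (t : ℕ) : Tr → Prop
  | Tr.ep s => s = t
  | Tr.lf s _ => s = t
  | Tr.nd s l r => s = t ∨ l.has t ∨ r.has t

/-- There is a derivation tree of type `t` with yield `w` all of whose subtrees have values of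
length at most `c`. -/
def BT (G : EG) (c t : ℕ) (w : List ℕ) : Prop :=
  ∃ τ : Tr, τ.ok G ∧ bdd c τ ∧ τ.ty = t ∧ τ.y = w

/-- Length of the stack after reading a word (`0` if it can not be read). -/
def hgt (w : List ℕ) : ℕ := ((stk [] w).getD []).length

/-- Words of opening letters. -/
def Opn (o : List ℕ) : Prop := ∀ a ∈ o, ∃ i, lv a = some (i, true)

/-- Words of closing letters. -/
def Clo (o : List ℕ) : Prop := ∀ a ∈ o, ∃ i, lv a = some (i, false)

/-- Forest words: siblings have distinct generators; `S` is the list of the generators used at the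
top level. -/
inductive Fw : List ℕ → List ℕ → Prop
  | nil : Fw [] []
  | neut {S w : List ℕ} {a : ℕ} : lv a = none → Fw S w → Fw S (a :: w)
  | node {S S' w w' : List ℕ} {a b i : ℕ} : lv a = some (i, true) → lv b = some (i, false) →
      Fw S' w' → Fw S w → i ∉ S → Fw (i :: S) (a :: (w' ++ b :: w))

/-- The geometric property of forest words. -/
def Geo (w : List ℕ) : Prop := ∀ x y₁ y₂ z, w = x ++ (y₁ ++ y₂) ++ z →
  hgt x + hgt (x ++ (y₁ ++ y₂)) ≤ nm (y₁ ++ y₂) + 2 * hgt (x ++ y₁)

/-- Words of length `≤ c` with letters `< A`. -/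
def Wd (A : ℕ) : ℕ → Finset (List ℕ)
  | 0 => {[]}
  | c + 1 => insert [] ((Finset.range A ×ˢ Wd A c).image fun p => p.1 :: p.2)

open Classical in
/-- The class of a word. -/
noncomputable def cls (G : EG) (c : ℕ) (y : List ℕ) : Finset (ℕ × List ℕ × List ℕ) :=
  (Finset.range G.N ×ˢ (Wd G.A c ×ˢ Wd G.A c)).filter fun p => BT G c p.1 (p.2.1 ++ y ++ p.2.2)

/-- Tree words between end blocks. -/
def TW (i j : ℕ) (n : ℕ) (t : TT) : List ℕ := P1 i i ++ (hc n ++ t.w n) ++ P2 j j

/-- Contexts of tree words. -/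
inductive TC
  | hole
  | fst (X : Bool) (u u' v v' : List ℕ) (c : TC) (t₂ : TT)
  | snd (X : Bool) (u u' v v' : List ℕ) (t₁ : TT) (c : TC)

namespace TC

/-- Put a tree in the hole. -/
def fill : TC → TT → TT
  | hole, s => s
  | fst X u u' v v' c t₂, s => TT.nd X u u' v v' (c.fill s) t₂
  | snd X u u' v v' t₁ c, s => TT.nd X u u' v v' t₁ (c.fill s)

/-- Composition. -/
def comp : TC → TC → TC
  | hole, d => d
  | fst X u u' v v' c t₂, d => fst X u u' v v' (c.comp d) t₂
  | snd X u u' v v' t₁ c, d => snd X u u' v v' t₁ (c.comp d)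

/-- Word to the left of the hole. -/
def pre (n : ℕ) : TC → List ℕ
  | hole => []
  | fst X u _ _ _ c _ => row (if X then 2 else 0) u ++ hc n ++ c.pre n
  | snd X u u' v _ t₁ c => row (if X then 2 else 0) u ++ hc n ++ t₁.w n ++
      row (if X then 3 else 1) u' ++ hc n ++ row 4 v ++ hc n ++ c.pre n

/-- Word to the right of the hole. -/
def post (n : ℕ) : TC → List ℕ
  | hole => []
  | fst X _ u' v v' c t₂ => c.post n ++ row (if X then 3 else 1) u' ++ hc n ++
      row 4 v ++ hc n ++ t₂.w n ++ row 5 v' ++ hc n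
  | snd _ _ _ _ v' _ c => c.post n ++ row 5 v' ++ hc n

end TC

end Pool.Agent.NGP
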