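import Pool.Agent.NGP.D9
import Pool.Agent.NGP.D12

/-!
# NGP, part D: derivations of tree words (lead: helper75)

See section D of `PROOF.md`.
-/

namespace Pool.Agent.NGP

theorem d_exists {g : ℕ} {q : ℕ → ℕ → ℕ → ℕ → Bool} {G : EG} (hG : ∀ w, G.L w ↔ LQ g q w) :
    ∃ M₀, ∀ n, M₀ ≤ n → ∃ c k b F ts ws, Dcert g G n c k b F ts ws := by
  obtain ⟨M₀, hM, h⟩ := d_trees hG
  refine ⟨M₀, fun n hn => ?_⟩
  obtain ⟨b, F, ts, ws, hD⟩ := d_ex (g := g) (G := G) (n := n) (c := 2 ^ G.N) (k := 2 ^ G.N + 2)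
    le_rfl (hM.trans hn) fun t ht => h n hn t (TT.ok_mono (Nat.le_add_left 1 (2 ^ G.N + 1)) ht)
  exact ⟨_, _, b, F, ts, ws, hD⟩

theorem d_sound {g : ℕ} {G : EG} {n c k b : ℕ} {F : List (ℕ × List ℕ)} {ts ws : List (List ℕ)}
    (h : Dcert g G n c k b F ts ws) {t : TT} (ht : t.ok g k) :
    G.L (P1 n n ++ hc n ++ t.w n ++ P2 n n) := by
  obtain ⟨τ, h1, -, h2, h3⟩ := d_sound' h ht
  refine ⟨τ, h1, h2, ?_⟩
  rw [h3]
  simp [TW]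

end Pool.Agent.NGP
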