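import Mathlib
import Pool.Agent.H93NG.Defs

/-!
# The cone of context-free non-generators is not principal: definitions

Everything is over words `List ℕ`; the complete plan and proof is in `Pool/Agent/NGP/PROOF.md`.

Labels: `0` is the separator `#`, `1` is the end label `e`, labels `≥ 2` are tile labels.
Letters: `0` = `#`, `1` = neutral `a`, `2..9` = letters of the end blocks,
`10 + 8 x + δ` (`δ < 8`) = row letter of row type `δ` with decoration `x`
(`x = 0`: the letter `a`; `x ≥ 1`: the label `x + 1`).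
-/

namespace Pool.Agent.NGP

/-! ## Letters -/

/-- Group value of a letter: generator number and sign (`true` = opening). Generators:
`0` = σ, `1` = ρ (end blocks), `2` = x_a, `3` = x_b, `4` = y, `5` = c (row types `δ`: generator
`2 + δ / 2`, opening iff `δ` is even). -/
def lv (a : ℕ) : Option (ℕ × Bool) :=
  if a < 2 then none
  else if a < 10 then some ((a - 2) / 4, decide ((a - 2) % 4 < 2))
  else some (2 + (a - 10) % 8 / 2, decide ((a - 10) % 2 = 0))

/-- Label of a letter; `none` for the letters read as `a`. -/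
def lh (a : ℕ) : Option ℕ :=
  if a = 0 then some 0
  else if a < 10 then (if a % 2 = 0 then some 1 else none)
  else if (a - 10) / 8 = 0 then none else some ((a - 10) / 8 + 1)

/-- Value of a letter in the free group. -/
def lf (a : ℕ) : FreeGroup ℕ :=
  match lv a with
  | none => 1
  | some (i, true) => FreeGroup.of i
  | some (i, false) => (FreeGroup.of i)⁻¹

/-- Value of a word in the free group. -/
def fv (w : List ℕ) : FreeGroup ℕ := (w.map lf).prod

/-- Reduced word, computed from the right: `rv w` is the reduced list of `fv w`. -/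
def rpush (x : ℕ × Bool) : List (ℕ × Bool) → List (ℕ × Bool)
  | [] => [x]
  | y :: s => if x.1 = y.1 ∧ x.2 ≠ y.2 then s else x :: y :: s

/-- Reduced word of the value of a word. -/
def rv : List ℕ → List (ℕ × Bool)
  | [] => []
  | a :: w => match lv a with
    | none => rv w
    | some x => rpush x (rv w)

/-- The stack after reading a word from the stack `s` (top first), `none` if a closing letter does
not match. -/
def stk : List ℕ → List ℕ → Option (List ℕ)
  | s, [] => some s
  | s, a :: w => match lv a with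
    | none => stk s w
    | some (i, true) => stk (i :: s) w
    | some (i, false) => match s with
      | [] => none
      | j :: s' => if j = i then stk s' w else none

/-- Dyck words (one-sided). -/
def Dyck (w : List ℕ) : Prop := stk [] w = some []

/-! ## Cells -/

/-- Number of leading letters without label. -/
def lead : List ℕ → ℕ
  | [] => 0
  | a :: w => if lh a = none then lead w + 1 else 0

/-- The cells `(label, content)` of a word. -/
def cells : List ℕ → List (ℕ × ℕ)
  | [] => []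
  | a :: w => match lh a with
    | none => cells w
    | some l => (l, lead w) :: cells w

/-- The labels of a word. -/
def labs (w : List ℕ) : List ℕ := w.filterMap lh

/-- Number of letters of a list of cells. -/
def lsum (C : List (ℕ × ℕ)) : ℕ := (C.map fun c => c.2 + 1).sum

/-- Number of `#`-cells. -/
def hsh (C : List (ℕ × ℕ)) : ℕ := C.countP fun c => c.1 == 0

/-! ## Garbage -/

/-- Left anomaly: two adjacent cells `c`, `c'` of different contents, preceded by at least one cell,
with at most as many letters before them as `#` after them. -/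
def KeL (C : List (ℕ × ℕ)) : Prop :=
  ∃ A c c' B, C = A ++ c :: c' :: B ∧ A ≠ [] ∧ c.2 ≠ c'.2 ∧ lsum A ≤ hsh B

/-- Right anomaly. -/
def KeR (C : List (ℕ × ℕ)) : Prop :=
  ∃ A c c' B, C = A ++ c :: c' :: B ∧ B ≠ [] ∧ c.2 ≠ c'.2 ∧ lsum B ≤ hsh A

/-- Order preserving matching of two lists of cells (both read from the centre outwards): matched
cells have equal contents, only `#`-cells may be unmatched. -/
inductive Mt : List (ℕ × ℕ) → List (ℕ × ℕ) → Prop
  | nil : Mt [] []
  | skl {n : ℕ} {l r : List (ℕ × ℕ)} : Mt l r → Mt ((0, n) :: l) r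
  | skr {n : ℕ} {l r : List (ℕ × ℕ)} : Mt l r → Mt l ((0, n) :: r)
  | pair {a b n : ℕ} {l r : List (ℕ × ℕ)} : Mt l r → Mt ((a, n) :: l) ((b, n) :: r)

/-- `Zp q a c l r`: reading outwards from two cells with labels `a`, `c`, the next cells `l`, `r`
agree in content and satisfy `q` until a violation of `q`; from there on they are matched by `Mt`. -/
inductive Zp (q : ℕ → ℕ → ℕ → ℕ → Bool) : ℕ → ℕ → List (ℕ × ℕ) → List (ℕ × ℕ) → Prop
  | step {a b c d n : ℕ} {l r : List (ℕ × ℕ)} : q a b c d = true → 2 ≤ b → 2 ≤ d →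
      Zp q b d l r → Zp q a c ((b, n) :: l) ((d, n) :: r)
  | viol {a b c d n m : ℕ} {l r : List (ℕ × ℕ)} : q a b c d = false → b ≠ 1 → d ≠ 1 →
      Mt ((b, n) :: l) ((d, m) :: r) → Zp q a c ((b, n) :: l) ((d, m) :: r)

/-- Matched violation around a centre. -/
def Kp (q : ℕ → ℕ → ℕ → ℕ → Bool) (C : List (ℕ × ℕ)) : Prop :=
  ∃ p k s, C = p ++ (0, k) :: s ∧ Zp q 0 0 p.reverse s

/-- The garbage. -/
def KK (q : ℕ → ℕ → ℕ → ℕ → Bool) (C : List (ℕ × ℕ)) : Prop := KeL C ∨ KeR C ∨ Kp q C

/-! ## Format -/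

/-- Left end block. -/
def P1 (i j : ℕ) : List ℕ := 2 :: List.replicate i 3 ++ 4 :: List.replicate j 5

/-- Right end block. -/
def P2 (i j : ℕ) : List ℕ := 6 :: List.replicate i 7 ++ 8 :: List.replicate j 9

/-- Adjacent letters of the middle part: a `#` anywhere; a neutral `a` after `#` or a neutral `a`;
a row letter after `#`, a neutral `a` or a row letter of the same type. -/
def Nx (a b : ℕ) : Prop :=
  b = 0 ∨ (b = 1 ∧ a < 2) ∨ (10 ≤ b ∧ (a < 2 ∨ (10 ≤ a ∧ (a - 10) % 8 = (b - 10) % 8)))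

/-- Middle parts: `#`-cell, then rows (constant row type), each followed by `#`-cells. -/
def Mid (g : ℕ) (m : List ℕ) : Prop :=
  (∃ m', m = 0 :: m') ∧ (∀ a ∈ m, a < 2 ∨ (10 ≤ a ∧ a < 10 + 8 * (g + 1))) ∧
  List.IsChain Nx m ∧ ∃ m' a, m = m' ++ [a] ∧ a < 2

/-- The format. -/
def Fm (g : ℕ) (w : List ℕ) : Prop :=
  ∃ i₁ j₁ m i₂ j₂, w = P1 i₁ j₁ ++ m ++ P2 i₂ j₂ ∧ Mid g m

/-- The language of a system with tile labels `2, ..., g + 1` and allowed quadruples `q`. -/
def LQ (g : ℕ) (q : ℕ → ℕ → ℕ → ℕ → Bool) (w : List ℕ) : Prop :=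
  Fm g w ∧ (Dyck w ∨ KK q (cells w))

/-- The language of a system over a finite alphabet. -/
def LQt (g : ℕ) (q : ℕ → ℕ → ℕ → ℕ → Bool) : Language (Fin (10 + 8 * (g + 1))) :=
  {w | LQ g q (w.map Fin.val)}

/-! ## Scanning a centre -/

/-- Result of the comparison of two lists of labels read outwards. -/
inductive Adv
  | viol
  | dead
  | alive (x y : List ℕ)

/-- Compare two lists of labels read outwards from a centre (the heads are already compared). -/
def adv (q : ℕ → ℕ → ℕ → ℕ → Bool) : List ℕ → List ℕ → Adv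
  | a :: b :: x, c :: d :: y =>
    if b = 1 ∨ d = 1 then Adv.dead
    else if q a b c d = true then
      (if b = 0 ∨ d = 0 then Adv.dead else adv q (b :: x) (d :: y))
    else Adv.viol
  | x, y => Adv.alive x y

/-- A list of labels contains a violation. -/
def Vio (q : ℕ → ℕ → ℕ → ℕ → Bool) (y : List ℕ) : Prop :=
  ∃ p s, y = p ++ 0 :: s ∧ adv q (0 :: p.reverse) (0 :: s) = Adv.viol

/-- Special words with contents `n`: all contents are `n`, no two adjacent `#`-cells. -/
def Sp (n : ℕ) (w : List ℕ) : Prop :=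
  (∀ c ∈ cells w, c.2 = n) ∧ List.IsChain (fun a b : ℕ × ℕ => ¬ (a.1 = 0 ∧ b.1 = 0)) (cells w)

/-! ## Grammars and trees -/

/-- Grammars: nonterminals `< N`, letters `< A`, start symbol, binary rules, letter rules, empty
rules. -/
structure EG where
  N : ℕ
  A : ℕ
  st : ℕ
  bin : ℕ → ℕ → ℕ → Bool
  lf : ℕ → ℕ → Bool
  ep : ℕ → Bool

/-- Trees. -/
inductive Tr
  | ep (t : ℕ)
  | lf (t a : ℕ)
  | nd (t : ℕ) (l r : Tr)

namespace Tr

/-- Type (nonterminal) of a tree. -/
def ty : Tr → ℕ
  | ep t => t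
  | lf t _ => t
  | nd t _ _ => t

/-- Yield. -/
def y : Tr → List ℕ
  | ep _ => []
  | lf _ a => [a]
  | nd _ l r => l.y ++ r.y

/-- Derivation trees of a grammar. -/
def ok (G : EG) : Tr → Prop
  | ep t => t < G.N ∧ G.ep t = true
  | lf t a => t < G.N ∧ a < G.A ∧ G.lf t a = true
  | nd t l r => t < G.N ∧ G.bin t l.ty r.ty = true ∧ l.ok G ∧ r.ok G

end Tr

/-- The language of a grammar. -/
def EG.L (G : EG) (w : List ℕ) : Prop := ∃ τ : Tr, τ.ok G ∧ τ.ty = G.st ∧ τ.y = w

/-- Contexts (zippers) of trees. -/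
inductive Cx
  | hole
  | left (t : ℕ) (c : Cx) (r : Tr)
  | right (t : ℕ) (l : Tr) (c : Cx)

namespace Cx

/-- Put a tree in the hole. -/
def fill : Cx → Tr → Tr
  | hole, σ => σ
  | left t c r, σ => Tr.nd t (c.fill σ) r
  | right t l c, σ => Tr.nd t l (c.fill σ)

/-- Yield to the left of the hole. -/
def pre : Cx → List ℕ
  | hole => []
  | left _ c _ => c.pre
  | right _ l c => l.y ++ c.pre

/-- Yield to the right of the hole. -/
def post : Cx → List ℕ
  | hole => []
  | left _ c r => c.post ++ r.y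
  | right _ _ c => c.post

/-- Composition of contexts. -/
def comp : Cx → Cx → Cx
  | hole, d => d
  | left t c r, d => left t (c.comp d) r
  | right t l c, d => right t l (c.comp d)

end Cx

/-! ## Information of trees -/

/-- Information: the list of labels if it is short, otherwise the tracked centres. -/
inductive Inf
  | S (w : List ℕ)
  | B (L : List (List ℕ × List ℕ))

/-- Lengths differ by at most `4`. -/
def tight (x y : List ℕ) : Bool := decide (x.length ≤ y.length + 4 ∧ y.length ≤ x.length + 4)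

/-- Keep the tight alive centres; `none` if there is a violation. -/
def fil : List Adv → Option (List (List ℕ × List ℕ))
  | [] => some []
  | Adv.viol :: _ => none
  | Adv.dead :: A => fil A
  | Adv.alive x y :: A => (fil A).map fun L => if tight x y then (x, y) :: L else L

/-- All centres of a list of labels; the first argument is the reversed list of the labels
before. -/
def cens (q : ℕ → ℕ → ℕ → ℕ → Bool) : List ℕ → List ℕ → List Adv
  | _, [] => []
  | p, a :: w => if a = 0 then adv q (0 :: p) (0 :: w) :: cens q (a :: p) w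
    else cens q (a :: p) w

/-- Combination of informations; `none` = a violation was found. -/
def comb (q : ℕ → ℕ → ℕ → ℕ → Bool) : Option Inf → Option Inf → Option Inf
  | some (Inf.S u), some (Inf.S v) => (fil (cens q [] (u ++ v))).map fun L =>
      if (u ++ v).length ≤ 8 then Inf.S (u ++ v) else Inf.B L
  | some (Inf.B L), some (Inf.S v) =>
      (fil (L.map fun p => adv q p.1 (p.2 ++ v))).map Inf.B
  | some (Inf.S u), some (Inf.B L) =>
      (fil (L.map fun p => adv q (p.1 ++ u.reverse) p.2)).map Inf.B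
  | some (Inf.B _), some (Inf.B _) => some (Inf.B [])
  | _, _ => none

/-- Information of a tree. -/
def inf (q : ℕ → ℕ → ℕ → ℕ → Bool) : Tr → Option Inf
  | Tr.ep _ => some (Inf.S [])
  | Tr.lf _ a => some (Inf.S (lh a).toList)
  | Tr.nd _ l r => comb q (inf q l) (inf q r)

/-! ## Certificates -/

/-- Length of the reduced word of the value. -/
def nm (w : List ℕ) : ℕ := (rv w).length

/-- All subtrees have values of length `≤ c`. -/
def bdd (c : ℕ) : Tr → Prop
  | Tr.ep _ => True
  | Tr.lf _ a => nm [a] ≤ c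
  | Tr.nd _ l r => nm (l.y ++ r.y) ≤ c ∧ bdd c l ∧ bdd c r

/-- Automaton for special words with contents `n`: state `0` at the start, else `1 + 2 k + h`
after `k` letters without label since the last label, `h = 1` iff the last label is `#`. -/
def dst (n s a : ℕ) : Option ℕ :=
  match lh a with
  | none => if s = 0 ∨ (s - 1) / 2 = n then none else some (s + 2)
  | some l =>
    if s ≠ 0 ∧ (s - 1) / 2 ≠ n then none
    else if s ≠ 0 ∧ (s - 1) % 2 = 1 ∧ l = 0 then none
    else some (if l = 0 then 2 else 1)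

/-- Entries of tables: type, states, information, value. -/
abbrev Ent := ℕ × ℕ × ℕ × Inf × Option (List (ℕ × Bool))

/-- Product of reduced words. -/
def rmul : List (ℕ × Bool) → List (ℕ × Bool) → List (ℕ × Bool)
  | [], v => v
  | x :: u, v => rpush x (rmul u v)

/-- Tables certifying that special words without violation have value `1`. -/
def Kcert (q : ℕ → ℕ → ℕ → ℕ → Bool) (G : EG) (n : ℕ) (tb : List Ent) : Prop :=
  (∀ t < G.N, G.ep t = true → ∀ s < 2 * n + 3,
    (t, s, s, Inf.S [], none) ∈ tb ∨ (t, s, s, Inf.S [], some []) ∈ tb) ∧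
  (∀ t < G.N, ∀ a < G.A, G.lf t a = true → ∀ s < 2 * n + 3, ∀ s' < 2 * n + 3,
    dst n s a = some s' →
    (t, s, s', Inf.S (lh a).toList, none) ∈ tb ∨
      (t, s, s', Inf.S (lh a).toList, some (rv [a])) ∈ tb) ∧
  (∀ t < G.N, ∀ e₁ ∈ tb, ∀ e₂ ∈ tb, G.bin t e₁.1 e₂.1 = true → e₁.2.2.1 = e₂.2.1 →
    ∀ ι, comb q (some e₁.2.2.2.1) (some e₂.2.2.2.1) = some ι →
    (t, e₁.2.1, e₂.2.2.1, ι, none) ∈ tb ∨
      ∃ g₁ g₂, e₁.2.2.2.2 = some g₁ ∧ e₂.2.2.2.2 = some g₂ ∧
        (t, e₁.2.1, e₂.2.2.1, ι, some (rmul g₁ g₂)) ∈ tb) ∧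
  ∀ e ∈ tb, e.1 = G.st → e.2.1 = 0 → (e.2.2.1 = 2 * n + 1 ∨ e.2.2.1 = 2 * n + 2) →
    e.2.2.2.2 = some []

/-- `#`-cell with content `n`. -/
def hc (n : ℕ) : List ℕ := 0 :: List.replicate n 1

/-- Row of type `δ` with decorations `u`. -/
def row (δ : ℕ) (u : List ℕ) : List ℕ := u.map fun x => 10 + 8 * x + δ

/-- Tree words: `T → x T x̄ y T ȳ | c c̄` with rows of equal lengths; `X = false` for the rows
`x_a`, `true` for `x_b`. -/
inductive TT
  | base (u u' : List ℕ)
  | nd (X : Bool) (u u' v v' : List ℕ) (t₁ t₂ : TT)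

namespace TT

/-- The word of a tree. -/
def w (n : ℕ) : TT → List ℕ
  | base u u' => row 6 u ++ hc n ++ row 7 u' ++ hc n
  | nd X u u' v v' t₁ t₂ =>
    row (if X then 2 else 0) u ++ hc n ++ t₁.w n ++ row (if X then 3 else 1) u' ++ hc n ++
      row 4 v ++ hc n ++ t₂.w n ++ row 5 v' ++ hc n

/-- Rows have length `≥ k`, matched rows have equal length, decorations are `≤ g`. -/
def ok (g k : ℕ) : TT → Prop
  | base u u' => k ≤ u.length ∧ u'.length = u.length ∧ (∀ x ∈ u ++ u', x ≤ g)
  | nd _ u u' v v' t₁ t₂ => k ≤ u.length ∧ u'.length = u.length ∧ k ≤ v.length ∧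
      v'.length = v.length ∧ (∀ x ∈ u ++ u' ++ v ++ v', x ≤ g) ∧ t₁.ok g k ∧ t₂.ok g k

end TT

/-- Number of classes of words with respect to a grammar with `N` nonterminals, `A` letters and
contexts of length `≤ c`. -/
def ncl (N A c : ℕ) : ℕ := 2 ^ (N * ((A + 1) ^ c) ^ 2)

/-- Bound for the length of the words to be tested. -/
def bd (N A c k n : ℕ) : ℕ := 8 * (k + ncl N A c + n + 2) * 2 ^ (ncl N A c + 3)

/-- Facts: all of them have bounded derivations. -/
def Fok (G : EG) (c : ℕ) : List (ℕ × List ℕ) → Prop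
  | [] => True
  | f :: F => Fok G c F ∧ nm f.2 ≤ c ∧ f.1 < G.N ∧
      ((G.ep f.1 = true ∧ f.2 = []) ∨ (∃ a < G.A, G.lf f.1 a = true ∧ f.2 = [a]) ∨
        ∃ f₁ ∈ F, ∃ f₂ ∈ F, G.bin f.1 f₁.1 f₂.1 = true ∧ f.2 = f₁.2 ++ f₂.2)

/-- Certificates for the derivability of all tree words with rows of length `≥ k` in the end
blocks of content `n`. `ws`: all decorations of length `≤ b`; `ts`: all tree words of length
`≤ b`. -/
def Dcert (g : ℕ) (G : EG) (n c k b : ℕ) (F : List (ℕ × List ℕ)) (ts ws : List (List ℕ)) : Prop :=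
  c + 2 ≤ k ∧ 1 ≤ n ∧ bd G.N G.A c k n ≤ b ∧
  [] ∈ ws ∧ (∀ u ∈ ws, u.length < b → ∀ x ≤ g, x :: u ∈ ws) ∧
  (∀ u ∈ ws, ∀ u' ∈ ws, k ≤ u.length → u'.length = u.length →
    (row 6 u ++ hc n ++ row 7 u' ++ hc n).length ≤ b →
    row 6 u ++ hc n ++ row 7 u' ++ hc n ∈ ts) ∧
  (∀ X : Bool, ∀ u ∈ ws, ∀ u' ∈ ws, ∀ v ∈ ws, ∀ v' ∈ ws, ∀ t₁ ∈ ts, ∀ t₂ ∈ ts,
    k ≤ u.length → u'.length = u.length → k ≤ v.length → v'.length = v.length →
    (row (if X then 2 else 0) u ++ hc n ++ t₁ ++ row (if X then 3 else 1) u' ++ hc n ++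
      row 4 v ++ hc n ++ t₂ ++ row 5 v' ++ hc n).length ≤ b →
    row (if X then 2 else 0) u ++ hc n ++ t₁ ++ row (if X then 3 else 1) u' ++ hc n ++
      row 4 v ++ hc n ++ t₂ ++ row 5 v' ++ hc n ∈ ts) ∧
  Fok G c F ∧ ∀ t ∈ ts, (G.st, P1 n n ++ hc n ++ t ++ P2 n n) ∈ F

/-! ## Tile systems -/

/-- Acyclic: every word of labels (no end labels) containing `#` has a power with a violation. -/
def Acyc (g : ℕ) (q : ℕ → ℕ → ℕ → ℕ → Bool) : Prop :=
  ∀ Y : List ℕ, 0 ∈ Y → (∀ a ∈ Y, a = 0 ∨ (2 ≤ a ∧ a < g + 2)) →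
    ∃ k : ℕ, Vio q (List.replicate k Y).flatten

/-- Cyclic: there are arbitrarily long rows `u 0, ..., u (k-1)` of the same length `N`, repeated
periodically without violation. -/
def Cyc (g : ℕ) (q : ℕ → ℕ → ℕ → ℕ → Bool) : Prop :=
  ∀ N₀ : ℕ, ∃ (N k : ℕ) (u : ℕ → List ℕ), N₀ ≤ N ∧ 0 < k ∧ 0 < N ∧
    (∀ i, u (i + k) = u i) ∧ (∀ i, (u i).length = N) ∧
    (∀ i, ∀ a ∈ u i, 2 ≤ a ∧ a < g + 2) ∧
    ∀ i, adv q (0 :: (u i).reverse ++ [0]) (0 :: u (i + 1) ++ [0]) = Adv.dead

/-! ## Coded transducers and families of grammars -/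

/-- Edge lists of transducers: `(p, i, o, r)`, from state `p` to `r`, reading `lets i`, writing
`lets o`. -/
abbrev Edges := List (ℕ × ℕ × ℕ × ℕ)

/-- `0` codes the empty word, `a + 1` the letter `a`. -/
def lets : ℕ → List ℕ
  | 0 => []
  | a + 1 => [a]

/-- Paths of a transducer. -/
inductive Pth (E : Edges) : ℕ → List ℕ → List ℕ → ℕ → Prop
  | nil (p : ℕ) : Pth E p [] [] p
  | cons {p i o r s : ℕ} {u v : List ℕ} : (p, i, o, r) ∈ E → Pth E r u v s →
      Pth E p (lets i ++ u) (lets o ++ v) s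

/-- A primitive recursive family of grammars. -/
def PrG {α : Type} [Primcodable α] (PG : α → EG) : Prop :=
  Primrec (fun a => (PG a).N) ∧ Primrec (fun a => (PG a).A) ∧ Primrec (fun a => (PG a).st) ∧
  Primrec (fun x : α × ℕ × ℕ × ℕ => (PG x.1).bin x.2.1 x.2.2.1 x.2.2.2) ∧
  Primrec (fun x : α × ℕ × ℕ => (PG x.1).lf x.2.1 x.2.2) ∧
  Primrec (fun x : α × ℕ => (PG x.1).ep x.2)

end Pool.Agent.NGP
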