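import Pool.Agent.NGP.EDefs

/-!
# NGP, part E, module E1: cells of `wd`

PROOF. `labs_eq`: induction on `w` (both sides only use `lh` of the letters).
`cells_wd`: call `a :: List.replicate n x` with `lh a = some l`, `lh x = none` a block; if `w` is empty
or starts with a letter `b`, `lh b ≠ none`, then `cells (block ++ w) = (l, n) :: cells w` (as
`lead (List.replicate n x ++ w) = n`). `P1 n n`, `P2 n n` are two blocks with label `1` each
(`lh 2 = lh 4 = lh 6 = lh 8 = some 1`, `lh 3 = lh 5 = lh 7 = lh 9 = none`), `hc n` is a block with label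
`0`, and `row δ (dec n u)` consists of the blocks `(10 + 8 * (l - 1) + δ) :: List.replicate n (10 + δ)`,
`l ∈ u`, with labels `l` (as `δ < 8`, `l ≥ 2`: `lh (10 + 8 * (l - 1) + δ) = some l`,
`lh (10 + δ) = none`). Induction on `ω` for `rws`.
-/

namespace Pool.Agent.NGP.PE

theorem labs_eq (w : List ℕ) : labs w = (cells w).map Prod.fst := by
  induction w with
  | nil => rfl
  | cons a w ih =>
    unfold labs at ih ⊢
    rw [List.filterMap_cons, cells]
    cases h : lh a with
    | none => exact ih
    | some l =>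
      show l :: List.filterMap lh w = l :: (cells w).map Prod.fst
      rw [ih]

private theorem e1_rep {x : ℕ} (hx : lh x = none) (n : ℕ) (w : List ℕ) :
    cells (List.replicate n x ++ w) = cells w ∧ lead (List.replicate n x ++ w) = lead w + n := by
  induction n with
  | zero => simp
  | succ n ih =>
    rw [List.replicate_succ, List.cons_append]
    constructor
    · rw [cells, hx]
      exact ih.1
    · rw [lead, if_pos hx, ih.2]
      omega

private theorem e1_block {a x l : ℕ} (ha : lh a = some l) (hx : lh x = none) (n : ℕ) {w : List ℕ}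
    (hw : lead w = 0) :
    cells (a :: (List.replicate n x ++ w)) = (l, n) :: cells w ∧
      lead (a :: (List.replicate n x ++ w)) = 0 := by
  obtain ⟨h1, h2⟩ := e1_rep hx n w
  constructor
  · rw [cells, ha]
    show (l, lead (List.replicate n x ++ w)) :: cells (List.replicate n x ++ w) = _
    rw [h1, h2, hw, Nat.zero_add]
  · rw [lead, if_neg (by rw [ha]; simp)]

private theorem e1_row {n δ : ℕ} (hδ : δ < 8) {w : List ℕ} (hw : lead w = 0) {u : List ℕ}
    (hu : ∀ a ∈ u, 2 ≤ a) :
    cells (row δ (dec n u) ++ w) = (u.map fun l => (l, n)) ++ cells w ∧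
      lead (row δ (dec n u) ++ w) = 0 := by
  induction u with
  | nil => exact ⟨rfl, hw⟩
  | cons l u ih =>
    have ih' := ih (fun a ha => hu a (List.mem_cons_of_mem _ ha))
    have hl : 2 ≤ l := hu l List.mem_cons_self
    have e : row δ (dec n (l :: u)) ++ w =
        (10 + 8 * (l - 1) + δ) :: (List.replicate n (10 + 8 * 0 + δ) ++ (row δ (dec n u) ++ w)) := by
      unfold row dec
      simp only [List.flatMap_cons, List.map_append, List.map_cons, List.map_replicate,
        List.cons_append, List.append_assoc]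
    have h1 : lh (10 + 8 * (l - 1) + δ) = some l := by
      unfold lh
      have h2 : (10 + 8 * (l - 1) + δ - 10) / 8 = l - 1 := by omega
      rw [if_neg (by omega), if_neg (by omega), h2, if_neg (by omega)]
      congr 1
      omega
    have h3 : lh (10 + 8 * 0 + δ) = none := by
      unfold lh
      have h2 : (10 + 8 * 0 + δ - 10) / 8 = 0 := by omega
      rw [if_neg (by omega), if_neg (by omega), h2, if_pos rfl]
    rw [e]
    obtain ⟨h4, h5⟩ := e1_block h1 h3 n ih'.2
    refine ⟨?_, h5⟩
    rw [h4, ih'.1]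
    rfl

private theorem e1_hc (n : ℕ) {w : List ℕ} (hw : lead w = 0) :
    cells (hc n ++ w) = (0, n) :: cells w ∧ lead (hc n ++ w) = 0 := by
  unfold hc
  rw [List.cons_append]
  exact e1_block (by rfl) (by rfl) n hw

private theorem e1_rws {g N n : ℕ} {u : ℕ → List ℕ} (hu : Rows g N u) {ω : List ℕ}
    (hω : ∀ δ ∈ ω, δ < 8) {w : List ℕ} (hw : lead w = 0) (i : ℕ) :
    cells (rws n u i ω ++ w) = ((lw u i ω.length).map fun l => (l, n)) ++ cells w ∧
      lead (rws n u i ω ++ w) = 0 := by
  induction ω generalizing i with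
  | nil => exact ⟨rfl, hw⟩
  | cons δ ω ih =>
    obtain ⟨h1, h2⟩ := ih (fun a ha => hω a (List.mem_cons_of_mem _ ha)) (i + 1)
    obtain ⟨h3, h4⟩ := e1_hc n h2
    obtain ⟨h5, h6⟩ := e1_row (n := n) (hω δ List.mem_cons_self) h4 (u := u i)
      (fun a ha => (hu.2 i a ha).1)
    have e : rws n u i (δ :: ω) ++ w =
        row δ (dec n (u i)) ++ (hc n ++ (rws n u (i + 1) ω ++ w)) := by
      simp only [rws, List.append_assoc]
    rw [e]
    refine ⟨?_, h6⟩
    rw [h5, h3, h1]
    simp only [List.length_cons, lw, List.map_append, List.map_cons, List.append_assoc,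
      List.cons_append]

theorem cells_wd {g N n : ℕ} {u : ℕ → List ℕ} (hu : Rows g N u) (i : ℕ) {ω : List ℕ}
    (hω : ∀ δ ∈ ω, δ < 8) :
    cells (wd n u i ω) = (1 :: 1 :: 0 :: lw u i ω.length ++ [1, 1]).map fun l => (l, n) := by
  have hP2 : cells (P2 n n) = [(1, n), (1, n)] ∧ lead (P2 n n) = 0 := by
    have h0 : lead ([] : List ℕ) = 0 := rfl
    obtain ⟨h1, h2⟩ := e1_block (a := 8) (x := 9) (l := 1) (by rfl) (by rfl) n h0
    obtain ⟨h3, h4⟩ := e1_block (a := 6) (x := 7) (l := 1) (by rfl) (by rfl) n h2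
    have e : P2 n n = 6 :: (List.replicate n 7 ++ (8 :: (List.replicate n 9 ++ []))) := by
      unfold P2
      simp
    rw [e]
    refine ⟨?_, h4⟩
    rw [h3, h1]
    rfl
  obtain ⟨h1, h2⟩ := e1_rws (n := n) hu hω hP2.2 i
  obtain ⟨h3, h4⟩ := e1_hc n h2
  obtain ⟨h5, h6⟩ := e1_block (a := 4) (x := 5) (l := 1) (by rfl) (by rfl) n h4
  obtain ⟨h7, h8⟩ := e1_block (a := 2) (x := 3) (l := 1) (by rfl) (by rfl) n h6
  have e : wd n u i ω = 2 :: (List.replicate n 3 ++ (4 :: (List.replicate n 5 ++
      (hc n ++ (rws n u i ω ++ P2 n n))))) := by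
    unfold wd P1
    simp only [List.append_assoc, List.cons_append]
  rw [e, h7, h5, h3, h1, hP2.1]
  simp

theorem labs_wd {g N n : ℕ} {u : ℕ → List ℕ} (hu : Rows g N u) (i : ℕ) {ω : List ℕ}
    (hω : ∀ δ ∈ ω, δ < 8) :
    labs (wd n u i ω) = 1 :: 1 :: 0 :: lw u i ω.length ++ [1, 1] := by
  rw [labs_eq, cells_wd hu i hω, List.map_map]
  exact List.map_id _

end Pool.Agent.NGP.PE
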