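import Pool.Agent.NGP.E1

/-!
# NGP, part E, module E2: `wd` is special and has no violation

PROOF. `sp_wd`: all contents are `n` by `cells_wd`; in `1 :: 1 :: 0 :: lw u i m ++ [1, 1]` no two
adjacent labels are `0`, since the rows `u i` are nonempty (`N > 0`) and have labels `≥ 2`.
`adv_dead_append`: induction along `adv` (second argument `x`, generalizing the others).
`no_vio`: let `i`, `m`, `pre` with either `pre.reverse = 1 :: z` or
`pre.reverse = (u j).reverse ++ 0 :: z`, `i = j + 1`. (a) The centre at the `0` in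
`pre ++ 0 :: lw u i m ++ [1, 1]` is not `viol`: if `pre.reverse = 1 :: z` the first step of `adv` has
`b = 1`, so `dead` (or `alive`, never `viol`); otherwise, if `m = 0`, the first step has `d = 1`; if
`m = m' + 1`, the lists are `0 :: (u j).reverse ++ [0] ++ z` and `0 :: u (j+1) ++ [0] ++ ...`, so `adv` is
`dead` by `hadv j` and `adv_dead_append`. (b) By induction on `m`, for all such `i`, `pre`: if
`0 :: (lw u i m ++ [1, 1]) = p' ++ 0 :: s` then `adv q (0 :: (pre ++ p').reverse) (0 :: s) ≠ viol`:
`p' = []` is (a); otherwise `p' = 0 :: p''` and `p'' ++ 0 :: s = lw u i m ++ [1, 1]`; for `m = 0` this is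
impossible; for `m = m' + 1`, as `u i` does not contain `0`, `p'' = u i ++ p'''` and
`p''' ++ 0 :: s = 0 :: lw u (i+1) m' ++ [1, 1]`: use the induction hypothesis for `i + 1` and
`pre ++ 0 :: u i`. Finally take `pre = [1, 1]` (a `0` cannot be one of the first two letters).
-/

namespace Pool.Agent.NGP.PE

theorem adv_dead_append {q : ℕ → ℕ → ℕ → ℕ → Bool} {x y : List ℕ}
    (h : adv q x y = Adv.dead) (x' y' : List ℕ) : adv q (x ++ x') (y ++ y') = Adv.dead := by
  induction y generalizing x with
  | nil =>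
    rcases x with _ | ⟨a, _ | ⟨b, x1⟩⟩ <;> simp [adv] at h
  | cons c y1 ih =>
    rcases y1 with _ | ⟨d, y2⟩
    · rcases x with _ | ⟨a, _ | ⟨b, x1⟩⟩ <;> simp [adv] at h
    · rcases x with _ | ⟨a, _ | ⟨b, x1⟩⟩
      · simp [adv] at h
      · simp [adv] at h
      · simp only [List.cons_append]
        rw [adv] at h ⊢
        by_cases h1 : b = 1 ∨ d = 1
        · rw [if_pos h1]
        · rw [if_neg h1] at h ⊢
          by_cases h2 : q a b c d = true
          · rw [if_pos h2] at h ⊢
            by_cases h3 : b = 0 ∨ d = 0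
            · rw [if_pos h3]
            · rw [if_neg h3] at h ⊢
              have := ih h
              simpa only [List.cons_append] using this
          · rw [if_neg h2] at h
            cases h

private theorem E2_chain1 {t l : List ℕ} (hl : ∀ a ∈ l, a ≠ 0)
    (ht : List.IsChain (fun a b : ℕ => ¬ (a = 0 ∧ b = 0)) (0 :: t)) :
    List.IsChain (fun a b : ℕ => ¬ (a = 0 ∧ b = 0)) (l ++ 0 :: t) := by
  induction l with
  | nil => exact ht
  | cons a l ih =>
    have ih' := ih fun b hb => hl b (List.mem_cons_of_mem _ hb)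
    have ha : a ≠ 0 := hl a List.mem_cons_self
    rw [List.cons_append]
    rcases l with _ | ⟨b, l'⟩
    · rw [List.nil_append] at ih' ⊢
      exact List.isChain_cons_cons.2 ⟨fun h => ha h.1, ih'⟩
    · rw [List.cons_append] at ih' ⊢
      exact List.isChain_cons_cons.2 ⟨fun h => ha h.1, ih'⟩

private theorem E2_chain {g N : ℕ} {u : ℕ → List ℕ} (hN : 0 < N) (hu : Rows g N u) (m : ℕ) :
    ∀ i, List.IsChain (fun a b : ℕ => ¬ (a = 0 ∧ b = 0)) (0 :: (lw u i m ++ [1, 1])) := by
  induction m with
  | zero =>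
    intro i
    simp [lw]
  | succ m ih =>
    intro i
    have h0 : ∀ a ∈ u i, a ≠ 0 := fun a ha => by
      have := (hu.2 i a ha).1
      omega
    have h1 := E2_chain1 h0 (ih (i + 1))
    have h2 : 0 < (u i).length := by rw [hu.1 i]; exact hN
    have e : lw u i (m + 1) ++ [1, 1] = u i ++ 0 :: (lw u (i + 1) m ++ [1, 1]) := by
      simp [lw]
    rw [e]
    rcases hui : u i with _ | ⟨b, l'⟩
    · rw [hui] at h2
      simp at h2
    · rw [hui] at h1 h0
      rw [List.cons_append] at h1 ⊢
      exact List.isChain_cons_cons.2 ⟨fun h => h0 b List.mem_cons_self h.2, h1⟩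

theorem sp_wd {g N n : ℕ} {u : ℕ → List ℕ} (hN : 0 < N) (hu : Rows g N u) (i : ℕ) {ω : List ℕ}
    (hω : ∀ δ ∈ ω, δ < 8) : Sp n (wd n u i ω) := by
  unfold Sp
  rw [cells_wd hu i hω]
  constructor
  · intro c hc
    rw [List.mem_map] at hc
    obtain ⟨l, _, rfl⟩ := hc
    rfl
  · rw [List.isChain_map]
    have h1 := E2_chain hN hu ω.length i
    simp only [List.cons_append]
    refine List.isChain_cons_cons.2 ⟨fun h => absurd h.1 one_ne_zero, ?_⟩
    exact List.isChain_cons_cons.2 ⟨fun h => absurd h.1 one_ne_zero, h1⟩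

private theorem E2_main {g N : ℕ} {q : ℕ → ℕ → ℕ → ℕ → Bool} {u : ℕ → List ℕ}
    (hu : Rows g N u)
    (hadv : ∀ i, adv q (0 :: (u i).reverse ++ [0]) (0 :: u (i + 1) ++ [0]) = Adv.dead) (m : ℕ) :
    ∀ (i : ℕ) (pre : List ℕ), ((∃ z, pre.reverse = 1 :: z) ∨
      ∃ j z, i = j + 1 ∧ pre.reverse = (u j).reverse ++ 0 :: z) →
      ∀ p' s, 0 :: (lw u i m ++ [1, 1]) = p' ++ 0 :: s →
        adv q (0 :: (pre ++ p').reverse) (0 :: s) ≠ Adv.viol := by
  induction m with
  | zero =>
    intro i pre hpre p' s h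
    rcases p' with _ | ⟨a, p''⟩
    · -- the centre
      rw [List.nil_append] at h
      have hs : s = [1, 1] := by
        have := (List.cons.inj h).2
        simpa [lw] using this.symm
      subst hs
      rw [List.append_nil]
      rcases hr : pre.reverse with _ | ⟨b, z⟩
      · simp [adv]
      · rw [adv]
        simp
    · exfalso
      rw [List.cons_append] at h
      have h1 := (List.cons.inj h).2
      simp only [lw, List.nil_append] at h1
      rcases p'' with _ | ⟨b, _ | ⟨c, p3⟩⟩
      · simp at h1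
      · simp at h1
      · simp at h1
  | succ m ih =>
    intro i pre hpre p' s h
    have e : lw u i (m + 1) ++ [1, 1] = u i ++ 0 :: (lw u (i + 1) m ++ [1, 1]) := by
      simp [lw]
    rw [e] at h
    rcases p' with _ | ⟨a, p''⟩
    · rw [List.nil_append] at h
      have hs := (List.cons.inj h).2
      subst hs
      rw [List.append_nil]
      rcases hpre with ⟨z, hz⟩ | ⟨j, z, rfl, hz⟩
      · rw [hz]
        rcases hui : u i ++ 0 :: (lw u (i + 1) m ++ [1, 1]) with _ | ⟨d, s'⟩
        · simp [adv]
        · rw [adv]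
          simp
      · rw [hz]
        have h1 := adv_dead_append (hadv j) z (lw u (j + 1 + 1) m ++ [1, 1])
        simp only [List.cons_append, List.append_assoc, List.nil_append] at h1
        rw [h1]
        simp
    · rw [List.cons_append] at h
      obtain ⟨h0, h1⟩ := List.cons.inj h
      subst h0
      have hno : (0 : ℕ) ∉ u i := fun hm => by
        have := (hu.2 i 0 hm).1
        omega
      have h2 : ∃ p3, p'' = u i ++ p3 ∧ 0 :: (lw u (i + 1) m ++ [1, 1]) = p3 ++ 0 :: s := by
        rcases List.append_eq_append_iff.1 h1 with ⟨a', h3, h4⟩ | ⟨c', h3, h4⟩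
        · exact ⟨a', h3, h4⟩
        · rcases c' with _ | ⟨c, c''⟩
          · rw [List.append_nil] at h3
            rw [List.nil_append] at h4
            exact ⟨[], by rw [h3, List.append_nil], by rw [List.nil_append, h4]⟩
          · exfalso
            rw [List.cons_append] at h4
            have h5 := (List.cons.inj h4).1
            apply hno
            rw [h3, h5]
            simp
      obtain ⟨p3, rfl, h3⟩ := h2
      have h4 := ih (i + 1) (pre ++ 0 :: u i) (Or.inr ⟨i, pre.reverse, rfl, by simp⟩) p3 s h3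
      have e2 : pre ++ 0 :: u i ++ p3 = pre ++ 0 :: (u i ++ p3) := by simp
      rw [e2] at h4
      exact h4

theorem no_vio {g N : ℕ} {q : ℕ → ℕ → ℕ → ℕ → Bool} {u : ℕ → List ℕ} (hN : 0 < N)
    (hu : Rows g N u)
    (hadv : ∀ i, adv q (0 :: (u i).reverse ++ [0]) (0 :: u (i + 1) ++ [0]) = Adv.dead)
    (i m : ℕ) : ¬ Vio q (1 :: 1 :: 0 :: lw u i m ++ [1, 1]) := by
  have _ := hN
  rintro ⟨p, s, h, hv⟩
  simp only [List.cons_append] at h
  rcases p with _ | ⟨a, _ | ⟨b, p'⟩⟩
  · simp at h
  · simp at h
  · simp only [List.cons_append] at h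
    obtain ⟨h1, h3⟩ := List.cons.inj h
    obtain ⟨h2, h4⟩ := List.cons.inj h3
    subst h1
    subst h2
    exact E2_main hu hadv m i [1, 1] (Or.inl ⟨[1], rfl⟩) p' s h4 hv

end Pool.Agent.NGP.PE
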