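import Pool.Agent.NGP.Defs

/-!
# NGP, part V: values of words in the free group
-/

namespace Pool.Agent.NGP

theorem fv_nil : fv [] = 1 := rfl

theorem fv_cons (a : ℕ) (w : List ℕ) : fv (a :: w) = lf a * fv w := by simp [fv]

theorem fv_append (u v : List ℕ) : fv (u ++ v) = fv u * fv v := by simp [fv]

theorem fv_rep (u : List ℕ) (k : ℕ) : fv (List.replicate k u).flatten = fv u ^ k := by
  induction k with
  | zero => simp [fv_nil]
  | succ k ih => simp [List.replicate_succ, fv_append, ih, pow_succ']

theorem lf_eq (a : ℕ) : lf a = FreeGroup.mk (lv a).toList := by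
  unfold lf
  rcases h : lv a with _ | ⟨i, b⟩
  · rfl
  · cases b
    · rfl
    · rfl

theorem fv_eq_mk (w : List ℕ) : fv w = FreeGroup.mk (w.filterMap lv) := by
  induction w with
  | nil => rfl
  | cons a w ih =>
    rw [fv_cons, lf_eq, ih, FreeGroup.mul_mk]
    rcases h : lv a with _ | x
    · simp [h]
    · simp [h]

theorem rpush_reduce (x : ℕ × Bool) (s : List (ℕ × Bool)) :
    rpush x (FreeGroup.reduce s) = FreeGroup.reduce (x :: s) := by
  rw [FreeGroup.reduce.cons]
  rcases h : FreeGroup.reduce s with _ | ⟨y, t⟩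
  · rfl
  · simp only [rpush]
    congr 1
    rcases x with ⟨i, b⟩
    rcases y with ⟨j, b'⟩
    cases b <;> cases b' <;> simp

theorem rv_eq (w : List ℕ) : rv w = FreeGroup.reduce (w.filterMap lv) := by
  induction w with
  | nil => rfl
  | cons a w ih =>
    unfold rv
    rcases h : lv a with _ | x
    · simp [h, ih]
    · simp only [h, ih, rpush_reduce, List.filterMap_cons]

theorem toWord_fv (w : List ℕ) : (fv w).toWord = rv w := by
  rw [fv_eq_mk, FreeGroup.toWord_mk, rv_eq]

theorem rv_inj {u v : List ℕ} : rv u = rv v ↔ fv u = fv v := by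
  rw [← toWord_fv, ← toWord_fv, FreeGroup.toWord_inj]

theorem nm_eq (w : List ℕ) : nm w = (fv w).norm := by
  simp [nm, ← toWord_fv, FreeGroup.norm]

theorem nm_le_length (w : List ℕ) : nm w ≤ w.length := by
  rw [nm_eq, fv_eq_mk]
  exact (FreeGroup.norm_mk_le).trans (List.length_filterMap_le _ _)

theorem nm_congr {u v : List ℕ} (h : fv u = fv v) : nm u = nm v := by
  rw [nm_eq, nm_eq, h]

theorem nm_append_le (u v : List ℕ) : nm (u ++ v) ≤ nm u + nm v := by
  rw [nm_eq, nm_eq, nm_eq, fv_append]
  exact FreeGroup.norm_mul_le _ _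

theorem reduce_rv (w : List ℕ) : FreeGroup.reduce (rv w) = rv w := by
  rw [← toWord_fv, FreeGroup.reduce_toWord]

theorem rmul_eq (u v : List ℕ) : rmul (rv u) (rv v) = rv (u ++ v) := by
  have h : ∀ s : List (ℕ × Bool), rmul s (rv v) = FreeGroup.reduce (s ++ rv v) := by
    intro s
    induction s with
    | nil => simp [rmul, reduce_rv]
    | cons x s ih => rw [rmul, ih, rpush_reduce]; rfl
  rw [h, ← toWord_fv, ← toWord_fv, ← FreeGroup.toWord_mk, ← FreeGroup.mul_mk,
    FreeGroup.mk_toWord, FreeGroup.mk_toWord, ← fv_append, toWord_fv]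

/-- If the values with the exponents `k` and `k + 1` are trivial, so are all values. -/
theorem exp_trick {x u z v y : List ℕ} {k : ℕ}
    (h1 : fv (x ++ (List.replicate k u).flatten ++ z ++ (List.replicate k v).flatten ++ y) = 1)
    (h2 : fv (x ++ (List.replicate (k + 1) u).flatten ++ z ++
      (List.replicate (k + 1) v).flatten ++ y) = 1) (j : ℕ) :
    fv (x ++ (List.replicate j u).flatten ++ z ++ (List.replicate j v).flatten ++ y) = 1 := by
  simp only [fv_append, fv_rep] at h1 h2 ⊢
  have hz : fv u * fv z * fv v = fv z := by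
    have e1 : fv x * fv u ^ k * fv z * fv v ^ k * fv y =
        fv x * fv u ^ k * (fv u * fv z * fv v) * fv v ^ k * fv y := by
      rw [h1, ← h2, pow_succ (fv u) k, pow_succ' (fv v) k]
      group
    have e2 := mul_right_cancel (mul_right_cancel e1)
    exact (mul_left_cancel e2).symm
  have hk : ∀ j, fv u ^ j * fv z * fv v ^ j = fv z := by
    intro j
    induction j with
    | zero => simp
    | succ j ih =>
      rw [pow_succ (fv u) j, pow_succ' (fv v) j]
      calc fv u ^ j * fv u * fv z * (fv v * fv v ^ j)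
          = fv u ^ j * (fv u * fv z * fv v) * fv v ^ j := by group
        _ = fv z := by rw [hz, ih]
  have e : ∀ j, fv x * fv u ^ j * fv z * fv v ^ j * fv y = fv x * fv z * fv y := by
    intro j
    calc fv x * fv u ^ j * fv z * fv v ^ j * fv y
        = fv x * (fv u ^ j * fv z * fv v ^ j) * fv y := by group
      _ = fv x * fv z * fv y := by rw [hk]
  rw [e j, ← e k, h1]

end Pool.Agent.NGP
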