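import Pool.Agent.NGP.EDefs
import Pool.Agent.NGP.V1

/-!
# NGP, part E, module E3: local words of value 1 are tree words

PROOF. Let `ρ ω = rv (ω.map fun δ => 10 + δ)`; `lv (10 + δ) = some (2 + δ / 2, decide (δ % 2 = 0))` for
`δ < 8`, so `ρ (δ :: ω) = rpush (2 + δ / 2, δ even) (ρ ω)`. Call `0, 2, 4, 6` positive, `1, 3, 5, 7`
negative letters. (T) If `TW t` then `ρ (t ++ w) = ρ w` (value `1` by induction, `rv_inj`).
Let `w` be a chain (`List.IsChain Fol w`) which is empty or ends with `5` or `7`. By strong induction on
the length of `w`: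
(C) if `w` is empty or starts with `a ∈ {1, 3, 5}` then `ρ w` is empty only if `w = []`, and otherwise
    `ρ w` starts with the (negative) letter of `a`, i.e. with `(2 + a / 2, false)`;
(A) if `w` starts with `0`, `2` or `6`: either `w = t ++ w'` with `TW t` and `w'` empty or starting with
    `1, 3, 5`, or `ρ w` starts with a positive letter `(j, true)`.
(A), `w = 6 :: w₁`: `w₁ ≠ []` (the last letter is 5 or 7), so `w₁ = 7 :: w'`, take `t = [6, 7]`.
(A), `w = x :: w₁`, `x ∈ {0, 2}`: `w₁` starts with `0, 2, 6`. If `ρ w₁` starts with a positive letter, so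
  does `ρ w` (no cancellation: `rpush` of a positive letter on a positive letter). Otherwise
  `w₁ = t ++ w'`, `ρ w₁ = ρ w'`. If `w' = []`: `ρ w = [x]`. If `w'` starts with a letter `z ≠ x + 1` of
  `{1, 3, 5}`, by (C) `ρ w'` starts with the negative letter of `z`, whose generator is not the one of
  `x`, so `ρ w` starts with the letter of `x`. If `w' = (x + 1) :: w₂` then `w₂ = 4 :: w₃`,
  `w₃` starts with `0, 2, 6` (the last letter of `w` is 5 or 7), and `ρ w = ρ (4 :: w₃)`. Apply (A) to
  `w₃`: if `ρ w₃` starts with a positive letter, `ρ (4 :: w₃)` starts with the letter of `4`. Otherwise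
  `w₃ = t' ++ w'₃`, `ρ (4 :: w₃) = rpush (4, true) (ρ w'₃)`: if `w'₃ = []` or starts with `1` or `3`,
  it starts with the letter of `4` (by (C)); if `w'₃ = 5 :: w₄`, then
  `w = x :: (t ++ (x + 1) :: 4 :: (t' ++ [5])) ++ w₄` and `w₄` is empty or starts with `1, 3, 5`.
(C), `w = 5 :: w₁`: `w₁` is empty or starts with `1, 3, 5`: `ρ w₁` is empty or starts with a negative
  letter, so `ρ w` starts with the letter of `5`.
(C), `w = z :: w₁`, `z ∈ {1, 3}`: `w₁ = 4 :: w₃` as above; `ρ (4 :: w₃)` starts with the letter of `4`
  or (case `w'₃ = 5 :: w₄`) equals `ρ w₄`, `w₄` empty or starting with `1, 3, 5`, so `ρ w₄` is empty or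
  starts with a negative letter; in all cases `ρ w` starts with the letter of `z`.
Conclusion: let `Lc ω` and `ρ ω = []`. By (A) `ω = t ++ w'`, `ρ w' = ρ ω = []`, so `w' = []` by (C).
-/

namespace Pool.Agent.NGP.PE

private theorem e3_lv {δ : ℕ} (h : δ < 8) : lv (10 + δ) = some (2 + δ / 2, decide (δ % 2 = 0)) := by
  interval_cases δ <;> rfl

theorem fv_tw {ω : List ℕ} (h : TW ω) : fv (ω.map fun δ => 10 + δ) = 1 := by
  induction h with
  | base =>
    simp [fv, lf, lv]
  | nd X hs ht ihs iht =>
    rw [List.map_cons, List.map_append, List.map_cons, List.map_cons, List.map_append, fv_cons,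
      fv_append, fv_cons, fv_cons, fv_append, ihs, iht]
    cases X <;> simp [fv, lf, lv]

/-- Reduced word of a word of row types. -/
private def rr (ω : List ℕ) : List (ℕ × Bool) := rv (ω.map fun δ => 10 + δ)

private theorem rr_nil : rr [] = [] := rfl

private theorem rr_cons {δ : ℕ} (h : δ < 8) (ω : List ℕ) :
    rr (δ :: ω) = rpush (2 + δ / 2, decide (δ % 2 = 0)) (rr ω) := by
  simp only [rr, List.map_cons, rv, e3_lv h]

private theorem rr_tw {t : List ℕ} (h : TW t) (w : List ℕ) : rr (t ++ w) = rr w := by
  simp only [rr]
  rw [rv_inj, List.map_append, fv_append, fv_tw h, one_mul]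

private def En (w : List ℕ) : Prop := ∀ a, w.getLast? = some a → a = 5 ∨ a = 7

private theorem En_cons {a b : ℕ} {w : List ℕ} (h : En (a :: b :: w)) : En (b :: w) := by
  intro c hc
  exact h c (by rw [List.getLast?_cons_cons]; exact hc)

private theorem En_append {t w : List ℕ} (h : En (t ++ w)) : En w := by
  intro c hc
  apply h c
  rw [List.getLast?_append, hc]
  rfl

private def Hc (w : List ℕ) : Prop := w = [] ∨ ∃ a w', w = a :: w' ∧ (a = 1 ∨ a = 3 ∨ a = 5)

private def Ha (w : List ℕ) : Prop := ∃ a w', w = a :: w' ∧ (a = 0 ∨ a = 2 ∨ a = 6)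

private def ClC (w : List ℕ) : Prop :=
  Hc w → w = [] ∨ ∃ a w' r, w = a :: w' ∧ rr w = (2 + a / 2, false) :: r

private def ClA (w : List ℕ) : Prop :=
  Ha w → (∃ t w', w = t ++ w' ∧ TW t ∧ Hc w') ∨ ∃ j r, rr w = (j, true) :: r

private theorem rp_pos {x j : ℕ} (r : List (ℕ × Bool)) :
    rpush (x, true) ((j, true) :: r) = (x, true) :: (j, true) :: r := by
  simp [rpush]

private theorem rp_neg {x j : ℕ} (r : List (ℕ × Bool)) :
    rpush (x, false) ((j, false) :: r) = (x, false) :: (j, false) :: r := by
  simp [rpush]

private theorem rp_ne {x j : ℕ} (h : x ≠ j) (b c : Bool) (r : List (ℕ × Bool)) :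
    rpush (x, b) ((j, c) :: r) = (x, b) :: (j, c) :: r := by
  simp [rpush, h]

private theorem rp_cancel {x : ℕ} (r : List (ℕ × Bool)) :
    rpush (x, true) ((x, false) :: r) = r := by
  simp [rpush]

private theorem hc_step {a : ℕ} {w : List ℕ} (ha : a = 5 ∨ a = 7)
    (h : List.IsChain Fol (a :: w)) : Hc w := by
  rcases w with _ | ⟨b, w⟩
  · exact Or.inl rfl
  · have h1 := (List.isChain_cons_cons.1 h).1
    refine Or.inr ⟨b, w, rfl, ?_⟩
    unfold Fol at h1
    omega

private theorem clB {w : List ℕ} (hch : List.IsChain Fol (4 :: w)) (hen : En (4 :: w))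
    (hA : ClA w) (hC : ∀ w', w'.length ≤ w.length → List.IsChain Fol w' → En w' → ClC w') :
    (∃ t w', w = t ++ 5 :: w' ∧ TW t ∧ Hc w' ∧ rr (4 :: w) = rr w') ∨
      ∃ r, rr (4 :: w) = (4, true) :: r := by
  have h4 : rr (4 :: w) = rpush (4, true) (rr w) := rr_cons (by norm_num) w
  rcases w with _ | ⟨b, w₁⟩
  · exact absurd (hen 4 rfl) (by omega)
  have hb := (List.isChain_cons_cons.1 hch).1
  have hHa : Ha (b :: w₁) := ⟨b, w₁, rfl, by unfold Fol at hb; omega⟩
  have hch1 := (List.isChain_cons_cons.1 hch).2
  have hen1 := En_cons hen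
  rcases hA hHa with ⟨t, w', h1, h2, h3⟩ | ⟨j, r, h1⟩
  · rw [h1] at hch1 hen1
    have hch' : List.IsChain Fol w' := (List.isChain_append.1 hch1).2.1
    have hen' := En_append hen1
    have hlen : w'.length ≤ (b :: w₁).length := by rw [h1]; simp
    have hr : rr (b :: w₁) = rr w' := by rw [h1, rr_tw h2]
    rcases hC w' hlen hch' hen' h3 with h5 | ⟨a, w'', r, h5, h6⟩
    · right
      subst h5
      exact ⟨[], by rw [h4, hr, rr_nil]; rfl⟩
    · by_cases ha : a = 5
      · subst ha
        left
        refine ⟨t, w'', by rw [h1, h5], h2, ?_, ?_⟩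
        · rw [h5] at hch'
          exact hc_step (Or.inl rfl) hch'
        · rw [h4, hr, h5, rr_cons (by norm_num)]
          have h7 := hc_step (Or.inl rfl) (h5 ▸ hch')
          have h8 : List.IsChain Fol w'' := by
            rw [h5] at hch'
            exact hch'.tail
          have h9 : En w'' := by
            rcases w'' with _ | ⟨e, w''⟩
            · intro c hc
              simp at hc
            · rw [h5] at hen'
              exact En_cons hen'
          have h10 : w''.length ≤ (b :: w₁).length := by
            rw [h5, List.length_cons] at hlen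
            omega
          rcases hC w'' h10 h8 h9 h7 with h11 | ⟨a', w₃, r', h11, h12⟩
          · rw [h11, rr_nil]
            rfl
          · rw [h12]
            simp [rpush]
      · right
        rw [h4, hr, h6]
        have h13 : a = 1 ∨ a = 3 := by
          rcases h3 with h3 | ⟨a₀, w₀, h3, h14⟩
          · rw [h3] at h5
            simp at h5
          · rw [h5] at h3
            obtain ⟨rfl, -⟩ := List.cons.inj h3
            omega
        refine ⟨_, rp_ne ?_ _ _ _⟩
        omega
  · right
    exact ⟨_, by rw [h4, h1, rp_pos]⟩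

private theorem clAll : ∀ n : ℕ, ∀ w : List ℕ, w.length ≤ n → List.IsChain Fol w → En w →
    ClC w ∧ ClA w := by
  intro n
  induction n with
  | zero =>
    intro w hn _ _
    have hw : w = [] := List.length_eq_zero_iff.1 (Nat.le_zero.1 hn)
    subst hw
    refine ⟨fun _ => Or.inl rfl, ?_⟩
    rintro ⟨a, w', h, -⟩
    simp at h
  | succ n ih =>
    intro w hn hch hen
    rcases w with _ | ⟨a, w₁⟩
    · refine ⟨fun _ => Or.inl rfl, ?_⟩
      rintro ⟨a, w', h, -⟩
      simp at h
    rw [List.length_cons] at hn
    have hch1 : List.IsChain Fol w₁ := hch.tail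
    have hen1 : En w₁ := by
      rcases w₁ with _ | ⟨b, w₂⟩
      · intro c hc
        simp at hc
      · exact En_cons hen
    have hC' : ∀ w', w'.length ≤ n → List.IsChain Fol w' → En w' → ClC w' :=
      fun w' h1 h2 h3 => (ih w' h1 h2 h3).1
    constructor
    · rintro (h | ⟨a₀, w₀, h, ha⟩)
      · simp at h
      obtain ⟨rfl, rfl⟩ := List.cons.inj h
      right
      refine ⟨a, w₁, ?_⟩
      by_cases h5 : a = 5
      · subst h5
        have h6 := hc_step (Or.inl rfl) hch
        rw [rr_cons (by norm_num)]
        rcases hC' w₁ (by omega) hch1 hen1 h6 with h7 | ⟨a', w', r, h7, h8⟩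
        · exact ⟨[], rfl, by rw [h7, rr_nil]; rfl⟩
        · exact ⟨(2 + a' / 2, false) :: r, rfl, by rw [h8]; exact rp_neg r⟩
      · have ha' : a = 1 ∨ a = 3 := by omega
        rcases w₁ with _ | ⟨b, w₃⟩
        · have := hen a rfl
          omega
        have hb := (List.isChain_cons_cons.1 hch).1
        have hb4 : b = 4 := by unfold Fol at hb; omega
        subst hb4
        rw [List.length_cons] at hn
        have h9 : rr (a :: 4 :: w₃) = rpush (2 + a / 2, false) (rr (4 :: w₃)) := by
          rw [rr_cons (by omega)]
          rcases ha' with rfl | rfl <;> rfl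
        have hen3 : En w₃ := by
          rcases w₃ with _ | ⟨e, w₄⟩
          · intro c hc
            simp at hc
          · exact En_cons hen1
        rcases clB hch1 hen1 (ih w₃ (by omega) hch1.tail hen3).2
            (fun w' h1 h2 h3 => hC' w' (by omega) h2 h3) with
          ⟨t, w', h10, h11, h12, h13⟩ | ⟨r, h10⟩
        · have hw' : w'.length ≤ n := by
            rw [h10] at hn
            simp only [List.length_append, List.length_cons] at hn
            omega
          have h14 : List.IsChain Fol w' := by
            have h15 := hch1.tail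
            simp only [List.tail_cons] at h15
            rw [h10] at h15
            exact (List.isChain_append.1 h15).2.1.tail
          have h16 : En w' := by
            rcases w' with _ | ⟨e, w''⟩
            · intro c hc
              simp at hc
            · rw [h10] at hen3
              exact En_cons (En_append hen3)
          rw [h9, h13]
          rcases hC' w' hw' h14 h16 h12 with h17 | ⟨a', w'', r, h17, h18⟩
          · exact ⟨[], rfl, by rw [h17, rr_nil]; rfl⟩
          · exact ⟨(2 + a' / 2, false) :: r, rfl, by rw [h18]; exact rp_neg r⟩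
        · rw [h9, h10]
          exact ⟨(4, true) :: r, rfl, rp_ne (by omega) _ _ _⟩
    · rintro ⟨a₀, w₀, h, ha⟩
      obtain ⟨rfl, rfl⟩ := List.cons.inj h
      rcases w₁ with _ | ⟨b, w₂⟩
      · have := hen a rfl
        omega
      have hb := (List.isChain_cons_cons.1 hch).1
      by_cases h6 : a = 6
      · subst h6
        have hb7 : b = 7 := by unfold Fol at hb; omega
        subst hb7
        exact Or.inl ⟨[6, 7], w₂, rfl, TW.base, hc_step (Or.inr rfl) hch1⟩
      · have hx : a = 0 ∨ a = 2 := by omega
        have hHa : Ha (b :: w₂) := ⟨b, w₂, rfl, by unfold Fol at hb; omega⟩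
        have h9 : rr (a :: b :: w₂) = rpush (2 + a / 2, true) (rr (b :: w₂)) := by
          rw [rr_cons (by omega)]
          rcases hx with rfl | rfl <;> rfl
        rcases (ih (b :: w₂) (by omega) hch1 hen1).2 hHa with ⟨t, w', h1, h2, h3⟩ | ⟨j, r, h1⟩
        · have hch' : List.IsChain Fol w' := by
            rw [h1] at hch1
            exact (List.isChain_append.1 hch1).2.1
          have hen' : En w' := by
            rw [h1] at hen1
            exact En_append hen1
          have hlen : w'.length ≤ (b :: w₂).length := by rw [h1]; simp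
          have hr : rr (b :: w₂) = rr w' := by rw [h1, rr_tw h2]
          rcases h3 with h3 | ⟨z, w₃, h3, hz⟩
          · right
            exact ⟨_, [], by rw [h9, hr, h3, rr_nil]; rfl⟩
          by_cases hzx : z = a + 1
          · subst hzx
            rcases w₃ with _ | ⟨e, w₄⟩
            · rw [h3] at hen'
              have := hen' (a + 1) rfl
              omega
            rw [h3] at hch' hen'
            have he := (List.isChain_cons_cons.1 hch').1
            have he4 : e = 4 := by unfold Fol at he; omega
            subst he4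
            have hch4 : List.IsChain Fol (4 :: w₄) := hch'.tail
            have hen4 : En (4 :: w₄) := En_cons hen'
            have hlen4 : w₄.length ≤ n := by
              rw [h3] at hlen
              simp only [List.length_cons] at hlen hn
              omega
            have hen5 : En w₄ := by
              rcases w₄ with _ | ⟨e, w₅⟩
              · intro c hc
                simp at hc
              · exact En_cons hen4
            rcases clB hch4 hen4 (ih w₄ hlen4 hch4.tail hen5).2
                (fun w' h1 h2 h3 => hC' w' (by omega) h2 h3) with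
              ⟨t', w', h10, h11, h12, -⟩ | ⟨r, h10⟩
            · left
              rcases hx with rfl | rfl
              · refine ⟨0 :: (t ++ 1 :: 4 :: (t' ++ [5])), w', ?_, TW.nd false h2 h11, h12⟩
                rw [h1, h3, h10]
                simp
              · refine ⟨2 :: (t ++ 3 :: 4 :: (t' ++ [5])), w', ?_, TW.nd true h2 h11, h12⟩
                rw [h1, h3, h10]
                simp
            · right
              refine ⟨4, r, ?_⟩
              rw [h9, hr, h3, rr_cons (by omega), h10]
              rcases hx with rfl | rfl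
              · simp [rpush]
              · simp [rpush]
          · right
            rcases hC' w' (by omega) hch' hen' (Or.inr ⟨z, w₃, h3, hz⟩) with
              h7 | ⟨a', w'', r, h7, h8⟩
            · rw [h3] at h7
              simp at h7
            · rw [h3] at h7
              obtain ⟨rfl, -⟩ := List.cons.inj h7
              refine ⟨2 + a / 2, (2 + z / 2, false) :: r, ?_⟩
              rw [h9, hr, h8]
              exact rp_ne (by omega) _ _ _
        · right
          exact ⟨_, _, by rw [h9, h1, rp_pos]⟩

theorem tw_of_value {ω : List ℕ} (h : Lc ω) (hv : fv (ω.map fun δ => 10 + δ) = 1) : TW ω := by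
  obtain ⟨hch, ⟨a, ω', h1, ha⟩, ω'', b, h2, hb⟩ := h
  have hen : En ω := by
    intro c hc
    rw [h2, List.getLast?_append] at hc
    simp at hc
    omega
  have hr : rr ω = [] := by
    have : rv (ω.map fun δ => 10 + δ) = rv [] := rv_inj.2 (by rw [hv]; rfl)
    exact this
  rcases (clAll ω.length ω le_rfl hch hen).2 ⟨a, ω', h1, ha⟩ with ⟨t, w', h3, h4, h5⟩ | ⟨j, r, h3⟩
  · have h6 : rr w' = [] := by rw [← rr_tw h4 w', ← h3, hr]
    have h7 : w'.length ≤ ω.length := by rw [h3]; simp
    have h8 : List.IsChain Fol w' := by
      rw [h3] at hch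
      exact (List.isChain_append.1 hch).2.1
    have h9 : En w' := by
      rw [h3] at hen
      exact En_append hen
    rcases (clAll ω.length w' h7 h8 h9).1 h5 with h10 | ⟨a', w'', r, h10, h11⟩
    · rw [h3, h10, List.append_nil]
      exact h4
    · rw [h6] at h11
      simp at h11
  · rw [hr] at h3
    simp at h3

end Pool.Agent.NGP.PE
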