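import Pool.Agent.NGP.EDefs
import Pool.Agent.NGP.V1

/-!
# NGP, part E, module E4: values of `wd`

PROOF. (1) `lf 0 = lf 1 = 1`, so `fv (hc n) = 1`. `lv 2 = lv 3 = some (0, true)`,
`lv 4 = lv 5 = some (0, false)`, `lv 6 = lv 7 = some (1, true)`, `lv 8 = lv 9 = some (1, false)`, so
`fv (P1 n n) = σ ^ (n+1) * (σ⁻¹) ^ (n+1) = 1` and `fv (P2 n n) = 1`. For `δ < 8` and every `x`:
`lf (10 + 8 * x + δ) = lf (10 + δ)`, so `fv (row δ D) = lf (10 + δ) ^ D.length`, and
`(dec n (u i)).length = N * (n + 1) =: E > 0`. Hence `fv (wd n u i ω) = Φ (fv (ω.map (10 + ·)))` where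
`Φ : FreeGroup ℕ →* FreeGroup ℕ` is `FreeGroup.lift fun j => FreeGroup.of j ^ E`.
(2) `Φ` is injective for `E > 0`: let `Φ x = 1`, `L = x.toWord` (reduced). The list
`L' = L.flatMap fun a => List.replicate E a` is reduced (adjacent letters with the same generator
have the same sign: `FreeGroup.IsReduced`), and `FreeGroup.mk L' = Φ (FreeGroup.mk L) = 1`, so `L' = []`
(`FreeGroup.toWord_mk`, `reduce` of a reduced word, or the norm) and `L = []`.
-/

namespace Pool.Agent.NGP.PE

private def ex (E : ℕ) (L : List (ℕ × Bool)) : List (ℕ × Bool) :=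
  (L.map fun a => List.replicate E a).flatten

private theorem ex_reduced {E : ℕ} (hE : 0 < E) {L : List (ℕ × Bool)}
    (h : FreeGroup.IsReduced L) : FreeGroup.IsReduced (ex E L) := by
  have h0 : [] ∉ L.map fun a => List.replicate E a := by
    intro hm
    obtain ⟨a, -, ha⟩ := List.mem_map.1 hm
    have := congrArg List.length ha
    simp at this
    omega
  unfold FreeGroup.IsReduced ex
  rw [List.isChain_flatten h0]
  constructor
  · intro l hl
    obtain ⟨a, -, rfl⟩ := List.mem_map.1 hl
    exact List.isChain_replicate_of_rel _ (fun _ => rfl)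
  · rw [List.isChain_map]
    refine List.IsChain.imp ?_ h
    intro a b hab x hx y hy
    have h1 : x = a := by
      have := List.mem_of_mem_getLast? hx
      exact List.eq_of_mem_replicate this
    have h2 : y = b := by
      have := List.mem_of_mem_head? hy
      exact List.eq_of_mem_replicate this
    rw [h1, h2]
    exact hab

private theorem mk_ex (E : ℕ) (L : List (ℕ × Bool)) :
    (FreeGroup.lift fun j : ℕ => (FreeGroup.of j) ^ E) (FreeGroup.mk L) =
      FreeGroup.mk (ex E L) := by
  induction L with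
  | nil => rfl
  | cons a L ih =>
    have h1 : FreeGroup.mk (a :: L) = FreeGroup.mk [a] * FreeGroup.mk L := rfl
    have h2 : FreeGroup.mk (ex E (a :: L)) = FreeGroup.mk (List.replicate E a) *
        FreeGroup.mk (ex E L) := by
      rw [ex, List.map_cons, List.flatten_cons, ← FreeGroup.mul_mk]
      rfl
    have h3 : ∀ E : ℕ, FreeGroup.mk (List.replicate E a) = FreeGroup.mk [a] ^ E := by
      intro E
      induction E with
      | zero => rfl
      | succ E ihE => rw [List.replicate_succ, pow_succ', ← ihE]; rfl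
    rw [h1, map_mul, ih, h2, h3, FreeGroup.lift_mk]
    congr 1
    obtain ⟨j, b⟩ := a
    cases b
    · simp only [List.map_cons, List.map_nil, List.prod_cons, List.prod_nil, mul_one, cond_false]
      rw [← inv_pow]
      rfl
    · simp only [List.map_cons, List.map_nil, List.prod_cons, List.prod_nil, mul_one, cond_true]
      rfl

theorem pow_map_injective {E : ℕ} (hE : 0 < E) :
    Function.Injective (FreeGroup.lift fun j : ℕ => (FreeGroup.of j) ^ E) := by
  rw [injective_iff_map_eq_one]
  intro x hx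
  have h1 : x = FreeGroup.mk x.toWord := FreeGroup.mk_toWord.symm
  rw [h1, mk_ex] at hx
  have h2 := congrArg FreeGroup.toWord hx
  rw [FreeGroup.toWord_mk, (ex_reduced hE FreeGroup.isReduced_toWord).reduce_eq,
    FreeGroup.toWord_one] at h2
  rcases hL : x.toWord with _ | ⟨a, L⟩
  · exact FreeGroup.toWord_eq_nil_iff.1 hL
  · rw [hL] at h2
    have := congrArg List.length h2
    simp [ex] at this
    omega

private theorem fv_const {w : List ℕ} {y : FreeGroup ℕ} (h : ∀ a ∈ w, lf a = y) :
    fv w = y ^ w.length := by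
  induction w with
  | nil => simp [fv_nil]
  | cons a w ih =>
    rw [fv_cons, h a (by simp), ih (fun b hb => h b (by simp [hb])), List.length_cons, pow_succ']

private theorem fv_hc (n : ℕ) : fv (hc n) = 1 := by
  rw [fv_const (y := 1)]
  · simp
  · intro a ha
    simp only [hc, List.mem_cons, List.mem_replicate] at ha
    rcases ha with rfl | ⟨-, rfl⟩ <;> simp [lf, lv]

private theorem fv_P1 (n : ℕ) : fv (P1 n n) = 1 := by
  have h1 : fv (2 :: List.replicate n 3) = FreeGroup.of 0 ^ (n + 1) := by
    rw [fv_const (y := FreeGroup.of 0)]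
    · simp
    · intro a ha
      simp only [List.mem_cons, List.mem_replicate] at ha
      rcases ha with rfl | ⟨-, rfl⟩ <;> simp [lf, lv]
  have h2 : fv (4 :: List.replicate n 5) = (FreeGroup.of 0)⁻¹ ^ (n + 1) := by
    rw [fv_const (y := (FreeGroup.of 0)⁻¹)]
    · simp
    · intro a ha
      simp only [List.mem_cons, List.mem_replicate] at ha
      rcases ha with rfl | ⟨-, rfl⟩ <;> simp [lf, lv]
  rw [P1, fv_append, h1, h2, inv_pow, mul_inv_cancel]

private theorem fv_P2 (n : ℕ) : fv (P2 n n) = 1 := by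
  have h1 : fv (6 :: List.replicate n 7) = FreeGroup.of 1 ^ (n + 1) := by
    rw [fv_const (y := FreeGroup.of 1)]
    · simp
    · intro a ha
      simp only [List.mem_cons, List.mem_replicate] at ha
      rcases ha with rfl | ⟨-, rfl⟩ <;> simp [lf, lv]
  have h2 : fv (8 :: List.replicate n 9) = (FreeGroup.of 1)⁻¹ ^ (n + 1) := by
    rw [fv_const (y := (FreeGroup.of 1)⁻¹)]
    · simp
    · intro a ha
      simp only [List.mem_cons, List.mem_replicate] at ha
      rcases ha with rfl | ⟨-, rfl⟩ <;> simp [lf, lv]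
  rw [P2, fv_append, h1, h2, inv_pow, mul_inv_cancel]

private theorem len_dec (n : ℕ) (u : List ℕ) : (dec n u).length = u.length * (n + 1) := by
  induction u with
  | nil => simp [dec]
  | cons a u ih =>
    have h1 : dec n (a :: u) = (a - 1) :: (List.replicate n 0 ++ dec n u) := rfl
    rw [h1, List.length_cons, List.length_append, ih, List.length_replicate, List.length_cons]
    ring

private theorem lv_row {x δ : ℕ} (h : δ < 8) : lv (10 + 8 * x + δ) = lv (10 + δ) := by
  have h1 : (10 + 8 * x + δ - 10) % 8 = (10 + δ - 10) % 8 := by omega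
  have h2 : (10 + 8 * x + δ - 10) % 2 = (10 + δ - 10) % 2 := by omega
  have h3 : ¬ (10 + 8 * x + δ < 2) := by omega
  have h4 : ¬ (10 + 8 * x + δ < 10) := by omega
  have h5 : ¬ (10 + δ < 2) := by omega
  have h6 : ¬ (10 + δ < 10) := by omega
  simp only [lv, h1, h2, h3, h4, h5, h6, if_false]

private theorem fv_row {δ : ℕ} (h : δ < 8) (D : List ℕ) : fv (row δ D) = lf (10 + δ) ^ D.length := by
  rw [fv_const (y := lf (10 + δ))]
  · simp [row]
  · intro a ha
    simp only [row, List.mem_map] at ha
    obtain ⟨x, -, rfl⟩ := ha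
    simp only [lf, lv_row h]

private theorem lift_lf (E a : ℕ) :
    (FreeGroup.lift fun j : ℕ => (FreeGroup.of j) ^ E) (lf a) = lf a ^ E := by
  unfold lf
  rcases lv a with _ | ⟨i, b⟩
  · simp
  · cases b
    · simp
    · simp

theorem fv_wd {g N n : ℕ} {u : ℕ → List ℕ} (hu : Rows g N u) (i : ℕ) {ω : List ℕ}
    (hω : ∀ δ ∈ ω, δ < 8) :
    fv (wd n u i ω) = (FreeGroup.lift fun j : ℕ => (FreeGroup.of j) ^ (N * (n + 1)))
      (fv (ω.map fun δ => 10 + δ)) := by
  have key : ∀ (ω : List ℕ) (i : ℕ), (∀ δ ∈ ω, δ < 8) →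
      fv (rws n u i ω) = (FreeGroup.lift fun j : ℕ => (FreeGroup.of j) ^ (N * (n + 1)))
        (fv (ω.map fun δ => 10 + δ)) := by
    intro ω
    induction ω with
    | nil => intro i _; simp [rws, fv_nil]
    | cons δ ω ih =>
      intro i h8
      rw [rws, fv_append, fv_append, fv_hc, mul_one, fv_row (h8 δ (by simp)), len_dec, hu.1,
        ih (i + 1) (fun ε hε => h8 ε (by simp [hε])), List.map_cons, fv_cons, map_mul, lift_lf]
  rw [wd, fv_append, fv_append, fv_append, fv_P1, fv_hc, fv_P2, key ω i hω, one_mul, one_mul,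
    mul_one]

theorem value_of_wd {g N n : ℕ} {u : ℕ → List ℕ} (hN : 0 < N) (hu : Rows g N u) (i : ℕ)
    {ω : List ℕ} (hω : ∀ δ ∈ ω, δ < 8) (h : fv (wd n u i ω) = 1) :
    fv (ω.map fun δ => 10 + δ) = 1 := by
  rw [fv_wd hu i hω] at h
  exact pow_map_injective (Nat.mul_pos hN (Nat.succ_pos n)) (h.trans (map_one _).symm)

end Pool.Agent.NGP.PE
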