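import Pool.Agent.NGP.EDefs
import Pool.Agent.H93NG.Dyck

/-!
# NGP, part E, module E5: tree words

PROOF. `(dec n (u i)).length = N * (n + 1)` and its entries are `≤ g` (`l - 1 ≤ g`, and `0`).
`rws n u i (ω ++ ω') = rws n u i ω ++ rws n u (i + ω.length) ω'`.
`tt_of_tw`: induction on `TW`: `[6, 7]` at `i` is `TT.base (dec n (u i)) (dec n (u (i+1)))`;
`x s x̄ 4 t 5` at `i` is `TT.nd X (dec n (u i)) (dec n (u i₁)) (dec n (u (i₁+1))) (dec n (u i₂)) t₁ t₂` with
`i₁ = i + 1 + s.length`, `i₂ = i₁ + 2 + t.length`, `t₁` for `s` at `i + 1`, `t₂` for `t` at `i₁ + 2`.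
`TW.lc`: induction; a tree word starts with `0, 2, 6` and ends with `5` or `7`.
`pj_dyck`: by induction `Run (pj ω) s s` for all stacks `s` (`run_push_iff`, `run_pop_iff`,
`run_append` of `H93NG/Dyck.lean`).
`exists_tw`: strong induction on the length of `z`. `z = []`: `[6, 7]`. `z ≠ []`, `Run z [] []`: `z`
starts with a push `(a, true)`, `z = (a, true) :: z'` with `Run z' [a] []`; at the first time the stack
is `[]`: `z' = z₁ ++ (a, false) :: z₂` with `Run z₁ [] []`, `Run z₂ [] []` (lemma: if `Run z' (s ++ [a]) []`
then `z' = z₁ ++ (a, false) :: z₂` with `Run z₁ s []` and `Run z₂ [] []`; induction on `z'`).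
With `ω₁`, `ω₂` for `z₁`, `z₂` take `TW.nd a`.
-/

namespace Pool.Agent.NGP.PE

open Pool.Agent.H93NG

theorem length_dec {g N n : ℕ} {u : ℕ → List ℕ} (hu : Rows g N u) (i : ℕ) :
    (dec n (u i)).length = N * (n + 1) := by
  have h : ∀ l : List ℕ, (dec n l).length = l.length * (n + 1) := by
    intro l
    induction l with
    | nil => simp [dec]
    | cons a l ih =>
      have e : dec n (a :: l) = ((a - 1) :: List.replicate n 0) ++ dec n l := by
        simp [dec]
      rw [e, List.length_append, ih]
      simp only [List.length_cons, List.length_replicate]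
      ring
  rw [h, hu.1 i]

theorem dec_le {g N n : ℕ} {u : ℕ → List ℕ} (hu : Rows g N u) (i : ℕ) :
    ∀ x ∈ dec n (u i), x ≤ g := by
  intro x hx
  unfold dec at hx
  rw [List.mem_flatMap] at hx
  obtain ⟨l, hl, hx⟩ := hx
  have h1 := hu.2 i l hl
  rw [List.mem_cons] at hx
  rcases hx with hx | hx
  · omega
  · rw [List.mem_replicate] at hx
    omega

private theorem rws_append {n : ℕ} {u : ℕ → List ℕ} (ω ω' : List ℕ) : ∀ i,
    rws n u i (ω ++ ω') = rws n u i ω ++ rws n u (i + ω.length) ω' := by
  induction ω with
  | nil => intro i; simp [rws]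
  | cons a ω ih =>
    intro i
    rw [List.cons_append, rws, rws, ih, List.length_cons, Nat.add_assoc i 1, Nat.add_comm 1]
    simp only [List.append_assoc]

theorem tt_of_tw {g N n k : ℕ} {u : ℕ → List ℕ} (hu : Rows g N u) (hk : k ≤ N * (n + 1))
    {ω : List ℕ} (h : TW ω) : ∀ i, ∃ t : TT, t.ok g k ∧ t.w n = rws n u i ω := by
  induction h with
  | base =>
    intro i
    refine ⟨TT.base (dec n (u i)) (dec n (u (i + 1))), ?_, ?_⟩
    · refine ⟨by rw [length_dec hu]; exact hk, by rw [length_dec hu, length_dec hu], ?_⟩
      intro x hx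
      rw [List.mem_append] at hx
      rcases hx with hx | hx
      · exact dec_le hu _ x hx
      · exact dec_le hu _ x hx
    · simp [TT.w, rws]
  | @nd X s t _ _ ih1 ih2 =>
    intro i
    obtain ⟨t₁, ht1, hw1⟩ := ih1 (i + 1)
    obtain ⟨t₂, ht2, hw2⟩ := ih2 (i + 1 + s.length + 1 + 1)
    refine ⟨TT.nd X (dec n (u i)) (dec n (u (i + 1 + s.length)))
      (dec n (u (i + 1 + s.length + 1))) (dec n (u (i + 1 + s.length + 1 + 1 + t.length))) t₁ t₂,
      ?_, ?_⟩
    · refine ⟨by rw [length_dec hu]; exact hk, by rw [length_dec hu, length_dec hu],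
        by rw [length_dec hu]; exact hk, by rw [length_dec hu, length_dec hu], ?_, ht1, ht2⟩
      intro x hx
      simp only [List.mem_append] at hx
      rcases hx with ((hx | hx) | hx) | hx
      · exact dec_le hu _ x hx
      · exact dec_le hu _ x hx
      · exact dec_le hu _ x hx
      · exact dec_le hu _ x hx
    · rw [TT.w, hw1, hw2, rws, rws_append, rws, rws, rws_append]
      simp only [rws, List.append_assoc, List.append_nil]

theorem TW.lt {ω : List ℕ} (h : TW ω) : ∀ δ ∈ ω, δ < 8 := by
  induction h with
  | base =>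
    intro δ hδ
    simp only [List.mem_cons, List.not_mem_nil, or_false] at hδ
    omega
  | @nd X s t _ _ ih1 ih2 =>
    intro δ hδ
    simp only [List.mem_cons, List.mem_append, List.not_mem_nil, or_false] at hδ
    rcases hδ with hδ | hδ | hδ | hδ | hδ | hδ
    · cases X <;> simp at hδ <;> omega
    · exact ih1 δ hδ
    · cases X <;> simp at hδ <;> omega
    · omega
    · exact ih2 δ hδ
    · omega

theorem TW.lc {ω : List ℕ} (h : TW ω) : Lc ω := by
  induction h with
  | base =>
    refine ⟨?_, ⟨6, [7], rfl, by simp⟩, ⟨[6], 7, rfl, by simp⟩⟩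
    simp [Fol]
  | @nd X s t _ _ ih1 ih2 =>
    obtain ⟨hs, ⟨a1, s1, rfl, ha1⟩, ⟨s2, a2, hs2, ha2⟩⟩ := ih1
    obtain ⟨ht, ⟨b1, t1, rfl, hb1⟩, ⟨t2, b2, ht2, hb2⟩⟩ := ih2
    refine ⟨?_, ⟨_, _, rfl, ?_⟩, ⟨(if X then 2 else 0) :: (a1 :: s1 ++ (if X then 3 else 1) :: 4 ::
      (b1 :: t1)), 5, by simp, Or.inl rfl⟩⟩
    · rw [List.isChain_cons]
      refine ⟨?_, ?_⟩
      · intro y hy
        simp only [List.cons_append, List.head?_cons, Option.mem_def, Option.some.injEq] at hy
        subst hy
        left
        cases X <;> simp <;> omega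
      · rw [List.isChain_append]
        refine ⟨hs, ?_, ?_⟩
        · rw [List.isChain_cons]
          refine ⟨?_, ?_⟩
          · intro y hy
            simp only [List.head?_cons, Option.mem_def, Option.some.injEq] at hy
            subst hy
            right; right; left
            cases X <;> simp
          · rw [List.isChain_cons]
            refine ⟨?_, ?_⟩
            · intro y hy
              simp only [List.cons_append, List.head?_cons, Option.mem_def,
                Option.some.injEq] at hy
              subst hy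
              left
              omega
            · rw [List.isChain_append]
              refine ⟨ht, by simp, ?_⟩
              intro x hx y hy
              rw [ht2] at hx
              simp only [List.getLast?_append, List.getLast?_singleton, Option.mem_def,
                Option.some_or, Option.some.injEq, List.head?_cons] at hx hy
              subst hx hy
              right; right; right
              omega
        · intro x hx y hy
          rw [hs2] at hx
          simp only [List.getLast?_append, List.getLast?_singleton, Option.mem_def,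
            Option.some_or, Option.some.injEq, List.head?_cons] at hx hy
          subst hx hy
          right; right; right
          refine ⟨by omega, ?_⟩
          cases X <;> simp
    · cases X <;> simp

private theorem pj_append (a b : List ℕ) : pj (a ++ b) = pj a ++ pj b := by
  simp [pj]

private theorem pj_nd (X : Bool) (s t : List ℕ) :
    pj ((if X then 2 else 0) :: (s ++ (if X then 3 else 1) :: 4 :: (t ++ [5]))) =
      (X, true) :: (pj s ++ (X, false) :: pj t) := by
  cases X <;> simp [pj]

private theorem pj_run {ω : List ℕ} (h : TW ω) : ∀ σ, Run (pj ω) σ σ := by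
  induction h with
  | base => intro σ; exact Run.nil σ
  | @nd X s t _ _ ih1 ih2 =>
    intro σ
    rw [pj_nd, run_push_iff, run_append]
    exact ⟨X :: σ, ih1 _, run_pop_iff.2 ⟨σ, rfl, ih2 σ⟩⟩

theorem pj_dyck {ω : List ℕ} (h : TW ω) : pj ω ∈ Dyck2 := pj_run h []

private theorem run_split {a : Bool} : ∀ (z : List (Bool × Bool)) (s : List Bool),
    Run z (s ++ [a]) [] → ∃ z₁ z₂, z = z₁ ++ (a, false) :: z₂ ∧ Run z₁ s [] ∧ Run z₂ [] [] := by
  intro z
  induction z with
  | nil =>
    intro s h
    rw [run_nil_iff] at h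
    simp at h
  | cons c z ih =>
    intro s h
    obtain ⟨b, d⟩ := c
    cases d with
    | true =>
      rw [run_push_iff] at h
      obtain ⟨z₁, z₂, rfl, h1, h2⟩ := ih (b :: s) h
      exact ⟨(b, true) :: z₁, z₂, rfl, run_push_iff.2 h1, h2⟩
    | false =>
      rw [run_pop_iff] at h
      obtain ⟨s', hs', h'⟩ := h
      cases s with
      | nil =>
        simp only [List.nil_append, List.cons.injEq] at hs'
        obtain ⟨rfl, rfl⟩ := hs'
        exact ⟨[], z, rfl, Run.nil _, h'⟩
      | cons c s0 =>
        simp only [List.cons_append, List.cons.injEq] at hs'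
        obtain ⟨rfl, rfl⟩ := hs'
        obtain ⟨z₁, z₂, rfl, h1, h2⟩ := ih s0 h'
        exact ⟨(c, false) :: z₁, z₂, rfl, run_pop_iff.2 ⟨s0, rfl, h1⟩, h2⟩

theorem exists_tw {z : List (Bool × Bool)} (h : z ∈ Dyck2) : ∃ ω, TW ω ∧ pj ω = z := by
  induction hn : z.length using Nat.strong_induction_on generalizing z with
  | _ n ih =>
    cases z with
    | nil => exact ⟨[6, 7], TW.base, by simp [pj]⟩
    | cons c z =>
      obtain ⟨a, d⟩ := c
      have h' : Run ((a, d) :: z) [] [] := h
      cases d with
      | false =>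
        rw [run_pop_iff] at h'
        obtain ⟨s', hs', _⟩ := h'
        simp at hs'
      | true =>
        rw [run_push_iff] at h'
        obtain ⟨z₁, z₂, rfl, h1, h2⟩ := run_split z [] h'
        simp only [List.length_cons, List.length_append] at hn
        obtain ⟨ω₁, t1, e1⟩ := ih z₁.length (by omega) (z := z₁) h1 rfl
        obtain ⟨ω₂, t2, e2⟩ := ih z₂.length (by omega) (z := z₂) h2 rfl
        refine ⟨_, TW.nd a t1 t2, ?_⟩
        rw [pj_nd, e1, e2]

end Pool.Agent.NGP.PE
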