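import Pool.Agent.NGP.EDefs
import Pool.Agent.H93NG.Reg

/-!
# NGP, part E, module E6: coded local words

PROOF. `reg_RC`: `w ∈ RC r` iff `w` has no factor `[a, b]` with
`¬ (Fol a.2 b.2 ∧ b.1.val = (a.1.val + 1) % r)` (complement of `isRegular_factor` with `n = 2`),
`w.take 1 = [a]` with `a.2 ∈ {0, 2, 6}`, `a.1.val = 0` (`isRegular_take`), and `w.getLast? = some a` with
`a.2 ∈ {5, 7}` (`isRegular_last`); intersections by `Language.IsRegular.inf` (or `⊓`), complement
`Language.IsRegular.compl`.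
`flat_RC`: for all `i` and every chain `w` (indices increasing by one modulo `r`) which is empty or
starts with index `i % r`: `w.flatMap (cd n u) = rws n u i (w.map ..)`, by induction on `w`
(`u (i % r) = u i` by periodicity, `(i % r + 1) % r = (i + 1) % r`).
`exists_RC`: define `mk i (δ :: ω) = (i % r, δ) :: mk (i + 1) ω`.
`cd_lt`, `P_lt`: letters `10 + 8 * x + δ` with `x ≤ g`, `δ < 8`, and letters `< 10`.
-/

namespace Pool.Agent.NGP.PE

open Pool.Agent.H93NG

private def StepR {r : ℕ} (a b : Fin r × Fin 8) : Prop :=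
  Fol a.2.val b.2.val ∧ b.1.val = (a.1.val + 1) % r

private theorem chain_reg (r : ℕ) :
    Language.IsRegular ({w | List.IsChain StepR w} : Language (Fin r × Fin 8)) := by
  have h := isRegular_factor (Z := Fin r × Fin 8)
    {f | ∃ a b, f = [a, b] ∧ ¬ StepR a b} 2 (by rintro f ⟨a, b, rfl, -⟩; simp)
  have h2 := h.compl
  convert h2 using 1
  ext w
  show List.IsChain StepR w ↔ ¬ ∃ f ∈ {f | ∃ a b, f = [a, b] ∧ ¬ StepR a b}, f <:+: w
  constructor
  · rintro hc ⟨f, ⟨a, b, rfl, hab⟩, hf⟩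
    obtain ⟨s, t, hst⟩ := hf
    apply hab
    rw [List.isChain_iff_forall_rel_of_append_cons_cons] at hc
    exact hc (l₁ := s) (l₂ := t) (by rw [← hst]; simp)
  · intro hn
    rw [List.isChain_iff_forall_rel_of_append_cons_cons]
    intro a b l₁ l₂ hl
    by_contra hab
    apply hn
    refine ⟨[a, b], ⟨a, b, rfl, hab⟩, l₁, l₂, ?_⟩
    rw [hl]
    simp

theorem reg_RC (r : ℕ) : (RC r).IsRegular := by
  have h1 := chain_reg r
  have h2 := isRegular_take (Z := Fin r × Fin 8) 1
    {f | ∃ a : Fin r × Fin 8, f = [a] ∧ (a.2.val = 0 ∨ a.2.val = 2 ∨ a.2.val = 6) ∧ a.1.val = 0}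
  have h3 := isRegular_last (Z := Fin r × Fin 8)
    {o | ∃ a : Fin r × Fin 8, o = some a ∧ (a.2.val = 5 ∨ a.2.val = 7)}
  have h := (h1.inf h2).inf h3
  convert h using 1
  ext w
  constructor
  · rintro ⟨⟨hF, ⟨a, ω', hw, ha⟩, ⟨ω'', b, hw', hb⟩⟩, ⟨c, w', rfl, hc⟩, hI⟩
    refine ⟨⟨?_, ?_⟩, ?_⟩
    · show List.IsChain StepR (c :: w')
      rw [List.isChain_map] at hF
      exact List.isChain_iff_forall_rel_of_append_cons_cons.2 (fun a b l₁ l₂ hl =>
        ⟨List.isChain_iff_forall_rel_of_append_cons_cons.1 hF hl,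
          List.isChain_iff_forall_rel_of_append_cons_cons.1 hI hl⟩)
    · refine ⟨c, by simp, ?_, hc⟩
      simp only [List.map_cons, List.cons.injEq] at hw
      rw [← hw.1] at ha
      exact ha
    · obtain ⟨u, d, hd⟩ : ∃ u d, c :: w' = u ++ [d] :=
        ⟨(c :: w').dropLast, (c :: w').getLast (by simp), (List.dropLast_append_getLast _).symm⟩
      rw [hd] at hw' ⊢
      refine ⟨d, by simp, ?_⟩
      rw [List.map_append] at hw'
      have := List.append_inj_right' hw' (by simp)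
      simp only [List.map_cons, List.map_nil, List.cons.injEq, and_true] at this
      rw [← this] at hb
      exact hb
  · rintro ⟨⟨hc, hh⟩, hl⟩
    obtain ⟨a, ha, ha2, ha1⟩ := hh
    obtain ⟨b, hb, hb2⟩ := hl
    obtain ⟨w', rfl⟩ : ∃ w', w = a :: w' := by
      cases w with
      | nil => simp at ha
      | cons x w' =>
        simp at ha
        exact ⟨w', by rw [ha]⟩
    have hc' := List.isChain_iff_forall_rel_of_append_cons_cons.1 hc
    refine ⟨⟨?_, ⟨_, _, rfl, ha2⟩, ?_⟩, ⟨a, w', rfl, ha1⟩, ?_⟩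
    · rw [List.isChain_map]
      exact List.isChain_iff_forall_rel_of_append_cons_cons.2 (fun a b l₁ l₂ hl => (hc' hl).1)
    · obtain ⟨u, hu⟩ : ∃ u, a :: w' = u ++ [b] := by
        rw [List.getLast?_eq_some_iff] at hb
        exact hb
      rw [hu]
      exact ⟨u.map (fun a => a.2.val), b.2.val, by simp, hb2⟩
    · exact List.isChain_iff_forall_rel_of_append_cons_cons.2 (fun a b l₁ l₂ hl => (hc' hl).2)

private theorem flat_aux {n r : ℕ} {u : ℕ → List ℕ} (hper : ∀ i, u (i + r) = u i) :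
    ∀ (w : List (Fin r × Fin 8)) (i : ℕ),
      List.IsChain (fun a b : Fin r × Fin 8 => b.1.val = (a.1.val + 1) % r) w →
      (∀ a w', w = a :: w' → a.1.val = i % r) →
      w.flatMap (cd n u) = rws n u i (w.map fun a => a.2.val) := by
  have hmod : ∀ i, u (i % r) = u i := by
    intro i
    have h1 : ∀ k j, u (j + r * k) = u j := by
      intro k
      induction k with
      | zero => intro j; simp
      | succ k ih =>
        intro j
        rw [Nat.mul_succ, ← Nat.add_assoc, hper, ih]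
    conv_rhs => rw [← Nat.mod_add_div i r]
    rw [h1]
  intro w
  induction w with
  | nil => intro i _ _; simp [rws]
  | cons a w ih =>
    intro i hc hi
    have ha : a.1.val = i % r := hi a w rfl
    simp only [List.flatMap_cons, List.map_cons, rws]
    rw [ih (i + 1) hc.tail]
    · unfold cd
      rw [ha, hmod]
    · intro b w' hw
      rw [hw] at hc
      have h1 : b.1.val = (a.1.val + 1) % r := by
        rw [List.isChain_cons_cons] at hc
        exact hc.1
      rw [h1, ha, Nat.mod_add_mod]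

theorem flat_RC {n r : ℕ} {u : ℕ → List ℕ} (hper : ∀ i, u (i + r) = u i)
    {w : List (Fin r × Fin 8)} (hw : w ∈ RC r) :
    w.flatMap (cd n u) = rws n u 0 (w.map fun a => a.2.val) := by
  obtain ⟨_, ⟨a, w', rfl, ha⟩, hc⟩ := hw
  apply flat_aux hper _ _ hc
  intro b w'' hb
  rw [List.cons.injEq] at hb
  rw [← hb.1, ha]
  simp

private def mk {r : ℕ} (hr : 0 < r) : ℕ → List ℕ → List (Fin r × Fin 8)
  | _, [] => []
  | i, δ :: ω => (⟨i % r, Nat.mod_lt _ hr⟩, ⟨δ % 8, Nat.mod_lt _ (by norm_num)⟩) :: mk hr (i + 1) ω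

private theorem mk_map {r : ℕ} (hr : 0 < r) : ∀ (ω : List ℕ) (i : ℕ), (∀ δ ∈ ω, δ < 8) →
    (mk hr i ω).map (fun a => a.2.val) = ω := by
  intro ω
  induction ω with
  | nil => intro i _; rfl
  | cons δ ω ih =>
    intro i h
    simp only [mk, List.map_cons]
    rw [ih (i + 1) (fun x hx => h x (by simp [hx])), Nat.mod_eq_of_lt (h δ (by simp))]

private theorem mk_chain {r : ℕ} (hr : 0 < r) : ∀ (ω : List ℕ) (i : ℕ),
    List.IsChain (fun a b : Fin r × Fin 8 => b.1.val = (a.1.val + 1) % r) (mk hr i ω) := by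
  intro ω
  induction ω with
  | nil => intro i; exact List.IsChain.nil
  | cons δ ω ih =>
    intro i
    cases ω with
    | nil => exact List.IsChain.singleton _
    | cons δ' ω =>
      have := ih (i + 1)
      simp only [mk] at this ⊢
      rw [List.isChain_cons_cons]
      exact ⟨by simp, this⟩

theorem exists_RC {r : ℕ} (hr : 0 < r) {ω : List ℕ} (h : Lc ω) (h8 : ∀ δ ∈ ω, δ < 8) :
    ∃ w ∈ RC r, w.map (fun a => a.2.val) = ω := by
  refine ⟨mk hr 0 ω, ⟨?_, ?_, mk_chain hr ω 0⟩, mk_map hr ω 0 h8⟩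
  · rw [mk_map hr ω 0 h8]
    exact h
  · obtain ⟨_, ⟨a, ω', rfl, _⟩, _⟩ := h
    exact ⟨_, _, rfl, by simp⟩

theorem cd_lt {g N n r : ℕ} {u : ℕ → List ℕ} (hu : Rows g N u) (a : Fin r × Fin 8) :
    ∀ x ∈ cd n u a, x < 10 + 8 * (g + 1) := by
  intro x hx
  unfold cd row dec hc at hx
  simp only [List.mem_append, List.mem_map, List.mem_flatMap, List.mem_cons, List.mem_replicate] at hx
  rcases hx with ⟨y, ⟨l, hl, hy⟩, rfl⟩ | hx
  · have h1 := hu.2 _ l hl
    have h2 := a.2.isLt
    rcases hy with rfl | ⟨_, rfl⟩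
    · omega
    · omega
  · rcases hx with rfl | ⟨_, rfl⟩ <;> omega

theorem P_lt (g n : ℕ) : ∀ x ∈ P1 n n ++ hc n ++ P2 n n, x < 10 + 8 * (g + 1) := by
  intro x hx
  unfold P1 P2 hc at hx
  simp only [List.mem_append, List.mem_cons, List.mem_replicate] at hx
  rcases hx with (((rfl | ⟨_, rfl⟩) | rfl | ⟨_, rfl⟩) | rfl | ⟨_, rfl⟩) |
    (rfl | ⟨_, rfl⟩) | rfl | ⟨_, rfl⟩ <;> omega

end Pool.Agent.NGP.PE
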