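import Pool.Agent.NGP.Defs

/-!
# NGP, part E: definitions (lead of part E: helper63)

PLAN OF PART E. `Cyc g q` gives rows `u i` of length `N ≥ k`, with period `r`, and
`adv ... = dead` for consecutive rows. `wd n u i ω` is the word with end blocks of content `n` and
one row for each row type `δ` of the list `ω`: the row types are `ω`, the labels of the rows are
`u i, u (i+1), ...`, all contents are `n`.

* `E1`: cells of `wd`.
* `E2`: `wd` is special and has no violation.
* `E3`: a local word (`Lc`) of value `1` is a tree word (`TW`).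
* `E4`: value `1` of `wd` gives value `1` of the word of row types.
* `E5`: tree words, their trees `TT` and their projections to `Dyck2`.
* `E6`: the regular language `RC` of coded local words.
* `E7`: coding of local words.
* `EMain`: assembly.
-/

namespace Pool.Agent.NGP.PE

/-- Decorations of the row with labels `u` and contents `n`. -/
def dec (n : ℕ) (u : List ℕ) : List ℕ := u.flatMap fun l => (l - 1) :: List.replicate n 0

/-- Rows of types `ω` with the labels `u i, u (i+1), ...`, each followed by a `#`-cell. -/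
def rws (n : ℕ) (u : ℕ → List ℕ) : ℕ → List ℕ → List ℕ
  | _, [] => []
  | i, δ :: ω => row δ (dec n (u i)) ++ hc n ++ rws n u (i + 1) ω

/-- The labels of `rws`. -/
def lw (u : ℕ → List ℕ) : ℕ → ℕ → List ℕ
  | _, 0 => []
  | i, m + 1 => u i ++ 0 :: lw u (i + 1) m

/-- The word with the rows of types `ω`. -/
def wd (n : ℕ) (u : ℕ → List ℕ) (i : ℕ) (ω : List ℕ) : List ℕ :=
  P1 n n ++ hc n ++ rws n u i ω ++ P2 n n

/-- Rows of length `N` of tile labels. -/
def Rows (g N : ℕ) (u : ℕ → List ℕ) : Prop :=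
  (∀ i, (u i).length = N) ∧ ∀ i, ∀ a ∈ u i, 2 ≤ a ∧ a < g + 2

/-- Row types of tree words: `T → c c̄ | x T x̄ y T ȳ`. -/
inductive TW : List ℕ → Prop
  | base : TW [6, 7]
  | nd (X : Bool) {s t : List ℕ} : TW s → TW t →
      TW ((if X then 2 else 0) :: (s ++ (if X then 3 else 1) :: 4 :: (t ++ [5])))

/-- Allowed successors. -/
def Fol (a b : ℕ) : Prop :=
  ((a = 0 ∨ a = 2 ∨ a = 4) ∧ (b = 0 ∨ b = 2 ∨ b = 6)) ∨ (a = 6 ∧ b = 7) ∨
  ((a = 1 ∨ a = 3) ∧ b = 4) ∨ ((a = 5 ∨ a = 7) ∧ (b = 1 ∨ b = 3 ∨ b = 5))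

/-- Local words. -/
def Lc (ω : List ℕ) : Prop :=
  List.IsChain Fol ω ∧ (∃ a ω', ω = a :: ω' ∧ (a = 0 ∨ a = 2 ∨ a = 6)) ∧
  ∃ ω' a, ω = ω' ++ [a] ∧ (a = 5 ∨ a = 7)

/-- Projection of row types to brackets. -/
def pj (ω : List ℕ) : List (Bool × Bool) :=
  ω.flatMap fun δ => if δ = 0 then [(false, true)] else if δ = 1 then [(false, false)]
    else if δ = 2 then [(true, true)] else if δ = 3 then [(true, false)] else []

/-- Coded local words: indices modulo `r`, row types. -/
def RC (r : ℕ) : Language (Fin r × Fin 8) :=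
  {w | Lc (w.map fun a => a.2.val) ∧ (∃ a w', w = a :: w' ∧ a.1.val = 0) ∧
    List.IsChain (fun a b : Fin r × Fin 8 => b.1.val = (a.1.val + 1) % r) w}

/-- The row of a code letter. -/
def cd (n : ℕ) {r : ℕ} (u : ℕ → List ℕ) (a : Fin r × Fin 8) : List ℕ :=
  row a.2.val (dec n (u a.1.val)) ++ hc n

end Pool.Agent.NGP.PE
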