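import Pool.Agent.NGP.KInf

/-!
# NGP, part K: soundness of tables (KT1)
-/

namespace Pool.Agent.NGP

theorem k_entryS {q : ℕ → ℕ → ℕ → ℕ → Bool} {G : EG} {n : ℕ} {tb : List Ent}
    (h : Kcert q G n tb) {σ : Tr} (hσ : σ.ok G) : ∀ {s s' : ℕ} {ι : Inf}, s < 2 * n + 3 →
    drun n s σ.y = some s' → inf q σ = some ι →
    (σ.ty, s, s', ι, none) ∈ tb ∨ (σ.ty, s, s', ι, some (rv σ.y)) ∈ tb := by
  induction σ with
  | ep t =>
    intro s s' ι hs hd hi
    simp only [Tr.y, drun, Option.some.injEq] at hd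
    simp only [inf, Option.some.injEq] at hi
    subst hd hi
    exact h.1 t hσ.1 hσ.2 s hs
  | lf t a =>
    intro s s' ι hs hd hi
    have hd' : dst n s a = some s' := by
      simp only [Tr.y, drun] at hd
      rcases h1 : dst n s a with _ | s''
      · rw [h1] at hd
        simp at hd
      · rw [h1, Option.bind_some] at hd
        exact hd
    simp only [inf, Option.some.injEq] at hi
    subst hi
    exact h.2.1 t hσ.1 a hσ.2.1 hσ.2.2 s hs s' (dst_lt hs hd') hd'
  | nd t l r ihl ihr =>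
    intro s s' ι hs hd hi
    simp only [Tr.y] at hd
    rw [drun_append] at hd
    rcases h1 : drun n s l.y with _ | s''
    · rw [h1] at hd
      simp at hd
    rw [h1, Option.bind_some] at hd
    have hs'' := drun_lt hs h1
    simp only [inf] at hi
    rcases hl : inf q l with _ | ι₁
    · rw [hl, comb_none_leftS] at hi
      simp at hi
    rcases hr : inf q r with _ | ι₂
    · rw [hr, comb_none_rightS] at hi
      simp at hi
    rw [hl, hr] at hi
    obtain ⟨h2, h3, h4, h5⟩ := hσ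
    have key : ∀ v₁ v₂, (l.ty, s, s'', ι₁, v₁) ∈ tb → (r.ty, s'', s', ι₂, v₂) ∈ tb →
        (v₁ = none ∨ v₁ = some (rv l.y)) → (v₂ = none ∨ v₂ = some (rv r.y)) →
        (t, s, s', ι, none) ∈ tb ∨ (t, s, s', ι, some (rv (l.y ++ r.y))) ∈ tb := by
      intro v₁ v₂ e₁ e₂ f₁ f₂
      rcases h.2.2.1 t h2 _ e₁ _ e₂ h3 rfl ι hi with h6 | ⟨g₁, g₂, h6, h7, h8⟩
      · exact Or.inl h6
      · right
        dsimp only at h6 h7 h8
        rcases f₁ with f₁ | f₁ <;> rcases f₂ with f₂ | f₂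
        · rw [f₁] at h6; simp at h6
        · rw [f₁] at h6; simp at h6
        · rw [f₂] at h7; simp at h7
        · rw [f₁, Option.some.injEq] at h6
          rw [f₂, Option.some.injEq] at h7
          rw [← h6, ← h7, rmul_eq] at h8
          exact h8
    rcases ihl h4 hs h1 hl with e₁ | e₁ <;> rcases ihr h5 hs'' hd hr with e₂ | e₂
    · exact key _ _ e₁ e₂ (Or.inl rfl) (Or.inl rfl)
    · exact key _ _ e₁ e₂ (Or.inl rfl) (Or.inr rfl)
    · exact key _ _ e₁ e₂ (Or.inr rfl) (Or.inl rfl)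
    · exact key _ _ e₁ e₂ (Or.inr rfl) (Or.inr rfl)

theorem k_sound {q : ℕ → ℕ → ℕ → ℕ → Bool} {G : EG} {n : ℕ} {tb : List Ent}
    (h : Kcert q G n tb) {w : List ℕ} (hw : G.L w) (hs : Sp n w)
    (h0 : ∃ a w', w = a :: w' ∧ lh a ≠ none) (hv : ¬ Vio q (labs w)) : fv w = 1 := by
  obtain ⟨τ, h1, h2, rfl⟩ := hw
  rcases hi : inf q τ with _ | ι
  · exact absurd ((inf_correct τ).1 hi) hv
  · obtain ⟨s, h3, h4⟩ := drun_of_sp hs h0
    have h5 : rv τ.y = rv [] → fv τ.y = 1 := by
      intro h5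
      rw [rv_inj] at h5
      rw [h5]
      rfl
    apply h5
    rcases k_entryS h h1 (by omega) h3 hi with e | e
    · have := h.2.2.2 _ e h2 rfl h4
      simp at this
    · have := h.2.2.2 _ e h2 rfl h4
      simp only [Option.some.injEq] at this
      rw [this]
      rfl

end Pool.Agent.NGP
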