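import Pool.Agent.H93NG.Ops
import Pool.Agent.H93NG.Trans
import Pool.Agent.NGP.KSound
import Pool.Agent.NGP.DMain
import Pool.Agent.NGP.E2
import Pool.Agent.NGP.E3
import Pool.Agent.NGP.E4
import Pool.Agent.NGP.E5
import Pool.Agent.NGP.E6

/-!
# NGP, part E: cyclic systems with certificates give generators (lead: helper63)

See section E of `PROOF.md` and `EDefs.lean`.
-/

namespace Pool.Agent.NGP

open Pool.Agent.H93NG PE

/-- Letters as elements of `Fin A`. -/
def PE.toF (A : ℕ) (hA : 0 < A) (a : ℕ) : Fin A := ⟨a % A, Nat.mod_lt _ hA⟩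

theorem PE.map_toF {A : ℕ} (hA : 0 < A) {w : List ℕ} (h : ∀ a ∈ w, a < A) :
    (w.map (toF A hA)).map Fin.val = w := by
  rw [List.map_map]
  conv_rhs => rw [← List.map_id w]
  apply List.map_congr_left
  intro a ha
  exact Nat.mod_eq_of_lt (h a ha)

theorem e_main {g : ℕ} {q : ℕ → ℕ → ℕ → ℕ → Bool} {G : EG} {n : ℕ} {tb : List Ent}
    {c k b : ℕ} {F : List (ℕ × List ℕ)} {ts ws : List (List ℕ)}
    (hK : Kcert q G n tb) (hD : Dcert g G n c k b F ts ws) (hc : Cyc g q) :
    Dom ({v | G.L (v.map Fin.val)} : Language (Fin (10 + 8 * (g + 1)))) Dyck2 := by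
  obtain ⟨N, r, u, hN, hr, hN0, hper, hlen, hlab, hadv⟩ := hc k
  have hu : Rows g N u := ⟨hlen, hlab⟩
  have hA : 0 < 10 + 8 * (g + 1) := by omega
  set A := 10 + 8 * (g + 1) with hAdef
  have hk : k ≤ N * (n + 1) := le_trans hN (Nat.le_mul_of_pos_right N (Nat.succ_pos n))
  -- the words
  have hP : ∀ x ∈ P1 n n ++ NGP.hc n, x < A := fun x hx =>
    P_lt g n x (List.mem_append_left _ hx)
  have hQ : ∀ x ∈ P2 n n, x < A := fun x hx => P_lt g n x (List.mem_append_right _ hx)
  have hval : ∀ w : List (Fin r × Fin 8), w ∈ RC r →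
      ((P1 n n ++ NGP.hc n).map (toF A hA) ++ w.flatMap (fun a => (cd n u a).map (toF A hA)) ++
        (P2 n n).map (toF A hA)).map Fin.val = wd n u 0 (w.map fun a => a.2.val) := by
    intro w hw
    rw [wd, ← flat_RC (n := n) hper hw, List.map_append, List.map_append, map_toF hA hP,
      map_toF hA hQ]
    congr 2
    rw [List.map_flatMap]
    apply List.flatMap_congr
    intro a _
    exact map_toF hA (cd_lt hu a)
  have h1 := dom_quot ({v | G.L (v.map Fin.val)} : Language (Fin A))
    ((P1 n n ++ NGP.hc n).map (toF A hA)) ((P2 n n).map (toF A hA))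
    (fun a : Fin r × Fin 8 => (cd n u a).map (toF A hA)) (fun a => [a])
  have h2 := dom_inter_regular h1 (reg_RC r)
  refine Dom.trans h2 ?_
  refine ⟨Fin r × Fin 8, inferInstance, fun a => [a], fun a => pj [a.2.val], Set.univ, ?_, ?_⟩
  · obtain ⟨σ, hσ, D, hD⟩ := (isRegular_factor (Z := Fin r × Fin 8) {[]} 0 (by
      intro f hf; rw [Set.mem_singleton_iff.1 hf]; rfl))
    refine ⟨σ, hσ, D, hD.trans ?_⟩
    ext z
    exact ⟨fun _ => trivial, fun _ => ⟨[], rfl, List.nil_infix⟩⟩
  · intro z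
    have hid : ∀ w : List (Fin r × Fin 8), w.flatMap (fun a => [a]) = w := by
      intro w
      induction w with
      | nil => rfl
      | cons a w ih => rw [List.flatMap_cons, ih]; rfl
    have hpj : ∀ w : List (Fin r × Fin 8), w.flatMap (fun a => pj [a.2.val]) =
        pj (w.map fun a => a.2.val) := by
      intro w
      induction w with
      | nil => rfl
      | cons a w ih =>
        rw [List.flatMap_cons, ih, List.map_cons]
        simp [pj]
    have h8 : ∀ w : List (Fin r × Fin 8), ∀ δ ∈ w.map (fun a => a.2.val), δ < 8 := by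
      intro w δ hδ
      obtain ⟨a, -, rfl⟩ := List.mem_map.1 hδ
      exact a.2.isLt
    constructor
    · intro hz
      obtain ⟨ω, hω, rfl⟩ := exists_tw hz
      obtain ⟨w, hw, hwω⟩ := exists_RC hr hω.lc hω.lt
      refine ⟨w, trivial, ?_, ?_⟩
      · rw [hid]
        refine ⟨⟨w, ?_, hid w⟩, hw⟩
        show G.L _
        rw [hval w hw, hwω]
        obtain ⟨t, ht, ht'⟩ := tt_of_tw (n := n) hu hk hω 0
        rw [wd, ← ht']
        exact d_sound hD ht
      · rw [hpj, hwω]
    · rintro ⟨w, -, hw, rfl⟩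
      rw [hid] at hw
      obtain ⟨⟨w', hw', hw''⟩, hR⟩ := hw
      rw [hid] at hw''
      subst hw''
      have h3 : G.L (wd n u 0 (w'.map fun a => a.2.val)) := by
        rw [← hval w' hR]
        exact hw'
      have h4 := k_sound hK h3 (sp_wd hN0 hu 0 (h8 w')) ⟨2, _, rfl, by simp [lh]⟩ (by
        rw [labs_wd hu 0 (h8 w')]
        exact no_vio hN0 hu hadv 0 _)
      have h5 := tw_of_value hR.1 (value_of_wd hN0 hu 0 (h8 w') h4)
      rw [hpj]
      exact pj_dyck h5

end Pool.Agent.NGP
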