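import Pool.Agent.NGP.KDefs

/-!
# NGP, part K5: chains of nodes along a path

Either there is a loop with nonempty effect inside `[s, t)`, or many nodes containing the position
`s - 1` have different right ends in `[s, t)`, or many nodes containing the position `t` have
different left ends in `[s, t]`.
-/

namespace Pool.Agent.NGP

theorem Lp.lift {τ : Tr} {c d : Cx} {σ : Tr} (e : Cx) (h : Lp τ c d σ) :
    Lp (e.fill τ) (e.comp c) d σ := by
  obtain ⟨h1, h2⟩ := h
  exact ⟨by rw [Cx.fill_comp, ← h1], h2⟩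

theorem Cx.lo_comp (e c : Cx) : (e.comp c).lo = e.lo + c.lo := by
  simp [Cx.lo, Cx.pre_comp]

theorem Cx.hi_comp (e c : Cx) (σ : Tr) : (e.comp c).hi σ = e.lo + c.hi σ := by
  simp [Cx.lo, Cx.hi, Cx.pre_comp, Nat.add_assoc]

/-- Right ends of the nodes containing the position `p` are dense. -/
theorem dense_right {G : EG} : ∀ {τ : Tr}, τ.ok G → ∀ {p x : ℕ}, p < x → x ≤ τ.y.length →
    (∃ c d σ, Lp τ c d σ ∧ (d.pre ≠ [] ∨ d.post ≠ []) ∧ p + 1 ≤ c.lo) ∨
    ∃ c σ, τ = Cx.fill c σ ∧ c.lo ≤ p ∧ x ≤ c.hi σ ∧ c.hi σ < x + 2 ^ G.N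
  | Tr.ep t, _, p, x, hp, hx => by
    simp only [Tr.y, List.length_nil] at hx
    omega
  | Tr.lf t a, _, p, x, hp, hx => by
    simp only [Tr.y, List.length_singleton] at hx
    have hpos : 0 < 2 ^ G.N := Nat.pow_pos (by omega)
    right
    refine ⟨Cx.hole, Tr.lf t a, rfl, by simp [Cx.lo, Cx.pre], ?_, ?_⟩
    · simp only [Cx.hi, Cx.pre, Tr.y, List.length_nil, List.length_singleton]; omega
    · simp only [Cx.hi, Cx.pre, Tr.y, List.length_nil, List.length_singleton]; omega
  | Tr.nd t l r, hok, p, x, hp, hx => by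
    obtain ⟨-, -, hl, hr⟩ := hok
    have hlen : (Tr.nd t l r).y.length = l.y.length + r.y.length := by simp [Tr.y]
    by_cases hbig : (Tr.nd t l r).y.length < x + 2 ^ G.N
    · right
      exact ⟨Cx.hole, Tr.nd t l r, rfl, by simp [Cx.lo, Cx.pre],
        by simpa [Cx.hi, Cx.pre] using hx, by simpa [Cx.hi, Cx.pre] using hbig⟩
    by_cases hpl : p < l.y.length
    · by_cases hxl : x ≤ l.y.length
      · rcases dense_right hl hp hxl with ⟨c, d, σ, h1, h2, h3⟩ | ⟨c, σ, h1, h2, h3, h4⟩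
        · left
          exact ⟨_, d, σ, h1.lift (Cx.left t Cx.hole r), h2, by
            rw [Cx.lo_comp]; simpa [Cx.lo, Cx.pre] using h3⟩
        · right
          refine ⟨(Cx.left t Cx.hole r).comp c, σ, by rw [Cx.fill_comp, ← h1]; rfl, ?_, ?_, ?_⟩
          · rw [Cx.lo_comp]; simpa [Cx.lo, Cx.pre] using h2
          · rw [Cx.hi_comp]; simpa [Cx.lo, Cx.pre] using h3
          · rw [Cx.hi_comp]; simpa [Cx.lo, Cx.pre] using h4
      · left
        obtain ⟨c, d, σ, h1, h2⟩ := exists_loop hr (by omega)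
        refine ⟨_, d, σ, h1.lift (Cx.right t l Cx.hole), h2, ?_⟩
        rw [Cx.lo_comp]
        simp only [Cx.lo, Cx.pre, List.append_nil]
        omega
    · rcases dense_right hr (p := p - l.y.length) (x := x - l.y.length) (by omega) (by omega)
        with ⟨c, d, σ, h1, h2, h3⟩ | ⟨c, σ, h1, h2, h3, h4⟩
      · left
        refine ⟨_, d, σ, h1.lift (Cx.right t l Cx.hole), h2, ?_⟩
        rw [Cx.lo_comp]
        have : (Cx.right t l Cx.hole).lo = l.y.length := by simp [Cx.lo, Cx.pre]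
        omega
      · right
        have h0 : (Cx.right t l Cx.hole).lo = l.y.length := by simp [Cx.lo, Cx.pre]
        refine ⟨(Cx.right t l Cx.hole).comp c, σ, by rw [Cx.fill_comp, ← h1]; rfl, ?_, ?_, ?_⟩
        · rw [Cx.lo_comp]; omega
        · rw [Cx.hi_comp]; omega
        · rw [Cx.hi_comp]; omega

/-- Left ends of the nodes containing the position `p` are dense. -/
theorem dense_left {G : EG} : ∀ {τ : Tr}, τ.ok G → ∀ {p x : ℕ}, x ≤ p → p < τ.y.length →
    (∃ c d σ, Lp τ c d σ ∧ (d.pre ≠ [] ∨ d.post ≠ []) ∧ c.hi (d.fill σ) ≤ p) ∨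
    ∃ c σ, τ = Cx.fill c σ ∧ p < c.hi σ ∧ c.lo ≤ x ∧ x < c.lo + 2 ^ G.N
  | Tr.ep t, _, p, x, hx, hp => by
    simp only [Tr.y, List.length_nil] at hp
    omega
  | Tr.lf t a, _, p, x, hx, hp => by
    simp only [Tr.y, List.length_singleton] at hp
    have hpos : 0 < 2 ^ G.N := Nat.pow_pos (by omega)
    right
    refine ⟨Cx.hole, Tr.lf t a, rfl, ?_, by simp [Cx.lo, Cx.pre], ?_⟩
    · simp only [Cx.hi, Cx.pre, Tr.y, List.length_nil, List.length_singleton]; omega
    · simp only [Cx.lo, Cx.pre, List.length_nil]; omega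
  | Tr.nd t l r, hok, p, x, hx, hp => by
    obtain ⟨-, -, hl, hr⟩ := hok
    have hlen : (Tr.nd t l r).y.length = l.y.length + r.y.length := by simp [Tr.y]
    by_cases hbig : x < 2 ^ G.N
    · right
      exact ⟨Cx.hole, Tr.nd t l r, rfl, by simpa [Cx.hi, Cx.pre] using hp,
        by simp [Cx.lo, Cx.pre], by simpa [Cx.lo, Cx.pre] using hbig⟩
    by_cases hpl : p < l.y.length
    · rcases dense_left hl hx hpl with ⟨c, d, σ, h1, h2, h3⟩ | ⟨c, σ, h1, h2, h3, h4⟩
      · left
        exact ⟨_, d, σ, h1.lift (Cx.left t Cx.hole r), h2, by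
          rw [Cx.hi_comp]; simpa [Cx.lo, Cx.pre] using h3⟩
      · right
        refine ⟨(Cx.left t Cx.hole r).comp c, σ, by rw [Cx.fill_comp, ← h1]; rfl, ?_, ?_, ?_⟩
        · rw [Cx.hi_comp]; simpa [Cx.lo, Cx.pre] using h2
        · rw [Cx.lo_comp]; simpa [Cx.lo, Cx.pre] using h3
        · rw [Cx.lo_comp]; simpa [Cx.lo, Cx.pre] using h4
    · by_cases hxl : x < l.y.length
      · left
        obtain ⟨c, d, σ, h1, h2⟩ := exists_loop hl (by omega)
        refine ⟨_, d, σ, h1.lift (Cx.left t Cx.hole r), h2, ?_⟩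
        rw [Cx.hi_comp]
        have h3 : c.hi (d.fill σ) ≤ l.y.length := by
          rw [h1.1, Cx.y_fill]
          simp only [Cx.hi, List.length_append]
          omega
        have h0 : (Cx.left t Cx.hole r).lo = 0 := by simp [Cx.lo, Cx.pre]
        omega
      · have h0 : (Cx.right t l Cx.hole).lo = l.y.length := by simp [Cx.lo, Cx.pre]
        rcases dense_left hr (p := p - l.y.length) (x := x - l.y.length) (by omega) (by omega)
          with ⟨c, d, σ, h1, h2, h3⟩ | ⟨c, σ, h1, h2, h3, h4⟩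
        · left
          refine ⟨_, d, σ, h1.lift (Cx.right t l Cx.hole), h2, ?_⟩
          rw [Cx.hi_comp]
          omega
        · right
          refine ⟨(Cx.right t l Cx.hole).comp c, σ, by rw [Cx.fill_comp, ← h1]; rfl, ?_, ?_, ?_⟩
          · rw [Cx.hi_comp]; omega
          · rw [Cx.lo_comp]; omega
          · rw [Cx.lo_comp]; omega

/-- The last node with right end `≥ t` on the path to the position `p`. -/
theorem split_at : ∀ {τ : Tr} {p t : ℕ}, p + 1 < t → t ≤ τ.y.length →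
    ∃ (c : Cx) (u : ℕ) (B D : Tr), τ = c.fill (Tr.nd u B D) ∧ c.lo ≤ p ∧
      p < c.lo + B.y.length ∧ c.lo + B.y.length < t ∧ t ≤ c.lo + B.y.length + D.y.length
  | Tr.ep u, p, t, hp, ht => by
    simp only [Tr.y, List.length_nil] at ht
    omega
  | Tr.lf u a, p, t, hp, ht => by
    simp only [Tr.y, List.length_singleton] at ht
    omega
  | Tr.nd u l r, p, t, hp, ht => by
    have hlen : (Tr.nd u l r).y.length = l.y.length + r.y.length := by simp [Tr.y]
    by_cases hpl : p < l.y.length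
    · by_cases htl : l.y.length < t
      · refine ⟨Cx.hole, u, l, r, rfl, by simp [Cx.lo, Cx.pre], ?_, ?_, ?_⟩ <;>
          simp only [Cx.lo, Cx.pre, List.length_nil] <;> omega
      · obtain ⟨c, u', B, D, h1, h2, h3, h4, h5⟩ := split_at (τ := l) hp (by omega)
        have h0 : (Cx.left u Cx.hole r).lo = 0 := by simp [Cx.lo, Cx.pre]
        refine ⟨(Cx.left u Cx.hole r).comp c, u', B, D, by rw [Cx.fill_comp, ← h1]; rfl,
          ?_, ?_, ?_, ?_⟩ <;> rw [Cx.lo_comp] <;> omega
    · obtain ⟨c, u', B, D, h1, h2, h3, h4, h5⟩ := split_at (τ := r) (p := p - l.y.length)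
        (t := t - l.y.length) (by omega) (by omega)
      have h0 : (Cx.right u l Cx.hole).lo = l.y.length := by simp [Cx.lo, Cx.pre]
      refine ⟨(Cx.right u l Cx.hole).comp c, u', B, D, by rw [Cx.fill_comp, ← h1]; rfl,
        ?_, ?_, ?_, ?_⟩ <;> rw [Cx.lo_comp] <;> omega

/-- Chains of nodes. -/
theorem k_chain {G : EG} {τ : Tr} (hok : τ.ok G) {s t : ℕ} (hs : 1 ≤ s)
    (hst : s + 2 ^ (G.N + 1) ≤ t) (ht : t ≤ τ.y.length) :
    (∃ c d σ, Lp τ c d σ ∧ (d.pre ≠ [] ∨ d.post ≠ []) ∧ s ≤ c.lo ∧ c.hi (d.fill σ) ≤ t) ∨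
    (∃ R : Finset ℕ, (t - s) / 2 ^ (G.N + 1) ≤ R.card ∧ ∀ r ∈ R, s ≤ r ∧ r < t ∧
      ∃ c σ, τ = Cx.fill c σ ∧ c.lo < s ∧ c.hi σ = r) ∨
    (∃ R : Finset ℕ, (t - s) / 2 ^ (G.N + 1) ≤ R.card ∧ ∀ l ∈ R, s ≤ l ∧ l ≤ t ∧
      ∃ c σ, τ = Cx.fill c σ ∧ t < c.hi σ ∧ c.lo = l) := by
  have hpos : 0 < 2 ^ G.N := Nat.pow_pos (by omega)
  have hpow : 2 ^ (G.N + 1) = 2 ^ G.N * 2 := pow_succ 2 G.N
  obtain ⟨c, u, B, D, h1, h2, h3, h4, h5⟩ := split_at (τ := τ) (p := s - 1) (t := t)
    (by omega) ht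
  have hok1 : (Tr.nd u B D).ok G := by
    apply Cx.ok_fill (c := c); rw [← h1]; exact hok
  obtain ⟨-, -, hB, hD⟩ := hok1
  have hBf : τ = (c.comp (Cx.left u Cx.hole D)).fill B := by rw [Cx.fill_comp, h1]; rfl
  have hDf : τ = (c.comp (Cx.right u B Cx.hole)).fill D := by rw [Cx.fill_comp, h1]; rfl
  have hBlo : (c.comp (Cx.left u Cx.hole D)).lo = c.lo := by
    rw [Cx.lo_comp]; simp [Cx.lo, Cx.pre]
  have hDlo : (c.comp (Cx.right u B Cx.hole)).lo = c.lo + B.y.length := by
    rw [Cx.lo_comp]; simp [Cx.lo, Cx.pre]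
  -- number of steps
  have hcount : ∀ m, t - s ≤ 2 * m + 1 → (t - s) / 2 ^ (G.N + 1) ≤ m / 2 ^ G.N + 1 := by
    intro m hm
    rw [hpow, ← Nat.div_div_eq_div_mul, Nat.div_right_comm, Nat.div_div_eq_div_mul]
    have : (t - s) / (2 * 2 ^ G.N) = (t - s) / 2 / 2 ^ G.N := by
      rw [Nat.div_div_eq_div_mul]
    rw [this]
    exact le_trans (Nat.div_le_div_right (by omega)) (Nat.le_succ _)
  by_cases hcase : t - s ≤ 2 * (c.lo + B.y.length - s) + 1
  · -- right ends
    by_cases hloop : ∃ x, s - 1 - c.lo < x ∧ x ≤ B.y.length ∧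
        ∃ c' d σ, Lp B c' d σ ∧ (d.pre ≠ [] ∨ d.post ≠ []) ∧ s - 1 - c.lo + 1 ≤ c'.lo
    · obtain ⟨x, -, -, c', d, σ, h6, h7, h8⟩ := hloop
      left
      refine ⟨(c.comp (Cx.left u Cx.hole D)).comp c', d, σ, ?_, h7, ?_, ?_⟩
      · have := h6.lift (c.comp (Cx.left u Cx.hole D))
        rwa [← hBf] at this
      · rw [Cx.lo_comp, hBlo]; omega
      · rw [Cx.hi_comp, hBlo]
        have h9 : c'.hi (d.fill σ) ≤ B.y.length := by
          rw [h6.1, Cx.y_fill]
          simp only [Cx.hi, List.length_append]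
          omega
        omega
    · right; left
      set K := (c.lo + B.y.length - s) / 2 ^ G.N with hK
      have hnode : ∀ j, j < K + 1 → ∃ r, s + j * 2 ^ G.N ≤ r ∧ r < s + (j + 1) * 2 ^ G.N ∧
          s ≤ r ∧ r < t ∧ ∃ c σ, τ = Cx.fill c σ ∧ c.lo < s ∧ c.hi σ = r := by
        intro j hj
        have hjK : j * 2 ^ G.N ≤ c.lo + B.y.length - s := by
          calc j * 2 ^ G.N ≤ K * 2 ^ G.N := Nat.mul_le_mul_right _ (by omega)
            _ ≤ _ := Nat.div_mul_le_self _ _
        rcases dense_right hB (p := s - 1 - c.lo) (x := s + j * 2 ^ G.N - c.lo) (by omega)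
          (by omega) with hl | ⟨c', σ, h6, h7, h8, h9⟩
        · exact absurd ⟨s + j * 2 ^ G.N - c.lo, by omega, by omega, hl⟩ hloop
        · have h10 : c'.hi σ ≤ B.y.length := by
            rw [h6, Cx.y_fill]
            simp only [Cx.hi, List.length_append]
            omega
          have hmul : (j + 1) * 2 ^ G.N = j * 2 ^ G.N + 2 ^ G.N := by ring
          refine ⟨c.lo + c'.hi σ, by omega, by omega, by omega, by omega,
            (c.comp (Cx.left u Cx.hole D)).comp c', σ, ?_, ?_, ?_⟩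
          · rw [Cx.fill_comp, ← h6]; exact hBf
          · rw [Cx.lo_comp, hBlo]; omega
          · rw [Cx.hi_comp, hBlo]
      choose! f hf using hnode
      refine ⟨(Finset.range (K + 1)).image f, ?_, ?_⟩
      · rw [Finset.card_image_of_injOn, Finset.card_range]
        · exact hcount _ hcase
        · intro a ha b hb hab
          simp only [Finset.coe_range, Set.mem_Iio] at ha hb
          have ha' := hf a ha
          have hb' := hf b hb
          by_contra hne
          rcases Nat.lt_or_gt_of_ne hne with hlt | hlt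
          · have : (a + 1) * 2 ^ G.N ≤ b * 2 ^ G.N := Nat.mul_le_mul_right _ hlt
            omega
          · have : (b + 1) * 2 ^ G.N ≤ a * 2 ^ G.N := Nat.mul_le_mul_right _ hlt
            omega
      · intro r hr
        obtain ⟨j, hj, rfl⟩ := Finset.mem_image.1 hr
        exact (hf j (Finset.mem_range.1 hj)).2.2
  · -- left ends
    by_cases hend : c.lo + B.y.length + D.y.length = t
    · left
      obtain ⟨c', d, σ, h6, h7⟩ := exists_loop hD (by omega)
      refine ⟨(c.comp (Cx.right u B Cx.hole)).comp c', d, σ, ?_, h7, ?_, ?_⟩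
      · have := h6.lift (c.comp (Cx.right u B Cx.hole))
        rwa [← hDf] at this
      · rw [Cx.lo_comp, hDlo]; omega
      · rw [Cx.hi_comp, hDlo]
        have h9 : c'.hi (d.fill σ) ≤ D.y.length := by
          rw [h6.1, Cx.y_fill]
          simp only [Cx.hi, List.length_append]
          omega
        omega
    by_cases hloop : ∃ x, x ≤ t - (c.lo + B.y.length) ∧
        ∃ c' d σ, Lp D c' d σ ∧ (d.pre ≠ [] ∨ d.post ≠ []) ∧
          c'.hi (d.fill σ) ≤ t - (c.lo + B.y.length)
    · obtain ⟨x, -, c', d, σ, h6, h7, h8⟩ := hloop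
      left
      refine ⟨(c.comp (Cx.right u B Cx.hole)).comp c', d, σ, ?_, h7, ?_, ?_⟩
      · have := h6.lift (c.comp (Cx.right u B Cx.hole))
        rwa [← hDf] at this
      · rw [Cx.lo_comp, hDlo]; omega
      · rw [Cx.hi_comp, hDlo]; omega
    · right; right
      set K := (t - (c.lo + B.y.length)) / 2 ^ G.N with hK
      have hnode : ∀ j, j < K + 1 → ∃ l, l ≤ t - j * 2 ^ G.N ∧ t - j * 2 ^ G.N < l + 2 ^ G.N ∧
          j * 2 ^ G.N ≤ t ∧
          s ≤ l ∧ l ≤ t ∧ ∃ c σ, τ = Cx.fill c σ ∧ t < c.hi σ ∧ c.lo = l := by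
        intro j hj
        have hjK : j * 2 ^ G.N ≤ t - (c.lo + B.y.length) := by
          calc j * 2 ^ G.N ≤ K * 2 ^ G.N := Nat.mul_le_mul_right _ (by omega)
            _ ≤ _ := Nat.div_mul_le_self _ _
        rcases dense_left hD (p := t - (c.lo + B.y.length))
          (x := t - (c.lo + B.y.length) - j * 2 ^ G.N) (by omega)
          (by omega) with hl | ⟨c', σ, h6, h7, h8, h9⟩
        · exact absurd ⟨t - (c.lo + B.y.length) - j * 2 ^ G.N, by omega, hl⟩ hloop
        · refine ⟨c.lo + B.y.length + c'.lo, by omega, by omega, by omega, by omega, by omega,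
            (c.comp (Cx.right u B Cx.hole)).comp c', σ, ?_, ?_, ?_⟩
          · rw [Cx.fill_comp, ← h6]; exact hDf
          · rw [Cx.hi_comp, hDlo]; omega
          · rw [Cx.lo_comp, hDlo]
      choose! f hf using hnode
      refine ⟨(Finset.range (K + 1)).image f, ?_, ?_⟩
      · rw [Finset.card_image_of_injOn, Finset.card_range]
        · exact hcount _ (by omega)
        · intro a ha b hb hab
          simp only [Finset.coe_range, Set.mem_Iio] at ha hb
          have ha' := hf a ha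
          have hb' := hf b hb
          by_contra hne
          rcases Nat.lt_or_gt_of_ne hne with hlt | hlt
          · have : (a + 1) * 2 ^ G.N ≤ b * 2 ^ G.N := Nat.mul_le_mul_right _ hlt
            have h2 : (a + 1) * 2 ^ G.N = a * 2 ^ G.N + 2 ^ G.N := by ring
            omega
          · have : (b + 1) * 2 ^ G.N ≤ a * 2 ^ G.N := Nat.mul_le_mul_right _ hlt
            have h2 : (b + 1) * 2 ^ G.N = b * 2 ^ G.N + 2 ^ G.N := by ring
            omega
      · intro r hr
        obtain ⟨j, hj, rfl⟩ := Finset.mem_image.1 hr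
        exact (hf j (Finset.mem_range.1 hj)).2.2.2

end Pool.Agent.NGP
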