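import Pool.Agent.NGP.KDefs

/-!
# NGP, part K7, K8(c): few bad cells, bad cells are outside links
-/

namespace Pool.Agent.NGP

theorem DL_mono {n H i j : ℕ} (h : DL n H i) (hij : i ≤ j) : DL n H j := by
  rcases h with h | h
  · exact Or.inl h
  · right
    exact lt_of_lt_of_le h (Nat.mul_le_mul_right _ (by omega))

theorem DR_mono {n H M i j : ℕ} (h : DR n H M j) (hij : i ≤ j) : DR n H M i := by
  rcases h with h | h
  · exact Or.inl h
  · right
    exact lt_of_lt_of_le h (Nat.mul_le_mul_right _ (by omega))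

/-- The left end of a right bad node of a deep cell is left of the label of every cell which
is DL. -/
theorem RBn.lt {n : ℕ} {τ : Tr} {i l k : ℕ} (h : RBn n τ i l) (hk : DL n (KH τ) k) :
    l < k * (n + 1) := by
  by_contra hcon
  apply h.2.1
  apply DL_mono hk
  rw [Nat.le_div_iff_mul_le (by omega)]
  omega

theorem LBn.lt {n : ℕ} {τ : Tr} {i r k : ℕ} (h : LBn n τ i r) (hk : DR n (KH τ) (KM τ) k) :
    (k + 1) * (n + 1) < r := by
  by_contra hcon
  apply h.2.2.1
  apply DR_mono hk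
  rw [← Nat.lt_succ_iff, Nat.div_lt_iff_lt_mul (by omega)]
  have hmul : (k + 1) * (n + 1) = k.succ * (n + 1) := rfl
  have : 0 < (k + 1) * (n + 1) := Nat.mul_pos (by omega) (by omega)
  omega

theorem Cx.hi_fill (c d : Cx) (σ : Tr) :
    c.hi (d.fill σ) = c.lo + d.pre.length + σ.y.length + d.post.length := by
  simp only [Cx.hi, Cx.lo, Cx.y_fill, List.length_append]
  omega

theorem mul_lt_of_lt {n i j : ℕ} (h : i < j) : (i + 1) * (n + 1) ≤ j * (n + 1) :=
  Nat.mul_le_mul_right _ h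

/-- Order of the right bad nodes. -/
theorem RBn.le {n : ℕ} {τ : Tr} {i i' l l' : ℕ} (h : RBn n τ i l) (h' : RBn n τ i' l')
    (hd : DL n (KH τ) i) (hi : i < i') : l' ≤ l := by
  by_contra hcon
  have h1 := h'.lt hd
  obtain ⟨-, -, c, σ, e1, e2, e3, e4⟩ := h
  obtain ⟨-, -, c', σ', e1', e2', e3', e4'⟩ := h'
  have h2 := mul_lt_of_lt (n := n) hi
  exact no_cross (c := c) (c' := c') (σ := σ) (σ' := σ') (e1 ▸ e1') (by omega) (by omega)
    (by omega)

/-- Order of the left bad nodes. -/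
theorem LBn.le {n : ℕ} {τ : Tr} {i i' r r' : ℕ} (h : LBn n τ i r) (h' : LBn n τ i' r')
    (hd : DR n (KH τ) (KM τ) i) (hi : i' < i) : r ≤ r' := by
  by_contra hcon
  have h1 := h'.lt hd
  obtain ⟨-, -, -, c, σ, e1, e2, e3, e4⟩ := h
  obtain ⟨-, -, -, c', σ', e1', e2', e3', e4'⟩ := h'
  have h2 := mul_lt_of_lt (n := n) hi
  exact no_cross (c := c') (c' := c) (σ := σ') (σ' := σ) (e1' ▸ e1) (by omega) (by omega)
    (by omega)

/-- Counting: sets of more than `m` numbers below `B`, in decreasing order up to one common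
element. -/
theorem card_of_chain {B m : ℕ} (S : Finset ℕ) (F : ℕ → Finset ℕ) (hm : ∀ i ∈ S, m + 1 ≤ (F i).card)
    (hB : ∀ i ∈ S, ∀ l ∈ F i, l < B)
    (hF : ∀ i ∈ S, ∀ j ∈ S, i < j → ∀ l ∈ F i, ∀ l' ∈ F j, l' ≤ l) : m * S.card ≤ B := by
  classical
  -- remove the minimum
  have hne : ∀ i ∈ S, (F i).Nonempty := fun i hi => Finset.card_pos.1 (by
    have := hm i hi; omega)
  let E : ℕ → Finset ℕ := fun i => (F i).filter fun l => ∃ l' ∈ F i, l' < l
  have hE : ∀ i ∈ S, m ≤ (E i).card := by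
    intro i hi
    have h1 : F i ⊆ insert ((F i).min' (hne i hi)) (E i) := by
      intro l hl
      rw [Finset.mem_insert]
      by_cases h : l = (F i).min' (hne i hi)
      · exact Or.inl h
      · right
        refine Finset.mem_filter.2 ⟨hl, (F i).min' (hne i hi), Finset.min'_mem _ _, ?_⟩
        exact lt_of_le_of_ne (Finset.min'_le _ _ hl) (Ne.symm h)
    have h2 := (Finset.card_le_card h1).trans (Finset.card_insert_le _ _)
    have h3 := hm i hi
    omega
  have hdisj : ∀ i ∈ S, ∀ j ∈ S, i ≠ j → Disjoint (E i) (E j) := by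
    intro i hi j hj hij
    rw [Finset.disjoint_left]
    intro l hl hl'
    obtain ⟨h1, a, ha, ha'⟩ := Finset.mem_filter.1 hl
    obtain ⟨h2, b, hb, hb'⟩ := Finset.mem_filter.1 hl'
    rcases Nat.lt_or_gt_of_ne hij with h | h
    · have := hF i hi j hj h a ha l h2
      omega
    · have := hF j hj i hi h b hb l h1
      omega
  have hsub : S.biUnion E ⊆ Finset.range B := by
    intro l hl
    obtain ⟨i, hi, hl⟩ := Finset.mem_biUnion.1 hl
    exact Finset.mem_range.2 (hB i hi l (Finset.mem_filter.1 hl).1)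
  have hcard := Finset.card_le_card hsub
  rw [Finset.card_range, Finset.card_biUnion hdisj] at hcard
  have hsum : S.card • m ≤ ∑ i ∈ S, (E i).card := Finset.card_nsmul_le_sum _ _ _ hE
  rw [smul_eq_mul, mul_comm] at hsum
  omega

theorem k_few_rbad {n : ℕ} {τ : Tr} (S : Finset ℕ) (hS : ∀ i ∈ S, RBad n τ i) :
    4000 * S.card ≤ 15 * KH τ := by
  choose! F hF using fun i (hi : i ∈ S) => (hS i hi).2
  exact card_of_chain S F (fun i hi => (hF i hi).1) (fun i hi l hl => ((hF i hi).2 l hl).1)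
    fun i hi j hj hij l hl l' hl' =>
      ((hF i hi).2 l hl).le ((hF j hj).2 l' hl') (hS i hi).1.2.1 hij

theorem k_few_lbad {n : ℕ} {τ : Tr} (S : Finset ℕ) (hS : ∀ i ∈ S, LBad n τ i) :
    4000 * S.card ≤ 15 * KH τ := by
  classical
  choose! F hF using fun i (hi : i ∈ S) => (hS i hi).2
  -- distances to the right end, cells counted from the right
  have hinj : ∀ i ∈ S, Set.InjOn (fun r => τ.y.length - r) (F i : Set ℕ) := by
    intro i hi a ha b hb hab
    have h1 := ((hF i hi).2 a ha).2.1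
    have h2 := ((hF i hi).2 b hb).2.1
    simp only at hab
    omega
  have hSM : ∀ i ∈ S, i < KM τ := fun i hi => (hS i hi).1.1
  have hinjS : Set.InjOn (fun i => KM τ - i) (S : Set ℕ) := by
    intro a ha b hb hab
    have h1 := hSM a ha
    have h2 := hSM b hb
    simp only at hab
    omega
  have hcard : (S.image fun i => KM τ - i).card = S.card := Finset.card_image_of_injOn hinjS
  rw [← hcard]
  refine card_of_chain (S.image fun i => KM τ - i)
    (fun k => (F (KM τ - k)).image fun r => τ.y.length - r) ?_ ?_ ?_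
  · intro k hk
    obtain ⟨i, hi, rfl⟩ := Finset.mem_image.1 hk
    have h1 := hSM i hi
    rw [show KM τ - (KM τ - i) = i by omega, Finset.card_image_of_injOn (hinj i hi)]
    exact (hF i hi).1
  · intro k hk l hl
    obtain ⟨i, hi, rfl⟩ := Finset.mem_image.1 hk
    have h1 := hSM i hi
    rw [show KM τ - (KM τ - i) = i by omega] at hl
    obtain ⟨r, hr, rfl⟩ := Finset.mem_image.1 hl
    exact ((hF i hi).2 r hr).1
  · intro k hk k' hk' hkk l hl l' hl'
    obtain ⟨i, hi, rfl⟩ := Finset.mem_image.1 hk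
    obtain ⟨j, hj, rfl⟩ := Finset.mem_image.1 hk'
    have h1 := hSM i hi
    have h2 := hSM j hj
    rw [show KM τ - (KM τ - i) = i by omega] at hl
    rw [show KM τ - (KM τ - j) = j by omega] at hl'
    obtain ⟨r, hr, rfl⟩ := Finset.mem_image.1 hl
    obtain ⟨r', hr', rfl⟩ := Finset.mem_image.1 hl'
    have := ((hF i hi).2 r hr).le ((hF j hj).2 r' hr') (hS i hi).1.2.2 (by omega)
    omega

/-- There are few bad cells. -/
theorem k_few_bad {n : ℕ} {τ : Tr} (S : Finset ℕ) (hS : ∀ i ∈ S, RBad n τ i ∨ LBad n τ i) :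
    4000 * S.card ≤ 30 * KH τ := by
  classical
  have h1 := k_few_rbad (S.filter fun i => RBad n τ i) fun i hi => (Finset.mem_filter.1 hi).2
  have h2 := k_few_lbad (S.filter fun i => ¬ RBad n τ i) fun i hi =>
    ((hS i (Finset.mem_filter.1 hi).1).resolve_left (Finset.mem_filter.1 hi).2)
  have h3 := Finset.card_filter_add_card_filter_not (s := S) fun i => RBad n τ i
  omega

/-- Bad cells are not strictly inside links. -/
theorem k_bad_out {n : ℕ} {τ : Tr} {i j b : ℕ} (h : Link n τ i j)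
    (hb : RBad n τ b ∨ LBad n τ b) : ¬ (i < b ∧ b < j) := by
  rintro ⟨hib, hbj⟩
  obtain ⟨hij, hdi, hdj, -, c, d, σ, hL, hu, huv, ⟨h1, h2⟩, ⟨h3, h4⟩⟩ := h
  have e1 := mul_lt_of_lt (n := n) hib
  have e2 := mul_lt_of_lt (n := n) hbj
  have hupos : 0 < d.pre.length := List.length_pos_of_ne_nil hu
  have hfill := Cx.hi_fill c d σ
  rcases hb with ⟨hdb, S, hS, hSl⟩ | ⟨hdb, S, hS, hSl⟩
  · obtain ⟨l, hl⟩ : S.Nonempty := Finset.card_pos.1 (by omega)
    have hl' := hSl l hl
    have h5 := hl'.lt hdi.2.1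
    obtain ⟨-, -, c', σ', e1', e2', e3', e4'⟩ := hl'
    exact no_cross (c := c') (c' := c) (σ := σ') (σ' := d.fill σ) (e1' ▸ hL.1) (by omega)
      (by omega) (by omega)
  · obtain ⟨r, hr⟩ : S.Nonempty := Finset.card_pos.1 (by omega)
    have hr' := hSl r hr
    have h5 := hr'.lt hdj.2.2
    obtain ⟨-, -, -, c', σ', e1', e2', e3', e4'⟩ := hr'
    exact no_cross (c := c) (c' := c') (σ := d.fill σ) (σ' := σ') (hL.1 ▸ e1') (by omega)
      (by omega) (by omega)

end Pool.Agent.NGP
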