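import Pool.Agent.NGP.K5
import Pool.Agent.NGP.K7

/-!
# NGP, part K6: an unlinked deep cell is bad

The statement is relative to (K3), (K4) and its mirror form at the cell `i`.
-/

namespace Pool.Agent.NGP

/-- Counting with types. -/
theorem count_types {N : ℕ} (R : Finset ℕ) (ty ex : ℕ → ℕ) (P : ℕ → Prop) [DecidablePred P]
    (hty : ∀ r ∈ R, ty r < N)
    (h1 : ∀ r ∈ R, ∀ r' ∈ R, r < r' → ty r = ty r' → P r → P r' → False)
    (h2 : ∀ r ∈ R, ∀ r' ∈ R, r < r' → ty r = ty r' → ex r ≠ ex r') :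
    R.card ≤ ((R.filter fun r => ¬ P r).image ex).card * N + N := by
  classical
  have e1 : (R.filter P).card ≤ N := by
    have : ((R.filter P).image ty).card = (R.filter P).card := by
      apply Finset.card_image_of_injOn
      intro a ha b hb hab
      simp only [Finset.coe_filter, Set.mem_ofPred_eq] at ha hb
      by_contra hne
      rcases Nat.lt_or_gt_of_ne hne with h | h
      · exact h1 a ha.1 b hb.1 h hab ha.2 hb.2
      · exact h1 b hb.1 a ha.1 h hab.symm hb.2 ha.2
    rw [← this]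
    refine (Finset.card_le_card (t := Finset.range N) ?_).trans (by simp)
    intro x hx
    obtain ⟨r, hr, rfl⟩ := Finset.mem_image.1 hx
    exact Finset.mem_range.2 (hty r (Finset.mem_filter.1 hr).1)
  have e2 : (R.filter fun r => ¬ P r).card ≤ ((R.filter fun r => ¬ P r).image ex).card * N := by
    have : ((R.filter fun r => ¬ P r).image fun r => (ex r, ty r)).card =
        (R.filter fun r => ¬ P r).card := by
      apply Finset.card_image_of_injOn
      intro a ha b hb hab
      simp only [Finset.coe_filter, Set.mem_ofPred_eq] at ha hb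
      simp only [Prod.mk.injEq] at hab
      by_contra hne
      rcases Nat.lt_or_gt_of_ne hne with h | h
      · exact h2 a ha.1 b hb.1 h hab.2 hab.1
      · exact h2 b hb.1 a ha.1 h hab.2.symm hab.1.symm
    rw [← this]
    refine (Finset.card_le_card
      (t := ((R.filter fun r => ¬ P r).image ex) ×ˢ Finset.range N) ?_).trans ?_
    · intro x hx
      obtain ⟨r, hr, rfl⟩ := Finset.mem_image.1 hx
      rw [Finset.mem_product]
      exact ⟨Finset.mem_image_of_mem _ hr, Finset.mem_range.2 (hty r (Finset.mem_filter.1 hr).1)⟩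
    · rw [Finset.card_product, Finset.card_range]
  have e3 := Finset.card_filter_add_card_filter_not (s := R) P
  omega

theorem not_DL {n H l : ℕ} (h : ¬ DL n H (l / (n + 1))) : n + 1 ≤ 5 * H ∧ l < 15 * H := by
  unfold DL at h
  push Not at h
  obtain ⟨h1, h2⟩ := h
  refine ⟨h1, ?_⟩
  have h3 := Nat.lt_mul_div_succ l (show 0 < n + 1 by omega)
  have h4 : (n + 1) * (l / (n + 1) + 1) ≤ (l / (n + 1) - 1) * (n + 1) + 2 * (n + 1) := by
    calc (n + 1) * (l / (n + 1) + 1) = (l / (n + 1) + 1) * (n + 1) := mul_comm _ _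
      _ ≤ ((l / (n + 1) - 1) + 2) * (n + 1) := Nat.mul_le_mul_right _ (by omega)
      _ = _ := by ring
  omega

theorem not_DR {n H M r : ℕ} (hr : 0 < r) (h : ¬ DR n H M ((r - 1) / (n + 1))) :
    n + 1 ≤ 5 * H ∧ M * (n + 1) - r < 15 * H := by
  unfold DR at h
  push Not at h
  obtain ⟨h1, h2⟩ := h
  refine ⟨h1, ?_⟩
  set x := (r - 1) / (n + 1) with hx
  have h3 : x * (n + 1) ≤ r - 1 := Nat.div_mul_le_self _ _
  have h4 : M * (n + 1) ≤ (M - 2 - x) * (n + 1) + 2 * (n + 1) + x * (n + 1) := by
    calc M * (n + 1) ≤ ((M - 2 - x) + 2 + x) * (n + 1) := Nat.mul_le_mul_right _ (by omega)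
      _ = _ := by ring
  omega

/-- An unlinked deep cell is bad. -/
theorem k_link_or_bad_of {G : EG} {n : ℕ} {τ : Tr} (hok : τ.ok G)
    (hlen : τ.y.length = KM τ * (n + 1)) (hbig : 2 ^ (G.N + 14) * (G.N + 1) ≤ n) {i : ℕ}
    (hd : Deep n τ i)
    (h3 : ∀ c d σ, Lp τ c d σ → (d.pre = [] ∨ InRun n i c.lo (c.lo + d.pre.length)) →
      (d.post = [] ∨ InRun n i (c.lo + d.pre.length + σ.y.length) (c.hi (d.fill σ))) →
      d.pre = [] ∧ d.post = [])
    (h4 : ∀ c d σ, Lp τ c d σ → d.post ≠ [] →
      InRun n i (c.lo + d.pre.length + σ.y.length) (c.hi (d.fill σ)) →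
      c.lo + d.pre.length ≤ i * (n + 1) → DL n (KH τ) (c.lo / (n + 1)) → ∃ i', Link n τ i' i)
    (h4' : ∀ c d σ, Lp τ c d σ → d.pre ≠ [] → InRun n i c.lo (c.lo + d.pre.length) →
      (i + 1) * (n + 1) ≤ c.lo + d.pre.length + σ.y.length →
      DR n (KH τ) (KM τ) ((c.hi (d.fill σ) - 1) / (n + 1)) → ∃ j, Link n τ i j) :
    (∃ j, Link n τ i j ∨ Link n τ j i) ∨
      (n + 1 ≤ 5 * KH τ ∧ (RBad n τ i ∨ LBad n τ i)) := by
  classical
  by_cases hun : ∃ j, Link n τ i j ∨ Link n τ j i
  · exact Or.inl hun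
  right
  have : Nonempty Cx := ⟨Cx.hole⟩
  have : Nonempty Tr := ⟨Tr.ep 0⟩
  have hpos : 0 < 2 ^ (G.N + 1) := Nat.pow_pos (by omega)
  have hpow : 2 ^ (G.N + 14) * (G.N + 1) = 2 ^ (G.N + 1) * (2 ^ 13 * (G.N + 1)) := by
    rw [show G.N + 14 = G.N + 1 + 13 by ring, pow_add, mul_assoc]
  have hts : (i + 1) * (n + 1) - (i * (n + 1) + 1) = n := by
    have : (i + 1) * (n + 1) = i * (n + 1) + (n + 1) := by ring
    omega
  have hts' : (i + 1) * (n + 1) = i * (n + 1) + 1 + n := by ring
  have hcount : 2 ^ 13 * (G.N + 1) ≤ n / 2 ^ (G.N + 1) := by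
    rw [Nat.le_div_iff_mul_le hpos, mul_comm, ← hpow]
    exact hbig
  have hn1 : 2 ^ (G.N + 1) ≤ n := by
    calc 2 ^ (G.N + 1) = 2 ^ (G.N + 1) * 1 := (mul_one _).symm
      _ ≤ 2 ^ (G.N + 1) * (2 ^ 13 * (G.N + 1)) := Nat.mul_le_mul_left _ (by
        have : 0 < 2 ^ 13 * (G.N + 1) := Nat.mul_pos (by norm_num) (by omega)
        omega)
      _ ≤ n := by rw [← hpow]; exact hbig
  have ht : (i + 1) * (n + 1) ≤ τ.y.length := by
    rw [hlen]
    exact Nat.mul_le_mul_right _ hd.1
  rcases k_chain hok (s := i * (n + 1) + 1) (t := (i + 1) * (n + 1)) (by omega) (by omega) ht with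
    ⟨c, d, σ, hL, hne, hs, ht'⟩ | ⟨R, hR, hn⟩ | ⟨R, hR, hn⟩
  · -- a loop in the run
    exfalso
    have hfill := Cx.hi_fill c d σ
    have := h3 c d σ hL (Or.inr ⟨hs, by omega⟩) (Or.inr ⟨by omega, ht'⟩)
    rcases hne with h | h
    · exact h this.1
    · exact h this.2
  · -- right ends in the run
    rw [hts] at hR
    choose! C T hC using fun r (hr : r ∈ R) => (hn r hr).2.2
    have hty : ∀ r ∈ R, (T r).ty < G.N := by
      intro r hr
      apply Tr.ty_lt
      apply Cx.ok_fill (c := C r)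
      rw [← (hC r hr).1]; exact hok
    -- nested nodes
    have hnest : ∀ r ∈ R, ∀ r' ∈ R, r < r' → (T r).ty = (T r').ty →
        ∃ d, Lp τ (C r') d (T r) ∧ (C r').lo + d.pre.length = (C r).lo ∧
          d.post ≠ [] ∧ (C r').lo + d.pre.length + (T r).y.length = r ∧
          (C r').hi (d.fill (T r)) = r' := by
      intro r hr r' hr' hlt hty'
      have h1 := hC r hr
      have h2 := hC r' hr'
      have h3 := hn r hr
      have h4 := hn r' hr'
      have hlo : (C r').lo ≤ (C r).lo := by
        by_contra hcon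
        exact no_cross (c := C r) (c' := C r') (σ := T r) (σ' := T r') (h1.1 ▸ h2.1) (by omega)
          (by omega) (by omega)
      obtain ⟨d, hd1, hd2⟩ := nested_of (c := C r') (c' := C r) (σ := T r') (σ' := T r)
        (h2.1 ▸ h1.1) hlo (by omega) (Or.inr (by omega)) (by omega)
      have e1 : (C r).lo = (C r').lo + d.lo := by rw [hd1, Cx.lo_comp]
      have e2 : (C r).hi (T r) = (C r).lo + (T r).y.length := rfl
      have e3 := Cx.hi_fill (C r') d (T r)
      have e4 : d.lo = d.pre.length := rfl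
      refine ⟨d, ⟨by rw [← hd2]; exact h2.1, by rw [← hd2]; exact hty'.symm⟩, by omega, ?_,
        by omega, by rw [← hd2]; exact h2.2.2⟩
      intro h0
      rw [← hd2, h0] at e3
      simp only [List.length_nil] at e3
      omega
    have hcard := count_types (N := G.N) R (fun r => (T r).ty) (fun r => (C r).lo)
      (fun r => DL n (KH τ) ((C r).lo / (n + 1))) hty
      (by
        intro r hr r' hr' hlt hty' hP hP'
        obtain ⟨d, hL, e1, e2, e3, e4⟩ := hnest r hr r' hr' hlt hty'
        have h5 := hn r hr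
        have h6 := hn r' hr'
        have h7 := hC r hr
        obtain ⟨i', hi'⟩ := h4 _ _ _ hL e2 ⟨by omega, by omega⟩ (by omega) hP'
        exact hun ⟨i', Or.inr hi'⟩)
      (by
        intro r hr r' hr' hlt hty' hlo
        obtain ⟨d, hL, e1, e2, e3, e4⟩ := hnest r hr r' hr' hlt hty'
        have h5 := hn r hr
        have h6 := hn r' hr'
        have h0 : d.pre = [] := by
          apply List.eq_nil_of_length_eq_zero
          omega
        exact e2 (h3 _ _ _ hL (Or.inl h0) (Or.inr ⟨by omega, by omega⟩)).2)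
    set L := (R.filter fun r => ¬ DL n (KH τ) ((C r).lo / (n + 1))).image fun r => (C r).lo with hLdef
    have hL4001 : 4001 ≤ L.card := by
      by_contra hcon
      have h5 : L.card * G.N ≤ 4000 * G.N := Nat.mul_le_mul_right _ (by omega)
      have h6 : 2 ^ 13 * (G.N + 1) = 8192 * G.N + 8192 := by ring
      omega
    have hmem : ∀ l ∈ L, RBn n τ i l := by
      intro l hl
      obtain ⟨r, hr, rfl⟩ := Finset.mem_image.1 hl
      obtain ⟨hr1, hr2⟩ := Finset.mem_filter.1 hr
      have h5 := hn r hr1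
      have h6 := hC r hr1
      refine ⟨(not_DL hr2).2, hr2, C r, T r, h6.1, rfl, by omega, by omega⟩
    obtain ⟨l, hl⟩ : L.Nonempty := Finset.card_pos.1 (by omega)
    exact ⟨(not_DL (hmem l hl).2.1).1, Or.inl ⟨hd, L, hL4001, hmem⟩⟩
  · -- left ends in the run
    rw [hts] at hR
    choose! C T hC using fun r (hr : r ∈ R) => (hn r hr).2.2
    have hty : ∀ r ∈ R, (T r).ty < G.N := by
      intro r hr
      apply Tr.ty_lt
      apply Cx.ok_fill (c := C r)
      rw [← (hC r hr).1]; exact hok
    -- nested nodes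
    have hnest : ∀ r ∈ R, ∀ r' ∈ R, r < r' → (T r).ty = (T r').ty →
        ∃ d, Lp τ (C r) d (T r') ∧ (C r).lo + d.pre.length = r' ∧ (C r).lo = r ∧
          d.pre ≠ [] ∧ (C r).lo + d.pre.length + (T r').y.length = (C r').hi (T r') ∧
          (C r).hi (d.fill (T r')) = (C r).hi (T r) := by
      intro r hr r' hr' hlt hty'
      have h1 := hC r hr
      have h2 := hC r' hr'
      have h3 := hn r hr
      have h4 := hn r' hr'
      have hhi : (C r').hi (T r') ≤ (C r).hi (T r) := by
        by_contra hcon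
        exact no_cross (c := C r) (c' := C r') (σ := T r) (σ' := T r') (h1.1 ▸ h2.1) (by omega)
          (by omega) (by omega)
      obtain ⟨d, hd1, hd2⟩ := nested_of (c := C r) (c' := C r') (σ := T r) (σ' := T r')
        (h1.1 ▸ h2.1) (by omega) hhi (Or.inl (by omega)) (by omega)
      have e1 : (C r').lo = (C r).lo + d.lo := by rw [hd1, Cx.lo_comp]
      have e2 : (C r').hi (T r') = (C r').lo + (T r').y.length := rfl
      have e4 : d.lo = d.pre.length := rfl
      refine ⟨d, ⟨by rw [← hd2]; exact h1.1, by rw [← hd2]; exact hty'⟩, by omega, h1.2.2, ?_,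
        by omega, by rw [← hd2]⟩
      intro h0
      rw [h0] at e4
      simp only [List.length_nil] at e4
      omega
    have hcard := count_types (N := G.N) R (fun r => (T r).ty) (fun r => (C r).hi (T r))
      (fun r => DR n (KH τ) (KM τ) (((C r).hi (T r) - 1) / (n + 1))) hty
      (by
        intro r hr r' hr' hlt hty' hP hP'
        obtain ⟨d, hL, e1, e0, e2, e3, e4⟩ := hnest r hr r' hr' hlt hty'
        have h5 := hn r hr
        have h6 := hn r' hr'
        have h7 := hC r' hr'
        obtain ⟨j, hj⟩ := h4' _ _ _ hL e2 ⟨by omega, by omega⟩ (by omega) (by rw [e4]; exact hP)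
        exact hun ⟨j, Or.inl hj⟩)
      (by
        intro r hr r' hr' hlt hty' hhi
        obtain ⟨d, hL, e1, e0, e2, e3, e4⟩ := hnest r hr r' hr' hlt hty'
        have h5 := hn r hr
        have h6 := hn r' hr'
        have e5 := Cx.hi_fill (C r) d (T r')
        have h0 : d.post = [] := by
          apply List.eq_nil_of_length_eq_zero
          omega
        exact e2 (h3 _ _ _ hL (Or.inr ⟨by omega, by omega⟩) (Or.inl h0)).1)
    set L := (R.filter fun r => ¬ DR n (KH τ) (KM τ) (((C r).hi (T r) - 1) / (n + 1))).image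
      fun r => (C r).hi (T r) with hLdef
    have hL4001 : 4001 ≤ L.card := by
      by_contra hcon
      have h5 : L.card * G.N ≤ 4000 * G.N := Nat.mul_le_mul_right _ (by omega)
      have h6 : 2 ^ 13 * (G.N + 1) = 8192 * G.N + 8192 := by ring
      omega
    have hmem : ∀ l ∈ L, LBn n τ i l := by
      intro l hl
      obtain ⟨r, hr, rfl⟩ := Finset.mem_image.1 hl
      obtain ⟨hr1, hr2⟩ := Finset.mem_filter.1 hr
      have h5 := hn r hr1
      have h6 := hC r hr1
      have h7 : (C r).hi (T r) ≤ τ.y.length := by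
        conv_rhs => rw [h6.1, Cx.y_fill]
        simp only [Cx.hi, List.length_append]
        omega
      refine ⟨?_, h7, hr2, C r, T r, h6.1, rfl, by omega, by omega⟩
      rw [hlen]
      exact (not_DR (by omega) hr2).2
    obtain ⟨l, hl⟩ : L.Nonempty := Finset.card_pos.1 (by omega)
    exact ⟨(not_DR (by
      obtain ⟨-, -, -, c, σ, e1, e2, e3, e4⟩ := hmem l hl
      have : c.lo ≤ c.hi σ := Nat.le_add_right _ _
      omega) (hmem l hl).2.2.1).1, Or.inr ⟨hd, L, hL4001, hmem⟩⟩

end Pool.Agent.NGP
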