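import Pool.Agent.NGP.KC
import Pool.Agent.NGP.K7
import Pool.Agent.NGP.K5

/-!
# NGP, part K8: links are nested
-/

namespace Pool.Agent.NGP

theorem labs_nil_of {v : List ℕ} (hv : ∀ a ∈ v, lh a = none) : labs v = [] := by
  unfold labs
  rw [List.filterMap_eq_nil_iff]
  exact hv

theorem nolabel_pow {v : List ℕ} (hv : ∀ a ∈ v, lh a = none) (m : ℕ) :
    ∀ a ∈ (List.replicate m v).flatten, lh a = none := by
  intro a ha
  obtain ⟨u, hu, ha⟩ := List.mem_flatten.1 ha
  rw [List.mem_replicate] at hu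
  rw [hu.2] at ha
  exact hv a ha

/-- Powers of a factor without label. -/
theorem cells_pow {x v z : List ℕ} {M k m : ℕ} {l f : ℕ → ℕ} (hv : ∀ a ∈ v, lh a = none)
    (hx : (labs x).length = k + 1) (hm : 1 ≤ m)
    (hc : cells (x ++ v ++ z) = (List.range M).map (fun i => (l i, f i))) :
    cells (x ++ (List.replicate m v).flatten ++ z) =
      (List.range M).map (fun i => (l i, f i + if i = k then (m - 1) * v.length else 0)) := by
  obtain ⟨m, rfl⟩ : ∃ m', m = m' + 1 := ⟨m - 1, by omega⟩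
  have h1 : x ++ (List.replicate (m + 1) v).flatten ++ z =
      (x ++ v) ++ (List.replicate m v).flatten ++ z := by
    simp [List.replicate_succ]
  rw [h1, cells_insert (nolabel_pow hv m) (by
    rw [labs_append, labs_nil_of hv, List.append_nil, hx]) hc]
  simp

/-- Pumping four factors inside runs. -/
theorem cells_four {g : ℕ} {q : ℕ → ℕ → ℕ → ℕ → Bool} {G : EG} {n : ℕ} {τ : Tr}
    (h : KS g q G n τ) {P₀ a₁ P₁ a₂ P₂ a₃ P₃ a₄ P₄ : List ℕ} {i₁ i₂ i₃ i₄ m₁ m₂ m₃ m₄ : ℕ}
    (hy : τ.y = P₀ ++ a₁ ++ P₁ ++ a₂ ++ P₂ ++ a₃ ++ P₃ ++ a₄ ++ P₄)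
    (h1 : InRun n i₁ P₀.length (P₀ ++ a₁).length)
    (h2 : InRun n i₂ (P₀ ++ a₁ ++ P₁).length (P₀ ++ a₁ ++ P₁ ++ a₂).length)
    (h3 : InRun n i₃ (P₀ ++ a₁ ++ P₁ ++ a₂ ++ P₂).length
      (P₀ ++ a₁ ++ P₁ ++ a₂ ++ P₂ ++ a₃).length)
    (h4 : InRun n i₄ (P₀ ++ a₁ ++ P₁ ++ a₂ ++ P₂ ++ a₃ ++ P₃).length
      (P₀ ++ a₁ ++ P₁ ++ a₂ ++ P₂ ++ a₃ ++ P₃ ++ a₄).length)
    (hm₁ : 1 ≤ m₁) (hm₂ : 1 ≤ m₂) (hm₃ : 1 ≤ m₃) (hm₄ : 1 ≤ m₄) :
    cells (P₀ ++ (List.replicate m₁ a₁).flatten ++ P₁ ++ (List.replicate m₂ a₂).flatten ++ P₂ ++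
      (List.replicate m₃ a₃).flatten ++ P₃ ++ (List.replicate m₄ a₄).flatten ++ P₄) =
      (List.range (KM τ)).map (fun i => (lab τ i, n +
        ((if i = i₁ then (m₁ - 1) * a₁.length else 0) +
        (if i = i₂ then (m₂ - 1) * a₂.length else 0) +
        (if i = i₃ then (m₃ - 1) * a₃.length else 0) +
        (if i = i₄ then (m₄ - 1) * a₄.length else 0)))) := by
  have hc := h.cells_eq
  obtain ⟨e1, l1⟩ := h.run (i := i₁) (x := P₀) (v := a₁)
    (z := P₁ ++ a₂ ++ P₂ ++ a₃ ++ P₃ ++ a₄ ++ P₄) (by rw [hy]; simp)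
    (by rw [← List.length_append]; exact h1)
  obtain ⟨e2, l2⟩ := h.run (i := i₂) (x := P₀ ++ a₁ ++ P₁) (v := a₂)
    (z := P₂ ++ a₃ ++ P₃ ++ a₄ ++ P₄) (by rw [hy]; simp)
    (by rw [← List.length_append]; exact h2)
  obtain ⟨e3, l3⟩ := h.run (i := i₃) (x := P₀ ++ a₁ ++ P₁ ++ a₂ ++ P₂) (v := a₃)
    (z := P₃ ++ a₄ ++ P₄) (by rw [hy]; simp)
    (by rw [← List.length_append]; exact h3)
  obtain ⟨e4, l4⟩ := h.run (i := i₄) (x := P₀ ++ a₁ ++ P₁ ++ a₂ ++ P₂ ++ a₃ ++ P₃) (v := a₄)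
    (z := P₄) (by rw [hy]) (by rw [← List.length_append]; exact h4)
  rw [hy] at hc
  -- pump one after the other
  have c1 := cells_pow (x := P₀) (v := a₁) (z := P₁ ++ a₂ ++ P₂ ++ a₃ ++ P₃ ++ a₄ ++ P₄) (m := m₁)
    e1 l1 hm₁ (by rw [← hc]; simp)
  have c2 := cells_pow (x := P₀ ++ (List.replicate m₁ a₁).flatten ++ P₁) (v := a₂)
    (z := P₂ ++ a₃ ++ P₃ ++ a₄ ++ P₄) (m := m₂) (k := i₂) e2
    (by
      rw [← l2]
      simp only [labs_append, labs_nil_of (nolabel_pow e1 m₁), labs_nil_of e1])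
    hm₂ (by rw [← c1]; simp)
  have c3 := cells_pow (x := P₀ ++ (List.replicate m₁ a₁).flatten ++ P₁ ++
      (List.replicate m₂ a₂).flatten ++ P₂) (v := a₃)
    (z := P₃ ++ a₄ ++ P₄) (m := m₃) (k := i₃) e3
    (by
      rw [← l3]
      simp only [labs_append, labs_nil_of (nolabel_pow e1 m₁), labs_nil_of e1,
        labs_nil_of (nolabel_pow e2 m₂), labs_nil_of e2])
    hm₃ (by rw [← c2]; simp)
  have c4 := cells_pow (x := P₀ ++ (List.replicate m₁ a₁).flatten ++ P₁ ++
      (List.replicate m₂ a₂).flatten ++ P₂ ++ (List.replicate m₃ a₃).flatten ++ P₃) (v := a₄)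
    (z := P₄) (m := m₄) (k := i₄) e4
    (by
      rw [← l4]
      simp only [labs_append, labs_nil_of (nolabel_pow e1 m₁), labs_nil_of e1,
        labs_nil_of (nolabel_pow e2 m₂), labs_nil_of e2,
        labs_nil_of (nolabel_pow e3 m₃), labs_nil_of e3])
    hm₄ (by rw [← c3]; simp)
  rw [c4]
  simp only [Nat.add_assoc]

/-- One of two consecutive exponents gives a value `≠ 1`. -/
theorem exp_ne {x u z v y : List ℕ} (h : fv (x ++ u ++ z ++ v ++ y) ≠ 1) (K : ℕ) :
    ∃ k, K ≤ k ∧ k ≤ K + 1 ∧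
      fv (x ++ (List.replicate k u).flatten ++ z ++ (List.replicate k v).flatten ++ y) ≠ 1 := by
  by_contra hcon
  push Not at hcon
  apply h
  have := exp_trick (hcon K (le_refl _) (by omega)) (hcon (K + 1) (by omega) (le_refl _)) 1
  simpa using this

/-- A changed cell with a label `≠ 0` whose content is unique excludes a centre. -/
theorem no_unique {q : ℕ → ℕ → ℕ → ℕ → Bool} {M n : ℕ} {l f : ℕ → ℕ} {c d : ℕ}
    (h : KpD q M l (fun i => n + f i) c d) {x : ℕ} (hx : x < M) (hl : l x ≠ 0)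
    (hu : ∀ y < M, f y = f x → y = x) : False := by
  obtain ⟨y, hy, h1, h2⟩ := h.part x hx (fun e => hl (e ▸ h.l0)) hl
  have := hu y hy (by simpa using h1)
  omega

/-- Nested loops of links that share a cell. -/
theorem nested_false {g : ℕ} {q : ℕ → ℕ → ℕ → ℕ → Bool} {G : EG} {n : ℕ} {τ : Tr}
    (h : KS g q G n τ) {i j i' j' : ℕ} {c d e d' : Cx} {σ σ' : Tr}
    (hL : LkAt n τ i j c d σ) (hL' : Lp σ e d' σ') (hu' : d'.pre ≠ [])
    (huv' : d'.pre.length = d'.post.length)
    (h1 : InRun n i' (c.lo + d.pre.length + e.lo) (c.lo + d.pre.length + e.lo + d'.pre.length))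
    (h2 : InRun n j' (c.lo + d.pre.length + e.lo + d'.pre.length + σ'.y.length)
      (c.lo + d.pre.length + e.lo + d'.pre.length + σ'.y.length + d'.post.length))
    (hdi : Deep n τ i) (hdj : Deep n τ j) (hdi' : Deep n τ i') (hdj' : Deep n τ j')
    (hij : i < j) (hij' : i' < j') (hl : lab τ i ≠ 0 ∨ lab τ j ≠ 0)
    (hs : (i = i' ∧ j' ≠ j) ∨ (j = j' ∧ i' ≠ i)) : False := by
  obtain ⟨hLp, hu, huv, hr1, hr2⟩ := hL
  have hup : 0 < d.pre.length := List.length_pos_of_ne_nil hu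
  have hup' : 0 < d'.pre.length := List.length_pos_of_ne_nil hu'
  have hσ : σ.y = e.pre ++ d'.pre ++ σ'.y ++ d'.post ++ e.post := by
    rw [hL'.1, Cx.y_fill, Cx.y_fill]; simp
  have hτ : τ.y = c.pre ++ d.pre ++ σ.y ++ d.post ++ c.post := by
    rw [hLp.1, Cx.y_fill, Cx.y_fill]; simp
  have hτ' : τ.y = c.pre ++ d.pre ++ e.pre ++ d'.pre ++ σ'.y ++ d'.post ++ e.post ++ d.post ++
      c.post := by
    rw [hτ, hσ]; simp
  have hfill := Cx.hi_fill c d σ
  have hσlen : σ.y.length = e.pre.length + d'.pre.length + σ'.y.length + d'.post.length +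
      e.post.length := by
    rw [hσ]; simp only [List.length_append]
  -- exponents
  obtain ⟨k, hk1, hk2, hk3⟩ := exp_ne (K := 2) (by rw [← hτ]; exact h.val)
  have hk4 : fv ((c.pre ++ (List.replicate k d.pre).flatten ++ e.pre) ++ d'.pre ++ σ'.y ++
      d'.post ++ (e.post ++ (List.replicate k d.post).flatten ++ c.post)) ≠ 1 := by
    intro h0
    apply hk3
    rw [← h0, hσ]
    congr 1
    simp
  obtain ⟨k', hk1', hk2', hk3'⟩ := exp_ne hk4 (3 * d.pre.length + 3)
  obtain ⟨τ', hok', hty', hy'⟩ := hLp.pump_nested h.ok hL' k k'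
  have hc := cells_four h (m₁ := k) (m₂ := k') (m₃ := k') (m₄ := k)
    (i₁ := i) (i₂ := i') (i₃ := j') (i₄ := j) hτ'
    (by simpa [Cx.lo] using hr1)
    (by
      simp only [List.length_append]
      simpa [Cx.lo] using h1)
    (by
      simp only [List.length_append]
      simpa [Cx.lo, Nat.add_assoc] using h2)
    (by
      simp only [List.length_append]
      obtain ⟨r1, r2⟩ := hr2
      rw [hfill] at r2
      simp only [Cx.lo] at r1 r2
      exact ⟨by omega, by omega⟩)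
    (by omega) (by omega) (by omega) (by omega)
  set w := c.pre ++ (List.replicate k d.pre).flatten ++ e.pre ++
    (List.replicate k' d'.pre).flatten ++ σ'.y ++
      (List.replicate k' d'.post).flatten ++ e.post ++ (List.replicate k d.post).flatten ++
      c.post with hw
  have hGw : G.L w := by
    refine ⟨τ', hok', by rw [hty', h.root], ?_⟩
    rw [hy', hw]; simp
  have hvw : fv w ≠ 1 := by
    intro h0
    apply hk3'
    rw [← h0, hw]
    congr 1
    simp
  set A := (k - 1) * d.pre.length with hA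
  set B := (k' - 1) * d'.pre.length with hB
  have hA1 : 0 < A := Nat.mul_pos (by omega) hup
  have hAle : A ≤ 2 * d.pre.length := Nat.mul_le_mul_right _ (by omega)
  have hBge : 3 * d.pre.length + 2 ≤ B := by
    calc 3 * d.pre.length + 2 ≤ k' - 1 := by omega
      _ = (k' - 1) * 1 := (mul_one _).symm
      _ ≤ B := Nat.mul_le_mul_left _ hup'
  rw [← huv, ← huv', ← hA, ← hB] at hc
  obtain ⟨m, t, hD⟩ := k_centre h hGw hvw (f := fun x =>
    (if x = i then A else 0) + (if x = i' then B else 0) + (if x = j' then B else 0) +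
      (if x = j then A else 0)) hc (by
    intro x hx
    by_cases x1 : x = i
    · rw [x1]; exact hdi
    by_cases x2 : x = i'
    · rw [x2]; exact hdi'
    by_cases x3 : x = j'
    · rw [x3]; exact hdj'
    by_cases x4 : x = j
    · rw [x4]; exact hdj
    · exact absurd (by simp [x1, x2, x3, x4]) hx)
  have key : ∀ x, (x = i ∨ x = j) → ∀ y,
      ((if y = i then A else 0) + (if y = i' then B else 0) + (if y = j' then B else 0) +
        (if y = j then A else 0)) = ((if x = i then A else 0) + (if x = i' then B else 0) +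
        (if x = j' then B else 0) + (if x = j then A else 0)) → y = x := by
    intro x hx y he
    rcases hs with ⟨s1, s2⟩ | ⟨s1, s2⟩ <;> rcases hx with hx | hx <;>
      split_ifs at he <;> omega
  rcases hl with hl | hl
  · exact no_unique hD hdi.1 hl fun y _ he => key i (Or.inl rfl) y he
  · exact no_unique hD hdj.1 hl fun y _ he => key j (Or.inr rfl) y he

/-- Disjoint loops of links. -/
theorem disjoint_false {g : ℕ} {q : ℕ → ℕ → ℕ → ℕ → Bool} {G : EG} {n : ℕ} {τ : Tr}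
    (h : KS g q G n τ) {i j i' j' : ℕ} {c d c' d' : Cx} {σ σ' : Tr}
    (hL : LkAt n τ i j c d σ) (hL' : LkAt n τ i' j' c' d' σ')
    (hdi : Deep n τ i) (hdj : Deep n τ j) (hdi' : Deep n τ i') (hdj' : Deep n τ j')
    (hij : i < j) (hij' : i' < j') (hl : lab τ i ≠ 0 ∨ lab τ j ≠ 0)
    (hl' : lab τ i' ≠ 0 ∨ lab τ j' ≠ 0) (hji : j ≤ i')
    (hdis : c.hi (d.fill σ) ≤ c'.lo) : False := by
  obtain ⟨hLp, hu, huv, hr1, hr2⟩ := hL
  obtain ⟨hLp', hu', huv', hr1', hr2'⟩ := hL'
  have hup : 0 < d.pre.length := List.length_pos_of_ne_nil hu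
  have hup' : 0 < d'.pre.length := List.length_pos_of_ne_nil hu'
  have hfill := Cx.hi_fill c d σ
  have hfill' := Cx.hi_fill c' d' σ'
  obtain ⟨E, t, D, D', hE1, hE2⟩ := disj_of (c := c) (c' := c') (σ := d.fill σ)
    (σ' := d'.fill σ') (hLp.1 ▸ hLp'.1) hdis (by omega) (by omega)
  have hl1 : Lp (D.fill (d.fill σ)) D d σ := ⟨rfl, hLp.2⟩
  have hl2 : Lp (D'.fill (d'.fill σ')) D' d' σ' := ⟨rfl, hLp'.2⟩
  have hroot : τ = E.fill (Tr.nd t (D.fill (d.fill σ)) (D'.fill (d'.fill σ'))) := by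
    rw [hLp.1, hE1, Cx.fill_comp]; rfl
  have hτ : τ.y = E.pre ++ D.pre ++ d.pre ++ σ.y ++ d.post ++ D.post ++ D'.pre ++ d'.pre ++
      σ'.y ++ d'.post ++ D'.post ++ E.post := by
    rw [hroot]
    simp only [Cx.y_fill, Tr.y]
    simp
  have hc1 : c.lo = E.pre.length + D.pre.length := by
    rw [hE1, Cx.lo_comp]; simp [Cx.lo, Cx.pre]
  have hc1' : c'.lo = E.pre.length + D.pre.length + d.pre.length + σ.y.length + d.post.length +
      D.post.length + D'.pre.length := by
    rw [hE2, Cx.lo_comp]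
    simp only [Cx.lo, Cx.pre, Cx.y_fill, List.length_append]
    omega
  -- exponents
  obtain ⟨k, hk1, hk2, hk3⟩ := exp_ne (x := E.pre ++ D.pre) (u := d.pre) (z := σ.y)
    (v := d.post) (y := D.post ++ D'.pre ++ d'.pre ++ σ'.y ++ d'.post ++ D'.post ++ E.post)
    (K := 2) (by
      have := h.val
      rw [hτ] at this
      intro h0
      apply this
      rw [← h0]
      congr 1
      simp)
  obtain ⟨k', hk1', hk2', hk3'⟩ := exp_ne (x := E.pre ++ D.pre ++
      (List.replicate k d.pre).flatten ++ σ.y ++ (List.replicate k d.post).flatten ++ D.post ++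
      D'.pre) (u := d'.pre) (z := σ'.y) (v := d'.post) (y := D'.post ++ E.post) (by
      intro h0
      apply hk3
      rw [← h0]
      congr 1
      simp) (3 * d.pre.length + 3)
  obtain ⟨τ', hok', hty', hy'⟩ := Lp.pump_disjoint (e := E) (t := t) (hroot ▸ h.ok) hl1 hl2 k k'
  have hc := cells_four h (m₁ := k) (m₂ := k) (m₃ := k') (m₄ := k')
    (i₁ := i) (i₂ := j) (i₃ := i') (i₄ := j') (P₀ := E.pre ++ D.pre) (a₁ := d.pre) (P₁ := σ.y)
    (a₂ := d.post) (P₂ := D.post ++ D'.pre) (a₃ := d'.pre) (P₃ := σ'.y) (a₄ := d'.post)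
    (P₄ := D'.post ++ E.post) (by rw [hτ]; simp)
    (by
      simp only [List.length_append]
      obtain ⟨r1, r2⟩ := hr1
      exact ⟨by omega, by omega⟩)
    (by
      simp only [List.length_append]
      obtain ⟨r1, r2⟩ := hr2
      exact ⟨by omega, by omega⟩)
    (by
      simp only [List.length_append]
      obtain ⟨r1, r2⟩ := hr1'
      exact ⟨by omega, by omega⟩)
    (by
      simp only [List.length_append]
      obtain ⟨r1, r2⟩ := hr2'
      exact ⟨by omega, by omega⟩)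
    (by omega) (by omega) (by omega) (by omega)
  set w := E.pre ++ D.pre ++ (List.replicate k d.pre).flatten ++ σ.y ++
    (List.replicate k d.post).flatten ++ (D.post ++ D'.pre) ++
      (List.replicate k' d'.pre).flatten ++ σ'.y ++ (List.replicate k' d'.post).flatten ++
      (D'.post ++ E.post) with hw
  have hGw : G.L w := by
    refine ⟨τ', hok', by rw [hty', ← hroot, h.root], ?_⟩
    rw [hy', hw]; simp
  have hvw : fv w ≠ 1 := by
    intro h0
    apply hk3'
    rw [← h0, hw]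
    congr 1
    simp
  set A := (k - 1) * d.pre.length with hA
  set B := (k' - 1) * d'.pre.length with hB
  have hA1 : 0 < A := Nat.mul_pos (by omega) hup
  have hAle : A ≤ 2 * d.pre.length := Nat.mul_le_mul_right _ (by omega)
  have hBge : 3 * d.pre.length + 2 ≤ B := by
    calc 3 * d.pre.length + 2 ≤ k' - 1 := by omega
      _ = (k' - 1) * 1 := (mul_one _).symm
      _ ≤ B := Nat.mul_le_mul_left _ hup'
  rw [← huv, ← huv', ← hA, ← hB] at hc
  obtain ⟨m, t', hD⟩ := k_centre h hGw hvw (f := fun x =>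
    (if x = i then A else 0) + (if x = j then A else 0) + (if x = i' then B else 0) +
      (if x = j' then B else 0)) hc (by
    intro x hx
    by_cases x1 : x = i
    · rw [x1]; exact hdi
    by_cases x2 : x = i'
    · rw [x2]; exact hdi'
    by_cases x3 : x = j'
    · rw [x3]; exact hdj'
    by_cases x4 : x = j
    · rw [x4]; exact hdj
    · exact absurd (by simp [x1, x2, x3, x4]) hx)
  have key : ∀ x y,
      ((if y = i then A else 0) + (if y = j then A else 0) + (if y = i' then B else 0) +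
        (if y = j' then B else 0)) = ((if x = i then A else 0) + (if x = j then A else 0) +
        (if x = i' then B else 0) + (if x = j' then B else 0)) →
      ((x = i ∨ x = j) → y = x ∨ (j < i' ∧ (y = i ∨ y = j))) ∧
      ((x = i' ∨ x = j') → y = x ∨ (j < i' ∧ (y = i' ∨ y = j'))) := by
    intro x y he
    constructor <;> intro hx <;> rcases hx with hx | hx <;> split_ifs at he <;> omega
  have s1 : i < m ∧ m < j := by
    rcases hl with hl | hl
    · obtain ⟨y, hy, e1, e2⟩ := hD.part i hdi.1 (fun e => hl (e ▸ hD.l0)) hl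
      have := (key i y (by simpa using e1)).1 (Or.inl rfl)
      omega
    · obtain ⟨y, hy, e1, e2⟩ := hD.part j hdj.1 (fun e => hl (e ▸ hD.l0)) hl
      have := (key j y (by simpa using e1)).1 (Or.inr rfl)
      omega
  have s2 : i' < m ∧ m < j' := by
    rcases hl' with hl | hl
    · obtain ⟨y, hy, e1, e2⟩ := hD.part i' hdi'.1 (fun e => hl (e ▸ hD.l0)) hl
      have := (key i' y (by simpa using e1)).2 (Or.inl rfl)
      omega
    · obtain ⟨y, hy, e1, e2⟩ := hD.part j' hdj'.1 (fun e => hl (e ▸ hD.l0)) hl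
      have := (key j' y (by simpa using e1)).2 (Or.inr rfl)
      omega
  omega

/-- (K8), with an order of the links. -/
theorem k_nested_aux {g : ℕ} {q : ℕ → ℕ → ℕ → ℕ → Bool} {G : EG} {n : ℕ} {τ : Tr}
    (h : KS g q G n τ) {i j i' j' : ℕ} (h1 : Link n τ i j) (h2 : Link n τ i' j')
    (hlt : i < i' ∨ (i = i' ∧ j' < j)) : i < i' ∧ j' < j := by
  obtain ⟨hij, hdi, hdj, hl, c, d, σ, hL⟩ := h1
  obtain ⟨hij', hdi', hdj', hl', c', d', σ', hL'⟩ := h2
  by_contra hcon
  have hL0 := hL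
  have hL0' := hL'
  obtain ⟨hLp, hu, huv, ⟨a1, a2⟩, ⟨a3, a4⟩⟩ := hL
  obtain ⟨hLp', hu', huv', ⟨b1, b2⟩, ⟨b3, b4⟩⟩ := hL'
  have hup : 0 < d.pre.length := List.length_pos_of_ne_nil hu
  have hup' : 0 < d'.pre.length := List.length_pos_of_ne_nil hu'
  have hfill := Cx.hi_fill c d σ
  have hfill' := Cx.hi_fill c' d' σ'
  have hin : τ = (c.comp d).fill σ := by rw [Cx.fill_comp]; exact hLp.1
  have hinlo : (c.comp d).lo = c.lo + d.pre.length := by rw [Cx.lo_comp]; rfl
  have hinhi : (c.comp d).hi σ = c.lo + d.pre.length + σ.y.length := by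
    show (c.comp d).lo + σ.y.length = _
    rw [hinlo]
  have mm : ∀ {x y : ℕ}, x < y → (x + 1) * (n + 1) ≤ y * (n + 1) := fun h => mul_lt_of_lt h
  -- the inner loop is inside the inner node of the outer loop
  have nest : (c.comp d).lo ≤ c'.lo → c'.hi (d'.fill σ') ≤ (c.comp d).hi σ →
      ((i = i' ∧ j' ≠ j) ∨ (j = j' ∧ i' ≠ i)) →
      ((c.comp d).lo < c'.lo ∨ c'.hi (d'.fill σ') < (c.comp d).hi σ) → False := by
    intro n1 n2 n3 n4
    obtain ⟨e, he1, he2⟩ := nested_of (c := c.comp d) (c' := c') (σ := σ) (σ' := d'.fill σ')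
      (hin ▸ hLp'.1) n1 n2 n4 (by omega)
    have hlo : c'.lo = c.lo + d.pre.length + e.lo := by rw [he1, Cx.lo_comp, hinlo]
    refine nested_false h hL0 (e := e) (d' := d') (σ' := σ') (i' := i') (j' := j') ?_ hu' huv'
      ?_ ?_ hdi hdj hdi' hdj' hij hij' hl n3
    · exact ⟨he2, hLp'.2⟩
    · rw [← hlo]; exact ⟨b1, b2⟩
    · rw [← hlo, ← hfill']; exact ⟨b3, b4⟩
  rcases hlt with hlt | ⟨rfl, hlt⟩
  · -- `i < i'`
    have f1 := mm hlt
    have hjj : j ≤ j' := by
      by_contra h0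
      exact hcon ⟨hlt, by omega⟩
    rcases Nat.lt_or_ge i' j with hi'j | hi'j
    · have f2 := mm hi'j
      rcases Nat.lt_or_ge j j' with hjj' | hjj'
      · -- crossing
        have f3 := mm hjj'
        exact no_cross (c := c) (c' := c') (σ := d.fill σ) (σ' := d'.fill σ')
          (hLp.1 ▸ hLp'.1) (by omega) (by omega) (by omega)
      · -- common right cell
        have : j = j' := by omega
        subst this
        by_cases hb : c'.hi (d'.fill σ') ≤ (c.comp d).hi σ
        · exact nest (by omega) hb (Or.inr ⟨rfl, by omega⟩) (Or.inl (by omega))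
        · exact no_cross (c := c.comp d) (c' := c') (σ := σ) (σ' := d'.fill σ')
            (hin ▸ hLp'.1) (by omega) (by omega) (by omega)
    · -- disjoint
      have hjj2 : j < j' := by omega
      have f3 := mm hjj2
      by_cases hb : c.hi (d.fill σ) ≤ c'.lo
      · exact disjoint_false h hL0 hL0' hdi hdj hdi' hdj' hij hij' hl hl' hi'j hb
      · exact no_cross (c := c) (c' := c') (σ := d.fill σ) (σ' := d'.fill σ')
          (hLp.1 ▸ hLp'.1) (by omega) (by omega) (by omega)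
  · -- common left cell
    have f1 := mm hlt
    have f2 := mm hij'
    by_cases ha : (c.comp d).lo ≤ c'.lo
    · exact nest ha (by omega) (Or.inl ⟨rfl, by omega⟩) (Or.inr (by omega))
    · exact no_cross (c := c') (c' := c.comp d) (σ := d'.fill σ') (σ' := σ)
        (hLp'.1 ▸ hin) (by omega) (by omega) (by omega)

/-- (K8) Different links are nested. -/
theorem k_nested {g : ℕ} {q : ℕ → ℕ → ℕ → ℕ → Bool} {G : EG} {n : ℕ} {τ : Tr}
    (h : KS g q G n τ) {i j i' j' : ℕ} (h1 : Link n τ i j) (h2 : Link n τ i' j') :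
    (i = i' ∧ j = j') ∨ (i < i' ∧ j' < j) ∨ (i' < i ∧ j < j') := by
  rcases lt_trichotomy i i' with hi | hi | hi
  · exact Or.inr (Or.inl (k_nested_aux h h1 h2 (Or.inl hi)))
  · rcases lt_trichotomy j j' with hj | hj | hj
    · exact Or.inr (Or.inr (k_nested_aux h h2 h1 (Or.inr ⟨hi.symm, hj⟩)))
    · exact Or.inl ⟨hi, hj⟩
    · exact Or.inr (Or.inl (k_nested_aux h h1 h2 (Or.inr ⟨hi, hj⟩)))
  · exact Or.inr (Or.inr (k_nested_aux h h2 h1 (Or.inl hi)))

end Pool.Agent.NGP
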