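import Pool.Agent.NGP.KKp

/-!
# NGP, part K: the centre lemma (K1 and K2 for changed contents of deep cells)
-/

namespace Pool.Agent.NGP

theorem lsum_ge {n : ℕ} {C : List (ℕ × ℕ)} (h : ∀ c ∈ C, n ≤ c.2) :
    C.length * (n + 1) ≤ lsum C := by
  induction C with
  | nil => simp [lsum]
  | cons c C ih =>
    have h1 := ih fun d hd => h d (List.mem_cons_of_mem _ hd)
    have h2 := h c List.mem_cons_self
    have h3 : lsum (c :: C) = c.2 + 1 + lsum C := by simp [lsum]
    have h4 : (c :: C).length * (n + 1) = C.length * (n + 1) + (n + 1) := by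
      rw [List.length_cons]; ring
    omega

theorem hsh_append (C D : List (ℕ × ℕ)) : hsh (C ++ D) = hsh C + hsh D := by
  simp [hsh]

/-- (KC) Words with the labels of `τ` and contents `n + f i`, where only deep cells are changed, and
with value `≠ 1`, have a matched violation. -/
theorem k_centre {g : ℕ} {q : ℕ → ℕ → ℕ → ℕ → Bool} {G : EG} {n : ℕ} {τ : Tr}
    (h : KS g q G n τ) {w : List ℕ} (hw : G.L w) (hv : fv w ≠ 1) {f : ℕ → ℕ}
    (hc : cells w = (List.range (KM τ)).map fun i => (lab τ i, n + f i))
    (hf : ∀ i, f i ≠ 0 → Deep n τ i) :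
    ∃ c d, KpD q (KM τ) (lab τ) (fun i => n + f i) c d := by
  have hlen : (cells w).length = KM τ := by rw [hc]; simp
  have hget' : ∀ i (hi : i < (cells w).length), (cells w)[i] = (lab τ i, n + f i) := by
    intro i hi
    simp [hc]
  have hhsh : hsh (cells w) = KH τ := by
    rw [hc, hsh_map, ← h.H_eq]
  have hall : ∀ c ∈ cells w, n ≤ c.2 := by
    intro c hcm
    rw [hc] at hcm
    obtain ⟨i, -, rfl⟩ := List.mem_map.1 hcm
    exact Nat.le_add_right _ _
  obtain ⟨hFm, hD | hK⟩ := h.hG w hw
  · exact absurd hD.fv_eq_one hv
  rcases hK with hK | hK | hK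
  · -- left anomaly
    exfalso
    obtain ⟨A, c, c', B, e, hA, hne, hsum⟩ := hK
    have hAlen : A.length + 2 + B.length = KM τ := by
      rw [← hlen, e]; simp; omega
    have h1 : c = (lab τ A.length, n + f A.length) := by
      rw [← hget' A.length (by omega)]
      simp [e]
    have h2 : c' = (lab τ (A.length + 1), n + f (A.length + 1)) := by
      rw [← hget' (A.length + 1) (by omega)]
      simp [e]
    have h3 : DL n (KH τ) (A.length + 1) := by
      rw [h1, h2] at hne
      by_cases h0 : f A.length = 0
      · have : f (A.length + 1) ≠ 0 := by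
          intro h0'
          apply hne
          simp only
          omega
        exact (hf _ this).2.1
      · have h4 := (hf _ h0).2.1
        rcases h4 with h4 | h4
        · exact Or.inl h4
        · exact Or.inr (lt_of_lt_of_le h4 (Nat.mul_le_mul_right _ (by omega)))
    have h4 : A.length * (n + 1) ≤ lsum A := lsum_ge fun c hc' => hall c (by rw [e]; simp [hc'])
    have h5 : hsh B ≤ KH τ := by
      rw [← hhsh, e, hsh_append]
      have : hsh (c :: c' :: B) = hsh ([c, c'] ++ B) := rfl
      rw [this, hsh_append]
      omega
    have h6 : 0 < A.length := List.length_pos_of_ne_nil hA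
    have h7 : 1 * (n + 1) ≤ A.length * (n + 1) := Nat.mul_le_mul_right _ h6
    rcases h3 with h3 | h3
    · omega
    · rw [Nat.add_sub_cancel] at h3
      omega
  · -- right anomaly
    exfalso
    obtain ⟨A, c, c', B, e, hB, hne, hsum⟩ := hK
    have hAlen : A.length + 2 + B.length = KM τ := by
      rw [← hlen, e]; simp; omega
    have h1 : c = (lab τ A.length, n + f A.length) := by
      rw [← hget' A.length (by omega)]
      simp [e]
    have h2 : c' = (lab τ (A.length + 1), n + f (A.length + 1)) := by
      rw [← hget' (A.length + 1) (by omega)]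
      simp [e]
    have h3 : DR n (KH τ) (KM τ) A.length := by
      rw [h1, h2] at hne
      by_cases h0 : f A.length = 0
      · have : f (A.length + 1) ≠ 0 := by
          intro h0'
          apply hne
          simp only
          omega
        have h4 := (hf _ this).2.2
        rcases h4 with h4 | h4
        · exact Or.inl h4
        · exact Or.inr (lt_of_lt_of_le h4 (Nat.mul_le_mul_right _ (by omega)))
      · exact (hf _ h0).2.2
    have h4 : B.length * (n + 1) ≤ lsum B := lsum_ge fun c hc' => hall c (by rw [e]; simp [hc'])
    have h5 : hsh A ≤ KH τ := by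
      rw [← hhsh, e, hsh_append]
      omega
    have h6 : 0 < B.length := List.length_pos_of_ne_nil hB
    have h7 : 1 * (n + 1) ≤ B.length * (n + 1) := Nat.mul_le_mul_right _ h6
    rcases h3 with h3 | h3
    · omega
    · rw [show KM τ - 2 - A.length = B.length by omega] at h3
      omega
  · rw [hc] at hK
    exact hK.data

end Pool.Agent.NGP
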