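import Pool.Agent.NGP.S1

/-!
# NGP, part K: special words are the words accepted by `dst`
-/

namespace Pool.Agent.NGP

/-- State of the automaton from the last label and the number of letters after it. -/
def sta (l k : ℕ) : ℕ := if l = 0 then 2 + 2 * k else 1 + 2 * k

/-- Not both labels are `#`. -/
def NH (a b : ℕ × ℕ) : Prop := ¬ (a.1 = 0 ∧ b.1 = 0)

theorem dst_none {n l k a : ℕ} (h : lh a = none) :
    dst n (sta l k) a = if k = n then none else some (sta l (k + 1)) := by
  have h0 : sta l k ≠ 0 := by unfold sta; split_ifs <;> omega
  have h1 : (sta l k - 1) / 2 = k := by unfold sta; split_ifs <;> omega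
  have h2 : sta l k + 2 = sta l (k + 1) := by unfold sta; split_ifs <;> omega
  unfold dst
  simp only [h, h0, h1, h2, false_or]

theorem dst_some {n l k a l' : ℕ} (h : lh a = some l') :
    dst n (sta l k) a = if k = n ∧ ¬ (l = 0 ∧ l' = 0) then some (sta l' 0) else none := by
  have h0 : sta l k ≠ 0 := by unfold sta; split_ifs <;> omega
  have h1 : (sta l k - 1) / 2 = k := by unfold sta; split_ifs <;> omega
  have h2 : (sta l k - 1) % 2 = 1 ↔ l = 0 := by unfold sta; split_ifs <;> omega
  have h3 : (if l' = 0 then 2 else 1) = sta l' 0 := by unfold sta; split_ifs <;> omega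
  unfold dst
  simp only [h, h0, h1, h2, h3, ne_eq, not_false_eq_true, true_and]
  by_cases hk : k = n
  · simp only [hk, not_true_eq_false, if_false, true_and]
    by_cases hl : l = 0 ∧ l' = 0
    · simp only [hl, and_self, if_true, not_true_eq_false, if_false]
    · simp only [hl, if_false, not_false_eq_true, if_true]
  · simp only [hk, not_false_eq_true, if_true, false_and, if_false]

theorem dst_zero {n a l' : ℕ} (h : lh a = some l') : dst n 0 a = some (sta l' 0) := by
  unfold dst sta
  simp [h]

/-- The run of the automaton from a state `sta l k`. -/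
theorem drun_iff {n : ℕ} : ∀ {w : List ℕ} {l k s : ℕ}, k ≤ n →
    (drun n (sta l k) w = some s ↔
      (cells w = [] ∧ k + lead w ≤ n ∧ s = sta l (k + lead w)) ∨
      ∃ C l' m, cells w = C ++ [(l', m)] ∧ k + lead w = n ∧ (∀ c ∈ C, c.2 = n) ∧ m ≤ n ∧
        s = sta l' m ∧ List.IsChain NH ((l, n) :: cells w))
  | [], l, k, s, hk => by
    simp only [drun, Option.some.injEq, cells, lead, Nat.add_zero, true_and]
    constructor
    · rintro rfl
      exact Or.inl ⟨hk, rfl⟩
    · rintro (⟨_, rfl⟩ | ⟨C, l', m, h, _⟩)
      · rfl
      · simp at h
  | a :: w, l, k, s, hk => by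
    rcases hl : lh a with _ | l'
    · rw [drun, dst_none hl]
      by_cases hkn : k = n
      · simp only [hkn, if_true, Option.bind_none, reduceCtorEq, false_iff, not_or, not_and,
          not_exists]
        have hlead : lead (a :: w) = lead w + 1 := by simp [lead, hl]
        refine ⟨fun _ h => by omega, fun C l' m _ h => by omega⟩
      · simp only [hkn, if_false, Option.bind_some]
        rw [drun_iff (by omega)]
        have hlead : lead (a :: w) = lead w + 1 := by simp [lead, hl]
        have hc : cells (a :: w) = cells w := by simp [cells, hl]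
        rw [hlead, hc, show k + 1 + lead w = k + (lead w + 1) by omega]
    · rw [drun, dst_some hl]
      have hlead : lead (a :: w) = 0 := by simp [lead, hl]
      have hc : cells (a :: w) = (l', lead w) :: cells w := by simp [cells, hl]
      rw [hlead, hc]
      by_cases hcond : k = n ∧ ¬ (l = 0 ∧ l' = 0)
      · simp only [hcond, not_false_eq_true, and_self, if_true, Option.bind_some]
        rw [drun_iff (Nat.zero_le n)]
        simp only [Nat.zero_add, Nat.add_zero, reduceCtorEq, false_and, false_or, true_and]
        constructor
        · rintro (⟨h1, h2, rfl⟩ | ⟨C, l'', m, h1, h2, h3, h4, rfl, h5⟩)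
          · refine ⟨[], l', lead w, by simp [h1], by simp, h2, rfl, ?_⟩
            rw [h1]
            exact List.IsChain.cons_cons hcond.2 (List.IsChain.singleton _)
          · refine ⟨(l', lead w) :: C, l'', m, by simp [h1], ?_, h4, rfl, ?_⟩
            · intro c hc
              rcases List.mem_cons.1 hc with rfl | hc
              · exact h2
              · exact h3 c hc
            · refine List.IsChain.cons_cons hcond.2 ?_
              rw [h2]
              exact h5
        · rintro ⟨C, l'', m, h1, h3, h4, rfl, h5⟩
          rcases C with _ | ⟨c, C⟩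
          · simp only [List.nil_append, List.cons.injEq, Prod.mk.injEq] at h1
            obtain ⟨⟨rfl, rfl⟩, h1⟩ := h1
            exact Or.inl ⟨h1, h4, rfl⟩
          · simp only [List.cons_append, List.cons.injEq] at h1
            obtain ⟨rfl, h1⟩ := h1
            right
            have h2 : lead w = n := h3 (l', lead w) (by simp)
            refine ⟨C, l'', m, h1, h2, fun c hc => h3 c (by simp [hc]), h4, rfl, ?_⟩
            rw [h2] at h5
            exact h5.tail
      · rw [if_neg hcond]
        simp only [Option.bind_none, reduceCtorEq, false_and, false_or,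
          false_iff, not_exists, not_and]
        intro C l'' m _ hkn _ _ _ h5
        apply hcond
        refine ⟨by omega, ?_⟩
        rw [List.isChain_cons_cons] at h5
        exact h5.1

/-- Accepted words are special and start with a label. -/
theorem sp_of_drun {n : ℕ} {w : List ℕ} {s : ℕ} (h : drun n 0 w = some s)
    (hs : s = 2 * n + 1 ∨ s = 2 * n + 2) :
    Sp n w ∧ ∃ a w', w = a :: w' ∧ lh a ≠ none := by
  rcases w with _ | ⟨a, w⟩
  · simp only [drun, Option.some.injEq] at h
    omega
  · rcases hl : lh a with _ | l
    · have : dst n 0 a = none := by simp [dst, hl]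
      simp [drun, this] at h
    · rw [drun, dst_zero hl, Option.bind_some, drun_iff (Nat.zero_le n)] at h
      have hc : cells (a :: w) = (l, lead w) :: cells w := by simp [cells, hl]
      refine ⟨?_, a, w, rfl, by simp [hl]⟩
      simp only [Nat.zero_add] at h
      rcases h with ⟨h1, h2, h3⟩ | ⟨C, l', m, h1, h2, h3, h4, h5, h6⟩
      · have : lead w = n := by
          unfold sta at h3
          split_ifs at h3 <;> omega
        refine ⟨?_, ?_⟩
        · rw [hc, h1]
          simpa using this
        · rw [hc, h1]
          exact List.IsChain.singleton _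
      · have hm : m = n := by
          unfold sta at h5
          split_ifs at h5 <;> omega
        refine ⟨?_, ?_⟩
        · intro c hcc
          rw [hc, h1] at hcc
          simp only [List.mem_cons, List.mem_append, List.not_mem_nil, or_false] at hcc
          rcases hcc with rfl | hcc | rfl
          · exact h2
          · exact h3 c hcc
          · exact hm
        · rw [hc, h2]
          exact h6

/-- Special words that start with a label are accepted. -/
theorem drun_of_sp {n : ℕ} {w : List ℕ} (h : Sp n w) (h0 : ∃ a w', w = a :: w' ∧ lh a ≠ none) :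
    ∃ s, drun n 0 w = some s ∧ (s = 2 * n + 1 ∨ s = 2 * n + 2) := by
  obtain ⟨a, w, rfl, ha⟩ := h0
  obtain ⟨l, hl⟩ := Option.ne_none_iff_exists'.1 ha
  have hc : cells (a :: w) = (l, lead w) :: cells w := by simp [cells, hl]
  obtain ⟨h1, h2⟩ := h
  rw [hc] at h1 h2
  have hlead : lead w = n := h1 (l, lead w) (by simp)
  rw [drun, dst_zero hl, Option.bind_some]
  have hs : ∀ l', sta l' n = 2 * n + 1 ∨ sta l' n = 2 * n + 2 := by
    intro l'
    unfold sta
    split_ifs <;> omega
  rcases List.eq_nil_or_concat (cells w) with h3 | ⟨C, c, h3⟩
  · refine ⟨sta l n, ?_, hs l⟩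
    rw [drun_iff (Nat.zero_le n)]
    left
    exact ⟨h3, by omega, by rw [hlead, Nat.zero_add]⟩
  · rw [List.concat_eq_append] at h3
    refine ⟨sta c.1 n, ?_, hs _⟩
    rw [drun_iff (Nat.zero_le n)]
    right
    have hcn : c.2 = n := h1 c (by simp [h3])
    refine ⟨C, c.1, n, ?_, by omega, fun c' hc' => h1 c' (by simp [h3, hc']), le_refl _, rfl, ?_⟩
    · rw [h3, ← hcn]
    · rw [hlead] at h2
      exact h2

end Pool.Agent.NGP
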