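import Pool.Agent.NGP.KDefs
import Pool.Agent.NGP.S2

/-!
# NGP, part K: insertion of letters without label
-/

namespace Pool.Agent.NGP

theorem cells_length (w : List ℕ) : (cells w).length = (labs w).length := by
  rw [labs_eq, List.length_map]

theorem addl_snoc (n : ℕ) (C : List (ℕ × ℕ)) (b m : ℕ) :
    addl n (C ++ [(b, m)]) = C ++ [(b, m + n)] := by
  rw [addl_append (by simp)]
  rfl

/-- The cells of a word that is followed by a label. -/
theorem cells_append_label {u w : List ℕ} (h : w = [] ∨ ∃ a w', w = a :: w' ∧ lh a ≠ none) :
    cells (u ++ w) = cells u ++ cells w := by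
  have h0 : lead w = 0 := by
    rcases h with rfl | ⟨a, w', rfl, ha⟩
    · rfl
    · exact lead_cons_label ha
  rw [cells_append, h0, addl_zero]

theorem range_get (M i : ℕ) : (List.range M)[i]? = if i < M then some i else none := by
  by_cases h : i < M
  · rw [if_pos h, List.getElem?_range h]
  · rw [if_neg h, List.getElem?_eq_none_iff, List.length_range]
    omega

/-- Letters without label are inserted after `k + 1` labels: the content of the cell `k`
increases. -/
theorem cells_insert {x v z : List ℕ} {M k : ℕ} {l f : ℕ → ℕ} (hv : ∀ a ∈ v, lh a = none)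
    (hx : (labs x).length = k + 1)
    (hc : cells (x ++ z) = (List.range M).map (fun i => (l i, f i))) :
    cells (x ++ v ++ z) =
      (List.range M).map (fun i => (l i, f i + if i = k then v.length else 0)) := by
  have hlen : (cells x).length = k + 1 := by rw [cells_length, hx]
  obtain ⟨C, c, hC⟩ : ∃ C c, cells x = C ++ [c] := by
    rcases List.eq_nil_or_concat (cells x) with h | ⟨C, c, h⟩
    · rw [h] at hlen; simp at hlen
    · exact ⟨C, c, by rw [h, List.concat_eq_append]⟩
  obtain ⟨b, m⟩ := c
  have hCk : C.length = k := by
    rw [hC] at hlen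
    simpa using hlen
  have e1 : cells (x ++ z) = C ++ (b, m + lead z) :: cells z := by
    rw [cells_append, hC, addl_snoc]
    simp
  have e2 : cells (x ++ v ++ z) = C ++ (b, m + (v.length + lead z)) :: cells z := by
    rw [List.append_assoc, cells_append, hC, addl_snoc, lead_append_of hv,
      cells_append_nolabel hv]
    simp
  rw [e1] at hc
  rw [e2]
  apply List.ext_getElem?
  intro i
  have hi := congrArg (fun L => L[i]?) hc
  simp only [List.getElem?_map, List.getElem?_append, List.getElem?_cons, hCk] at hi ⊢
  rw [range_get] at hi ⊢
  rcases lt_trichotomy i k with h | h | h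
  · rw [if_pos h] at hi ⊢
    rw [hi]
    have hne : i ≠ k := by omega
    by_cases hM : i < M
    · simp [hM, hne]
    · simp [hM]
  · subst h
    simp only [lt_irrefl, if_false, Nat.sub_self, if_true] at hi ⊢
    by_cases hM : i < M
    · simp only [hM, if_true, Option.map_some, Option.some.injEq, Prod.mk.injEq] at hi ⊢
      refine ⟨hi.1, ?_⟩
      omega
    · simp [hM] at hi
  · have h1 : ¬ i < k := by omega
    have h2 : i - k ≠ 0 := by omega
    rw [if_neg h1, if_neg h2] at hi ⊢
    rw [hi]
    have hne : i ≠ k := by omega
    by_cases hM : i < M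
    · simp [hM, hne]
    · simp [hM]

end Pool.Agent.NGP
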