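import Pool.Agent.NGP.KKp

/-!
# NGP, part K: exclusion of anomalies (K2) and the centre of pumped words
-/

namespace Pool.Agent.NGP

theorem KeR.reverse {C : List (ℕ × ℕ)} (h : KeR C) : KeL C.reverse := by
  obtain ⟨A, c, c', B, rfl, h1, h2, h3⟩ := h
  refine ⟨B.reverse, c', c, A.reverse, by simp, by simpa using h1, fun h => h2 h.symm, ?_⟩
  have e1 : lsum B.reverse = lsum B := by
    unfold lsum
    rw [List.map_reverse, List.sum_reverse]
  have e2 : hsh A.reverse = hsh A := by
    unfold hsh
    rw [List.countP_reverse]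
  rw [e1, e2]
  exact h3

theorem hsh_app (C D : List (ℕ × ℕ)) : hsh (C ++ D) = hsh C + hsh D := by
  simp [hsh]

theorem hsh_reverse (C : List (ℕ × ℕ)) : hsh C.reverse = hsh C := by
  unfold hsh
  rw [List.countP_reverse]

theorem hsh_cons_le (c : ℕ × ℕ) (C : List (ℕ × ℕ)) : hsh C ≤ hsh (c :: C) := by
  unfold hsh
  rw [List.countP_cons]
  omega

theorem lsum_cons (c : ℕ × ℕ) (C : List (ℕ × ℕ)) : lsum (c :: C) = c.2 + 1 + lsum C := by
  simp [lsum]

theorem lsum_ge_of {n : ℕ} {C : List (ℕ × ℕ)} (h : ∀ c ∈ C, n ≤ c.2) :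
    C.length * (n + 1) ≤ lsum C := by
  induction C with
  | nil => simp
  | cons c C ih =>
    have h1 := ih (fun c hc => h c (by simp [hc]))
    have h2 := h c (by simp)
    rw [lsum_cons, List.length_cons]
    nlinarith

theorem lsum_take_le (k : ℕ) (C : List (ℕ × ℕ)) : lsum (C.take k) ≤ lsum C := by
  conv_rhs => rw [← List.take_append_drop k C, lsum_append]
  omega

/-- No left anomaly if the word agrees with the constant content before a DL cell. -/
theorem not_KeL {C : List (ℕ × ℕ)} {n H i : ℕ} (h1 : hsh C ≤ 5 * H)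
    (h2 : ∀ x ∈ C.take i, x.2 = n) (h3 : ∀ x ∈ C.take 1, n ≤ x.2) (h4 : DL n H i) :
    ¬ KeL C := by
  rintro ⟨A, c, c', B, rfl, hA, hne, hle⟩
  have hB : hsh B ≤ 5 * H := by
    refine le_trans ?_ h1
    rw [hsh_app]
    have := hsh_cons_le c (c' :: B)
    have := hsh_cons_le c' B
    omega
  rcases h4 with h4 | h4
  · rcases A with _ | ⟨a, A⟩
    · exact hA rfl
    · have := h3 a (by simp)
      rw [lsum_cons] at hle
      omega
  · have hi : i ≤ A.length + 1 := by
      by_contra hcon
      push Not at hcon
      apply hne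
      have e : (A ++ c :: c' :: B).take i = A ++ c :: c' :: B.take (i - A.length - 2) := by
        rw [List.take_append, List.take_of_length_le (by omega),
          show i - A.length = (i - A.length - 2) + 1 + 1 by omega]
        simp
      rw [h2 c (by rw [e]; simp), h2 c' (by rw [e]; simp)]
    have h5 : ∀ x ∈ A.take (i - 1), x.2 = n := by
      intro x hx
      apply h2
      rw [List.take_append, List.mem_append]
      left
      exact List.take_subset_take_left A (by omega) hx
    have h6 := lsum_const h5
    rw [List.length_take, Nat.min_eq_left (by omega)] at h6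
    have := lsum_take_le (i - 1) A
    omega

/-- No right anomaly if the word agrees with the constant content after a DR cell (the last
`M - 1 - i` cells). -/
theorem not_KeR {C : List (ℕ × ℕ)} {n H M i : ℕ} (h1 : hsh C ≤ 5 * H)
    (h2 : ∀ x ∈ C.reverse.take (M - 1 - i), x.2 = n) (h3 : ∀ x ∈ C.reverse.take 1, n ≤ x.2)
    (h4 : DR n H M i) : ¬ KeR C := by
  intro h
  refine not_KeL (H := H) (by rw [hsh_reverse]; exact h1) h2 h3 ?_ h.reverse
  rcases h4 with h4 | h4
  · exact Or.inl h4
  · right
    rw [show M - 1 - i - 1 = M - 2 - i by omega]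
    exact h4

variable {g : ℕ} {q : ℕ → ℕ → ℕ → ℕ → Bool} {G : EG} {n : ℕ} {τ : Tr}

/-- Words of value `≠ 1` of the grammar have garbage. -/
theorem KS.garbage (h : KS g q G n τ) {w : List ℕ} (hw : G.L w) (hv : fv w ≠ 1) :
    KeL (cells w) ∨ KeR (cells w) ∨ Kp q (cells w) := by
  rcases (h.hG w hw).2 with h1 | h1
  · exact absurd h1.fv_eq_one hv
  · exact h1

/-- If only the contents of deep cells have changed, there is a matched violation. -/
theorem KS.kp (h : KS g q G n τ) {w : List ℕ} {f : ℕ → ℕ} (hw : G.L w) (hv : fv w ≠ 1)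
    (hc : cells w = (List.range (KM τ)).map (fun i => (lab τ i, n + f i)))
    (hf : ∀ i < KM τ, f i ≠ 0 → Deep n τ i) : Kp q (cells w) := by
  set F : ℕ → ℕ × ℕ := fun i => (lab τ i, n + f i) with hF
  have hH : hsh (cells w) = KH τ := by
    rw [hc, hF, hsh_map, h.H_eq]
  -- a differing pair
  have key : ∀ A c c' B, cells w = A ++ c :: c' :: B → c.2 ≠ c'.2 →
      KM τ = A.length + 2 + B.length ∧ A.length * (n + 1) ≤ lsum A ∧
      B.length * (n + 1) ≤ lsum B ∧ hsh A ≤ KH τ ∧ hsh B ≤ KH τ ∧
      (Deep n τ A.length ∨ Deep n τ (A.length + 1)) := by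
    intro A c c' B hC hne
    have hlen : KM τ = A.length + 2 + B.length := by
      have := congrArg List.length hC
      rw [hc] at this
      simp only [List.length_map, List.length_range, List.length_append, List.length_cons] at this
      omega
    have hge : ∀ x ∈ cells w, n ≤ x.2 := by
      intro x hx
      rw [hc, List.mem_map] at hx
      obtain ⟨i, _, rfl⟩ := hx
      simp [hF]
    have hget : ∀ i < KM τ, (cells w)[i]? = some (F i) := by
      intro i hi
      rw [hc, List.getElem?_map, range_get, if_pos hi]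
      rfl
    have e1 : c = F A.length := by
      have := hget A.length (by omega)
      rw [hC, List.getElem?_append_right (le_refl _), Nat.sub_self] at this
      simpa using this
    have e2 : c' = F (A.length + 1) := by
      have := hget (A.length + 1) (by omega)
      rw [hC, List.getElem?_append_right (by omega)] at this
      simpa using this
    have hs : hsh (cells w) = hsh A + hsh (c :: c' :: B) := by rw [hC, hsh_app]
    have hs1 := hsh_cons_le c (c' :: B)
    have hs2 := hsh_cons_le c' B
    refine ⟨hlen, lsum_ge_of fun x hx => hge x (by rw [hC]; simp [hx]),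
      lsum_ge_of fun x hx => hge x (by rw [hC]; simp [hx]), by omega, by omega, ?_⟩
    by_cases h0 : f A.length = 0
    · right
      apply hf _ (by omega)
      intro h1
      apply hne
      rw [e1, e2]
      simp [hF, h0, h1]
    · left
      exact hf _ (by omega) h0
  rcases h.garbage hw hv with h1 | h1 | h1
  · exfalso
    obtain ⟨A, c, c', B, hC, hA, hne, hle⟩ := h1
    obtain ⟨k1, k2, k3, k4, k5, k6⟩ := key A c c' B hC hne
    have hA' : 1 ≤ A.length := by
      rcases A with _ | ⟨a, A⟩
      · exact absurd rfl hA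
      · simp
    have h7 : n + 1 ≤ A.length * (n + 1) := Nat.le_mul_of_pos_left _ hA'
    have h8 : (A.length - 1) * (n + 1) ≤ A.length * (n + 1) := Nat.mul_le_mul_right _ (by omega)
    rcases k6 with k6 | k6
    · rcases k6.2.1 with k7 | k7 <;> omega
    · rcases k6.2.1 with k7 | k7
      · omega
      · rw [show A.length + 1 - 1 = A.length by omega] at k7
        omega
  · exfalso
    obtain ⟨A, c, c', B, hC, hB, hne, hle⟩ := h1
    obtain ⟨k1, k2, k3, k4, k5, k6⟩ := key A c c' B hC hne
    have hB' : 1 ≤ B.length := by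
      rcases B with _ | ⟨a, B⟩
      · exact absurd rfl hB
      · simp
    have h7 : n + 1 ≤ B.length * (n + 1) := Nat.le_mul_of_pos_left _ hB'
    have h8 : (B.length - 1) * (n + 1) ≤ B.length * (n + 1) := Nat.mul_le_mul_right _ (by omega)
    rcases k6 with k6 | k6
    · rcases k6.2.2 with k7 | k7
      · omega
      · rw [show KM τ - 2 - A.length = B.length by omega] at k7
        omega
    · rcases k6.2.2 with k7 | k7
      · omega
      · rw [show KM τ - 2 - (A.length + 1) = B.length - 1 by omega] at k7
        omega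
  · exact h1

/-- The centre: every cell with label `≠ 0` has a partner on the other side. -/
theorem KS.centre (h : KS g q G n τ) {w : List ℕ} {f : ℕ → ℕ} (hw : G.L w) (hv : fv w ≠ 1)
    (hc : cells w = (List.range (KM τ)).map (fun i => (lab τ i, n + f i)))
    (hf : ∀ i < KM τ, f i ≠ 0 → Deep n τ i) :
    ∃ k < KM τ, lab τ k = 0 ∧ ∀ i < KM τ, i ≠ k → lab τ i ≠ 0 →
      ∃ j < KM τ, f j = f i ∧ ((i < k ∧ k < j) ∨ (j < k ∧ k < i)) := by
  have h1 := h.kp hw hv hc hf
  rw [hc] at h1
  obtain ⟨c, d, hD⟩ := h1.data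
  refine ⟨c, hD.hc, hD.l0, ?_⟩
  intro i hi hne h0
  obtain ⟨j, hj, h2, h3⟩ := hD.part i hi hne h0
  exact ⟨j, hj, by simpa using h2, h3⟩

end Pool.Agent.NGP
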