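import Pool.Agent.NGP.KFour

/-!
# NGP, part K: combinatorics of links (K9-K14)
-/

namespace Pool.Agent.NGP

/-- Deep cells. -/
def DpA (n M H i : ℕ) : Prop := i < M ∧ DL n H i ∧ DR n H M i

/-- Systems of links. -/
structure LS (q : ℕ → ℕ → ℕ → ℕ → Bool) (n M H : ℕ) (lb : ℕ → ℕ) (Lk : ℕ → ℕ → Prop)
    (Bd : ℕ → Prop) : Prop where
  hn : 2 ^ 14 ≤ n
  hM : 5 ≤ M
  l0 : lb 0 = 1
  l1 : lb 1 = 1
  lM1 : lb (M - 1) = 1
  lM2 : lb (M - 2) = 1
  adj : ∀ i, i + 1 < M → ¬ (lb i = 0 ∧ lb (i + 1) = 0)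
  hH : H = ((Finset.range M).filter fun i => lb i = 0).card
  lt : ∀ i j, Lk i j → i < j ∧ DpA n M H i ∧ DpA n M H j ∧ (lb i ≠ 0 ∨ lb j ≠ 0)
  nest : ∀ i j i' j', Lk i j → Lk i' j' →
    (i = i' ∧ j = j') ∨ (i < i' ∧ j' < j) ∨ (i' < i ∧ j < j')
  out : ∀ i j b, Lk i j → Bd b → ¬ (i < b ∧ b < j)
  linked : ∀ i, DpA n M H i → lb i ≠ 0 →
    (∃ j, Lk i j ∨ Lk j i) ∨ (n + 1 ≤ 5 * H ∧ Bd i)
  few : ∀ S : Finset ℕ, (∀ i ∈ S, Bd i) → 4000 * S.card ≤ 30 * H
  kp : ∀ i j, Lk i j → ∃ a, 0 < a ∧ Kp q ((List.range M).map (fun x => (lb x,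
      n + if x = i ∨ x = j then a else 0)))

/-- There are not two adjacent zeros: at most half of the cells are zeros. -/
theorem hash_le {lb : ℕ → ℕ} (a : ℕ) : ∀ k : ℕ,
    (∀ i, a ≤ i → i + 1 < a + k → ¬ (lb i = 0 ∧ lb (i + 1) = 0)) →
    ((Finset.Ico a (a + k)).filter fun i => lb i = 0).card ≤ (k + 1) / 2
  | 0, _ => by simp
  | 1, _ => by
    refine le_trans (Finset.card_filter_le _ _) ?_
    simp
  | k + 2, h => by
    have ih := hash_le a k (fun i h1 h2 => h i h1 (by omega))
    have e : Finset.Ico a (a + (k + 2)) = Finset.Ico a (a + k) ∪ {a + k, a + k + 1} := by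
      ext x
      simp only [Finset.mem_union, Finset.mem_Ico, Finset.mem_insert, Finset.mem_singleton]
      omega
    rw [e, Finset.filter_union]
    have h2 : (Finset.filter (fun i => lb i = 0) {a + k, a + k + 1}).card ≤ 1 := by
      have h3 := h (a + k) (by omega) (by omega)
      by_cases h4 : lb (a + k) = 0
      · have h5 : lb (a + k + 1) ≠ 0 := fun h5 => h3 ⟨h4, h5⟩
        rw [Finset.filter_insert, if_pos h4, Finset.filter_singleton, if_neg h5]
        simp
      · rw [Finset.filter_insert, if_neg h4]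
        refine le_trans (Finset.card_filter_le _ _) ?_
        simp
    have h3 := Finset.card_union_le
      ((Finset.Ico a (a + k)).filter fun i => lb i = 0)
      (Finset.filter (fun i => lb i = 0) {a + k, a + k + 1})
    omega

theorem hash_add {lb : ℕ → ℕ} (S : Finset ℕ) :
    (S.filter fun i => lb i = 0).card + (S.filter fun i => lb i ≠ 0).card = S.card :=
  Finset.card_filter_add_card_filter_not _

variable {q : ℕ → ℕ → ℕ → ℕ → Bool} {n M H : ℕ} {lb : ℕ → ℕ} {Lk : ℕ → ℕ → Prop}
  {Bd : ℕ → Prop}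

theorem LS.hash (h : LS q n M H lb Lk Bd) (a b : ℕ) (hb : b ≤ M) :
    ((Finset.Ico a b).filter fun i => lb i = 0).card ≤ (b - a + 1) / 2 := by
  rcases Nat.lt_or_ge b a with h1 | h1
  · rw [Finset.Ico_eq_empty (by omega)]
    simp
  · obtain ⟨k, rfl⟩ := Nat.exists_eq_add_of_le h1
    have := hash_le (lb := lb) a k (fun i h1 h2 => h.adj i (by omega))
    rw [show a + k - a = k by omega]
    exact this

/-- Many cells with label `≠ 0`: one of them is linked. -/
theorem LS.good (h : LS q n M H lb Lk Bd) (S : Finset ℕ) (hS : ∀ i ∈ S, i < M ∧ lb i ≠ 0)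
    (hc : 2 * (5 * H / (n + 1)) + 4 + 30 * H / 4000 < S.card) :
    ∃ i ∈ S, DpA n M H i ∧ ∃ j, Lk i j ∨ Lk j i := by
  classical
  by_contra hcon
  push Not at hcon
  set X := 5 * H / (n + 1) with hX
  have h1 : ∀ i, ¬ DL n H i → i ≤ X + 1 := by
    intro i hi
    unfold DL at hi
    push Not at hi
    have : i - 1 ≤ X := by
      rw [hX, Nat.le_div_iff_mul_le (by omega)]
      exact hi.2
    omega
  have h2 : ∀ i, ¬ DR n H M i → M ≤ i + X + 2 := by
    intro i hi
    unfold DR at hi
    push Not at hi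
    have : M - 2 - i ≤ X := by
      rw [hX, Nat.le_div_iff_mul_le (by omega)]
      exact hi.2
    omega
  have h3 : S ⊆ (Finset.range (X + 2) ∪ Finset.Ico (M - (X + 2)) M) ∪ S.filter Bd := by
    intro i hi
    have hiS := hS i hi
    simp only [Finset.mem_union, Finset.mem_range, Finset.mem_Ico, Finset.mem_filter]
    by_cases hd : DpA n M H i
    · right
      refine ⟨hi, ?_⟩
      rcases h.linked i hd hiS.2 with ⟨j, hj⟩ | hj
      · rcases hj with hj | hj
        · exact absurd hj (hcon i hi hd j).1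
        · exact absurd hj (hcon i hi hd j).2
      · exact hj.2
    · left
      unfold DpA at hd
      by_cases h4 : DL n H i
      · have h5 : ¬ DR n H M i := fun h5 => hd ⟨hiS.1, h4, h5⟩
        have := h2 i h5
        right
        omega
      · have := h1 i h4
        left
        omega
  have h4 := Finset.card_le_card h3
  have h5 := Finset.card_union_le (Finset.range (X + 2) ∪ Finset.Ico (M - (X + 2)) M) (S.filter Bd)
  have h6 := Finset.card_union_le (Finset.range (X + 2)) (Finset.Ico (M - (X + 2)) M)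
  rw [Finset.card_range, Nat.card_Ico] at h6
  have h7 := h.few (S.filter Bd) (fun i hi => (Finset.mem_filter.1 hi).2)
  have h8 : (S.filter Bd).card ≤ 30 * H / 4000 := by
    rw [Nat.le_div_iff_mul_le (by norm_num)]
    omega
  omega

/-- Bound of the number of exceptions. -/
theorem LS.exc (h : LS q n M H lb Lk Bd) (h5 : n + 1 ≤ 5 * H) :
    3000 ≤ H ∧ 100 * (5 * H / (n + 1)) ≤ H := by
  have hn := h.hn
  have e : (2 : ℕ) ^ 14 = 16384 := by norm_num
  rw [e] at hn
  refine ⟨by omega, ?_⟩
  have h1 : 5 * H / (n + 1) * (n + 1) ≤ 5 * H := Nat.div_mul_le_self _ _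
  have h2 : 5 * H / (n + 1) * 500 ≤ 5 * H / (n + 1) * (n + 1) := Nat.mul_le_mul_left _ (by omega)
  omega

/-- (K9) There is a link. -/
theorem LS.exists_link (h : LS q n M H lb Lk Bd) : ∃ i j, Lk i j := by
  have hM := h.hM
  by_cases h5 : n + 1 ≤ 5 * H
  · obtain ⟨hH1, hH2⟩ := h.exc h5
    have h1 := h.hash 0 M le_rfl
    rw [← Finset.range_eq_Ico, ← h.hH] at h1
    have h2 := hash_add (lb := lb) (Finset.range M)
    rw [← h.hH, Finset.card_range] at h2
    obtain ⟨i, _, _, j, hj⟩ := h.good ((Finset.range M).filter fun i => lb i ≠ 0) (by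
      intro i hi
      simp only [Finset.mem_filter, Finset.mem_range] at hi
      exact hi) (by omega)
    rcases hj with hj | hj
    · exact ⟨i, j, hj⟩
    · exact ⟨j, i, hj⟩
  · rcases h.linked 1 ⟨by omega, Or.inl (by omega), Or.inl (by omega)⟩
      (by rw [h.l1]; omega) with ⟨j, hj⟩ | hj
    · rcases hj with hj | hj
      · exact ⟨1, j, hj⟩
      · exact ⟨j, 1, hj⟩
    · exact absurd hj.1 h5

theorem DpA.between {i j x : ℕ} (hi : DpA n M H i) (hj : DpA n M H j) (h1 : i ≤ x) (h2 : x ≤ j) :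
    DpA n M H x :=
  ⟨by have := hj.1; omega, hi.2.1.mono h1, hj.2.2.mono h2⟩

/-- A cell of label `≠ 0` strictly inside a link is linked. -/
theorem LS.inside (h : LS q n M H lb Lk Bd) {i j x : ℕ} (hl : Lk i j) (h1 : i < x) (h2 : x < j)
    (h0 : lb x ≠ 0) : ∃ y, Lk x y ∨ Lk y x := by
  obtain ⟨hij, hi, hj, _⟩ := h.lt i j hl
  rcases h.linked x (hi.between hj h1.le h2.le) h0 with h3 | h3
  · exact h3
  · exact absurd ⟨h1, h2⟩ (h.out i j x hl h3.2)

/-- (K10) The innermost link. -/
theorem LS.centre (h : LS q n M H lb Lk Bd) :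
    ∃ c d f, KpD q M lb f c d ∧ Lk (c - 1) (c + 1) := by
  classical
  -- a link of minimal length
  have hex : ∃ k, ∃ i, Lk i (i + k) := by
    obtain ⟨i, j, hl⟩ := h.exists_link
    exact ⟨j - i, i, by rw [show i + (j - i) = j by have := (h.lt i j hl).1; omega]; exact hl⟩
  obtain ⟨i, hl⟩ := Nat.find_spec hex
  have hmin : ∀ i' j', Lk i' j' → Nat.find hex ≤ j' - i' := by
    intro i' j' hl'
    apply Nat.find_min'
    exact ⟨i', by rw [show i' + (j' - i') = j' by have := (h.lt i' j' hl').1; omega]; exact hl'⟩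
  set k := Nat.find hex with hk
  obtain ⟨hij, hi, hj, h0⟩ := h.lt _ _ hl
  -- the cells between are hashes
  have hb : ∀ x, i < x → x < i + k → lb x = 0 := by
    intro x h1 h2
    by_contra h3
    obtain ⟨y, hy | hy⟩ := h.inside hl h1 h2 h3
    · have h4 := h.nest _ _ _ _ hl hy
      have h5 := hmin _ _ hy
      have h6 := (h.lt _ _ hy).1
      omega
    · have h4 := h.nest _ _ _ _ hl hy
      have h5 := hmin _ _ hy
      have h6 := (h.lt _ _ hy).1
      omega
  obtain ⟨a, ha, hK⟩ := h.kp _ _ hl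
  obtain ⟨c, d, hD⟩ := hK.data
  -- the centre is between
  have hc : i < c ∧ c < i + k := by
    rcases h0 with h0 | h0
    · have hne : i ≠ c := fun h1 => h0 (by rw [h1]; exact hD.l0)
      obtain ⟨y, hy, h1, h2⟩ := hD.part i hi.1 hne h0
      have hyi : y ≠ i := by omega
      simp only [true_or, if_true, hyi, false_or] at h1
      split_ifs at h1 with h3
      · omega
      · omega
    · have hne : i + k ≠ c := fun h1 => h0 (by rw [h1]; exact hD.l0)
      obtain ⟨y, hy, h1, h2⟩ := hD.part (i + k) hj.1 hne h0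
      have hyi : y ≠ i + k := by omega
      simp only [or_true, if_true, hyi, or_false] at h1
      split_ifs at h1 with h3
      · omega
      · omega
  have hjM := hj.1
  have e1 : i = c - 1 := by
    by_contra h1
    have h2 := h.adj (c - 1) (by omega)
    apply h2
    refine ⟨hb _ (by omega) (by omega), ?_⟩
    rw [show c - 1 + 1 = c by omega]
    exact hD.l0
  have e2 : i + k = c + 1 := by
    by_contra h1
    exact h.adj c (by omega) ⟨hD.l0, hb _ (by omega) (by omega)⟩
  exact ⟨c, d, _, hD, by rw [← e1, ← e2]; exact hl⟩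

/-- All links are around the centre. -/
theorem LS.around (h : LS q n M H lb Lk Bd) {c : ℕ} (h1 : 1 ≤ c) (hc : Lk (c - 1) (c + 1))
    {i j : ℕ} (hl : Lk i j) : i < c ∧ c < j := by
  have h2 := h.nest _ _ _ _ hc hl
  have h3 := (h.lt _ _ hl).1
  omega

/-- (K11) Margin. -/
theorem LS.margin (h : LS q n M H lb Lk Bd) {c d : ℕ} {f : ℕ → ℕ} (hD : KpD q M lb f c d) :
    2 * H ≤ 3 * (c - d) + 5 ∧ 2 * H ≤ 3 * (M - 1 - c - d) + 5 := by
  have hcM := hD.hc
  have h1 := hD.dl
  have h2 := hD.dr
  -- hashes left and right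
  have hA : ((Finset.range c).filter fun i => lb i = 0).card ≤ (c - d + 1) / 2 := by
    have e : ((Finset.range c).filter fun i => lb i = 0) =
        ((Finset.Ico 0 (c - d)).filter fun i => lb i = 0) := by
      ext x
      simp only [Finset.mem_filter, Finset.mem_range, Finset.mem_Ico]
      constructor
      · rintro ⟨h3, h4⟩
        refine ⟨⟨by omega, ?_⟩, h4⟩
        by_contra h5
        have := (hD.two (c - x) (by omega) (by omega)).1
        rw [show c - (c - x) = x by omega, h4] at this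
        omega
      · rintro ⟨h3, h4⟩
        exact ⟨by omega, h4⟩
    rw [e]
    have := h.hash 0 (c - d) (by omega)
    simpa using this
  have hB : ((Finset.Ico (c + 1) M).filter fun i => lb i = 0).card ≤
      (M - 1 - c - d + 1) / 2 := by
    have e : ((Finset.Ico (c + 1) M).filter fun i => lb i = 0) =
        ((Finset.Ico (c + d + 1) M).filter fun i => lb i = 0) := by
      ext x
      simp only [Finset.mem_filter, Finset.mem_Ico]
      constructor
      · rintro ⟨h3, h4⟩
        refine ⟨⟨?_, h3.2⟩, h4⟩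
        by_contra h5
        have := (hD.two (x - c) (by omega) (by omega)).2
        rw [show c + (x - c) = x by omega, h4] at this
        omega
      · rintro ⟨h3, h4⟩
        exact ⟨by omega, h4⟩
    rw [e]
    have := h.hash (c + d + 1) M le_rfl
    rw [show M - (c + d + 1) + 1 = M - 1 - c - d + 1 by omega] at this
    exact this
  have hH : H = ((Finset.range c).filter fun i => lb i = 0).card + 1 +
      ((Finset.Ico (c + 1) M).filter fun i => lb i = 0).card := by
    rw [h.hH]
    have e : Finset.range M = Finset.range c ∪ ({c} ∪ Finset.Ico (c + 1) M) := by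
      ext x
      simp only [Finset.mem_union, Finset.mem_range, Finset.mem_Ico, Finset.mem_singleton]
      omega
    rw [e, Finset.filter_union, Finset.filter_union, Finset.card_union_of_disjoint,
      Finset.card_union_of_disjoint, Finset.filter_singleton, if_pos hD.l0]
    · simp only [Finset.card_singleton]
      omega
    · rw [Finset.disjoint_left]
      intro x hx hx'
      simp only [Finset.mem_filter, Finset.mem_singleton, Finset.mem_Ico] at hx hx'
      omega
    · rw [Finset.disjoint_left]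
      intro x hx hx'
      simp only [Finset.mem_filter, Finset.mem_singleton, Finset.mem_Ico, Finset.mem_range,
        Finset.mem_union] at hx hx'
      omega
  have h3 := hash_add (lb := lb) (Finset.range c)
  have h4 := hash_add (lb := lb) (Finset.Ico (c + 1) M)
  rw [Finset.card_range] at h3
  rw [Nat.card_Ico] at h4
  have h5 := hD.cntl
  have h6 := hD.cntr
  omega

/-- (K12) The cells near the zone are linked. -/
theorem LS.near (h : LS q n M H lb Lk Bd) {c d : ℕ} {f : ℕ → ℕ} (hD : KpD q M lb f c d)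
    (hc : Lk (c - 1) (c + 1)) {i : ℕ} (hi : i < M) (h0 : lb i ≠ 0) (h1 : c ≤ i + d + 4)
    (h2 : i ≤ c + d + 4) : ∃ j, Lk i j ∨ Lk j i := by
  have hcM := hD.hc
  have hd1 := hD.dl
  have hd2 := hD.dr
  by_cases h5 : n + 1 ≤ 5 * H
  · obtain ⟨hH1, hH2⟩ := h.exc h5
    obtain ⟨hm1, hm2⟩ := h.margin hD
    -- linked cells left and right
    have hL := h.hash 0 (c - d - 4) (by omega)
    rw [← Finset.range_eq_Ico] at hL
    have hL2 := hash_add (lb := lb) (Finset.range (c - d - 4))
    rw [Finset.card_range] at hL2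
    obtain ⟨i₀, hi₀, hdi₀, j, hj⟩ := h.good ((Finset.range (c - d - 4)).filter fun i => lb i ≠ 0)
      (by
        intro i hi
        simp only [Finset.mem_filter, Finset.mem_range] at hi
        exact ⟨by omega, hi.2⟩) (by omega)
    have hR := h.hash (c + d + 5) M le_rfl
    have hR2 := hash_add (lb := lb) (Finset.Ico (c + d + 5) M)
    rw [Nat.card_Ico] at hR2
    obtain ⟨j₀, hj₀, hdj₀, j', hj'⟩ := h.good ((Finset.Ico (c + d + 5) M).filter fun i => lb i ≠ 0)
      (by
        intro i hi
        simp only [Finset.mem_filter, Finset.mem_Ico] at hi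
        exact ⟨by omega, hi.2⟩) (by omega)
    simp only [Finset.mem_filter, Finset.mem_range, Finset.mem_Ico] at hi₀ hj₀
    have hic : i ≠ c := fun h3 => h0 (by rw [h3]; exact hD.l0)
    rcases lt_or_gt_of_ne hic with h3 | h3
    · rcases hj with hj | hj
      · have := h.around (by omega) hc hj
        exact h.inside hj (by omega) (by omega) h0
      · have := h.around (by omega) hc hj
        omega
    · rcases hj' with hj' | hj'
      · have := h.around (by omega) hc hj'
        omega
      · have := h.around (by omega) hc hj'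
        exact h.inside hj' (by omega) (by omega) h0
  · rcases h.linked i ⟨hi, Or.inl (by omega), Or.inl (by omega)⟩ h0 with h3 | h3
    · exact h3
    · exact absurd h3.1 h5

/-- (K13) The zone is linked symmetrically. -/
theorem LS.zone (h : LS q n M H lb Lk Bd) {c d : ℕ} {f : ℕ → ℕ} (hD : KpD q M lb f c d)
    (hc : Lk (c - 1) (c + 1)) : ∀ t, 1 ≤ t → t ≤ d → Lk (c - t) (c + t) := by
  have hcM := hD.hc
  have hd1 := hD.dl
  have hd2 := hD.dr
  intro t
  induction t with
  | zero => intro h1; omega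
  | succ t ih =>
    intro _ h2
    rcases Nat.eq_zero_or_pos t with h3 | h3
    · subst h3
      exact hc
    · have hl := ih h3 (by omega)
      have h4 := hD.two (t + 1) (by omega) h2
      obtain ⟨x, hx⟩ := h.near hD hc (i := c - (t + 1)) (by omega) (by omega) (by omega) (by omega)
      obtain ⟨y, hy⟩ := h.near hD hc (i := c + (t + 1)) (by omega) (by omega) (by omega) (by omega)
      have hx' : Lk (c - (t + 1)) x := by
        rcases hx with hx | hx
        · exact hx
        · have := h.around (by omega) hc hx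
          omega
      have hy' : Lk y (c + (t + 1)) := by
        rcases hy with hy | hy
        · have := h.around (by omega) hc hy
          omega
        · exact hy
      have h5 := h.nest _ _ _ _ hl hx'
      have h6 := h.nest _ _ _ _ hl hy'
      have h7 := h.nest _ _ _ _ hx' hy'
      have h8 : x = c + (t + 1) := by omega
      rw [← h8]
      exact hx'

/-- (K14) Staircase. -/
theorem LS.stair (h : LS q n M H lb Lk Bd) {c d : ℕ} {f : ℕ → ℕ} (hD : KpD q M lb f c d)
    (hc : Lk (c - 1) (c + 1)) {i j : ℕ} (hl : Lk i j) (h1 : c ≤ i + d + 2) (h2 : j ≤ c + d + 2)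
    (h3 : 1 ≤ i) (h4 : j + 2 ≤ M) :
    ∃ i' j', Lk i' j' ∧ i' < i ∧ i ≤ i' + 2 ∧ j < j' ∧ j' ≤ j + 2 := by
  have hd1 := hD.dl
  have hd2 := hD.dr
  have hij := h.around (by omega) hc hl
  -- the next cells of label `≠ 0`
  obtain ⟨x, hx1, hx2, hx3⟩ : ∃ x, x < i ∧ i ≤ x + 2 ∧ lb x ≠ 0 := by
    by_cases h5 : lb (i - 1) = 0
    · have h6 : i ≠ 1 := by
        intro h7
        rw [h7] at h5
        simp only [Nat.sub_self, h.l0] at h5
        omega
      refine ⟨i - 2, by omega, by omega, ?_⟩
      intro h7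
      apply h.adj (i - 2) (by omega)
      rw [show i - 2 + 1 = i - 1 by omega]
      exact ⟨h7, h5⟩
    · exact ⟨i - 1, by omega, by omega, h5⟩
  obtain ⟨y, hy1, hy2, hy3, hy4⟩ : ∃ y, j < y ∧ y ≤ j + 2 ∧ lb y ≠ 0 ∧ y < M := by
    by_cases h5 : lb (j + 1) = 0
    · have h6 : j + 2 ≠ M := by
        intro h7
        have := h.lM1
        rw [show M - 1 = j + 1 by omega, h5] at this
        omega
      refine ⟨j + 2, by omega, by omega, ?_, by omega⟩
      intro h7
      exact h.adj (j + 1) (by omega) ⟨h5, h7⟩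
    · exact ⟨j + 1, by omega, by omega, h5, by omega⟩
  obtain ⟨x', hx'⟩ := h.near hD hc (i := x) (by omega) hx3 (by omega) (by omega)
  obtain ⟨y', hy'⟩ := h.near hD hc (i := y) hy4 hy3 (by omega) (by omega)
  have hxx : Lk x x' := by
    rcases hx' with hx' | hx'
    · exact hx'
    · have := h.around (by omega) hc hx'
      omega
  have hyy : Lk y' y := by
    rcases hy' with hy' | hy'
    · have := h.around (by omega) hc hy'
      omega
    · exact hy'
  have h5 := h.nest _ _ _ _ hl hxx
  have h6 := h.nest _ _ _ _ hl hyy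
  have h7 := h.nest _ _ _ _ hxx hyy
  by_cases h8 : x' ≤ y
  · exact ⟨x, x', hxx, hx1, hx2, by omega, by omega⟩
  · exact ⟨y', y, hyy, by omega, by omega, hy1, hy2⟩

/-- The result of the combinatorial part: the centre `c`, the zone of length `d`, two links
outside. -/
theorem LS.main (h : LS q n M H lb Lk Bd) : ∃ c d f i₁ j₁ i₂ j₂, KpD q M lb f c d ∧
    (∀ t, 1 ≤ t → t ≤ d → Lk (c - t) (c + t)) ∧
    Lk i₁ j₁ ∧ i₁ + d + 1 ≤ c ∧ c + d + 1 ≤ j₁ ∧ j₁ ≤ c + d + 2 ∧
    Lk i₂ j₂ ∧ i₂ + d + 2 ≤ c ∧ c ≤ i₂ + d + 4 ∧ c + d + 2 ≤ j₂ ∧ j₂ ≤ c + d + 4 := by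
  obtain ⟨c, d, f, hD, hc⟩ := h.centre
  have hz := h.zone hD hc
  have hd1 := hD.dl
  have hd2 := hD.dr
  -- the cells of rank `d + 1` are not end cells
  have hl : c - (d + 1) ≠ 0 := fun h1 => hD.vl (by rw [h1]; exact h.l0)
  have hl2 : c - (d + 1) ≠ 1 := fun h1 => hD.vl (by rw [h1]; exact h.l1)
  have hr : c + (d + 1) ≠ M - 1 := fun h1 => hD.vr (by rw [h1]; exact h.lM1)
  have hr2 : c + (d + 1) ≠ M - 2 := fun h1 => hD.vr (by rw [h1]; exact h.lM2)
  -- the first link outside the zone
  obtain ⟨i₁, j₁, hl₁, a1, a2, a3, a4⟩ : ∃ i₁ j₁, Lk i₁ j₁ ∧ i₁ + d + 1 ≤ c ∧ c ≤ i₁ + d + 2 ∧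
      c + d + 1 ≤ j₁ ∧ j₁ ≤ c + d + 2 := by
    rcases Nat.eq_zero_or_pos d with h0 | h0
    · exact ⟨c - 1, c + 1, hc, by omega, by omega, by omega, by omega⟩
    · obtain ⟨i', j', h1, h2, h3, h4, h5⟩ := h.stair hD hc (hz d h0 le_rfl) (by omega)
        (by omega) (by omega) (by omega)
      exact ⟨i', j', h1, by omega, by omega, by omega, by omega⟩
  obtain ⟨i', j', h1, h2, h3, h4, h5⟩ := h.stair hD hc hl₁ (by omega)
    (by omega) (by omega) (by omega)
  exact ⟨c, d, f, i₁, j₁, i', j', hD, hz, hl₁, a1, a3, a4, h1, by omega, by omega, by omega,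
    by omega⟩

end Pool.Agent.NGP
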