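import Pool.Agent.NGP.T3
import Pool.Agent.NGP.V2

/-!
# NGP, part K: definitions for the trees of special words

`τ` is an ok root tree of a special word `W = τ.y` with value `≠ 1`; the cell `i` of `W` occupies
the positions `i (n + 1), ..., (i + 1) (n + 1) - 1`, its label is at position `i (n + 1)`, its run is
the rest. Ends `a`, `b` of intervals `[a, b)` of positions.
-/

namespace Pool.Agent.NGP

/-- The setting of part K. -/
structure KS (g : ℕ) (q : ℕ → ℕ → ℕ → ℕ → Bool) (G : EG) (n : ℕ) (τ : Tr) : Prop where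
  hG : ∀ w, G.L w → LQ g q w
  ok : τ.ok G
  root : τ.ty = G.st
  sp : Sp n τ.y
  val : fv τ.y ≠ 1
  big : 2 ^ (G.N + 14) * (G.N + 1) ≤ n

/-- Number of cells. -/
def KM (τ : Tr) : ℕ := (cells τ.y).length

/-- Number of `#`-cells. -/
def KH (τ : Tr) : ℕ := hsh (cells τ.y)

/-- Label of the cell `i`. -/
def lab (τ : Tr) (i : ℕ) : ℕ := ((cells τ.y).getD i (0, 0)).1

/-- The cells before the cell `i - 1` have more than `5 H` letters (or one cell has). -/
def DL (n H i : ℕ) : Prop := 5 * H < n + 1 ∨ 5 * H < (i - 1) * (n + 1)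

/-- The cells after the cell `i + 1` have more than `5 H` letters (or one cell has). -/
def DR (n H M i : ℕ) : Prop := 5 * H < n + 1 ∨ 5 * H < (M - 2 - i) * (n + 1)

/-- Deep cells. -/
def Deep (n : ℕ) (τ : Tr) (i : ℕ) : Prop :=
  i < KM τ ∧ DL n (KH τ) i ∧ DR n (KH τ) (KM τ) i

/-- The interval of positions `[a, b)` is inside the run of the cell `i`. -/
def InRun (n i a b : ℕ) : Prop := i * (n + 1) + 1 ≤ a ∧ b ≤ (i + 1) * (n + 1)

/-- A loop with nonempty effect of equal lengths inside the runs of the cells `i` and `j`. -/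
def LkAt (n : ℕ) (τ : Tr) (i j : ℕ) (c d : Cx) (σ : Tr) : Prop :=
  Lp τ c d σ ∧ d.pre ≠ [] ∧ d.pre.length = d.post.length ∧
    InRun n i c.lo (c.lo + d.pre.length) ∧
    InRun n j (c.lo + d.pre.length + σ.y.length) (c.hi (d.fill σ))

/-- Linked cells `i < j`. -/
def Link (n : ℕ) (τ : Tr) (i j : ℕ) : Prop :=
  i < j ∧ Deep n τ i ∧ Deep n τ j ∧ (lab τ i ≠ 0 ∨ lab τ j ≠ 0) ∧ ∃ c d σ, LkAt n τ i j c d σ

/-- `l` is the left end of a node which is not DL and whose right end is in the run of the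
cell `i`. -/
def RBn (n : ℕ) (τ : Tr) (i l : ℕ) : Prop :=
  l < 15 * KH τ ∧ ¬ DL n (KH τ) (l / (n + 1)) ∧
    ∃ c σ, τ = Cx.fill c σ ∧ c.lo = l ∧ i * (n + 1) + 1 ≤ c.hi σ ∧ c.hi σ < (i + 1) * (n + 1)

/-- Right bad cells. -/
def RBad (n : ℕ) (τ : Tr) (i : ℕ) : Prop :=
  Deep n τ i ∧ ∃ S : Finset ℕ, 4001 ≤ S.card ∧ ∀ l ∈ S, RBn n τ i l

/-- `r` is the right end of a node which is not DR and whose left end is in the run of the
cell `i`. -/
def LBn (n : ℕ) (τ : Tr) (i r : ℕ) : Prop :=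
  τ.y.length - r < 15 * KH τ ∧ r ≤ τ.y.length ∧ ¬ DR n (KH τ) (KM τ) ((r - 1) / (n + 1)) ∧
    ∃ c σ, τ = Cx.fill c σ ∧ c.hi σ = r ∧ i * (n + 1) + 1 ≤ c.lo ∧ c.lo ≤ (i + 1) * (n + 1)

/-- Left bad cells. -/
def LBad (n : ℕ) (τ : Tr) (i : ℕ) : Prop :=
  Deep n τ i ∧ ∃ S : Finset ℕ, 4001 ≤ S.card ∧ ∀ r ∈ S, LBn n τ i r

end Pool.Agent.NGP
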