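import Pool.Agent.NGP.KWildL

/-!
# NGP, part K: loops with one part inside the run of a deep cell are links (K4)
-/

namespace Pool.Agent.NGP

variable {g : ℕ} {q : ℕ → ℕ → ℕ → ℕ → Bool} {G : EG} {n : ℕ} {τ : Tr}

theorem DL.mono {n H i j : ℕ} (h : DL n H i) (hij : i ≤ j) : DL n H j := by
  rcases h with h | h
  · exact Or.inl h
  · right
    have := Nat.mul_le_mul_right (n + 1) (by omega : i - 1 ≤ j - 1)
    omega

theorem DR.mono {n H M i j : ℕ} (h : DR n H M i) (hij : j ≤ i) : DR n H M j := by
  rcases h with h | h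
  · exact Or.inl h
  · right
    have := Nat.mul_le_mul_right (n + 1) (by omega : M - 2 - i ≤ M - 2 - j)
    omega

/-- (K4) A loop with the second part inside the run of the deep cell `i` of label `≠ 0`, the first
part starts in a DL cell: it is a link. -/
theorem KS.k4R (h : KS g q G n τ) {c d : Cx} {σ : Tr} (hL : Lp τ c d σ) {i : ℕ}
    (hi : Deep n τ i) (hl : lab τ i ≠ 0) (hpost : d.post ≠ [])
    (hrun : InRun n i (c.lo + d.pre.length + σ.y.length) (c.hi (d.fill σ)))
    (hleft : c.lo + d.pre.length ≤ i * (n + 1)) (hDL : DL n (KH τ) (c.lo / (n + 1))) :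
    Link n τ (c.lo / (n + 1)) i := by
  have hlab := h.wildR hL hi hl hpost hrun hDL
  have hpre : d.pre ≠ [] := by
    intro h0
    exact hpost (h.k3 hi hl hL (Or.inl h0) (Or.inr hrun)).2
  have hpos : 0 < d.pre.length := List.length_pos_iff.2 hpre
  have hy := hL.y_eq
  have h1 := h.labs_pre (x := c.pre) (z := d.pre ++ σ.y ++ d.post ++ c.post)
    (by rw [hy]; simp [List.append_assoc])
  have h2 := h.labs_pre (x := c.pre ++ d.pre) (z := σ.y ++ d.post ++ c.post)
    (by rw [hy]; simp [List.append_assoc])
  rw [labs_append, hlab, List.append_nil, h1, List.length_append] at h2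
  set L := c.pre.length with hLdef
  have hlo : c.lo = L := rfl
  set k := L / (n + 1) with hk
  have hk1 : k * (n + 1) ≤ L := Nat.div_mul_le_self _ _
  have hk2 : L < (k + 1) * (n + 1) := Nat.lt_mul_of_div_lt (by omega) (by omega)
  have hrunL : InRun n k c.lo (c.lo + d.pre.length) := by
    rw [hlo]
    unfold InRun
    have e1 : (k + 1) * (n + 1) = k * (n + 1) + (n + 1) := by ring
    have e2 : (k + 2) * (n + 1) = k * (n + 1) + 2 * (n + 1) := by ring
    by_cases h3 : L = k * (n + 1)
    · exfalso
      have h4 : (L + n) / (n + 1) = k := Nat.div_eq_of_lt_le (by omega) (by omega)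
      have h5 : k + 1 ≤ (L + d.pre.length + n) / (n + 1) := by
        rw [Nat.le_div_iff_mul_le (by omega)]
        omega
      omega
    · have h4 : (L + n) / (n + 1) = k + 1 := Nat.div_eq_of_lt_le (by omega) (by
        show L + n < (k + 1 + 1) * (n + 1)
        rw [show k + 1 + 1 = k + 2 by omega]
        omega)
      have h5 : L + d.pre.length + n < (k + 2) * (n + 1) := by
        rw [h4] at h2
        exact Nat.lt_mul_of_div_lt (by omega) (by omega)
      omega
  have hki : k < i := by
    by_contra hcon
    push Not at hcon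
    have := Nat.mul_le_mul_right (n + 1) hcon
    omega
  have hdk : Deep n τ k := ⟨by have := hi.1; omega, by rw [hk, ← hlo]; exact hDL,
    hi.2.2.mono hki.le⟩
  refine ⟨hki, hdk, hi, Or.inr hl, c, d, σ, hL, hpre, ?_, hrunL, hrun⟩
  obtain ⟨m, hm, hK⟩ := h.loop_centre hL (Or.inr hrunL) (Or.inr hrun) hdk hi
  obtain ⟨e, e', hD⟩ := hK.data
  have hne : i ≠ e := by
    intro h3
    rw [h3] at hl
    exact hl hD.l0
  obtain ⟨j, hj, h3, h4⟩ := hD.part i hi.1 hne hl
  have hji : j ≠ i := by omega
  have hik : i ≠ k := by omega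
  simp only [hji, hik, if_false, if_true] at h3
  by_cases hjk : j = k
  · simp only [hjk, if_true] at h3
    have h5 : m * d.pre.length = m * d.post.length := by omega
    exact Nat.eq_of_mul_eq_mul_left hm h5
  · exfalso
    simp only [hjk, if_false] at h3
    have h5 : m * d.post.length = 0 := by omega
    rw [Nat.mul_eq_zero, List.length_eq_zero_iff] at h5
    rcases h5 with h5 | h5
    · omega
    · exact hpost h5

/-- (K4) Mirror case. -/
theorem KS.k4L (h : KS g q G n τ) {c d : Cx} {σ : Tr} (hL : Lp τ c d σ) {i : ℕ}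
    (hi : Deep n τ i) (hl : lab τ i ≠ 0) (hpre : d.pre ≠ [])
    (hrun : InRun n i c.lo (c.lo + d.pre.length))
    (hright : (i + 1) * (n + 1) ≤ c.lo + d.pre.length + σ.y.length)
    (hDR : DR n (KH τ) (KM τ) ((c.hi (d.fill σ) - 1) / (n + 1))) :
    Link n τ i ((c.hi (d.fill σ) - 1) / (n + 1)) := by
  have hlab := h.wildL hL hi hl hpre hrun hDR
  have hpost : d.post ≠ [] := by
    intro h0
    exact hpre (h.k3 hi hl hL (Or.inr hrun) (Or.inl h0)).1
  have hpos : 0 < d.post.length := List.length_pos_iff.2 hpost
  have hy := hL.y_eq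
  have h1 := h.labs_pre (x := c.pre ++ d.pre ++ σ.y) (z := d.post ++ c.post)
    (by rw [hy]; simp [List.append_assoc])
  have h2 := h.labs_pre (x := c.pre ++ d.pre ++ σ.y ++ d.post) (z := c.post) hy
  rw [labs_append, hlab, List.append_nil, h1, List.length_append (as := c.pre ++ d.pre ++ σ.y)
    (bs := d.post)] at h2
  set R := (c.pre ++ d.pre ++ σ.y).length with hRdef
  have hR' : R = c.lo + d.pre.length + σ.y.length := by
    rw [hRdef]
    simp only [List.length_append, Cx.lo]
  have hhi : c.hi (d.fill σ) = R + d.post.length := by rw [Cx.hi_fill_eq, hR']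
  rw [hhi] at hDR ⊢
  set k := (R + d.post.length - 1) / (n + 1) with hk
  have hk1 : k * (n + 1) ≤ R + d.post.length - 1 := Nat.div_mul_le_self _ _
  have hk2 : R + d.post.length - 1 < (k + 1) * (n + 1) := Nat.lt_mul_of_div_lt (by omega) (by omega)
  have e1 : (k + 1) * (n + 1) = k * (n + 1) + (n + 1) := by ring
  have e2 : (k + 2) * (n + 1) = k * (n + 1) + 2 * (n + 1) := by ring
  have hrunR : InRun n k (c.lo + d.pre.length + σ.y.length) (c.hi (d.fill σ)) := by
    rw [hhi, ← hR']
    unfold InRun
    have h4 : (R + d.post.length + n) / (n + 1) = k + 1 := Nat.div_eq_of_lt_le (by omega) (by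
      show R + d.post.length + n < (k + 1 + 1) * (n + 1)
      rw [show k + 1 + 1 = k + 2 by omega]
      omega)
    rw [h4] at h2
    have h5 : (k + 1) * (n + 1) ≤ R + n := by
      rw [← Nat.le_div_iff_mul_le (by omega), h2]
    omega
  have hlen := h.length
  have hlen2 : R + d.post.length ≤ τ.y.length := by
    rw [hy, List.length_append, List.length_append]
    omega
  have hki : i < k := by
    by_contra hcon
    push Not at hcon
    have := Nat.mul_le_mul_right (n + 1) (by omega : k + 1 ≤ i + 1)
    omega
  have hkM : k < KM τ := by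
    by_contra hcon
    push Not at hcon
    have := Nat.mul_le_mul_right (n + 1) hcon
    omega
  have hdk : Deep n τ k := ⟨hkM, hi.2.1.mono hki.le, hDR⟩
  refine ⟨hki, hi, hdk, Or.inl hl, c, d, σ, hL, hpre, ?_, hrun, hrunR⟩
  obtain ⟨m, hm, hK⟩ := h.loop_centre hL (Or.inr hrun) (Or.inr hrunR) hi hdk
  obtain ⟨e, e', hD⟩ := hK.data
  have hne : i ≠ e := by
    intro h3
    rw [h3] at hl
    exact hl hD.l0
  obtain ⟨j, hj, h3, h4⟩ := hD.part i hi.1 hne hl
  have hji : j ≠ i := by omega
  have hik : i ≠ k := by omega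
  simp only [hji, hik, if_false, if_true] at h3
  by_cases hjk : j = k
  · simp only [hjk, if_true] at h3
    have h5 : m * d.pre.length = m * d.post.length := by omega
    exact Nat.eq_of_mul_eq_mul_left hm h5
  · exfalso
    simp only [hjk, if_false] at h3
    have h5 : m * d.pre.length = 0 := by omega
    rw [Nat.mul_eq_zero, List.length_eq_zero_iff] at h5
    rcases h5 with h5 | h5
    · omega
    · exact hpre h5

/-- Pumping a link: a matched violation in the word in which the contents of the linked cells have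
increased by the same number. -/
theorem KS.link_kp (h : KS g q G n τ) {i j : ℕ} (hl : Link n τ i j) :
    ∃ a, 0 < a ∧ Kp q ((List.range (KM τ)).map (fun x => (lab τ x,
      n + if x = i ∨ x = j then a else 0))) := by
  obtain ⟨hij, hi, hj, h0, c, d, σ, hL, hpre, hlen, h1, h2⟩ := hl
  obtain ⟨k, hk, hK⟩ := h.loop_centre hL (Or.inr h1) (Or.inr h2) hi hj
  refine ⟨k * d.pre.length, Nat.mul_pos hk (List.length_pos_iff.2 hpre), ?_⟩
  have : (List.range (KM τ)).map (fun x => (lab τ x,
      n + if x = i ∨ x = j then k * d.pre.length else 0)) =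
      (List.range (KM τ)).map (fun x => (lab τ x,
      n + ((if x = i then k * d.pre.length else 0) +
        (if x = j then k * d.post.length else 0)))) := by
    apply List.map_congr_left
    intro x _
    rw [← hlen]
    by_cases h3 : x = i
    · have h4 : x ≠ j := by omega
      simp only [h3, true_or, if_true]
      have : i ≠ j := by omega
      simp [this]
    · simp [h3]
  rw [this]
  exact hK

end Pool.Agent.NGP
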