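import Pool.Agent.NGP.KT2

/-!
# NGP, part K: scanning of centres (K16), violations found by `inf`
-/

namespace Pool.Agent.NGP

theorem adv_cons_cons {q : ℕ → ℕ → ℕ → ℕ → Bool} (a b c d : ℕ) (X Y : List ℕ) :
    adv q (a :: b :: X) (c :: d :: Y) =
      if b = 1 ∨ d = 1 then Adv.dead
      else if q a b c d = true then
        (if b = 0 ∨ d = 0 then Adv.dead else adv q (b :: X) (d :: Y))
      else Adv.viol := by
  rw [adv]

theorem adv_single_left {q : ℕ → ℕ → ℕ → ℕ → Bool} (a : ℕ) (Y : List ℕ) :
    adv q [a] Y = Adv.alive [a] Y := by
  simp [adv]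

theorem adv_single_right {q : ℕ → ℕ → ℕ → ℕ → Bool} (c : ℕ) (X : List ℕ) :
    adv q X [c] = Adv.alive X [c] := by
  rcases X with _ | ⟨a, _ | ⟨b, X⟩⟩ <;> simp [adv]

/-- Extension of the lists after an alive comparison. -/
theorem adv_ext {q : ℕ → ℕ → ℕ → ℕ → Bool} : ∀ {X Y : List ℕ}, X ≠ [] → Y ≠ [] → ∀ (u v : List ℕ),
    (∀ x y, adv q X Y = Adv.alive x y → adv q (X ++ u) (Y ++ v) = adv q (x ++ u) (y ++ v) ∧
      X.length + y.length = Y.length + x.length ∧ x ≠ [] ∧ y ≠ []) ∧
    (adv q X Y = Adv.viol → adv q (X ++ u) (Y ++ v) = Adv.viol) ∧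
    (adv q X Y = Adv.dead → adv q (X ++ u) (Y ++ v) = Adv.dead) := by
  intro X
  induction X with
  | nil => intro Y h; exact absurd rfl h
  | cons a X ih =>
    intro Y _ hY u v
    obtain ⟨c, Y, rfl⟩ := List.exists_cons_of_ne_nil hY
    rcases X with _ | ⟨b, X⟩
    · rw [adv_single_left]
      refine ⟨?_, by simp, by simp⟩
      intro x y h
      simp only [Adv.alive.injEq] at h
      obtain ⟨rfl, rfl⟩ := h
      exact ⟨rfl, by simp; omega, by simp, by simp⟩
    · rcases Y with _ | ⟨d, Y⟩
      · rw [adv_single_right]
        refine ⟨?_, by simp, by simp⟩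
        intro x y h
        simp only [Adv.alive.injEq] at h
        obtain ⟨rfl, rfl⟩ := h
        exact ⟨rfl, by simp; omega, by simp, by simp⟩
      · simp only [List.cons_append]
        rw [adv_cons_cons, adv_cons_cons]
        split_ifs with h1 h2 h3
        · simp
        · simp
        · obtain ⟨i1, i2, i3⟩ := ih (Y := d :: Y) (by simp) (by simp) u v
          refine ⟨?_, i2, i3⟩
          intro x y h
          obtain ⟨j1, j2, j3⟩ := i1 x y h
          refine ⟨j1, ?_, j3⟩
          simp only [List.length_cons] at j2 ⊢
          omega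
        · simp

/-! ## Short label lists -/

/-- `inf` is the list of labels if it is short. -/
theorem inf_S {q : ℕ → ℕ → ℕ → ℕ → Bool} (σ : Tr) :
    (∀ u, inf q σ = some (Inf.S u) → u = labs σ.y) ∧
      ∀ L, inf q σ = some (Inf.B L) → 8 < (labs σ.y).length := by
  induction σ with
  | ep t =>
    refine ⟨?_, ?_⟩
    · intro u h
      simp only [inf, Option.some.injEq, Inf.S.injEq] at h
      rw [← h]
      rfl
    · intro L h
      simp [inf] at h
  | lf t a =>
    refine ⟨?_, ?_⟩
    · intro u h
      simp only [inf, Option.some.injEq, Inf.S.injEq] at h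
      rw [← h]
      rcases hl : lh a with _ | l <;> simp [labs, Tr.y, hl]
    · intro L h
      simp [inf] at h
  | nd t l r ihl ihr =>
    have hlab : labs (Tr.nd t l r).y = labs l.y ++ labs r.y := labs_append _ _
    rw [hlab]
    rcases hl : inf q l with _ | (u₁ | L₁) <;> rcases hr : inf q r with _ | (u₂ | L₂)
    · simp [inf, hl, hr, comb]
    · simp [inf, hl, hr, comb]
    · simp [inf, hl, hr, comb]
    · simp [inf, hl, hr, comb]
    · have e1 := ihl.1 _ hl
      have e2 := ihr.1 _ hr
      subst e1 e2
      simp only [inf, hl, hr, comb, Option.map_eq_some_iff]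
      refine ⟨?_, ?_⟩
      · rintro u ⟨L, h1, h2⟩
        split_ifs at h2 with h3
        simp only [Inf.S.injEq] at h2
        exact h2.symm
      · rintro L' ⟨L, h1, h2⟩
        split_ifs at h2 with h3
        omega
    · have e2 := ihr.2 _ hr
      simp only [inf, hl, hr, comb, Option.map_eq_some_iff]
      refine ⟨?_, ?_⟩
      · rintro u ⟨L, h1, h2⟩
        simp at h2
      · rintro L' _
        simp only [List.length_append]
        omega
    · simp [inf, hl, hr, comb]
    · have e2 := ihl.2 _ hl
      simp only [inf, hl, hr, comb, Option.map_eq_some_iff]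
      refine ⟨?_, ?_⟩
      · rintro u ⟨L, h1, h2⟩
        simp at h2
      · rintro L' _
        simp only [List.length_append]
        omega
    · have e2 := ihl.2 _ hl
      simp only [inf, hl, hr, comb]
      refine ⟨?_, ?_⟩
      · intro u h
        simp at h
      · rintro L' _
        simp only [List.length_append]
        omega

theorem fil_some_mem {A : List Adv} {L : List (List ℕ × List ℕ)} (h : fil A = some L)
    {x y : List ℕ} (hm : Adv.alive x y ∈ A) (ht : tight x y = true) : (x, y) ∈ L := by
  induction A generalizing L with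
  | nil => simp at hm
  | cons a A ih =>
    rcases a with _ | _ | ⟨x', y'⟩
    · simp [fil] at h
    · simp only [fil] at h
      exact ih h (by simpa using hm)
    · simp only [fil, Option.map_eq_some_iff] at h
      obtain ⟨L', h1, h2⟩ := h
      rcases List.mem_cons.1 hm with hm | hm
      · simp only [Adv.alive.injEq] at hm
        obtain ⟨rfl, rfl⟩ := hm
        rw [← h2, if_pos ht]
        simp
      · have := ih h1 hm
        rw [← h2]
        split_ifs
        · exact List.mem_cons_of_mem _ this
        · exact this

theorem fil_viol {A : List Adv} (h : Adv.viol ∈ A) : fil A = none := by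
  induction A with
  | nil => simp at h
  | cons a A ih =>
    rcases a with _ | _ | ⟨x', y'⟩
    · rfl
    · simp only [fil]
      exact ih (by simpa using h)
    · simp only [fil]
      rw [ih (by simpa using h)]
      rfl

theorem fil_none {A : List Adv} (h : fil A = none) : Adv.viol ∈ A := by
  induction A with
  | nil => simp [fil] at h
  | cons a A ih =>
    rcases a with _ | _ | ⟨x', y'⟩
    · simp
    · simp only [fil] at h
      exact List.mem_cons_of_mem _ (ih h)
    · simp only [fil, Option.map_eq_none_iff] at h
      exact List.mem_cons_of_mem _ (ih h)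

theorem mem_censS {q : ℕ → ℕ → ℕ → ℕ → Bool} (s : List ℕ) : ∀ (w p : List ℕ),
    adv q (0 :: (w.reverse ++ p)) (0 :: s) ∈ cens q p (w ++ 0 :: s) := by
  intro w
  induction w with
  | nil => intro p; simp [cens]
  | cons a w ih =>
    intro p
    have h := ih (a :: p)
    have e : (a :: w).reverse ++ p = w.reverse ++ a :: p := by simp
    rw [e]
    simp only [List.cons_append, cens]
    split_ifs
    · exact List.mem_cons_of_mem _ h
    · exact h

theorem of_mem_censS {q : ℕ → ℕ → ℕ → ℕ → Bool} {r : Adv} : ∀ {w p : List ℕ},
    r ∈ cens q p w → ∃ p' s, w = p' ++ 0 :: s ∧ adv q (0 :: (p'.reverse ++ p)) (0 :: s) = r := by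
  intro w
  induction w with
  | nil => intro p h; simp [cens] at h
  | cons a w ih =>
    intro p h
    simp only [cens] at h
    have key : r ∈ cens q (a :: p) w →
        ∃ p' s, a :: w = p' ++ 0 :: s ∧ adv q (0 :: (p'.reverse ++ p)) (0 :: s) = r := by
      intro h
      obtain ⟨p', s, h1, h2⟩ := ih h
      refine ⟨a :: p', s, by rw [h1]; rfl, ?_⟩
      rw [← h2]
      simp
    split_ifs at h with h0
    · rcases List.mem_cons.1 h with h | h
      · exact ⟨[], w, by rw [h0]; rfl, by simpa using h.symm⟩
      · exact key h
    · exact key h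

/-! ## The scan -/

theorem scan_auxS {q : ℕ → ℕ → ℕ → ℕ → Bool} {t : ℕ} (f : Cx)
    (ht : ∀ e f' : Cx, f = e.comp f' → tight (labs f'.pre) (labs f'.post) = true)
    (hd : adv q (0 :: (labs f.pre).reverse) (0 :: labs f.post) ≠ Adv.dead) :
    inf q (f.fill (Tr.lf t 0)) = none ∨
      ∃ x y, adv q (0 :: (labs f.pre).reverse) (0 :: labs f.post) = Adv.alive x y ∧
        (inf q (f.fill (Tr.lf t 0)) = some (Inf.S (labs (f.fill (Tr.lf t 0)).y)) ∨
          ∃ L, inf q (f.fill (Tr.lf t 0)) = some (Inf.B L) ∧ (x, y) ∈ L) := by
  induction f with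
  | hole =>
    right
    refine ⟨[0], [0], ?_, Or.inl rfl⟩
    simp [Cx.pre, Cx.post, labs, adv]
  | left t' c r ih =>
    have hpre : (Cx.left t' c r).pre = c.pre := rfl
    have hpost : labs (Cx.left t' c r).post = labs c.post ++ labs r.y := labs_append _ _
    have htc : tight (labs c.pre) (labs c.post) = true := by
      refine ht (Cx.left t' Cx.hole r) c ?_
      simp [Cx.comp]
    have htf : tight (labs c.pre) (labs c.post ++ labs r.y) = true := by
      rw [← hpost]
      exact ht Cx.hole (Cx.left t' c r) rfl
    rw [hpre, hpost] at hd ⊢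
    rw [← List.cons_append] at hd ⊢
    obtain ⟨e1, e2, e3⟩ := adv_ext (q := q) (X := 0 :: (labs c.pre).reverse)
      (Y := 0 :: labs c.post) (by simp) (by simp) [] (labs r.y)
    rw [List.append_nil] at e1 e2 e3
    have hdc : adv q (0 :: (labs c.pre).reverse) (0 :: labs c.post) ≠ Adv.dead :=
      fun h => hd (e3 h)
    have hI := ih (fun e f' hf => ht (Cx.left t' e r) f' (by rw [hf]; rfl)) hdc
    rcases hI with hI | ⟨x, y, hxy, hI⟩
    · left
      simp only [Cx.fill, inf, hI, comb_none_leftS]
    · obtain ⟨e1, e4, e5, e6⟩ := e1 x y hxy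
      rw [List.append_nil] at e1
      have hlen : (labs r.y).length ≤ 8 := by
        simp only [tight, decide_eq_true_eq, List.length_append] at htc htf
        omega
      have htight : ∀ x' y', adv q (0 :: (labs c.pre).reverse)
          (0 :: labs c.post ++ labs r.y) = Adv.alive x' y' → tight x' y' = true := by
        intro x' y' h
        have h2 := ((adv_ext (q := q) (X := 0 :: (labs c.pre).reverse)
          (Y := 0 :: labs c.post ++ labs r.y) (by simp) (by simp) [] []).1 x' y' h).2.1
        simp only [tight, decide_eq_true_eq, List.length_append, List.length_cons,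
          List.length_reverse] at htf h2 ⊢
        omega
      rcases hr : inf q r with _ | (v | L)
      · left
        simp only [Cx.fill, inf, hr, comb_none_rightS]
      · have hv := (inf_S r).1 v hr
        subst hv
        rcases hI with hI | ⟨L, hI, hL⟩
        · -- short lists
          have hy : labs (c.fill (Tr.lf t 0)).y = labs c.pre ++ 0 :: labs c.post := by
            rw [Cx.y_fill, labs_append, labs_append]
            simp [Tr.y, labs, lh]
          have hm : adv q (0 :: (labs c.pre).reverse) (0 :: labs c.post ++ labs r.y) ∈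
              cens q [] (labs (c.fill (Tr.lf t 0)).y ++ labs r.y) := by
            rw [hy]
            have := mem_censS (q := q) (labs c.post ++ labs r.y) (labs c.pre) []
            simpa using this
          simp only [Cx.fill, inf, hI, hr, comb]
          rcases hf : fil (cens q [] (labs (c.fill (Tr.lf t 0)).y ++ labs r.y)) with _ | L
          · left; rfl
          · right
            rcases ha : adv q (0 :: (labs c.pre).reverse) (0 :: labs c.post ++ labs r.y) with
              _ | _ | ⟨x', y'⟩
            · rw [ha] at hm
              rw [fil_viol hm] at hf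
              simp at hf
            · exact absurd ha hd
            · refine ⟨x', y', rfl, ?_⟩
              simp only [Option.map_some, Option.some.injEq]
              split_ifs
              · left
                simp [Tr.y, labs_append]
              · right
                rw [ha] at hm
                exact ⟨L, rfl, fil_some_mem hf hm (htight x' y' ha)⟩
        · simp only [Cx.fill, inf, hI, hr, comb]
          have hm : adv q (0 :: (labs c.pre).reverse) (0 :: labs c.post ++ labs r.y) ∈
              L.map fun p => adv q p.1 (p.2 ++ labs r.y) := by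
            rw [List.mem_map]
            exact ⟨(x, y), hL, e1.symm⟩
          rcases hf : fil (L.map fun p => adv q p.1 (p.2 ++ labs r.y)) with _ | L'
          · left; rw [hf]; rfl
          · right
            rcases ha : adv q (0 :: (labs c.pre).reverse) (0 :: labs c.post ++ labs r.y) with
              _ | _ | ⟨x', y'⟩
            · rw [ha] at hm
              rw [fil_viol hm] at hf
              simp at hf
            · exact absurd ha hd
            · refine ⟨x', y', rfl, Or.inr ⟨L', by rw [hf]; rfl, ?_⟩⟩
              rw [ha] at hm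
              exact fil_some_mem hf hm (htight x' y' ha)
      · exact absurd hlen (by have := (inf_S r).2 L hr; omega)
  | right t' l c ih =>
    have hpre : labs (Cx.right t' l c).pre = labs l.y ++ labs c.pre := labs_append _ _
    have hpost : (Cx.right t' l c).post = c.post := rfl
    have htc : tight (labs c.pre) (labs c.post) = true := by
      refine ht (Cx.right t' l Cx.hole) c ?_
      simp [Cx.comp]
    have htf : tight (labs l.y ++ labs c.pre) (labs c.post) = true := by
      rw [← hpre]
      exact ht Cx.hole (Cx.right t' l c) rfl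
    rw [hpre, hpost] at hd ⊢
    have hrev : 0 :: (labs l.y ++ labs c.pre).reverse =
        0 :: (labs c.pre).reverse ++ (labs l.y).reverse := by simp
    rw [hrev] at hd ⊢
    obtain ⟨e1, e2, e3⟩ := adv_ext (q := q) (X := 0 :: (labs c.pre).reverse)
      (Y := 0 :: labs c.post) (by simp) (by simp) (labs l.y).reverse []
    rw [List.append_nil] at e1 e2 e3
    have hdc : adv q (0 :: (labs c.pre).reverse) (0 :: labs c.post) ≠ Adv.dead :=
      fun h => hd (e3 h)
    have hI := ih (fun e f' hf => ht (Cx.right t' l e) f' (by rw [hf]; rfl)) hdc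
    rcases hI with hI | ⟨x, y, hxy, hI⟩
    · left
      simp only [Cx.fill, inf, hI, comb_none_rightS]
    · obtain ⟨e1, e4, e5, e6⟩ := e1 x y hxy
      rw [List.append_nil] at e1
      have hlen : (labs l.y).length ≤ 8 := by
        simp only [tight, decide_eq_true_eq, List.length_append] at htc htf
        omega
      have htight : ∀ x' y', adv q (0 :: (labs c.pre).reverse ++ (labs l.y).reverse)
          (0 :: labs c.post) = Adv.alive x' y' → tight x' y' = true := by
        intro x' y' h
        have h2 := ((adv_ext (q := q) (X := 0 :: (labs c.pre).reverse ++ (labs l.y).reverse)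
          (Y := 0 :: labs c.post) (by simp) (by simp) [] []).1 x' y' h).2.1
        simp only [tight, decide_eq_true_eq, List.length_append, List.length_cons,
          List.length_reverse] at htf h2 ⊢
        omega
      rcases hr : inf q l with _ | (v | L)
      · left
        simp only [Cx.fill, inf, hr, comb_none_leftS]
      · have hv := (inf_S l).1 v hr
        subst hv
        rcases hI with hI | ⟨L, hI, hL⟩
        · -- short lists
          have hy : labs (c.fill (Tr.lf t 0)).y = labs c.pre ++ 0 :: labs c.post := by
            rw [Cx.y_fill, labs_append, labs_append]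
            simp [Tr.y, labs, lh]
          have hm : adv q (0 :: (labs c.pre).reverse ++ (labs l.y).reverse) (0 :: labs c.post) ∈
              cens q [] (labs l.y ++ labs (c.fill (Tr.lf t 0)).y) := by
            rw [hy, ← List.append_assoc]
            have := mem_censS (q := q) (labs c.post) (labs l.y ++ labs c.pre) []
            simpa using this
          simp only [Cx.fill, inf, hI, hr, comb]
          rcases hf : fil (cens q [] (labs l.y ++ labs (c.fill (Tr.lf t 0)).y)) with _ | L
          · left; rfl
          · right
            rcases ha : adv q (0 :: (labs c.pre).reverse ++ (labs l.y).reverse)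
              (0 :: labs c.post) with _ | _ | ⟨x', y'⟩
            · rw [ha] at hm
              rw [fil_viol hm] at hf
              simp at hf
            · exact absurd ha hd
            · refine ⟨x', y', rfl, ?_⟩
              simp only [Option.map_some, Option.some.injEq]
              split_ifs
              · left
                simp [Tr.y, labs_append]
              · right
                rw [ha] at hm
                exact ⟨L, rfl, fil_some_mem hf hm (htight x' y' ha)⟩
        · simp only [Cx.fill, inf, hI, hr, comb]
          have hm : adv q (0 :: (labs c.pre).reverse ++ (labs l.y).reverse) (0 :: labs c.post) ∈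
              L.map fun p => adv q (p.1 ++ (labs l.y).reverse) p.2 := by
            rw [List.mem_map]
            exact ⟨(x, y), hL, e1.symm⟩
          rcases hf : fil (L.map fun p => adv q (p.1 ++ (labs l.y).reverse) p.2) with _ | L'
          · left; rw [hf]; rfl
          · right
            rcases ha : adv q (0 :: (labs c.pre).reverse ++ (labs l.y).reverse)
              (0 :: labs c.post) with _ | _ | ⟨x', y'⟩
            · rw [ha] at hm
              rw [fil_viol hm] at hf
              simp at hf
            · exact absurd ha hd
            · refine ⟨x', y', rfl, Or.inr ⟨L', by rw [hf]; rfl, ?_⟩⟩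
              rw [ha] at hm
              exact fil_some_mem hf hm (htight x' y' ha)
      · exact absurd hlen (by have := (inf_S l).2 L hr; omega)

/-- (K16) The violation of a centre `#` in the node `c₁.fill (lf t 0)` is found if all nodes
between are tight. -/
theorem k_scanS {q : ℕ → ℕ → ℕ → ℕ → Bool} {τ : Tr} {c₀ c₁ : Cx} {t : ℕ}
    (hτ : τ = c₀.fill (c₁.fill (Tr.lf t 0)))
    (ht : ∀ e f : Cx, c₁ = e.comp f → (labs f.pre).length ≤ (labs f.post).length + 4 ∧
      (labs f.post).length ≤ (labs f.pre).length + 4)
    (hv : adv q (0 :: (labs c₁.pre).reverse) (0 :: labs c₁.post) = Adv.viol) :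
    inf q τ = none := by
  by_contra hne
  rw [hτ] at hne
  have h1 := inf_fill_ne hne
  rcases scan_auxS (q := q) (t := t) c₁ (fun e f hf => by
    simpa [tight] using ht e f hf) (by rw [hv]; simp) with h | ⟨x, y, h, -⟩
  · exact h1 h
  · rw [hv] at h
    simp at h

/-! ## Violations found by `inf` -/

/-- The information of a tree is correct. -/
theorem inf_correct {q : ℕ → ℕ → ℕ → ℕ → Bool} (σ : Tr) :
    (inf q σ = none → Vio q (labs σ.y)) ∧
      ∀ L, inf q σ = some (Inf.B L) → ∀ p ∈ L, ∃ u s, labs σ.y = u ++ 0 :: s ∧
        adv q (0 :: u.reverse) (0 :: s) = Adv.alive p.1 p.2 := by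
  induction σ with
  | ep t => simp [inf]
  | lf t a => simp [inf]
  | nd t l r ihl ihr =>
    have hlab : labs (Tr.nd t l r).y = labs l.y ++ labs r.y := labs_append _ _
    rw [hlab]
    have vl : Vio q (labs l.y) → Vio q (labs l.y ++ labs r.y) := by
      rintro ⟨p, s, h1, h2⟩
      refine ⟨p, s ++ labs r.y, by rw [h1]; simp, ?_⟩
      have := (adv_ext (q := q) (X := 0 :: p.reverse) (Y := 0 :: s) (by simp) (by simp) []
        (labs r.y)).2.1 h2
      simpa using this
    have vr : Vio q (labs r.y) → Vio q (labs l.y ++ labs r.y) := by
      rintro ⟨p, s, h1, h2⟩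
      refine ⟨labs l.y ++ p, s, by rw [h1]; simp, ?_⟩
      have := (adv_ext (q := q) (X := 0 :: p.reverse) (Y := 0 :: s) (by simp) (by simp)
        (labs l.y).reverse []).2.1 h2
      simpa using this
    rcases hl : inf q l with _ | (u₁ | L₁) <;> rcases hr : inf q r with _ | (u₂ | L₂)
    · simp only [inf, hl, hr, comb, forall_const]
      exact ⟨vl (ihl.1 hl), by simp⟩
    · simp only [inf, hl, hr, comb, forall_const]
      exact ⟨vl (ihl.1 hl), by simp⟩
    · simp only [inf, hl, hr, comb, forall_const]
      exact ⟨vl (ihl.1 hl), by simp⟩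
    · simp only [inf, hl, hr, comb, forall_const]
      exact ⟨vr (ihr.1 hr), by simp⟩
    · have e1 := (inf_S l).1 _ hl
      have e2 := (inf_S r).1 _ hr
      subst e1 e2
      simp only [inf, hl, hr, comb]
      refine ⟨?_, ?_⟩
      · intro h
        rw [Option.map_eq_none_iff] at h
        obtain ⟨p, s, h1, h2⟩ := of_mem_censS (fil_none h)
        exact ⟨p, s, h1, by simpa using h2⟩
      · intro L h p hp
        rw [Option.map_eq_some_iff] at h
        obtain ⟨L', h1, h2⟩ := h
        split_ifs at h2 with h3
        simp only [Inf.B.injEq] at h2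
        subst h2
        obtain ⟨h4, -⟩ := fil_mem h1 hp
        obtain ⟨u, s, h5, h6⟩ := of_mem_censS h4
        exact ⟨u, s, h5, by simpa using h6⟩
    · have e1 := (inf_S l).1 _ hl
      subst e1
      have hfull : ∀ p ∈ L₂, ∃ u s, labs l.y ++ labs r.y = u ++ 0 :: s ∧
          adv q (0 :: u.reverse) (0 :: s) = adv q (p.1 ++ (labs l.y).reverse) p.2 := by
        intro p hp
        obtain ⟨u, s, h1, h2⟩ := ihr.2 _ hr p hp
        refine ⟨labs l.y ++ u, s, by rw [h1]; simp, ?_⟩
        have := ((adv_ext (q := q) (X := 0 :: u.reverse) (Y := 0 :: s) (by simp) (by simp)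
          (labs l.y).reverse []).1 _ _ h2).1
        simpa using this
      simp only [inf, hl, hr, comb]
      refine ⟨?_, ?_⟩
      · intro h
        rw [Option.map_eq_none_iff] at h
        obtain ⟨p, hp, hp2⟩ := List.mem_map.1 (fil_none h)
        obtain ⟨u, s, h1, h2⟩ := hfull p hp
        exact ⟨u, s, h1, by rw [h2, hp2]⟩
      · intro L h p' hp'
        rw [Option.map_eq_some_iff] at h
        obtain ⟨L', h1, h2⟩ := h
        simp only [Inf.B.injEq] at h2
        subst h2
        obtain ⟨h4, -⟩ := fil_mem h1 hp'
        obtain ⟨p, hp, hp2⟩ := List.mem_map.1 h4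
        obtain ⟨u, s, h5, h6⟩ := hfull p hp
        exact ⟨u, s, h5, by rw [h6, hp2]⟩
    · simp only [inf, hl, hr, comb, forall_const]
      exact ⟨vr (ihr.1 hr), by simp⟩
    · have e1 := (inf_S r).1 _ hr
      subst e1
      have hfull : ∀ p ∈ L₁, ∃ u s, labs l.y ++ labs r.y = u ++ 0 :: s ∧
          adv q (0 :: u.reverse) (0 :: s) = adv q p.1 (p.2 ++ labs r.y) := by
        intro p hp
        obtain ⟨u, s, h1, h2⟩ := ihl.2 _ hl p hp
        refine ⟨u, s ++ labs r.y, by rw [h1]; simp, ?_⟩
        have := ((adv_ext (q := q) (X := 0 :: u.reverse) (Y := 0 :: s) (by simp) (by simp)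
          [] (labs r.y)).1 _ _ h2).1
        simpa using this
      simp only [inf, hl, hr, comb]
      refine ⟨?_, ?_⟩
      · intro h
        rw [Option.map_eq_none_iff] at h
        obtain ⟨p, hp, hp2⟩ := List.mem_map.1 (fil_none h)
        obtain ⟨u, s, h1, h2⟩ := hfull p hp
        exact ⟨u, s, h1, by rw [h2, hp2]⟩
      · intro L h p' hp'
        rw [Option.map_eq_some_iff] at h
        obtain ⟨L', h1, h2⟩ := h
        simp only [Inf.B.injEq] at h2
        subst h2
        obtain ⟨h4, -⟩ := fil_mem h1 hp'
        obtain ⟨p, hp, hp2⟩ := List.mem_map.1 h4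
        obtain ⟨u, s, h5, h6⟩ := hfull p hp
        exact ⟨u, s, h5, by rw [h6, hp2]⟩
    · simp only [inf, hl, hr, comb]
      refine ⟨by simp, ?_⟩
      intro L h p hp
      simp only [Option.some.injEq, Inf.B.injEq] at h
      subst h
      simp at hp

end Pool.Agent.NGP
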