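import Pool.Agent.NGP.KSet
import Pool.Agent.NGP.KAdv

/-!
# NGP, part K: matched violations (K1)
-/

namespace Pool.Agent.NGP

theorem Mt.left {l r : List (ℕ × ℕ)} (h : Mt l r) : ∀ x ∈ l, x.1 ≠ 0 → ∃ y ∈ r, y.2 = x.2 := by
  induction h with
  | nil => simp
  | skl _ ih =>
    intro x hx h0
    rcases List.mem_cons.1 hx with rfl | hx
    · exact absurd rfl h0
    · exact ih x hx h0
  | skr _ ih =>
    intro x hx h0
    obtain ⟨y, hy, h⟩ := ih x hx h0
    exact ⟨y, by simp [hy], h⟩
  | @pair a b n l r _ ih =>
    intro x hx h0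
    rcases List.mem_cons.1 hx with rfl | hx
    · exact ⟨(b, n), by simp, rfl⟩
    · obtain ⟨y, hy, h⟩ := ih x hx h0
      exact ⟨y, by simp [hy], h⟩

theorem Mt.symm {l r : List (ℕ × ℕ)} (h : Mt l r) : Mt r l := by
  induction h with
  | nil => exact Mt.nil
  | skl _ ih => exact Mt.skr ih
  | skr _ ih => exact Mt.skl ih
  | pair _ ih => exact Mt.pair ih

theorem Mt.count {l r : List (ℕ × ℕ)} (h : Mt l r) :
    l.countP (fun x => x.1 != 0) ≤ r.length := by
  induction h with
  | nil => simp
  | skl _ ih => simpa using ih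
  | skr _ ih =>
    rw [List.length_cons]
    omega
  | @pair a b n l r _ ih =>
    rw [List.countP_cons, List.length_cons]
    split_ifs <;> omega

variable {q : ℕ → ℕ → ℕ → ℕ → Bool}

theorem Zp.left {a c : ℕ} {l r : List (ℕ × ℕ)} (h : Zp q a c l r) :
    ∀ x ∈ l, x.1 ≠ 0 → ∃ y ∈ r, y.2 = x.2 := by
  induction h with
  | @step a b c d n l r _ _ _ _ ih =>
    intro x hx h0
    rcases List.mem_cons.1 hx with rfl | hx
    · exact ⟨(d, n), by simp, rfl⟩
    · obtain ⟨y, hy, h⟩ := ih x hx h0
      exact ⟨y, by simp [hy], h⟩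
  | viol _ _ _ hm => exact hm.left

theorem Zp.right {a c : ℕ} {l r : List (ℕ × ℕ)} (h : Zp q a c l r) :
    ∀ x ∈ r, x.1 ≠ 0 → ∃ y ∈ l, y.2 = x.2 := by
  induction h with
  | @step a b c d n l r _ _ _ _ ih =>
    intro x hx h0
    rcases List.mem_cons.1 hx with rfl | hx
    · exact ⟨(b, n), by simp, rfl⟩
    · obtain ⟨y, hy, h⟩ := ih x hx h0
      exact ⟨y, by simp [hy], h⟩
  | viol _ _ _ hm => exact hm.symm.left

theorem Zp.count {a c : ℕ} {l r : List (ℕ × ℕ)} (h : Zp q a c l r) :
    l.countP (fun x => x.1 != 0) ≤ r.length ∧ r.countP (fun x => x.1 != 0) ≤ l.length := by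
  induction h with
  | @step a b c d n l r _ _ _ _ ih =>
    rw [List.countP_cons, List.countP_cons, List.length_cons, List.length_cons]
    constructor <;> split_ifs <;> omega
  | viol _ _ _ hm => exact ⟨hm.count, hm.symm.count⟩

/-- The labels up to the violation. -/
theorem Zp.data {a c : ℕ} {l r : List (ℕ × ℕ)} (h : Zp q a c l r) :
    ∃ d, d < l.length ∧ d < r.length ∧
      (∀ t < d, (∀ x, l[t]? = some x → 2 ≤ x.1) ∧ (∀ x, r[t]? = some x → 2 ≤ x.1)) ∧
      (∀ x, l[d]? = some x → x.1 ≠ 1) ∧ (∀ x, r[d]? = some x → x.1 ≠ 1) ∧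
      adv q (a :: (l.take (d + 1)).map Prod.fst) (c :: (r.take (d + 1)).map Prod.fst) =
        Adv.viol := by
  induction h with
  | @step a b c d n l r h1 h2 h3 _ ih =>
    obtain ⟨k, k1, k2, k3, k4, k5, k6⟩ := ih
    refine ⟨k + 1, by simpa using k1, by simpa using k2, ?_, ?_, ?_, ?_⟩
    · intro t ht
      rcases t with _ | t
      · constructor
        · intro x hx
          simp only [List.getElem?_cons_zero, Option.some.injEq] at hx
          rw [← hx]; exact h2
        · intro x hx
          simp only [List.getElem?_cons_zero, Option.some.injEq] at hx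
          rw [← hx]; exact h3
      · simp only [List.getElem?_cons_succ]
        exact k3 t (by omega)
    · simp only [List.getElem?_cons_succ]
      exact k4
    · simp only [List.getElem?_cons_succ]
      exact k5
    · rw [List.take_succ_cons, List.take_succ_cons, List.map_cons, List.map_cons, adv_cons,
        if_neg (by omega), if_pos h1, if_neg (by omega)]
      exact k6
  | @viol a b c d n m l r h1 h2 h3 _ =>
    refine ⟨0, by simp, by simp, fun t ht => absurd ht (by omega), ?_, ?_, ?_⟩
    · intro x hx
      simp only [List.getElem?_cons_zero, Option.some.injEq] at hx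
      rw [← hx]; exact h2
    · intro x hx
      simp only [List.getElem?_cons_zero, Option.some.injEq] at hx
      rw [← hx]; exact h3
    · simp only [Nat.zero_add, List.take_succ_cons, List.take_zero, List.map_cons, List.map_nil]
      rw [adv_cons, if_neg (by tauto), if_neg (by simp [h1])]

/-- Matched violations of a list of cells, in terms of the partners only. -/
theorem Kp.split {C : List (ℕ × ℕ)} (h : Kp q C) : ∃ p k s, C = p ++ (0, k) :: s ∧
    (∀ x ∈ p, x.1 ≠ 0 → ∃ y ∈ s, y.2 = x.2) ∧ (∀ y ∈ s, y.1 ≠ 0 → ∃ x ∈ p, x.2 = y.2) := by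
  obtain ⟨p, k, s, rfl, h⟩ := h
  refine ⟨p, k, s, rfl, ?_, ?_⟩
  · intro x hx
    exact h.left x (by simpa using hx)
  · intro y hy h0
    obtain ⟨x, hx, h1⟩ := h.right y hy h0
    exact ⟨x, by simpa using hx, h1⟩

/-- A cell with label `≠ 0` whose content occurs only once excludes matched violations. -/
theorem not_Kp {P S : List (ℕ × ℕ)} {b m : ℕ} (hb : b ≠ 0) (hP : ∀ x ∈ P, x.2 ≠ m)
    (hS : ∀ x ∈ S, x.2 ≠ m) : ¬ Kp q (P ++ (b, m) :: S) := by
  intro h
  obtain ⟨p, k, s, h1, h2, h3⟩ := h.split
  rcases List.append_eq_append_iff.1 h1 with ⟨u, hu1, hu2⟩ | ⟨u, hu1, hu2⟩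
  · rcases u with _ | ⟨c, u⟩
    · simp only [List.nil_append, List.cons.injEq, Prod.mk.injEq] at hu2
      exact hb hu2.1.1
    · simp only [List.cons_append, List.cons.injEq] at hu2
      obtain ⟨y, hy, h4⟩ := h2 (b, m) (by rw [hu1, ← hu2.1]; simp) hb
      exact hS y (by rw [hu2.2]; simp [hy]) h4
  · rcases u with _ | ⟨c, u⟩
    · simp only [List.nil_append, List.cons.injEq, Prod.mk.injEq] at hu2
      exact hb hu2.1.1.symm
    · simp only [List.cons_append, List.cons.injEq] at hu2
      obtain ⟨x, hx, h4⟩ := h3 (b, m) (by rw [hu2.2]; simp) hb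
      exact hP x (by rw [hu1]; simp [hx]) h4

/-- A matched violation in the list of cells `(l i, f i)`, `i < M`: centre `c`, the violation is at
distance `d + 1`. -/
structure KpD (q : ℕ → ℕ → ℕ → ℕ → Bool) (M : ℕ) (l f : ℕ → ℕ) (c d : ℕ) : Prop where
  hc : c < M
  l0 : l c = 0
  dl : d + 1 ≤ c
  dr : c + d + 1 < M
  two : ∀ t, 1 ≤ t → t ≤ d → 2 ≤ l (c - t) ∧ 2 ≤ l (c + t)
  vl : l (c - (d + 1)) ≠ 1
  vr : l (c + (d + 1)) ≠ 1
  viol : adv q (0 :: (List.range (d + 1)).map (fun t => l (c - (t + 1))))
    (0 :: (List.range (d + 1)).map (fun t => l (c + (t + 1)))) = Adv.viol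
  cntl : ((Finset.range c).filter fun i => l i ≠ 0).card ≤ M - 1 - c
  cntr : ((Finset.Ico (c + 1) M).filter fun i => l i ≠ 0).card ≤ c
  part : ∀ i < M, i ≠ c → l i ≠ 0 → ∃ j < M, f j = f i ∧ ((i < c ∧ c < j) ∨ (j < c ∧ c < i))

theorem countP_map_range (a : ℕ) (l f : ℕ → ℕ) :
    ((List.range a).map fun i => (l i, f i)).countP (fun x => x.1 != 0) =
      ((Finset.range a).filter fun i => l i ≠ 0).card := by
  rw [List.countP_map]
  induction a with
  | zero => simp
  | succ a ih =>
    rw [List.range_succ, List.countP_append, ih, Finset.range_add_one, Finset.filter_insert]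
    by_cases h : l a ≠ 0
    · rw [if_pos h, Finset.card_insert_of_notMem (by simp)]
      simp [h]
    · rw [if_neg h]
      push Not at h
      simp [h]

theorem Kp.data {M : ℕ} {l f : ℕ → ℕ} (h : Kp q ((List.range M).map fun i => (l i, f i))) :
    ∃ c d, KpD q M l f c d := by
  obtain ⟨p, k, s, hC, hZ⟩ := h
  set F : ℕ → ℕ × ℕ := fun i => (l i, f i) with hF
  have hget : ∀ i, ((List.range M).map F)[i]? = if i < M then some (F i) else none := by
    intro i
    rw [List.getElem?_map, range_get]
    split_ifs <;> rfl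
  have hlen : M = p.length + 1 + s.length := by
    have := congrArg List.length hC
    simp only [List.length_map, List.length_range, List.length_append, List.length_cons] at this
    omega
  set c := p.length with hc
  have hcM : c < M := by omega
  have hp : ∀ i, p[i]? = if i < c then some (F i) else none := by
    intro i
    by_cases hi : i < c
    · have := hget i
      rw [hC, List.getElem?_append_left hi, if_pos (by omega)] at this
      rw [if_pos hi, this]
    · rw [if_neg hi, List.getElem?_eq_none (by omega)]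
  have hFc : F c = (0, k) := by
    have := hget c
    rw [hC, if_pos hcM, List.getElem?_append_right (le_of_eq hc.symm)] at this
    rw [← hc, Nat.sub_self, List.getElem?_cons_zero, Option.some.injEq] at this
    exact this.symm
  have hs : ∀ t, s[t]? = if c + (t + 1) < M then some (F (c + (t + 1))) else none := by
    intro t
    have := hget (c + (t + 1))
    rw [hC, List.getElem?_append_right (by omega), ← hc,
      show c + (t + 1) - c = t + 1 by omega, List.getElem?_cons_succ] at this
    exact this
  have hpr : ∀ t, p.reverse[t]? = if t < c then some (F (c - (t + 1))) else none := by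
    intro t
    by_cases ht : t < c
    · rw [if_pos ht, List.getElem?_reverse ht, hp, ← hc, if_pos (by omega),
        show c - 1 - t = c - (t + 1) by omega]
    · rw [if_neg ht, List.getElem?_eq_none (by simp; omega)]
  obtain ⟨d, d1, d2, d3, d4, d5, d6⟩ := hZ.data
  rw [List.length_reverse] at d1
  have hcnt := hZ.count
  refine ⟨c, d, hcM, ?_, by omega, by omega, ?_, ?_, ?_, ?_, ?_, ?_, ?_⟩
  · exact congrArg Prod.fst hFc
  · intro t ht1 ht2
    obtain ⟨h1, h2⟩ := d3 (t - 1) (by omega)
    constructor
    · apply h1 (F (c - t))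
      rw [hpr, if_pos (by omega), show c - (t - 1 + 1) = c - t by omega]
    · apply h2 (F (c + t))
      rw [hs, if_pos (by omega), show c + (t - 1 + 1) = c + t by omega]
  · apply d4 (F (c - (d + 1)))
    rw [hpr, if_pos (by omega)]
  · apply d5 (F (c + (d + 1)))
    rw [hs, if_pos (by omega)]
  · have e1 : (p.reverse.take (d + 1)).map Prod.fst =
        (List.range (d + 1)).map (fun t => l (c - (t + 1))) := by
      apply List.ext_getElem?
      intro t
      rw [List.getElem?_map, List.getElem?_map, List.getElem?_take, range_get]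
      by_cases ht : t < d + 1
      · rw [if_pos ht, if_pos ht, hpr, if_pos (by omega)]
        rfl
      · rw [if_neg ht, if_neg ht]
        rfl
    have e2 : (s.take (d + 1)).map Prod.fst =
        (List.range (d + 1)).map (fun t => l (c + (t + 1))) := by
      apply List.ext_getElem?
      intro t
      rw [List.getElem?_map, List.getElem?_map, List.getElem?_take, range_get]
      by_cases ht : t < d + 1
      · rw [if_pos ht, if_pos ht, hs, if_pos (by omega)]
        rfl
      · rw [if_neg ht, if_neg ht]
        rfl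
    rw [e1, e2] at d6
    exact d6
  · have e1 : p = (List.range c).map F := by
      apply List.ext_getElem?
      intro t
      rw [hp, List.getElem?_map, range_get]
      split_ifs <;> rfl
    have h1 := hcnt.1
    rw [List.countP_reverse, e1, countP_map_range] at h1
    omega
  · have e1 : s = (List.range (M - 1 - c)).map fun t => (l (c + (t + 1)), f (c + (t + 1))) := by
      apply List.ext_getElem?
      intro t
      rw [hs, List.getElem?_map, range_get]
      by_cases ht : c + (t + 1) < M
      · rw [if_pos ht, if_pos (by omega)]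
        rfl
      · rw [if_neg ht, if_neg (by omega)]
        rfl
    have h1 := hcnt.2
    rw [e1, List.length_reverse,
      countP_map_range (M - 1 - c) (fun t => l (c + (t + 1))) (fun t => f (c + (t + 1)))] at h1
    refine le_trans (le_of_eq ?_) h1
    symm
    apply Finset.card_bij (fun t _ => c + (t + 1))
    · intro t ht
      simp only [Finset.mem_filter, Finset.mem_range, Finset.mem_Ico] at ht ⊢
      exact ⟨by omega, ht.2⟩
    · intro t _ t' _ h
      omega
    · intro t ht
      simp only [Finset.mem_filter, Finset.mem_Ico] at ht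
      refine ⟨t - (c + 1), ?_, by omega⟩
      simp only [Finset.mem_filter, Finset.mem_range]
      rw [show c + (t - (c + 1) + 1) = t by omega]
      exact ⟨by omega, ht.2⟩
  · intro i hi hne h0
    rcases lt_or_gt_of_ne hne with hlt | hgt
    · have hmem : F i ∈ p.reverse := by
        rw [List.mem_reverse, List.mem_iff_getElem?]
        exact ⟨i, by rw [hp, if_pos hlt]⟩
      obtain ⟨y, hy, h1⟩ := hZ.left _ hmem h0
      obtain ⟨t, ht⟩ := List.mem_iff_getElem?.1 hy
      rw [hs] at ht
      split_ifs at ht with h2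
      rw [Option.some.injEq] at ht
      refine ⟨c + (t + 1), h2, ?_, Or.inl ⟨hlt, by omega⟩⟩
      rw [← ht] at h1
      exact h1
    · have hmem : F i ∈ s := by
        rw [List.mem_iff_getElem?]
        exact ⟨i - (c + 1), by
          rw [hs, show c + (i - (c + 1) + 1) = i by omega, if_pos hi]⟩
      obtain ⟨y, hy, h1⟩ := hZ.right _ hmem h0
      rw [List.mem_reverse] at hy
      obtain ⟨t, ht⟩ := List.mem_iff_getElem?.1 hy
      rw [hp] at ht
      split_ifs at ht with h2
      rw [Option.some.injEq] at ht
      refine ⟨t, by omega, ?_, Or.inr ⟨h2, by omega⟩⟩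
      rw [← ht] at h1
      exact h1

end Pool.Agent.NGP
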