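import Pool.Agent.NGP.KCen

/-!
# NGP, part K: loops without labels (K3)
-/

namespace Pool.Agent.NGP

theorem Lp.y_eq {τ : Tr} {c d : Cx} {σ : Tr} (h : Lp τ c d σ) :
    τ.y = c.pre ++ d.pre ++ σ.y ++ d.post ++ c.post := by
  rw [h.1, Cx.y_fill, Cx.y_fill]
  simp [List.append_assoc]

theorem Cx.hi_fill_eq (c d : Cx) (σ : Tr) :
    c.hi (d.fill σ) = c.lo + d.pre.length + σ.y.length + d.post.length := by
  simp only [Cx.hi, Cx.lo, Cx.y_fill, List.length_append]
  omega

/-- The word with the exponent `k` of a loop. -/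
def pw (c d : Cx) (σ : Tr) (k : ℕ) : List ℕ :=
  c.pre ++ (List.replicate k d.pre).flatten ++ σ.y ++ (List.replicate k d.post).flatten ++ c.post

variable {g : ℕ} {q : ℕ → ℕ → ℕ → ℕ → Bool} {G : EG} {n : ℕ} {τ : Tr}

theorem KS.pump (h : KS g q G n τ) {c d : Cx} {σ : Tr} (hL : Lp τ c d σ) (k : ℕ) :
    G.L (pw c d σ k) := by
  obtain ⟨τ', h1, h2, h3⟩ := hL.pump h.ok k
  exact ⟨τ', h1, by rw [h2, h.root], h3⟩

theorem KS.pump_val (h : KS g q G n τ) {c d : Cx} {σ : Tr} (hL : Lp τ c d σ) (k : ℕ) :
    fv (pw c d σ k) ≠ 1 ∨ fv (pw c d σ (k + 1)) ≠ 1 := by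
  by_contra hcon
  push Not at hcon
  have := exp_trick hcon.1 hcon.2 1
  apply h.val
  rw [hL.y_eq, ← this]
  simp

theorem flat_nolabel {u : List ℕ} (h : ∀ a ∈ u, lh a = none) (k : ℕ) :
    ∀ a ∈ (List.replicate k u).flatten, lh a = none := by
  intro a ha
  rw [List.mem_flatten] at ha
  obtain ⟨l, hl, ha⟩ := ha
  rw [List.mem_replicate] at hl
  rw [hl.2] at ha
  exact h a ha

theorem flat_length (u : List ℕ) (k : ℕ) : (List.replicate k u).flatten.length = k * u.length := by
  simp

theorem labs_nolabel {u : List ℕ} (h : ∀ a ∈ u, lh a = none) : labs u = [] := by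
  unfold labs
  rw [List.filterMap_eq_nil_iff]
  exact h

/-- Cells after pumping a loop without labels. -/
theorem KS.cells_pump (h : KS g q G n τ) {c d : Cx} {σ : Tr} (hL : Lp τ c d σ) {i j : ℕ}
    (h1 : d.pre = [] ∨ InRun n i c.lo (c.lo + d.pre.length))
    (h2 : d.post = [] ∨ InRun n j (c.lo + d.pre.length + σ.y.length) (c.hi (d.fill σ)))
    (k : ℕ) : cells (pw c d σ (k + 1)) = (List.range (KM τ)).map (fun x => (lab τ x,
      n + ((if x = i then k * d.pre.length else 0) +
        (if x = j then k * d.post.length else 0)))) := by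
  have hy := hL.y_eq
  have hc := h.cells_eq
  rw [hy] at hc
  set V := (List.replicate k d.post).flatten with hV
  set U := (List.replicate k d.pre).flatten with hU
  have hVl : V.length = k * d.post.length := flat_length _ _
  have hUl : U.length = k * d.pre.length := flat_length _ _
  -- insertion of `V`
  have e1 : cells (c.pre ++ d.pre ++ σ.y ++ d.post ++ V ++ c.post) =
      (List.range (KM τ)).map (fun x => (lab τ x, n + if x = j then V.length else 0)) := by
    rcases h2 with h2 | h2
    · have hV0 : V = [] := by rw [hV, h2]; simp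
      rw [hV0, List.append_nil, hc]
      simp
    · have hr := h.run (i := j) (x := c.pre ++ d.pre ++ σ.y) (v := d.post) (z := c.post) hy (by
        rw [Cx.hi_fill_eq] at h2
        simpa [Cx.lo, add_assoc] using h2)
      apply cells_insert (x := c.pre ++ d.pre ++ σ.y ++ d.post) (f := fun _ => n)
      · exact flat_nolabel hr.1 k
      · rw [labs_append, labs_nolabel hr.1, List.append_nil]
        exact hr.2
      · exact hc
  have e2 : cells (c.pre ++ d.pre ++ U ++ (σ.y ++ d.post ++ V ++ c.post)) =
      (List.range (KM τ)).map (fun x => (lab τ x, (n + if x = j then V.length else 0) +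
        if x = i then U.length else 0)) := by
    rcases h1 with h1 | h1
    · have hU0 : U = [] := by rw [hU, h1]; simp
      rw [hU0, List.append_nil]
      rw [show c.pre ++ d.pre ++ (σ.y ++ d.post ++ V ++ c.post) =
        c.pre ++ d.pre ++ σ.y ++ d.post ++ V ++ c.post by simp [List.append_assoc], e1]
      simp
    · have hr := h.run (i := i) (x := c.pre) (v := d.pre) (z := σ.y ++ d.post ++ c.post)
        (by rw [hy]; simp [List.append_assoc]) h1
      apply cells_insert (x := c.pre ++ d.pre) (f := fun x => n + if x = j then V.length else 0)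
      · exact flat_nolabel hr.1 k
      · rw [labs_append, labs_nolabel hr.1, List.append_nil]
        exact hr.2
      · rw [← e1]
        simp [List.append_assoc]
  have e3 : pw c d σ (k + 1) = c.pre ++ d.pre ++ U ++ (σ.y ++ d.post ++ V ++ c.post) := by
    simp only [pw, List.replicate_succ, List.flatten_cons, List.append_assoc, hU, hV]
  rw [e3, e2]
  apply List.map_congr_left
  intro x _
  rw [hUl, hVl]
  simp only [Prod.mk.injEq, true_and]
  omega

/-- A pumped loop without labels: values `≠ 1`, centre. -/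
theorem KS.loop_centre (h : KS g q G n τ) {c d : Cx} {σ : Tr} (hL : Lp τ c d σ) {i j : ℕ}
    (h1 : d.pre = [] ∨ InRun n i c.lo (c.lo + d.pre.length))
    (h2 : d.post = [] ∨ InRun n j (c.lo + d.pre.length + σ.y.length) (c.hi (d.fill σ)))
    (hi : Deep n τ i) (hj : Deep n τ j) :
    ∃ k, 0 < k ∧ Kp q ((List.range (KM τ)).map (fun x => (lab τ x,
      n + ((if x = i then k * d.pre.length else 0) +
        (if x = j then k * d.post.length else 0))))) := by
  have key : ∀ k, fv (pw c d σ (k + 1)) ≠ 1 → Kp q ((List.range (KM τ)).map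
      (fun x => (lab τ x, n + ((if x = i then k * d.pre.length else 0) +
        (if x = j then k * d.post.length else 0))))) := by
    intro k hk
    rw [← h.cells_pump hL h1 h2 k]
    refine h.kp (h.pump hL _) hk (h.cells_pump hL h1 h2 k) ?_
    intro x _ hx
    by_cases h3 : x = i
    · rw [h3]; exact hi
    · by_cases h4 : x = j
      · rw [h4]; exact hj
      · simp [h3, h4] at hx
  rcases h.pump_val hL 2 with h3 | h3
  · exact ⟨1, by omega, key 1 h3⟩
  · exact ⟨2, by omega, key 2 h3⟩

/-- (K3) A deep cell with label `≠ 0` has no loop inside its run. -/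
theorem KS.k3 (h : KS g q G n τ) {i : ℕ} (hi : Deep n τ i) (hl : lab τ i ≠ 0) {c d : Cx}
    {σ : Tr} (hL : Lp τ c d σ) (h1 : d.pre = [] ∨ InRun n i c.lo (c.lo + d.pre.length))
    (h2 : d.post = [] ∨ InRun n i (c.lo + d.pre.length + σ.y.length) (c.hi (d.fill σ))) :
    d.pre = [] ∧ d.post = [] := by
  obtain ⟨k, hk, hK⟩ := h.loop_centre hL h1 h2 hi hi
  obtain ⟨m, e, hD⟩ := hK.data
  have hne : i ≠ m := by
    intro h3
    rw [h3] at hl
    exact hl hD.l0
  obtain ⟨j, hj, h3, h4⟩ := hD.part i hi.1 hne hl
  have hji : j ≠ i := by omega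
  simp only [hji, if_false, if_true] at h3
  have h5 : k * d.pre.length + k * d.post.length = 0 := by omega
  have h6 : k * d.pre.length = 0 := by omega
  have h7 : k * d.post.length = 0 := by omega
  rw [Nat.mul_eq_zero, List.length_eq_zero_iff] at h6 h7
  constructor
  · rcases h6 with h6 | h6
    · omega
    · exact h6
  · rcases h7 with h7 | h7
    · omega
    · exact h7

end Pool.Agent.NGP
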