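import Pool.Agent.NGP.Defs

/-!
# NGP, part T: trees and contexts

Basic facts on `Cx.fill`, `Cx.comp`, `Cx.pre`, `Cx.post`. All by induction on the context.
-/

namespace Pool.Agent.NGP

/-- Powers of a context. -/
def Cx.pow (d : Cx) : ℕ → Cx
  | 0 => Cx.hole
  | k + 1 => d.comp (d.pow k)

/-- Left end of the node `c`. -/
def Cx.lo (c : Cx) : ℕ := c.pre.length

/-- Right end of the node `(c, σ)`. -/
def Cx.hi (c : Cx) (σ : Tr) : ℕ := c.pre.length + σ.y.length

/-- A loop of `τ`: the nodes `d.fill σ` and `σ` have the same type. -/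
def Lp (τ : Tr) (c d : Cx) (σ : Tr) : Prop := τ = c.fill (d.fill σ) ∧ (d.fill σ).ty = σ.ty

theorem Cx.y_fill (c : Cx) (σ : Tr) : (c.fill σ).y = c.pre ++ σ.y ++ c.post := by
  induction c with
  | hole => simp [Cx.fill, Cx.pre, Cx.post]
  | left t c r ih => simp [Cx.fill, Cx.pre, Cx.post, Tr.y, ih]
  | right t l c ih => simp [Cx.fill, Cx.pre, Cx.post, Tr.y, ih]

theorem Cx.fill_comp (c d : Cx) (σ : Tr) : (c.comp d).fill σ = c.fill (d.fill σ) := by
  induction c with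
  | hole => rfl
  | left t c r ih => simp [Cx.fill, Cx.comp, ih]
  | right t l c ih => simp [Cx.fill, Cx.comp, ih]

theorem Cx.pre_comp (c d : Cx) : (c.comp d).pre = c.pre ++ d.pre := by
  induction c with
  | hole => rfl
  | left t c r ih => simp [Cx.pre, Cx.comp, ih]
  | right t l c ih => simp [Cx.pre, Cx.comp, ih]

theorem Cx.post_comp (c d : Cx) : (c.comp d).post = d.post ++ c.post := by
  induction c with
  | hole => simp [Cx.post, Cx.comp]
  | left t c r ih => simp [Cx.post, Cx.comp, ih]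
  | right t l c ih => simp [Cx.post, Cx.comp, ih]

theorem Cx.comp_assoc (c d e : Cx) : (c.comp d).comp e = c.comp (d.comp e) := by
  induction c with
  | hole => rfl
  | left t c r ih => simp [Cx.comp, ih]
  | right t l c ih => simp [Cx.comp, ih]

theorem Cx.comp_hole (c : Cx) : c.comp Cx.hole = c := by
  induction c with
  | hole => rfl
  | left t c r ih => simp [Cx.comp, ih]
  | right t l c ih => simp [Cx.comp, ih]

theorem Cx.ok_fill {G : EG} {c : Cx} {σ : Tr} (h : (c.fill σ).ok G) : σ.ok G := by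
  induction c with
  | hole => exact h
  | left t c r ih => exact ih h.2.2.1
  | right t l c ih => exact ih h.2.2.2

theorem Cx.ty_fill {c : Cx} {σ σ' : Tr} (ht : σ'.ty = σ.ty) : (c.fill σ').ty = (c.fill σ).ty := by
  cases c with
  | hole => exact ht
  | left t c r => rfl
  | right t l c => rfl

theorem Cx.ok_repl {G : EG} {c : Cx} {σ σ' : Tr} (h : (c.fill σ).ok G) (h' : σ'.ok G)
    (ht : σ'.ty = σ.ty) : (c.fill σ').ok G := by
  induction c with
  | hole => exact h'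
  | left t c r ih =>
    obtain ⟨h1, h2, h3, h4⟩ := h
    refine ⟨h1, ?_, ih h3, h4⟩
    rw [Cx.ty_fill ht]; exact h2
  | right t l c ih =>
    obtain ⟨h1, h2, h3, h4⟩ := h
    refine ⟨h1, ?_, h3, ih h4⟩
    rw [Cx.ty_fill ht]; exact h2

theorem Tr.ty_lt {G : EG} {σ : Tr} (h : σ.ok G) : σ.ty < G.N := by
  cases σ with
  | ep t => exact h.1
  | lf t a => exact h.1
  | nd t l r => exact h.1

theorem Cx.pow_ty {d : Cx} {σ : Tr} (ht : (d.fill σ).ty = σ.ty) (k : ℕ) :
    ((d.pow k).fill σ).ty = σ.ty := by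
  induction k with
  | zero => rfl
  | succ k ih =>
    simp only [Cx.pow, Cx.fill_comp]
    rw [Cx.ty_fill (σ := σ) ih, ht]

theorem Cx.pow_ok {G : EG} {d : Cx} {σ : Tr} (h : (d.fill σ).ok G) (ht : (d.fill σ).ty = σ.ty)
    (k : ℕ) : ((d.pow k).fill σ).ok G := by
  induction k with
  | zero => exact Cx.ok_fill h
  | succ k ih =>
    simp only [Cx.pow, Cx.fill_comp]
    exact Cx.ok_repl h ih (Cx.pow_ty ht k)

theorem Cx.pow_pre (d : Cx) (k : ℕ) : (d.pow k).pre = (List.replicate k d.pre).flatten := by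
  induction k with
  | zero => rfl
  | succ k ih => simp [Cx.pow, Cx.pre_comp, ih, List.replicate_succ]

theorem Cx.pow_post (d : Cx) (k : ℕ) : (d.pow k).post = (List.replicate k d.post).flatten := by
  induction k with
  | zero => rfl
  | succ k ih =>
    simp only [Cx.pow, Cx.post_comp, ih]
    rw [List.replicate_succ', List.flatten_append]
    simp

/-- Pumping a loop. -/
theorem Lp.pump {G : EG} {τ : Tr} {c d : Cx} {σ : Tr} (hok : τ.ok G) (h : Lp τ c d σ) (k : ℕ) :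
    ∃ τ' : Tr, τ'.ok G ∧ τ'.ty = τ.ty ∧ τ'.y = c.pre ++ (List.replicate k d.pre).flatten ++ σ.y ++
      (List.replicate k d.post).flatten ++ c.post := by
  obtain ⟨h1, h2⟩ := h
  subst h1
  refine ⟨c.fill ((d.pow k).fill σ), ?_, ?_, ?_⟩
  · exact Cx.ok_repl hok (Cx.pow_ok (Cx.ok_fill hok) h2 k) (by rw [Cx.pow_ty h2, h2])
  · exact Cx.ty_fill (by rw [Cx.pow_ty h2, h2])
  · simp [Cx.y_fill, Cx.pow_pre, Cx.pow_post, List.append_assoc]

/-- Pumping two nested loops. -/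
theorem Lp.pump_nested {G : EG} {τ : Tr} {c d c' d' : Cx} {σ σ' : Tr} (hok : τ.ok G)
    (h : Lp τ c d σ) (h' : Lp σ c' d' σ') (k k' : ℕ) :
    ∃ τ' : Tr, τ'.ok G ∧ τ'.ty = τ.ty ∧ τ'.y = c.pre ++ (List.replicate k d.pre).flatten ++
      (c'.pre ++ (List.replicate k' d'.pre).flatten ++ σ'.y ++
        (List.replicate k' d'.post).flatten ++ c'.post) ++
      (List.replicate k d.post).flatten ++ c.post := by
  obtain ⟨h1, h2⟩ := h
  subst h1
  have hokσ : σ.ok G := Cx.ok_fill (c := d) (Cx.ok_fill hok)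
  obtain ⟨ρ, hρ, hρt, hρy⟩ := h'.pump hokσ k'
  have hd : (d.fill ρ).ok G := Cx.ok_repl (Cx.ok_fill hok) hρ hρt
  have hdt : (d.fill ρ).ty = ρ.ty := by rw [Cx.ty_fill hρt, h2, hρt]
  refine ⟨c.fill ((d.pow k).fill ρ), ?_, ?_, ?_⟩
  · exact Cx.ok_repl hok (Cx.pow_ok hd hdt k) (by rw [Cx.pow_ty hdt, hρt, h2])
  · exact Cx.ty_fill (by rw [Cx.pow_ty hdt, hρt, h2])
  · simp only [Cx.y_fill, Cx.pow_pre, Cx.pow_post, hρy]
    simp [List.append_assoc]

/-- Pumping two disjoint loops. -/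
theorem Lp.pump_disjoint {G : EG} {e : Cx} {t : ℕ} {l r : Tr} {c d c' d' : Cx} {σ σ' : Tr}
    (hok : (e.fill (Tr.nd t l r)).ok G) (h : Lp l c d σ) (h' : Lp r c' d' σ') (k k' : ℕ) :
    ∃ τ' : Tr, τ'.ok G ∧ τ'.ty = (e.fill (Tr.nd t l r)).ty ∧
      τ'.y = e.pre ++ (c.pre ++ (List.replicate k d.pre).flatten ++ σ.y ++
        (List.replicate k d.post).flatten ++ c.post) ++
      (c'.pre ++ (List.replicate k' d'.pre).flatten ++ σ'.y ++
        (List.replicate k' d'.post).flatten ++ c'.post) ++ e.post := by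
  obtain ⟨o1, o2, o3, o4⟩ := Cx.ok_fill hok
  obtain ⟨ρ, hρ, hρt, hρy⟩ := h.pump o3 k
  obtain ⟨ρ', hρ', hρt', hρy'⟩ := h'.pump o4 k'
  refine ⟨e.fill (Tr.nd t ρ ρ'), ?_, ?_, ?_⟩
  · refine Cx.ok_repl hok ⟨o1, ?_, hρ, hρ'⟩ rfl
    rw [hρt, hρt']; exact o2
  · exact Cx.ty_fill rfl
  · simp only [Cx.y_fill, Tr.y, hρy, hρy']
    simp [List.append_assoc]

end Pool.Agent.NGP
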