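import Pool.Agent.NGP.S2
import Pool.Agent.NGP.T1

/-!
# NGP, part K: existence of tables (KT2)
-/

namespace Pool.Agent.NGP

/-! ## Informations are bounded -/

theorem finite_lists {α : Type*} {S : Set α} (hS : S.Finite) (n : ℕ) :
    {l : List α | l.length ≤ n ∧ ∀ a ∈ l, a ∈ S}.Finite := by
  induction n with
  | zero =>
    refine (Set.finite_singleton ([] : List α)).subset ?_
    rintro l ⟨h1, -⟩
    simpa using h1
  | succ n ih =>
    refine ((Set.finite_singleton ([] : List α)).union (Set.Finite.image2 List.cons hS ih)).subset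
      ?_
    rintro l ⟨h1, h2⟩
    cases l with
    | nil => exact Or.inl rfl
    | cons a l =>
      refine Or.inr ⟨a, h2 a (by simp), l, ⟨?_, fun b hb => h2 b (by simp [hb])⟩, rfl⟩
      simpa using h1

/-- Bounded pairs of label lists. -/
def Pb (R : ℕ) (p : List ℕ × List ℕ) : Prop :=
  (∀ a ∈ p.1, a ∈ Set.Iio R) ∧ (∀ a ∈ p.2, a ∈ Set.Iio R)

/-- Bounded informations. -/
def Ib (R : ℕ) : Inf → Prop
  | Inf.S w => w.length ≤ 8 ∧ ∀ a ∈ w, a ∈ Set.Iio R
  | Inf.B L => L.length ≤ 16 ∧ ∀ p ∈ L, Pb R p ∧ p.1.length ≤ 5 ∧ p.2.length ≤ 5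

theorem finite_Ib (R : ℕ) : {ι : Inf | Ib R ι}.Finite := by
  have h1 := finite_lists (Set.finite_Iio R) 8
  have h2 := finite_lists (Set.finite_Iio R) 5
  have h3 := finite_lists (h2.prod h2) 16
  refine ((h1.image Inf.S).union (h3.image Inf.B)).subset ?_
  rintro (w | L) h
  · exact Or.inl ⟨w, h, rfl⟩
  · refine Or.inr ⟨L, ⟨h.1, fun p hp => ?_⟩, rfl⟩
    obtain ⟨⟨h4, h5⟩, h6, h7⟩ := h.2 p hp
    exact ⟨⟨h6, h4⟩, ⟨h7, h5⟩⟩

theorem adv_alive {q : ℕ → ℕ → ℕ → ℕ → Bool} : ∀ {X Y x y : List ℕ},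
    adv q X Y = Adv.alive x y → (∃ X' Y', X = X' ++ x ∧ Y = Y' ++ y) ∧
      (x.length ≤ 1 ∨ y.length ≤ 1) := by
  intro X
  induction X with
  | nil =>
    intro Y x y h
    simp only [adv, Adv.alive.injEq] at h
    obtain ⟨rfl, rfl⟩ := h
    exact ⟨⟨[], [], rfl, rfl⟩, Or.inl (by simp)⟩
  | cons a X ih =>
    intro Y x y h
    rcases X with _ | ⟨b, X⟩
    · simp only [adv, Adv.alive.injEq] at h
      obtain ⟨rfl, rfl⟩ := h
      exact ⟨⟨[], [], rfl, rfl⟩, Or.inl (by simp)⟩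
    · rcases Y with _ | ⟨c, _ | ⟨d, Y⟩⟩
      · simp only [adv, Adv.alive.injEq] at h
        obtain ⟨rfl, rfl⟩ := h
        exact ⟨⟨[], [], rfl, rfl⟩, Or.inr (by simp)⟩
      · simp only [adv, Adv.alive.injEq] at h
        obtain ⟨rfl, rfl⟩ := h
        exact ⟨⟨[], [], rfl, rfl⟩, Or.inr (by simp)⟩
      · rw [adv] at h
        split_ifs at h
        obtain ⟨⟨X', Y', h1, h2⟩, h3⟩ := ih h
        exact ⟨⟨a :: X', c :: Y', by rw [h1]; rfl, by rw [h2]; rfl⟩, h3⟩

theorem adv_pb {q : ℕ → ℕ → ℕ → ℕ → Bool} {R : ℕ} {X Y x y : List ℕ}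
    (h : adv q X Y = Adv.alive x y) (hX : Pb R (X, Y)) : Pb R (x, y) := by
  obtain ⟨⟨X', Y', rfl, rfl⟩, -⟩ := adv_alive h
  exact ⟨fun a ha => hX.1 a (by simp [ha]), fun a ha => hX.2 a (by simp [ha])⟩

theorem fil_length {A : List Adv} {L : List (List ℕ × List ℕ)} (h : fil A = some L) :
    L.length ≤ A.length := by
  induction A generalizing L with
  | nil =>
    simp only [fil, Option.some.injEq] at h
    subst h; simp
  | cons a A ih =>
    rcases a with _ | _ | ⟨x, y⟩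
    · simp [fil] at h
    · simp only [fil] at h
      exact (ih h).trans (by simp)
    · simp only [fil, Option.map_eq_some_iff] at h
      obtain ⟨L', h1, rfl⟩ := h
      have := ih h1
      split_ifs <;> simp only [List.length_cons] <;> omega

theorem fil_mem {A : List Adv} {L : List (List ℕ × List ℕ)} (h : fil A = some L)
    {p : List ℕ × List ℕ} (hp : p ∈ L) : Adv.alive p.1 p.2 ∈ A ∧ tight p.1 p.2 = true := by
  induction A generalizing L with
  | nil =>
    simp only [fil, Option.some.injEq] at h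
    subst h; simp at hp
  | cons a A ih =>
    rcases a with _ | _ | ⟨x, y⟩
    · simp [fil] at h
    · simp only [fil] at h
      have := ih h hp
      exact ⟨List.mem_cons_of_mem _ this.1, this.2⟩
    · simp only [fil, Option.map_eq_some_iff] at h
      obtain ⟨L', h1, h2⟩ := h
      split_ifs at h2 with ht
      · rw [← h2] at hp
        rcases List.mem_cons.1 hp with rfl | hp
        · exact ⟨by simp, ht⟩
        · have := ih h1 hp
          exact ⟨List.mem_cons_of_mem _ this.1, this.2⟩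
      · rw [← h2] at hp
        have := ih h1 hp
        exact ⟨List.mem_cons_of_mem _ this.1, this.2⟩

theorem cens_length {q : ℕ → ℕ → ℕ → ℕ → Bool} (w : List ℕ) : ∀ p : List ℕ,
    (cens q p w).length ≤ w.length := by
  induction w with
  | nil => intro p; simp [cens]
  | cons a w ih =>
    intro p
    have := ih (a :: p)
    simp only [cens]
    split_ifs <;> simp only [List.length_cons] <;> omega

theorem cens_mem {q : ℕ → ℕ → ℕ → ℕ → Bool} {R : ℕ} {x y : List ℕ} (hR : 0 < R) :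
    ∀ {w p : List ℕ}, (∀ a ∈ p, a ∈ Set.Iio R) → (∀ a ∈ w, a ∈ Set.Iio R) →
    Adv.alive x y ∈ cens q p w → Pb R (x, y) ∧ (x.length ≤ 1 ∨ y.length ≤ 1) := by
  intro w
  induction w with
  | nil => intro p _ _ h; simp [cens] at h
  | cons a w ih =>
    intro p hp hw h
    have hp' : ∀ b ∈ a :: p, b ∈ Set.Iio R := by
      intro b hb
      rcases List.mem_cons.1 hb with rfl | hb
      · exact hw _ (by simp)
      · exact hp b hb
    have hw' : ∀ b ∈ w, b ∈ Set.Iio R := fun b hb => hw b (by simp [hb])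
    simp only [cens] at h
    split_ifs at h with h0
    · rcases List.mem_cons.1 h with h | h
      · refine ⟨adv_pb h.symm ⟨?_, ?_⟩, (adv_alive h.symm).2⟩
        · intro b hb
          rcases List.mem_cons.1 hb with rfl | hb
          · exact hR
          · exact hp b hb
        · intro b hb
          rcases List.mem_cons.1 hb with rfl | hb
          · exact hR
          · exact hw' b hb
      · exact ih hp' hw' h
    · exact ih hp' hw' h

theorem tight_len {x y : List ℕ} (h : tight x y = true) (h1 : x.length ≤ 1 ∨ y.length ≤ 1) :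
    x.length ≤ 5 ∧ y.length ≤ 5 := by
  simp only [tight, decide_eq_true_eq] at h
  omega

theorem comb_Ib {q : ℕ → ℕ → ℕ → ℕ → Bool} {R : ℕ} (hR : 0 < R) {ι₁ ι₂ ι : Inf}
    (h : comb q (some ι₁) (some ι₂) = some ι) (h₁ : Ib R ι₁) (h₂ : Ib R ι₂) : Ib R ι := by
  rcases ι₁ with u | L₁ <;> rcases ι₂ with v | L₂
  · simp only [comb, Option.map_eq_some_iff] at h
    obtain ⟨L, hL, h⟩ := h
    have hm : ∀ a ∈ u ++ v, a ∈ Set.Iio R := by
      intro a ha
      rcases List.mem_append.1 ha with ha | ha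
      · exact h₁.2 a ha
      · exact h₂.2 a ha
    split_ifs at h with hl
    · rw [← h]
      exact ⟨hl, hm⟩
    · rw [← h]
      refine ⟨?_, ?_⟩
      · have e1 := fil_length hL
        have e2 := cens_length (q := q) (u ++ v) []
        have e3 := h₁.1
        have e4 := h₂.1
        simp only [List.length_append] at e2
        omega
      · intro p hp
        obtain ⟨e1, e2⟩ := fil_mem hL hp
        have e3 := cens_mem hR (by simp) hm e1
        exact ⟨e3.1, tight_len e2 e3.2⟩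
  · simp only [comb, Option.map_eq_some_iff] at h
    obtain ⟨L, hL, rfl⟩ := h
    refine ⟨?_, ?_⟩
    · have e1 := fil_length hL
      have e3 := h₂.1
      simp only [List.length_map] at e1
      omega
    · intro p hp
      obtain ⟨e1, e2⟩ := fil_mem hL hp
      obtain ⟨p', hp', e3⟩ := List.mem_map.1 e1
      refine ⟨adv_pb e3 ⟨?_, (h₂.2 p' hp').1.2⟩, tight_len e2 (adv_alive e3).2⟩
      intro a ha
      rcases List.mem_append.1 ha with ha | ha
      · exact (h₂.2 p' hp').1.1 a ha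
      · exact h₁.2 a (List.mem_reverse.1 ha)
  · simp only [comb, Option.map_eq_some_iff] at h
    obtain ⟨L, hL, rfl⟩ := h
    refine ⟨?_, ?_⟩
    · have e1 := fil_length hL
      have e3 := h₁.1
      simp only [List.length_map] at e1
      omega
    · intro p hp
      obtain ⟨e1, e2⟩ := fil_mem hL hp
      obtain ⟨p', hp', e3⟩ := List.mem_map.1 e1
      refine ⟨adv_pb e3 ⟨(h₁.2 p' hp').1.1, ?_⟩, tight_len e2 (adv_alive e3).2⟩
      intro a ha
      rcases List.mem_append.1 ha with ha | ha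
      · exact (h₁.2 p' hp').1.2 a ha
      · exact h₂.2 a ha
  · simp only [comb, Option.some.injEq] at h
    rw [← h]
    exact ⟨by simp, by simp⟩

theorem lh_le {a l : ℕ} (h : lh a = some l) : l ≤ a := by
  unfold lh at h
  split_ifs at h <;> simp only [Option.some.injEq] at h <;> omega

theorem inf_Ib {q : ℕ → ℕ → ℕ → ℕ → Bool} {G : EG} {σ : Tr} (hσ : σ.ok G) {ι : Inf}
    (h : inf q σ = some ι) : Ib (G.A + 1) ι := by
  induction σ generalizing ι with
  | ep t =>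
    simp only [inf, Option.some.injEq] at h
    rw [← h]
    exact ⟨by simp, by simp⟩
  | lf t a =>
    simp only [inf, Option.some.injEq] at h
    rw [← h]
    rcases hl : lh a with _ | l
    · exact ⟨by simp, by simp⟩
    · refine ⟨by simp, ?_⟩
      have h1 := hσ.2.1
      have h2 := lh_le hl
      simp only [Option.toList_some, List.mem_singleton, forall_eq, Set.mem_Iio]
      omega
  | nd t l r ihl ihr =>
    simp only [inf] at h
    rcases hl : inf q l with _ | ι₁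
    · rw [hl] at h
      simp [comb] at h
    · rcases hr : inf q r with _ | ι₂
      · rw [hl, hr] at h
        rcases ι₁ with _ | _ <;> simp [comb] at h
      · rw [hl, hr] at h
        exact comb_Ib (Nat.succ_pos _) h (ihl hσ.2.2.1 hl) (ihr hσ.2.2.2 hr)

/-! ## Contexts -/

theorem comb_none_leftS {q : ℕ → ℕ → ℕ → ℕ → Bool} (x : Option Inf) : comb q none x = none := by
  rcases x with _ | _ | _ <;> rfl

theorem comb_none_rightS {q : ℕ → ℕ → ℕ → ℕ → Bool} (x : Option Inf) : comb q x none = none := by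
  rcases x with _ | _ | _ <;> rfl

theorem inf_fill {q : ℕ → ℕ → ℕ → ℕ → Bool} {σ σ' : Tr} (h : inf q σ = inf q σ') (C : Cx) :
    inf q (C.fill σ) = inf q (C.fill σ') := by
  induction C with
  | hole => exact h
  | left t c r ih => simp only [Cx.fill, inf, ih]
  | right t l c ih => simp only [Cx.fill, inf, ih]

theorem inf_fill_ne {q : ℕ → ℕ → ℕ → ℕ → Bool} {σ : Tr} {C : Cx}
    (h : inf q (C.fill σ) ≠ none) : inf q σ ≠ none := by
  induction C with
  | hole => exact h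
  | left t c r ih =>
    apply ih
    intro h0
    apply h
    simp only [Cx.fill, inf, h0, comb_none_leftS]
  | right t l c ih =>
    apply ih
    intro h0
    apply h
    simp only [Cx.fill, inf, h0, comb_none_rightS]

/-! ## The table -/

/-- The tree `σ` realizes the key. -/
def Key (q : ℕ → ℕ → ℕ → ℕ → Bool) (G : EG) (n t s s' : ℕ) (ι : Inf) (σ : Tr) : Prop :=
  σ.ok G ∧ σ.ty = t ∧ s < 2 * n + 3 ∧ drun n s σ.y = some s' ∧ inf q σ = some ι

/-- The tree is used in an accepted root tree without violation; `s` is the state before it. -/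
def Gd (q : ℕ → ℕ → ℕ → ℕ → Bool) (G : EG) (n s : ℕ) (σ : Tr) : Prop :=
  ∃ C : Cx, (C.fill σ).ok G ∧ (C.fill σ).ty = G.st ∧ drun n 0 C.pre = some s ∧
    (∃ sf, drun n 0 (C.fill σ).y = some sf ∧ (sf = 2 * n + 1 ∨ sf = 2 * n + 2)) ∧
    inf q (C.fill σ) ≠ none

/-- All root trees of special words of value `≠ 1` have a violation. -/
def Vok (q : ℕ → ℕ → ℕ → ℕ → Bool) (G : EG) (n : ℕ) : Prop :=
  ∀ τ : Tr, τ.ok G → τ.ty = G.st → Sp n τ.y → fv τ.y ≠ 1 → inf q τ = none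

theorem Gd.exch {q : ℕ → ℕ → ℕ → ℕ → Bool} {G : EG} {n t s s' : ℕ} {ι : Inf} {σ σ' : Tr}
    (h : Gd q G n s σ) (hσ : Key q G n t s s' ι σ) (hσ' : Key q G n t s s' ι σ') :
    Gd q G n s σ' := by
  obtain ⟨C, h1, h2, h3, ⟨sf, h4, h5⟩, h6⟩ := h
  obtain ⟨k1, k2, k3, k4, k5⟩ := hσ
  obtain ⟨l1, l2, l3, l4, l5⟩ := hσ'
  have ht : σ'.ty = σ.ty := by rw [l2, k2]
  refine ⟨C, Cx.ok_repl h1 l1 ht, by rw [Cx.ty_fill ht, h2], h3, ⟨sf, ?_, h5⟩, ?_⟩
  · rw [Cx.y_fill, drun_append, drun_append, h3, Option.bind_some] at h4 ⊢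
    rw [k4] at h4
    rw [l4]
    exact h4
  · rw [inf_fill (l5.trans k5.symm) C]
    exact h6

theorem Gd.val {q : ℕ → ℕ → ℕ → ℕ → Bool} {G : EG} {n t s s' : ℕ} {ι : Inf} {σ σ' : Tr}
    (hv : Vok q G n) (h : Gd q G n s σ) (hσ : Key q G n t s s' ι σ)
    (hσ' : Key q G n t s s' ι σ') : rv σ.y = rv σ'.y := by
  obtain ⟨C, h1, h2, h3, ⟨sf, h4, h5⟩, h6⟩ := h
  obtain ⟨k1, k2, k3, k4, k5⟩ := hσ
  obtain ⟨l1, l2, l3, l4, l5⟩ := hσ'
  have ht : σ'.ty = σ.ty := by rw [l2, k2]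
  have key : ∀ ρ : Tr, (C.fill ρ).ok G → (C.fill ρ).ty = G.st →
      drun n 0 (C.fill ρ).y = some sf → inf q (C.fill ρ) ≠ none →
      fv C.pre * fv ρ.y * fv C.post = 1 := by
    intro ρ e1 e2 e3 e4
    by_contra hne
    apply e4
    refine hv _ e1 e2 (sp_of_drun e3 h5).1 ?_
    rw [Cx.y_fill, fv_append, fv_append]
    exact hne
  have e1 := key σ h1 h2 h4 h6
  have e2 : fv C.pre * fv σ'.y * fv C.post = 1 := by
    refine key σ' (Cx.ok_repl h1 l1 ht) (by rw [Cx.ty_fill ht, h2]) ?_ ?_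
    · rw [Cx.y_fill, drun_append, drun_append, h3, Option.bind_some] at h4 ⊢
      rw [k4] at h4
      rw [l4]
      exact h4
    · rw [inf_fill (l5.trans k5.symm) C]
      exact h6
  rw [rv_inj]
  have e3 := e1.trans e2.symm
  exact mul_left_cancel (mul_right_cancel e3)

open Classical in
/-- The entries of the table. -/
def Tab (q : ℕ → ℕ → ℕ → ℕ → Bool) (G : EG) (n : ℕ) : Set Ent :=
  {e | ∃ σ, Key q G n e.1 e.2.1 e.2.2.1 e.2.2.2.1 σ ∧
    e.2.2.2.2 = if Gd q G n e.2.1 σ then some (rv σ.y) else none}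

theorem tab_finite {q : ℕ → ℕ → ℕ → ℕ → Bool} {G : EG} {n : ℕ} (hv : Vok q G n) :
    (Tab q G n).Finite := by
  have h1 : ((Set.Iio G.N) ×ˢ ((Set.Iio (2 * n + 3)) ×ˢ ((Set.Iio (2 * n + 3)) ×ˢ
      {ι : Inf | Ib (G.A + 1) ι}))).Finite :=
    (Set.finite_Iio _).prod ((Set.finite_Iio _).prod ((Set.finite_Iio _).prod (finite_Ib _)))
  refine Set.Finite.of_finite_image (f := fun e : Ent => (e.1, e.2.1, e.2.2.1, e.2.2.2.1))
    (h1.subset ?_) ?_
  · rintro _ ⟨e, ⟨σ, ⟨k1, k2, k3, k4, k5⟩, -⟩, rfl⟩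
    refine ⟨?_, k3, drun_lt k3 k4, inf_Ib k1 k5⟩
    show e.1 < G.N
    rw [← k2]
    exact Tr.ty_lt k1
  · rintro ⟨t, s, s', ι, v⟩ ⟨σ, hk, hval⟩ ⟨t₂, s₂, s₂', ι₂, v₂⟩ ⟨σ₂, hk₂, hval₂⟩ heq
    simp only [Prod.mk.injEq] at heq
    obtain ⟨rfl, rfl, rfl, rfl⟩ := heq
    dsimp only at hk hval hk₂ hval₂
    rw [hval, hval₂]
    by_cases hg : Gd q G n s σ
    · rw [if_pos hg, if_pos (hg.exch hk hk₂), Gd.val hv hg hk hk₂]
    · rw [if_neg hg, if_neg (fun hg₂ => hg (Gd.exch hg₂ hk₂ hk))]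

theorem kcert_of_tab {q : ℕ → ℕ → ℕ → ℕ → Bool} {G : EG} {n : ℕ} (hv : Vok q G n) {tb : List Ent}
    (htb : ∀ e, e ∈ tb ↔ e ∈ Tab q G n) : Kcert q G n tb := by
  classical
  refine ⟨?_, ?_, ?_, ?_⟩
  · intro t ht hep s hs
    by_cases hg : Gd q G n s (Tr.ep t)
    · right
      rw [htb]
      refine ⟨Tr.ep t, ⟨⟨ht, hep⟩, rfl, hs, rfl, rfl⟩, ?_⟩
      dsimp only
      rw [if_pos hg]
      rfl
    · left
      rw [htb]
      refine ⟨Tr.ep t, ⟨⟨ht, hep⟩, rfl, hs, rfl, rfl⟩, ?_⟩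
      dsimp only
      rw [if_neg hg]
  · intro t ht a ha hlf s hs s' hs' hd
    have hk : Key q G n t s s' (Inf.S (lh a).toList) (Tr.lf t a) := by
      refine ⟨⟨ht, ha, hlf⟩, rfl, hs, ?_, rfl⟩
      simp [Tr.y, drun, hd]
    by_cases hg : Gd q G n s (Tr.lf t a)
    · right
      rw [htb]
      refine ⟨Tr.lf t a, hk, ?_⟩
      dsimp only
      rw [if_pos hg]
      rfl
    · left
      rw [htb]
      refine ⟨Tr.lf t a, hk, ?_⟩
      dsimp only
      rw [if_neg hg]
  · rintro t ht ⟨t₁, s₁, s₁', ι₁, v₁⟩ he₁ ⟨t₂, s₂, s₂', ι₂, v₂⟩ he₂ hb hs ι hι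
    rw [htb] at he₁ he₂
    obtain ⟨σ₁, k₁, hval₁⟩ := he₁
    obtain ⟨σ₂, k₂, hval₂⟩ := he₂
    dsimp only at k₁ k₂ hval₁ hval₂ hb hs hι ⊢
    subst hs
    have k₁' := k₁
    have k₂' := k₂
    obtain ⟨a1, a2, a3, a4, a5⟩ := k₁
    obtain ⟨b1, b2, b3, b4, b5⟩ := k₂
    have hk : Key q G n t s₁ s₂' ι (Tr.nd t σ₁ σ₂) := by
      refine ⟨⟨ht, by rw [a2, b2]; exact hb, a1, b1⟩, rfl, a3, ?_, ?_⟩
      · simp only [Tr.y]
        rw [drun_append, a4, Option.bind_some, b4]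
      · simp only [inf]
        rw [a5, b5, hι]
    by_cases hg : Gd q G n s₁ (Tr.nd t σ₁ σ₂)
    · right
      obtain ⟨C, h1, h2, h3, ⟨sf, h4, h5⟩, h6⟩ := hg
      have hg₁ : Gd q G n s₁ σ₁ := by
        refine ⟨C.comp (Cx.left t Cx.hole σ₂), ?_⟩
        rw [Cx.fill_comp]
        refine ⟨h1, h2, ?_, ⟨sf, h4, h5⟩, h6⟩
        rw [Cx.pre_comp]
        simpa [Cx.pre] using h3
      have hg₂ : Gd q G n s₁' σ₂ := by
        refine ⟨C.comp (Cx.right t σ₁ Cx.hole), ?_⟩
        rw [Cx.fill_comp]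
        refine ⟨h1, h2, ?_, ⟨sf, h4, h5⟩, h6⟩
        rw [Cx.pre_comp, drun_append, h3, Option.bind_some]
        simpa [Cx.pre] using a4
      rw [if_pos hg₁] at hval₁
      rw [if_pos hg₂] at hval₂
      refine ⟨_, _, hval₁, hval₂, ?_⟩
      rw [htb]
      refine ⟨Tr.nd t σ₁ σ₂, hk, ?_⟩
      dsimp only
      rw [if_pos ⟨C, h1, h2, h3, ⟨sf, h4, h5⟩, h6⟩, rmul_eq]
      rfl
    · left
      rw [htb]
      refine ⟨Tr.nd t σ₁ σ₂, hk, ?_⟩
      dsimp only
      rw [if_neg hg]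
  · rintro ⟨t, s, s', ι, v⟩ he ht hs hs'
    rw [htb] at he
    obtain ⟨σ, ⟨k1, k2, k3, k4, k5⟩, hval⟩ := he
    dsimp only at k1 k2 k3 k4 k5 hval ht hs hs' ⊢
    subst hs
    have hg : Gd q G n 0 σ := by
      refine ⟨Cx.hole, k1, by rw [← ht]; exact k2, rfl, ⟨s', k4, hs'⟩, ?_⟩
      show inf q σ ≠ none
      rw [k5]
      simp
    rw [hval, if_pos hg]
    have h1 : fv σ.y = 1 := by
      by_contra hne
      have := hv σ k1 (k2.trans ht) (sp_of_drun k4 hs').1 hne
      rw [k5] at this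
      simp at this
    have : rv σ.y = rv [] := by
      rw [rv_inj, h1]
      rfl
    rw [this]
    rfl

/-- (KT2) -/
theorem kcert_exists {q : ℕ → ℕ → ℕ → ℕ → Bool} {G : EG} {n : ℕ} (hv : Vok q G n) :
    ∃ tb, Kcert q G n tb := by
  classical
  refine ⟨(tab_finite hv).toFinset.toList, kcert_of_tab hv fun e => ?_⟩
  rw [Finset.mem_toList, Set.Finite.mem_toFinset]

end Pool.Agent.NGP
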