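import Pool.Agent.NGP.KTree
import Pool.Agent.NGP.KT2

/-!
# NGP, part K: existence of tables

See section K of `PROOF.md`.
-/

namespace Pool.Agent.NGP

theorem k_exists {g : ℕ} {q : ℕ → ℕ → ℕ → ℕ → Bool} {G : EG} (hG : ∀ w, G.L w → LQ g q w) :
    ∃ n₁, ∀ n, n₁ ≤ n → ∃ tb, Kcert q G n tb := by
  obtain ⟨n₁, h⟩ := k_tree hG
  exact ⟨n₁, fun n hn => kcert_exists (h n hn)⟩

end Pool.Agent.NGP
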