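import Pool.Agent.NGP.T1

/-!
# NGP, part T: two nodes of a tree are nested or disjoint
-/

namespace Pool.Agent.NGP

/-- Two nodes of a tree: nested or disjoint. -/
theorem Cx.tri : ∀ {c c' : Cx} {σ σ' : Tr}, c.fill σ = c'.fill σ' →
    (∃ d, c' = c.comp d ∧ σ = d.fill σ') ∨ (∃ d, c = c'.comp d ∧ σ' = d.fill σ) ∨
    (∃ (e : Cx) (t : ℕ) (d d' : Cx), c = e.comp (Cx.left t d (d'.fill σ')) ∧
      c' = e.comp (Cx.right t (d.fill σ) d')) ∨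
    (∃ (e : Cx) (t : ℕ) (d d' : Cx), c = e.comp (Cx.right t (d'.fill σ') d) ∧
      c' = e.comp (Cx.left t d' (d.fill σ)))
  | Cx.hole, c', σ, σ', h => Or.inl ⟨c', rfl, h⟩
  | c, Cx.hole, σ, σ', h => Or.inr (Or.inl ⟨c, rfl, h.symm⟩)
  | Cx.left t c r, Cx.left t' c' r', σ, σ', h => by
    simp only [Cx.fill, Tr.nd.injEq] at h
    obtain ⟨rfl, h2, rfl⟩ := h
    rcases Cx.tri h2 with ⟨d, rfl, rfl⟩ | ⟨d, rfl, rfl⟩ | ⟨e, u, d, d', rfl, rfl⟩ |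
      ⟨e, u, d, d', rfl, rfl⟩
    · exact Or.inl ⟨d, rfl, rfl⟩
    · exact Or.inr (Or.inl ⟨d, rfl, rfl⟩)
    · exact Or.inr (Or.inr (Or.inl ⟨Cx.left t e r, u, d, d', rfl, rfl⟩))
    · exact Or.inr (Or.inr (Or.inr ⟨Cx.left t e r, u, d, d', rfl, rfl⟩))
  | Cx.right t l c, Cx.right t' l' c', σ, σ', h => by
    simp only [Cx.fill, Tr.nd.injEq] at h
    obtain ⟨rfl, rfl, h2⟩ := h
    rcases Cx.tri h2 with ⟨d, rfl, rfl⟩ | ⟨d, rfl, rfl⟩ | ⟨e, u, d, d', rfl, rfl⟩ |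
      ⟨e, u, d, d', rfl, rfl⟩
    · exact Or.inl ⟨d, rfl, rfl⟩
    · exact Or.inr (Or.inl ⟨d, rfl, rfl⟩)
    · exact Or.inr (Or.inr (Or.inl ⟨Cx.right t l e, u, d, d', rfl, rfl⟩))
    · exact Or.inr (Or.inr (Or.inr ⟨Cx.right t l e, u, d, d', rfl, rfl⟩))
  | Cx.left t c r, Cx.right t' l' c', σ, σ', h => by
    simp only [Cx.fill, Tr.nd.injEq] at h
    obtain ⟨rfl, rfl, rfl⟩ := h
    exact Or.inr (Or.inr (Or.inl ⟨Cx.hole, t, c, c', rfl, rfl⟩))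
  | Cx.right t l c, Cx.left t' c' r', σ, σ', h => by
    simp only [Cx.fill, Tr.nd.injEq] at h
    obtain ⟨rfl, rfl, rfl⟩ := h
    exact Or.inr (Or.inr (Or.inr ⟨Cx.hole, t, c, c', rfl, rfl⟩))

/-- Nodes do not cross. -/
theorem no_cross {c c' : Cx} {σ σ' : Tr} (h : c.fill σ = c'.fill σ') (h1 : c.lo < c'.lo)
    (h2 : c'.lo < c.hi σ) (h3 : c.hi σ < c'.hi σ') : False := by
  rcases Cx.tri h with ⟨d, rfl, rfl⟩ | ⟨d, rfl, rfl⟩ | ⟨e, u, d, d', rfl, rfl⟩ |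
      ⟨e, u, d, d', rfl, rfl⟩ <;>
    simp only [Cx.lo, Cx.hi, Cx.pre_comp, Cx.y_fill, Cx.pre, List.length_append] at h1 h2 h3 <;>
    omega

/-- If the interval of `(c', σ')` is inside the interval of `(c, σ)`, not equal, and not empty, then
`(c', σ')` is a node inside `(c, σ)`. -/
theorem nested_of {c c' : Cx} {σ σ' : Tr} (h : c.fill σ = c'.fill σ') (h1 : c.lo ≤ c'.lo)
    (h2 : c'.hi σ' ≤ c.hi σ) (h3 : c.lo < c'.lo ∨ c'.hi σ' < c.hi σ) (h4 : c'.lo < c'.hi σ') :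
    ∃ d, c' = c.comp d ∧ σ = d.fill σ' := by
  rcases Cx.tri h with ⟨d, rfl, rfl⟩ | ⟨d, rfl, rfl⟩ | ⟨e, u, d, d', rfl, rfl⟩ |
      ⟨e, u, d, d', rfl, rfl⟩
  · exact ⟨d, rfl, rfl⟩
  all_goals
    simp only [Cx.lo, Cx.hi, Cx.pre_comp, Cx.y_fill, Cx.pre, List.length_append] at h1 h2 h3 h4
    omega

/-- Disjoint intervals: the nodes are disjoint. -/
theorem disj_of {c c' : Cx} {σ σ' : Tr} (h : c.fill σ = c'.fill σ') (h1 : c.hi σ ≤ c'.lo)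
    (h2 : c.lo < c.hi σ) (h3 : c'.lo < c'.hi σ') :
    ∃ (e : Cx) (t : ℕ) (d d' : Cx), c = e.comp (Cx.left t d (d'.fill σ')) ∧
      c' = e.comp (Cx.right t (d.fill σ) d') := by
  rcases Cx.tri h with ⟨d, rfl, rfl⟩ | ⟨d, rfl, rfl⟩ | ⟨e, u, d, d', rfl, rfl⟩ |
      ⟨e, u, d, d', rfl, rfl⟩
  · simp only [Cx.lo, Cx.hi, Cx.pre_comp, Cx.y_fill, List.length_append] at h1 h2 h3
    omega
  · simp only [Cx.lo, Cx.hi, Cx.pre_comp, Cx.y_fill, List.length_append] at h1 h2 h3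
    omega
  · exact ⟨e, u, d, d', rfl, rfl⟩
  · simp only [Cx.lo, Cx.hi, Cx.pre_comp, Cx.y_fill, Cx.pre, List.length_append] at h1 h2 h3
    omega

/-- Cancellation of contexts. -/
theorem Cx.comp_cancel {c d d' : Cx} (h : c.comp d = c.comp d') : d = d' := by
  induction c with
  | hole => exact h
  | left t c r ih =>
    simp only [Cx.comp, Cx.left.injEq, true_and, and_true] at h
    exact ih h
  | right t l c ih =>
    simp only [Cx.comp, Cx.right.injEq, true_and] at h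
    exact ih h

end Pool.Agent.NGP
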