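import Pool.Agent.NGP.KAdv
import Pool.Agent.NGP.T2

/-!
# NGP, part K: the scan of a centre (K16)
-/

namespace Pool.Agent.NGP

variable {q : ℕ → ℕ → ℕ → ℕ → Bool}

theorem comb_none_left (x : Option Inf) : comb q none x = none := by
  rcases x with _ | (_ | _) <;> rfl

theorem comb_none_right (x : Option Inf) : comb q x none = none := by
  rcases x with _ | (_ | _) <;> rfl

theorem inf_fill_none {C : Cx} {σ : Tr} (h : inf q σ = none) : inf q (C.fill σ) = none := by
  induction C with
  | hole => exact h
  | left t c r ih => simp only [Cx.fill, inf, ih, comb_none_left]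
  | right t l c ih => simp only [Cx.fill, inf, ih, comb_none_right]

/-- The state of the scan at the node with the context `D` around the centre. -/
def ScanOk (q : ℕ → ℕ → ℕ → ℕ → Bool) (D : Cx) (σ : Tr) : Prop :=
  inf q σ = none ∨ adv q (0 :: (labs D.pre).reverse) (0 :: labs D.post) = Adv.dead ∨
    ∃ x y, adv q (0 :: (labs D.pre).reverse) (0 :: labs D.post) = Adv.alive x y ∧
      (inf q σ = some (Inf.S (labs σ.y)) ∨ ∃ L, inf q σ = some (Inf.B L) ∧ (x, y) ∈ L)

theorem tight_of {X Y x y : List ℕ} (h : tight X Y = true) (h1 : adv q X Y = Adv.alive x y) :
    tight x y = true := by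
  have := adv_length h1
  simp only [tight, decide_eq_true_eq] at h ⊢
  omega

theorem labs_leaf {t a : ℕ} (ha : lh a = some 0) : labs (Tr.lf t a).y = [0] := by
  simp [labs, Tr.y, ha]

theorem scan_aux {t a : ℕ} (ha : lh a = some 0) : ∀ (D : Cx),
    (∀ D' D'' : Cx, D = D'.comp D'' →
      tight (0 :: (labs D''.pre).reverse) (0 :: labs D''.post) = true) →
    ScanOk q D (D.fill (Tr.lf t a))
  | Cx.hole, _ => by
    right; right
    refine ⟨[0], [0], ?_, ?_⟩
    · simp only [Cx.pre, Cx.post, labs, List.filterMap_nil, List.reverse_nil]
      rw [adv_sing_left]
    · left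
      simp [Cx.fill, inf, Tr.y, labs, ha]
  | Cx.left s c r, ht => by
    have ih := scan_aux (t := t) ha c (fun D' D'' h => ht (Cx.left s D' r) D'' (by rw [h]; rfl))
    have t1 := ht (Cx.left s Cx.hole r) c rfl
    have t2 := ht Cx.hole (Cx.left s c r) rfl
    simp only [Cx.pre, Cx.post, labs_append] at t2
    set X := 0 :: (labs c.pre).reverse with hX
    set Y := 0 :: labs c.post with hY
    have hY' : 0 :: (labs c.post ++ labs r.y) = Y ++ labs r.y := by simp [hY]
    rw [hY'] at t2
    -- the sibling is small
    have hr : (labs r.y).length ≤ 8 := by
      simp only [tight, decide_eq_true_eq, List.length_append] at t1 t2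
      omega
    unfold ScanOk
    simp only [Cx.fill, inf, Cx.pre, Cx.post, labs_append, Tr.y]
    rw [hY', ← hX]
    rcases ih with ih | ih | ⟨x, y, ih1, ih2⟩
    · left
      rw [ih, comb_none_left]
    · right; left
      have := adv_append_dead (q := q) [] (labs r.y) ih
      rwa [List.append_nil] at this
    · have e1 : adv q X (Y ++ labs r.y) = adv q x (y ++ labs r.y) := by
        have := adv_append_alive (q := q) [] (labs r.y) ih1
        rwa [List.append_nil, List.append_nil, ← hX, ← hY] at this
      rcases inf_small (q := q) hr with h2 | h2
      · left
        rw [h2, comb_none_right]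
      rw [h2]
      rcases ih2 with ih2 | ⟨L, ih2, ih3⟩
      · -- simple information of the child
        rw [ih2]
        simp only [comb]
        rcases hf : fil (cens q [] (labs (c.fill (Tr.lf t a)).y ++ labs r.y)) with _ | L
        · left; rfl
        · have hmem : adv q X (Y ++ labs r.y) ∈
              cens q [] (labs (c.fill (Tr.lf t a)).y ++ labs r.y) := by
            rw [mem_cens]
            refine ⟨labs c.pre, labs c.post ++ labs r.y, ?_, ?_⟩
            · rw [Cx.y_fill, labs_append, labs_append, labs_leaf ha]
              simp
            · rw [hX, hY]
              simp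
          rcases hadv : adv q X (Y ++ labs r.y) with _ | _ | ⟨x', y'⟩
          · rw [hadv] at hmem
            rw [fil_none_of_viol hmem] at hf
            exact absurd hf (by simp)
          · right; left; rfl
          · right; right
            refine ⟨x', y', rfl, ?_⟩
            simp only [Option.map_some, Option.some.injEq]
            split_ifs with hlen
            · left; rfl
            · right
              refine ⟨L, rfl, ?_⟩
              rw [mem_fil hf]
              exact ⟨hadv ▸ hmem, tight_of t2 hadv⟩
      · rw [ih2]
        simp only [comb]
        rcases hf : fil (List.map (fun p => adv q p.1 (p.2 ++ labs r.y)) L) with _ | L'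
        · left; rw [hf]; rfl
        · have hmem : adv q X (Y ++ labs r.y) ∈
              List.map (fun p : List ℕ × List ℕ => adv q p.1 (p.2 ++ labs r.y)) L := by
            rw [List.mem_map]
            exact ⟨(x, y), ih3, e1.symm⟩
          rcases hadv : adv q X (Y ++ labs r.y) with _ | _ | ⟨x', y'⟩
          · rw [hadv] at hmem
            rw [fil_none_of_viol hmem] at hf
            exact absurd hf (by simp)
          · right; left; rfl
          · right; right
            refine ⟨x', y', rfl, ?_⟩
            right
            refine ⟨L', by rw [hf]; rfl, ?_⟩
            rw [mem_fil hf]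
            exact ⟨hadv ▸ hmem, tight_of t2 hadv⟩
  | Cx.right s l c, ht => by
    have ih := scan_aux (t := t) ha c (fun D' D'' h => ht (Cx.right s l D') D'' (by rw [h]; rfl))
    have t1 := ht (Cx.right s l Cx.hole) c rfl
    have t2 := ht Cx.hole (Cx.right s l c) rfl
    simp only [Cx.pre, Cx.post, labs_append, List.reverse_append] at t2
    set X := 0 :: (labs c.pre).reverse with hX
    set Y := 0 :: labs c.post with hY
    have hX' : 0 :: ((labs c.pre).reverse ++ (labs l.y).reverse) = X ++ (labs l.y).reverse := by
      simp [hX]
    rw [hX'] at t2
    have hl : (labs l.y).length ≤ 8 := by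
      simp only [tight, decide_eq_true_eq, List.length_append, List.length_reverse] at t1 t2
      omega
    unfold ScanOk
    simp only [Cx.fill, inf, Cx.pre, Cx.post, labs_append, Tr.y, List.reverse_append]
    rw [hX', ← hY]
    rcases ih with ih | ih | ⟨x, y, ih1, ih2⟩
    · left
      rw [ih, comb_none_right]
    · right; left
      have := adv_append_dead (q := q) (labs l.y).reverse [] ih
      rwa [List.append_nil] at this
    · have e1 : adv q (X ++ (labs l.y).reverse) Y = adv q (x ++ (labs l.y).reverse) y := by
        have := adv_append_alive (q := q) (labs l.y).reverse [] ih1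
        rwa [List.append_nil, List.append_nil, ← hX, ← hY] at this
      rcases inf_small (q := q) hl with h2 | h2
      · left
        rw [h2, comb_none_left]
      rw [h2]
      rcases ih2 with ih2 | ⟨L, ih2, ih3⟩
      · rw [ih2]
        simp only [comb]
        rcases hf : fil (cens q [] (labs l.y ++ labs (c.fill (Tr.lf t a)).y)) with _ | L
        · left; rfl
        · have hmem : adv q (X ++ (labs l.y).reverse) Y ∈
              cens q [] (labs l.y ++ labs (c.fill (Tr.lf t a)).y) := by
            rw [mem_cens]
            refine ⟨labs l.y ++ labs c.pre, labs c.post, ?_, ?_⟩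
            · rw [Cx.y_fill, labs_append, labs_append, labs_leaf ha]
              simp
            · rw [hX, hY]
              simp
          rcases hadv : adv q (X ++ (labs l.y).reverse) Y with _ | _ | ⟨x', y'⟩
          · rw [hadv] at hmem
            rw [fil_none_of_viol hmem] at hf
            exact absurd hf (by simp)
          · right; left; rfl
          · right; right
            refine ⟨x', y', rfl, ?_⟩
            simp only [Option.map_some, Option.some.injEq]
            split_ifs with hlen
            · left; rfl
            · right
              refine ⟨L, rfl, ?_⟩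
              rw [mem_fil hf]
              exact ⟨hadv ▸ hmem, tight_of t2 hadv⟩
      · rw [ih2]
        simp only [comb]
        rcases hf : fil (List.map (fun p => adv q (p.1 ++ (labs l.y).reverse) p.2) L) with _ | L'
        · left; rw [hf]; rfl
        · have hmem : adv q (X ++ (labs l.y).reverse) Y ∈
              List.map (fun p : List ℕ × List ℕ => adv q (p.1 ++ (labs l.y).reverse) p.2) L := by
            rw [List.mem_map]
            exact ⟨(x, y), ih3, e1.symm⟩
          rcases hadv : adv q (X ++ (labs l.y).reverse) Y with _ | _ | ⟨x', y'⟩
          · rw [hadv] at hmem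
            rw [fil_none_of_viol hmem] at hf
            exact absurd hf (by simp)
          · right; left; rfl
          · right; right
            refine ⟨x', y', rfl, ?_⟩
            right
            refine ⟨L', by rw [hf]; rfl, ?_⟩
            rw [mem_fil hf]
            exact ⟨hadv ▸ hmem, tight_of t2 hadv⟩

/-- The scan: a node (context `D` around the centre) with a violation, all nodes between the
centre and this node are tight. Then the information of the whole tree is `none`. -/
theorem scan {C D : Cx} {t a : ℕ} (ha : lh a = some 0)
    (ht : ∀ D' D'' : Cx, D = D'.comp D'' →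
      tight (0 :: (labs D''.pre).reverse) (0 :: labs D''.post) = true)
    (hv : adv q (0 :: (labs D.pre).reverse) (0 :: labs D.post) = Adv.viol) :
    inf q (C.fill (D.fill (Tr.lf t a))) = none := by
  apply inf_fill_none
  rcases scan_aux (q := q) ha D ht with h | h | ⟨x, y, h, _⟩
  · exact h
  · rw [hv] at h
    exact absurd h (by simp)
  · rw [hv] at h
    exact absurd h (by simp)

end Pool.Agent.NGP
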