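import Pool.Agent.NGP.KCell

/-!
# NGP, part K: the special word of the setting `KS`
-/

namespace Pool.Agent.NGP

/-! ## Format -/

theorem lh_lt_ten {a : ℕ} (h0 : a ≠ 0) (h : a < 10) :
    lh a = if a % 2 = 0 then some 1 else none := by
  unfold lh
  rw [if_neg h0, if_pos h]

theorem rep_nolabel {a k : ℕ} (h : lh a = none) : ∀ b ∈ List.replicate k a, lh b = none := by
  intro b hb
  rw [List.mem_replicate] at hb
  rw [hb.2]
  exact h

theorem lead_rep_append {a k : ℕ} (h : lh a = none) {w : List ℕ} (hw : lead w = 0) :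
    lead (List.replicate k a ++ w) = k := by
  rw [lead_append_of (rep_nolabel h), hw, List.length_replicate, Nat.add_zero]

theorem lead_rep {a k : ℕ} (h : lh a = none) : lead (List.replicate k a) = k := by
  have := lead_rep_append (k := k) h (w := []) rfl
  simpa using this

theorem cells_rep {a k : ℕ} (h : lh a = none) : cells (List.replicate k a) = [] := by
  have := cells_append_nolabel (w := []) (rep_nolabel (k := k) h)
  simpa [cells] using this

theorem cells_P1 (i j : ℕ) {w : List ℕ} (hw : lead w = 0) :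
    cells (P1 i j ++ w) = (1, i) :: (1, j) :: cells w := by
  have h2 : lh 2 = some 1 := by decide
  have h3 : lh 3 = none := by decide
  have h4 : lh 4 = some 1 := by decide
  have h5 : lh 5 = none := by decide
  have e1 : lead (4 :: (List.replicate j 5 ++ w)) = 0 := by simp [lead, h4]
  have e2 : cells (List.replicate i 3 ++ 4 :: (List.replicate j 5 ++ w)) =
      cells (4 :: (List.replicate j 5 ++ w)) := cells_append_nolabel (rep_nolabel h3)
  have e3 : cells (List.replicate j 5 ++ w) = cells w := cells_append_nolabel (rep_nolabel h5)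
  simp only [P1, List.cons_append, List.append_assoc, cells, h2, h4, e2, e3]
  rw [lead_rep_append h3 e1, lead_rep_append h5 hw]

theorem cells_P2 (i j : ℕ) : cells (P2 i j) = [(1, i), (1, j)] := by
  have h2 : lh 6 = some 1 := by decide
  have h3 : lh 7 = none := by decide
  have h4 : lh 8 = some 1 := by decide
  have h5 : lh 9 = none := by decide
  have e1 : lead (8 :: List.replicate j 9) = 0 := by simp [lead, h4]
  have e2 : cells (List.replicate i 7 ++ 8 :: List.replicate j 9) =
      cells (8 :: List.replicate j 9) := cells_append_nolabel (rep_nolabel h3)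
  simp only [P2, List.cons_append, cells, h2, h4, e2]
  rw [lead_rep_append h3 e1, lead_rep h5, cells_rep h5]

/-- The first letter of words of the format is `2`, it does not occur again. -/
theorem Fm.head {g : ℕ} {w : List ℕ} (h : Fm g w) : ∃ w', w = 2 :: w' ∧ 2 ∉ w' := by
  obtain ⟨i₁, j₁, m, i₂, j₂, rfl, hM⟩ := h
  refine ⟨_, by simp only [P1, List.cons_append]; rfl, ?_⟩
  intro hc
  have hm : 2 ∉ m := by
    intro h2
    have := hM.2.1 2 h2
    omega
  simp [P2, List.mem_replicate, hm] at hc

theorem Fm.cells {g : ℕ} {w : List ℕ} (h : Fm g w) :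
    ∃ i₁ j₁ k i₂ j₂ C, cells w = (1, i₁) :: (1, j₁) :: (0, k) :: (C ++ [(1, i₂), (1, j₂)]) := by
  obtain ⟨i₁, j₁, m, i₂, j₂, rfl, hM⟩ := h
  obtain ⟨⟨m', rfl⟩, -⟩ := hM
  have h0 : lh 0 = some 0 := by decide
  have e1 : lead ((0 :: m') ++ P2 i₂ j₂) = 0 := by simp [lead, h0]
  have e2 : Pool.Agent.NGP.cells ((0 :: m') ++ P2 i₂ j₂) =
      Pool.Agent.NGP.cells (0 :: m') ++ Pool.Agent.NGP.cells (P2 i₂ j₂) := by
    apply cells_append_label
    right
    exact ⟨6, _, rfl, by decide⟩
  refine ⟨i₁, j₁, lead m', i₂, j₂, Pool.Agent.NGP.cells m', ?_⟩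
  rw [List.append_assoc, cells_P1 _ _ e1, e2, cells_P2]
  simp [Pool.Agent.NGP.cells, h0]

/-! ## Lengths -/

/-- A word that starts with a label has as many letters as its cells. -/
theorem length_eq_lsum {a : ℕ} {w : List ℕ} (ha : lh a ≠ none) :
    (a :: w).length = lsum (cells (a :: w)) := by
  have key : ∀ w : List ℕ, w.length = lead w + lsum (cells w) := by
    intro w
    induction w with
    | nil => rfl
    | cons b w ih =>
      rcases hl : lh b with _ | l
      · simp only [List.length_cons, lead, hl, if_true, cells]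
        omega
      · simp only [List.length_cons, lead, hl, reduceCtorEq, if_false, cells, lsum,
          List.map_cons, List.sum_cons]
        unfold lsum at ih
        omega
  rw [key (a :: w), lead_cons_label ha, Nat.zero_add]

theorem lsum_append (C D : List (ℕ × ℕ)) : lsum (C ++ D) = lsum C + lsum D := by
  simp [lsum]

theorem lsum_const {n : ℕ} {C : List (ℕ × ℕ)} (h : ∀ c ∈ C, c.2 = n) :
    lsum C = C.length * (n + 1) := by
  induction C with
  | nil => simp [lsum]
  | cons c C ih =>
    have h1 := ih (fun c hc => h c (by simp [hc]))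
    have h2 := h c (by simp)
    unfold lsum at h1 ⊢
    rw [List.map_cons, List.sum_cons, h1, h2, List.length_cons]
    ring

variable {g : ℕ} {q : ℕ → ℕ → ℕ → ℕ → Bool} {G : EG} {n : ℕ} {τ : Tr}

theorem KS.inL (h : KS g q G n τ) : G.L τ.y := ⟨τ, h.ok, h.root, rfl⟩

theorem KS.fm (h : KS g q G n τ) : Fm g τ.y := (h.hG _ h.inL).1

theorem KS.head (h : KS g q G n τ) : ∃ w', τ.y = 2 :: w' ∧ 2 ∉ w' := h.fm.head

theorem KS.cells_eq (h : KS g q G n τ) :
    cells τ.y = (List.range (KM τ)).map (fun i => (lab τ i, n)) := by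
  apply List.ext_getElem?
  intro i
  rw [List.getElem?_map, range_get]
  by_cases hi : i < KM τ
  · have hi' : i < (cells τ.y).length := hi
    rw [if_pos hi, List.getElem?_eq_getElem hi']
    simp only [Option.map_some, Option.some.injEq]
    have h1 : ((cells τ.y)[i]).2 = n := h.sp.1 _ (List.getElem_mem hi')
    have h2 : lab τ i = ((cells τ.y)[i]).1 := by
      unfold lab
      rw [List.getD_eq_getElem _ _ hi']
    rw [h2, ← h1]
  · rw [if_neg hi]
    have hi' : (cells τ.y).length ≤ i := by
      unfold KM at hi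
      omega
    rw [List.getElem?_eq_none hi']
    rfl

theorem KS.length (h : KS g q G n τ) : τ.y.length = KM τ * (n + 1) := by
  obtain ⟨w', hw, -⟩ := h.head
  have h1 := length_eq_lsum (a := 2) (w := w') (by decide)
  rw [← hw] at h1
  rw [h1, lsum_const h.sp.1]
  rfl

/-- Number of labels in a prefix. -/
theorem KS.labs_pre (h : KS g q G n τ) {x z : List ℕ} (hx : τ.y = x ++ z) :
    (labs x).length = (x.length + n) / (n + 1) := by
  rcases x with _ | ⟨a, x⟩
  · simp only [labs, List.filterMap_nil, List.length_nil, Nat.zero_add]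
    rw [Nat.div_eq_of_lt (by omega)]
  · obtain ⟨w', hw, -⟩ := h.head
    have ha : lh a ≠ none := by
      rw [hx, List.cons_append, List.cons.injEq] at hw
      rw [hw.1]; decide
    have hlen := length_eq_lsum (w := x) ha
    have hne : cells (a :: x) ≠ [] := by
      obtain ⟨l, hl⟩ := Option.ne_none_iff_exists'.1 ha
      simp [cells, hl]
    obtain ⟨C, c, hC⟩ : ∃ C c, cells (a :: x) = C ++ [c] := by
      rcases List.eq_nil_or_concat (cells (a :: x)) with h | ⟨C, c, h⟩
      · exact absurd h hne
      · exact ⟨C, c, by rw [h, List.concat_eq_append]⟩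
    obtain ⟨b, m⟩ := c
    have e1 : cells τ.y = C ++ (b, m + lead z) :: cells z := by
      rw [hx, cells_append, hC, addl_snoc]
      simp
    have hn : ∀ c ∈ C, c.2 = n := by
      intro c hc
      apply h.sp.1
      rw [e1]
      simp [hc]
    have hm : m + lead z = n := h.sp.1 (b, m + lead z) (by rw [e1]; simp)
    have hl2 : (labs (a :: x)).length = C.length + 1 := by
      rw [← cells_length, hC]
      simp
    have hl3 : lsum (cells (a :: x)) = C.length * (n + 1) + (m + 1) := by
      rw [hC, lsum_append, lsum_const hn]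
      simp [lsum]
    rw [hl2, hlen, hl3]
    have e4 : C.length * (n + 1) + (m + 1) + n = m + (n + 1) * (C.length + 1) := by ring
    rw [e4, Nat.add_mul_div_left _ _ (by omega), Nat.div_eq_of_lt (by omega)]
    omega

/-- Factors inside the run of the cell `i`. -/
theorem KS.run (h : KS g q G n τ) {i : ℕ} {x v z : List ℕ} (hx : τ.y = x ++ v ++ z)
    (hr : InRun n i x.length (x.length + v.length)) :
    (∀ a ∈ v, lh a = none) ∧ (labs x).length = i + 1 := by
  have h1 := h.labs_pre (x := x) (z := v ++ z) (by rw [hx, List.append_assoc])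
  have h2 := h.labs_pre (x := x ++ v) (z := z) hx
  obtain ⟨h3, h4⟩ := hr
  have e1 : (x.length + n) / (n + 1) = i + 1 := by
    apply Nat.div_eq_of_lt_le
    · nlinarith
    · nlinarith
  have e2 : ((x ++ v).length + n) / (n + 1) = i + 1 := by
    rw [List.length_append]
    apply Nat.div_eq_of_lt_le
    · nlinarith
    · nlinarith
  rw [e1] at h1
  rw [e2, labs_append, List.length_append, h1] at h2
  refine ⟨?_, h1⟩
  have h5 : labs v = [] := List.length_eq_zero_iff.1 (by omega)
  intro a ha
  by_contra hc
  obtain ⟨l, hl⟩ := Option.ne_none_iff_exists'.1 hc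
  have : l ∈ labs v := by
    unfold labs
    rw [List.mem_filterMap]
    exact ⟨a, ha, hl⟩
  rw [h5] at this
  simp at this

/-! ## Labels -/

theorem lab_get {τ : Tr} {i : ℕ} {c : ℕ × ℕ} (hc : (cells τ.y)[i]? = some c) :
    lab τ i = c.1 := by
  unfold lab
  rw [List.getD_eq_getElem?_getD, hc]
  rfl

theorem KS.ends (h : KS g q G n τ) : 5 ≤ KM τ ∧ lab τ 0 = 1 ∧ lab τ 1 = 1 ∧
    lab τ (KM τ - 1) = 1 ∧ lab τ (KM τ - 2) = 1 := by
  obtain ⟨i₁, j₁, k, i₂, j₂, C, hC⟩ := h.fm.cells
  have hM : KM τ = C.length + 5 := by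
    unfold KM
    rw [hC]
    simp
  refine ⟨by omega, ?_, ?_, ?_, ?_⟩
  · exact lab_get (c := (1, i₁)) (by rw [hC]; rfl)
  · exact lab_get (c := (1, j₁)) (by rw [hC]; rfl)
  · apply lab_get (c := (1, j₂))
    rw [hM, hC]
    have : C.length + 5 - 1 = (C.length + 1) + 3 := by omega
    rw [this]
    simp
  · apply lab_get (c := (1, i₂))
    rw [hM, hC]
    have : C.length + 5 - 2 = C.length + 3 := by omega
    rw [this]
    simp

theorem KS.adj (h : KS g q G n τ) {i : ℕ} (hi : i + 1 < KM τ) :
    ¬ (lab τ i = 0 ∧ lab τ (i + 1) = 0) := by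
  have h2 := h.sp.2
  rw [List.isChain_iff_getElem] at h2
  have h3 := h2 i hi
  have hi' : i + 1 < (cells τ.y).length := hi
  rw [lab_get (List.getElem?_eq_getElem (by omega : i < (cells τ.y).length)),
    lab_get (List.getElem?_eq_getElem hi')]
  exact h3

theorem hsh_map (M : ℕ) (l f : ℕ → ℕ) :
    hsh ((List.range M).map fun i => (l i, f i)) =
      ((Finset.range M).filter fun i => l i = 0).card := by
  unfold hsh
  rw [List.countP_map]
  induction M with
  | zero => simp
  | succ M ih =>
    rw [List.range_succ, List.countP_append, ih, Finset.range_add_one, Finset.filter_insert]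
    by_cases h : l M = 0
    · rw [if_pos h, Finset.card_insert_of_notMem (by simp)]
      simp [h]
    · rw [if_neg h]
      simp [h]

theorem KS.H_eq (h : KS g q G n τ) :
    KH τ = ((Finset.range (KM τ)).filter fun i => lab τ i = 0).card := by
  unfold KH
  rw [h.cells_eq, hsh_map]

end Pool.Agent.NGP
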