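import Pool.Agent.NGP.KComb
import Pool.Agent.NGP.KScan

/-!
# NGP, part K: tightness of the nodes around the centre (K15)
-/

namespace Pool.Agent.NGP

/-- The leaf at a position. -/
theorem leaf_at : ∀ (μ : Tr) (p : ℕ), p < μ.y.length →
    ∃ D t a, μ = Cx.fill D (Tr.lf t a) ∧ D.pre.length = p
  | Tr.ep t, p, h => by simp [Tr.y] at h
  | Tr.lf t a, p, h => by
    simp only [Tr.y, List.length_singleton] at h
    exact ⟨Cx.hole, t, a, rfl, by simp [Cx.pre]; omega⟩
  | Tr.nd t l r, p, h => by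
    simp only [Tr.y, List.length_append] at h
    by_cases h1 : p < l.y.length
    · obtain ⟨D, t', a, h2, h3⟩ := leaf_at l p h1
      exact ⟨Cx.left t D r, t', a, by rw [Cx.fill, ← h2], h3⟩
    · obtain ⟨D, t', a, h2, h3⟩ := leaf_at r (p - l.y.length) (by omega)
      exact ⟨Cx.right t l D, t', a, by rw [Cx.fill, ← h2], by
        simp only [Cx.pre, List.length_append]; omega⟩

variable {g : ℕ} {q : ℕ → ℕ → ℕ → ℕ → Bool} {G : EG} {n : ℕ} {τ : Tr}

/-- The outer node of a link. -/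
theorem Link.node {i j : ℕ} (h : Link n τ i j) : ∃ c σ, τ = Cx.fill c σ ∧ i * (n + 1) < c.lo ∧
    c.lo < (i + 1) * (n + 1) ∧ j * (n + 1) + 1 < c.hi σ ∧ c.hi σ ≤ (j + 1) * (n + 1) := by
  obtain ⟨_, _, _, _, c, d, σ, hL, hpre, hlen, h1, h2⟩ := h
  have hpos : 0 < d.pre.length := List.length_pos_iff.2 hpre
  refine ⟨c, d.fill σ, hL.1, ?_, ?_, ?_, h2.2⟩
  · have := h1.1
    omega
  · have := h1.2
    omega
  · have := h2.1
    rw [Cx.hi_fill_eq]
    omega

/-- The labels of a factor. -/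
theorem KS.labs_fac (h : KS g q G n τ) {x v z : List ℕ} (hx : τ.y = x ++ v ++ z) :
    labs v = (List.range ((x.length + v.length + n) / (n + 1) - (x.length + n) / (n + 1))).map
      (fun t => lab τ ((x.length + n) / (n + 1) + t)) := by
  have h1 := h.labs_pre (x := x) (z := v ++ z) (by rw [hx, List.append_assoc])
  have h2 := h.labs_pre (x := x ++ v) (z := z) hx
  rw [labs_append, List.length_append, List.length_append] at h2
  have h3 : labs τ.y = (List.range (KM τ)).map (lab τ) := by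
    rw [labs_eq, h.cells_eq, List.map_map]
    rfl
  rw [hx, labs_append, labs_append] at h3
  apply List.ext_getElem?
  intro t
  rw [List.getElem?_map, range_get]
  by_cases ht : t < (labs v).length
  · rw [if_pos (by omega)]
    have h4 := congrArg (fun L => L[(labs x).length + t]?) h3
    rw [List.getElem?_append_left (by rw [List.length_append]; omega),
      List.getElem?_append_right (by omega), Nat.add_sub_cancel_left, List.getElem?_map,
      range_get] at h4
    have h5 := congrArg List.length h3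
    simp only [List.length_append, List.length_map, List.length_range] at h5
    rw [h4, if_pos (by omega), h1]
    rfl
  · rw [if_neg (by omega), List.getElem?_eq_none (by omega)]
    rfl

/-- (F1), (F2): a node around the centre and the node of a link. -/
theorem node_link {c₁ : Cx} {σ₁ : Tr} (h1 : τ = c₁.fill σ₁) {c i j : ℕ}
    (hlo : c₁.lo ≤ c * (n + 1)) (hhi : c * (n + 1) < c₁.hi σ₁) (hl : Link n τ i j)
    (hic : i < c) (hcj : c < j) :
    ((c₁.lo + n) / (n + 1) ≤ i → j + 1 ≤ (c₁.hi σ₁ + n) / (n + 1)) ∧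
    (j + 2 ≤ (c₁.hi σ₁ + n) / (n + 1) → (c₁.lo + n) / (n + 1) ≤ i + 1) := by
  obtain ⟨c₂, σ₂, h2, a1, a2, a3, a4⟩ := hl.node
  have b1 : (i + 1) * (n + 1) ≤ c * (n + 1) := Nat.mul_le_mul_right _ hic
  have b2 : (c + 1) * (n + 1) ≤ j * (n + 1) := Nat.mul_le_mul_right _ hcj
  have b3 : (c + 1) * (n + 1) = c * (n + 1) + (n + 1) := by ring
  have b4 : (j + 1) * (n + 1) = j * (n + 1) + (n + 1) := by ring
  have b5 : (i + 1) * (n + 1) = i * (n + 1) + (n + 1) := by ring
  constructor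
  · intro h3
    have h4 : c₁.lo ≤ i * (n + 1) := by
      have := Nat.lt_mul_of_div_lt (Nat.lt_succ_of_le h3) (by omega)
      rw [Nat.succ_eq_add_one] at this
      omega
    have h5 : c₂.hi σ₂ ≤ c₁.hi σ₁ := by
      by_contra hcon
      exact no_cross (c := c₁) (c' := c₂) (σ := σ₁) (σ' := σ₂) (h1 ▸ h2) (by omega) (by omega)
        (by omega)
    rw [Nat.le_div_iff_mul_le (by omega)]
    omega
  · intro h3
    rw [Nat.le_div_iff_mul_le (by omega)] at h3
    have b6 : (j + 2) * (n + 1) = j * (n + 1) + 2 * (n + 1) := by ring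
    have h5 : c₁.lo ≤ c₂.lo := by
      by_contra hcon
      exact no_cross (c := c₂) (c' := c₁) (σ := σ₂) (σ' := σ₁) (h2 ▸ h1) (by omega) (by omega)
        (by omega)
    rw [← Nat.lt_succ_iff, Nat.div_lt_iff_lt_mul (by omega), Nat.succ_eq_add_one]
    have b7 : (i + 1 + 1) * (n + 1) = i * (n + 1) + 2 * (n + 1) := by ring
    omega

/-- (K15) All nodes around the centre inside the outer link node are tight. -/
theorem k_tight {c d i₁ j₁ i₂ j₂ : ℕ} (hd : d + 1 ≤ c)
    (hz : ∀ t, 1 ≤ t → t ≤ d → Link n τ (c - t) (c + t))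
    (hl₁ : Link n τ i₁ j₁) (a1 : i₁ + d + 1 ≤ c) (a2 : c + d + 1 ≤ j₁) (a3 : j₁ ≤ c + d + 2)
    (a4 : c ≤ i₂ + d + 4) (a5 : j₂ ≤ c + d + 4)
    {c₁ : Cx} {σ₁ : Tr} (h1 : τ = c₁.fill σ₁)
    (hlo : c₁.lo ≤ c * (n + 1)) (hhi : c * (n + 1) < c₁.hi σ₁)
    (hlo2 : i₂ * (n + 1) < c₁.lo) (hhi2 : c₁.hi σ₁ ≤ (j₂ + 1) * (n + 1)) :
    (c₁.lo + n) / (n + 1) ≤ c ∧ c + 1 ≤ (c₁.hi σ₁ + n) / (n + 1) ∧
    (c - (c₁.lo + n) / (n + 1)) + 1 ≤ ((c₁.hi σ₁ + n) / (n + 1) - (c + 1)) + 1 + 4 ∧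
    ((c₁.hi σ₁ + n) / (n + 1) - (c + 1)) + 1 ≤ (c - (c₁.lo + n) / (n + 1)) + 1 + 4 := by
  set A := (c₁.lo + n) / (n + 1) with hA
  set B := (c₁.hi σ₁ + n) / (n + 1) with hB
  have hAc : A ≤ c := by
    rw [hA, ← Nat.lt_succ_iff, Nat.div_lt_iff_lt_mul (by omega), Nat.succ_eq_add_one]
    have : (c + 1) * (n + 1) = c * (n + 1) + (n + 1) := by ring
    omega
  have hBc : c + 1 ≤ B := by
    rw [hB, Nat.le_div_iff_mul_le (by omega)]
    have : (c + 1) * (n + 1) = c * (n + 1) + (n + 1) := by ring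
    omega
  have hA2 : i₂ + 1 ≤ A := by
    rw [hA, Nat.le_div_iff_mul_le (by omega)]
    have : (i₂ + 1) * (n + 1) = i₂ * (n + 1) + (n + 1) := by ring
    omega
  have hB2 : B ≤ j₂ + 1 := by
    rw [hB, ← Nat.lt_succ_iff, Nat.div_lt_iff_lt_mul (by omega), Nat.succ_eq_add_one]
    have : (j₂ + 1 + 1) * (n + 1) = (j₂ + 1) * (n + 1) + (n + 1) := by ring
    omega
  have hF : ∀ t, 1 ≤ t → t ≤ d → (A ≤ c - t → c + t + 1 ≤ B) ∧ (c + t + 2 ≤ B → A ≤ c - t + 1) :=
    fun t h2 h3 => node_link h1 hlo hhi (hz t h2 h3) (by omega) (by omega)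
  have hF1 : j₁ + 2 ≤ B → A ≤ i₁ + 1 :=
    (node_link h1 hlo hhi hl₁ (by omega) (by omega)).2
  refine ⟨hAc, hBc, ?_⟩
  rcases Nat.lt_or_ge c (A + d) with h2 | h2
  · -- fewer than `d` labels on the left
    rcases Nat.lt_or_ge c (A + d - 1) with h3 | h3
    · have h5 := (hF (c - A + 2) (by omega) (by omega)).2
      rcases Nat.eq_zero_or_pos (c - A) with h6 | h6
      · omega
      · have h4 := (hF (c - A) h6 (by omega)).1 (by omega)
        omega
    · rcases Nat.eq_zero_or_pos (c - A) with h6 | h6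
      · omega
      · have h4 := (hF (c - A) h6 (by omega)).1 (by omega)
        omega
  · rcases Nat.eq_zero_or_pos d with h3 | h3
    · omega
    · have h4 := (hF d h3 le_rfl).1 (by omega)
      omega

end Pool.Agent.NGP
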