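import Pool.Agent.NGP.KTight
import Pool.Agent.NGP.K6
import Pool.Agent.NGP.K8

/-!
# NGP, part K: trees of special words (leads: helper72, helper78)

See (K1)-(K16) of `PROOF.md`.
-/

namespace Pool.Agent.NGP

variable {g : ℕ} {q : ℕ → ℕ → ℕ → ℕ → Bool} {G : EG} {n : ℕ} {τ : Tr}

/-- The links of a special word form a system of links. -/
theorem KS.ls (h : KS g q G n τ) : LS q n (KM τ) (KH τ) (lab τ) (Link n τ)
    (fun i => RBad n τ i ∨ LBad n τ i) := by
  obtain ⟨e1, e2, e3, e4, e5⟩ := h.ends
  refine ⟨?_, e1, e2, e3, e4, e5, fun i hi => h.adj hi, h.H_eq, ?_, ?_, ?_, ?_, ?_, ?_⟩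
  · refine le_trans ?_ h.big
    calc 2 ^ 14 ≤ 2 ^ (G.N + 14) := Nat.pow_le_pow_right (by norm_num) (by omega)
      _ ≤ 2 ^ (G.N + 14) * (G.N + 1) := Nat.le_mul_of_pos_right _ (by omega)
  · intro i j hl
    exact ⟨hl.1, hl.2.1, hl.2.2.1, hl.2.2.2.1⟩
  · intro i j i' j' h1 h2
    exact k_nested h h1 h2
  · intro i j b h1 h2
    exact k_bad_out h1 h2
  · intro i hi h0
    exact k_link_or_bad_of h.ok h.length h.big hi
      (fun c d σ hL a b => h.k3 hi h0 hL a b)
      (fun c d σ hL a b c' d' => ⟨_, h.k4R hL hi h0 a b c' d'⟩)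
      (fun c d σ hL a b c' d' => ⟨_, h.k4L hL hi h0 a b c' d'⟩)
  · intro S hS
    exact k_few_bad S hS
  · intro i j hl
    exact h.link_kp hl

theorem rev_range (l : ℕ → ℕ) (c k : ℕ) (hk : k ≤ c) :
    ((List.range k).map (fun t => l (c - k + t))).reverse =
      (List.range k).map (fun t => l (c - (t + 1))) := by
  apply List.ext_getElem?
  intro t
  by_cases ht : t < k
  · rw [List.getElem?_reverse (by simpa using ht), List.getElem?_map, List.getElem?_map,
      range_get, range_get, if_pos ht, List.length_map, List.length_range, if_pos (by omega)]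
    simp only [Option.map_some]
    rw [show c - k + (k - 1 - t) = c - (t + 1) by omega]
  · rw [List.getElem?_eq_none (by simpa using ht), List.getElem?_eq_none (by simpa using ht)]

theorem range_split (l : ℕ → ℕ) {a b : ℕ} (h : a ≤ b) :
    ∃ u, (List.range b).map l = (List.range a).map l ++ u := by
  obtain ⟨k, rfl⟩ := Nat.exists_eq_add_of_le h
  rw [List.range_add, List.map_append]
  exact ⟨_, rfl⟩

/-- (K) Trees of special words of value `≠ 1` contain a violation. -/
theorem KS.inf_none (h : KS g q G n τ) : inf q τ = none := by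
  obtain ⟨c, d, f, i₁, j₁, i₂, j₂, hD, hz, hl₁, a1, a2, a3, hl₂, b1, b2, b3, b4⟩ := h.ls.main
  have hcM := hD.hc
  -- the outer link node
  obtain ⟨C, μ, hμ, m1, m2, m3, m4⟩ := hl₂.node
  have r1 : (i₂ + 1) * (n + 1) ≤ c * (n + 1) := Nat.mul_le_mul_right _ (by omega)
  have r2 : (c + 1) * (n + 1) ≤ j₂ * (n + 1) := Nat.mul_le_mul_right _ (by omega)
  have r3 : (c + 1) * (n + 1) = c * (n + 1) + (n + 1) := by ring
  have r4 : (j₂ + 1) * (n + 1) = j₂ * (n + 1) + (n + 1) := by ring
  have r5 : (i₂ + 1) * (n + 1) = i₂ * (n + 1) + (n + 1) := by ring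
  have hhi : C.hi μ = C.lo + μ.y.length := rfl
  -- the centre leaf
  obtain ⟨D, t, a, hDμ, hDp⟩ := leaf_at μ (c * (n + 1) - C.lo) (by omega)
  have hτ : τ = C.fill (D.fill (Tr.lf t a)) := by rw [← hDμ]; exact hμ
  have hpos : C.pre.length + D.pre.length = c * (n + 1) := by
    have : C.pre.length = C.lo := rfl
    omega
  -- the letter of the centre
  have ha : lh a = some 0 := by
    have hy : τ.y = (C.pre ++ D.pre) ++ [a] ++ (D.post ++ C.post) := by
      rw [hτ, Cx.y_fill, Cx.y_fill]
      simp [Tr.y, List.append_assoc]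
    have h1 := h.labs_fac hy
    rw [List.length_append, hpos, List.length_singleton] at h1
    have h2 : (c * (n + 1) + n) / (n + 1) = c := Nat.div_eq_of_lt_le (by omega) (by
      have : (c + 1) * (n + 1) = c * (n + 1) + (n + 1) := by ring
      omega)
    have h3 : (c * (n + 1) + 1 + n) / (n + 1) = c + 1 := by
      rw [show c * (n + 1) + 1 + n = (c + 1) * (n + 1) by ring]
      exact Nat.mul_div_cancel _ (by omega)
    rw [h2, h3, show c + 1 - c = 1 by omega] at h1
    simp only [List.range_one, List.map_cons, List.map_nil, Nat.add_zero, hD.l0] at h1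
    rcases hl : lh a with _ | l
    · simp [labs, hl] at h1
    · simp only [labs, List.filterMap_cons, hl, List.filterMap_nil, List.cons.injEq,
        and_true] at h1
      rw [h1]
  rw [hτ]
  apply scan ha
  · -- tightness
    intro D' D'' hDD
    have hτ' : τ = (C.comp D').fill (D''.fill (Tr.lf t a)) := by
      rw [hτ, hDD, Cx.fill_comp, Cx.fill_comp]
    have hy : τ.y = (C.comp D').pre ++ D''.pre ++ ([a] ++ D''.post ++ (C.comp D').post) := by
      conv_lhs => rw [hτ', Cx.y_fill, Cx.y_fill]
      simp [Tr.y, List.append_assoc]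
    have hy2 : τ.y = ((C.comp D').pre ++ D''.pre ++ [a]) ++ D''.post ++ (C.comp D').post := by
      rw [hy]; simp [List.append_assoc]
    have hlen1 : (C.comp D').lo + D''.pre.length = c * (n + 1) := by
      rw [← hpos, hDD]
      simp only [Cx.lo, Cx.pre_comp, List.length_append]
      omega
    have hhi1 : (C.comp D').hi (D''.fill (Tr.lf t a)) = c * (n + 1) + 1 + D''.post.length := by
      rw [Cx.hi_fill_eq, ← hlen1]
      simp [Tr.y]
    have hin1 : C.lo ≤ (C.comp D').lo := by
      simp only [Cx.lo, Cx.pre_comp, List.length_append]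
      omega
    have hin2 : (C.comp D').hi (D''.fill (Tr.lf t a)) ≤ C.hi μ := by
      have e1 := Cx.hi_fill_eq C D' (D''.fill (Tr.lf t a))
      rw [hDμ, hDD, Cx.fill_comp, e1]
      simp only [Cx.hi, Cx.lo, Cx.pre_comp, List.length_append]
      omega
    have key := k_tight (τ := τ) (c := c) (d := d) hD.dl hz hl₁ a1 a2 a3 b2 b4 hτ'
      (by omega) (by omega) (by omega) (by omega)
    obtain ⟨k1, k2, k3, k4⟩ := key
    have l1 : (labs D''.pre).length = c - ((C.comp D').lo + n) / (n + 1) := by
      rw [h.labs_fac hy, List.length_map, List.length_range]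
      have e1 : (C.comp D').pre.length + D''.pre.length + n = c * (n + 1) + n := by
        rw [← hlen1]; rfl
      have e2 : (c * (n + 1) + n) / (n + 1) = c := Nat.div_eq_of_lt_le (by omega) (by
        have : (c + 1) * (n + 1) = c * (n + 1) + (n + 1) := by ring
        omega)
      rw [e1, e2]
      rfl
    have l2 : (labs D''.post).length =
        ((C.comp D').hi (D''.fill (Tr.lf t a)) + n) / (n + 1) - (c + 1) := by
      rw [h.labs_fac hy2, List.length_map, List.length_range]
      have e1 : ((C.comp D').pre ++ D''.pre ++ [a]).length = c * (n + 1) + 1 := by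
        rw [← hlen1]
        simp only [Cx.lo, List.length_append, List.length_singleton]
      have e2 : (c * (n + 1) + 1 + n) / (n + 1) = c + 1 := by
        rw [show c * (n + 1) + 1 + n = (c + 1) * (n + 1) by ring]
        exact Nat.mul_div_cancel _ (by omega)
      rw [e1, e2, hhi1]
    simp only [tight, decide_eq_true_eq, List.length_cons, List.length_reverse, l1, l2]
    exact ⟨k3, k4⟩
  · -- the violation
    have hy : τ.y = C.pre ++ D.pre ++ ([a] ++ D.post ++ C.post) := by
      conv_lhs => rw [hτ, Cx.y_fill, Cx.y_fill]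
      simp [Tr.y, List.append_assoc]
    have hy2 : τ.y = (C.pre ++ D.pre ++ [a]) ++ D.post ++ C.post := by
      rw [hy]; simp [List.append_assoc]
    have e1 : (labs D.pre).reverse = (List.range (c - (i₂ + 1))).map
        (fun t => lab τ (c - (t + 1))) := by
      have h1 := h.labs_fac hy
      rw [hpos] at h1
      have h2 : (C.pre.length + n) / (n + 1) = i₂ + 1 := by
        have : C.pre.length = C.lo := rfl
        have r6 : (i₂ + 1 + 1) * (n + 1) = (i₂ + 1) * (n + 1) + (n + 1) := by ring
        exact Nat.div_eq_of_lt_le (by omega) (by omega)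
      have h3 : (c * (n + 1) + n) / (n + 1) = c := Nat.div_eq_of_lt_le (by omega) (by
        have : (c + 1) * (n + 1) = c * (n + 1) + (n + 1) := by ring
        omega)
      rw [h2, h3] at h1
      have h4 := rev_range (lab τ) c (c - (i₂ + 1)) (by omega)
      rw [show c - (c - (i₂ + 1)) = i₂ + 1 by omega] at h4
      rw [h1, h4]
    have e2 : labs D.post = (List.range (j₂ - c)).map (fun t => lab τ (c + (t + 1))) := by
      have h1 := h.labs_fac hy2
      have h2 : (C.pre ++ D.pre ++ [a]).length = c * (n + 1) + 1 := by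
        simp only [List.length_append, List.length_singleton]
        omega
      have h3 : (c * (n + 1) + 1 + n) / (n + 1) = c + 1 := by
        rw [show c * (n + 1) + 1 + n = (c + 1) * (n + 1) by ring]
        exact Nat.mul_div_cancel _ (by omega)
      have h4 : c * (n + 1) + 1 + D.post.length = C.hi μ := by
        rw [hhi, hDμ, Cx.y_fill]
        simp only [List.length_append, Tr.y, List.length_singleton]
        have : C.pre.length = C.lo := rfl
        omega
      have h5 : (C.hi μ + n) / (n + 1) = j₂ + 1 := by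
        have r6 : (j₂ + 1 + 1) * (n + 1) = (j₂ + 1) * (n + 1) + (n + 1) := by ring
        exact Nat.div_eq_of_lt_le (by omega) (by omega)
      rw [h2, h3, h4, h5, show j₂ + 1 - (c + 1) = j₂ - c by omega] at h1
      rw [h1]
      apply List.map_congr_left
      intro t _
      rw [show c + 1 + t = c + (t + 1) by omega]
    obtain ⟨u, hu⟩ := range_split (fun t => lab τ (c - (t + 1)))
      (show d + 1 ≤ c - (i₂ + 1) by omega)
    obtain ⟨v, hv⟩ := range_split (fun t => lab τ (c + (t + 1)))
      (show d + 1 ≤ j₂ - c by omega)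
    rw [e1, e2, hu, hv, ← List.cons_append, ← List.cons_append]
    exact adv_append_viol u v hD.viol

theorem k_tree {g : ℕ} {q : ℕ → ℕ → ℕ → ℕ → Bool} {G : EG} (hG : ∀ w, G.L w → LQ g q w) :
    ∃ n₁, ∀ n, n₁ ≤ n → ∀ τ : Tr, τ.ok G → τ.ty = G.st → Sp n τ.y → fv τ.y ≠ 1 →
      inf q τ = none :=
  ⟨2 ^ (G.N + 14) * (G.N + 1), fun _ hn _ h1 h2 h3 h4 =>
    (KS.inf_none (g := g) ⟨hG, h1, h2, h3, h4, hn⟩)⟩

end Pool.Agent.NGP
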