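import Pool.Agent.NGP.KLoop

/-!
# NGP, part K: no wild loops (K4), case of labels in the other part of the loop
-/

namespace Pool.Agent.NGP

variable {g : ℕ} {q : ℕ → ℕ → ℕ → ℕ → Bool} {G : EG} {n : ℕ} {τ : Tr}

/-- Split a word at its first label. -/
theorem split_first_label {u : List ℕ} (h : labs u ≠ []) :
    ∃ α a u', u = α ++ a :: u' ∧ (∀ b ∈ α, lh b = none) ∧ lh a ≠ none := by
  induction u with
  | nil => exact absurd rfl h
  | cons b u ih =>
    by_cases hb : lh b = none
    · have hu : labs u ≠ [] := by
        intro h0
        apply h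
        unfold labs at h0 ⊢
        simp [hb, h0]
      obtain ⟨α, a, u', h1, h2, h3⟩ := ih hu
      refine ⟨b :: α, a, u', by rw [h1]; rfl, ?_, h3⟩
      intro c hc
      rcases List.mem_cons.1 hc with rfl | hc
      · exact hb
      · exact h2 c hc
    · exact ⟨[], b, u, rfl, by simp, hb⟩

/-- Rotation of powers. -/
theorem flat_rot (α β : List ℕ) (k : ℕ) : (List.replicate (k + 1) (α ++ β)).flatten =
    α ++ (List.replicate k (β ++ α)).flatten ++ β := by
  induction k with
  | zero => simp
  | succ k ih =>
    rw [List.replicate_succ, List.flatten_cons, ih, List.replicate_succ, List.flatten_cons]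
    simp [List.append_assoc]

theorem starts_label {a : ℕ} {u w : List ℕ} (ha : lh a ≠ none) :
    (a :: u) ++ w = [] ∨ ∃ b w', (a :: u) ++ w = b :: w' ∧ lh b ≠ none :=
  Or.inr ⟨a, u ++ w, rfl, ha⟩

/-- Cells of powers of a word that starts with a label. -/
theorem cells_flat {a : ℕ} {u w : List ℕ} (ha : lh a ≠ none)
    (hw : w = [] ∨ ∃ b w', w = b :: w' ∧ lh b ≠ none) (k : ℕ) :
    cells ((List.replicate k (a :: u)).flatten ++ w) =
      (List.replicate k (cells (a :: u))).flatten ++ cells w := by
  induction k with
  | zero => simp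
  | succ k ih =>
    rw [List.replicate_succ, List.flatten_cons, List.replicate_succ, List.flatten_cons,
      List.append_assoc, cells_append_label, ih, List.append_assoc]
    rcases k with _ | k
    · simpa using hw
    · rw [List.replicate_succ, List.flatten_cons, List.append_assoc]
      exact starts_label ha

/-- The cells of a word that starts with a label. -/
theorem cells_snoc {a : ℕ} (u : List ℕ) (ha : lh a ≠ none) :
    ∃ C b m, cells (a :: u) = C ++ [(b, m)] := by
  obtain ⟨l, hl⟩ := Option.ne_none_iff_exists'.1 ha
  rcases List.eq_nil_or_concat (cells (a :: u)) with h | ⟨C, c, h⟩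
  · simp [cells, hl] at h
  · exact ⟨C, c.1, c.2, by rw [h, List.concat_eq_append]⟩

/-- Continuing a word whose cells are `C ++ [(b, m)]`. -/
theorem cells_cont {x : List ℕ} {C : List (ℕ × ℕ)} {b m : ℕ} (h : cells x = C ++ [(b, m)])
    (w : List ℕ) : cells (x ++ w) = C ++ (b, m + lead w) :: cells w := by
  rw [cells_append, h, addl_snoc]
  simp

theorem cells_cont_no {x : List ℕ} {C : List (ℕ × ℕ)} {b m : ℕ} (h : cells x = C ++ [(b, m)])
    {v : List ℕ} (hv : ∀ a ∈ v, lh a = none) (w : List ℕ) :
    cells (x ++ v ++ w) = C ++ (b, m + v.length + lead w) :: cells w := by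
  rw [List.append_assoc, cells_cont h, lead_append_of hv, cells_append_nolabel hv, add_assoc]

theorem hsh_flat (C : List (ℕ × ℕ)) (k : ℕ) :
    hsh (List.replicate k C).flatten = k * hsh C := by
  induction k with
  | zero => simp [hsh]
  | succ k ih =>
    rw [List.replicate_succ, List.flatten_cons, hsh_app, ih]
    ring

theorem hsh_snoc_eq (C : List (ℕ × ℕ)) (b m m' : ℕ) : hsh (C ++ [(b, m)]) = hsh (C ++ [(b, m')]) := by
  simp [hsh]

theorem mem_flat {C : List (ℕ × ℕ)} {k : ℕ} {x : ℕ × ℕ} (h : x ∈ (List.replicate k C).flatten) :
    x ∈ C := by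
  rw [List.mem_flatten] at h
  obtain ⟨l, hl, hx⟩ := h
  rw [List.mem_replicate] at hl
  rw [hl.2] at hx
  exact hx

/-- The general exclusion: a word whose cells are all equal to `n` or `γ` except one of label
`≠ 0`. -/
theorem KS.lone (h : KS g q G n τ) {w : List ℕ} (hw : G.L w) (hv : fv w ≠ 1)
    {P S : List (ℕ × ℕ)} {b m γ i₁ i₂ : ℕ} (hc : cells w = P ++ (b, m) :: S) (hb : b ≠ 0)
    (hP : ∀ x ∈ P, x.2 = n ∨ x.2 = γ) (hS : ∀ x ∈ S, x.2 = n ∨ x.2 = γ) (hm : n < m)
    (hh : hsh (cells w) ≤ 5 * KH τ)
    (h1 : ∀ x ∈ (cells w).take i₁, x.2 = n) (h2 : ∀ x ∈ (cells w).take 1, n ≤ x.2)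
    (h3 : DL n (KH τ) i₁)
    (h4 : ∀ x ∈ (cells w).reverse.take (KM τ - 1 - i₂), x.2 = n)
    (h5 : ∀ x ∈ (cells w).reverse.take 1, n ≤ x.2) (h6 : DR n (KH τ) (KM τ) i₂) : m = γ := by
  rcases h.garbage hw hv with h7 | h7 | h7
  · exact absurd h7 (not_KeL hh h1 h2 h3)
  · exact absurd h7 (not_KeR hh h4 h5 h6)
  · by_contra hne
    rw [hc] at h7
    refine not_Kp hb ?_ ?_ h7
    · intro x hx
      rcases hP x hx with h8 | h8 <;> omega
    · intro x hx
      rcases hS x hx with h8 | h8 <;> omega

/-- The first part of a loop inside the run of a cell on the right contains no label. -/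
theorem KS.wildR (h : KS g q G n τ) {c d : Cx} {σ : Tr} (hL : Lp τ c d σ) {i : ℕ}
    (hi : Deep n τ i) (hl : lab τ i ≠ 0) (hpost : d.post ≠ [])
    (hrun : InRun n i (c.lo + d.pre.length + σ.y.length) (c.hi (d.fill σ)))
    (hDL : DL n (KH τ) (c.lo / (n + 1))) : labs d.pre = [] := by
  by_contra hlab
  obtain ⟨α, a, u', hu, hα, ha⟩ := split_first_label hlab
  have hy := hL.y_eq
  rw [Cx.hi_fill_eq] at hrun
  -- the loop does not start at the beginning
  have hlo : 1 ≤ c.pre.length := by
    by_contra hcon
    have hx : c.pre = [] := List.length_eq_zero_iff.1 (by omega)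
    have hune : d.pre ≠ [] := by rw [hu]; simp
    obtain ⟨w', hw, hw2⟩ := h.head
    obtain ⟨b, u₂, hub⟩ := List.exists_cons_of_ne_nil hune
    have hb : b = 2 := by
      rw [hy, hx, hub] at hw
      simp only [List.nil_append, List.cons_append, List.cons.injEq] at hw
      exact hw.1
    obtain ⟨w'', hw3, hw4⟩ := (h.hG _ (h.pump hL 2)).1.head
    apply hw4
    simp only [pw, hx, hub, hb, List.replicate_succ, List.flatten_cons, List.nil_append,
      List.cons_append, List.cons.injEq, true_and] at hw3
    rw [← hw3]
    simp
  -- the run of `i`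
  have hr := h.run (i := i) (x := c.pre ++ d.pre ++ σ.y) (v := d.post) (z := c.post) hy (by
    simpa [Cx.lo, add_assoc] using hrun)
  -- cells of the parts
  have hsuff : cells (a :: u' ++ σ.y) ≠ [] := by
    obtain ⟨l, hl'⟩ := Option.ne_none_iff_exists'.1 ha
    simp [cells, hl']
  obtain ⟨P', b, m, hP'⟩ := cells_snoc (u' ++ σ.y) ha
  obtain ⟨C', b', β, hC'⟩ := cells_snoc u' ha
  -- the word τ.y
  have hτ : τ.y = (c.pre ++ α) ++ ((a :: (u' ++ σ.y)) ++ d.post ++ c.post) := by
    rw [hy, hu]
    simp [List.append_assoc]
  have e1 : cells τ.y = cells (c.pre ++ α) ++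
      (P' ++ (b, m + d.post.length + lead c.post) :: cells c.post) := by
    rw [hτ, cells_append_label (Or.inr ⟨a, u' ++ σ.y ++ d.post ++ c.post, by simp, ha⟩),
      cells_cont_no hP' hr.1]
  have hn := h.sp.1
  rw [e1] at hn
  have hnE : ∀ x ∈ cells (c.pre ++ α), x.2 = n := fun x hx => hn x (by simp [hx])
  have hnP : ∀ x ∈ P', x.2 = n := fun x hx => hn x (by simp [hx])
  have hnY : ∀ x ∈ cells c.post, x.2 = n := fun x hx => hn x (by simp [hx])
  have hnb : m + d.post.length + lead c.post = n := hn (b, _) (by simp)
  -- contents of the loop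
  have hP'' : cells (a :: (u' ++ σ.y)) = C' ++ (b', β + lead σ.y) :: cells σ.y := by
    have := cells_cont hC' σ.y
    simpa using this
  have hnC : ∀ x ∈ C', x.2 = n := by
    intro x hx
    have hx2 : x ∈ cells (a :: (u' ++ σ.y)) := by rw [hP'']; simp [hx]
    rw [hP', List.mem_append] at hx2
    rcases hx2 with hx2 | hx2
    · exact hnP x hx2
    · -- `x` would be the last cell: compare lengths
      have hx3 : x ∈ P' := by
        rw [hP'] at hP''
        rcases List.append_eq_append_iff.1 hP''.symm with ⟨t, ht1, ht2⟩ | ⟨t, ht1, ht2⟩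
        · rw [ht1]
          simp [hx]
        · rcases t with _ | ⟨t0, t⟩
          · rw [List.append_nil] at ht1
            rw [← ht1]; exact hx
          · simp only [List.cons_append, List.cons.injEq] at ht2
            have := congrArg List.length ht2.2
            simp at this
      exact hnP x hx3
  -- position of the cell `i`
  have hlenP : (cells (c.pre ++ α) ++ P').length = i := by
    have h1 := hr.2
    have h2 : c.pre ++ d.pre ++ σ.y = (c.pre ++ α) ++ (a :: (u' ++ σ.y)) := by
      rw [hu]; simp [List.append_assoc]
    rw [h2, labs_append, List.length_append, ← cells_length, ← cells_length, hP'] at h1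
    simp only [List.length_append, List.length_cons, List.length_nil] at h1 ⊢
    omega
  have hbi : lab τ i = b := by
    apply lab_get (c := (b, m + d.post.length + lead c.post))
    rw [e1, ← List.append_assoc, List.getElem?_append_right (by omega), hlenP, Nat.sub_self]
    rfl
  have hlenY : (cells c.post).length = KM τ - 1 - i := by
    have : KM τ = (cells (c.pre ++ α) ++ P').length + 1 + (cells c.post).length := by
      unfold KM
      rw [e1]
      simp only [List.length_append, List.length_cons]
      omega
    omega
  have hlenE : (cells (c.pre ++ α)).length = ((c.pre ++ α).length + n) / (n + 1) := by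
    rw [cells_length]
    exact h.labs_pre hτ
  have hE1 : 1 ≤ (cells (c.pre ++ α)).length := by
    rw [hlenE, List.length_append]
    apply (Nat.le_div_iff_mul_le (by omega)).2
    omega
  have hE2 : c.lo / (n + 1) ≤ (cells (c.pre ++ α)).length := by
    rw [hlenE, List.length_append, Cx.lo]
    exact Nat.div_le_div_right (by omega)
  -- hash counts
  have hHtot : KH τ = hsh (cells (c.pre ++ α)) + (hsh P' +
      hsh ((b, m + d.post.length + lead c.post) :: cells c.post)) := by
    unfold KH
    rw [e1, hsh_app, hsh_app]
  have hHu : hsh (cells (a :: u')) ≤ KH τ := by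
    have h1 : hsh (cells (a :: (u' ++ σ.y))) ≤ KH τ := by
      rw [hP', hHtot, hsh_app]
      have : hsh [(b, m)] ≤ hsh ((b, m + d.post.length + lead c.post) :: cells c.post) := by
        simp only [hsh, List.countP_cons, List.countP_nil]
        omega
      omega
    refine le_trans ?_ h1
    rw [hP'', hC', hsh_app, hsh_app]
    have : hsh [(b', β)] ≤ hsh ((b', β + lead σ.y) :: cells σ.y) := by
      simp only [hsh, List.countP_cons, List.countP_nil]
      omega
    omega
  -- pumping
  have main : ∀ k, k ≤ 4 → 1 ≤ k → fv (pw c d σ (k + 1)) ≠ 1 →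
      n + k * d.post.length = β + α.length := by
    intro k hk hk1 hval
    set V := (List.replicate k d.post).flatten with hV
    have hVl : V.length = k * d.post.length := flat_length _ _
    have hvV : ∀ x ∈ d.post ++ V, lh x = none := by
      intro x hx
      rcases List.mem_append.1 hx with hx | hx
      · exact hr.1 x hx
      · exact flat_nolabel hr.1 k x hx
    have e2 : pw c d σ (k + 1) = (c.pre ++ α) ++
        ((List.replicate k (a :: (u' ++ α))).flatten ++
          ((a :: (u' ++ σ.y)) ++ (d.post ++ V) ++ c.post)) := by
      have hrot := flat_rot α (a :: u') k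
      simp only [pw]
      rw [hu, hrot, List.replicate_succ, List.flatten_cons]
      simp [List.append_assoc, hV]
    have e3 : cells (a :: (u' ++ α)) = C' ++ [(b', β + α.length)] := by
      have := cells_cont_no hC' hα []
      simpa [cells, lead] using this
    have hst : ∀ W : List ℕ, (List.replicate k (a :: (u' ++ α))).flatten ++
        ((a :: (u' ++ σ.y)) ++ W) = [] ∨ ∃ b w', (List.replicate k (a :: (u' ++ α))).flatten ++
        ((a :: (u' ++ σ.y)) ++ W) = b :: w' ∧ lh b ≠ none := by
      intro W
      rcases k with _ | k
      · simpa using starts_label (u := u' ++ σ.y) (w := W) ha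
      · rw [List.replicate_succ, List.flatten_cons, List.append_assoc]
        exact starts_label ha
    have e4 : cells (pw c d σ (k + 1)) = (cells (c.pre ++ α) ++
        ((List.replicate k (cells (a :: (u' ++ α)))).flatten ++ P')) ++
        (b, m + (d.post ++ V).length + lead c.post) :: cells c.post := by
      rw [e2, cells_append_label (by
        have := hst ((d.post ++ V) ++ c.post)
        simpa [List.append_assoc] using this),
        cells_flat ha (by
          have := starts_label (u := u' ++ σ.y) (w := (d.post ++ V) ++ c.post) ha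
          simpa [List.append_assoc] using this), cells_cont_no hP' hvV]
      simp [List.append_assoc]
    have hm' : m + (d.post ++ V).length + lead c.post = n + k * d.post.length := by
      rw [List.length_append, hVl]
      omega
    rw [hm'] at e4
    have hpos : 0 < d.post.length := List.length_pos_iff.2 hpost
    have hkp : 0 < k * d.post.length := Nat.mul_pos hk1 hpos
    refine h.lone (h.pump hL _) hval e4 (by rw [← hbi]; exact hl) (γ := β + α.length)
      (i₁ := c.lo / (n + 1)) (i₂ := i) ?_ ?_ (by omega) ?_ ?_ ?_ hDL ?_ ?_ hi.2.2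
    · intro x hx
      simp only [List.mem_append] at hx
      rcases hx with hx | hx | hx
      · exact Or.inl (hnE x (by simpa using hx))
      · have := mem_flat hx
        rw [e3, List.mem_append] at this
        rcases this with hx | hx
        · exact Or.inl (hnC x hx)
        · right
          simp only [List.mem_singleton] at hx
          rw [hx]
      · exact Or.inl (hnP x hx)
    · intro x hx
      exact Or.inl (hnY x hx)
    · rw [e4, hsh_app, hsh_app, hsh_app, hsh_flat]
      have h1 : hsh (cells (a :: (u' ++ α))) = hsh (cells (a :: u')) := by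
        rw [e3, hC']
        exact hsh_snoc_eq _ _ _ _
      have h2 : hsh ((b, n + k * d.post.length) :: cells c.post) =
          hsh ((b, m + d.post.length + lead c.post) :: cells c.post) := by
        simp [hsh, List.countP_cons]
      rw [h1, h2]
      have h3 : k * hsh (cells (a :: u')) ≤ 4 * KH τ := Nat.mul_le_mul hk hHu
      omega
    · intro x hx
      rw [e4, List.append_assoc, List.append_assoc, List.take_append_of_le_length hE2] at hx
      exact hnE x (List.take_subset _ _ hx)
    · intro x hx
      rw [e4, List.append_assoc, List.append_assoc, List.take_append_of_le_length hE1] at hx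
      exact le_of_eq (hnE x (List.take_subset _ _ hx)).symm
    · intro x hx
      rw [e4, List.reverse_append, List.reverse_cons, List.append_assoc,
        List.take_append_of_le_length (by rw [List.length_reverse, hlenY])] at hx
      have := List.take_subset _ _ hx
      rw [List.mem_reverse] at this
      exact hnY x this
    · intro x hx
      rw [e4, List.reverse_append, List.reverse_cons, List.append_assoc] at hx
      rcases hY : (cells c.post).reverse with _ | ⟨y0, Y⟩
      · rw [hY] at hx
        simp only [List.nil_append, List.cons_append, List.take_succ_cons, List.take_zero,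
          List.mem_singleton] at hx
        rw [hx]
        simp only
        omega
      · rw [hY] at hx
        simp only [List.cons_append, List.take_succ_cons, List.take_zero,
          List.mem_singleton] at hx
        rw [hx]
        exact le_of_eq (hnY y0 (by rw [← List.mem_reverse, hY]; simp)).symm
  have hpos : 0 < d.post.length := List.length_pos_iff.2 hpost
  have hA : ∃ k, 1 ≤ k ∧ k ≤ 2 ∧ n + k * d.post.length = β + α.length := by
    rcases h.pump_val hL 2 with h3 | h3
    · exact ⟨1, le_refl _, by omega, main 1 (by omega) (by omega) h3⟩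
    · exact ⟨2, by omega, le_refl _, main 2 (by omega) (by omega) h3⟩
  have hB : ∃ k, 3 ≤ k ∧ k ≤ 4 ∧ n + k * d.post.length = β + α.length := by
    rcases h.pump_val hL 4 with h3 | h3
    · exact ⟨3, le_refl _, by omega, main 3 (by omega) (by omega) h3⟩
    · exact ⟨4, by omega, le_refl _, main 4 (by omega) (by omega) h3⟩
  obtain ⟨k, hk1, hk2, hk3⟩ := hA
  obtain ⟨k', hk4, hk5, hk6⟩ := hB
  have : k * d.post.length < k' * d.post.length := Nat.mul_lt_mul_of_pos_right (by omega) hpos
  omega

end Pool.Agent.NGP
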