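import Pool.Agent.NGP.KWild

/-!
# NGP, part K: no wild loops (K4), mirror case
-/

namespace Pool.Agent.NGP

variable {g : ℕ} {q : ℕ → ℕ → ℕ → ℕ → Bool} {G : EG} {n : ℕ} {τ : Tr}

/-- The second part of a loop whose first part is inside the run of a cell on the left contains no
label. -/
theorem KS.wildL (h : KS g q G n τ) {c d : Cx} {σ : Tr} (hL : Lp τ c d σ) {i : ℕ}
    (hi : Deep n τ i) (hl : lab τ i ≠ 0) (hpre : d.pre ≠ [])
    (hrun : InRun n i c.lo (c.lo + d.pre.length))
    (hDR : DR n (KH τ) (KM τ) ((c.hi (d.fill σ) - 1) / (n + 1))) :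
    labs d.post = [] := by
  by_contra hlab
  obtain ⟨α, a, v', hv, hα, ha⟩ := split_first_label hlab
  have hy := hL.y_eq
  -- the run of `i`
  have hr := h.run (i := i) (x := c.pre) (v := d.pre) (z := σ.y ++ d.post ++ c.post)
    (by rw [hy]; simp [List.append_assoc]) hrun
  -- cells of the first part
  obtain ⟨w', hw, -⟩ := h.head
  have hxne : c.pre ≠ [] := by
    intro h0
    have h1 := hr.2
    rw [h0] at h1
    simp [labs] at h1
  obtain ⟨a0, x0, hx0⟩ := List.exists_cons_of_ne_nil hxne
  have ha0 : lh a0 ≠ none := by
    rw [hy, hx0] at hw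
    simp only [List.cons_append, List.cons.injEq] at hw
    rw [hw.1]; decide
  obtain ⟨P, b, m, hP⟩ := cells_snoc (x0 ++ d.pre) ha0
  have hP2 : cells (c.pre ++ d.pre) = P ++ [(b, m)] := by
    rw [hx0]; simpa using hP
  have hlenP : P.length = i := by
    have h1 := hr.2
    have h2 : (cells (c.pre ++ d.pre)).length = i + 1 := by
      rw [cells_length, labs_append, labs_nolabel hr.1, List.append_nil]
      exact h1
    rw [hP2] at h2
    simpa using h2
  obtain ⟨C', b', β, hC'⟩ := cells_snoc v' ha
  have hτ : τ.y = (c.pre ++ d.pre ++ (σ.y ++ α)) ++ (a :: v' ++ c.post) := by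
    rw [hy, hv]
    simp [List.append_assoc]
  have e1 : cells τ.y = P ++ (b, m + lead (σ.y ++ α)) ::
      (cells (σ.y ++ α) ++ cells (a :: v' ++ c.post)) := by
    rw [hτ, cells_append_label (Or.inr ⟨a, v' ++ c.post, by simp, ha⟩), cells_cont hP2]
    simp
  have hn := h.sp.1
  rw [e1] at hn
  have hnP : ∀ x ∈ P, x.2 = n := fun x hx => hn x (by simp [hx])
  have hnZ : ∀ x ∈ cells (σ.y ++ α), x.2 = n := fun x hx => hn x (by simp [hx])
  have hnR : ∀ x ∈ cells (a :: v' ++ c.post), x.2 = n := fun x hx =>
    hn x (List.mem_append_right _ (List.mem_cons_of_mem _ (List.mem_append_right _ hx)))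
  have hnb : m + lead (σ.y ++ α) = n := hn (b, _) (by simp)
  have hR : cells (a :: v' ++ c.post) = C' ++ (b', β + lead c.post) :: cells c.post :=
    cells_cont hC' c.post
  have hnC : ∀ x ∈ C', x.2 = n := fun x hx => hnR x (by rw [hR]; simp [hx])
  have hbi : lab τ i = b := by
    apply lab_get (c := (b, m + lead (σ.y ++ α)))
    rw [e1, List.getElem?_append_right (by omega), hlenP, Nat.sub_self]
    rfl
  -- number of cells of the last part
  have hR1 : 1 ≤ (cells (a :: v' ++ c.post)).length := by
    rw [hR]; simp only [List.length_append, List.length_cons]; omega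
  have hR2 : KM τ - 1 - (c.hi (d.fill σ) - 1) / (n + 1) ≤
      (cells (a :: v' ++ c.post)).length := by
    have h1 : KM τ = (cells (c.pre ++ d.pre ++ (σ.y ++ α))).length +
        (cells (a :: v' ++ c.post)).length := by
      unfold KM
      rw [hτ, cells_append_label (Or.inr ⟨a, v' ++ c.post, by simp, ha⟩), List.length_append]
    have h2 : (cells (c.pre ++ d.pre ++ (σ.y ++ α))).length =
        ((c.pre ++ d.pre ++ (σ.y ++ α)).length + n) / (n + 1) := by
      rw [cells_length]
      exact h.labs_pre hτ
    have h3 : (c.pre ++ d.pre ++ (σ.y ++ α)).length + n ≤ (c.hi (d.fill σ) - 1) + (n + 1) := by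
      rw [Cx.hi_fill_eq, hv, Cx.lo]
      simp only [List.length_append, List.length_cons]
      omega
    have h4 : ((c.pre ++ d.pre ++ (σ.y ++ α)).length + n) / (n + 1) ≤
        (c.hi (d.fill σ) - 1) / (n + 1) + 1 := by
      refine le_trans (Nat.div_le_div_right h3) ?_
      rw [Nat.add_div_right _ (by omega)]
    omega
  -- hash counts
  have hHtot : KH τ = hsh P + hsh ((b, m + lead (σ.y ++ α)) :: cells (σ.y ++ α)) +
      hsh (cells (a :: v' ++ c.post)) := by
    unfold KH
    rw [e1, hsh_app, ← List.cons_append, hsh_app]
    omega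
  have hHv : hsh (cells (a :: v')) ≤ KH τ := by
    rw [hHtot, hR, hC', hsh_app, hsh_app]
    have : hsh [(b', β)] ≤ hsh ((b', β + lead c.post) :: cells c.post) := by
      simp only [hsh, List.countP_cons, List.countP_nil]
      omega
    omega
  have hpos : 0 < d.pre.length := List.length_pos_iff.2 hpre
  -- pumping
  have main : ∀ k, k ≤ 4 → 1 ≤ k → fv (pw c d σ (k + 1)) ≠ 1 →
      n + k * d.pre.length = β + α.length := by
    intro k hk hk1 hval
    set U := (List.replicate k d.pre).flatten with hU
    have hUl : U.length = k * d.pre.length := flat_length _ _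
    have hUn : ∀ x ∈ U, lh x = none := flat_nolabel hr.1 k
    have e2 : pw c d σ (k + 1) = (c.pre ++ d.pre ++ U ++ (σ.y ++ α)) ++
        ((List.replicate k (a :: (v' ++ α))).flatten ++ (a :: v' ++ c.post)) := by
      have hrot := flat_rot α (a :: v') k
      simp only [pw]
      rw [hv, hrot, List.replicate_succ, List.flatten_cons]
      simp [List.append_assoc, hU]
    have e3 : cells (a :: (v' ++ α)) = C' ++ [(b', β + α.length)] := by
      have := cells_cont_no hC' hα []
      simpa [cells, lead] using this
    have hst : (List.replicate k (a :: (v' ++ α))).flatten ++ (a :: v' ++ c.post) = [] ∨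
        ∃ b w', (List.replicate k (a :: (v' ++ α))).flatten ++ (a :: v' ++ c.post) = b :: w' ∧
          lh b ≠ none := by
      rcases k with _ | k
      · exact Or.inr ⟨a, v' ++ c.post, by simp, ha⟩
      · rw [List.replicate_succ, List.flatten_cons, List.append_assoc]
        exact starts_label ha
    have e4 : cells (pw c d σ (k + 1)) = P ++ (b, m + U.length + lead (σ.y ++ α)) ::
        (cells (σ.y ++ α) ++ ((List.replicate k (cells (a :: (v' ++ α)))).flatten ++
          cells (a :: v' ++ c.post))) := by
      rw [e2, cells_append_label hst, cells_flat ha (Or.inr ⟨a, v' ++ c.post, by simp, ha⟩),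
        cells_cont_no hP2 hUn]
      simp [List.append_assoc]
    have hm' : m + U.length + lead (σ.y ++ α) = n + k * d.pre.length := by
      rw [hUl]
      omega
    rw [hm'] at e4
    have hkp : 0 < k * d.pre.length := Nat.mul_pos hk1 hpos
    refine h.lone (h.pump hL _) hval e4 (by rw [← hbi]; exact hl) (γ := β + α.length)
      (i₁ := i) (i₂ := (c.hi (d.fill σ) - 1) / (n + 1)) ?_ ?_ (by omega) ?_ ?_ ?_ hi.2.1 ?_ ?_
      hDR
    · intro x hx
      exact Or.inl (hnP x hx)
    · intro x hx
      rcases List.mem_append.1 hx with hx | hx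
      · exact Or.inl (hnZ x hx)
      · rcases List.mem_append.1 hx with hx | hx
        · have := mem_flat hx
          rw [e3, List.mem_append] at this
          rcases this with hx | hx
          · exact Or.inl (hnC x hx)
          · right
            simp only [List.mem_singleton] at hx
            rw [hx]
        · exact Or.inl (hnR x hx)
    · rw [e4, hsh_app, ← List.cons_append, hsh_app, hsh_app, hsh_flat]
      have h1 : hsh (cells (a :: (v' ++ α))) = hsh (cells (a :: v')) := by
        rw [e3, hC']
        exact hsh_snoc_eq _ _ _ _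
      have h2 : hsh ((b, n + k * d.pre.length) :: cells (σ.y ++ α)) =
          hsh ((b, m + lead (σ.y ++ α)) :: cells (σ.y ++ α)) := by
        simp [hsh, List.countP_cons]
      rw [h1, h2]
      have h3 : k * hsh (cells (a :: v')) ≤ 4 * KH τ := Nat.mul_le_mul hk hHv
      omega
    · intro x hx
      rw [e4, List.take_append_of_le_length (by omega)] at hx
      exact hnP x (List.take_subset _ _ hx)
    · intro x hx
      rw [e4] at hx
      rcases P with _ | ⟨p0, P⟩
      · simp only [List.nil_append, List.take_succ_cons, List.take_zero,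
          List.mem_singleton] at hx
        rw [hx]
        simp only
        omega
      · simp only [List.cons_append, List.take_succ_cons, List.take_zero,
          List.mem_singleton] at hx
        rw [hx]
        exact le_of_eq (hnP p0 (by simp)).symm
    · intro x hx
      have e5 : P ++ (b, n + k * d.pre.length) ::
          (cells (σ.y ++ α) ++ ((List.replicate k (cells (a :: (v' ++ α)))).flatten ++
          cells (a :: v' ++ c.post))) = (P ++ (b, n + k * d.pre.length) ::
          (cells (σ.y ++ α) ++ (List.replicate k (cells (a :: (v' ++ α)))).flatten)) ++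
          cells (a :: v' ++ c.post) := by simp [List.append_assoc]
      rw [e4, e5, List.reverse_append, List.take_append_of_le_length
        (by rw [List.length_reverse]; exact hR2)] at hx
      have := List.take_subset _ _ hx
      rw [List.mem_reverse] at this
      exact hnR x this
    · intro x hx
      have e5 : P ++ (b, n + k * d.pre.length) ::
          (cells (σ.y ++ α) ++ ((List.replicate k (cells (a :: (v' ++ α)))).flatten ++
          cells (a :: v' ++ c.post))) = (P ++ (b, n + k * d.pre.length) ::
          (cells (σ.y ++ α) ++ (List.replicate k (cells (a :: (v' ++ α)))).flatten)) ++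
          cells (a :: v' ++ c.post) := by simp [List.append_assoc]
      rw [e4, e5, List.reverse_append, List.take_append_of_le_length
        (by rw [List.length_reverse]; exact hR1)] at hx
      have := List.take_subset _ _ hx
      rw [List.mem_reverse] at this
      exact le_of_eq (hnR x this).symm
  have hA : ∃ k, 1 ≤ k ∧ k ≤ 2 ∧ n + k * d.pre.length = β + α.length := by
    rcases h.pump_val hL 2 with h3 | h3
    · exact ⟨1, le_refl _, by omega, main 1 (by omega) (by omega) h3⟩
    · exact ⟨2, by omega, le_refl _, main 2 (by omega) (by omega) h3⟩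
  have hB : ∃ k, 3 ≤ k ∧ k ≤ 4 ∧ n + k * d.pre.length = β + α.length := by
    rcases h.pump_val hL 4 with h3 | h3
    · exact ⟨3, le_refl _, by omega, main 3 (by omega) (by omega) h3⟩
    · exact ⟨4, by omega, le_refl _, main 4 (by omega) (by omega) h3⟩
  obtain ⟨k, hk1, hk2, hk3⟩ := hA
  obtain ⟨k', hk4, hk5, hk6⟩ := hB
  have : k * d.pre.length < k' * d.pre.length := Nat.mul_lt_mul_of_pos_right (by omega) hpos
  omega

end Pool.Agent.NGP
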