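import Pool.Agent.NGP.R4

/-!
# NGP/R5: `Dcert` is primitive recursive
-/

set_option linter.unusedSectionVars false

namespace Pool.Agent.NGP

variable {α β : Type} [Primcodable α] [Primcodable β]

/-- The condition on one fact. -/
def FR (G : EG) (c : ℕ) (f : ℕ × List ℕ) (F : List (ℕ × List ℕ)) : Prop :=
  nm f.2 ≤ c ∧ f.1 < G.N ∧
    ((G.ep f.1 = true ∧ f.2 = []) ∨ (∃ a < G.A, G.lf f.1 a = true ∧ f.2 = [a]) ∨
      ∃ f₁ ∈ F, ∃ f₂ ∈ F, G.bin f.1 f₁.1 f₂.1 = true ∧ f.2 = f₁.2 ++ f₂.2)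

theorem Fok_iff (G : EG) (c : ℕ) (F : List (ℕ × List ℕ)) :
    Fok G c F ↔ ∀ i < F.length, ∀ f, F[i]? = some f → FR G c f (F.drop (i + 1)) := by
  induction F with
  | nil => simp [Fok]
  | cons f F ih =>
    have h1 : Fok G c (f :: F) ↔ Fok G c F ∧ FR G c f F := Iff.rfl
    rw [h1, ih]
    constructor
    · rintro ⟨h2, h3⟩ i hi g hg
      cases i with
      | zero =>
        rw [List.getElem?_cons_zero, Option.some_inj] at hg
        subst hg
        exact h3
      | succ i =>
        rw [List.getElem?_cons_succ] at hg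
        rw [List.length_cons] at hi
        exact h2 i (by omega) g hg
    · intro h2
      refine ⟨fun i hi g hg => ?_, ?_⟩
      · exact h2 (i + 1) (by rw [List.length_cons]; omega) g (by rw [List.getElem?_cons_succ, hg])
      · exact h2 0 (by rw [List.length_cons]; omega) f (by rw [List.getElem?_cons_zero])

theorem pr_FR {G : α → EG} (hG : PrG G) {c : α → ℕ} (hc : Primrec c) {f : α → ℕ × List ℕ}
    (hf : Primrec f) {F : α → List (ℕ × List ℕ)} (hF : Primrec F) :
    PrimrecPred fun a => FR (G a) (c a) (f a) (F a) := by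
  have hf1 : Primrec fun a => (f a).1 := Primrec.fst.comp hf
  have hf2 : Primrec fun a => (f a).2 := Primrec.snd.comp hf
  unfold FR
  refine pp_and (pp_le (pr_nm.comp hf2) hc) (pp_and (pp_lt hf1 hG.pN) (pp_or
    (pp_and (pp_true (hG.pep hf1)) (pp_eq hf2 (pr_c []))) (pp_or ?_ ?_)))
  · refine pp_exlt hG.pA ?_
    exact pp_and (pp_true ((hG.comp Primrec.fst).plf (hf1.comp Primrec.fst) Primrec.snd))
      (pp_eq (hf2.comp Primrec.fst) (pr_cons Primrec.snd (pr_c [])))
  · refine pp_bex hF ?_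
    refine pp_bex (hF.comp Primrec.fst) ?_
    have h2 : Primrec fun x : (α × ℕ × List ℕ) × ℕ × List ℕ => x.1.1 :=
      Primrec.fst.comp Primrec.fst
    have h3 : Primrec fun x : (α × ℕ × List ℕ) × ℕ × List ℕ => x.1.2 :=
      Primrec.snd.comp Primrec.fst
    exact pp_and (pp_true ((hG.comp h2).pbin (hf1.comp h2) (Primrec.fst.comp h3)
      (Primrec.fst.comp Primrec.snd))) (pp_eq (hf2.comp h2) (pr_app (Primrec.snd.comp h3)
        (Primrec.snd.comp Primrec.snd)))

theorem pr_Fok {G : α → EG} (hG : PrG G) {c : α → ℕ} (hc : Primrec c)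
    {F : α → List (ℕ × List ℕ)} (hF : Primrec F) :
    PrimrecPred fun a => Fok (G a) (c a) (F a) := by
  refine PrimrecPred.of_eq (p := fun a => ∀ i < (F a).length, ∀ f, (F a)[i]? = some f →
    FR (G a) (c a) f ((F a).drop (i + 1))) ?_ (fun a => (Fok_iff _ _ _).symm)
  refine pp_blt (pr_len hF) ?_
  refine pp_opt (Primrec.list_getElem?.comp (hF.comp Primrec.fst) Primrec.snd) ?_
  have h2 : Primrec fun x : (α × ℕ) × ℕ × List ℕ => x.1.1 := Primrec.fst.comp Primrec.fst
  exact pr_FR (hG.comp h2) (hc.comp h2) Primrec.snd (Primrec.list_drop.comp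
    (pr_add (Primrec.snd.comp Primrec.fst) (pr_c 1)) (hF.comp h2))

theorem pr_Dcert {g : α → ℕ} (hg : Primrec g) {G : α → EG} (hG : PrG G)
    {n c k b : α → ℕ} (hn : Primrec n) (hc : Primrec c) (hk : Primrec k) (hb : Primrec b)
    {F : α → List (ℕ × List ℕ)} (hF : Primrec F) {ts ws : α → List (List ℕ)} (hts : Primrec ts)
    (hws : Primrec ws) :
    PrimrecPred fun a => Dcert (g a) (G a) (n a) (c a) (k a) (b a) (F a) (ts a) (ws a) := by
  unfold Dcert
  refine pp_and (pp_le (pr_add hc (pr_c 2)) hk) (pp_and (pp_le (pr_c 1) hn)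
    (pp_and (pp_le (pr_bd hG.pN hG.pA hc hk hn) hb) (pp_and (pp_mem (pr_c []) hws)
      (pp_and ?_ (pp_and ?_ (pp_and ?_ (pp_and (pr_Fok hG hc hF) ?_)))))))
  · refine pp_ball hws ?_
    refine pp_imp (pp_lt (pr_len Primrec.snd) (hb.comp Primrec.fst)) ?_
    refine PrimrecPred.of_eq (p := fun x : α × List ℕ => ∀ y < g x.1 + 1, y :: x.2 ∈ ws x.1) ?_
      (fun x => by simp only [Nat.lt_succ_iff])
    refine pp_blt (pr_add (hg.comp Primrec.fst) (pr_c 1)) ?_
    exact pp_mem (pr_cons Primrec.snd (Primrec.snd.comp Primrec.fst))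
      (hws.comp (Primrec.fst.comp Primrec.fst))
  · refine pp_ball hws ?_
    refine pp_ball (hws.comp Primrec.fst) ?_
    have h2 : Primrec fun x : (α × List ℕ) × List ℕ => x.1.1 := Primrec.fst.comp Primrec.fst
    have hu : Primrec fun x : (α × List ℕ) × List ℕ => x.1.2 := Primrec.snd.comp Primrec.fst
    have hu' : Primrec fun x : (α × List ℕ) × List ℕ => x.2 := Primrec.snd
    have hw := pr_app (pr_app (pr_app (pr_row (pr_c 6) hu) (pr_hc (hn.comp h2)))
      (pr_row (pr_c 7) hu')) (pr_hc (hn.comp h2))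
    exact pp_imp (pp_le (hk.comp h2) (pr_len hu)) (pp_imp (pp_eq (pr_len hu') (pr_len hu))
      (pp_imp (pp_le (pr_len hw) (hb.comp h2)) (pp_mem hw (hts.comp h2))))
  · refine pp_bool fun X => ?_
    refine pp_ball hws ?_
    refine pp_ball (hws.comp Primrec.fst) ?_
    refine pp_ball (hws.comp (Primrec.fst.comp Primrec.fst)) ?_
    refine pp_ball (hws.comp (Primrec.fst.comp (Primrec.fst.comp Primrec.fst))) ?_
    refine pp_ball (hts.comp (Primrec.fst.comp (Primrec.fst.comp
      (Primrec.fst.comp Primrec.fst)))) ?_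
    refine pp_ball (hts.comp (Primrec.fst.comp (Primrec.fst.comp (Primrec.fst.comp
      (Primrec.fst.comp Primrec.fst))))) ?_
    have p0 : Primrec fun x : (((((α × List ℕ) × List ℕ) × List ℕ) × List ℕ) × List ℕ) ×
      List ℕ => x.1.1.1.1.1.1 := Primrec.fst.comp (Primrec.fst.comp (Primrec.fst.comp
        (Primrec.fst.comp (Primrec.fst.comp Primrec.fst))))
    have pu : Primrec fun x : (((((α × List ℕ) × List ℕ) × List ℕ) × List ℕ) × List ℕ) ×
      List ℕ => x.1.1.1.1.1.2 := Primrec.snd.comp (Primrec.fst.comp (Primrec.fst.comp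
        (Primrec.fst.comp (Primrec.fst.comp Primrec.fst))))
    have pu' : Primrec fun x : (((((α × List ℕ) × List ℕ) × List ℕ) × List ℕ) × List ℕ) ×
      List ℕ => x.1.1.1.1.2 := Primrec.snd.comp (Primrec.fst.comp (Primrec.fst.comp
        (Primrec.fst.comp Primrec.fst)))
    have pv : Primrec fun x : (((((α × List ℕ) × List ℕ) × List ℕ) × List ℕ) × List ℕ) ×
      List ℕ => x.1.1.1.2 := Primrec.snd.comp (Primrec.fst.comp (Primrec.fst.comp Primrec.fst))
    have pv' : Primrec fun x : (((((α × List ℕ) × List ℕ) × List ℕ) × List ℕ) × List ℕ) ×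
      List ℕ => x.1.1.2 := Primrec.snd.comp (Primrec.fst.comp Primrec.fst)
    have p1 : Primrec fun x : (((((α × List ℕ) × List ℕ) × List ℕ) × List ℕ) × List ℕ) ×
      List ℕ => x.1.2 := Primrec.snd.comp Primrec.fst
    have p2 : Primrec fun x : (((((α × List ℕ) × List ℕ) × List ℕ) × List ℕ) × List ℕ) ×
      List ℕ => x.2 := Primrec.snd
    have ph := pr_hc (hn.comp p0)
    have hw := pr_app (pr_app (pr_app (pr_app (pr_app (pr_app (pr_app (pr_app (pr_app
      (pr_row (pr_c (if X = true then 2 else 0)) pu) ph) p1)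
      (pr_row (pr_c (if X = true then 3 else 1)) pu')) ph)
      (pr_row (pr_c 4) pv)) ph) p2) (pr_row (pr_c 5) pv')) ph
    exact pp_imp (pp_le (hk.comp p0) (pr_len pu)) (pp_imp (pp_eq (pr_len pu') (pr_len pu))
      (pp_imp (pp_le (hk.comp p0) (pr_len pv)) (pp_imp (pp_eq (pr_len pv') (pr_len pv))
        (pp_imp (pp_le (pr_len hw) (hb.comp p0)) (pp_mem hw (hts.comp p0))))))
  · refine pp_ball hts ?_
    have h1 : Primrec fun x : α × List ℕ => x.1 := Primrec.fst
    have hn1 := hn.comp h1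
    exact pp_mem ((hG.pst.comp h1).pair (pr_app (pr_app (pr_app (pr_P1 hn1 hn1) (pr_hc hn1))
      Primrec.snd) (pr_P2 hn1 hn1))) (hF.comp h1)

end Pool.Agent.NGP
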