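import Pool.Agent.NGP.Defs
import Pool.Agent.NGP.R5

/-!
# NGP, part R: existence of certificates is recursively enumerable (lead: helper15)

See section R of `PROOF.md`.
-/

namespace Pool.Agent.NGP

theorem r_main {PG : Edges → EG} (hPG : PrG PG) {gU : ℕ → ℕ}
    {qU : ℕ → ℕ → ℕ → ℕ → ℕ → Bool} (hg : Primrec gU)
    (hq : Primrec (fun x : ℕ × ℕ × ℕ × ℕ × ℕ =>
      qU x.1 x.2.1 x.2.2.1 x.2.2.2.1 x.2.2.2.2)) :
    REPred (fun m : ℕ => ∃ (E : Edges) (n : ℕ) (tb : List Ent) (c k b : ℕ)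
      (F : List (ℕ × List ℕ)) (ts ws : List (List ℕ)),
      Kcert (qU m) (PG E) n tb ∧ Dcert (gU m) (PG E) n c k b F ts ws) := by
  have hQ : PrQ qU := hq
  have h : PrimrecPred fun x : ℕ × Edges × ℕ × List Ent × ℕ × ℕ × ℕ × List (ℕ × List ℕ) ×
      List (List ℕ) × List (List ℕ) =>
      Kcert (qU x.1) (PG x.2.1) x.2.2.1 x.2.2.2.1 ∧
        Dcert (gU x.1) (PG x.2.1) x.2.2.1 x.2.2.2.2.1 x.2.2.2.2.2.1 x.2.2.2.2.2.2.1
          x.2.2.2.2.2.2.2.1 x.2.2.2.2.2.2.2.2.1 x.2.2.2.2.2.2.2.2.2 := by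
    have s1 := Primrec.snd (α := ℕ) (β := Edges × ℕ × List Ent × ℕ × ℕ × ℕ ×
      List (ℕ × List ℕ) × List (List ℕ) × List (List ℕ))
    have s2 := Primrec.snd.comp s1
    have s3 := Primrec.snd.comp s2
    have s4 := Primrec.snd.comp s3
    have s5 := Primrec.snd.comp s4
    have s6 := Primrec.snd.comp s5
    have s7 := Primrec.snd.comp s6
    have s8 := Primrec.snd.comp s7
    have s9 := Primrec.snd.comp s8
    have hE := Primrec.fst.comp s1
    have hn := Primrec.fst.comp s2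
    have hG := hPG.comp hE
    exact pp_and (pr_Kcert (hQ.comp Primrec.fst) hG hn (Primrec.fst.comp s3))
      (pr_Dcert (hg.comp Primrec.fst) hG hn (Primrec.fst.comp s4) (Primrec.fst.comp s5)
        (Primrec.fst.comp s6) (Primrec.fst.comp s7) (Primrec.fst.comp s8) s9)
  refine (re_exists h).of_eq fun m => ?_
  constructor
  · rintro ⟨⟨E, n, tb, c, k, b, F, ts, ws⟩, h1, h2⟩
    exact ⟨E, n, tb, c, k, b, F, ts, ws, h1, h2⟩
  · rintro ⟨E, n, tb, c, k, b, F, ts, ws, h1, h2⟩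
    exact ⟨⟨E, n, tb, c, k, b, F, ts, ws⟩, h1, h2⟩

end Pool.Agent.NGP
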