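import Pool.Agent.NGP.U1

/-!
# NGP, part U, module U4: long periodic arrays for `W` give `Cyc` for `mir W`

PROOF. Given `N₀`, take `N, K, ρ` from `h`; use width `N`, period `2 * K` and the rows
`u i = (List.range N).map fun j => if i % 2 = 0 then 2 * ρ i (j + 1) else 2 * ρ i (N - j) + 1`.
Labels: `1 ≤ ρ i j ≤ G` for `1 ≤ j ≤ N`, so labels are `≥ 2` and `< 2 * G + 2`. Period: `ρ (i+2K) = ρ i`
and the parity of `i + 2 K` is that of `i`. For `adv ... = dead` use `adv_of_win` (`z = z' = []`):
with `e i j = (0 :: u i).getD j 0` we have `e i j = 2 * ρ i j` for even `i`,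
`e i j = 2 * ρ i (N + 1 - j) + 1` for odd `i` (`1 ≤ j ≤ N`), `e i 0 = e i (N+1) = 0`,
`(0 :: (u i).reverse).getD j 0 = e i (N + 1 - j)` for `j ≤ N + 1`. The window `j ≤ N` of `mir W` is
`(e i (N+1-j), e i (N-j), e (i+1) j, e (i+1) (j+1))`: for odd `i` it has `par = 1` and is the
window `j` of `W` in the rows `ρ i`, `ρ (i+1)`; for even `i` it has `par = 0` and is the window
`N - j` of `W` (with the two columns exchanged). At the ends `0 / 2 = 0` is the border.
-/

namespace Pool.Agent.NGP

private theorem U4_mir0 {W : ℕ → ℕ → ℕ → ℕ → Bool} {x y c d : ℕ} (hx : x = 0 ↔ c = 0)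
    (hy : y = 0 ↔ d = 0) (hxy : ¬ (x = 0 ∧ y = 0)) (hc : c = 0 ∨ c % 2 = 1)
    (hd : d = 0 ∨ d % 2 = 1) (hW : W y x (d / 2) (c / 2) = true) :
    mir W (2 * x) (2 * y) c d = true := by
  have hp : par (2 * x) (2 * y) = 0 := by
    unfold par
    split_ifs <;> omega
  unfold mir
  rw [hp]
  have e1 : 2 * x / 2 = x := by omega
  have e2 : 2 * y / 2 = y := by omega
  rw [e1, e2, if_neg (by decide), hW, Bool.and_true, decide_eq_true_eq]
  refine ⟨?_, ?_, ?_, ?_, ?_, ?_⟩ <;> omega

private theorem U4_mir1 {W : ℕ → ℕ → ℕ → ℕ → Bool} {a b z t : ℕ} (ha : a = 0 ∨ a % 2 = 1)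
    (hb : b = 0 ∨ b % 2 = 1) (hab : ¬ (a = 0 ∧ b = 0)) (hac : a = 0 ↔ z = 0)
    (hbd : b = 0 ↔ t = 0) (hW : W (a / 2) (b / 2) z t = true) :
    mir W a b (2 * z) (2 * t) = true := by
  have hp : par a b = 1 := by
    unfold par
    split_ifs <;> omega
  unfold mir
  rw [hp]
  have e1 : 2 * z / 2 = z := by omega
  have e2 : 2 * t / 2 = t := by omega
  rw [e1, e2, if_pos rfl, hW, Bool.and_true, decide_eq_true_eq]
  refine ⟨?_, ?_, ?_, ?_, ?_, ?_⟩ <;> omega

private theorem U4_get (f : ℕ → ℕ) (N j : ℕ) :
    ((List.range N).map f).getD j 0 = if j < N then f j else 0 := by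
  rw [List.getD_eq_getElem?_getD, List.getElem?_map]
  split_ifs with h
  · rw [List.getElem?_range h]
    rfl
  · rw [List.getElem?_eq_none (by rw [List.length_range]; omega)]
    rfl

private theorem U4_getrev (f : ℕ → ℕ) (N j : ℕ) :
    ((List.range N).map f).reverse.getD j 0 = if j < N then f (N - 1 - j) else 0 := by
  have hl : ((List.range N).map f).length = N := by rw [List.length_map, List.length_range]
  split_ifs with h
  · rw [List.getD_eq_getElem?_getD, List.getElem?_reverse (by rw [hl]; exact h), hl,
      ← List.getD_eq_getElem?_getD, U4_get, if_pos (by omega)]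
  · rw [List.getD_eq_getElem?_getD,
      List.getElem?_eq_none (by rw [List.length_reverse, hl]; omega)]
    rfl

theorem mir_cyc {W : ℕ → ℕ → ℕ → ℕ → Bool} (G : ℕ)
    (h : ∀ N₀ : ℕ, ∃ (N K : ℕ) (ρ : ℕ → ℕ → ℕ), N₀ ≤ N ∧ 0 < K ∧ Arr W N ρ ∧
      (∀ i, ρ (i + K) = ρ i) ∧ ∀ i j, ρ i j ≤ G) :
    Cyc (2 * G) (mir W) := by
  intro N₀
  obtain ⟨N, K, ρ, hN, hK, ⟨hN0, hb, hW⟩, hper, hG⟩ := h N₀
  have hper2 : ∀ i, ρ (i + 2 * K) = ρ i := by
    intro i
    have e : i + 2 * K = i + K + K := by ring
    rw [e, hper, hper]
  set f : ℕ → ℕ → ℕ := fun i j => if i % 2 = 0 then 2 * ρ i (j + 1) else 2 * ρ i (N - j) + 1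
    with hf
  have hl : ∀ i, ((List.range N).map (f i)).length = N := by
    intro i
    rw [List.length_map, List.length_range]
  have hmem : ∀ i, ∀ a ∈ (List.range N).map (f i), 2 ≤ a ∧ a < 2 * G + 2 := by
    intro i a ha
    rw [List.mem_map] at ha
    obtain ⟨j, hj, rfl⟩ := ha
    rw [List.mem_range] at hj
    simp only [hf]
    have h1 := (hb i).2.2 (j + 1) (by omega) (by omega)
    have h2 := (hb i).2.2 (N - j) (by omega) (by omega)
    have h3 := hG i (j + 1)
    have h4 := hG i (N - j)
    split_ifs <;> omega
  refine ⟨N, 2 * K, fun i => (List.range N).map (f i), hN, by omega, hN0, ?_, hl, hmem, ?_⟩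
  · intro i
    have h1 : f (i + 2 * K) = f i := by
      funext j
      simp only [hf]
      rw [hper2 i]
      have h2 : (i + 2 * K) % 2 = i % 2 := by omega
      rw [h2]
    change (List.range N).map (f (i + 2 * K)) = (List.range N).map (f i)
    rw [h1]
  · intro i
    change adv (mir W) (0 :: ((List.range N).map (f i)).reverse ++ 0 :: [])
      (0 :: (List.range N).map (f (i + 1)) ++ 0 :: []) = Adv.dead
    apply adv_of_win
    · intro b hbm
      rw [List.mem_reverse] at hbm
      exact (hmem i b hbm).1
    · intro b hbm
      exact (hmem (i + 1) b hbm).1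
    · rw [List.length_reverse, hl, hl]
    · intro j hj
      rw [List.length_reverse, hl] at hj
      have hpos : ∀ i' m, 1 ≤ m → m ≤ N → ρ i' m ≠ 0 := by
        intro i' m h1 h2 h3
        have := (hb i').2.2 m h1 h2
        omega
      have ea : (0 :: ((List.range N).map (f i)).reverse).getD j 0 =
          if j = 0 then 0 else f i (N - j) := by
        rcases j with _ | j
        · rfl
        · rw [List.getD_cons_succ, U4_getrev, if_pos (by omega), if_neg (by omega)]
          congr 1
          omega
      have ec : (0 :: (List.range N).map (f (i + 1))).getD j 0 =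
          if j = 0 then 0 else f (i + 1) (j - 1) := by
        rcases j with _ | j
        · rfl
        · rw [List.getD_cons_succ, U4_get, if_pos (by omega), if_neg (by omega)]
          congr 1
      rw [ea, ec, U4_getrev, U4_get]
      rcases Nat.mod_two_eq_zero_or_one i with hi | hi
      · have hi' : (i + 1) % 2 ≠ 0 := by omega
        have e1 : (if j = 0 then 0 else f i (N - j)) = 2 * ρ i (N - j + 1) := by
          split_ifs with h0
          · subst h0
            rw [Nat.sub_zero, (hb i).2.1]
          · simp only [hf, if_pos hi]
        have e2 : (if j < N then f i (N - 1 - j) else 0) = 2 * ρ i (N - j) := by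
          split_ifs with h0
          · simp only [hf, if_pos hi]
            have e : N - 1 - j + 1 = N - j := by omega
            rw [e]
          · have e : N - j = 0 := by omega
            rw [e, (hb i).1]
        have e3 : (if j = 0 then 0 else f (i + 1) (j - 1)) =
            if j = 0 then 0 else 2 * ρ (i + 1) (N - j + 1) + 1 := by
          split_ifs with h0
          · rfl
          · simp only [hf, if_neg hi']
            have e : N - (j - 1) = N - j + 1 := by omega
            rw [e]
        have e4 : (if j < N then f (i + 1) j else 0) =
            if j < N then 2 * ρ (i + 1) (N - j) + 1 else 0 := by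
          split_ifs with h0
          · simp only [hf, if_neg hi']
          · rfl
        rw [e1, e2, e3, e4]
        have hz1 : ρ i (N - j + 1) = 0 ↔ j = 0 := by
          constructor
          · intro h1
            by_contra h2
            exact hpos i (N - j + 1) (by omega) (by omega) h1
          · intro h1
            subst h1
            exact (hb i).2.1
        have hz2 : ρ i (N - j) = 0 ↔ ¬ j < N := by
          constructor
          · intro h1 h2
            exact hpos i (N - j) (by omega) (by omega) h1
          · intro h1
            have e : N - j = 0 := by omega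
            rw [e]
            exact (hb i).1
        apply U4_mir0
        · rw [hz1]
          split_ifs with h0
          · simp [h0]
          · simp [h0]
        · rw [hz2]
          split_ifs with h0
          · simp [h0]
          · simp [h0]
        · rw [hz1, hz2]
          omega
        · split_ifs <;> omega
        · split_ifs <;> omega
        · have d1 : (if j < N then 2 * ρ (i + 1) (N - j) + 1 else 0) / 2 =
              ρ (i + 1) (N - j) := by
            split_ifs with h0
            · omega
            · have e : N - j = 0 := by omega
              rw [e, (hb (i + 1)).1]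
          have d2 : (if j = 0 then 0 else 2 * ρ (i + 1) (N - j + 1) + 1) / 2 =
              ρ (i + 1) (N - j + 1) := by
            split_ifs with h0
            · subst h0
              rw [Nat.sub_zero, (hb (i + 1)).2.1]
            · omega
          rw [d1, d2]
          exact hW i (N - j) (by omega)
      · have hi0 : i % 2 ≠ 0 := by omega
        have hi' : (i + 1) % 2 = 0 := by omega
        have e1 : (if j = 0 then 0 else f i (N - j)) =
            if j = 0 then 0 else 2 * ρ i j + 1 := by
          split_ifs with h0
          · rfl
          · simp only [hf, if_neg hi0]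
            have e : N - (N - j) = j := by omega
            rw [e]
        have e2 : (if j < N then f i (N - 1 - j) else 0) =
            if j < N then 2 * ρ i (j + 1) + 1 else 0 := by
          split_ifs with h0
          · simp only [hf, if_neg hi0]
            have e : N - (N - 1 - j) = j + 1 := by omega
            rw [e]
          · rfl
        have e3 : (if j = 0 then 0 else f (i + 1) (j - 1)) = 2 * ρ (i + 1) j := by
          split_ifs with h0
          · subst h0
            rw [(hb (i + 1)).1]
          · simp only [hf, if_pos hi']
            have e : j - 1 + 1 = j := by omega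
            rw [e]
        have e4 : (if j < N then f (i + 1) j else 0) = 2 * ρ (i + 1) (j + 1) := by
          split_ifs with h0
          · simp only [hf, if_pos hi']
          · have e : j + 1 = N + 1 := by omega
            rw [e, (hb (i + 1)).2.1]
        rw [e1, e2, e3, e4]
        have hz1 : ρ (i + 1) j = 0 ↔ j = 0 := by
          constructor
          · intro h1
            by_contra h2
            exact hpos (i + 1) j (by omega) (by omega) h1
          · intro h1
            subst h1
            exact (hb (i + 1)).1
        have hz2 : ρ (i + 1) (j + 1) = 0 ↔ ¬ j < N := by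
          constructor
          · intro h1 h2
            exact hpos (i + 1) (j + 1) (by omega) (by omega) h1
          · intro h1
            have e : j + 1 = N + 1 := by omega
            rw [e]
            exact (hb (i + 1)).2.1
        apply U4_mir1
        · split_ifs <;> omega
        · split_ifs <;> omega
        · rintro ⟨h1, h2⟩
          have h3 : j = 0 := by
            by_contra h0
            rw [if_neg h0] at h1
            omega
          have h4 : ¬ j < N := by
            intro h0
            rw [if_pos h0] at h2
            omega
          omega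
        · rw [hz1]
          split_ifs with h0
          · simp [h0]
          · simp [h0]
        · rw [hz2]
          split_ifs with h0
          · simp [h0]
          · simp [h0]
        · have d1 : (if j = 0 then 0 else 2 * ρ i j + 1) / 2 = ρ i j := by
            split_ifs with h0
            · subst h0
              rw [(hb i).1]
            · omega
          have d2 : (if j < N then 2 * ρ i (j + 1) + 1 else 0) / 2 = ρ i (j + 1) := by
            split_ifs with h0
            · omega
            · have e : j + 1 = N + 1 := by omega
              rw [e, (hb i).2.1]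
          rw [d1, d2]
          exact hW i j hj

end Pool.Agent.NGP
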