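import Pool.Agent.NGP.UDefs

/-!
# NGP, part U, module U5: an array for `mW p` implies that the program halts

PROOF. Let `Arr (mW p) N ρ`, `s i = tst (ρ i 1)`. Facts from the windows (`tdg 0 k = 0`):
* `tst (ρ i j) = s i` for `1 ≤ j ≤ N` (windows `1 ≤ j < N`: both upper tiles are `≥ 1`).
* If `s i = 1`: `s (i+1) = 0` (window `0`) and `tdg (ρ (i+1) j) k = 0` for `1 ≤ j ≤ N`, `k < 4`.
* If `s i ≠ 1`: `s (i+1) = p.nx (s i) (tdg (ρ i 1) (p.tk (s i)))`, `tdg (ρ i 1) 4 = 1`,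
  `tdg (ρ (i+1) j) 4 = tdg (ρ i (j+1)) 4` for `1 ≤ j ≤ N`; on the track `k = p.tk (s i)`:
  push: `tdg (ρ (i+1) 1) k = p.sy (s i)`, `tdg (ρ (i+1) (j+1)) k = tdg (ρ i j) k` for `1 ≤ j ≤ N`
  (for `j = N` this says `tdg (ρ i N) k = 0`); pop: `tdg (ρ (i+1) j) k = tdg (ρ i (j+1)) k`;
  otherwise, and on the other tracks `k < 4`: `tdg (ρ (i+1) j) k = tdg (ρ i j) k` (`1 ≤ j ≤ N`).

Clock: for every `i` there is `e ≤ N` with `s (i + e) = 1`. Otherwise `tdg (ρ (i+e) (N+1-e)) 4 = 0`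
for all `e ≤ N` by induction on `e`, and `e = N` contradicts `tdg (ρ (i+N) 1) 4 = 1`.

Let `s i₀ = 1`. `Rep i c`: `c.1 = s i`, `tdg (ρ i (j+1)) k = (c.2 k).getD j 0` for `k < 4`, `j ≤ N`
(in particular for `j = N`, where the left side is `0`), `(c.2 k).length ≤ N` and all entries of
`c.2 k` are `≥ 1`. Then `Rep (i₀+1) (0, fun _ => [])`, and `Rep i c`, `s i ≠ 1` imply
`Rep (i+1) (p.step c)` (push: `(c.2 k).length < N` because the entry with index `N - 1` is `0`).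
By the clock there is a least `e` with `s (i₀ + 1 + e) = 1`; by induction
`Rep (i₀ + 1 + e) (p.step^[e] (0, fun _ => []))`, so the program halts.
-/

namespace Pool.Agent.NGP

private lemma U5_tdg0 (k : ℕ) : tdg 0 k = 0 := by
  unfold tdg
  simp

private lemma U5_tst_eq {p : Prg} {N : ℕ} {ρ : ℕ → ℕ → ℕ} (h : Arr (mW p) N ρ) (i j : ℕ)
    (hj : j + 1 ≤ N) : tst (ρ i (j + 1)) = tst (ρ i 1) := by
  induction j with
  | zero => rfl
  | succ j ih =>
    rw [← ih (by omega)]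
    have h1 := h.2.2 i (j + 1) (by omega)
    have h2 := (h.2.1 i).2.2 (j + 1) (by omega) (by omega)
    have h3 := (h.2.1 i).2.2 (j + 2) (by omega) (by omega)
    unfold mW at h1
    rw [if_neg (by omega), Bool.and_eq_true, decide_eq_true_eq] at h1
    rcases h1.1 with h4 | h4
    · exfalso
      have : ρ i (j + 1 + 1) = ρ i (j + 2) := rfl
      omega
    · exact h4.1.symm

private lemma U5_zero_one {p : Prg} {N : ℕ} {ρ : ℕ → ℕ → ℕ} (h : Arr (mW p) N ρ) (i : ℕ)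
    (hs : tst (ρ i 1) = 1) : tst (ρ (i + 1) 1) = 0 := by
  have h1 := h.2.2 i 0 (Nat.zero_le _)
  unfold mW at h1
  rw [if_pos (h.2.1 i).1, zero_add, if_pos hs, decide_eq_true_eq] at h1
  exact h1

private lemma U5_zero_ne {p : Prg} {N : ℕ} {ρ : ℕ → ℕ → ℕ} (h : Arr (mW p) N ρ) (i : ℕ)
    (hs : tst (ρ i 1) ≠ 1) :
    tst (ρ (i + 1) 1) = p.nx (tst (ρ i 1)) (tdg (ρ i 1) (p.tk (tst (ρ i 1)))) ∧
      tdg (ρ i 1) 4 = 1 ∧
      (p.kd (tst (ρ i 1)) = 0 →
        tdg (ρ (i + 1) 1) (p.tk (tst (ρ i 1))) = p.sy (tst (ρ i 1))) := by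
  have h1 := h.2.2 i 0 (Nat.zero_le _)
  unfold mW at h1
  rw [if_pos (h.2.1 i).1, zero_add, if_neg hs, decide_eq_true_eq] at h1
  exact h1

private lemma U5_one {p : Prg} {N : ℕ} {ρ : ℕ → ℕ → ℕ} (h : Arr (mW p) N ρ) (i j : ℕ)
    (hj : j + 1 ≤ N) (hs : tst (ρ i 1) = 1) (k : ℕ) (hk : k < 4) :
    tdg (ρ (i + 1) (j + 1)) k = 0 := by
  have h1 := h.2.2 i (j + 1) hj
  have h2 := (h.2.1 i).2.2 (j + 1) (by omega) (by omega)
  unfold mW at h1
  rw [if_neg (by omega), Bool.and_eq_true, U5_tst_eq h i j hj, if_pos hs] at h1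
  have h3 := of_decide_eq_true h1.2
  interval_cases k
  · exact h3.1
  · exact h3.2.1
  · exact h3.2.2.1
  · exact h3.2.2.2

private lemma U5_ne {p : Prg} {N : ℕ} {ρ : ℕ → ℕ → ℕ} (h : Arr (mW p) N ρ) (i j : ℕ)
    (hj : j + 1 ≤ N) (hs : tst (ρ i 1) ≠ 1) :
    tdg (ρ (i + 1) (j + 1)) 4 = tdg (ρ i (j + 2)) 4 ∧
    ∀ k < 4, trk p k (ρ i (j + 1)) (ρ i (j + 2)) (ρ (i + 1) (j + 1)) (ρ (i + 1) (j + 2)) = true := by
  have h1 := h.2.2 i (j + 1) hj
  have h2 := (h.2.1 i).2.2 (j + 1) (by omega) (by omega)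
  unfold mW at h1
  rw [if_neg (by omega), Bool.and_eq_true] at h1
  have h3 := h1.2
  rw [if_neg (by rw [U5_tst_eq h i j hj]; exact hs)] at h3
  simp only [Bool.and_eq_true, decide_eq_true_eq] at h3
  refine ⟨h3.1.1.1.1, fun k hk => ?_⟩
  interval_cases k
  · exact h3.1.1.1.2
  · exact h3.1.1.2
  · exact h3.1.2
  · exact h3.2

private lemma U5_push {p : Prg} {N : ℕ} {ρ : ℕ → ℕ → ℕ} (h : Arr (mW p) N ρ) (i j : ℕ)
    (hj : j + 1 ≤ N) (hs : tst (ρ i 1) ≠ 1) (hk : p.tk (tst (ρ i 1)) < 4)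
    (hd : p.kd (tst (ρ i 1)) = 0) :
    tdg (ρ (i + 1) (j + 2)) (p.tk (tst (ρ i 1))) = tdg (ρ i (j + 1)) (p.tk (tst (ρ i 1))) := by
  have h1 := (U5_ne h i j hj hs).2 _ hk
  unfold trk at h1
  rw [U5_tst_eq h i j hj, if_pos ⟨rfl, hd⟩, decide_eq_true_eq] at h1
  exact h1

private lemma U5_pop {p : Prg} {N : ℕ} {ρ : ℕ → ℕ → ℕ} (h : Arr (mW p) N ρ) (i j : ℕ)
    (hj : j + 1 ≤ N) (hs : tst (ρ i 1) ≠ 1) (hk : p.tk (tst (ρ i 1)) < 4)
    (hd : p.kd (tst (ρ i 1)) = 1) :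
    tdg (ρ (i + 1) (j + 1)) (p.tk (tst (ρ i 1))) = tdg (ρ i (j + 2)) (p.tk (tst (ρ i 1))) := by
  have h1 := (U5_ne h i j hj hs).2 _ hk
  unfold trk at h1
  rw [U5_tst_eq h i j hj, if_neg (by rw [hd]; omega), if_pos ⟨rfl, hd⟩, decide_eq_true_eq] at h1
  exact h1

private lemma U5_keep {p : Prg} {N : ℕ} {ρ : ℕ → ℕ → ℕ} (h : Arr (mW p) N ρ) (i j : ℕ)
    (hj : j + 1 ≤ N) (hs : tst (ρ i 1) ≠ 1) (k : ℕ) (hk : k < 4)
    (hd : ¬ (k = p.tk (tst (ρ i 1)) ∧ p.kd (tst (ρ i 1)) = 0))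
    (hd' : ¬ (k = p.tk (tst (ρ i 1)) ∧ p.kd (tst (ρ i 1)) = 1)) :
    tdg (ρ (i + 1) (j + 1)) k = tdg (ρ i (j + 1)) k := by
  have h1 := (U5_ne h i j hj hs).2 _ hk
  unfold trk at h1
  rw [U5_tst_eq h i j hj, if_neg hd, if_neg hd', decide_eq_true_eq] at h1
  exact h1

private lemma U5_clock {p : Prg} {N : ℕ} {ρ : ℕ → ℕ → ℕ} (h : Arr (mW p) N ρ) (i : ℕ) :
    ∃ e ≤ N, tst (ρ (i + e) 1) = 1 := by
  by_contra hcon
  push Not at hcon
  have key : ∀ e ≤ N, tdg (ρ (i + e) (N + 1 - e)) 4 = 0 := by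
    intro e
    induction e with
    | zero =>
      intro _
      rw [Nat.sub_zero, add_zero, (h.2.1 i).2.1]
      exact U5_tdg0 4
    | succ e ih =>
      intro he
      have h1 := ih (by omega)
      have h2 := (U5_ne h (i + e) (N - e - 1) (by omega) (hcon e (by omega))).1
      have e1 : N - e - 1 + 1 = N + 1 - (e + 1) := by omega
      have e2 : N - e - 1 + 2 = N + 1 - e := by omega
      rw [e1, e2, h1] at h2
      exact h2
  have h1 := key N le_rfl
  have h2 := (U5_zero_ne h (i + N) (hcon N le_rfl)).2.1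
  have e1 : N + 1 - N = 1 := by omega
  rw [e1] at h1
  omega

/-- The row `i` represents the configuration `c`. -/
private def U5_Rep (N : ℕ) (ρ : ℕ → ℕ → ℕ) (i : ℕ) (c : ℕ × (ℕ → List ℕ)) : Prop :=
  c.1 = tst (ρ i 1) ∧ ∀ k < 4, (∀ j ≤ N, tdg (ρ i (j + 1)) k = (c.2 k).getD j 0) ∧
    (c.2 k).length ≤ N ∧ ∀ x ∈ c.2 k, 1 ≤ x

private lemma U5_init {p : Prg} {N : ℕ} {ρ : ℕ → ℕ → ℕ} (h : Arr (mW p) N ρ) (i : ℕ)
    (hs : tst (ρ i 1) = 1) : U5_Rep N ρ (i + 1) (0, fun _ => []) := by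
  refine ⟨(U5_zero_one h i hs).symm, fun k hk => ⟨fun j hj => ?_, Nat.zero_le _, fun x hx => ?_⟩⟩
  · simp only [List.getD_nil]
    rcases hj.lt_or_eq with h1 | h1
    · exact U5_one h i j (by omega) hs k hk
    · rw [h1, (h.2.1 (i + 1)).2.1]
      exact U5_tdg0 k
  · simp at hx

private lemma U5_headD (l : List ℕ) : l.headD 0 = l.getD 0 0 := by
  cases l <;> rfl

private lemma U5_step {p : Prg} (hp : p.WF) {N : ℕ} {ρ : ℕ → ℕ → ℕ} (h : Arr (mW p) N ρ) (i : ℕ)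
    (hs : tst (ρ i 1) ≠ 1) (c : ℕ × (ℕ → List ℕ)) (hc : U5_Rep N ρ i c) :
    U5_Rep N ρ (i + 1) (p.step c) := by
  obtain ⟨hc1, hc2⟩ := hc
  have htk : p.tk (tst (ρ i 1)) < 4 := (hp.2.2 _).1
  have hz := U5_zero_ne h i hs
  have hN := h.1
  refine ⟨?_, fun k hk => ?_⟩
  · unfold Prg.step
    simp only
    rw [hc1, hz.1, U5_headD, ← ((hc2 _ htk).1 0 (Nat.zero_le _))]
  · -- the other tracks
    have hkeep : ¬ (k = p.tk (tst (ρ i 1)) ∧ p.kd (tst (ρ i 1)) = 0) →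
        ¬ (k = p.tk (tst (ρ i 1)) ∧ p.kd (tst (ρ i 1)) = 1) →
        (∀ j ≤ N, tdg (ρ (i + 1) (j + 1)) k = (c.2 k).getD j 0) ∧
          (c.2 k).length ≤ N ∧ ∀ x ∈ c.2 k, 1 ≤ x := by
      intro h1 h2
      refine ⟨fun j hj => ?_, (hc2 k hk).2⟩
      rcases hj.lt_or_eq with h3 | h3
      · rw [U5_keep h i j (by omega) hs k hk h1 h2]
        exact (hc2 k hk).1 j hj
      · have h4 := (hc2 k hk).1 j hj
        rw [h3, (h.2.1 i).2.1, U5_tdg0] at h4
        rw [h3, (h.2.1 (i + 1)).2.1, U5_tdg0]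
        exact h4
    unfold Prg.step
    simp only
    rw [hc1]
    by_cases hd0 : p.kd (tst (ρ i 1)) = 0
    · rw [if_pos hd0]
      by_cases hkt : k = p.tk (tst (ρ i 1))
      · rw [hkt, Function.update_self]
        obtain ⟨h5, h6, h7⟩ := hc2 _ htk
        have hlast : (c.2 (p.tk (tst (ρ i 1)))).getD (N - 1) 0 = 0 := by
          rw [← h5 (N - 1) (by omega)]
          have h8 := U5_push h i (N - 1) (by omega) hs htk hd0
          have e1 : N - 1 + 2 = N + 1 := by omega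
          rw [e1, (h.2.1 (i + 1)).2.1, U5_tdg0] at h8
          exact h8.symm
        have hlen : (c.2 (p.tk (tst (ρ i 1)))).length < N := by
          by_contra hcon
          have h9 : N - 1 < (c.2 (p.tk (tst (ρ i 1)))).length := by omega
          rw [List.getD_eq_getElem _ _ h9] at hlast
          have h10 := h7 _ (List.getElem_mem h9)
          omega
        refine ⟨fun j hj => ?_, ?_, fun x hx => ?_⟩
        · rcases j with _ | j
          · rw [List.getD_cons_zero]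
            exact hz.2.2 hd0
          · rw [List.getD_cons_succ, ← h5 j (by omega)]
            exact U5_push h i j (by omega) hs htk hd0
        · rw [List.length_cons]
          omega
        · rcases List.mem_cons.1 hx with h8 | h8
          · rw [h8]
            exact (hp.2.2 _).2.1
          · exact h7 x h8
      · rw [Function.update_of_ne hkt]
        exact hkeep (fun h8 => hkt h8.1) (fun h8 => hkt h8.1)
    · rw [if_neg hd0]
      by_cases hd1 : p.kd (tst (ρ i 1)) = 1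
      · rw [if_pos hd1]
        by_cases hkt : k = p.tk (tst (ρ i 1))
        · rw [hkt, Function.update_self]
          obtain ⟨h5, h6, h7⟩ := hc2 _ htk
          have htail : ∀ j, (c.2 (p.tk (tst (ρ i 1)))).tail.getD j 0 =
              (c.2 (p.tk (tst (ρ i 1)))).getD (j + 1) 0 := by
            intro j
            cases c.2 (p.tk (tst (ρ i 1))) with
            | nil => simp
            | cons a l => rw [List.tail_cons, List.getD_cons_succ]
          refine ⟨fun j hj => ?_, ?_, fun x hx => h7 x (List.mem_of_mem_tail hx)⟩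
          · rw [htail]
            rcases hj.lt_or_eq with h8 | h8
            · rw [← h5 (j + 1) (by omega)]
              exact U5_pop h i j (by omega) hs htk hd1
            · rw [h8, (h.2.1 (i + 1)).2.1, U5_tdg0, List.getD_eq_default _ _ (by omega)]
          · rw [List.length_tail]
            omega
        · rw [Function.update_of_ne hkt]
          exact hkeep (fun h8 => hkt h8.1) (fun h8 => hkt h8.1)
      · rw [if_neg hd1]
        exact hkeep (fun h8 => hd0 h8.2) (fun h8 => hd1 h8.2)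

theorem halts_of_arr {p : Prg} (hp : p.WF) {N : ℕ} {ρ : ℕ → ℕ → ℕ} (h : Arr (mW p) N ρ) :
    p.halts := by
  obtain ⟨i, -, hi⟩ := U5_clock h 0
  rw [zero_add] at hi
  have hex : ∃ e, tst (ρ (i + 1 + e) 1) = 1 := by
    obtain ⟨e, -, he⟩ := U5_clock h (i + 1)
    exact ⟨e, he⟩
  classical
  set e := Nat.find hex with he
  have hfind : tst (ρ (i + 1 + e) 1) = 1 := Nat.find_spec hex
  have hmin : ∀ m < e, tst (ρ (i + 1 + m) 1) ≠ 1 := fun m hm => Nat.find_min hex hm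
  have key : ∀ m ≤ e, U5_Rep N ρ (i + 1 + m) (p.step^[m] (0, fun _ => [])) := by
    intro m
    induction m with
    | zero =>
      intro _
      exact U5_init h i hi
    | succ m ih =>
      intro hm
      rw [Function.iterate_succ_apply']
      exact U5_step hp h (i + 1 + m) (hmin m (by omega)) _ (ih (by omega))
  refine ⟨e, ?_⟩
  rw [(key e le_rfl).1]
  exact hfind

end Pool.Agent.NGP
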