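import Pool.Agent.NGP.UDefs

/-!
# NGP, part U, module U6: a halting program has long periodic arrays

PROOF. Let `c e = p.step^[e] (0, fun _ => [])` and `n` minimal with `(c n).1 = 1`. Facts, by
induction on `e`: `(c e).1 < p.B`, `((c e).2 k).length ≤ e`, all entries of `(c e).2 k` are in
`1..4`. Given `N₀`, take `N = max N₀ (n + 1)`, `K = n + 1`, and for `e = i % (n + 1)`
`ρ i j = tl (c e).1 (fun k => if k = 4 then (if j ≤ n - e then 1 else 0) else ((c e).2 k).getD (j-1) 0)`
for `1 ≤ j ≤ N`, `ρ i j = 0` otherwise, where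
`tl s f = 1 + (s * 3125 + f 4 * 625 + f 3 * 125 + f 2 * 25 + f 1 * 5 + f 0)`: for digits `< 5`,
`tst (tl s f) = s`, `tdg (tl s f) k = f k` for `k < 5` (`interval_cases k`, `omega`), and
`1 ≤ tl s f ≤ 3125 * (s + 1)`. Windows: for `e < n` the step is `c (e+1) = p.step (c e)`
(`(c e).1 ≠ 1`, clock `n - e ≥ 1`, stack lengths `≤ e < N`); for `e = n` it is the reset
(`(c n).1 = 1`, `c 0 = (0, fun _ => [])`). Use `tdg 0 k = 0` at the right border.
-/

namespace Pool.Agent.NGP

/-- A tile from its state and its digits. -/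
private def u6tl (s : ℕ) (f : ℕ → ℕ) : ℕ :=
  1 + (s * 3125 + f 4 * 625 + f 3 * 125 + f 2 * 25 + f 1 * 5 + f 0)

private theorem u6tl_tst (s : ℕ) (f : ℕ → ℕ) (hf : ∀ k, f k < 5) : tst (u6tl s f) = s := by
  have h0 := hf 0
  have h1 := hf 1
  have h2 := hf 2
  have h3 := hf 3
  have h4 := hf 4
  unfold tst u6tl
  omega

private theorem u6tl_tdg (s : ℕ) (f : ℕ → ℕ) (hf : ∀ k, f k < 5) {k : ℕ} (hk : k < 5) :
    tdg (u6tl s f) k = f k := by
  have h0 := hf 0
  have h1 := hf 1
  have h2 := hf 2
  have h3 := hf 3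
  have h4 := hf 4
  unfold tdg u6tl
  interval_cases k <;> simp only [pow_zero, pow_one, Nat.reducePow] <;> omega

private theorem u6tl_le (s : ℕ) (f : ℕ → ℕ) (hf : ∀ k, f k < 5) {B : ℕ} (hs : s < B) :
    u6tl s f ≤ 3125 * B := by
  have h0 := hf 0
  have h1 := hf 1
  have h2 := hf 2
  have h3 := hf 3
  have h4 := hf 4
  unfold u6tl
  omega

/-- The configuration after `e` steps. -/
private def u6c (p : Prg) (e : ℕ) : ℕ × (ℕ → List ℕ) := p.step^[e] (0, fun _ => [])

private theorem u6c_zero (p : Prg) : u6c p 0 = (0, fun _ => []) := rfl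

private theorem u6c_succ (p : Prg) (e : ℕ) : u6c p (e + 1) = p.step (u6c p e) :=
  Function.iterate_succ_apply' _ _ _

private theorem u6c_lt {p : Prg} (hp : p.WF) (e : ℕ) : (u6c p e).1 < p.B := by
  cases e with
  | zero =>
    rw [u6c_zero]
    have := hp.1
    change 0 < p.B
    omega
  | succ e =>
    rw [u6c_succ]
    exact hp.2.1 _ _

private theorem u6c_len (p : Prg) (e k : ℕ) : ((u6c p e).2 k).length ≤ e := by
  induction e generalizing k with
  | zero => rw [u6c_zero]; simp
  | succ e ih =>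
    rw [u6c_succ]
    unfold Prg.step
    dsimp only
    split_ifs with h1 h2
    · by_cases hk : k = p.tk (u6c p e).1
      · rw [hk, Function.update_self, List.length_cons]
        have := ih (p.tk (u6c p e).1)
        omega
      · rw [Function.update_of_ne hk]
        have := ih k
        omega
    · by_cases hk : k = p.tk (u6c p e).1
      · rw [hk, Function.update_self, List.length_tail]
        have := ih (p.tk (u6c p e).1)
        omega
      · rw [Function.update_of_ne hk]
        have := ih k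
        omega
    · have := ih k
      omega

private theorem u6c_ent {p : Prg} (hp : p.WF) (e k : ℕ) : ∀ x ∈ (u6c p e).2 k, x < 5 := by
  induction e generalizing k with
  | zero => rw [u6c_zero]; simp
  | succ e ih =>
    rw [u6c_succ]
    unfold Prg.step
    dsimp only
    split_ifs with h1 h2
    · by_cases hk : k = p.tk (u6c p e).1
      · rw [hk, Function.update_self]
        intro x hx
        rcases List.mem_cons.1 hx with hx | hx
        · rw [hx]
          exact (hp.2.2 _).2.2
        · exact ih _ x hx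
      · rw [Function.update_of_ne hk]
        exact ih k
    · by_cases hk : k = p.tk (u6c p e).1
      · rw [hk, Function.update_self]
        intro x hx
        exact ih _ x (List.mem_of_mem_tail hx)
      · rw [Function.update_of_ne hk]
        exact ih k
    · exact ih k

/-- The digits of the tile in column `j`. -/
private def u6dg (p : Prg) (n e j k : ℕ) : ℕ :=
  if k = 4 then (if j ≤ n - e then 1 else 0) else ((u6c p e).2 k).getD (j - 1) 0

private theorem u6dg_lt {p : Prg} (hp : p.WF) (n e j k : ℕ) : u6dg p n e j k < 5 := by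
  unfold u6dg
  split_ifs
  · norm_num
  · norm_num
  · rw [List.getD_eq_getElem?_getD]
    cases h : ((u6c p e).2 k)[j - 1]? with
    | none => norm_num
    | some x =>
      rw [Option.getD_some]
      exact u6c_ent hp e k x (List.mem_of_getElem? h)

/-- The row of the configuration `e`. -/
private def u6R (p : Prg) (n N e j : ℕ) : ℕ :=
  if 1 ≤ j ∧ j ≤ N then u6tl (u6c p e).1 (u6dg p n e j) else 0

private theorem u6R_ne {p : Prg} {n N e j : ℕ} (h1 : 1 ≤ j) (h2 : j ≤ N) :
    1 ≤ u6R p n N e j := by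
  unfold u6R
  rw [if_pos ⟨h1, h2⟩]
  unfold u6tl
  omega

private theorem u6R_tst {p : Prg} (hp : p.WF) {n N e j : ℕ} (h1 : 1 ≤ j) (h2 : j ≤ N) :
    tst (u6R p n N e j) = (u6c p e).1 := by
  unfold u6R
  rw [if_pos ⟨h1, h2⟩]
  exact u6tl_tst _ _ (u6dg_lt hp n e j)

private theorem u6R_dg {p : Prg} (hp : p.WF) {n N e j k : ℕ} (he : e ≤ n) (hn : n < N)
    (h1 : 1 ≤ j) (hk : k < 4) :
    tdg (u6R p n N e j) k = ((u6c p e).2 k).getD (j - 1) 0 := by
  unfold u6R
  by_cases h2 : j ≤ N
  · rw [if_pos ⟨h1, h2⟩, u6tl_tdg _ _ (u6dg_lt hp n e j) (by omega)]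
    unfold u6dg
    rw [if_neg (by omega)]
  · rw [if_neg (by omega)]
    have := u6c_len p e k
    rw [List.getD_eq_default _ _ (by omega)]
    simp [tdg]

private theorem u6R_dg4 {p : Prg} (hp : p.WF) {n N e j : ℕ} (hn : n < N) (h1 : 1 ≤ j) :
    tdg (u6R p n N e j) 4 = if j ≤ n - e then 1 else 0 := by
  unfold u6R
  by_cases h2 : j ≤ N
  · rw [if_pos ⟨h1, h2⟩, u6tl_tdg _ _ (u6dg_lt hp n e j) (by omega)]
    unfold u6dg
    rw [if_pos rfl]
  · rw [if_neg (by omega), if_neg (by omega)]
    simp [tdg]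

private theorem u6_zero {p : Prg} {n N e : ℕ} : u6R p n N e 0 = 0 := by
  unfold u6R
  rw [if_neg (by omega)]

private theorem u6_last {p : Prg} {n N e : ℕ} : u6R p n N e (N + 1) = 0 := by
  unfold u6R
  rw [if_neg (by omega)]

private theorem u6_trk {p : Prg} (hp : p.WF) {n N e j k : ℕ} (he : e < n) (hn : n < N)
    (h1 : 1 ≤ j) (hj : j ≤ N) (hk : k < 4) :
    trk p k (u6R p n N e j) (u6R p n N e (j + 1)) (u6R p n N (e + 1) j)
      (u6R p n N (e + 1) (j + 1)) = true := by
  unfold trk
  rw [u6R_tst hp h1 hj, u6R_dg hp (by omega) hn (by omega) hk,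
    u6R_dg hp (by omega) hn (by omega) hk, u6R_dg hp (by omega) hn (by omega) hk,
    u6R_dg hp (by omega) hn (by omega) hk, u6c_succ]
  unfold Prg.step
  dsimp only
  obtain ⟨j, rfl⟩ : ∃ i, j = i + 1 := ⟨j - 1, by omega⟩
  simp only [Nat.add_sub_cancel]
  by_cases hkt : k = p.tk (u6c p e).1
  · by_cases hk0 : p.kd (u6c p e).1 = 0
    · rw [if_pos ⟨hkt, hk0⟩, if_pos hk0, ← hkt, Function.update_self]
      simp
    · rw [if_neg (by tauto), if_neg hk0]
      by_cases hk1 : p.kd (u6c p e).1 = 1
      · rw [if_pos ⟨hkt, hk1⟩, if_pos hk1, ← hkt, Function.update_self]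
        cases (u6c p e).2 k with
        | nil => simp
        | cons x l => simp
      · rw [if_neg (by tauto), if_neg hk1]
        simp
  · rw [if_neg (by tauto), if_neg (by tauto)]
    have : ((if p.kd (u6c p e).1 = 0 then
        Function.update (u6c p e).2 (p.tk (u6c p e).1)
          (p.sy (u6c p e).1 :: (u6c p e).2 (p.tk (u6c p e).1))
        else if p.kd (u6c p e).1 = 1 then
          Function.update (u6c p e).2 (p.tk (u6c p e).1) ((u6c p e).2 (p.tk (u6c p e).1)).tail
        else (u6c p e).2) : ℕ → List ℕ) k = (u6c p e).2 k := by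
      split_ifs
      · rw [Function.update_of_ne hkt]
      · rw [Function.update_of_ne hkt]
      · rfl
    rw [this]
    simp

private theorem u6_step {p : Prg} (hp : p.WF) {n N e j : ℕ} (he : e < n) (hn : n < N)
    (hne : (u6c p e).1 ≠ 1) (hj : j ≤ N) :
    mW p (u6R p n N e j) (u6R p n N e (j + 1)) (u6R p n N (e + 1) j)
      (u6R p n N (e + 1) (j + 1)) = true := by
  unfold mW
  rcases Nat.eq_zero_or_pos j with rfl | h1
  · rw [if_pos u6_zero]
    have ht : tst (u6R p n N e (0 + 1)) = (u6c p e).1 := u6R_tst hp (by omega) (by omega)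
    have ht' : tst (u6R p n N (e + 1) (0 + 1)) = (u6c p (e + 1)).1 :=
      u6R_tst hp (by omega) (by omega)
    rw [ht, ht', if_neg hne, decide_eq_true_iff]
    have htk := (hp.2.2 (u6c p e).1).1
    refine ⟨?_, ?_, ?_⟩
    · rw [u6R_dg hp (by omega) hn (by omega) htk, u6c_succ]
      unfold Prg.step
      dsimp only
      cases (u6c p e).2 (p.tk (u6c p e).1) with
      | nil => rfl
      | cons x l => rfl
    · rw [u6R_dg4 hp hn (by omega), if_pos (by omega)]
    · intro hk0
      rw [u6R_dg hp (by omega) hn (by omega) htk, u6c_succ]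
      unfold Prg.step
      dsimp only
      rw [if_pos hk0, Function.update_self]
      rfl
  · have ha := u6R_ne (p := p) (n := n) (e := e) h1 hj
    rw [if_neg (by omega), u6R_tst hp h1 hj, if_neg hne]
    simp only [Bool.and_eq_true]
    refine ⟨?_, ⟨⟨⟨?_, ?_⟩, ?_⟩, ?_⟩, ?_⟩
    · rw [decide_eq_true_iff]
      rcases Nat.lt_or_ge j N with h2 | h2
      · right
        rw [u6R_tst hp (by omega) (by omega), u6R_tst hp (by omega) (by omega),
          u6R_tst hp (by omega) (by omega)]
        exact ⟨rfl, rfl⟩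
      · left
        have : j = N := by omega
        rw [this]
        exact u6_last
    · rw [decide_eq_true_iff, u6R_dg4 hp hn (by omega), u6R_dg4 hp hn (by omega)]
      split_ifs <;> omega
    · exact u6_trk hp he hn h1 hj (by omega)
    · exact u6_trk hp he hn h1 hj (by omega)
    · exact u6_trk hp he hn h1 hj (by omega)
    · exact u6_trk hp he hn h1 hj (by omega)

private theorem u6_reset {p : Prg} (hp : p.WF) {n N j : ℕ} (hn : n < N)
    (he : (u6c p n).1 = 1) (hj : j ≤ N) :
    mW p (u6R p n N n j) (u6R p n N n (j + 1)) (u6R p n N 0 j)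
      (u6R p n N 0 (j + 1)) = true := by
  unfold mW
  rcases Nat.eq_zero_or_pos j with rfl | h1
  · rw [if_pos u6_zero]
    have ht : tst (u6R p n N n (0 + 1)) = (u6c p n).1 := u6R_tst hp (by omega) (by omega)
    have ht' : tst (u6R p n N 0 (0 + 1)) = (u6c p 0).1 := u6R_tst hp (by omega) (by omega)
    rw [ht, ht', if_pos he, decide_eq_true_iff]
    rfl
  · have ha := u6R_ne (p := p) (n := n) (e := n) h1 hj
    rw [if_neg (by omega), u6R_tst hp h1 hj, if_pos he]
    simp only [Bool.and_eq_true]
    refine ⟨?_, ?_⟩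
    · rw [decide_eq_true_iff]
      rcases Nat.lt_or_ge j N with h2 | h2
      · right
        rw [u6R_tst hp (by omega) (by omega), u6R_tst hp (by omega) (by omega),
          u6R_tst hp (by omega) (by omega)]
        exact ⟨rfl, rfl⟩
      · left
        have : j = N := by omega
        rw [this]
        exact u6_last
    · rw [decide_eq_true_iff, u6R_dg hp (by omega) hn (by omega) (by omega),
        u6R_dg hp (by omega) hn (by omega) (by omega),
        u6R_dg hp (by omega) hn (by omega) (by omega),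
        u6R_dg hp (by omega) hn (by omega) (by omega), u6c_zero]
      simp

theorem arr_of_halts {p : Prg} (hp : p.WF) (h : p.halts) :
    ∀ N₀ : ℕ, ∃ (N K : ℕ) (ρ : ℕ → ℕ → ℕ), N₀ ≤ N ∧ 0 < K ∧ Arr (mW p) N ρ ∧
      (∀ i, ρ (i + K) = ρ i) ∧ ∀ i j, ρ i j ≤ 3125 * p.B := by
  classical
  intro N₀
  have hex : ∃ n, (u6c p n).1 = 1 := h
  obtain ⟨n, hn, hmin⟩ : ∃ n, (u6c p n).1 = 1 ∧ ∀ e < n, (u6c p e).1 ≠ 1 :=
    ⟨Nat.find hex, Nat.find_spec hex, fun e he => Nat.find_min hex he⟩
  set N := max N₀ (n + 1) with hN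
  have hnN : n < N := by
    have := le_max_right N₀ (n + 1)
    omega
  refine ⟨N, n + 1, fun i j => u6R p n N (i % (n + 1)) j, le_max_left _ _, by omega,
    ⟨by omega, ?_, ?_⟩, ?_, ?_⟩
  · intro i
    exact ⟨u6_zero, u6_last, fun j h1 h2 => u6R_ne h1 h2⟩
  · intro i j hj
    dsimp only
    have hlt : i % (n + 1) < n + 1 := Nat.mod_lt _ (by omega)
    rcases Nat.lt_or_ge (i % (n + 1)) n with he | he
    · have h1 : (i + 1) % (n + 1) = i % (n + 1) + 1 := by
        rw [Nat.add_mod, Nat.mod_eq_of_lt (a := 1) (by omega), Nat.mod_eq_of_lt (by omega)]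
      rw [h1]
      exact u6_step hp he hnN (hmin _ he) hj
    · have h0 : i % (n + 1) = n := by omega
      have h1 : (i + 1) % (n + 1) = 0 := by
        rw [← Nat.mod_add_mod, h0, Nat.mod_self]
      rw [h0, h1]
      exact u6_reset hp hnN hn hj
  · intro i
    funext j
    dsimp only
    rw [Nat.add_mod_right]
  · intro i j
    dsimp only
    unfold u6R
    split_ifs
    · exact u6tl_le _ _ (u6dg_lt hp _ _ _) (u6c_lt hp _)
    · omega

end Pool.Agent.NGP
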