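import Pool.Agent.NGP.UDefs

/-!
# NGP, part U, module U7: the family of rules is primitive recursive

PROOF. Composition of `Primrec.nat_div`, `Primrec.nat_mod`, `Primrec.nat_sub`, `Primrec.ite`,
`PrimrecPred.decide`, `Primrec.eq`, `Primrec.and` (`&&`), ... and the hypotheses `PrP PG`
(`tdg y k` is used only for fixed `k`, where `5 ^ k` is a constant, and for `k = p.tk s`: the latter
by `Nat.rec` or by `tdg y k = ...` with `5 ^ k` as `Nat.rec 1 (fun _ r => 5 * r) k`).
Suggested: first `Primrec fun x : α => tst (f x)`, `tdg (f x) (k x)` for primitive recursive `f`, `k`,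
then `trk (PG (m x)) (k x) (a x) (b x) (c x) (d x)`, `mW (PG (m x)) ...`, `mir (mW (PG (m x))) ...`
for functions of a variable `x : ℕ × ℕ × ℕ × ℕ × ℕ`.
-/

namespace Pool.Agent.NGP

section U7

variable {α : Type} [Primcodable α]

private theorem u7_pow {f g : α → ℕ} (hf : Primrec f) (hg : Primrec g) :
    Primrec (fun x => f x ^ g x) :=
  (Primrec₂.unpaired'.1 Nat.Primrec.pow).comp hf hg

private theorem u7_tst {f : α → ℕ} (hf : Primrec f) : Primrec (fun x => tst (f x)) :=
  Primrec.nat_div.comp (Primrec.nat_sub.comp hf (Primrec.const 1)) (Primrec.const 3125)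

private theorem u7_tdg {f k : α → ℕ} (hf : Primrec f) (hk : Primrec k) :
    Primrec (fun x => tdg (f x) (k x)) :=
  Primrec.nat_mod.comp (Primrec.nat_div.comp (Primrec.nat_sub.comp hf (Primrec.const 1))
    (u7_pow (Primrec.const 5) hk)) (Primrec.const 5)

private theorem u7_eq {f g : α → ℕ} (hf : Primrec f) (hg : Primrec g) :
    PrimrecPred (fun x => f x = g x) := Primrec.eq.comp hf hg

private theorem u7_imp {p q : α → Prop} (hp : PrimrecPred p) (hq : PrimrecPred q) :
    PrimrecPred (fun x => p x → q x) :=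
  (hp.not.or hq).of_eq fun x => by tauto

private theorem u7_iff {p q : α → Prop} (hp : PrimrecPred p) (hq : PrimrecPred q) :
    PrimrecPred (fun x => p x ↔ q x) :=
  ((hp.and hq).or (hp.not.and hq.not)).of_eq fun x => by tauto

private theorem u7_trk {PG : ℕ → Prg} (h : PrP PG) {m a b c d : α → ℕ} (k : ℕ) (hm : Primrec m)
    (ha : Primrec a) (hb : Primrec b) (hc : Primrec c) (hd : Primrec d) :
    Primrec (fun x => trk (PG (m x)) k (a x) (b x) (c x) (d x)) := by
  obtain ⟨-, hkd, htk, -, -⟩ := h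
  have h1 : Primrec (fun x => (PG (m x)).tk (tst (a x))) := htk.comp (hm.pair (u7_tst ha))
  have h2 : Primrec (fun x => (PG (m x)).kd (tst (a x))) := hkd.comp (hm.pair (u7_tst ha))
  have hk : Primrec (fun _ : α => k) := Primrec.const k
  unfold trk
  refine Primrec.ite ((u7_eq hk h1).and (u7_eq h2 (Primrec.const 0)))
    (PrimrecPred.decide (u7_eq (u7_tdg hd hk) (u7_tdg ha hk))) ?_
  exact Primrec.ite ((u7_eq hk h1).and (u7_eq h2 (Primrec.const 1)))
    (PrimrecPred.decide (u7_eq (u7_tdg hc hk) (u7_tdg hb hk)))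
    (PrimrecPred.decide (u7_eq (u7_tdg hc hk) (u7_tdg ha hk)))

private theorem u7_mW {PG : ℕ → Prg} (h : PrP PG) {m a b c d : α → ℕ} (hm : Primrec m)
    (ha : Primrec a) (hb : Primrec b) (hc : Primrec c) (hd : Primrec d) :
    Primrec (fun x => mW (PG (m x)) (a x) (b x) (c x) (d x)) := by
  have h' := h
  obtain ⟨-, hkd, htk, hsy, hnx⟩ := h
  have hsb := u7_tst hb
  have hsd := u7_tst hd
  have h1 : Primrec (fun x => (PG (m x)).tk (tst (b x))) := htk.comp (hm.pair hsb)
  have h2 : Primrec (fun x => (PG (m x)).kd (tst (b x))) := hkd.comp (hm.pair hsb)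
  have h3 : Primrec (fun x => (PG (m x)).sy (tst (b x))) := hsy.comp (hm.pair hsb)
  have h4 : Primrec (fun x => (PG (m x)).nx (tst (b x)) (tdg (b x) ((PG (m x)).tk (tst (b x))))) :=
    hnx.comp (hm.pair (hsb.pair (u7_tdg hb h1)))
  have k0 : Primrec (fun _ : α => 0) := Primrec.const 0
  have k1 : Primrec (fun _ : α => 1) := Primrec.const 1
  have k2 : Primrec (fun _ : α => 2) := Primrec.const 2
  have k3 : Primrec (fun _ : α => 3) := Primrec.const 3
  have k4 : Primrec (fun _ : α => 4) := Primrec.const 4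
  unfold mW
  refine Primrec.ite (u7_eq ha k0) ?_ ?_
  · refine Primrec.ite (u7_eq hsb k1) (PrimrecPred.decide (u7_eq hsd k0)) ?_
    exact PrimrecPred.decide ((u7_eq hsd h4).and ((u7_eq (u7_tdg hb k4) k1).and
      (u7_imp (u7_eq h2 k0) (u7_eq (u7_tdg hd h1) h3))))
  · refine Primrec.and.comp (PrimrecPred.decide ((u7_eq hb k0).or
      ((u7_eq (u7_tst ha) hsb).and (u7_eq (u7_tst hc) hsd)))) ?_
    refine Primrec.ite (u7_eq (u7_tst ha) k1) ?_ ?_
    · exact PrimrecPred.decide ((u7_eq (u7_tdg hc k0) k0).and ((u7_eq (u7_tdg hc k1) k0).and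
        ((u7_eq (u7_tdg hc k2) k0).and (u7_eq (u7_tdg hc k3) k0))))
    · exact Primrec.and.comp (Primrec.and.comp (Primrec.and.comp (Primrec.and.comp
        (PrimrecPred.decide (u7_eq (u7_tdg hc k4) (u7_tdg hb k4)))
        (u7_trk h' 0 hm ha hb hc hd)) (u7_trk h' 1 hm ha hb hc hd))
        (u7_trk h' 2 hm ha hb hc hd)) (u7_trk h' 3 hm ha hb hc hd)

private theorem u7_par {a b : α → ℕ} (ha : Primrec a) (hb : Primrec b) :
    Primrec (fun x => par (a x) (b x)) :=
  Primrec.nat_mod.comp (Primrec.ite (u7_eq ha (Primrec.const 0)) hb ha) (Primrec.const 2)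

private theorem u7_mir {PG : ℕ → Prg} (h : PrP PG) {m a b c d : α → ℕ} (hm : Primrec m)
    (ha : Primrec a) (hb : Primrec b) (hc : Primrec c) (hd : Primrec d) :
    Primrec (fun x => mir (mW (PG (m x))) (a x) (b x) (c x) (d x)) := by
  have k0 : Primrec (fun _ : α => 0) := Primrec.const 0
  have k1 : Primrec (fun _ : α => 1) := Primrec.const 1
  have k2 : Primrec (fun _ : α => 2) := Primrec.const 2
  have hp := u7_par ha hb
  have hp1 : Primrec (fun x => 1 - par (a x) (b x)) := Primrec.nat_sub.comp k1 hp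
  have half : ∀ {f : α → ℕ}, Primrec f → Primrec (fun x => f x / 2) := fun hf =>
    Primrec.nat_div.comp hf k2
  have md : ∀ {f : α → ℕ}, Primrec f → Primrec (fun x => f x % 2) := fun hf =>
    Primrec.nat_mod.comp hf k2
  unfold mir
  refine Primrec.and.comp (PrimrecPred.decide
    ((u7_iff (u7_eq ha k0) (u7_eq hc k0)).and ((u7_iff (u7_eq hb k0) (u7_eq hd k0)).and
      ((PrimrecPred.not ((u7_eq ha k0).and (u7_eq hb k0))).and
        (((u7_eq hb k0).or (u7_eq (md hb) hp)).and
          (((u7_eq hc k0).or (u7_eq (md hc) hp1)).and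
            ((u7_eq hd k0).or (u7_eq (md hd) hp1)))))))) ?_
  exact Primrec.ite (u7_eq hp k1) (u7_mW h hm (half ha) (half hb) (half hc) (half hd))
    (u7_mW h hm (half hb) (half ha) (half hd) (half hc))

end U7

theorem primrec_mir {PG : ℕ → Prg} (h : PrP PG) :
    Primrec (fun x : ℕ × ℕ × ℕ × ℕ × ℕ =>
      mir (mW (PG x.1)) x.2.1 x.2.2.1 x.2.2.2.1 x.2.2.2.2) :=
  u7_mir h Primrec.fst (Primrec.fst.comp Primrec.snd)
    (Primrec.fst.comp (Primrec.snd.comp Primrec.snd))
    (Primrec.fst.comp (Primrec.snd.comp (Primrec.snd.comp Primrec.snd)))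
    (Primrec.snd.comp (Primrec.snd.comp (Primrec.snd.comp Primrec.snd)))

end Pool.Agent.NGP
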