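import Pool.Agent.NGP.Defs

/-!
# NGP, part U: definitions (stack programs and their tile systems)

PLAN OF PART U (owner: helper63). The family is `q_m = mir (mW (PG m))` with `2 * (3125 * (PG m).B)`
tile labels, where `PG m` is a stack program (`Prg`, below), `mW p` is a rule for windows

      ρ i j        ρ i (j+1)
      ρ (i+1) j    ρ (i+1) (j+1)

of arrays `ρ : ℕ → ℕ → ℕ` (row `i`, column `j`, columns `1..N` are the tiles, columns `0` and `N+1`
are the border `0`), and `mir` takes care of the fact that consecutive rows of a word are read in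
opposite directions: a tile label is `2 * y + (parity of the row)`, rows of parity `0` are written
forwards, rows of parity `1` backwards.

* `U1`: `adv` and windows.
* `U2`: rows of a periodic word.
* `U3`: no array for `W` implies `Acyc (2 * G) (mir W)`.
* `U4`: long periodic arrays for `W` imply `Cyc (2 * G) (mir W)`.
* `U5`: if the program `p` does not halt there is no array for `mW p`.
* `U6`: if it halts there are long periodic arrays for `mW p`.
* `U7`: `mir (mW (PG m))` is primitive recursive in `m` and the labels.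
* `U8`: a primitive recursive family `PG` of programs with `¬ REPred fun m => ¬ (PG m).halts`.
-/

namespace Pool.Agent.NGP

/-- Infinite arrays of width `N` without violation of `W`. -/
def Arr (W : ℕ → ℕ → ℕ → ℕ → Bool) (N : ℕ) (ρ : ℕ → ℕ → ℕ) : Prop :=
  0 < N ∧ (∀ i, ρ i 0 = 0 ∧ ρ i (N + 1) = 0 ∧ ∀ j, 1 ≤ j → j ≤ N → 1 ≤ ρ i j) ∧
  ∀ i, ∀ j ≤ N, W (ρ i j) (ρ i (j + 1)) (ρ (i + 1) j) (ρ (i + 1) (j + 1)) = true

/-- Parity of the upper row of a window. -/
def par (a b : ℕ) : ℕ := (if a = 0 then b else a) % 2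

/-- The rule `W` for rows written alternately forwards (parity `0`) and backwards (parity `1`). -/
def mir (W : ℕ → ℕ → ℕ → ℕ → Bool) (a b c d : ℕ) : Bool :=
  decide ((a = 0 ↔ c = 0) ∧ (b = 0 ↔ d = 0) ∧ ¬ (a = 0 ∧ b = 0) ∧ (b = 0 ∨ b % 2 = par a b) ∧
    (c = 0 ∨ c % 2 = 1 - par a b) ∧ (d = 0 ∨ d % 2 = 1 - par a b)) &&
  (if par a b = 1 then W (a / 2) (b / 2) (c / 2) (d / 2) else W (b / 2) (a / 2) (d / 2) (c / 2))

/-- Stack programs: number of states, kind of the instruction of a state (`0` = push, `1` = pop,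
else keep), its stack (`< 4`), the pushed symbol (`1..4`), and the next state, depending on the top
symbol (`0` = empty stack). State `0` is the initial state, state `1` the halting state. -/
structure Prg where
  B : ℕ
  kd : ℕ → ℕ
  tk : ℕ → ℕ
  sy : ℕ → ℕ
  nx : ℕ → ℕ → ℕ

namespace Prg

/-- Well formed programs. -/
def WF (p : Prg) : Prop :=
  1 < p.B ∧ (∀ s a, p.nx s a < p.B) ∧ ∀ s, p.tk s < 4 ∧ 1 ≤ p.sy s ∧ p.sy s < 5

/-- One step. -/
def step (p : Prg) (c : ℕ × (ℕ → List ℕ)) : ℕ × (ℕ → List ℕ) :=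
  (p.nx c.1 ((c.2 (p.tk c.1)).headD 0),
    if p.kd c.1 = 0 then Function.update c.2 (p.tk c.1) (p.sy c.1 :: c.2 (p.tk c.1))
    else if p.kd c.1 = 1 then Function.update c.2 (p.tk c.1) (c.2 (p.tk c.1)).tail
    else c.2)

/-- The program halts, started with empty stacks. -/
def halts (p : Prg) : Prop := ∃ n : ℕ, (p.step^[n] (0, fun _ => [])).1 = 1

end Prg

/-- State of a tile `y ≥ 1`. -/
def tst (y : ℕ) : ℕ := (y - 1) / 3125

/-- Digits of a tile `y ≥ 1`: tracks `0..3` for the stacks, track `4` for the clock. -/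
def tdg (y k : ℕ) : ℕ := (y - 1) / 5 ^ k % 5

/-- Rule for one stack track `k` away from the left border (upper row not halting). -/
def trk (p : Prg) (k a b c d : ℕ) : Bool :=
  if k = p.tk (tst a) ∧ p.kd (tst a) = 0 then decide (tdg d k = tdg a k)
  else if k = p.tk (tst a) ∧ p.kd (tst a) = 1 then decide (tdg c k = tdg b k)
  else decide (tdg c k = tdg a k)

/-- The rule of a program: `a b` are neighbours in the upper row, `c d` below them. -/
def mW (p : Prg) (a b c d : ℕ) : Bool :=
  if a = 0 then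
    (if tst b = 1 then decide (tst d = 0)
    else decide (tst d = p.nx (tst b) (tdg b (p.tk (tst b))) ∧ tdg b 4 = 1 ∧
      (p.kd (tst b) = 0 → tdg d (p.tk (tst b)) = p.sy (tst b))))
  else
    decide (b = 0 ∨ (tst a = tst b ∧ tst c = tst d)) &&
    (if tst a = 1 then decide (tdg c 0 = 0 ∧ tdg c 1 = 0 ∧ tdg c 2 = 0 ∧ tdg c 3 = 0)
    else decide (tdg c 4 = tdg b 4) && trk p 0 a b c d && trk p 1 a b c d && trk p 2 a b c d &&
      trk p 3 a b c d)

/-- Primitive recursive families of programs. -/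
def PrP (PG : ℕ → Prg) : Prop :=
  Primrec (fun m => (PG m).B) ∧
  Primrec (fun x : ℕ × ℕ => (PG x.1).kd x.2) ∧
  Primrec (fun x : ℕ × ℕ => (PG x.1).tk x.2) ∧
  Primrec (fun x : ℕ × ℕ => (PG x.1).sy x.2) ∧
  Primrec (fun x : ℕ × ℕ × ℕ => (PG x.1).nx x.2.1 x.2.2)

end Pool.Agent.NGP
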