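import Pool.Agent.NB.Machine
import Pool.Agent.NB.Halt
import Pool.Agent.NGP.UDefs

/-!
# NGP, part U, module U8: an undecidable family of programs (owner: helper63)

PROOF. (1) There is a code `c` with `¬ REPred fun n => ¬ (c.eval [n]).Dom` (as
`NB.exists_halting_code`, with `ComputablePred.halting_problem_not_re`).
(2) `StateTransition.eval sstep (sinit c [n]) = shalt <$> c.eval [n]` (`NB.small_eval`); the
statements reachable for `c` are a finite closed set (`NB.stateSet_finite`, `NB.step_closed`).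
(3) The program `prg tab M i₀ m`: state `0` pushes the separator on the main stack and goes to
`m + 2`; the states `2 + j`, `j ≤ m`, push the bit `j` of `m` if `m / 2 ^ j ≠ 0`, and go to `1 + j`,
for `j = 0` to the initial state of the machine; the states of the machine are numbered from
`m + 3`; halted states go to `1`.
-/

namespace Pool.Agent.NGP

open Turing Turing.PartrecToTM2

/-- Number of a stack. -/
def kn : K' → ℕ
  | K'.main => 0
  | K'.rev => 1
  | K'.aux => 2
  | K'.stack => 3

theorem kn_lt (k : K') : kn k < 4 := by cases k <;> decide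

theorem kn_inj {k k' : K'} (h : kn k = kn k') : k = k' := by
  cases k <;> cases k' <;> first | rfl | exact absurd h (by decide)

/-- Kind of a statement. -/
def skd : NB.St → ℕ
  | TM2.Stmt.push _ _ _ => 0
  | TM2.Stmt.pop _ _ _ => 1
  | _ => 2

/-- Stack of a statement. -/
def skk : NB.St → K'
  | TM2.Stmt.push k _ _ => k
  | TM2.Stmt.pop k _ _ => k
  | TM2.Stmt.peek k _ _ => k
  | _ => K'.main

/-- Pushed symbol of a statement. -/
def ssy : NB.St → Option Γ' → Γ'
  | TM2.Stmt.push _ f _, v => f v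
  | _, _ => Γ'.cons

/-- Next state of a statement. -/
def snx : NB.St → Option Γ' → Option Γ' → Option NB.St × Option Γ'
  | TM2.Stmt.push _ _ q, v, _ => (some q, v)
  | TM2.Stmt.pop _ f q, v, a => (some q, f v a)
  | TM2.Stmt.peek _ f q, v, a => (some q, f v a)
  | TM2.Stmt.load f q, v, _ => (some q, f v)
  | TM2.Stmt.branch f q₁ q₂, v, _ => (some (cond (f v) q₁ q₂), v)
  | TM2.Stmt.goto f, v, _ => (some (tr (f v)), v)
  | TM2.Stmt.halt, v, _ => (none, v)

theorem sstep_eq (s : NB.St) (v : Option Γ') (S : K' → List Γ') :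
    NB.sstep (some s, v, S) = some ((snx s v (S (skk s)).head?).1, (snx s v (S (skk s)).head?).2,
      if skd s = 0 then Function.update S (skk s) (ssy s v :: S (skk s))
      else if skd s = 1 then Function.update S (skk s) (S (skk s)).tail else S) := by
  cases s <;> rfl

/-- The symbol of a digit. -/
def digO : ℕ → Option Γ'
  | 1 => some Γ'.consₗ
  | 2 => some Γ'.cons
  | 3 => some Γ'.bit0
  | 4 => some Γ'.bit1
  | _ => none

theorem digO_headD (l : List Γ') : digO ((l.map NB.dig).headD 0) = l.head? := by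
  rcases l with _ | ⟨a, l⟩
  · rfl
  · cases a <;> rfl

theorem headD_lt (l : List Γ') : (l.map NB.dig).headD 0 < 5 := by
  rcases l with _ | ⟨a, l⟩
  · simp
  · simpa using NB.dig_lt a

/-- Entries of the table of a numbered machine. -/
def ent (num : Option NB.St × Option Γ' → ℕ) (t : Option NB.St × Option Γ') : List ℕ :=
  match t.1 with
  | none => [2, 0, 0, 0, 0, 0, 0, 0]
  | some s => [skd s, kn (skk s), NB.dig (ssy s t.2) - 1, num (snx s t.2 (digO 0)) + 1,
      num (snx s t.2 (digO 1)) + 1, num (snx s t.2 (digO 2)) + 1, num (snx s t.2 (digO 3)) + 1,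
      num (snx s t.2 (digO 4)) + 1]

/-- Lookup in a table. -/
def look (tab : List (List ℕ)) (i n : ℕ) : ℕ := (tab.getD n []).getD i 0

/-- The program with input `m` for a table `tab` of length `M` and the initial state `i₀`. -/
def prg (tab : List (List ℕ)) (M i₀ m : ℕ) : Prg where
  B := m + 3 + M
  kd s := if s < m + 3 then (if s = 0 then 0 else if m / 2 ^ (s - 2) = 0 then 2 else 0)
    else look tab 0 (s - (m + 3))
  tk s := if s < m + 3 then 0 else min (look tab 1 (s - (m + 3))) 3
  sy s := if s < m + 3 then (if s = 0 then 2 else 3 + m / 2 ^ (s - 2) % 2)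
    else 1 + min (look tab 2 (s - (m + 3))) 3
  nx s a := min (if s = 0 then m + 2 else if s = 1 then 1 else if s = 2 then m + 3 + i₀
    else if s < m + 3 then s - 1
    else if look tab (3 + a) (s - (m + 3)) = 0 then 1
    else m + 2 + look tab (3 + a) (s - (m + 3))) (m + 2 + M)

theorem prg_WF (tab : List (List ℕ)) {M : ℕ} (hM : 0 < M) (i₀ m : ℕ) : (prg tab M i₀ m).WF := by
  refine ⟨?_, ?_, ?_⟩
  · simp only [prg]
    omega
  · intro s a
    simp only [prg]
    exact lt_of_le_of_lt (min_le_right _ _) (by omega)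
  · intro s
    simp only [prg]
    refine ⟨?_, ?_, ?_⟩
    · split_ifs
      · omega
      · exact lt_of_le_of_lt (min_le_right _ _) (by omega)
    · split_ifs <;> omega
    · have h1 := Nat.mod_lt (m / 2 ^ (s - 2)) (show 0 < 2 by norm_num)
      have h2 := min_le_right (look tab 2 (s - (m + 3))) 3
      split_ifs <;> omega


/-- A configuration of the program represents a configuration of the machine. -/
def Rp (num : Option NB.St × Option Γ' → ℕ) (m : ℕ) (C : NB.SCfg) (c : ℕ × (ℕ → List ℕ)) : Prop :=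
  c.1 = m + 3 + num (C.1, C.2.1) ∧ ∀ k, c.2 (kn k) = (C.2.2 k).map NB.dig

theorem Rp_halt {num : Option NB.St × Option Γ' → ℕ} {tab : List (List ℕ)} {M i₀ m : ℕ}
    {C : NB.SCfg} {c : ℕ × (ℕ → List ℕ)} (h : Rp num m C c)
    (ht : tab.getD (num (C.1, C.2.1)) [] = ent num (C.1, C.2.1)) (hC : C.1 = none) :
    ((prg tab M i₀ m).step c).1 = 1 := by
  have h1 : c.1 - (m + 3) = num (C.1, C.2.1) := by rw [h.1]; omega
  have h2 : ¬ c.1 < m + 3 := by rw [h.1]; omega
  have h3 : c.1 ≠ 0 := by omega
  have h4 : c.1 ≠ 1 := by omega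
  have h5 : c.1 ≠ 2 := by omega
  have h6 : ∀ a, look tab (3 + a) (c.1 - (m + 3)) = 0 := by
    intro a
    rw [look, h1, ht, ent, hC]
    rcases a with _ | _ | _ | _ | _ | a
    iterate 5 rfl
    rw [List.getD_eq_getElem?_getD, List.getElem?_eq_none (by simp; omega)]
    rfl
  show (prg tab M i₀ m).nx c.1 _ = 1
  simp only [prg, h2, h3, h4, h5, if_false, h6, if_true]
  omega

theorem Rp_step {num : Option NB.St × Option Γ' → ℕ} {tab : List (List ℕ)} {M i₀ m : ℕ}
    (hM : ∀ s, num s < M)
    {s : NB.St} {v : Option Γ'} {S : K' → List Γ'} {c : ℕ × (ℕ → List ℕ)}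
    (h : Rp num m (some s, v, S) c) (ht : tab.getD (num (some s, v)) [] = ent num (some s, v)) :
    ∃ C' : NB.SCfg, NB.sstep (some s, v, S) = some C' ∧
      Rp num m C' ((prg tab M i₀ m).step c) := by
  refine ⟨_, sstep_eq s v S, ?_⟩
  have h1 : c.1 - (m + 3) = num (some s, v) := by rw [h.1]; simp
  have h2 : ¬ c.1 < m + 3 := by rw [h.1]; simp
  have h3 : c.1 ≠ 0 := by omega
  have h4 : c.1 ≠ 1 := by omega
  have h5 : c.1 ≠ 2 := by omega
  have hkd : (prg tab M i₀ m).kd c.1 = skd s := by
    simp only [prg, h2, if_false, look, h1, ht]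
    rfl
  have htk : (prg tab M i₀ m).tk c.1 = kn (skk s) := by
    have h7 : look tab 1 (c.1 - (m + 3)) = kn (skk s) := by
      rw [look, h1, ht]
      rfl
    have h8 := kn_lt (skk s)
    simp only [prg, h2, if_false, h7]
    omega
  have hsy : (prg tab M i₀ m).sy c.1 = NB.dig (ssy s v) := by
    have h7 : look tab 2 (c.1 - (m + 3)) = NB.dig (ssy s v) - 1 := by
      rw [look, h1, ht]
      rfl
    have h8 := NB.dig_lt (ssy s v)
    have h9 := NB.dig_pos (ssy s v)
    simp only [prg, h2, if_false, h7]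
    omega
  have hnx : (prg tab M i₀ m).nx c.1 ((c.2 ((prg tab M i₀ m).tk c.1)).headD 0) =
      m + 3 + num (snx s v (S (skk s)).head?) := by
    rw [htk, h.2]
    show (prg tab M i₀ m).nx c.1 (((S (skk s)).map NB.dig).headD 0) = _
    have h7 := headD_lt (S (skk s))
    have h8 := digO_headD (S (skk s))
    have h9 : look tab (3 + ((S (skk s)).map NB.dig).headD 0) (c.1 - (m + 3)) =
        num (snx s v (S (skk s)).head?) + 1 := by
      rw [← h8, look, h1, ht, ent]
      generalize ((S (skk s)).map NB.dig).headD 0 = a at h7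
      interval_cases a <;> rfl
    have h10 := hM (snx s v (S (skk s)).head?)
    simp only [prg, h2, h3, h4, h5, if_false, h9]
    simp only [Nat.add_eq_zero_iff, one_ne_zero, and_false, if_false]
    omega
  constructor
  · exact hnx
  · intro k
    show (if (prg tab M i₀ m).kd c.1 = 0 then _ else _ : ℕ → List ℕ) (kn k) =
      ((if skd s = 0 then _ else _ : K' → List Γ') k).map NB.dig
    rw [hkd, htk, hsy]
    have hup : ∀ (l : List Γ'), Function.update c.2 (kn (skk s)) (l.map NB.dig) (kn k) =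
        (Function.update S (skk s) l k).map NB.dig := by
      intro l
      by_cases hk : k = skk s
      · subst hk
        simp
      · have hk' : kn k ≠ kn (skk s) := fun e => hk (kn_inj e)
        rw [Function.update_of_ne hk', Function.update_of_ne hk]
        exact h.2 k
    by_cases hc0 : skd s = 0
    · rw [if_pos hc0, if_pos hc0, ← hup, h.2]
      rfl
    · rw [if_neg hc0, if_neg hc0]
      by_cases hc1 : skd s = 1
      · rw [if_pos hc1, if_pos hc1, ← hup, h.2, List.map_tail]
      · rw [if_neg hc1, if_neg hc1]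
        exact h.2 k


theorem trNat_succ (x : ℕ) (hx : x ≠ 0) :
    (trNat x).map NB.dig = (3 + x % 2) :: (trNat (x / 2)).map NB.dig := by
  have h1 : x = Nat.bit (decide (x % 2 = 1)) (x / 2) := by
    rcases Nat.mod_two_eq_zero_or_one x with h | h
    · simp only [h, Nat.bit]
      simp
      omega
    · simp only [h, Nat.bit]
      simp
      omega
  have h2 : trNat x = trNum (cond (decide (x % 2 = 1)) Num.bit1 Num.bit0 (Num.ofNat' (x / 2))) := by
    rw [← Num.ofNat'_bit, ← h1, Num.ofNat'_eq]
    rfl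
  have h3 : trNat (x / 2) = trNum (Num.ofNat' (x / 2)) := by
    rw [Num.ofNat'_eq]
    rfl
  have h4 : Num.ofNat' (x / 2) = 0 → x / 2 = 0 := by
    intro h
    rw [Num.ofNat'_eq] at h
    have h5 := Num.to_of_nat (x / 2)
    rw [h] at h5
    exact h5.symm
  rw [h2, h3]
  rcases hy : Num.ofNat' (x / 2) with _ | p
  · have h5 := h4 hy
    have h6 : x % 2 = 1 := by omega
    simp only [h6, decide_true, cond_true]
    rfl
  · rcases Nat.mod_two_eq_zero_or_one x with h | h
    · simp only [h]
      rfl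
    · simp only [h]
      rfl

/-- The configurations of the loading phase. -/
def ldc (i₀ m t : ℕ) : ℕ × (ℕ → List ℕ) :=
  (if t = m + 1 then m + 3 + i₀ else m + 2 - t,
    Function.update (fun _ => []) 0 ((trNat (m / 2 ^ (m + 1 - t))).map NB.dig ++ [2]))

theorem load_step (tab : List (List ℕ)) {M i₀ m t : ℕ} (hi : i₀ < M) (ht : t ≤ m) :
    (prg tab M i₀ m).step (ldc i₀ m t) = ldc i₀ m (t + 1) := by
  have h1 : (ldc i₀ m t).1 = m + 2 - t := by
    simp only [ldc]
    rw [if_neg (by omega)]
  have h2 : m + 2 - t - 2 = m - t := by omega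
  have hlt : m + 2 - t < m + 3 := by omega
  have h0 : m + 2 - t ≠ 0 := by omega
  have h11 : m + 2 - t ≠ 1 := by omega
  have hx : m / 2 ^ (m + 1 - t) = m / 2 ^ (m - t) / 2 := by
    rw [show m + 1 - t = (m - t) + 1 by omega, pow_succ, Nat.div_div_eq_div_mul]
  apply Prod.ext
  · show (prg tab M i₀ m).nx (ldc i₀ m t).1 _ = (ldc i₀ m (t + 1)).1
    simp only [prg, ldc]
    split_ifs <;> omega
  · have htk : (prg tab M i₀ m).tk (ldc i₀ m t).1 = 0 := by
      simp only [prg, h1, hlt, if_true]
    have hkd : (prg tab M i₀ m).kd (ldc i₀ m t).1 = if m / 2 ^ (m - t) = 0 then 2 else 0 := by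
      simp only [prg, h1, hlt, if_true, h0, if_false, h2]
    have hsy : (prg tab M i₀ m).sy (ldc i₀ m t).1 = 3 + m / 2 ^ (m - t) % 2 := by
      simp only [prg, h1, hlt, if_true, h0, if_false, h2]
    show (if (prg tab M i₀ m).kd (ldc i₀ m t).1 = 0 then _ else _ : ℕ → List ℕ) = _
    rw [htk, hkd, hsy]
    have h3 : m + 1 - (t + 1) = m - t := by omega
    by_cases hz : m / 2 ^ (m - t) = 0
    · rw [if_pos hz, if_neg (by norm_num), if_neg (by norm_num)]
      simp only [ldc, hx, hz, h3]
    · rw [if_neg hz, if_pos rfl]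
      simp only [ldc, hx, h3]
      rw [trNat_succ _ hz]
      simp

theorem load_start (tab : List (List ℕ)) (M i₀ m : ℕ) :
    (prg tab M i₀ m).step (0, fun _ => []) = ldc i₀ m 0 := by
  have h1 : m / 2 ^ (m + 1) = 0 := Nat.div_eq_of_lt (Nat.lt_of_lt_of_le (Nat.lt_two_pow_self)
    (Nat.pow_le_pow_right (by norm_num) (by omega)))
  simp only [Prg.step, prg, ldc, Nat.sub_zero, h1]
  refine Prod.ext ?_ ?_
  · simp
  · simp

theorem load_iter (tab : List (List ℕ)) {M i₀ m : ℕ} (hi : i₀ < M) :
    ∀ t, t ≤ m + 1 → (prg tab M i₀ m).step^[t + 1] (0, fun _ => []) = ldc i₀ m t := by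
  intro t
  induction t with
  | zero => intro _; exact load_start tab M i₀ m
  | succ t ih =>
    intro ht
    rw [Function.iterate_succ_apply', ih (by omega), load_step tab hi (by omega)]

theorem load_ne (i₀ m t : ℕ) (ht : t ≤ m + 1) : (ldc i₀ m t).1 ≠ 1 := by
  simp only [ldc]
  split_ifs <;> omega

theorem load_end (num : Option NB.St × Option Γ' → ℕ) (c : ToPartrec.Code) (m : ℕ) :
    Rp num m (NB.sinit c [m]) (ldc (num ((NB.sinit c [m]).1, (NB.sinit c [m]).2.1)) m (m + 1)) := by
  constructor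
  · simp only [ldc, if_true]
  · intro k
    have h1 : m + 1 - (m + 1) = 0 := by omega
    simp only [ldc, h1, pow_zero, Nat.div_one]
    cases k
    · simp [kn, NB.sinit, trList, NB.dig]
    · simp [kn, NB.sinit]
    · simp [kn, NB.sinit]
    · simp [kn, NB.sinit]


section

variable {c : ToPartrec.Code} {num : Option NB.St × Option Γ' → ℕ} {tab : List (List ℕ)} {M m : ℕ}

theorem halts_of_dom (hM : ∀ s, num s < M)
    (ht : ∀ s ∈ NB.stateSet c, tab.getD (num s) [] = ent num s) (h : (c.eval [m]).Dom) :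
    (prg tab M (num ((NB.sinit c [m]).1, (NB.sinit c [m]).2.1)) m).halts := by
  set i₀ := num ((NB.sinit c [m]).1, (NB.sinit c [m]).2.1) with hi₀
  set P := prg tab M i₀ m with hP
  have h1 : (StateTransition.eval NB.sstep (NB.sinit c [m])).Dom := by
    rw [NB.small_eval]
    exact h
  obtain ⟨C, hC⟩ := Part.dom_iff_mem.1 h1
  obtain ⟨h2, h3⟩ := StateTransition.mem_eval.1 hC
  have h4 : ∀ C' : NB.SCfg, StateTransition.Reaches NB.sstep (NB.sinit c [m]) C' →
      (C'.1, C'.2.1) ∈ NB.stateSet c ∧
        ∃ n, Rp num m C' (P.step^[n] (ldc i₀ m (m + 1))) := by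
    intro C' hr
    induction hr with
    | refl => exact ⟨NB.init_mem c none, 0, load_end num c m⟩
    | tail hr1 hr2 ih =>
      rename_i C₁ C₂
      obtain ⟨hQ, n, hn⟩ := ih
      have hs := NB.step_closed c C₁ C₂ hQ hr2
      refine ⟨hs, n + 1, ?_⟩
      obtain ⟨s, v, S⟩ := C₁
      rcases s with _ | s
      · exact absurd hr2 (by simp [NB.sstep])
      · obtain ⟨C', h5, h6⟩ := Rp_step (i₀ := i₀) hM hn (ht _ hQ)
        have h7 : C' = C₂ := by
          have := hr2
          rw [Option.mem_def, h5] at this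
          exact Option.some.inj this
        rw [Function.iterate_succ_apply', ← h7]
        exact h6
  obtain ⟨hQ, n, hn⟩ := h4 C h2
  have h5 : C.1 = none := by
    obtain ⟨s, v, S⟩ := C
    rcases s with _ | s
    · rfl
    · rw [sstep_eq] at h3
      exact absurd h3 (by simp)
  refine ⟨n + 1 + (m + 2), ?_⟩
  rw [Function.iterate_add_apply, load_iter tab (hM _) (m + 1) le_rfl,
    Function.iterate_succ_apply']
  exact Rp_halt hn (ht _ hQ) h5

theorem dom_of_halts (hM : ∀ s, num s < M)
    (ht : ∀ s ∈ NB.stateSet c, tab.getD (num s) [] = ent num s)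
    (h : (prg tab M (num ((NB.sinit c [m]).1, (NB.sinit c [m]).2.1)) m).halts) :
    (c.eval [m]).Dom := by
  set i₀ := num ((NB.sinit c [m]).1, (NB.sinit c [m]).2.1) with hi₀
  set P := prg tab M i₀ m with hP
  by_contra hd
  have h1 : ¬ (StateTransition.eval NB.sstep (NB.sinit c [m])).Dom := by
    rw [NB.small_eval]
    exact hd
  have h4 : ∀ n : ℕ, ∃ C : NB.SCfg, StateTransition.Reaches NB.sstep (NB.sinit c [m]) C ∧
      (C.1, C.2.1) ∈ NB.stateSet c ∧ Rp num m C (P.step^[n] (ldc i₀ m (m + 1))) := by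
    intro n
    induction n with
    | zero => exact ⟨NB.sinit c [m], Relation.ReflTransGen.refl, NB.init_mem c none,
        load_end num c m⟩
    | succ n ih =>
      obtain ⟨C, hr, hQ, hn⟩ := ih
      obtain ⟨s, v, S⟩ := C
      rcases s with _ | s
      · exact absurd (Part.dom_iff_mem.2 ⟨_, StateTransition.mem_eval.2 ⟨hr, rfl⟩⟩) h1
      · obtain ⟨C', h5, h6⟩ := Rp_step (i₀ := i₀) hM hn (ht _ hQ)
        refine ⟨C', Relation.ReflTransGen.tail hr h5, NB.step_closed c _ C' hQ h5, ?_⟩
        rw [Function.iterate_succ_apply']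
        exact h6
  obtain ⟨n, hn⟩ := h
  rcases Nat.lt_or_ge n (m + 2) with h5 | h5
  · rcases n with _ | n
    · exact absurd hn (by simp)
    · rw [load_iter tab (hM _) n (by omega)] at hn
      exact load_ne _ _ _ (by omega) hn
  · obtain ⟨e, rfl⟩ := Nat.exists_eq_add_of_le h5
    obtain ⟨C, -, -, hR⟩ := h4 e
    rw [add_comm, Function.iterate_add_apply, load_iter tab (hM _) (m + 1) le_rfl, hR.1] at hn
    omega

end

theorem exists_code_re : ∃ c : ToPartrec.Code,
    ¬ REPred fun n : ℕ => ¬ (c.eval [n]).Dom := by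
  let f : ℕ →. ℕ := fun n =>
    Nat.Partrec.Code.eval (Denumerable.ofNat Nat.Partrec.Code n) 0
  have hf : Partrec f :=
    Nat.Partrec.Code.eval_part.comp (Computable.ofNat Nat.Partrec.Code) (Computable.const 0)
  have hf' := Nat.Partrec'.part_iff₁.2 hf
  obtain ⟨c₁, hc₁⟩ := Turing.ToPartrec.Code.exists_code hf'
  have h1 : ∀ n : ℕ, c₁.eval [n] = pure <$> f n := fun n => hc₁ ⟨[n], rfl⟩
  refine ⟨c₁, fun h => ComputablePred.halting_problem_not_re 0 ?_⟩
  have h2 : REPred fun c : Nat.Partrec.Code => ¬ (c₁.eval [Encodable.encode c]).Dom :=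
    Partrec.comp h Computable.encode
  refine h2.of_eq fun c => ?_
  rw [h1]
  show (¬ (f (Encodable.encode c)).Dom) ↔ _
  simp only [f, Denumerable.ofNat_encode]

theorem primrec_pow : Primrec₂ ((· ^ ·) : ℕ → ℕ → ℕ) :=
  Primrec₂.unpaired'.1 Nat.Primrec.pow

theorem primrec_look (tab : List (List ℕ)) {α : Type} [Primcodable α] {i n : α → ℕ}
    (hi : Primrec i) (hn : Primrec n) : Primrec fun x => look tab (i x) (n x) :=
  (Primrec.list_getD 0).comp ((Primrec.list_getD []).comp (Primrec.const tab) hn) hi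

theorem prg_PrP (tab : List (List ℕ)) (M i₀ : ℕ) : PrP (prg tab M i₀) := by
  have hlt : ∀ {α : Type} [Primcodable α] {f g : α → ℕ}, Primrec f → Primrec g →
      PrimrecPred fun x => f x < g x := fun hf hg => Primrec.nat_lt.comp hf hg
  have heq : ∀ {α : Type} [Primcodable α] {f g : α → ℕ}, Primrec f → Primrec g →
      PrimrecPred fun x => f x = g x := fun hf hg => Primrec.eq.comp hf hg
  have hm : Primrec fun x : ℕ × ℕ => x.1 := Primrec.fst
  have hs : Primrec fun x : ℕ × ℕ => x.2 := Primrec.snd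
  have hm3 : Primrec fun x : ℕ × ℕ => x.1 + 3 := Primrec.nat_add.comp hm (Primrec.const 3)
  have hd : Primrec fun x : ℕ × ℕ => x.1 / 2 ^ (x.2 - 2) :=
    Primrec.nat_div.comp hm (primrec_pow.comp (Primrec.const 2)
      (Primrec.nat_sub.comp hs (Primrec.const 2)))
  have hsm : Primrec fun x : ℕ × ℕ => x.2 - (x.1 + 3) := Primrec.nat_sub.comp hs hm3
  have hm' : Primrec fun x : ℕ × ℕ × ℕ => x.1 := Primrec.fst
  have hs' : Primrec fun x : ℕ × ℕ × ℕ => x.2.1 := Primrec.fst.comp Primrec.snd
  have ha' : Primrec fun x : ℕ × ℕ × ℕ => x.2.2 := Primrec.snd.comp Primrec.snd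
  have hm3' : Primrec fun x : ℕ × ℕ × ℕ => x.1 + 3 := Primrec.nat_add.comp hm' (Primrec.const 3)
  have hm2' : Primrec fun x : ℕ × ℕ × ℕ => x.1 + 2 := Primrec.nat_add.comp hm' (Primrec.const 2)
  have hl : Primrec fun x : ℕ × ℕ × ℕ => look tab (3 + x.2.2) (x.2.1 - (x.1 + 3)) :=
    primrec_look tab (Primrec.nat_add.comp (Primrec.const 3) ha')
      (Primrec.nat_sub.comp hs' hm3')
  refine ⟨?_, ?_, ?_, ?_, ?_⟩
  · exact Primrec.nat_add.comp (Primrec.nat_add.comp Primrec.id (Primrec.const 3))
      (Primrec.const M)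
  · exact Primrec.ite (hlt hs hm3)
      (Primrec.ite (heq hs (Primrec.const 0)) (Primrec.const 0)
        (Primrec.ite (heq hd (Primrec.const 0)) (Primrec.const 2) (Primrec.const 0)))
      (primrec_look tab (Primrec.const 0) hsm)
  · exact Primrec.ite (hlt hs hm3) (Primrec.const 0)
      (Primrec.nat_min.comp (primrec_look tab (Primrec.const 1) hsm) (Primrec.const 3))
  · exact Primrec.ite (hlt hs hm3)
      (Primrec.ite (heq hs (Primrec.const 0)) (Primrec.const 2)
        (Primrec.nat_add.comp (Primrec.const 3) (Primrec.nat_mod.comp hd (Primrec.const 2))))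
      (Primrec.nat_add.comp (Primrec.const 1)
        (Primrec.nat_min.comp (primrec_look tab (Primrec.const 2) hsm) (Primrec.const 3)))
  · refine Primrec.nat_min.comp ?_ (Primrec.nat_add.comp hm2' (Primrec.const M))
    refine Primrec.ite (heq hs' (Primrec.const 0)) hm2' ?_
    refine Primrec.ite (heq hs' (Primrec.const 1)) (Primrec.const 1) ?_
    refine Primrec.ite (heq hs' (Primrec.const 2))
      (Primrec.nat_add.comp hm3' (Primrec.const i₀)) ?_
    refine Primrec.ite (hlt hs' hm3') (Primrec.nat_sub.comp hs' (Primrec.const 1)) ?_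
    exact Primrec.ite (heq hl (Primrec.const 0)) (Primrec.const 1) (Primrec.nat_add.comp hm2' hl)

theorem exists_prg : ∃ PG : ℕ → Prg, PrP PG ∧ (∀ m, (PG m).WF) ∧
    ¬ REPred fun m => ¬ (PG m).halts := by
  classical
  obtain ⟨c, hc⟩ := exists_code_re
  let Qf : Finset (Option NB.St × Option Γ') := (NB.stateSet_finite c).toFinset
  have hQf : ∀ s, s ∈ Qf ↔ s ∈ NB.stateSet c := fun s => by simp [Qf]
  obtain ⟨num, hinj, hlt, hzero⟩ :=
    NB.exists_num Qf (none, none) ((hQf _).2 (NB.halt_mem c none))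
  let σ : ℕ → Option NB.St × Option Γ' := fun n =>
    if h : ∃ s ∈ Qf, num s = n then h.choose else (none, none)
  have hσ : ∀ s ∈ Qf, σ (num s) = s := by
    intro s hs
    have h : ∃ t ∈ Qf, num t = num s := ⟨s, hs, rfl⟩
    have h1 : σ (num s) = h.choose := dif_pos h
    rw [h1]
    exact hinj h.choose_spec.1 hs h.choose_spec.2
  let tab : List (List ℕ) := (List.range Qf.card).map fun n => ent num (σ n)
  have htab : ∀ s ∈ NB.stateSet c, tab.getD (num s) [] = ent num s := by
    intro s hs
    have h1 := hlt s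
    have h2 := hσ s ((hQf s).2 hs)
    simp only [tab]
    rw [List.getD_eq_getElem?_getD, List.getElem?_map, List.getElem?_range h1]
    simp only [Option.map_some, Option.getD_some]
    rw [h2]
  let i₀ := num ((NB.sinit c []).1, (NB.sinit c []).2.1)
  refine ⟨prg tab Qf.card i₀, prg_PrP tab Qf.card i₀, fun m => prg_WF tab ?_ i₀ m, fun h => hc ?_⟩
  · exact Nat.lt_of_le_of_lt (Nat.zero_le _) (hlt (none, none))
  · refine h.of_eq fun m => not_congr ⟨?_, ?_⟩
    · intro hh
      exact dom_of_halts hlt htab hh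
    · intro hd
      exact halts_of_dom hlt htab hd

end Pool.Agent.NGP
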