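import Pool.Agent.NGP.U3
import Pool.Agent.NGP.U4
import Pool.Agent.NGP.U5
import Pool.Agent.NGP.U6
import Pool.Agent.NGP.U7
import Pool.Agent.NGP.U8

/-!
# NGP, part U: the family of tile systems (lead: helper63)

See `UDefs.lean` for the plan.
-/

namespace Pool.Agent.NGP

theorem u_main : ∃ (gU : ℕ → ℕ) (qU : ℕ → ℕ → ℕ → ℕ → ℕ → Bool) (H : ℕ → Prop),
    Primrec gU ∧
    Primrec (fun x : ℕ × ℕ × ℕ × ℕ × ℕ => qU x.1 x.2.1 x.2.2.1 x.2.2.2.1 x.2.2.2.2) ∧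
    (¬ REPred fun m => ¬ H m) ∧
    (∀ m, H m → Cyc (gU m) (qU m)) ∧ ∀ m, ¬ H m → Acyc (gU m) (qU m) := by
  obtain ⟨PG, hPG, hWF, hre⟩ := exists_prg
  refine ⟨fun m => 2 * (3125 * (PG m).B), fun m => mir (mW (PG m)), fun m => (PG m).halts,
    ?_, primrec_mir hPG, hre, ?_, ?_⟩
  · exact Primrec.nat_mul.comp (Primrec.const 2)
      (Primrec.nat_mul.comp (Primrec.const 3125) hPG.1)
  · intro m hm
    exact mir_cyc _ (arr_of_halts (hWF m) hm)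
  · intro m hm
    exact mir_acyc _ fun N ρ hρ => hm (halts_of_arr (hWF m) hρ)

end Pool.Agent.NGP
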