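import Pool.Agent.H93NG.Final
import Pool.Agent.NGP.CMain
import Pool.Agent.NGP.BMain
import Pool.Agent.NGP.RMain
import Pool.Agent.NGP.UMain
import Pool.Agent.NGP.KMain
import Pool.Agent.NGP.EMain

/-!
# The cone of context-free non-generators is not principal
-/

namespace Pool.Agent.NGP

open Pool.Agent.H93NG

theorem not_principal : ¬ ∃ (A : Type) (_ : Finite A) (L : Language A),
    L.IsContextFree ∧ NonGen L ∧
      ∀ (B : Type) (_ : Finite B) (M : Language B), M.IsContextFree → NonGen M → Dom L M := by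
  rintro ⟨A, hA, L, hL, hN, hP⟩
  obtain ⟨PG, hPG, hto, hfrom⟩ := b_main L hL
  obtain ⟨gU, qU, H, hg, hq, hH, hcyc, hac⟩ := u_main
  apply hH
  refine (r_main hPG hg hq).of_eq fun m => ?_
  constructor
  · rintro ⟨E, n, tb, c, k, b, F, ts, ws, hK, hD⟩ hm
    have h1 := e_main hK hD (hcyc m hm)
    exact (nonGen_iff L).1 hN (Dom.trans (hfrom E _) h1)
  · intro hm
    have h1 := hac m hm
    have h2 := hP _ inferInstance (LQt (gU m) (qU m)) (lq_cf _ _) (lq_nongen h1)
    obtain ⟨E, hE⟩ := hto _ _ h2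
    have h3 : ∀ w, (PG E).L w ↔ LQ (gU m) (qU m) w := by
      intro w
      rw [hE w]
      constructor
      · rintro ⟨v, hv, rfl⟩
        exact hv
      · intro hw
        have hlt : ∀ a ∈ w, a < 10 + 8 * (gU m + 1) := by
          obtain ⟨⟨i₁, j₁, mm, i₂, j₂, rfl, hM⟩, -⟩ := hw
          intro a ha
          simp only [List.mem_append, P1, P2, List.mem_cons, List.mem_replicate] at ha
          have := hM.2.1 a
          rcases ha with (((rfl | ⟨_, rfl⟩) | (rfl | ⟨_, rfl⟩)) | ha) | ((rfl | ⟨_, rfl⟩) |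
            (rfl | ⟨_, rfl⟩)) <;> try omega
          rcases this ha with h | h <;> omega
        have hmap : (List.pmap (fun a ha => (⟨a, ha⟩ : Fin (10 + 8 * (gU m + 1)))) w hlt).map
            Fin.val = w := by
          simp [List.map_pmap]
        refine ⟨List.pmap (fun a ha => (⟨a, ha⟩ : Fin (10 + 8 * (gU m + 1)))) w hlt, ?_,
          hmap.symm⟩
        show LQ (gU m) (qU m) (List.map Fin.val _)
        rw [hmap]
        exact hw
    obtain ⟨n₁, hn₁⟩ := k_exists (fun w hw => (h3 w).1 hw)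
    obtain ⟨M₀, hM₀⟩ := d_exists h3
    obtain ⟨tb, htb⟩ := hn₁ (max n₁ M₀) (le_max_left _ _)
    obtain ⟨c, k, b, F, ts, ws, hD⟩ := hM₀ (max n₁ M₀) (le_max_right _ _)
    exact ⟨E, max n₁ M₀, tb, c, k, b, F, ts, ws, htb, hD⟩

end Pool.Agent.NGP
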