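import Pool.Agent.NGP.Defs
import Pool.Agent.NGP.R1

/-!
# NGP/R2: primitive recursive functions on letters and words
-/

set_option linter.unusedSectionVars false

namespace Pool.Agent.NGP

variable {α : Type} [Primcodable α]

theorem pr_sub {f g : α → ℕ} (hf : Primrec f) (hg : Primrec g) : Primrec fun a => f a - g a :=
  Primrec.nat_sub.comp hf hg

theorem pr_div {f g : α → ℕ} (hf : Primrec f) (hg : Primrec g) : Primrec fun a => f a / g a :=
  Primrec.nat_div.comp hf hg

theorem pr_mod {f g : α → ℕ} (hf : Primrec f) (hg : Primrec g) : Primrec fun a => f a % g a :=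
  Primrec.nat_mod.comp hf hg

theorem pr_c {β : Type} [Primcodable β] (b : β) : Primrec fun _ : α => b := Primrec.const b

theorem pr_lv : Primrec lv := by
  have h2 : Primrec fun a : ℕ => a - 2 := pr_sub Primrec.id (pr_c 2)
  have h10 : Primrec fun a : ℕ => a - 10 := pr_sub Primrec.id (pr_c 10)
  unfold lv
  refine Primrec.ite (pp_lt Primrec.id (pr_c 2)) (pr_c none)
    (Primrec.ite (pp_lt Primrec.id (pr_c 10)) ?_ ?_)
  · exact Primrec.option_some.comp ((pr_div h2 (pr_c 4)).pair
      (pp_lt (pr_mod h2 (pr_c 4)) (pr_c 2)).decide)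
  · exact Primrec.option_some.comp ((pr_add (pr_c 2) (pr_div (pr_mod h10 (pr_c 8)) (pr_c 2))).pair
      (pp_eq (pr_mod h10 (pr_c 2)) (pr_c 0)).decide)

theorem pr_lh : Primrec lh := by
  have h10 : Primrec fun a : ℕ => a - 10 := pr_sub Primrec.id (pr_c 10)
  unfold lh
  refine Primrec.ite (pp_eq Primrec.id (pr_c 0)) (pr_c (some 0))
    (Primrec.ite (pp_lt Primrec.id (pr_c 10))
      (Primrec.ite (pp_eq (pr_mod Primrec.id (pr_c 2)) (pr_c 0)) (pr_c (some 1)) (pr_c none))
      (Primrec.ite (pp_eq (pr_div h10 (pr_c 8)) (pr_c 0)) (pr_c none) ?_))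
  exact Primrec.option_some.comp (pr_add (pr_div h10 (pr_c 8)) (pr_c 1))

theorem pr_rpush : Primrec₂ rpush := by
  have h : Primrec fun x : (ℕ × Bool) × List (ℕ × Bool) =>
      (List.casesOn x.2 [x.1] fun y s =>
        if x.1.1 = y.1 ∧ x.1.2 ≠ y.2 then s else x.1 :: y :: s : List (ℕ × Bool)) := by
    refine Primrec.list_casesOn (f := fun x : (ℕ × Bool) × List (ℕ × Bool) => x.2)
      (g := fun x => [x.1]) (h := fun x z => if x.1.1 = z.1.1 ∧ x.1.2 ≠ z.1.2 then z.2
        else x.1 :: z.1 :: z.2) Primrec.snd (pr_cons Primrec.fst (pr_c [])) ?_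
    have hx : Primrec fun p : ((ℕ × Bool) × List (ℕ × Bool)) × (ℕ × Bool) × List (ℕ × Bool) =>
      p.1.1 := Primrec.fst.comp Primrec.fst
    have hy : Primrec fun p : ((ℕ × Bool) × List (ℕ × Bool)) × (ℕ × Bool) × List (ℕ × Bool) =>
      p.2.1 := Primrec.fst.comp Primrec.snd
    have hs : Primrec fun p : ((ℕ × Bool) × List (ℕ × Bool)) × (ℕ × Bool) × List (ℕ × Bool) =>
      p.2.2 := Primrec.snd.comp Primrec.snd
    exact Primrec.ite (pp_and (pp_eq (Primrec.fst.comp hx) (Primrec.fst.comp hy))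
      (pp_not (pp_eq (Primrec.snd.comp hx) (Primrec.snd.comp hy)))) hs
      (pr_cons hx (pr_cons hy hs))
  refine h.of_eq ?_
  rintro ⟨x, s⟩
  cases s <;> rfl

theorem pr_rv : Primrec rv := by
  have h : Primrec fun w : List ℕ => w.foldr (fun b s =>
      (Option.casesOn (lv b) s fun x => rpush x s : List (ℕ × Bool))) [] := by
    refine Primrec.list_foldr (f := fun w : List ℕ => w) (g := fun _ => [])
      (h := fun _ z => (Option.casesOn (lv z.1) z.2 fun x => rpush x z.2 : List (ℕ × Bool)))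
      Primrec.id (pr_c []) ?_
    refine Primrec.option_casesOn (o := fun p : List ℕ × ℕ × List (ℕ × Bool) => lv p.2.1)
      (f := fun p => p.2.2) (g := fun p x => rpush x p.2.2)
      (pr_lv.comp (Primrec.fst.comp Primrec.snd)) (Primrec.snd.comp Primrec.snd) ?_
    exact pr_rpush.comp Primrec.snd (Primrec.snd.comp (Primrec.snd.comp Primrec.fst))
  refine h.of_eq fun w => ?_
  induction w with
  | nil => rfl
  | cons a w ih =>
    have h1 : rv (a :: w) = match lv a with
      | none => rv w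
      | some x => rpush x (rv w) := rfl
    rw [List.foldr_cons, ih, h1]
    cases lv a <;> rfl

theorem pr_nm : Primrec nm := pr_len pr_rv

theorem pr_rmul : Primrec₂ rmul := by
  have h : Primrec fun x : List (ℕ × Bool) × List (ℕ × Bool) =>
      x.1.foldr (fun b s => rpush b s) x.2 := by
    refine Primrec.list_foldr (f := fun x : List (ℕ × Bool) × List (ℕ × Bool) => x.1)
      (g := fun x => x.2) (h := fun _ z => rpush z.1 z.2) Primrec.fst Primrec.snd ?_
    exact pr_rpush.comp (Primrec.fst.comp Primrec.snd) (Primrec.snd.comp Primrec.snd)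
  refine h.of_eq ?_
  rintro ⟨u, v⟩
  simp only
  induction u with
  | nil => rfl
  | cons a w ih =>
    rw [List.foldr_cons, ih]
    rfl

theorem pr_dst {n s a : α → ℕ} (hn : Primrec n) (hs : Primrec s) (ha : Primrec a) :
    Primrec fun x => dst (n x) (s x) (a x) := by
  have hs1 : Primrec fun x => (s x - 1) / 2 := pr_div (pr_sub hs (pr_c 1)) (pr_c 2)
  have hs2 : Primrec fun x => (s x - 1) % 2 := pr_mod (pr_sub hs (pr_c 1)) (pr_c 2)
  have h : Primrec fun x => (Option.casesOn (lh (a x))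
      (if s x = 0 ∨ (s x - 1) / 2 = n x then none else some (s x + 2)) fun l =>
      if s x ≠ 0 ∧ (s x - 1) / 2 ≠ n x then none
      else if s x ≠ 0 ∧ (s x - 1) % 2 = 1 ∧ l = 0 then none
      else some (if l = 0 then 2 else 1) : Option ℕ) := by
    refine Primrec.option_casesOn (o := fun x => lh (a x))
      (f := fun x => (if s x = 0 ∨ (s x - 1) / 2 = n x then none else some (s x + 2) : Option ℕ))
      (g := fun x l => (if s x ≠ 0 ∧ (s x - 1) / 2 ≠ n x then none
        else if s x ≠ 0 ∧ (s x - 1) % 2 = 1 ∧ l = 0 then none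
        else some (if l = 0 then 2 else 1) : Option ℕ)) (pr_lh.comp ha) ?_ ?_
    · exact Primrec.ite (pp_or (pp_eq hs (pr_c 0)) (pp_eq hs1 hn)) (pr_c none)
        (Primrec.option_some.comp (pr_add hs (pr_c 2)))
    · have hs' := pp_not (pp_eq (hs.comp (Primrec.fst (β := ℕ))) (pr_c 0))
      refine Primrec.ite (pp_and hs' (pp_not (pp_eq (hs1.comp Primrec.fst) (hn.comp Primrec.fst))))
        (pr_c none) (Primrec.ite (pp_and hs' (pp_and (pp_eq (hs2.comp Primrec.fst) (pr_c 1))
          (pp_eq Primrec.snd (pr_c 0)))) (pr_c none) ?_)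
      exact Primrec.option_some.comp (Primrec.ite (pp_eq Primrec.snd (pr_c 0)) (pr_c 2) (pr_c 1))
  refine h.of_eq fun x => ?_
  unfold dst
  cases lh (a x) <;> rfl

theorem pr_row {δ : α → ℕ} {u : α → List ℕ} (hδ : Primrec δ) (hu : Primrec u) :
    Primrec fun x => row (δ x) (u x) :=
  Primrec.list_map hu (pr_add (pr_add (pr_c 10) (pr_mul (pr_c 8) Primrec.snd))
    (hδ.comp Primrec.fst)).to₂

theorem pr_hc {n : α → ℕ} (hn : Primrec n) : Primrec fun x => hc (n x) :=
  pr_cons (pr_c 0) (pr_replicate hn (pr_c 1))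

theorem pr_P1 {i j : α → ℕ} (hi : Primrec i) (hj : Primrec j) : Primrec fun x => P1 (i x) (j x) :=
  pr_app (pr_cons (pr_c 2) (pr_replicate hi (pr_c 3)))
    (pr_cons (pr_c 4) (pr_replicate hj (pr_c 5)))

theorem pr_P2 {i j : α → ℕ} (hi : Primrec i) (hj : Primrec j) : Primrec fun x => P2 (i x) (j x) :=
  pr_app (pr_cons (pr_c 6) (pr_replicate hi (pr_c 7)))
    (pr_cons (pr_c 8) (pr_replicate hj (pr_c 9)))

theorem pr_ncl {N A c : α → ℕ} (hN : Primrec N) (hA : Primrec A) (hc : Primrec c) :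
    Primrec fun x => ncl (N x) (A x) (c x) :=
  pr_pow (pr_c 2) (pr_mul hN (pr_pow (pr_pow (pr_add hA (pr_c 1)) hc) (pr_c 2)))

theorem pr_bd {N A c k n : α → ℕ} (hN : Primrec N) (hA : Primrec A) (hc : Primrec c)
    (hk : Primrec k) (hn : Primrec n) : Primrec fun x => bd (N x) (A x) (c x) (k x) (n x) :=
  pr_mul (pr_mul (pr_c 8) (pr_add (pr_add (pr_add hk (pr_ncl hN hA hc)) hn) (pr_c 2)))
    (pr_pow (pr_c 2) (pr_add (pr_ncl hN hA hc) (pr_c 3)))

end Pool.Agent.NGP
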