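import Pool.Agent.NGP.R2

/-!
# NGP/R3: informations are primitive recursive
-/

set_option linter.unusedSectionVars false

namespace Pool.Agent.NGP

variable {α β σ : Type} [Primcodable α] [Primcodable β] [Primcodable σ]

/-! ### Codings of `Inf` and `Adv` -/

/-- `Inf` as a sum. -/
def eInf : Inf ≃ List ℕ ⊕ List (List ℕ × List ℕ) where
  toFun x := match x with
    | .S w => .inl w
    | .B L => .inr L
  invFun x := match x with
    | .inl w => .S w
    | .inr L => .B L
  left_inv x := by cases x <;> rfl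
  right_inv x := by cases x <;> rfl

instance instPrimcodableInf : Primcodable Inf := Primcodable.ofEquiv _ eInf

/-- `Adv` as an option type. -/
def eAdv : Adv ≃ Option (Option (List ℕ × List ℕ)) where
  toFun x := match x with
    | .viol => none
    | .dead => some none
    | .alive x y => some (some (x, y))
  invFun x := match x with
    | none => .viol
    | some none => .dead
    | some (some p) => .alive p.1 p.2
  left_inv x := by cases x <;> rfl
  right_inv x := by rcases x with - | - | ⟨x, y⟩ <;> rfl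

instance instPrimcodableAdv : Primcodable Adv := Primcodable.ofEquiv _ eAdv

theorem pr_eInf : Primrec eInf := Primrec.of_equiv
theorem pr_eInf_symm : Primrec eInf.symm := Primrec.of_equiv_symm
theorem pr_eAdv : Primrec eAdv := Primrec.of_equiv
theorem pr_eAdv_symm : Primrec eAdv.symm := Primrec.of_equiv_symm

theorem pr_S {f : α → List ℕ} (hf : Primrec f) : Primrec fun a => Inf.S (f a) :=
  pr_eInf_symm.comp (Primrec.sumInl.comp hf)

theorem pr_B {f : α → List (List ℕ × List ℕ)} (hf : Primrec f) : Primrec fun a => Inf.B (f a) :=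
  pr_eInf_symm.comp (Primrec.sumInr.comp hf)

theorem pr_alive {f g : α → List ℕ} (hf : Primrec f) (hg : Primrec g) :
    Primrec fun a => Adv.alive (f a) (g a) :=
  pr_eAdv_symm.comp (Primrec.option_some.comp (Primrec.option_some.comp (hf.pair hg)))

theorem pr_inf_cases {f : α → Inf} {g : α → List ℕ → σ} {h : α → List (List ℕ × List ℕ) → σ}
    (hf : Primrec f) (hg : Primrec fun x : α × List ℕ => g x.1 x.2)
    (hh : Primrec fun x : α × List (List ℕ × List ℕ) => h x.1 x.2) :
    Primrec fun a => (Inf.casesOn (f a) (g a) (h a) : σ) := by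
  refine (Primrec.sumCasesOn (pr_eInf.comp hf) hg.to₂ hh.to₂).of_eq fun a => ?_
  cases f a <;> rfl

theorem pr_adv_cases {f : α → Adv} {g₁ g₂ : α → σ} {h : α → List ℕ → List ℕ → σ}
    (hf : Primrec f) (hg₁ : Primrec g₁) (hg₂ : Primrec g₂)
    (hh : Primrec fun x : α × List ℕ × List ℕ => h x.1 x.2.1 x.2.2) :
    Primrec fun a => (Adv.casesOn (f a) (g₁ a) (g₂ a) (h a) : σ) := by
  have h1 : Primrec fun x : α × Option (List ℕ × List ℕ) =>
      (Option.casesOn x.2 (g₂ x.1) fun p => h x.1 p.1 p.2 : σ) := by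
    refine Primrec.option_casesOn (o := fun x : α × Option (List ℕ × List ℕ) => x.2)
      (f := fun x => g₂ x.1) (g := fun x p => h x.1 p.1 p.2) Primrec.snd
      (hg₂.comp Primrec.fst) ?_
    exact (hh.comp ((Primrec.fst.comp Primrec.fst).pair Primrec.snd)).to₂
  refine (Primrec.option_casesOn (pr_eAdv.comp hf) hg₁ h1.to₂).of_eq fun a => ?_
  cases f a <;> rfl

/-! ### Scanning -/

/-- A primitive recursive family of tile systems. -/
def PrQ (Q : α → ℕ → ℕ → ℕ → ℕ → Bool) : Prop :=
  Primrec fun x : α × ℕ × ℕ × ℕ × ℕ => Q x.1 x.2.1 x.2.2.1 x.2.2.2.1 x.2.2.2.2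

theorem PrQ.comp {Q : β → ℕ → ℕ → ℕ → ℕ → Bool} (h : PrQ Q) {f : α → β} (hf : Primrec f) :
    PrQ fun a => Q (f a) :=
  (Primrec.comp h ((hf.comp Primrec.fst).pair Primrec.snd) :)

theorem PrQ.ap {Q : α → ℕ → ℕ → ℕ → ℕ → Bool} (h : PrQ Q) {a b c d : α → ℕ}
    (ha : Primrec a) (hb : Primrec b) (hc : Primrec c) (hd : Primrec d) :
    Primrec fun x => Q x (a x) (b x) (c x) (d x) :=
  (Primrec.comp h (Primrec.id.pair (ha.pair (hb.pair (hc.pair hd)))) :)

/-- One step of `adv`. -/
def advS (q : ℕ → ℕ → ℕ → ℕ → Bool) (s : Adv) : Adv :=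
  Adv.casesOn s .viol .dead fun x y =>
    if 2 ≤ x.length ∧ 2 ≤ y.length then
      (if x.getD 1 0 = 1 ∨ y.getD 1 0 = 1 then .dead
       else if q (x.getD 0 0) (x.getD 1 0) (y.getD 0 0) (y.getD 1 0) = true then
         (if x.getD 1 0 = 0 ∨ y.getD 1 0 = 0 then .dead else .alive x.tail y.tail)
       else .viol)
    else .alive x y

theorem advS_viol (q : ℕ → ℕ → ℕ → ℕ → Bool) (n : ℕ) : (advS q)^[n] .viol = .viol :=
  Function.iterate_fixed rfl n

theorem advS_dead (q : ℕ → ℕ → ℕ → ℕ → Bool) (n : ℕ) : (advS q)^[n] .dead = .dead :=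
  Function.iterate_fixed rfl n

theorem advS_iterate (q : ℕ → ℕ → ℕ → ℕ → Bool) (n : ℕ) (x y : List ℕ) (hn : x.length ≤ n) :
    (advS q)^[n] (.alive x y) = adv q x y := by
  induction n generalizing x y with
  | zero =>
    have : x = [] := List.length_eq_zero_iff.1 (Nat.le_zero.1 hn)
    subst this
    rfl
  | succ n ih =>
    by_cases h : 2 ≤ x.length ∧ 2 ≤ y.length
    · obtain ⟨hx, hy⟩ := h
      match x, y, hx, hy with
      | a :: b :: x, c :: d :: y, _, _ =>
        rw [Function.iterate_succ_apply]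
        have h1 : advS q (.alive (a :: b :: x) (c :: d :: y)) =
            (if b = 1 ∨ d = 1 then .dead
              else if q a b c d = true then
                (if b = 0 ∨ d = 0 then .dead else .alive (b :: x) (d :: y))
              else .viol) := by
          simp [advS]
        have h2 : adv q (a :: b :: x) (c :: d :: y) =
            (if b = 1 ∨ d = 1 then Adv.dead
              else if q a b c d = true then
                (if b = 0 ∨ d = 0 then Adv.dead else adv q (b :: x) (d :: y))
              else Adv.viol) := by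
          rw [adv]
        rw [h1, h2]
        split_ifs
        · exact advS_dead q n
        · exact advS_dead q n
        · refine ih _ _ ?_
          simp only [List.length_cons] at hn ⊢
          omega
        · exact advS_viol q n
    · have h1 : advS q (.alive x y) = .alive x y := by
        simp only [advS, if_neg h]
      rw [Function.iterate_fixed h1]
      match x, y with
      | [], y => rfl
      | [a], [] => rfl
      | [a], [c] => rfl
      | [a], c :: d :: y => rfl
      | a :: b :: x, [] => rfl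
      | a :: b :: x, [c] => rfl
      | a :: b :: x, c :: d :: y => exact absurd ⟨by simp, by simp⟩ h

theorem pr_advS {Q : α → ℕ → ℕ → ℕ → ℕ → Bool} (hQ : PrQ Q) :
    Primrec₂ fun (a : α) (s : Adv) => advS (Q a) s := by
  have hgd : ∀ (k : ℕ), Primrec fun l : List ℕ => l.getD k 0 := fun k =>
    (Primrec.list_getD 0).comp Primrec.id (pr_c k)
  unfold advS
  refine pr_adv_cases (f := fun x : α × Adv => x.2) (g₁ := fun _ => Adv.viol)
    (g₂ := fun _ => Adv.dead) (h := fun z x y => if 2 ≤ x.length ∧ 2 ≤ y.length then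
      (if x.getD 1 0 = 1 ∨ y.getD 1 0 = 1 then .dead
       else if Q z.1 (x.getD 0 0) (x.getD 1 0) (y.getD 0 0) (y.getD 1 0) = true then
         (if x.getD 1 0 = 0 ∨ y.getD 1 0 = 0 then .dead else .alive x.tail y.tail)
       else .viol)
    else .alive x y) Primrec.snd (pr_c _) (pr_c _) ?_
  have hx : Primrec fun p : (α × Adv) × List ℕ × List ℕ => p.2.1 := Primrec.fst.comp Primrec.snd
  have hy : Primrec fun p : (α × Adv) × List ℕ × List ℕ => p.2.2 := Primrec.snd.comp Primrec.snd
  have hq := (hQ.comp (Primrec.fst.comp (Primrec.fst (α := α × Adv) (β := List ℕ × List ℕ)))).ap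
    ((hgd 0).comp hx) ((hgd 1).comp hx) ((hgd 0).comp hy) ((hgd 1).comp hy)
  refine Primrec.ite (pp_and (pp_le (pr_c 2) (pr_len hx)) (pp_le (pr_c 2) (pr_len hy)))
    (Primrec.ite (pp_or (pp_eq ((hgd 1).comp hx) (pr_c 1)) (pp_eq ((hgd 1).comp hy) (pr_c 1)))
      (pr_c _) (Primrec.ite (pp_true hq)
        (Primrec.ite (pp_or (pp_eq ((hgd 1).comp hx) (pr_c 0)) (pp_eq ((hgd 1).comp hy) (pr_c 0)))
          (pr_c _) (pr_alive (Primrec.list_tail.comp hx) (Primrec.list_tail.comp hy)))
        (pr_c _))) (pr_alive hx hy)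

theorem pr_adv {Q : α → ℕ → ℕ → ℕ → ℕ → Bool} (hQ : PrQ Q) {x y : α → List ℕ} (hx : Primrec x)
    (hy : Primrec y) : Primrec fun a => adv (Q a) (x a) (y a) :=
  (Primrec.nat_iterate (pr_len hx) (pr_alive hx hy) (pr_advS hQ)).of_eq fun a =>
    advS_iterate (Q a) _ _ _ le_rfl

/-! ### Filtering -/

theorem pr_tight {x y : α → List ℕ} (hx : Primrec x) (hy : Primrec y) :
    Primrec fun a => tight (x a) (y a) :=
  (pp_and (pp_le (pr_len hx) (pr_add (pr_len hy) (pr_c 4)))
    (pp_le (pr_len hy) (pr_add (pr_len hx) (pr_c 4)))).decide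

/-- One step of `fil`. -/
def filS (s : Adv) (r : Option (List (List ℕ × List ℕ))) : Option (List (List ℕ × List ℕ)) :=
  Adv.casesOn s none r fun x y => r.map fun L => if tight x y = true then (x, y) :: L else L

theorem fil_eq (A : List Adv) : fil A = A.foldr filS (some []) := by
  induction A with
  | nil => rfl
  | cons s A ih =>
    rw [List.foldr_cons, ← ih]
    cases s <;> rfl

theorem pr_filS : Primrec₂ filS := by
  unfold filS
  refine pr_adv_cases (f := fun x : Adv × Option (List (List ℕ × List ℕ)) => x.1)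
    (g₁ := fun _ => none) (g₂ := fun x => x.2)
    (h := fun z x y => z.2.map fun L => if tight x y = true then (x, y) :: L else L)
    Primrec.fst (pr_c _) Primrec.snd ?_
  refine Primrec.option_map (Primrec.snd.comp Primrec.fst) ?_
  have hx : Primrec fun p : ((Adv × Option (List (List ℕ × List ℕ))) × List ℕ × List ℕ) ×
      List (List ℕ × List ℕ) => p.1.2.1 := Primrec.fst.comp (Primrec.snd.comp Primrec.fst)
  have hy : Primrec fun p : ((Adv × Option (List (List ℕ × List ℕ))) × List ℕ × List ℕ) ×
      List (List ℕ × List ℕ) => p.1.2.2 := Primrec.snd.comp (Primrec.snd.comp Primrec.fst)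
  exact (Primrec.ite (pp_true (pr_tight hx hy)) (pr_cons (hx.pair hy) Primrec.snd)
    Primrec.snd).to₂

theorem pr_fil : Primrec fil := by
  have h : Primrec fun A : List Adv => A.foldr (fun s r => filS s r) (some []) :=
    Primrec.list_foldr (f := fun A : List Adv => A) (g := fun _ => some [])
      (h := fun _ z => filS z.1 z.2) Primrec.id (pr_c _)
      (pr_filS.comp (Primrec.fst.comp Primrec.snd) (Primrec.snd.comp Primrec.snd))
  exact h.of_eq fun A => (fil_eq A).symm

/-! ### Centres -/

/-- One step of `cens`. -/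
def cenS (q : ℕ → ℕ → ℕ → ℕ → Bool) (s : List ℕ × List ℕ × List Adv) (a : ℕ) :
    List ℕ × List ℕ × List Adv :=
  (a :: s.1, s.2.1.tail,
    if a = 0 then s.2.2 ++ [adv q (0 :: s.1) (0 :: s.2.1.tail)] else s.2.2)

theorem cens_foldl (q : ℕ → ℕ → ℕ → ℕ → Bool) (w p : List ℕ) (A : List Adv) :
    (w.foldl (cenS q) (p, w, A)).2.2 = A ++ cens q p w := by
  induction w generalizing p A with
  | nil => simp [cens]
  | cons a w ih =>
    rw [List.foldl_cons]
    have h1 : cenS q (p, a :: w, A) a =
        (a :: p, w, if a = 0 then A ++ [adv q (0 :: p) (0 :: w)] else A) := rfl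
    have h2 : cens q p (a :: w) = if a = 0 then adv q (0 :: p) (0 :: w) :: cens q (a :: p) w
        else cens q (a :: p) w := rfl
    rw [h1, ih, h2]
    split_ifs <;> simp

theorem pr_cens {Q : α → ℕ → ℕ → ℕ → ℕ → Bool} (hQ : PrQ Q) {w : α → List ℕ} (hw : Primrec w) :
    Primrec fun a => cens (Q a) [] (w a) := by
  have h : Primrec fun a => (w a).foldl (fun s b => cenS (Q a) s b) ([], w a, []) := by
    refine Primrec.list_foldl (f := w) (g := fun a => ([], w a, []))
      (h := fun a z => cenS (Q a) z.1 z.2) hw ((pr_c _).pair (hw.pair (pr_c _))) ?_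
    have hp : Primrec fun p : α × (List ℕ × List ℕ × List Adv) × ℕ => p.2.1.1 :=
      Primrec.fst.comp (Primrec.fst.comp Primrec.snd)
    have hr : Primrec fun p : α × (List ℕ × List ℕ × List Adv) × ℕ => p.2.1.2.1.tail :=
      Primrec.list_tail.comp (Primrec.fst.comp (Primrec.snd.comp (Primrec.fst.comp Primrec.snd)))
    have hA : Primrec fun p : α × (List ℕ × List ℕ × List Adv) × ℕ => p.2.1.2.2 :=
      Primrec.snd.comp (Primrec.snd.comp (Primrec.fst.comp Primrec.snd))
    have ha : Primrec fun p : α × (List ℕ × List ℕ × List Adv) × ℕ => p.2.2 :=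
      Primrec.snd.comp Primrec.snd
    refine ((pr_cons ha hp).pair (hr.pair (Primrec.ite (pp_eq ha (pr_c 0)) ?_ hA)) :
      Primrec fun p : α × (List ℕ × List ℕ × List Adv) × ℕ => cenS (Q p.1) p.2.1 p.2.2)
    exact pr_app hA (pr_cons (pr_adv (hQ.comp Primrec.fst) (pr_cons (pr_c 0) hp)
      (pr_cons (pr_c 0) hr)) (pr_c []))
  refine (Primrec.snd.comp (Primrec.snd.comp h)).of_eq fun a => ?_
  exact (cens_foldl (Q a) (w a) [] []).trans (List.nil_append _)

/-! ### Combination -/

theorem pr_comb {Q : α → ℕ → ℕ → ℕ → ℕ → Bool} (hQ : PrQ Q) {f g : α → Inf} (hf : Primrec f)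
    (hg : Primrec g) : Primrec fun a => comb (Q a) (some (f a)) (some (g a)) := by
  have h : Primrec fun a => (Inf.casesOn (f a)
      (fun u => Inf.casesOn (g a)
        (fun v => (fil (cens (Q a) [] (u ++ v))).map fun L =>
          if (u ++ v).length ≤ 8 then Inf.S (u ++ v) else Inf.B L)
        (fun L => (fil (L.map fun p => adv (Q a) (p.1 ++ u.reverse) p.2)).map Inf.B))
      (fun L => Inf.casesOn (g a)
        (fun v => (fil (L.map fun p => adv (Q a) p.1 (p.2 ++ v))).map Inf.B)
        (fun _ => some (Inf.B []))) : Option Inf) := by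
    refine pr_inf_cases (σ := Option Inf) hf ?_ ?_
    · refine pr_inf_cases (σ := Option Inf) (f := fun x : α × List ℕ => g x.1)
        (g := fun x v => (fil (cens (Q x.1) [] (x.2 ++ v))).map fun L =>
          if (x.2 ++ v).length ≤ 8 then Inf.S (x.2 ++ v) else Inf.B L)
        (h := fun x L => (fil (L.map fun p => adv (Q x.1) (p.1 ++ x.2.reverse) p.2)).map Inf.B)
        (hg.comp Primrec.fst) ?_ ?_
      · have huv : Primrec fun p : (α × List ℕ) × List ℕ => p.1.2 ++ p.2 :=
          pr_app (Primrec.snd.comp Primrec.fst) Primrec.snd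
        refine Primrec.option_map (pr_fil.comp
          (pr_cens (hQ.comp (Primrec.fst.comp Primrec.fst)) huv)) ?_
        exact (Primrec.ite (pp_le (pr_len (huv.comp Primrec.fst)) (pr_c 8))
          (pr_S (huv.comp Primrec.fst)) (pr_B Primrec.snd)).to₂
      · refine Primrec.option_map (pr_fil.comp (Primrec.list_map Primrec.snd ?_))
          (pr_B Primrec.snd).to₂
        refine (pr_adv (α := ((α × List ℕ) × List (List ℕ × List ℕ)) × List ℕ × List ℕ)
          (Q := fun z => Q z.1.1.1)
          (hQ.comp (Primrec.fst.comp (Primrec.fst.comp Primrec.fst)))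
          (pr_app (Primrec.fst.comp Primrec.snd) (Primrec.list_reverse.comp
            (Primrec.snd.comp (Primrec.fst.comp Primrec.fst)))) (Primrec.snd.comp Primrec.snd)).to₂
    · refine pr_inf_cases (σ := Option Inf) (f := fun x : α × List (List ℕ × List ℕ) => g x.1)
        (g := fun x v => (fil (x.2.map fun p => adv (Q x.1) p.1 (p.2 ++ v))).map Inf.B)
        (h := fun x L => some (Inf.B [])) (hg.comp Primrec.fst) ?_ (pr_c _)
      refine Primrec.option_map (pr_fil.comp (Primrec.list_map (Primrec.snd.comp Primrec.fst) ?_))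
        (pr_B Primrec.snd).to₂
      refine (pr_adv (α := ((α × List (List ℕ × List ℕ)) × List ℕ) × List ℕ × List ℕ)
        (Q := fun z => Q z.1.1.1)
        (hQ.comp (Primrec.fst.comp (Primrec.fst.comp Primrec.fst)))
        (Primrec.fst.comp Primrec.snd) (pr_app (Primrec.snd.comp Primrec.snd)
          (Primrec.snd.comp Primrec.fst))).to₂
  refine h.of_eq fun a => ?_
  cases f a <;> cases g a <;> rfl

end Pool.Agent.NGP
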