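import Pool.Agent.NGP.R3

/-!
# NGP/R4: `Kcert` is primitive recursive
-/

set_option linter.unusedSectionVars false

namespace Pool.Agent.NGP

variable {α β : Type} [Primcodable α] [Primcodable β]

theorem PrG.comp {G : β → EG} (h : PrG G) {f : α → β} (hf : Primrec f) :
    PrG fun a => G (f a) := by
  obtain ⟨h1, h2, h3, h4, h5, h6⟩ := h
  exact ⟨h1.comp hf, h2.comp hf, h3.comp hf, h4.comp ((hf.comp Primrec.fst).pair Primrec.snd),
    h5.comp ((hf.comp Primrec.fst).pair Primrec.snd),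
    h6.comp ((hf.comp Primrec.fst).pair Primrec.snd)⟩

theorem PrG.pN {G : α → EG} (h : PrG G) : Primrec fun a => (G a).N := h.1
theorem PrG.pA {G : α → EG} (h : PrG G) : Primrec fun a => (G a).A := h.2.1
theorem PrG.pst {G : α → EG} (h : PrG G) : Primrec fun a => (G a).st := h.2.2.1

theorem PrG.pbin {G : α → EG} (h : PrG G) {t u v : α → ℕ} (ht : Primrec t) (hu : Primrec u)
    (hv : Primrec v) : Primrec fun a => (G a).bin (t a) (u a) (v a) :=
  (Primrec.comp h.2.2.2.1 (Primrec.id.pair (ht.pair (hu.pair hv))) :)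

theorem PrG.plf {G : α → EG} (h : PrG G) {t u : α → ℕ} (ht : Primrec t) (hu : Primrec u) :
    Primrec fun a => (G a).lf (t a) (u a) :=
  (Primrec.comp h.2.2.2.2.1 (Primrec.id.pair (ht.pair hu)) :)

theorem PrG.pep {G : α → EG} (h : PrG G) {t : α → ℕ} (ht : Primrec t) :
    Primrec fun a => (G a).ep (t a) :=
  (Primrec.comp h.2.2.2.2.2 (Primrec.id.pair ht) :)

theorem pr_ent {t s s' : α → ℕ} {ι : α → Inf} {v : α → Option (List (ℕ × Bool))}
    (ht : Primrec t) (hs : Primrec s) (hs' : Primrec s') (hι : Primrec ι) (hv : Primrec v) :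
    Primrec fun a => ((t a, s a, s' a, ι a, v a) : Ent) :=
  ht.pair (hs.pair (hs'.pair (hι.pair hv)))

theorem pr_Kcert {Q : α → ℕ → ℕ → ℕ → ℕ → Bool} (hQ : PrQ Q) {G : α → EG} (hG : PrG G)
    {n : α → ℕ} (hn : Primrec n) {tb : α → List Ent} (htb : Primrec tb) :
    PrimrecPred fun a => Kcert (Q a) (G a) (n a) (tb a) := by
  have hn3 : Primrec fun a => 2 * n a + 3 := pr_add (pr_mul (pr_c 2) hn) (pr_c 3)
  unfold Kcert
  refine pp_and ?_ (pp_and ?_ (pp_and ?_ ?_))
  · -- empty rules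
    refine pp_blt hG.pN ?_
    refine pp_imp (pp_true ((hG.comp Primrec.fst).pep Primrec.snd)) ?_
    refine pp_blt (hn3.comp Primrec.fst) ?_
    have ht : Primrec fun x : (α × ℕ) × ℕ => x.1.2 := Primrec.snd.comp Primrec.fst
    have hs : Primrec fun x : (α × ℕ) × ℕ => x.2 := Primrec.snd
    have htb' : Primrec fun x : (α × ℕ) × ℕ => tb x.1.1 :=
      htb.comp (Primrec.fst.comp Primrec.fst)
    exact pp_or (pp_mem (pr_ent ht hs hs (pr_c _) (pr_c _)) htb')
      (pp_mem (pr_ent ht hs hs (pr_c _) (pr_c _)) htb')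
  · -- letter rules
    refine pp_blt hG.pN ?_
    refine pp_blt (hG.pA.comp Primrec.fst) ?_
    have hG2 : PrG fun x : (α × ℕ) × ℕ => G x.1.1 := hG.comp (Primrec.fst.comp Primrec.fst)
    refine pp_imp (pp_true (hG2.plf (Primrec.snd.comp Primrec.fst) Primrec.snd)) ?_
    refine pp_blt (hn3.comp (Primrec.fst.comp Primrec.fst)) ?_
    refine pp_blt (hn3.comp (Primrec.fst.comp (Primrec.fst.comp Primrec.fst))) ?_
    have h4 : Primrec fun x : (((α × ℕ) × ℕ) × ℕ) × ℕ => x.1.1.1.1 :=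
      Primrec.fst.comp (Primrec.fst.comp (Primrec.fst.comp Primrec.fst))
    have ht : Primrec fun x : (((α × ℕ) × ℕ) × ℕ) × ℕ => x.1.1.1.2 :=
      Primrec.snd.comp (Primrec.fst.comp (Primrec.fst.comp Primrec.fst))
    have ha : Primrec fun x : (((α × ℕ) × ℕ) × ℕ) × ℕ => x.1.1.2 :=
      Primrec.snd.comp (Primrec.fst.comp Primrec.fst)
    have hs : Primrec fun x : (((α × ℕ) × ℕ) × ℕ) × ℕ => x.1.2 := Primrec.snd.comp Primrec.fst
    have hs' : Primrec fun x : (((α × ℕ) × ℕ) × ℕ) × ℕ => x.2 := Primrec.snd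
    have hlh : Primrec fun x : (((α × ℕ) × ℕ) × ℕ) × ℕ => Inf.S (lh x.1.1.2).toList :=
      pr_S (Primrec.optionToList.comp (pr_lh.comp ha))
    refine pp_imp (pp_eq (pr_dst (hn.comp h4) hs ha) (Primrec.option_some.comp hs')) ?_
    exact pp_or (pp_mem (pr_ent ht hs hs' hlh (pr_c _)) (htb.comp h4))
      (pp_mem (pr_ent ht hs hs' hlh (Primrec.option_some.comp
        (pr_rv.comp (pr_cons ha (pr_c []))))) (htb.comp h4))
  · -- binary rules
    refine pp_blt hG.pN ?_
    refine pp_ball (htb.comp Primrec.fst) ?_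
    refine pp_ball (htb.comp (Primrec.fst.comp Primrec.fst)) ?_
    have h3 : Primrec fun x : ((α × ℕ) × Ent) × Ent => x.1.1.1 :=
      Primrec.fst.comp (Primrec.fst.comp Primrec.fst)
    have ht : Primrec fun x : ((α × ℕ) × Ent) × Ent => x.1.1.2 :=
      Primrec.snd.comp (Primrec.fst.comp Primrec.fst)
    have he1 : Primrec fun x : ((α × ℕ) × Ent) × Ent => x.1.2 := Primrec.snd.comp Primrec.fst
    have he2 : Primrec fun x : ((α × ℕ) × Ent) × Ent => x.2 := Primrec.snd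
    have pt : Primrec fun e : Ent => e.1 := Primrec.fst
    have ps : Primrec fun e : Ent => e.2.1 := Primrec.fst.comp Primrec.snd
    have ps' : Primrec fun e : Ent => e.2.2.1 := Primrec.fst.comp (Primrec.snd.comp Primrec.snd)
    have pι : Primrec fun e : Ent => e.2.2.2.1 :=
      Primrec.fst.comp (Primrec.snd.comp (Primrec.snd.comp Primrec.snd))
    have pv : Primrec fun e : Ent => e.2.2.2.2 :=
      Primrec.snd.comp (Primrec.snd.comp (Primrec.snd.comp Primrec.snd))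
    refine pp_imp (pp_true ((hG.comp h3).pbin ht (pt.comp he1) (pt.comp he2))) ?_
    refine pp_imp (pp_eq (ps'.comp he1) (ps.comp he2)) ?_
    refine pp_opt (pr_comb (hQ.comp h3) (pι.comp he1) (pι.comp he2)) ?_
    have k0 : Primrec fun x : (((α × ℕ) × Ent) × Ent) × Inf => x.1 := Primrec.fst
    refine pp_or (pp_mem (pr_ent (ht.comp k0) (ps.comp (he1.comp k0)) (ps'.comp (he2.comp k0))
      Primrec.snd (pr_c _)) (htb.comp (h3.comp k0))) ?_
    refine PrimrecPred.of_eq (p := fun x : (((α × ℕ) × Ent) × Ent) × Inf =>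
      ∃ g₁, x.1.1.2.2.2.2.2 = some g₁ ∧ ∃ g₂, x.1.2.2.2.2.2 = some g₂ ∧
        ((x.1.1.1.2, x.1.1.2.2.1, x.1.2.2.2.1, x.2, some (rmul g₁ g₂)) : Ent) ∈ tb x.1.1.1.1)
      ?_ (fun x => ⟨fun ⟨g₁, h1, g₂, h2, h3⟩ => ⟨g₁, g₂, h1, h2, h3⟩,
        fun ⟨g₁, g₂, h1, h2, h3⟩ => ⟨g₁, h1, g₂, h2, h3⟩⟩)
    refine pp_optex (pv.comp (he1.comp k0)) ?_
    refine pp_optex (pv.comp (he2.comp (k0.comp Primrec.fst))) ?_
    have k2 : Primrec fun x : ((((((α × ℕ) × Ent) × Ent) × Inf) × List (ℕ × Bool)) ×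
      List (ℕ × Bool)) => x.1.1.1 := Primrec.fst.comp (Primrec.fst.comp Primrec.fst)
    exact pp_mem (pr_ent (ht.comp k2) (ps.comp (he1.comp k2)) (ps'.comp (he2.comp k2))
      (Primrec.snd.comp (Primrec.fst.comp Primrec.fst)) (Primrec.option_some.comp
        (pr_rmul.comp (Primrec.snd.comp Primrec.fst) Primrec.snd))) (htb.comp (h3.comp k2))
  · -- final values
    refine pp_ball htb ?_
    have he : Primrec fun x : α × Ent => x.2 := Primrec.snd
    have ps : Primrec fun x : α × Ent => x.2.2.1 := Primrec.fst.comp (Primrec.snd.comp he)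
    have ps' : Primrec fun x : α × Ent => x.2.2.2.1 :=
      Primrec.fst.comp (Primrec.snd.comp (Primrec.snd.comp he))
    have pv : Primrec fun x : α × Ent => x.2.2.2.2.2 :=
      Primrec.snd.comp (Primrec.snd.comp (Primrec.snd.comp (Primrec.snd.comp he)))
    have hn2 : Primrec fun x : α × Ent => 2 * n x.1 := pr_mul (pr_c 2) (hn.comp Primrec.fst)
    exact pp_imp (pp_eq (Primrec.fst.comp he) (hG.pst.comp Primrec.fst))
      (pp_imp (pp_eq ps (pr_c 0)) (pp_imp (pp_or (pp_eq ps' (pr_add hn2 (pr_c 1)))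
        (pp_eq ps' (pr_add hn2 (pr_c 2)))) (pp_eq pv (pr_c _))))

end Pool.Agent.NGP
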