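import Pool.Agent.NGP.T2

/-!
# NGP, part T: long trees have loops
-/

namespace Pool.Agent.NGP

theorem Cx.fill_inj {c : Cx} {σ σ' : Tr} (h : c.fill σ = c.fill σ') : σ = σ' := by
  induction c with
  | hole => exact h
  | left t c r ih =>
    simp only [Cx.fill, Tr.nd.injEq, true_and, and_true] at h
    exact ih h
  | right t l c ih =>
    simp only [Cx.fill, Tr.nd.injEq, true_and] at h
    exact ih h

/-- Chains of nested nodes with decreasing yields. -/
theorem exists_chain (k : ℕ) : ∀ τ : Tr, 2 ^ k ≤ τ.y.length →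
    ∃ (c : ℕ → Cx) (σ : ℕ → Tr), c 0 = Cx.hole ∧ σ 0 = τ ∧ (∀ j ≤ k, τ = (c j).fill (σ j)) ∧
      (∀ j < k, ∃ d, c (j + 1) = (c j).comp d) ∧
      ∀ j < k, (σ (j + 1)).y.length < (σ j).y.length := by
  induction k with
  | zero =>
    intro τ _
    exact ⟨fun _ => Cx.hole, fun _ => τ, rfl, rfl, fun _ _ => rfl,
      fun j hj => absurd hj (by omega), fun j hj => absurd hj (by omega)⟩
  | succ k ih =>
    have h2 : 2 ^ (k + 1) = 2 * 2 ^ k := by rw [pow_succ]; ring
    have hpos : 0 < 2 ^ k := Nat.pow_pos (by omega)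
    -- a smaller node below the root
    have top : ∀ (e : Cx) (σ₀ τ : Tr), e.fill σ₀ = τ → σ₀.y.length < τ.y.length →
        2 ^ k ≤ σ₀.y.length →
        ∃ (c : ℕ → Cx) (σ : ℕ → Tr), c 0 = Cx.hole ∧ σ 0 = τ ∧
          (∀ j ≤ k + 1, τ = (c j).fill (σ j)) ∧
          (∀ j < k + 1, ∃ d, c (j + 1) = (c j).comp d) ∧
          ∀ j < k + 1, (σ (j + 1)).y.length < (σ j).y.length := by
      intro e σ₀ τ he hlt hle
      obtain ⟨c, σ, h0, h0', hc1, hc2, hc3⟩ := ih σ₀ hle
      refine ⟨fun j => match j with | 0 => Cx.hole | j + 1 => e.comp (c j),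
        fun j => match j with | 0 => τ | j + 1 => σ j, rfl, rfl, ?_, ?_, ?_⟩
      · intro j hj
        rcases j with _ | j
        · rfl
        · show τ = (e.comp (c j)).fill (σ j)
          rw [Cx.fill_comp, ← hc1 j (by omega), he]
      · intro j hj
        rcases j with _ | j
        · exact ⟨e.comp (c 0), rfl⟩
        · obtain ⟨d, hd⟩ := hc2 j (by omega)
          exact ⟨d, by show e.comp (c (j + 1)) = (e.comp (c j)).comp d; rw [hd, Cx.comp_assoc]⟩
      · intro j hj
        rcases j with _ | j
        · show (σ 0).y.length < τ.y.length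
          rw [h0']; exact hlt
        · exact hc3 j (by omega)
    -- a node with the same yield
    have same : ∀ (e : Cx) (σ₀ τ : Tr), e.fill σ₀ = τ → σ₀.y.length = τ.y.length →
        (∃ (c : ℕ → Cx) (σ : ℕ → Tr), c 0 = Cx.hole ∧ σ 0 = σ₀ ∧
          (∀ j ≤ k + 1, σ₀ = (c j).fill (σ j)) ∧
          (∀ j < k + 1, ∃ d, c (j + 1) = (c j).comp d) ∧
          ∀ j < k + 1, (σ (j + 1)).y.length < (σ j).y.length) →
        ∃ (c : ℕ → Cx) (σ : ℕ → Tr), c 0 = Cx.hole ∧ σ 0 = τ ∧
          (∀ j ≤ k + 1, τ = (c j).fill (σ j)) ∧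
          (∀ j < k + 1, ∃ d, c (j + 1) = (c j).comp d) ∧
          ∀ j < k + 1, (σ (j + 1)).y.length < (σ j).y.length := by
      rintro e σ₀ τ he hlen ⟨c, σ, h0, h0', hc1, hc2, hc3⟩
      refine ⟨fun j => match j with | 0 => Cx.hole | j + 1 => e.comp (c (j + 1)),
        fun j => match j with | 0 => τ | j + 1 => σ (j + 1), rfl, rfl, ?_, ?_, ?_⟩
      · intro j hj
        rcases j with _ | j
        · rfl
        · show τ = (e.comp (c (j + 1))).fill (σ (j + 1))
          rw [Cx.fill_comp, ← hc1 (j + 1) hj, he]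
      · intro j hj
        rcases j with _ | j
        · exact ⟨e.comp (c 1), rfl⟩
        · obtain ⟨d, hd⟩ := hc2 (j + 1) hj
          exact ⟨d, by
            show e.comp (c (j + 1 + 1)) = (e.comp (c (j + 1))).comp d
            rw [hd, Cx.comp_assoc]⟩
      · intro j hj
        rcases j with _ | j
        · show (σ 1).y.length < τ.y.length
          have := hc3 0 hj
          rw [h0', hlen] at this
          exact this
        · exact hc3 (j + 1) hj
    intro τ
    induction τ with
    | ep t => intro h; simp only [Tr.y, List.length_nil] at h; omega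
    | lf t a => intro h; simp only [Tr.y, List.length_singleton] at h; omega
    | nd t l r ihl ihr =>
      intro h
      have hlen : (Tr.nd t l r).y.length = l.y.length + r.y.length := by
        simp [Tr.y]
      by_cases hr0 : r.y.length = 0
      · exact same (Cx.left t Cx.hole r) l _ rfl (by omega) (ihl (by omega))
      by_cases hl0 : l.y.length = 0
      · exact same (Cx.right t l Cx.hole) r _ rfl (by omega) (ihr (by omega))
      by_cases hl : 2 ^ k ≤ l.y.length
      · exact top (Cx.left t Cx.hole r) l _ rfl (by omega) hl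
      · exact top (Cx.right t l Cx.hole) r _ rfl (by omega) (by omega)

/-- A long tree has a loop with nonempty effect. -/
theorem exists_loop {G : EG} {τ : Tr} (hok : τ.ok G) (h : 2 ^ G.N ≤ τ.y.length) :
    ∃ c d σ, Lp τ c d σ ∧ (d.pre ≠ [] ∨ d.post ≠ []) := by
  obtain ⟨c, σ, h0, h0', hc1, hc2, hc3⟩ := exists_chain G.N τ h
  have hty : ∀ j ≤ G.N, (σ j).ty < G.N := by
    intro j hj
    apply Tr.ty_lt
    apply Cx.ok_fill (c := c j)
    rw [← hc1 j hj]; exact hok
  obtain ⟨i, hi, j, hj, hij, he⟩ := Finset.exists_ne_map_eq_of_card_lt_of_maps_to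
    (s := Finset.range (G.N + 1)) (t := Finset.range G.N) (f := fun j => (σ j).ty)
    (by simp) (by
      intro j hj
      simp only [Finset.coe_range, Set.mem_Iio] at hj ⊢
      exact hty j (by omega))
  simp only [Finset.mem_range] at hi hj
  wlog hlt : i < j generalizing i j
  · exact this j i (Ne.symm hij) he.symm hj hi (by omega)
  -- composition of the steps
  have hcomp : ∀ m, i + m ≤ G.N → ∃ d, c (i + m) = (c i).comp d := by
    intro m
    induction m with
    | zero => intro _; exact ⟨Cx.hole, by simp [Cx.comp_hole]⟩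
    | succ m ihm =>
      intro hm
      obtain ⟨d, hd⟩ := ihm (by omega)
      obtain ⟨d', hd'⟩ := hc2 (i + m) (by omega)
      exact ⟨d.comp d', by rw [← add_assoc, hd', hd, Cx.comp_assoc]⟩
  obtain ⟨d, hd⟩ := hcomp (j - i) (by omega)
  rw [show i + (j - i) = j by omega] at hd
  have hfill : σ i = d.fill (σ j) := by
    apply Cx.fill_inj (c := c i)
    rw [← hc1 i (by omega), ← Cx.fill_comp, ← hd, ← hc1 j (by omega)]
  have hdec : ∀ m, i + m ≤ G.N → 0 < m → (σ (i + m)).y.length < (σ i).y.length := by
    intro m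
    induction m with
    | zero => intro _ h; omega
    | succ m ihm =>
      intro hm _
      have := hc3 (i + m) (by omega)
      rcases Nat.eq_zero_or_pos m with h0 | h0
      · subst h0; simpa using this
      · exact lt_trans this (ihm (by omega) h0)
  have hlt2 := hdec (j - i) (by omega) (by omega)
  rw [show i + (j - i) = j by omega] at hlt2
  refine ⟨c i, d, σ j, ⟨by rw [← hfill]; exact hc1 i (by omega), by rw [← hfill]; exact he⟩, ?_⟩
  by_contra hcon
  push_neg at hcon
  rw [hfill, Cx.y_fill, hcon.1, hcon.2] at hlt2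
  simp at hlt2

end Pool.Agent.NGP
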