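import Pool.Agent.NGP.UDefs

/-!
# NGP, part U, module U1: `adv` and windows

PROOF of `win_of_adv`: induction on `x`, generalizing `y a c`. If `x = []` and `y = []` the first
step of `adv` compares `b = d = 0`, it is `viol` unless `q a 0 c 0 = true`. If exactly one of `x`,
`y` is empty, `b = 0 ≠ d` or conversely, so `q a b c d = false` by `hq` and `adv` is `viol`. If both
are nonempty, `b, d ≥ 2`, so `q a b c d = true` and `adv` continues with the tails.

PROOF of `adv_of_win`: the same induction.
-/

namespace Pool.Agent.NGP

theorem win_of_adv {q : ℕ → ℕ → ℕ → ℕ → Bool} (hq : ∀ a b c d, q a b c d = true → (b = 0 ↔ d = 0))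
    {z z' : List ℕ} : ∀ {x y : List ℕ} {a c : ℕ}, (∀ b ∈ x, 2 ≤ b) → (∀ b ∈ y, 2 ≤ b) →
      adv q (a :: x ++ 0 :: z) (c :: y ++ 0 :: z') ≠ Adv.viol →
      x.length = y.length ∧ ∀ j ≤ x.length,
        q ((a :: x).getD j 0) (x.getD j 0) ((c :: y).getD j 0) (y.getD j 0) = true := by
  intro x
  induction x with
  | nil =>
    intro y a c hx hy h
    cases y with
    | nil =>
      simp only [List.nil_append, List.cons_append, adv] at h
      have h1 : q a 0 c 0 = true := by
        by_contra hcon
        simp [hcon] at h
      refine ⟨rfl, fun j hj => ?_⟩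
      have hj0 : j = 0 := by simpa using hj
      subst hj0
      simpa using h1
    | cons d y =>
      exfalso
      have hd : 2 ≤ d := hy d (by simp)
      simp only [List.nil_append, List.cons_append, adv] at h
      have h1 : ¬ (0 = 1 ∨ d = 1) := by omega
      have h2 : ¬ q a 0 c d = true := fun hh => by
        have := (hq _ _ _ _ hh).1 rfl
        omega
      rw [if_neg h1, if_neg h2] at h
      exact h rfl
  | cons b x ih =>
    intro y a c hx hy h
    have hb : 2 ≤ b := hx b (by simp)
    cases y with
    | nil =>
      exfalso
      simp only [List.nil_append, List.cons_append, adv] at h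
      have h1 : ¬ (b = 1 ∨ 0 = 1) := by omega
      have h2 : ¬ q a b c 0 = true := fun hh => by
        have := (hq _ _ _ _ hh).2 rfl
        omega
      rw [if_neg h1, if_neg h2] at h
      exact h rfl
    | cons d y =>
      have hd : 2 ≤ d := hy d (by simp)
      simp only [List.cons_append, adv] at h
      have h1 : ¬ (b = 1 ∨ d = 1) := by omega
      have h3 : ¬ (b = 0 ∨ d = 0) := by omega
      have h2 : q a b c d = true := by
        by_contra hcon
        rw [if_neg h1, if_neg hcon] at h
        exact h rfl
      rw [if_neg h1, if_pos h2, if_neg h3] at h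
      have h4 := ih (y := y) (a := b) (c := d) (fun b' hb' => hx b' (by simp [hb']))
        (fun b' hb' => hy b' (by simp [hb'])) (by simpa only [List.cons_append] using h)
      refine ⟨by simp [h4.1], fun j hj => ?_⟩
      cases j with
      | zero => simpa using h2
      | succ j =>
        have h5 := h4.2 j (by simpa using hj)
        simpa only [List.getD_cons_succ] using h5

theorem adv_of_win {q : ℕ → ℕ → ℕ → ℕ → Bool} {z z' : List ℕ} :
    ∀ {x y : List ℕ} {a c : ℕ}, (∀ b ∈ x, 2 ≤ b) → (∀ b ∈ y, 2 ≤ b) → x.length = y.length →
      (∀ j ≤ x.length,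
        q ((a :: x).getD j 0) (x.getD j 0) ((c :: y).getD j 0) (y.getD j 0) = true) →
      adv q (a :: x ++ 0 :: z) (c :: y ++ 0 :: z') = Adv.dead := by
  intro x
  induction x with
  | nil =>
    intro y a c hx hy hl hw
    cases y with
    | nil =>
      have h1 := hw 0 (by simp)
      simp only [List.nil_append, List.cons_append, adv]
      have h2 : q a 0 c 0 = true := by simpa using h1
      simp [h2]
    | cons d y => simp at hl
  | cons b x ih =>
    intro y a c hx hy hl hw
    have hb : 2 ≤ b := hx b (by simp)
    cases y with
    | nil => simp at hl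
    | cons d y =>
      have hd : 2 ≤ d := hy d (by simp)
      have h1 : ¬ (b = 1 ∨ d = 1) := by omega
      have h3 : ¬ (b = 0 ∨ d = 0) := by omega
      have h2 : q a b c d = true := by
        have := hw 0 (by simp)
        simpa using this
      simp only [List.cons_append, adv]
      rw [if_neg h1, if_pos h2, if_neg h3]
      have h4 := ih (y := y) (a := b) (c := d) (fun b' hb' => hx b' (by simp [hb']))
        (fun b' hb' => hy b' (by simp [hb'])) (by simpa using hl) (fun j hj => by
          have h5 := hw (j + 1) (by simpa using hj)
          simpa only [List.getD_cons_succ] using h5)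
      simpa only [List.cons_append] using h4

end Pool.Agent.NGP
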