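import Pool.Agent.NGP.UDefs

/-!
# NGP, part U, module U2: the rows of a periodic word

PROOF. (1) `adv q x y = viol → adv q (x ++ x') (y ++ y') = viol` (induction along `adv`), hence
`Vio q y → Vio q (u ++ y ++ v)`.
(2) For every `w : List ℕ` there is `L : List (List ℕ)`, `L ≠ []`, with
`(L.map fun u => 0 :: u).flatten = 0 :: w` and `∀ u ∈ L, ∀ a ∈ u, a ∈ w ∧ a ≠ 0` (induction on `w`:
`[[]]`; for `0 :: w` take `[] :: L`; for `a :: w`, `a ≠ 0`, put `a` in front of the first row).
(3) `Y = A ++ 0 :: B` (as `0 ∈ Y`); let `C = B ++ A`. Then `(0 :: C) ^ k` is an infix of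
`Y ^ (k + 1)` (`Y ^ (k+1) = A ++ (0 :: C) ^ k ++ 0 :: B`), so it has no violation.
(4) Take `L` of (2) for `w = C` and `u i = L[i % L.length]`. With `M = (List.replicate (i+3) L).flatten`
(length `≥ i + 3`, `M[j] = L[j % L.length]`), `(0 :: C) ^ (i+3) = (M.map fun u => 0 :: u).flatten =
P ++ (0 :: u i) ++ (0 :: u (i+1)) ++ (0 :: S)`. The centre is the `0` in front of `u (i+1)`: to its
left (reversed) stands `(u i).reverse ++ 0 :: P.reverse`, to its right `u (i+1) ++ 0 :: S`.
-/

namespace Pool.Agent.NGP

private theorem adv_append (q : ℕ → ℕ → ℕ → ℕ → Bool) (x' y' : List ℕ) :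
    ∀ x y : List ℕ, adv q x y = Adv.viol → adv q (x ++ x') (y ++ y') = Adv.viol
  | a :: b :: x, c :: d :: y, h => by
    rw [adv] at h
    change adv q (a :: b :: (x ++ x')) (c :: d :: (y ++ y')) = Adv.viol
    rw [adv]
    split_ifs at h ⊢ with h1 h2 h3
    · exact adv_append q x' y' (b :: x) (d :: y) h
    · rfl
  | [], y, h => by
    rw [adv] at h
    · exact absurd h (by simp)
    · intro a b x c d y h1; exact absurd h1 (by simp)
  | [a], y, h => by
    rw [adv] at h
    · exact absurd h (by simp)
    · intro a b x c d y h1; exact absurd h1 (by simp)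
  | a :: b :: x, [], h => by
    rw [adv] at h
    · exact absurd h (by simp)
    · intro a b x c d y _ h1; exact absurd h1 (by simp)
  | a :: b :: x, [c], h => by
    rw [adv] at h
    · exact absurd h (by simp)
    · intro a b x c d y _ h1; exact absurd h1 (by simp)

private theorem vio_infix {q : ℕ → ℕ → ℕ → ℕ → Bool} {y : List ℕ} (u v : List ℕ) (h : Vio q y) :
    Vio q (u ++ y ++ v) := by
  obtain ⟨p, s, rfl, h1⟩ := h
  refine ⟨u ++ p, s ++ v, by simp, ?_⟩
  have h2 := adv_append q u.reverse v _ _ h1
  simpa using h2

private theorem exists_split (w : List ℕ) : ∃ L : List (List ℕ), L ≠ [] ∧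
    (L.map fun u => 0 :: u).flatten = 0 :: w ∧ ∀ u ∈ L, ∀ a ∈ u, a ∈ w ∧ a ≠ 0 := by
  induction w with
  | nil => exact ⟨[[]], by simp, by simp, by simp⟩
  | cons a w ih =>
    obtain ⟨L, hL, hf, hm⟩ := ih
    by_cases ha : a = 0
    · subst ha
      refine ⟨[] :: L, by simp, ?_, ?_⟩
      · rw [List.map_cons, List.flatten_cons, hf]; rfl
      · intro u hu b hb
        rcases List.mem_cons.1 hu with rfl | hu
        · simp at hb
        · exact ⟨List.mem_cons_of_mem _ (hm u hu b hb).1, (hm u hu b hb).2⟩
    · cases L with
      | nil => exact absurd rfl hL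
      | cons u0 L' =>
        refine ⟨(a :: u0) :: L', by simp, ?_, ?_⟩
        · rw [List.map_cons, List.flatten_cons] at hf ⊢
          have hf' : u0 ++ (L'.map fun u => 0 :: u).flatten = w := by
            have := hf
            rw [List.cons_append] at this
            exact (List.cons.inj this).2
          rw [List.cons_append, List.cons_append, hf']
        · intro u hu b hb
          rcases List.mem_cons.1 hu with rfl | hu
          · rcases List.mem_cons.1 hb with rfl | hb
            · exact ⟨List.mem_cons_self, ha⟩
            · have := hm u0 List.mem_cons_self b hb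
              exact ⟨List.mem_cons_of_mem _ this.1, this.2⟩
          · have := hm u (List.mem_cons_of_mem _ hu) b hb
            exact ⟨List.mem_cons_of_mem _ this.1, this.2⟩

private theorem rot_pow (A B : List ℕ) (k : ℕ) :
    (List.replicate (k + 1) (A ++ 0 :: B)).flatten =
      A ++ (List.replicate k (0 :: (B ++ A))).flatten ++ 0 :: B := by
  induction k with
  | zero => simp
  | succ k ih =>
    rw [List.replicate_succ, List.flatten_cons, ih, List.replicate_succ, List.flatten_cons]
    simp

private theorem rows_eq (L : List (List ℕ)) (k : ℕ) :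
    (List.replicate k L).flatten =
      (List.range (k * L.length)).map fun i => L.getD (i % L.length) [] := by
  induction k with
  | zero => simp
  | succ k ih =>
    rw [List.replicate_succ', List.flatten_append, ih, Nat.succ_mul, List.range_add,
      List.map_append, List.map_map]
    congr 1
    rw [List.flatten_singleton]
    refine List.ext_getElem (by simp) fun j h1 h2 => ?_
    rw [List.getElem_map, List.getElem_range]
    simp only [Function.comp_apply]
    rw [Nat.mul_add_mod_self_right, Nat.mod_eq_of_lt h1, List.getD_eq_getElem _ _ h1]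

private theorem pow_rows (L : List (List ℕ)) (w : List ℕ)
    (h : (L.map fun u => 0 :: u).flatten = w) (k : ℕ) :
    (List.replicate k w).flatten = ((List.replicate k L).flatten.map fun u => 0 :: u).flatten := by
  induction k with
  | zero => simp
  | succ k ih =>
    rw [List.replicate_succ, List.flatten_cons, ih, List.replicate_succ, List.flatten_cons,
      List.map_append, List.flatten_append, h]

theorem exists_rows {q : ℕ → ℕ → ℕ → ℕ → Bool} {Y : List ℕ} {g : ℕ} (h0 : 0 ∈ Y)
    (hY : ∀ a ∈ Y, a = 0 ∨ (2 ≤ a ∧ a < g + 2))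
    (hv : ∀ k : ℕ, ¬ Vio q (List.replicate k Y).flatten) :
    ∃ u : ℕ → List ℕ, (∀ i, ∀ a ∈ u i, 2 ≤ a) ∧
      ∀ i, ∃ z z' : List ℕ,
        adv q (0 :: (u i).reverse ++ 0 :: z) (0 :: u (i + 1) ++ 0 :: z') ≠ Adv.viol := by
  obtain ⟨A, B, rfl⟩ := List.append_of_mem h0
  obtain ⟨L, hL, hf, hm⟩ := exists_split (B ++ A)
  have hlen : 0 < L.length := List.length_pos_of_ne_nil hL
  set u : ℕ → List ℕ := fun i => L.getD (i % L.length) [] with hu
  have hmem : ∀ i, u i ∈ L := by
    intro i
    have h1 : i % L.length < L.length := Nat.mod_lt _ hlen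
    simp only [hu]
    rw [List.getD_eq_getElem _ _ h1]
    exact List.getElem_mem h1
  refine ⟨u, ?_, ?_⟩
  · intro i a ha
    obtain ⟨h1, h2⟩ := hm _ (hmem i) a ha
    rcases hY a (by
      rcases List.mem_append.1 h1 with h | h
      · exact List.mem_append_right _ (List.mem_cons_of_mem _ h)
      · exact List.mem_append_left _ h) with h3 | h3
    · exact absurd h3 h2
    · exact h3.1
  · intro i
    have h1 : ¬ Vio q (List.replicate (i + 3) (0 :: (B ++ A))).flatten := by
      intro h
      refine hv (i + 3 + 1) ?_
      rw [rot_pow]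
      exact vio_infix A (0 :: B) h
    obtain ⟨d, hd⟩ : ∃ d, (i + 3) * L.length = i + 3 + d :=
      ⟨(i + 3) * L.length - (i + 3), by
        have : i + 3 ≤ (i + 3) * L.length := Nat.le_mul_of_pos_right _ hlen
        omega⟩
    have h2 : (List.replicate (i + 3) (0 :: (B ++ A))).flatten =
        ((List.range (i + 3 + d)).map u |>.map fun v => 0 :: v).flatten := by
      rw [pow_rows L _ hf, rows_eq, hd]
    rw [List.range_add, List.range_succ, List.range_succ, List.range_succ] at h2
    simp only [List.map_append, List.flatten_append, List.map_cons, List.map_nil,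
      List.flatten_cons, List.flatten_nil, List.append_nil] at h2
    refine ⟨(((List.range i).map u).map fun v => 0 :: v).flatten.reverse,
      u (i + 2) ++ ((((List.range d).map fun j => i + 3 + j).map u).map
        fun v => 0 :: v).flatten, fun hviol => h1 ?_⟩
    refine ⟨(((List.range i).map u).map fun v => 0 :: v).flatten ++ 0 :: u i,
      u (i + 1) ++ 0 :: (u (i + 2) ++ ((((List.range d).map fun j => i + 3 + j).map u).map
        fun v => 0 :: v).flatten), ?_, ?_⟩
    · rw [h2]
      simp
    · have h3 : ((((List.range i).map u).map fun v => 0 :: v).flatten ++ 0 :: u i).reverse =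
          (u i).reverse ++ 0 :: (((List.range i).map u).map fun v => 0 :: v).flatten.reverse := by
        simp
      rw [h3]
      exact hviol

end Pool.Agent.NGP
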