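import Pool.Agent.NGP.U1
import Pool.Agent.NGP.U2

/-!
# NGP, part U, module U3: no array for `W` implies that `mir W` is acyclic

PROOF. Let `Y` be a word of labels containing `0` and suppose that no power of `Y` has a violation
(otherwise done). `exists_rows` gives rows `u i`; `win_of_adv` (with `q = mir W`, whose value `true`
implies `b = 0 ↔ d = 0`) gives for every `i`: `|u i| = |u (i+1)|` and, with `X = 0 :: (u i).reverse`,
`Y = 0 :: u (i+1)`, `mir W (X.getD j 0) (X.getD (j+1) 0) (Y.getD j 0) (Y.getD (j+1) 0) = true` for all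
`j ≤ |u i|` (note `(a :: x).getD (j+1) 0 = x.getD j 0`). Let `N = |u 0| = |u i|`.
* `N > 0`: otherwise `mir W 0 0 0 0 = true`, but `mir` is `false` if `a = b = 0`.
* `e i j := (0 :: u i).getD j 0`: `e i 0 = 0`, `e i (N+1) = 0`, `e i j ≥ 2` for `1 ≤ j ≤ N`, and
  `(0 :: (u i).reverse).getD j 0 = e i (N + 1 - j)` for `j ≤ N + 1`. So
  `mir W (e i (N+1-j)) (e i (N-j)) (e (i+1) j) (e (i+1) (j+1)) = true` for all `j ≤ N`.
* Parity: let `π i = e i N % 2` (the window `j = 0` has `par = e i N % 2`). By induction on `j`,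
  using `par a b = a % 2` for `a ≠ 0`: `e i (N+1-j) % 2 = π i` and `e (i+1) j % 2 = 1 - π i` for
  `1 ≤ j ≤ N`. In particular `π (i+1) = 1 - π i`.
* `ρ i j := if π i = 0 then e i j / 2 else e i (N + 1 - j) / 2` for `j ≤ N + 1` (any value else).
  If `π i = 1` (so `π (i+1) = 0`), window `j` gives `W (ρ i j) (ρ i (j+1)) (ρ (i+1) j) (ρ (i+1) (j+1))`.
  If `π i = 0` (so `π (i+1) = 1`), window `N - j` gives, as `mir` swaps,
  `W (e i j / 2) (e i (j+1) / 2) (e (i+1) (N-j+1) / 2) (e (i+1) (N-j) / 2)`, which is the same.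
So `Arr W N ρ`, a contradiction.
-/

namespace Pool.Agent.NGP

/-- The conditions of `mir`. -/
private theorem mir_spec {W : ℕ → ℕ → ℕ → ℕ → Bool} {a b c d : ℕ} (h : mir W a b c d = true) :
    ((a = 0 ↔ c = 0) ∧ (b = 0 ↔ d = 0) ∧ ¬ (a = 0 ∧ b = 0) ∧ (b = 0 ∨ b % 2 = par a b) ∧
      (c = 0 ∨ c % 2 = 1 - par a b) ∧ (d = 0 ∨ d % 2 = 1 - par a b)) ∧
    (par a b = 1 → W (a / 2) (b / 2) (c / 2) (d / 2) = true) ∧
    (par a b ≠ 1 → W (b / 2) (a / 2) (d / 2) (c / 2) = true) := by
  unfold mir at h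
  rw [Bool.and_eq_true, decide_eq_true_eq] at h
  obtain ⟨h1, h2⟩ := h
  refine ⟨h1, fun hp => ?_, fun hp => ?_⟩
  · rw [if_pos hp] at h2
    exact h2
  · rw [if_neg hp] at h2
    exact h2

theorem mir_acyc {W : ℕ → ℕ → ℕ → ℕ → Bool} (G : ℕ) (h : ∀ N ρ, ¬ Arr W N ρ) :
    Acyc (2 * G) (mir W) := by
  intro Y h0 hY
  by_contra hcon
  have hv : ∀ k : ℕ, ¬ Vio (mir W) (List.replicate k Y).flatten := fun k hk => hcon ⟨k, hk⟩
  obtain ⟨u, hu2, hadv⟩ := exists_rows h0 hY hv
  have hq : ∀ a b c d, mir W a b c d = true → (b = 0 ↔ d = 0) :=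
    fun a b c d hm => (mir_spec hm).1.2.1
  have hwin : ∀ i, (u i).reverse.length = (u (i + 1)).length ∧ ∀ j ≤ (u i).reverse.length,
      mir W ((0 :: (u i).reverse).getD j 0) ((u i).reverse.getD j 0) ((0 :: u (i + 1)).getD j 0)
        ((u (i + 1)).getD j 0) = true := by
    intro i
    obtain ⟨z, z', hz⟩ := hadv i
    exact win_of_adv hq (fun b hb => hu2 i b (List.mem_reverse.mp hb)) (hu2 (i + 1)) hz
  obtain ⟨N, hN⟩ : ∃ N, ∀ i, (u i).length = N := by
    refine ⟨(u 0).length, fun i => ?_⟩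
    induction i with
    | zero => rfl
    | succ i ih =>
      rw [← (hwin i).1, List.length_reverse, ih]
  obtain ⟨e, he⟩ : ∃ e : ℕ → ℕ → ℕ, ∀ i j, e i j = (0 :: u i).getD j 0 := ⟨_, fun _ _ => rfl⟩
  have he0 : ∀ i, e i 0 = 0 := fun i => by rw [he]; rfl
  have heS : ∀ i j, e i (j + 1) = (u i).getD j 0 := fun i j => by
    rw [he, List.getD_cons_succ]
  have heN : ∀ i, e i (N + 1) = 0 := fun i => by
    rw [heS, List.getD_eq_default]
    exact (hN i).le
  have he2 : ∀ i j, 1 ≤ j → j ≤ N → 2 ≤ e i j := by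
    intro i j hj hjN
    obtain ⟨j, rfl⟩ := Nat.exists_eq_add_of_le' hj
    have hlt : j < (u i).length := by
      rw [hN i]; omega
    rw [heS, List.getD_eq_getElem _ _ hlt]
    exact hu2 i _ (List.getElem_mem hlt)
  have hrev : ∀ i, ∀ j ≤ N, (u i).reverse.getD j 0 = e i (N - j) := by
    intro i j hj
    rcases Nat.lt_or_ge j N with hlt | hge
    · have h1 : N - j = (N - 1 - j) + 1 := by omega
      have hlt' : j < (u i).reverse.length := by
        rw [List.length_reverse, hN i]; exact hlt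
      have hlt2 : N - 1 - j < (u i).length := by
        rw [hN i]; omega
      rw [h1, heS, List.getD_eq_getElem _ _ hlt', List.getD_eq_getElem _ _ hlt2,
        List.getElem_reverse]
      congr 1
      rw [hN i]
    · have h1 : N - j = 0 := by omega
      rw [h1, he0, List.getD_eq_default]
      rw [List.length_reverse, hN i]
      exact hge
  have hrev' : ∀ i, ∀ j ≤ N, (0 :: (u i).reverse).getD j 0 = e i (N + 1 - j) := by
    intro i j hj
    rcases j with _ | j
    · rw [Nat.sub_zero, heN]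
      rfl
    · rw [List.getD_cons_succ, hrev i j (by omega)]
      congr 1
      omega
  have hw : ∀ i, ∀ j ≤ N,
      mir W (e i (N + 1 - j)) (e i (N - j)) (e (i + 1) j) (e (i + 1) (j + 1)) = true := by
    intro i j hj
    have h1 := (hwin i).2 j (by rw [List.length_reverse, hN i]; exact hj)
    rw [hrev' i j hj, hrev i j hj, ← he, ← heS] at h1
    exact h1
  have hNpos : 0 < N := by
    rcases Nat.eq_zero_or_pos N with h1 | h1
    · exfalso
      have h2 := (mir_spec (hw 0 0 (Nat.zero_le _))).1.2.2.1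
      apply h2
      refine ⟨?_, ?_⟩
      · rw [Nat.sub_zero]
        exact heN 0
      · rw [h1, Nat.sub_zero]
        exact he0 0
    · exact h1
  obtain ⟨π, hπ⟩ : ∃ π : ℕ → ℕ, ∀ i, π i = e i N % 2 := ⟨_, fun _ => rfl⟩
  have hπ2 : ∀ i, π i < 2 := fun i => by
    rw [hπ]; exact Nat.mod_lt _ (by norm_num)
  have hpar : ∀ i, ∀ j ≤ N, par (e i (N + 1 - j)) (e i (N - j)) = π i := by
    intro i j
    induction j with
    | zero =>
      intro _
      rw [Nat.sub_zero, Nat.sub_zero, heN, hπ]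
      rfl
    | succ j ih =>
      intro hj
      have h1 := ih (by omega)
      have h2 := (mir_spec (hw i j (by omega))).1.2.2.2.1
      rw [h1] at h2
      have h3 : 2 ≤ e i (N - j) := he2 i (N - j) (by omega) (by omega)
      have h4 : N + 1 - (j + 1) = N - j := by omega
      rw [h4]
      unfold par
      rw [if_neg (by omega)]
      rcases h2 with h2 | h2
      · omega
      · exact h2
  have hpi : ∀ i, π (i + 1) = 1 - π i := by
    intro i
    have h1 := (mir_spec (hw i N le_rfl)).1.2.2.2.2.1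
    rw [hpar i N le_rfl] at h1
    have h2 := he2 (i + 1) N hNpos le_rfl
    rw [hπ (i + 1)]
    rcases h1 with h1 | h1
    · omega
    · exact h1
  refine h N (fun i j => if π i = 0 then e i j / 2 else e i (N + 1 - j) / 2) ⟨hNpos, ?_, ?_⟩
  · intro i
    refine ⟨?_, ?_, ?_⟩
    · show (if π i = 0 then e i 0 / 2 else e i (N + 1 - 0) / 2) = 0
      rw [Nat.sub_zero, he0, heN]
      simp
    · show (if π i = 0 then e i (N + 1) / 2 else e i (N + 1 - (N + 1)) / 2) = 0
      rw [Nat.sub_self, he0, heN]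
      simp
    · intro j hj hjN
      show 1 ≤ (if π i = 0 then e i j / 2 else e i (N + 1 - j) / 2)
      have h1 := he2 i j hj hjN
      have h2 := he2 i (N + 1 - j) (by omega) (by omega)
      split_ifs <;> omega
  · intro i j hj
    show W (if π i = 0 then e i j / 2 else e i (N + 1 - j) / 2)
      (if π i = 0 then e i (j + 1) / 2 else e i (N + 1 - (j + 1)) / 2)
      (if π (i + 1) = 0 then e (i + 1) j / 2 else e (i + 1) (N + 1 - j) / 2)
      (if π (i + 1) = 0 then e (i + 1) (j + 1) / 2 else e (i + 1) (N + 1 - (j + 1)) / 2) = true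
    have h4 : N + 1 - (j + 1) = N - j := by omega
    rw [h4]
    have hlt := hπ2 i
    rcases Nat.eq_zero_or_pos (π i) with hz | hz
    · have hz' : π (i + 1) = 1 := by rw [hpi, hz]
      rw [if_pos hz, if_pos hz, if_neg (by omega), if_neg (by omega)]
      have h1 := (mir_spec (hw i (N - j) (Nat.sub_le _ _))).2.2
        (by rw [hpar i (N - j) (Nat.sub_le _ _)]; omega)
      have h5 : N + 1 - (N - j) = j + 1 := by omega
      have h6 : N - (N - j) = j := by omega
      have h7 : N - j + 1 = N + 1 - j := by omega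
      rw [h5, h6, h7] at h1
      exact h1
    · have hz1 : π i = 1 := by omega
      have hz' : π (i + 1) = 0 := by rw [hpi, hz1]
      rw [if_neg (by omega), if_neg (by omega), if_pos hz', if_pos hz']
      exact (mir_spec (hw i j hj)).2.1 (by rw [hpar i j hj]; exact hz1)

end Pool.Agent.NGP
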